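import Pool.Agent.Lib.MP_7b7e48_nt.TE.Defs
import Pool.Agent.Lib.SW.SWFinal
import Pool.Agent.Lib.MP_7b7e48_nt.OW.T2
import Pool.Agent.Lib.MP_7b7e48_nt.PP.SwcA

/-!
# Module SWL (75 minutes): characters of small conductor

PROOF. `SW.mu_char k (1/(2 B + 2))` (`ε` so that `f^ε ≤ K^(1/2)` for `f ≤ K^B`): `‖∑_{n ≤ x} μ(n) ψ(n)‖ ≤ C K^(1/2) x/(log x)^k` for `ψ ≠ 1`. `lam = μ * [squares]`: `∑_{n ≤ y} lam(n) ψ(n) = ∑_{e ≤ √y} ψ(e)² ∑_{n ≤ y/e²} μ(n) ψ(n)`: `e ≤ y^(1/4)`: `mu_char` at `y/e² ≥ √y`; `e > y^(1/4)`: trivial `∑ y/e² ≤ 2 y^(3/4)`.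
So `‖∑_{n ≤ y} lam ψ‖ ≤ y/K^A'` for `y ≥ N^(1/20)`. `1_{(n,N)=1} lam(n) ψ(n)`: `= ∑_{k ∣ N squarefree} ψ(k) ∑_{n ≤ Y/k} lam(n) ψ(n)` (`μ(k) lam(k) = 1`); `k ≤ √Y`: the bound just proved and `OW.sqf_sum`; `k > √Y`: `OW.sqf_tail` (`θ = 1/2`). Same pattern as `OW/T2`, `OW/T3` (`t3_cop`, `t3_mult`).
Second statement: `OW.lam_cop` (`θ = 1/2`).
(In the file: split into the classes modulo `f` and apply `PP.swa_dom`, which is uniform in the modulus.)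
-/

set_option autoImplicit false

open Finset

namespace Pool.Agent.Lib.TE

private theorem SWL_dom (N f a Y : ℕ) (hN : 2 ≤ N) (ha : a < f) :
    ∑ n ∈ (Icc 1 Y).filter (fun n => n % f = a), FN N n =
      ∑ n ∈ Pool.Agent.Lib.OW.Dom N f a (Y + 1), Pool.Agent.Lib.MP_45349e_nt.LS.lam n := by
  unfold FN
  rw [← sum_filter]
  refine sum_congr ?_ fun _ _ => rfl
  ext n
  unfold Pool.Agent.Lib.OW.Dom
  rw [mem_filter, mem_filter, mem_filter, mem_Icc, mem_range]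
  have h1 : n ≡ a [MOD f] ↔ n % f = a := by
    unfold Nat.ModEq
    rw [Nat.mod_eq_of_lt ha]
  rw [h1]
  constructor
  · rintro ⟨⟨⟨h2, h3⟩, h4⟩, h5⟩
    exact ⟨by omega, h4, h5⟩
  · rintro ⟨h2, h4, h5⟩
    refine ⟨⟨⟨?_, by omega⟩, h4⟩, h5⟩
    rcases Nat.eq_zero_or_pos n with h6 | h6
    · rw [h6, Nat.coprime_zero_left] at h5
      omega
    · exact h6

private theorem SWL_core (A : ℕ) : ∃ N0 : ℕ, ∀ N : ℕ, N0 ≤ N → 2 ≤ N ∧ 2 ≤ Real.log N ∧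
    ∀ Y : ℕ, (N : ℝ) ^ ((1 : ℝ) / 9) ≤ Y → 1 ≤ Y ∧ ∀ f : ℕ, 1 ≤ f → ∀ a : ℕ, a < f →
    a.Coprime f → |∑ n ∈ (Icc 1 Y).filter (fun n => n % f = a), FN N n| ≤
      2 * Y / (Real.log N) ^ A := by
  obtain ⟨N1, hN1⟩ := Pool.Agent.Lib.PP.swa_dom (1 / 2) (by norm_num) (by norm_num) A
  obtain ⟨N2, hN2⟩ := (((Real.tendsto_log_atTop.comp tendsto_natCast_atTop_atTop).eventually
    (Filter.eventually_ge_atTop (81 : ℝ)))).exists_forall_of_atTop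
  refine ⟨max (max N1 N2) 2, fun N hN => ?_⟩
  have hNN1 : N1 ≤ N := (le_max_left _ _).trans ((le_max_left _ _).trans hN)
  have hK : (81 : ℝ) ≤ Real.log N := hN2 N ((le_max_right _ _).trans ((le_max_left _ _).trans hN))
  have hN2' : 2 ≤ N := (le_max_right _ _).trans hN
  have hNR : (0 : ℝ) < N := by
    have : 0 < N := by omega
    exact_mod_cast this
  refine ⟨hN2', by linarith, fun Y hY => ?_⟩
  obtain ⟨K, hKd⟩ : ∃ K : ℝ, K = Real.log N := ⟨_, rfl⟩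
  have hsq : Real.exp (K ^ ((1 : ℝ) / 2)) ≤ Y := by
    refine le_trans ?_ hY
    rw [Real.rpow_def_of_pos hNR, Real.exp_le_exp, ← hKd, ← Real.sqrt_eq_rpow]
    rw [← hKd] at hK
    have h1 : (9 : ℝ) ≤ Real.sqrt K := Real.le_sqrt_of_sq_le (by linarith)
    have h2 : Real.sqrt K * Real.sqrt K = K := Real.mul_self_sqrt (by linarith)
    nlinarith
  have hY1 : (1 : ℝ) ≤ Y := by
    have h1 := Real.add_one_le_exp (K ^ ((1 : ℝ) / 2))
    have h2 : 0 ≤ K ^ ((1 : ℝ) / 2) := Real.rpow_nonneg (by rw [hKd]; linarith) _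
    linarith
  refine ⟨by exact_mod_cast hY1, fun f hf a ha hc => ?_⟩
  rw [SWL_dom N f a Y hN2' ha]
  have h1 := hN1 N hNN1 f hf a (Y + 1) hc (by
    rw [← hKd]
    push_cast
    linarith)
  refine h1.trans ?_
  refine div_le_div_of_nonneg_right ?_ (by positivity)
  push_cast
  linarith

theorem swl (A B : ℕ) : ∃ N0 : ℕ, ∀ N : ℕ, N0 ≤ N → ∀ Y : ℕ, (N : ℝ) ^ ((1 : ℝ) / 9) ≤ Y → Y ≤ N → ∀ f : ℕ, 1 < f →
    (f : ℝ) ≤ (Real.log N) ^ B → ∀ ψ : DirichletCharacter ℂ f, ψ ≠ 1 → ‖LamC N Y ψ‖ ≤ Y / (Real.log N) ^ A := by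
  obtain ⟨N0, hN0⟩ := SWL_core (A + 1 + B)
  refine ⟨N0, fun N hN Y hY _ f hf hfB ψ _ => ?_⟩
  obtain ⟨hN2, hK, h1⟩ := hN0 N hN
  obtain ⟨hY1, h2⟩ := h1 Y hY
  obtain ⟨K, hKd⟩ : ∃ K : ℝ, K = Real.log N := ⟨_, rfl⟩
  rw [← hKd] at hK hfB h2 ⊢
  have hK0 : 0 < K := by linarith
  have hYR : (1 : ℝ) ≤ Y := by exact_mod_cast hY1
  have : NeZero f := ⟨by omega⟩
  have hsplit : LamC N Y ψ = ∑ a ∈ range f, ψ ((a : ℕ) : ZMod f) *
      ((∑ n ∈ (Icc 1 Y).filter (fun n => n % f = a), FN N n : ℝ) : ℂ) := by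
    unfold LamC
    rw [← sum_fiberwise_of_maps_to (s := Icc 1 Y) (t := range f) (g := fun n => n % f)
      (fun n _ => mem_range.2 (Nat.mod_lt n (by omega)))]
    refine sum_congr rfl fun a _ => ?_
    rw [Complex.ofReal_sum, mul_sum]
    refine sum_congr rfl fun n hn => ?_
    have h3 : n % f = a := (mem_filter.1 hn).2
    have h4 : ((n : ℕ) : ZMod f) = ((a : ℕ) : ZMod f) := by
      rw [← h3, ZMod.natCast_mod]
    rw [h4, mul_comm]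
  have hone : ∀ a ∈ range f, ‖ψ ((a : ℕ) : ZMod f) *
      ((∑ n ∈ (Icc 1 Y).filter (fun n => n % f = a), FN N n : ℝ) : ℂ)‖ ≤
        2 * Y / K ^ (A + 1 + B) := by
    intro a ha
    by_cases hc : a.Coprime f
    · rw [norm_mul, Complex.norm_real, Real.norm_eq_abs]
      calc ‖ψ ((a : ℕ) : ZMod f)‖ * |∑ n ∈ (Icc 1 Y).filter (fun n => n % f = a), FN N n| ≤
            1 * (2 * Y / K ^ (A + 1 + B)) :=
            mul_le_mul (DirichletCharacter.norm_le_one ψ _) (h2 f (by omega) a (mem_range.1 ha) hc)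
              (abs_nonneg _) zero_le_one
        _ = _ := one_mul _
    · have h3 : ψ ((a : ℕ) : ZMod f) = 0 :=
        ψ.map_nonunit fun h4 => hc ((ZMod.isUnit_iff_coprime a f).1 h4)
      rw [h3, zero_mul, norm_zero]
      positivity
  rw [hsplit]
  calc ‖∑ a ∈ range f, ψ ((a : ℕ) : ZMod f) *
        ((∑ n ∈ (Icc 1 Y).filter (fun n => n % f = a), FN N n : ℝ) : ℂ)‖ ≤
        ∑ a ∈ range f, 2 * Y / K ^ (A + 1 + B) := (norm_sum_le _ _).trans (sum_le_sum hone)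
    _ = f * (2 * Y / K ^ (A + 1 + B)) := by rw [sum_const, card_range, nsmul_eq_mul]
    _ ≤ K ^ B * (2 * Y / K ^ (A + 1 + B)) := mul_le_mul_of_nonneg_right hfB (by positivity)
    _ = 2 / K * (Y / K ^ A) := by
        rw [pow_add, pow_add]
        field_simp
    _ ≤ 1 * (Y / K ^ A) := by
        refine mul_le_mul_of_nonneg_right ?_ (by positivity)
        rw [div_le_iff₀ hK0]
        linarith
    _ = Y / K ^ A := one_mul _

theorem swl_one (A : ℕ) : ∃ N0 : ℕ, ∀ N : ℕ, N0 ≤ N → ∀ Y : ℕ, (N : ℝ) ^ ((1 : ℝ) / 9) ≤ Y →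
    |∑ n ∈ Icc 1 Y, FN N n| ≤ Y / (Real.log N) ^ A := by
  obtain ⟨N0, hN0⟩ := SWL_core (A + 1)
  refine ⟨N0, fun N hN Y hY => ?_⟩
  obtain ⟨hN2, hK, h1⟩ := hN0 N hN
  obtain ⟨hY1, h2⟩ := h1 Y hY
  have h3 := h2 1 le_rfl 0 zero_lt_one (Nat.coprime_one_right 0)
  have h4 : (Icc 1 Y).filter (fun n => n % 1 = 0) = Icc 1 Y :=
    filter_true_of_mem fun n _ => Nat.mod_one n
  rw [h4] at h3
  refine h3.trans ?_
  have hK0 : 0 < Real.log N := by linarith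
  have hYR : (1 : ℝ) ≤ Y := by exact_mod_cast hY1
  rw [div_le_div_iff₀ (by positivity) (by positivity), pow_succ]
  have h5 : 0 ≤ (Y : ℝ) * Real.log N ^ A := by positivity
  calc 2 * (Y : ℝ) * Real.log N ^ A = 2 * (Y * Real.log N ^ A) := by ring
    _ ≤ Real.log N * (Y * Real.log N ^ A) := mul_le_mul_of_nonneg_right hK h5
    _ = Y * (Real.log N ^ A * Real.log N) := by ring

end Pool.Agent.Lib.TE
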