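import Pool.Agent.Lib.MP_7b7e48_nt.TE.Esb

/-!
# Module ExtH (60 minutes): the weights of the extended family

The extended family: `(x, S1, S2)`, `S1, S2` sets of at most `T0` primes `≤ z`, `S2` consists of primes not dividing `m x`; modulus `m x · ∏ S2`, weight `T/(m ∏ S1 ∏ S2)`.
PROOF. `j ∣ m ∏ S2` with `∏ S2` squarefree and coprime to `m`: `j = j1 j2`, `j1 = gcd(j, m)`, `j2 = j/j1 ∣ ∏ S2`, squarefree: `j2 = ∏ S'`, `S' ⊆ S2`. For fixed `j1 j2 = j` (`≤ τ(j)` ways): `∑_{S1} 1/∏ S1 ≤ K^5`, `∑_{S2 ⊇ S'} 1/∏ S2 ≤ K^5/j2` (`esb2` with `x_p = 1/p`), `∑_{x : j1 ∣ m} T/m ≤ Th (j1^(-1/2) + N^(-e))`.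
Total `≤ K^10 Th ∑_{j1 j2 = j} (j1^(-1/2) + N^(-e))/j2 ≤ K^10 Th τ(j) (j^(-1/2) + N^(-e))`. If `j > N` the left side is `0` (moduli `≤ N^(1/1000)`); for `j ≤ N`: `τ(j) ≤ C j^(1/4)` and `τ(j) ≤ N^(e/2)` (`RG.divisor_bound`), so `≤ K^11 Th (j^(-1/4) + N^(-e/2))`.
-/

set_option autoImplicit false

open Finset

namespace Pool.Agent.Lib.TE

private theorem extH_sqf (S : Finset ℕ) (hS : ∀ p ∈ S, p.Prime) : Squarefree (∏ p ∈ S, p) := by
  classical
  induction S using Finset.induction_on with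
  | empty => simp
  | insert a S ha ih =>
    rw [Finset.prod_insert ha, Nat.squarefree_mul_iff]
    have h1 : a.Prime := hS a (Finset.mem_insert_self _ _)
    have h2 : ∀ p ∈ S, p.Prime := fun p hp => hS p (Finset.mem_insert_of_mem hp)
    refine ⟨?_, h1.prime.squarefree, ih h2⟩
    refine Nat.Coprime.prod_right fun p hp => ?_
    rw [Nat.coprime_primes h1 (h2 p hp)]
    rintro rfl
    exact ha hp

private theorem extH_S2 (P : Finset ℕ) (hP : ∀ p ∈ P, p.Prime) (B : ℝ)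
    (hB : ∑ S ∈ P.powerset, ∏ p ∈ S, (1 / (p : ℝ)) ≤ B) (k : ℕ) (hk : 1 ≤ k) :
    ∑ S ∈ P.powerset.filter (fun S => k ∣ ∏ p ∈ S, p), 1 / (∏ p ∈ S, (p : ℝ)) ≤ B / k := by
  classical
  have hk0 : (0 : ℝ) < k := by exact_mod_cast hk
  have key : ∀ S ∈ P.powerset.filter (fun S => k ∣ ∏ p ∈ S, p),
      k.primeFactors ⊆ S ∧ 1 / (∏ p ∈ S, (p : ℝ)) =
        1 / k * ∏ p ∈ S \ k.primeFactors, (1 / (p : ℝ)) := by
    intro S hS
    rw [Finset.mem_filter, Finset.mem_powerset] at hS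
    have hSp : ∀ p ∈ S, p.Prime := fun p hp => hP p (hS.1 hp)
    have h1 : k.primeFactors ⊆ S := by
      intro p hp
      have hp' := Nat.prime_of_mem_primeFactors hp
      have h2 : p ∣ ∏ q ∈ S, q := (Nat.dvd_of_mem_primeFactors hp).trans hS.2
      obtain ⟨q, hq, hpq⟩ := hp'.prime.exists_mem_finset_dvd h2
      rwa [(Nat.prime_dvd_prime_iff_eq hp' (hSp q hq)).1 hpq]
    refine ⟨h1, ?_⟩
    have h3 : Squarefree k := (extH_sqf S hSp).squarefree_of_dvd hS.2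
    have h4 := Nat.prod_primeFactors_of_squarefree h3
    have h5 : ∏ p ∈ S, (p : ℝ) = k * ∏ p ∈ S \ k.primeFactors, (p : ℝ) := by
      rw [← Finset.prod_sdiff h1, mul_comm]
      congr 1
      calc ∏ p ∈ k.primeFactors, (p : ℝ) = ((∏ p ∈ k.primeFactors, p : ℕ) : ℝ) := by push_cast; rfl
        _ = k := by rw [h4]
    rw [h5, Finset.prod_div_distrib, Finset.prod_const_one, one_div_mul_one_div]
  rw [Finset.sum_congr rfl fun S hS => (key S hS).2, ← Finset.mul_sum]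
  have hinj : Set.InjOn (fun S => S \ k.primeFactors)
      (P.powerset.filter (fun S => k ∣ ∏ p ∈ S, p) : Set (Finset ℕ)) := by
    intro S hS S' hS' hSS
    have e1 := Finset.sdiff_union_of_subset (key S hS).1
    have e2 := Finset.sdiff_union_of_subset (key S' hS').1
    have e3 : S \ k.primeFactors = S' \ k.primeFactors := hSS
    rw [← e1, ← e2, e3]
  have h6 : ∑ S ∈ P.powerset.filter (fun S => k ∣ ∏ p ∈ S, p),
      ∏ p ∈ S \ k.primeFactors, (1 / (p : ℝ)) ≤ B := by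
    have h7 := Finset.sum_image (s := P.powerset.filter (fun S => k ∣ ∏ p ∈ S, p))
      (g := fun S => S \ k.primeFactors) (f := fun S : Finset ℕ => ∏ p ∈ S, (1 / (p : ℝ))) hinj
    refine le_trans (le_of_eq h7.symm) ?_
    refine le_trans (Finset.sum_le_sum_of_subset_of_nonneg ?_ ?_) hB
    · intro S hS
      rw [Finset.mem_image] at hS
      obtain ⟨S', hS', rfl⟩ := hS
      rw [Finset.mem_filter, Finset.mem_powerset] at hS'
      rw [Finset.mem_powerset]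
      exact Finset.sdiff_subset.trans hS'.1
    · intro S _ _
      exact Finset.prod_nonneg fun p _ => by positivity
  calc 1 / (k : ℝ) * _ ≤ 1 / k * B := mul_le_mul_of_nonneg_left h6 (by positivity)
    _ = B / k := by ring

open Classical in
private theorem extH_one (P : Finset ℕ) (hP : ∀ p ∈ P, p.Prime) (B : ℝ)
    (hB : ∑ S ∈ P.powerset, ∏ p ∈ S, (1 / (p : ℝ)) ≤ B) (t m j : ℕ) (hj : 1 ≤ j) :
    ∑ S ∈ P.powerset.filter (fun S => S.card ≤ t ∧ j ∣ m * ∏ p ∈ S, p),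
      1 / (∏ p ∈ S, (p : ℝ)) ≤ ∑ d ∈ j.divisors, if d ∣ m then B * ((d : ℝ) / j) else 0 := by
  have hj0 : (0 : ℝ) < j := by exact_mod_cast hj
  have hnn : ∀ S : Finset ℕ, (0 : ℝ) ≤ 1 / (∏ p ∈ S, (p : ℝ)) := fun S =>
    one_div_nonneg.2 (Finset.prod_nonneg fun p _ => Nat.cast_nonneg p)
  calc ∑ S ∈ P.powerset.filter (fun S => S.card ≤ t ∧ j ∣ m * ∏ p ∈ S, p),
      1 / (∏ p ∈ S, (p : ℝ))
      ≤ ∑ S ∈ P.powerset.filter (fun S => S.card ≤ t ∧ j ∣ m * ∏ p ∈ S, p),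
        ∑ d ∈ j.divisors, (if d ∣ m ∧ j / d ∣ ∏ p ∈ S, p then 1 / (∏ p ∈ S, (p : ℝ)) else 0) := by
        refine Finset.sum_le_sum fun S hS => ?_
        rw [Finset.mem_filter] at hS
        have h1 : Nat.gcd j m ∈ j.divisors :=
          Nat.mem_divisors.2 ⟨Nat.gcd_dvd_left j m, by omega⟩
        have h2 : Nat.gcd j m ∣ m ∧ j / Nat.gcd j m ∣ ∏ p ∈ S, p := by
          refine ⟨Nat.gcd_dvd_right j m, ?_⟩
          have hg : 0 < Nat.gcd j m := Nat.gcd_pos_of_pos_left m hj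
          have h3 : j / Nat.gcd j m ∣ m / Nat.gcd j m * ∏ p ∈ S, p := by
            obtain ⟨c, hc⟩ := hS.2.2
            refine ⟨c, ?_⟩
            have e1 := Nat.div_mul_cancel (Nat.gcd_dvd_left j m)
            have e2 := Nat.div_mul_cancel (Nat.gcd_dvd_right j m)
            refine Nat.eq_of_mul_eq_mul_left hg ?_
            calc Nat.gcd j m * (m / Nat.gcd j m * ∏ p ∈ S, p)
                = (m / Nat.gcd j m * Nat.gcd j m) * ∏ p ∈ S, p := by ring
              _ = j * c := by rw [e2, hc]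
              _ = (j / Nat.gcd j m * Nat.gcd j m) * c := by rw [e1]
              _ = Nat.gcd j m * (j / Nat.gcd j m * c) := by ring
          exact (Nat.coprime_div_gcd_div_gcd hg).dvd_of_dvd_mul_left h3
        have h4 := Finset.single_le_sum (f := fun d => if d ∣ m ∧ j / d ∣ ∏ p ∈ S, p then
          1 / (∏ p ∈ S, (p : ℝ)) else 0) (fun d _ => by
            show (0 : ℝ) ≤ if d ∣ m ∧ j / d ∣ ∏ p ∈ S, p then 1 / (∏ p ∈ S, (p : ℝ)) else 0
            split_ifs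
            · exact hnn S
            · exact le_rfl) h1
        have h5 : (if Nat.gcd j m ∣ m ∧ j / Nat.gcd j m ∣ ∏ p ∈ S, p then
          1 / (∏ p ∈ S, (p : ℝ)) else 0) = 1 / (∏ p ∈ S, (p : ℝ)) := if_pos h2
        have h6 : (if Nat.gcd j m ∣ m ∧ j / Nat.gcd j m ∣ ∏ p ∈ S, p then
          1 / (∏ p ∈ S, (p : ℝ)) else 0) ≤ ∑ d ∈ j.divisors,
            (if d ∣ m ∧ j / d ∣ ∏ p ∈ S, p then 1 / (∏ p ∈ S, (p : ℝ)) else 0) := h4
        rwa [h5] at h6
    _ ≤ ∑ S ∈ P.powerset,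
        ∑ d ∈ j.divisors, (if d ∣ m ∧ j / d ∣ ∏ p ∈ S, p then 1 / (∏ p ∈ S, (p : ℝ)) else 0) := by
        refine Finset.sum_le_sum_of_subset_of_nonneg (Finset.filter_subset _ _) fun S _ _ => ?_
        refine Finset.sum_nonneg fun d _ => ?_
        split_ifs
        · exact hnn S
        · exact le_rfl
    _ = ∑ d ∈ j.divisors, ∑ S ∈ P.powerset,
        (if d ∣ m ∧ j / d ∣ ∏ p ∈ S, p then 1 / (∏ p ∈ S, (p : ℝ)) else 0) := Finset.sum_comm
    _ ≤ _ := by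
        refine Finset.sum_le_sum fun d hd => ?_
        have hdj := Nat.dvd_of_mem_divisors hd
        have hd0 : 0 < d := Nat.pos_of_mem_divisors hd
        by_cases hdm : d ∣ m
        · rw [if_pos hdm]
          have h1 := extH_S2 P hP B hB (j / d) (Nat.div_pos (Nat.le_of_dvd hj hdj) hd0)
          have h2 : B / ((j / d : ℕ) : ℝ) = B * ((d : ℝ) / j) := by
            have hd1 : (d : ℝ) ≠ 0 := by exact_mod_cast hd0.ne'
            rw [Nat.cast_div hdj hd1]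
            field_simp
          rw [h2, Finset.sum_filter] at h1
          refine le_trans (le_of_eq ?_) h1
          refine Finset.sum_congr rfl fun S _ => ?_
          by_cases h3 : j / d ∣ ∏ p ∈ S, p
          · rw [if_pos ⟨hdm, h3⟩, if_pos h3]
          · rw [if_neg fun h => h3 h.2, if_neg h3]
        · rw [if_neg hdm]
          refine le_of_eq (Finset.sum_eq_zero fun S _ => if_neg fun h => hdm h.1)

open Classical in
theorem extH (C1 : ℝ) (h : 5000 ≤ C1) (e : ℝ) (he : 0 < e) : ∃ N0 : ℕ, ∀ N : ℕ, N0 ≤ N → ∀ (ι : Type) (X : Finset ι)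
    (m T : ι → ℕ) (P1 P2 : ι → Finset ℕ) (Th : ℝ), 0 ≤ Th →
    (∀ x ∈ X, 1 ≤ m x ∧ (m x : ℝ) ≤ (N : ℝ) ^ ((1 : ℝ) / 1500) ∧ (∀ p ∈ P1 x, p.Prime ∧ p ≤ zC C1 N) ∧
      ∀ p ∈ P2 x, p.Prime ∧ p ≤ zC C1 N ∧ ¬ p ∣ m x) →
    (∀ j : ℕ, 1 ≤ j → ∑ x ∈ X.filter (fun x => j ∣ m x), (T x : ℝ) / m x ≤
      Th * ((j : ℝ) ^ (-(1 / 2) : ℝ) + (N : ℝ) ^ (-e))) →
    ∀ j : ℕ, 1 ≤ j → ∑ x ∈ X, ∑ S1 ∈ (P1 x).powerset.filter (fun S => S.card ≤ T0C C1 N),
      ∑ S2 ∈ (P2 x).powerset.filter (fun S => S.card ≤ T0C C1 N ∧ j ∣ m x * ∏ p ∈ S, p),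
        (T x : ℝ) / (m x * (∏ p ∈ S1, (p : ℝ)) * ∏ p ∈ S2, (p : ℝ)) ≤
      (Real.log N) ^ 11 * Th * ((j : ℝ) ^ (-(1 / 4) : ℝ) + (N : ℝ) ^ (-(e / 2))) := by
  obtain ⟨N1, hN1⟩ := esb2 C1 h
  obtain ⟨Ca, hCa, hta⟩ := Pool.Agent.Lib.RG.divisor_bound (1 / 4) (by norm_num)
  obtain ⟨Cb, hCb, htb⟩ := Pool.Agent.Lib.RG.divisor_bound (e / 2) (by positivity)
  refine ⟨max N1 ⌈Real.exp (max Ca Cb)⌉₊, fun N hN ι X m T P1 P2 Th hTh hX hH j hj => ?_⟩
  have hNN1 : N1 ≤ N := (le_max_left _ _).trans hN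
  have hNexp : Real.exp (max Ca Cb) ≤ N :=
    (Nat.le_ceil _).trans (by exact_mod_cast (le_max_right _ _).trans hN)
  have hNpos : (0 : ℝ) < N := (Real.exp_pos _).trans_le hNexp
  have hK : max Ca Cb ≤ Real.log N := (Real.le_log_iff_exp_le hNpos).2 hNexp
  have hK1 : 1 ≤ Real.log N := hCa.trans ((le_max_left _ _).trans hK)
  have hK0 : 0 < Real.log N := by linarith
  have hN1' : (1 : ℝ) ≤ N := by
    have : (1 : ℝ) ≤ Real.exp (max Ca Cb) := Real.one_le_exp (by linarith [le_max_left Ca Cb])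
    linarith
  obtain ⟨-, -, -, hesb⟩ := hN1 N hNN1
  have hinv : ∀ P : Finset ℕ, (∀ p ∈ P, p.Prime ∧ p ≤ zC C1 N) →
      ∑ S ∈ P.powerset, ∏ p ∈ S, (1 / (p : ℝ)) ≤ (Real.log N) ^ 5 := by
    intro P hP
    refine (hesb P hP).1 (fun p => 1 / (p : ℝ)) fun p hp => ⟨by positivity, ?_⟩
    have : (0 : ℝ) < p := by exact_mod_cast (hP p hp).1.pos
    exact div_le_div_of_nonneg_right (by norm_num) this.le
  have hj0 : (0 : ℝ) < j := by exact_mod_cast hj
  have hRHS : 0 ≤ (Real.log N) ^ 11 * Th * ((j : ℝ) ^ (-(1 / 4) : ℝ) + (N : ℝ) ^ (-(e / 2))) := by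
    positivity
  rcases lt_or_ge N j with hjN | hjN
  · -- `j > N`: no terms
    refine le_trans (le_of_eq ?_) hRHS
    refine Finset.sum_eq_zero fun x hx => Finset.sum_eq_zero fun S1 _ => ?_
    rw [Finset.filter_false_of_mem, Finset.sum_empty]
    rintro S2 hS2 ⟨hc, hd⟩
    obtain ⟨hm1, hm2, hp1, hp2⟩ := hX x hx
    have hP2 : ∀ p ∈ P2 x, p.Prime ∧ p ≤ zC C1 N := fun p hp => ⟨(hp2 p hp).1, (hp2 p hp).2.1⟩
    have h1 := (hesb (P2 x) hP2).2.1 S2 hS2 hc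
    have h2 : 0 < m x * ∏ p ∈ S2, p := by
      refine Nat.mul_pos hm1 (Finset.prod_pos fun p hp => ?_)
      exact (hP2 p (Finset.mem_powerset.1 hS2 hp)).1.pos
    have h3 := Nat.le_of_dvd h2 hd
    have h4 : ((m x * ∏ p ∈ S2, p : ℕ) : ℝ) ≤ (N : ℝ) ^ ((1 : ℝ) / 1500) *
        (N : ℝ) ^ ((1 : ℝ) / 5000) := by
      rw [Nat.cast_mul]
      exact mul_le_mul hm2 h1 (Nat.cast_nonneg _) (by positivity)
    have h5 : (N : ℝ) ^ ((1 : ℝ) / 1500) * (N : ℝ) ^ ((1 : ℝ) / 5000) ≤ N := by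
      rw [← Real.rpow_add hNpos]
      calc (N : ℝ) ^ ((1 : ℝ) / 1500 + 1 / 5000) ≤ (N : ℝ) ^ (1 : ℝ) :=
            Real.rpow_le_rpow_of_exponent_le hN1' (by norm_num)
        _ = N := Real.rpow_one _
    have h6 : ((m x * ∏ p ∈ S2, p : ℕ) : ℝ) ≤ N := h4.trans h5
    have h7 : m x * ∏ p ∈ S2, p ≤ N := by exact_mod_cast h6
    omega
  · have hjN' : (j : ℝ) ≤ N := by exact_mod_cast hjN
    -- one `x`
    have hone : ∀ x ∈ X, ∑ S1 ∈ (P1 x).powerset.filter (fun S => S.card ≤ T0C C1 N),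
        ∑ S2 ∈ (P2 x).powerset.filter (fun S => S.card ≤ T0C C1 N ∧ j ∣ m x * ∏ p ∈ S, p),
          (T x : ℝ) / (m x * (∏ p ∈ S1, (p : ℝ)) * ∏ p ∈ S2, (p : ℝ)) ≤
        ∑ d ∈ j.divisors, (Real.log N) ^ 10 * ((d : ℝ) / j) *
          (if d ∣ m x then (T x : ℝ) / m x else 0) := by
      intro x hx
      obtain ⟨hm1, hm2, hp1, hp2⟩ := hX x hx
      have hP2 : ∀ p ∈ P2 x, p.Prime ∧ p ≤ zC C1 N := fun p hp => ⟨(hp2 p hp).1, (hp2 p hp).2.1⟩
      have hm0 : (0 : ℝ) < m x := by exact_mod_cast hm1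
      have e1 : ∑ S1 ∈ (P1 x).powerset.filter (fun S => S.card ≤ T0C C1 N),
          ∑ S2 ∈ (P2 x).powerset.filter (fun S => S.card ≤ T0C C1 N ∧ j ∣ m x * ∏ p ∈ S, p),
            (T x : ℝ) / (m x * (∏ p ∈ S1, (p : ℝ)) * ∏ p ∈ S2, (p : ℝ)) =
          (T x : ℝ) / m x * ((∑ S1 ∈ (P1 x).powerset.filter (fun S => S.card ≤ T0C C1 N),
            1 / ∏ p ∈ S1, (p : ℝ)) *
          ∑ S2 ∈ (P2 x).powerset.filter (fun S => S.card ≤ T0C C1 N ∧ j ∣ m x * ∏ p ∈ S, p),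
            1 / ∏ p ∈ S2, (p : ℝ)) := by
        rw [Finset.sum_mul_sum, Finset.mul_sum]
        refine Finset.sum_congr rfl fun S1 _ => ?_
        rw [Finset.mul_sum]
        refine Finset.sum_congr rfl fun S2 _ => ?_
        rw [one_div_mul_one_div, div_mul_div_comm, mul_one, mul_assoc]
      have e2 : ∑ S1 ∈ (P1 x).powerset.filter (fun S => S.card ≤ T0C C1 N),
          1 / ∏ p ∈ S1, (p : ℝ) ≤ (Real.log N) ^ 5 := by
        refine le_trans (Finset.sum_le_sum_of_subset_of_nonneg (Finset.filter_subset _ _)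
          fun S _ _ => one_div_nonneg.2 (Finset.prod_nonneg fun p _ => Nat.cast_nonneg p)) ?_
        refine le_trans (le_of_eq ?_) (hinv (P1 x) hp1)
        refine Finset.sum_congr rfl fun S _ => ?_
        rw [Finset.prod_div_distrib, Finset.prod_const_one]
      have e3 := extH_one (P2 x) (fun p hp => (hP2 p hp).1) _ (hinv (P2 x) hP2) (T0C C1 N) (m x) j hj
      have e4 : 0 ≤ ∑ d ∈ j.divisors, (if d ∣ m x then (Real.log N) ^ 5 * ((d : ℝ) / j) else 0) := by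
        refine Finset.sum_nonneg fun d _ => ?_
        split_ifs
        · positivity
        · exact le_rfl
      rw [e1]
      calc (T x : ℝ) / m x * _ ≤ (T x : ℝ) / m x * ((Real.log N) ^ 5 *
            ∑ d ∈ j.divisors, (if d ∣ m x then (Real.log N) ^ 5 * ((d : ℝ) / j) else 0)) := by
            refine mul_le_mul_of_nonneg_left ?_ (by positivity)
            refine mul_le_mul e2 e3 ?_ (by positivity)
            exact Finset.sum_nonneg fun S _ =>
              one_div_nonneg.2 (Finset.prod_nonneg fun p _ => Nat.cast_nonneg p)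
        _ = _ := by
            rw [Finset.mul_sum, Finset.mul_sum]
            refine Finset.sum_congr rfl fun d _ => ?_
            split_ifs
            · ring
            · ring
    have hsum : ∑ x ∈ X, ∑ S1 ∈ (P1 x).powerset.filter (fun S => S.card ≤ T0C C1 N),
        ∑ S2 ∈ (P2 x).powerset.filter (fun S => S.card ≤ T0C C1 N ∧ j ∣ m x * ∏ p ∈ S, p),
          (T x : ℝ) / (m x * (∏ p ∈ S1, (p : ℝ)) * ∏ p ∈ S2, (p : ℝ)) ≤
        ∑ d ∈ j.divisors, (Real.log N) ^ 10 * Th * ((j : ℝ) ^ (-(1 / 2) : ℝ) + (N : ℝ) ^ (-e)) := by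
      refine (Finset.sum_le_sum hone).trans ?_
      rw [Finset.sum_comm]
      refine Finset.sum_le_sum fun d hd => ?_
      have hdj := Nat.dvd_of_mem_divisors hd
      have hd0 : 0 < d := Nat.pos_of_mem_divisors hd
      have hd0' : (0 : ℝ) < d := by exact_mod_cast hd0
      have hdle : (d : ℝ) ≤ j := by exact_mod_cast Nat.le_of_dvd hj hdj
      rw [← Finset.mul_sum, ← Finset.sum_filter]
      have f1 := hH d hd0
      have f2 : (Real.log N) ^ 10 * ((d : ℝ) / j) * ∑ x ∈ X.filter (fun x => d ∣ m x),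
          (T x : ℝ) / m x ≤ (Real.log N) ^ 10 * ((d : ℝ) / j) *
          (Th * ((d : ℝ) ^ (-(1 / 2) : ℝ) + (N : ℝ) ^ (-e))) :=
        mul_le_mul_of_nonneg_left f1 (by positivity)
      refine f2.trans ?_
      have f3 : (d : ℝ) / j * (d : ℝ) ^ (-(1 / 2) : ℝ) ≤ (j : ℝ) ^ (-(1 / 2) : ℝ) := by
        have g1 : (d : ℝ) * (d : ℝ) ^ (-(1 / 2) : ℝ) = (d : ℝ) ^ (1 / 2 : ℝ) := by
          rw [← Real.rpow_one_add' hd0'.le (by norm_num)]
          norm_num
        have g2 : (j : ℝ) * (j : ℝ) ^ (-(1 / 2) : ℝ) = (j : ℝ) ^ (1 / 2 : ℝ) := by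
          rw [← Real.rpow_one_add' hj0.le (by norm_num)]
          norm_num
        rw [div_mul_eq_mul_div, g1, div_le_iff₀ hj0, mul_comm ((j : ℝ) ^ (-(1 / 2) : ℝ)), g2]
        exact Real.rpow_le_rpow hd0'.le hdle (by norm_num)
      have f4 : (d : ℝ) / j * (N : ℝ) ^ (-e) ≤ (N : ℝ) ^ (-e) := by
        have : (d : ℝ) / j ≤ 1 := (div_le_one hj0).2 hdle
        calc (d : ℝ) / j * (N : ℝ) ^ (-e) ≤ 1 * (N : ℝ) ^ (-e) :=
              mul_le_mul_of_nonneg_right this (by positivity)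
          _ = _ := one_mul _
      calc (Real.log N) ^ 10 * ((d : ℝ) / j) * (Th * ((d : ℝ) ^ (-(1 / 2) : ℝ) + (N : ℝ) ^ (-e)))
          = (Real.log N) ^ 10 * Th * ((d : ℝ) / j * (d : ℝ) ^ (-(1 / 2) : ℝ) +
            (d : ℝ) / j * (N : ℝ) ^ (-e)) := by ring
        _ ≤ _ := mul_le_mul_of_nonneg_left (add_le_add f3 f4) (by positivity)
    refine hsum.trans ?_
    rw [Finset.sum_const, nsmul_eq_mul]
    have h1 : (j.divisors.card : ℝ) * (j : ℝ) ^ (-(1 / 2) : ℝ) ≤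
        Real.log N * (j : ℝ) ^ (-(1 / 4) : ℝ) := by
      calc (j.divisors.card : ℝ) * (j : ℝ) ^ (-(1 / 2) : ℝ)
          ≤ (Ca * (j : ℝ) ^ (1 / 4 : ℝ)) * (j : ℝ) ^ (-(1 / 2) : ℝ) :=
            mul_le_mul_of_nonneg_right (hta j hj) (by positivity)
        _ = Ca * (j : ℝ) ^ (-(1 / 4) : ℝ) := by
            rw [mul_assoc, ← Real.rpow_add hj0]
            norm_num
        _ ≤ _ := mul_le_mul_of_nonneg_right ((le_max_left _ _).trans hK) (by positivity)
    have h2 : (j.divisors.card : ℝ) * (N : ℝ) ^ (-e) ≤ Real.log N * (N : ℝ) ^ (-(e / 2)) := by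
      calc (j.divisors.card : ℝ) * (N : ℝ) ^ (-e)
          ≤ (Cb * (j : ℝ) ^ (e / 2)) * (N : ℝ) ^ (-e) :=
            mul_le_mul_of_nonneg_right (htb j hj) (by positivity)
        _ ≤ (Cb * (N : ℝ) ^ (e / 2)) * (N : ℝ) ^ (-e) := by
            refine mul_le_mul_of_nonneg_right (mul_le_mul_of_nonneg_left
              (Real.rpow_le_rpow hj0.le hjN' (by positivity)) (by linarith)) (by positivity)
        _ = Cb * (N : ℝ) ^ (-(e / 2)) := by
            rw [mul_assoc, ← Real.rpow_add hNpos]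
            congr 2
            ring
        _ ≤ _ := mul_le_mul_of_nonneg_right ((le_max_right _ _).trans hK) (by positivity)
    calc (j.divisors.card : ℝ) * ((Real.log N) ^ 10 * Th *
          ((j : ℝ) ^ (-(1 / 2) : ℝ) + (N : ℝ) ^ (-e)))
        = (Real.log N) ^ 10 * Th * ((j.divisors.card : ℝ) * (j : ℝ) ^ (-(1 / 2) : ℝ) +
          (j.divisors.card : ℝ) * (N : ℝ) ^ (-e)) := by ring
      _ ≤ (Real.log N) ^ 10 * Th * (Real.log N * (j : ℝ) ^ (-(1 / 4) : ℝ) +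
          Real.log N * (N : ℝ) ^ (-(e / 2))) :=
          mul_le_mul_of_nonneg_left (add_le_add h1 h2) (by positivity)
      _ = _ := by ring

end Pool.Agent.Lib.TE
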