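import Pool.Agent.Lib.MP_7b7e48_nt.TE.GBVF

/-!
# Module GBV (90 minutes): the same for variable lengths

`K = log N`, `B = A + 2`. PROOF. GRID: `t_0 = ⌊N^(1/7)⌋`, `t_{i+1} = ⌊t_i (1 + K^(-B))⌋` (strictly increasing since `t_i ≥ 2 K^B`), until `t_i > N`; there are `I ≤ K^(B+2)` points (`(1 + K^(-B)/2)^i ≤ N`). For `x` let `i(x)` be the last `i` with `t_i ≤ T x`.
Then `T x - t_i ≤ K^(-B) T x + 1` and `|∑_{n ≤ T x, n ≡ c} FN - ∑_{n ≤ t_i, n ≡ c} FN| ≤ (T x - t_i)/m + 1 ≤ K^(-B) T/m + 3`. `∑_x 3 ≤ 3 N^(1/1000 - 1/7) ∑_x T/m` and `∑_x T/m ≤ 2 Th` (`j = 1`). Total error `≤ Th/(2 K^A)`.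
For each `i`: `X_i = {x : i(x) = i}`, `∑_{x ∈ X_i, j ∣ m} 1/m ≤ (1/t_i) ∑ T/m ≤ (Th/t_i) (j^(-1/4) + N^(-e))`: `gbvf` with the exponent `2 A + 6` and `Th/t_i`: `≤ Th/K^(2A+6)`; sum over `I ≤ K^(A+4)` values of `i`.
-/

set_option autoImplicit false

open Finset

namespace Pool.Agent.Lib.TE

private theorem gbv_ev_log_pow (A : ℕ) (δ : ℝ) (hδ : 0 < δ) (C : ℝ) (hC : 0 < C) :
    ∀ᶠ N : ℕ in Filter.atTop, C * (Real.log N) ^ A ≤ (N : ℝ) ^ δ := by
  have h1 := isLittleO_log_rpow_rpow_atTop (A : ℝ) hδ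
  have h2 := h1.bound (show (0 : ℝ) < 1 / C by positivity)
  have h3 := tendsto_natCast_atTop_atTop (R := ℝ) |>.eventually h2
  filter_upwards [h3, Filter.eventually_ge_atTop 1] with N h4 hN
  have hN1 : (1 : ℝ) ≤ N := by exact_mod_cast hN
  have h5 : 0 ≤ Real.log N := Real.log_nonneg hN1
  rw [Real.rpow_natCast, Real.norm_of_nonneg (pow_nonneg h5 _),
    Real.norm_of_nonneg (Real.rpow_nonneg (by linarith) _)] at h4
  calc C * (Real.log N) ^ A ≤ C * (1 / C * (N : ℝ) ^ δ) := mul_le_mul_of_nonneg_left h4 hC.le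
    _ = _ := by field_simp

private theorem gbv_ev_log_ge (T : ℝ) : ∀ᶠ N : ℕ in Filter.atTop, T ≤ Real.log N :=
  (Real.tendsto_log_atTop.comp tendsto_natCast_atTop_atTop).eventually_ge_atTop T

private theorem gbv_abs_FN (N n : ℕ) : |FN N n| ≤ 1 := by
  unfold FN
  split_ifs
  · exact (Pool.Agent.Lib.MP_45349e_nt.LS.abs_lam n).le
  · simp

private theorem gbv_card (m c t T : ℕ) (hm : 1 ≤ m) (htT : t ≤ T) :
    (((Ioc t T).filter (fun n => n ≡ c [MOD m])).card : ℝ) ≤ ((T : ℝ) - t) / m + 1 := by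
  have h := Nat.Ioc_filter_modEq_card t T (r := m) (by omega) c
  have hm0 : (0 : ℚ) < m := by exact_mod_cast hm
  have h1 : ((⌊((T : ℚ) - c) / m⌋ : ℤ) : ℚ) ≤ ((T : ℚ) - c) / m := Int.floor_le _
  have h2 : ((t : ℚ) - c) / m < ((⌊((t : ℚ) - c) / m⌋ : ℤ) : ℚ) + 1 := Int.lt_floor_add_one _
  have h3 : (((Ioc t T).filter (fun n => n ≡ c [MOD m])).card : ℚ) ≤ ((T : ℚ) - t) / m + 1 := by
    have h4 : (((Ioc t T).filter (fun n => n ≡ c [MOD m])).card : ℚ) =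
        ((max (⌊((T : ℚ) - c) / m⌋ - ⌊((t : ℚ) - c) / m⌋) 0 : ℤ) : ℚ) := by
      rw [← h]; push_cast; rfl
    rw [h4]
    push_cast
    refine max_le ?_ ?_
    · have h5 : ((T : ℚ) - t) / m = ((T : ℚ) - c) / m - ((t : ℚ) - c) / m := by ring
      rw [h5]; linarith
    · have h6 : (t : ℚ) ≤ T := by exact_mod_cast htT
      have : 0 ≤ ((T : ℚ) - t) / m := div_nonneg (by linarith) hm0.le
      linarith
  have h7 := (Rat.cast_le (K := ℝ)).mpr h3
  rw [Rat.cast_add, Rat.cast_div, Rat.cast_sub, Rat.cast_natCast, Rat.cast_natCast, Rat.cast_natCast, Rat.cast_natCast, Rat.cast_one] at h7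
  exact h7

private theorem gbv_diff (N m c t T : ℕ) (hm : 1 ≤ m) (htT : t ≤ T) :
    |∑ n ∈ (Icc 1 T).filter (fun n => n ≡ c [MOD m]), FN N n| ≤
    |∑ n ∈ (Icc 1 t).filter (fun n => n ≡ c [MOD m]), FN N n| + (((T : ℝ) - t) / m + 1) := by
  have h1 : (Icc 1 T).filter (fun n => n ≡ c [MOD m]) =
      (Icc 1 t).filter (fun n => n ≡ c [MOD m]) ∪ (Ioc t T).filter (fun n => n ≡ c [MOD m]) := by
    ext n
    simp only [mem_filter, mem_Icc, mem_union, mem_Ioc]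
    constructor
    · rintro ⟨⟨h1, h2⟩, h3⟩
      rcases Nat.lt_or_ge t n with h | h
      · exact Or.inr ⟨⟨h, h2⟩, h3⟩
      · exact Or.inl ⟨⟨h1, h⟩, h3⟩
    · rintro (⟨⟨h1, h2⟩, h3⟩ | ⟨⟨h1, h2⟩, h3⟩)
      · exact ⟨⟨h1, h2.trans htT⟩, h3⟩
      · exact ⟨⟨by omega, h2⟩, h3⟩
  have h2 : Disjoint ((Icc 1 t).filter (fun n => n ≡ c [MOD m])) ((Ioc t T).filter (fun n => n ≡ c [MOD m])) := by
    rw [Finset.disjoint_left]
    intro n h3 h4
    have h5 := (mem_Icc.mp (mem_filter.mp h3).1).2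
    have h6 := (mem_Ioc.mp (mem_filter.mp h4).1).1
    omega
  rw [h1, sum_union h2]
  refine (abs_add_le _ _).trans ?_
  have h3 : |∑ n ∈ (Ioc t T).filter (fun n => n ≡ c [MOD m]), FN N n| ≤ ((T : ℝ) - t) / m + 1 := by
    refine (abs_sum_le_sum_abs _ _).trans ?_
    refine (sum_le_card_nsmul _ _ 1 (fun n _ => gbv_abs_FN N n)).trans ?_
    rw [nsmul_eq_mul, mul_one]
    exact gbv_card m c t T hm htT
  linarith

theorem gbv (A : ℕ) (e : ℝ) (he : 0 < e) : ∃ N0 : ℕ, ∀ N : ℕ, N0 ≤ N → ∀ (ι : Type) (X : Finset ι) (m c T : ι → ℕ)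
    (Th : ℝ), 0 ≤ Th →
    (∀ x ∈ X, 1 ≤ m x ∧ (m x : ℝ) ≤ (N : ℝ) ^ ((1 : ℝ) / 1000) ∧ (c x).Coprime (m x) ∧
      (N : ℝ) ^ ((1 : ℝ) / 7) ≤ T x ∧ T x ≤ N) →
    (∀ j : ℕ, 1 ≤ j → ∑ x ∈ X.filter (fun x => j ∣ m x), (T x : ℝ) / m x ≤
      Th * ((j : ℝ) ^ (-(1 / 4) : ℝ) + (N : ℝ) ^ (-e))) →
    ∑ x ∈ X, |∑ n ∈ (Icc 1 (T x)).filter (fun n => n ≡ c x [MOD m x]), FN N n| ≤ Th / (Real.log N) ^ A := by
  obtain ⟨N1, hN1⟩ := gbvf (2 * A + 6) e he
  have hev := ((gbv_ev_log_ge 3).and ((gbv_ev_log_pow (A + 2) (1 / 8) (by norm_num) 1 one_pos).and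
    ((gbv_ev_log_pow 0 (1 / 56) (by norm_num) 4 (by norm_num)).and (Filter.eventually_ge_atTop 1))))
  obtain ⟨N2, hN2⟩ := Filter.eventually_atTop.mp hev
  refine ⟨max N1 N2, fun N hN ι X m c T Th hTh hX hj => ?_⟩
  obtain ⟨hK3, hK8, h56, hN1'⟩ := hN2 N (le_of_max_le_right hN)
  have hg := hN1 N (le_of_max_le_left hN)
  rw [one_mul] at hK8
  rw [pow_zero, mul_one] at h56
  set K := Real.log N with hKdef
  have hK0 : 0 < K := by linarith
  have hNr : (1 : ℝ) ≤ N := by exact_mod_cast hN1'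
  have hNp : (0 : ℝ) < N := by linarith
  have hKB : (0 : ℝ) < K ^ (A + 2) := pow_pos hK0 _
  have hKB1 : (1 : ℝ) ≤ K ^ (A + 2) := one_le_pow₀ (by linarith)
  set u : ℝ := 1 / K ^ (A + 2) with hu
  have hu0 : 0 < u := by positivity
  have hu1 : u ≤ 1 := by rw [hu, div_le_one hKB]; exact hKB1
  set q : ℝ := 1 + u with hq
  have hq0 : 0 < q := by linarith
  have hq1 : 1 ≤ q := by linarith
  set L := Real.log q with hL
  have hLu : u / 2 ≤ L := by
    have h1 := Real.one_sub_inv_le_log_of_pos hq0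
    have h2 : u / 2 ≤ 1 - q⁻¹ := by
      have h3 : 1 - q⁻¹ = u / q := by
        rw [hq]; field_simp; ring
      rw [h3]
      exact div_le_div_of_nonneg_left hu0.le hq0 (by linarith)
    linarith
  have hL0 : 0 < L := by linarith
  -- the index
  set ix : ι → ℕ := fun x => ⌊Real.log (T x) / L⌋₊ with hix
  set t : ℕ → ℕ := fun i => ⌊q ^ i⌋₊ with ht
  have h7 : (1 : ℝ) ≤ (N : ℝ) ^ ((1 : ℝ) / 7) := Real.one_le_rpow hNr (by norm_num)
  have h8 : (1 : ℝ) ≤ (N : ℝ) ^ ((1 : ℝ) / 8) := Real.one_le_rpow hNr (by norm_num)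
  have h78 : (N : ℝ) ^ ((1 : ℝ) / 7) = (N : ℝ) ^ ((1 : ℝ) / 8) * (N : ℝ) ^ ((1 : ℝ) / 56) := by
    rw [← Real.rpow_add hNp]; norm_num
  have h78' : 4 * (N : ℝ) ^ ((1 : ℝ) / 8) ≤ (N : ℝ) ^ ((1 : ℝ) / 7) := by
    rw [h78]; nlinarith [h8, h56]
  have key : ∀ x ∈ X, t (ix x) ≤ T x ∧ (N : ℝ) ^ ((1 : ℝ) / 8) ≤ t (ix x) ∧
      ((T x : ℝ) - t (ix x)) ≤ T x * u + 1 ∧ (ix x : ℝ) ≤ 2 * K ^ (A + 3) := by
    intro x hx
    obtain ⟨hm1, hm2, hco, hT1, hT2⟩ := hX x hx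
    have hT1' : (1 : ℝ) ≤ T x := h7.trans hT1
    have hT0 : (0 : ℝ) < T x := by linarith
    have hlT : 0 ≤ Real.log (T x) := Real.log_nonneg hT1'
    have hi1 : (ix x : ℝ) ≤ Real.log (T x) / L := Nat.floor_le (by positivity)
    have hi2 : Real.log (T x) / L < (ix x : ℝ) + 1 := Nat.lt_floor_add_one _
    have hqi : q ^ (ix x) ≤ T x := by
      rw [← Real.log_le_log_iff (pow_pos hq0 _) hT0, Real.log_pow]
      rwa [le_div_iff₀ hL0] at hi1
    have hqi2 : (T x : ℝ) ≤ q ^ (ix x + 1) := by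
      rw [← Real.log_le_log_iff hT0 (pow_pos hq0 _), Real.log_pow]
      rw [div_lt_iff₀ hL0] at hi2
      push_cast
      exact hi2.le
    have ht1 : (t (ix x) : ℝ) ≤ q ^ (ix x) := Nat.floor_le (pow_pos hq0 _).le
    have ht2 : q ^ (ix x) < (t (ix x) : ℝ) + 1 := Nat.lt_floor_add_one _
    refine ⟨by exact_mod_cast ht1.trans hqi, ?_, ?_, ?_⟩
    · have h9 : (T x : ℝ) ≤ 2 * q ^ (ix x) := by
        refine hqi2.trans ?_
        rw [pow_succ, mul_comm]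
        exact mul_le_mul_of_nonneg_right (by linarith) (pow_pos hq0 _).le
      linarith
    · rw [pow_succ] at hqi2
      have h9 : q ^ (ix x) * q = q ^ (ix x) + q ^ (ix x) * u := by rw [hq]; ring
      have h10 : q ^ (ix x) * u ≤ T x * u := mul_le_mul_of_nonneg_right hqi hu0.le
      linarith
    · refine hi1.trans ?_
      rw [div_le_iff₀ hL0]
      have h9 : Real.log (T x) ≤ K := Real.log_le_log hT0 (by exact_mod_cast hT2)
      have h10 : 2 * K ^ (A + 3) * (u / 2) = K := by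
        rw [hu]; field_simp; ring
      calc Real.log (T x) ≤ K := h9
        _ = 2 * K ^ (A + 3) * (u / 2) := h10.symm
        _ ≤ 2 * K ^ (A + 3) * L := mul_le_mul_of_nonneg_left hLu (by positivity)
  -- the sum of T/m
  have hsum : ∑ x ∈ X, (T x : ℝ) / m x ≤ 2 * Th := by
    have h1 := hj 1 le_rfl
    have h2 : X.filter (fun x => 1 ∣ m x) = X := by
      apply filter_true_of_mem; intro x _; exact one_dvd _
    rw [h2] at h1
    refine h1.trans ?_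
    have h3 : (N : ℝ) ^ (-e) ≤ 1 := Real.rpow_le_one_of_one_le_of_nonpos hNr (by linarith)
    have h4 : ((1 : ℕ) : ℝ) ^ (-(1 / 4) : ℝ) = 1 := by rw [Nat.cast_one, Real.one_rpow]
    rw [h4]
    nlinarith
  -- the pieces
  have hpiece : ∀ i : ℕ, ∑ x ∈ X.filter (fun x => ix x = i),
      |∑ n ∈ (Icc 1 (t i)).filter (fun n => n ≡ c x [MOD m x]), FN N n| ≤ Th / K ^ (2 * A + 6) := by
    intro i
    rcases (X.filter (fun x => ix x = i)).eq_empty_or_nonempty with h0 | ⟨x0, hx0⟩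
    · rw [h0, sum_empty]; positivity
    · obtain ⟨hx0X, hx0i⟩ := mem_filter.mp hx0
      have hk := key x0 hx0X
      rw [hx0i] at hk
      obtain ⟨hk1, hk2, _, _⟩ := hk
      have hT2 := (hX x0 hx0X).2.2.2.2
      have hti : (0 : ℝ) < t i := by linarith
      have h1 := hg ι (X.filter (fun x => ix x = i)) m c (t i) (Th / t i) (by positivity) hk2
        (hk1.trans hT2) (fun x hx => ⟨(hX x (mem_filter.mp hx).1).1, (hX x (mem_filter.mp hx).1).2.1,
          (hX x (mem_filter.mp hx).1).2.2.1⟩) ?_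
      · rwa [div_mul_cancel₀ _ hti.ne'] at h1
      · intro j hj1
        have h2 := hj j hj1
        rw [div_mul_eq_mul_div, le_div_iff₀ hti]
        refine le_trans ?_ h2
        rw [sum_mul]
        have hsub : (X.filter (fun x => ix x = i)).filter (fun x => j ∣ m x) ⊆ X.filter (fun x => j ∣ m x) := by
          intro x hx
          have h3 := mem_filter.mp hx
          exact mem_filter.mpr ⟨(mem_filter.mp h3.1).1, h3.2⟩
        refine le_trans (sum_le_sum (fun x hx => ?_)) (sum_le_sum_of_subset_of_nonneg hsub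
          (fun x _ _ => by positivity))
        · have h3 := (mem_filter.mp hx).1
          obtain ⟨h4, h5⟩ := mem_filter.mp h3
          have h6 := (key x h4).1
          rw [h5] at h6
          have h7 : (t i : ℝ) ≤ T x := by exact_mod_cast h6
          rw [div_mul_eq_mul_div, one_mul]
          exact div_le_div_of_nonneg_right h7 (by positivity)
  -- first splitting
  have hfirst : ∑ x ∈ X, |∑ n ∈ (Icc 1 (T x)).filter (fun n => n ≡ c x [MOD m x]), FN N n| ≤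
      ∑ x ∈ X, |∑ n ∈ (Icc 1 (t (ix x))).filter (fun n => n ≡ c x [MOD m x]), FN N n| +
      ∑ x ∈ X, 3 * u * ((T x : ℝ) / m x) := by
    rw [← sum_add_distrib]
    refine sum_le_sum (fun x hx => ?_)
    obtain ⟨hm1, hm2, hco, hT1, hT2⟩ := hX x hx
    obtain ⟨hk1, hk2, hk3, hk4⟩ := key x hx
    refine (gbv_diff N (m x) (c x) (t (ix x)) (T x) hm1 hk1).trans ?_
    have hm0 : (0 : ℝ) < m x := by exact_mod_cast hm1
    have hm1' : (1 : ℝ) ≤ m x := by exact_mod_cast hm1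
    have h1 : ((T x : ℝ) - t (ix x)) / m x ≤ (T x * u + 1) / m x := div_le_div_of_nonneg_right hk3 hm0.le
    have h2 : 1 / (m x : ℝ) ≤ 1 := by rw [div_le_one hm0]; exact hm1'
    have h3 : (1 : ℝ) ≤ u * ((T x : ℝ) / m x) := by
      have h4 : K ^ (A + 2) * (m x : ℝ) ≤ T x := by
        have h5 : (N : ℝ) ^ ((1 : ℝ) / 8) * (N : ℝ) ^ ((1 : ℝ) / 1000) ≤ (N : ℝ) ^ ((1 : ℝ) / 7) := by
          rw [← Real.rpow_add hNp]
          exact Real.rpow_le_rpow_of_exponent_le hNr (by norm_num)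
        calc K ^ (A + 2) * (m x : ℝ) ≤ (N : ℝ) ^ ((1 : ℝ) / 8) * (N : ℝ) ^ ((1 : ℝ) / 1000) :=
              mul_le_mul hK8 hm2 hm0.le (by linarith)
          _ ≤ _ := h5.trans hT1
      rw [hu, div_mul_div_comm, one_mul, le_div_iff₀ (by positivity), one_mul]
      exact h4
    have h4 : (T x * u + 1) / (m x : ℝ) = u * ((T x : ℝ) / m x) + 1 / m x := by field_simp
    rw [h4] at h1
    linarith
  have hsecond : ∑ x ∈ X, |∑ n ∈ (Icc 1 (t (ix x))).filter (fun n => n ≡ c x [MOD m x]), FN N n| ≤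
      Th / K ^ (A + 2) := by
    set I : ℕ := ⌊2 * K ^ (A + 3)⌋₊ + 1 with hI
    have hmaps : ∀ x ∈ X, ix x ∈ range I := by
      intro x hx
      rw [mem_range, hI, Nat.lt_succ_iff]
      exact Nat.le_floor (key x hx).2.2.2
    rw [← sum_fiberwise_of_maps_to hmaps]
    have h1 : ∀ i ∈ range I, ∑ x ∈ X.filter (fun x => ix x = i),
        |∑ n ∈ (Icc 1 (t (ix x))).filter (fun n => n ≡ c x [MOD m x]), FN N n| ≤ Th / K ^ (2 * A + 6) := by
      intro i _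
      refine le_trans (le_of_eq (sum_congr rfl (fun x hx => ?_))) (hpiece i)
      rw [(mem_filter.mp hx).2]
    refine (sum_le_card_nsmul _ _ _ h1).trans ?_
    rw [card_range, nsmul_eq_mul]
    have hI1 : (I : ℝ) ≤ K ^ (A + 4) := by
      have h2 : ((⌊2 * K ^ (A + 3)⌋₊ : ℕ) : ℝ) ≤ 2 * K ^ (A + 3) := Nat.floor_le (by positivity)
      have h3 : (1 : ℝ) ≤ K ^ (A + 3) := one_le_pow₀ (by linarith)
      have h4 : K ^ (A + 4) = K ^ (A + 3) * K := pow_succ _ _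
      rw [hI, h4]
      push_cast
      nlinarith
    have h5 : K ^ (2 * A + 6) = K ^ (A + 4) * K ^ (A + 2) := by rw [← pow_add]; congr 1; ring
    rw [h5]
    calc (I : ℝ) * (Th / (K ^ (A + 4) * K ^ (A + 2))) ≤ K ^ (A + 4) * (Th / (K ^ (A + 4) * K ^ (A + 2))) :=
          mul_le_mul_of_nonneg_right hI1 (by positivity)
      _ = Th / K ^ (A + 2) := by field_simp
  refine hfirst.trans ?_
  rw [← mul_sum]
  have h1 : 3 * u * ∑ x ∈ X, (T x : ℝ) / m x ≤ 3 * u * (2 * Th) := mul_le_mul_of_nonneg_left hsum (by positivity)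
  have h2 : Th / K ^ (A + 2) + 3 * u * (2 * Th) = 7 * (Th / K ^ (A + 2)) := by rw [hu]; ring
  have h3 : 7 * (Th / K ^ (A + 2)) ≤ Th / K ^ A := by
    have h4 : K ^ (A + 2) = K ^ A * K ^ 2 := pow_add _ _ _
    rw [h4, ← div_div]
    have h5 : 0 ≤ Th / K ^ A := by positivity
    rw [← mul_div_assoc, div_le_iff₀ (by positivity)]
    nlinarith [mul_nonneg h5 (show 0 ≤ K ^ 2 - 9 by nlinarith)]
  linarith

end Pool.Agent.Lib.TE
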