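import Pool.Agent.Lib.MP_7b7e48_nt.TE.Bonf

/-!
# Module Sift: two simultaneous Bonferroni inequalities with a weight
-/

set_option autoImplicit false

open Finset

namespace Pool.Agent.Lib.TE

private theorem sift_pt {I1 I2 s1 s2 E1 E2 : ℝ} (h1 : |I1 - s1| ≤ E1) (h2 : |I2 - s2| ≤ E2)
    (hI1 : |I1| ≤ 1) (hI2 : |I2| ≤ 1) : |I1 * I2 - s1 * s2| ≤ E1 + E2 + E1 * E2 := by
  have e : I1 * I2 - s1 * s2 = (I1 - s1) * I2 + I1 * (I2 - s2) - (I1 - s1) * (I2 - s2) := by ring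
  have hE1 : 0 ≤ E1 := (abs_nonneg _).trans h1
  have hE2 : 0 ≤ E2 := (abs_nonneg _).trans h2
  rw [e]
  have a1 : |(I1 - s1) * I2| ≤ E1 := by
    rw [abs_mul]
    calc |I1 - s1| * |I2| ≤ E1 * 1 := mul_le_mul h1 hI2 (abs_nonneg _) hE1
      _ = E1 := mul_one _
  have a2 : |I1 * (I2 - s2)| ≤ E2 := by
    rw [abs_mul]
    calc |I1| * |I2 - s2| ≤ 1 * E2 := mul_le_mul hI1 h2 (abs_nonneg _) zero_le_one
      _ = E2 := one_mul _
  have a3 : |(I1 - s1) * (I2 - s2)| ≤ E1 * E2 := by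
    rw [abs_mul]
    exact mul_le_mul h1 h2 (abs_nonneg _) hE1
  have b1 := abs_sub ((I1 - s1) * I2 + I1 * (I2 - s2)) ((I1 - s1) * (I2 - s2))
  have b2 := abs_add_le ((I1 - s1) * I2) (I1 * (I2 - s2))
  linarith

open Classical in
theorem sift {ι : Type} (E : Finset ι) (f : ι → ℝ) (P1 P2 : Finset ℕ) (R1 R2 : ι → ℕ → Prop) (T : ℕ) (hT : 1 ≤ T) :
    |∑ e ∈ E.filter (fun e => (∀ p ∈ P1, ¬ R1 e p) ∧ ∀ p ∈ P2, ¬ R2 e p), f e -
      ∑ S1 ∈ P1.powerset.filter (fun S => S.card < T), ∑ S2 ∈ P2.powerset.filter (fun S => S.card < T),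
        (-1 : ℝ) ^ (S1.card + S2.card) * ∑ e ∈ E.filter (fun e => (∀ p ∈ S1, R1 e p) ∧ ∀ p ∈ S2, R2 e p), f e| ≤
      ∑ S1 ∈ P1.powersetCard T, ∑ e ∈ E.filter (fun e => ∀ p ∈ S1, R1 e p), |f e| +
      ∑ S2 ∈ P2.powersetCard T, ∑ e ∈ E.filter (fun e => ∀ p ∈ S2, R2 e p), |f e| +
      ∑ S1 ∈ P1.powersetCard T, ∑ S2 ∈ P2.powersetCard T,
        ∑ e ∈ E.filter (fun e => (∀ p ∈ S1, R1 e p) ∧ ∀ p ∈ S2, R2 e p), |f e| := by
  set I1 : ι → ℝ := fun e => if ∀ p ∈ P1, ¬ R1 e p then (1 : ℝ) else 0 with hI1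
  set I2 : ι → ℝ := fun e => if ∀ p ∈ P2, ¬ R2 e p then (1 : ℝ) else 0 with hI2
  set s1 : ι → ℝ := fun e => ∑ S ∈ P1.powerset.filter (fun S => S.card < T),
    (-1 : ℝ) ^ S.card * (if ∀ p ∈ S, R1 e p then (1 : ℝ) else 0) with hs1
  set s2 : ι → ℝ := fun e => ∑ S ∈ P2.powerset.filter (fun S => S.card < T),
    (-1 : ℝ) ^ S.card * (if ∀ p ∈ S, R2 e p then (1 : ℝ) else 0) with hs2
  set E1 : ι → ℝ := fun e => ∑ S ∈ P1.powersetCard T, (if ∀ p ∈ S, R1 e p then (1 : ℝ) else 0) with hE1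
  set E2 : ι → ℝ := fun e => ∑ S ∈ P2.powersetCard T, (if ∀ p ∈ S, R2 e p then (1 : ℝ) else 0) with hE2
  have b1 : ∀ e, |I1 e - s1 e| ≤ E1 e := fun e => bonf_set P1 (R1 e) T hT
  have b2 : ∀ e, |I2 e - s2 e| ≤ E2 e := fun e => bonf_set P2 (R2 e) T hT
  have c1 : ∀ e, |I1 e| ≤ 1 := by
    intro e
    simp only [hI1]
    split_ifs <;> simp
  have c2 : ∀ e, |I2 e| ≤ 1 := by
    intro e
    simp only [hI2]
    split_ifs <;> simp
  have key : ∀ (A B : Prop) [Decidable A] [Decidable B] (x : ℝ), (if A ∧ B then x else 0) =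
      x * ((if A then (1 : ℝ) else 0) * (if B then (1 : ℝ) else 0)) := by
    intro A B _ _ x
    by_cases hA : A <;> by_cases hB : B <;> simp [hA, hB]
  have d0 : ∑ e ∈ E.filter (fun e => (∀ p ∈ P1, ¬ R1 e p) ∧ ∀ p ∈ P2, ¬ R2 e p), f e =
      ∑ e ∈ E, f e * (I1 e * I2 e) := by
    rw [sum_filter]
    exact sum_congr rfl fun e _ => key _ _ _
  have d1 : ∑ S1 ∈ P1.powerset.filter (fun S => S.card < T), ∑ S2 ∈ P2.powerset.filter (fun S => S.card < T),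
        (-1 : ℝ) ^ (S1.card + S2.card) * ∑ e ∈ E.filter (fun e => (∀ p ∈ S1, R1 e p) ∧ ∀ p ∈ S2, R2 e p), f e =
      ∑ e ∈ E, f e * (s1 e * s2 e) := by
    have h1 : ∀ e, f e * (s1 e * s2 e) = ∑ S1 ∈ P1.powerset.filter (fun S => S.card < T),
        ∑ S2 ∈ P2.powerset.filter (fun S => S.card < T), (-1 : ℝ) ^ (S1.card + S2.card) *
          (f e * ((if ∀ p ∈ S1, R1 e p then (1 : ℝ) else 0) * (if ∀ p ∈ S2, R2 e p then (1 : ℝ) else 0))) := by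
      intro e
      simp only [hs1, hs2]
      rw [sum_mul_sum, mul_sum]
      refine sum_congr rfl fun S1 _ => ?_
      rw [mul_sum]
      refine sum_congr rfl fun S2 _ => ?_
      rw [pow_add]
      ring
    rw [sum_congr rfl fun e _ => h1 e]
    refine Eq.trans (sum_congr rfl fun S1 _ => ?_) sum_comm
    refine Eq.trans (sum_congr rfl fun S2 _ => ?_) sum_comm
    rw [← mul_sum, sum_filter]
    congr 1
    exact sum_congr rfl fun e _ => key _ _ _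
  have d2 : ∑ S1 ∈ P1.powersetCard T, ∑ e ∈ E.filter (fun e => ∀ p ∈ S1, R1 e p), |f e| =
      ∑ e ∈ E, |f e| * E1 e := by
    simp only [hE1, mul_sum]
    rw [sum_comm]
    refine sum_congr rfl fun S1 _ => ?_
    rw [sum_filter]
    refine sum_congr rfl fun e _ => ?_
    split_ifs <;> simp
  have d3 : ∑ S2 ∈ P2.powersetCard T, ∑ e ∈ E.filter (fun e => ∀ p ∈ S2, R2 e p), |f e| =
      ∑ e ∈ E, |f e| * E2 e := by
    simp only [hE2, mul_sum]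
    rw [sum_comm]
    refine sum_congr rfl fun S1 _ => ?_
    rw [sum_filter]
    refine sum_congr rfl fun e _ => ?_
    split_ifs <;> simp
  have d4 : ∑ S1 ∈ P1.powersetCard T, ∑ S2 ∈ P2.powersetCard T,
        ∑ e ∈ E.filter (fun e => (∀ p ∈ S1, R1 e p) ∧ ∀ p ∈ S2, R2 e p), |f e| =
      ∑ e ∈ E, |f e| * (E1 e * E2 e) := by
    have h1 : ∀ e, |f e| * (E1 e * E2 e) = ∑ S1 ∈ P1.powersetCard T, ∑ S2 ∈ P2.powersetCard T,
          (|f e| * ((if ∀ p ∈ S1, R1 e p then (1 : ℝ) else 0) * (if ∀ p ∈ S2, R2 e p then (1 : ℝ) else 0))) := by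
      intro e
      simp only [hE1, hE2]
      rw [sum_mul_sum, mul_sum]
      refine sum_congr rfl fun S1 _ => ?_
      rw [mul_sum]
    rw [sum_congr rfl fun e _ => h1 e]
    refine Eq.trans (sum_congr rfl fun S1 _ => ?_) sum_comm
    refine Eq.trans (sum_congr rfl fun S2 _ => ?_) sum_comm
    rw [sum_filter]
    exact sum_congr rfl fun e _ => key _ _ _
  rw [d0, d1, d2, d3, d4, ← sum_sub_distrib, ← sum_add_distrib, ← sum_add_distrib]
  refine (abs_sum_le_sum_abs _ _).trans (sum_le_sum fun e _ => ?_)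
  rw [← mul_sub, abs_mul, ← mul_add, ← mul_add]
  exact mul_le_mul_of_nonneg_left (sift_pt (b1 e) (b2 e) (c1 e) (c2 e)) (abs_nonneg _)

end Pool.Agent.Lib.TE
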