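import Pool.Agent.Lib.MP_7b7e48_nt.TE.Defs
import Pool.Agent.Lib.BV.PrimA
import Pool.Agent.Lib.BV.PrimB
import Pool.Agent.Lib.MP_45349e_nt.LS.LamB
import Pool.Agent.Lib.MP_7b7e48_nt.GT.ExpTools

/-!
# Module ClsLe: a progression sum of `FN` in terms of primitive characters
-/

set_option autoImplicit false

open Finset
open Pool.Agent.Lib.BV (PS)

namespace Pool.Agent.Lib.TE

/-- Detection of coprimality. -/
private theorem ClsLe_detect (n r : ℕ) (hr : 1 ≤ r) (w : ℂ) :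
    (if n.Coprime r then w else 0) =
      ∑ e ∈ r.divisors, if e ∣ n then ((ArithmeticFunction.moebius e : ℤ) : ℂ) * w else 0 := by
  have hg : Nat.gcd n r ≠ 0 := Nat.gcd_ne_zero_right (by omega)
  have h2 := Pool.Agent.Lib.GT.RE.sum_moebius_divisors _ hg
  have h3 : (Nat.gcd n r).divisors = r.divisors.filter (fun d => d ∣ n) := by
    ext d
    rw [Nat.mem_divisors, mem_filter, Nat.mem_divisors, Nat.dvd_gcd_iff]
    constructor
    · rintro ⟨⟨h4, h5⟩, _⟩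
      exact ⟨⟨h5, by omega⟩, h4⟩
    · rintro ⟨⟨h5, _⟩, h4⟩
      exact ⟨⟨h4, h5⟩, hg⟩
  rw [h3] at h2
  rw [← sum_filter, ← sum_mul]
  have h4 : (∑ e ∈ r.divisors.filter (fun d => d ∣ n), ((ArithmeticFunction.moebius e : ℤ) : ℂ)) =
      if Nat.gcd n r = 1 then 1 else 0 := by
    have h5 : ((∑ e ∈ r.divisors.filter (fun d => d ∣ n), (ArithmeticFunction.moebius e : ℤ) : ℤ) :
        ℂ) = ((if Nat.gcd n r = 1 then 1 else 0 : ℤ) : ℂ) := by rw [h2]
    push_cast at h5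
    exact h5
  rw [h4]
  by_cases h : n.Coprime r
  · rw [if_pos h, if_pos (show Nat.gcd n r = 1 from h), one_mul]
  · rw [if_neg h, if_neg (show ¬ Nat.gcd n r = 1 from h), zero_mul]

private theorem ClsLe_gen (G : ℕ → ℂ) (hmul : ∀ k n, 1 ≤ k → 1 ≤ n → G (k * n) = G k * G n)
    (hb : ∀ k, ‖G k‖ ≤ 1) (y r : ℕ) (hr : 1 ≤ r) :
    ‖∑ n ∈ (Icc 1 y).filter (fun n => n.Coprime r), G n‖ ≤
      ∑ e ∈ r.divisors, ‖∑ m ∈ Icc 1 (y / e), G m‖ := by
  have h1 : ∑ n ∈ (Icc 1 y).filter (fun n => n.Coprime r), G n = ∑ e ∈ r.divisors,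
      ((ArithmeticFunction.moebius e : ℤ) : ℂ) * G e * ∑ m ∈ Icc 1 (y / e), G m := by
    rw [sum_filter]
    have h2 : ∀ n ∈ Icc 1 y, (if n.Coprime r then G n else 0) = ∑ e ∈ r.divisors,
        if e ∣ n then ((ArithmeticFunction.moebius e : ℤ) : ℂ) * G n else 0 := by
      intro n _
      exact ClsLe_detect n r hr (G n)
    rw [sum_congr rfl h2, sum_comm]
    refine sum_congr rfl fun e he => ?_
    have hepos : 0 < e := Nat.pos_of_mem_divisors he
    rw [← sum_filter, mul_sum]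
    refine sum_nbij' (fun n => n / e) (fun m => e * m) ?_ ?_ ?_ ?_ ?_
    · intro n hn
      rw [mem_filter, mem_Icc] at hn
      obtain ⟨⟨h3, h4⟩, h5⟩ := hn
      rw [mem_Icc]
      exact ⟨Nat.div_pos (Nat.le_of_dvd h3 h5) hepos, Nat.div_le_div_right h4⟩
    · intro m hm
      rw [mem_Icc] at hm
      rw [mem_filter, mem_Icc]
      refine ⟨⟨Nat.mul_pos hepos hm.1, ?_⟩, dvd_mul_right e m⟩
      calc e * m ≤ e * (y / e) := Nat.mul_le_mul_left _ hm.2
        _ ≤ y := Nat.mul_div_le y e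
    · intro n hn
      rw [mem_filter] at hn
      exact Nat.mul_div_cancel' hn.2
    · intro m _
      exact Nat.mul_div_cancel_left m hepos
    · intro n hn
      rw [mem_filter, mem_Icc] at hn
      obtain ⟨⟨hn1, _⟩, m, rfl⟩ := hn
      rw [Nat.mul_div_cancel_left m hepos, hmul e m hepos (by
        rcases Nat.eq_zero_or_pos m with h | h
        · subst h; simp at hn1
        · exact h)]
      ring
  rw [h1]
  refine (norm_sum_le _ _).trans (sum_le_sum fun e _ => ?_)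
  rw [norm_mul, norm_mul]
  have h3 : ‖((ArithmeticFunction.moebius e : ℤ) : ℂ)‖ ≤ 1 := by
    rw [Complex.norm_intCast]
    exact_mod_cast ArithmeticFunction.abs_moebius_le_one
  calc ‖((ArithmeticFunction.moebius e : ℤ) : ℂ)‖ * ‖G e‖ * ‖∑ m ∈ Icc 1 (y / e), G m‖
      ≤ 1 * 1 * ‖∑ m ∈ Icc 1 (y / e), G m‖ := by
        apply mul_le_mul_of_nonneg_right _ (norm_nonneg _)
        exact mul_le_mul h3 (hb e) (norm_nonneg _) zero_le_one
    _ = ‖∑ m ∈ Icc 1 (y / e), G m‖ := by ring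

private theorem ClsLe_mul (N k n : ℕ) (hk : 1 ≤ k) (hn : 1 ≤ n) : FN N (k * n) = FN N k * FN N n := by
  unfold FN
  by_cases h1 : k.Coprime N
  · by_cases h2 : n.Coprime N
    · rw [if_pos h1, if_pos h2, if_pos (Nat.Coprime.mul_left h1 h2),
        Pool.Agent.Lib.MP_45349e_nt.LS.lam_mul k n (by omega) (by omega)]
    · rw [if_neg h2, mul_zero, if_neg (fun h => h2 (Nat.Coprime.coprime_dvd_left (dvd_mul_left n k) h))]
  · rw [if_neg h1, zero_mul, if_neg (fun h => h1 (Nat.Coprime.coprime_dvd_left (dvd_mul_right k n) h))]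

private theorem ClsLe_abs (N k : ℕ) : |FN N k| ≤ 1 := by
  unfold FN
  split_ifs
  · rw [Pool.Agent.Lib.MP_45349e_nt.LS.abs_lam]
  · rw [abs_zero]; exact zero_le_one

private theorem ClsLe_norm (N k : ℕ) : ‖((FN N k : ℝ) : ℂ)‖ ≤ 1 := by
  rw [Complex.norm_real]
  exact ClsLe_abs N k

private theorem ClsLe_PS {d : ℕ} {f g : DirichletCharacter ℂ d → ℝ} (h : ∀ χ, f χ ≤ g χ) : PS d f ≤ PS d g := by
  unfold Pool.Agent.Lib.BV.PS
  exact sum_le_sum fun χ _ => h χ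

private theorem ClsLe_PS_sum {d : ℕ} (s : Finset ℕ) (f : ℕ → DirichletCharacter ℂ d → ℝ) :
    PS d (fun χ => ∑ k ∈ s, f k χ) = ∑ k ∈ s, PS d (f k) := by
  unfold Pool.Agent.Lib.BV.PS
  exact sum_comm

theorem cls_le (N t m c : ℕ) (hN : 1 ≤ N) (hm : 1 ≤ m) (hc : c.Coprime m) :
    |∑ n ∈ (Icc 1 t).filter (fun n => n ≡ c [MOD m]), FN N n| ≤
      1 / (m.totient : ℝ) * (∑ k ∈ m.divisors, |∑ n ∈ Icc 1 (t / k), FN N n| +
        ∑ f ∈ m.divisors.filter (fun f => 1 < f), ∑ k ∈ (m / f).divisors, PS f (fun ψ => ‖LamC N (t / k) ψ‖)) := by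
  classical
  have hE := Pool.Agent.Lib.BV.EE_le_chars (FN N) t m c hm hc
  have hP := Pool.Agent.Lib.BV.chars_le_prim (fun n => ((FN N n : ℝ) : ℂ)) t m hm
  have hφ : (0 : ℝ) ≤ 1 / (m.totient : ℝ) := by positivity
  have h0 : |∑ n ∈ (Icc 1 t).filter (fun n => n.Coprime m), FN N n| ≤
      ∑ k ∈ m.divisors, |∑ n ∈ Icc 1 (t / k), FN N n| := by
    have h := ClsLe_gen (fun n => ((FN N n : ℝ) : ℂ)) (fun k n hk hn => by
      rw [ClsLe_mul N k n hk hn]; push_cast; rfl) (fun k => ClsLe_norm N k) t m hm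
    have e1 : ∀ s : Finset ℕ, ‖∑ n ∈ s, ((FN N n : ℝ) : ℂ)‖ = |∑ n ∈ s, FN N n| := by
      intro s
      rw [← Complex.ofReal_sum, Complex.norm_real]
      rfl
    simp only [e1] at h
    exact h
  have h1 : ∑ d ∈ m.divisors.filter (fun d => 1 < d),
      PS d (fun ψ => ‖Pool.Agent.Lib.BV.CS (fun n => ((FN N n : ℝ) : ℂ)) t (m / d) ψ‖) ≤
      ∑ f ∈ m.divisors.filter (fun f => 1 < f), ∑ k ∈ (m / f).divisors, PS f (fun ψ => ‖LamC N (t / k) ψ‖) := by
    refine sum_le_sum fun d hd => ?_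
    rw [mem_filter, Nat.mem_divisors] at hd
    have hd1 : 1 ≤ m / d := Nat.div_pos (Nat.le_of_dvd hm hd.1.1) (by omega)
    rw [← ClsLe_PS_sum]
    refine ClsLe_PS fun ψ => ?_
    unfold Pool.Agent.Lib.BV.CS LamC
    refine ClsLe_gen (fun n => ((FN N n : ℝ) : ℂ) * ψ (n : ZMod d)) (fun k n hk hn => ?_) (fun k => ?_) t (m / d) hd1
    · rw [ClsLe_mul N k n hk hn]
      push_cast
      rw [map_mul]
      ring
    · rw [norm_mul]
      calc ‖((FN N k : ℝ) : ℂ)‖ * ‖ψ (k : ZMod d)‖ ≤ 1 * 1 :=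
            mul_le_mul (ClsLe_norm N k) (DirichletCharacter.norm_le_one ψ _) (norm_nonneg _) zero_le_one
        _ = 1 := one_mul 1
  have h2 : ∑ n ∈ (Icc 1 t).filter (fun n => n ≡ c [MOD m]), FN N n =
      Pool.Agent.Lib.BV.EE (FN N) t m c +
        (1 / (m.totient : ℝ)) * ∑ n ∈ (Icc 1 t).filter (fun n => n.Coprime m), FN N n := by
    unfold Pool.Agent.Lib.BV.EE
    ring
  rw [h2]
  calc |Pool.Agent.Lib.BV.EE (FN N) t m c +
        (1 / (m.totient : ℝ)) * ∑ n ∈ (Icc 1 t).filter (fun n => n.Coprime m), FN N n|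
      ≤ |Pool.Agent.Lib.BV.EE (FN N) t m c| +
        |(1 / (m.totient : ℝ)) * ∑ n ∈ (Icc 1 t).filter (fun n => n.Coprime m), FN N n| := abs_add_le _ _
    _ ≤ (1 / (m.totient : ℝ)) * ∑ f ∈ m.divisors.filter (fun f => 1 < f), ∑ k ∈ (m / f).divisors,
          PS f (fun ψ => ‖LamC N (t / k) ψ‖) +
        (1 / (m.totient : ℝ)) * ∑ k ∈ m.divisors, |∑ n ∈ Icc 1 (t / k), FN N n| := by
        apply add_le_add
        · exact hE.trans (mul_le_mul_of_nonneg_left (hP.trans h1) hφ)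
        · rw [abs_mul, abs_of_nonneg hφ]
          exact mul_le_mul_of_nonneg_left h0 hφ
    _ = _ := by ring

end Pool.Agent.Lib.TE
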