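import Pool.Agent.Lib.BV.Main
import Pool.Agent.Lib.MP_7b7e48_nt.OW.OD
import Pool.Agent.Lib.MP_7b7e48_nt.OW.U1

/-!
# TE: the exceptional set in progressions, both signs prescribed: definitions

Paper proof: `/team-store/TC_EE.md`. `lam` is the (real valued) Liouville function, `K = log N`, `GT.Rough w n`: every prime factor of `n` is `> w`.
-/

set_option autoImplicit false

open Finset
open Pool.Agent.Lib.MP_45349e_nt.LS (lam)
open Pool.Agent.Lib.GT (Rough)
open Pool.Agent.Lib.OW (del QP sQ h2)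

namespace Pool.Agent.Lib.TE

/-- `lam` on the numbers coprime to `N` -/
noncomputable def FN (N n : ℕ) : ℝ := if n.Coprime N then lam n else 0

/-- its character sums -/
noncomputable def LamC (N Y : ℕ) {d : ℕ} (ψ : DirichletCharacter ℂ d) : ℂ :=
  ∑ n ∈ Icc 1 Y, (FN N n : ℂ) * ψ (n : ZMod d)

/-- `∑_{d ∣ n, d > V} μ(d)` on the numbers coprime to `N` -/
noncomputable def bV (N V n : ℕ) : ℝ :=
  if n.Coprime N then ∑ d ∈ n.divisors.filter (fun d => V < d), ((ArithmeticFunction.moebius d : ℤ) : ℝ) else 0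

/-- the roughness level `N^(1/(C1 loglog N))` -/
noncomputable def zC (C1 : ℝ) (N : ℕ) : ℕ := ⌊(N : ℝ) ^ (1 / (C1 * Real.log (Real.log N)))⌋₊

/-- the order of the Bonferroni inequalities -/
noncomputable def T0C (C1 : ℝ) (N : ℕ) : ℕ := ⌊C1 * Real.log (Real.log N) / 5000⌋₊

/-- the density (with respect to `h2 c`) of a unit class modulo `h` -/
noncomputable def HH (c : ℕ → ℝ) (h : ℕ) : ℝ :=
  1 / (h.totient : ℝ) * ∏ p ∈ h.primeFactors, ((1 - c p / p) / (1 + 1 / (p : ℝ)))

/-- `6/π²` -/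
noncomputable def cMu : ℝ := ∑' f : ℕ, ((ArithmeticFunction.moebius f : ℤ) : ℝ) / (f : ℝ) ^ 2

/-- the sum of `μ(f)/f²` over the `f` coprime to `M` -/
noncomputable def kapM (M : ℕ) : ℝ := cMu * ∏ p ∈ M.primeFactors, (1 - 1 / (p : ℝ) ^ 2)⁻¹

/-- the density of `h2 c` in a unit class modulo `W` is `MT W N * L` -/
noncomputable def MT (W N : ℕ) : ℝ := kapM (W * N) * (del (W * N) / W.totient)

/-- the character `c` restricted to the numbers coprime to `h` -/
noncomputable def rst (h : ℕ) (c : ℕ → ℝ) (n : ℕ) : ℝ := if n.Coprime h then c n else 0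

end Pool.Agent.Lib.TE
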