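import Pool.Agent.Lib.MP_7b7e48_nt.TE.XF

/-!
# XT: theorem TC2 in terms of the number of prime factors
-/

set_option autoImplicit false

open Finset
open Pool.Agent.Lib.MP_45349e_nt.LS (lam)
open Pool.Agent.Lib.GT (Rough)
open Pool.Agent.Lib.RH (Prm MM JJ)

namespace Pool.Agent.Lib.TE

private theorem xt_lam (i : ℕ) (hi : i < 2) (n : ℕ) (h : lam n = (-1) ^ i) : ArithmeticFunction.cardFactors n % 2 = i := by
  unfold lam at h
  rcases Nat.even_or_odd (ArithmeticFunction.cardFactors n) with h1 | h1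
  · rw [h1.neg_one_pow] at h
    interval_cases i
    · exact Nat.even_iff.mp h1
    · norm_num at h
  · rw [h1.neg_one_pow] at h
    interval_cases i
    · norm_num at h
    · exact Nat.odd_iff.mp h1

open Classical in
theorem tc2 (A : ℕ) (ε : ℝ) (hε : 0 < ε) : ∃ (C : ℝ) (N₀ : ℕ), 0 < C ∧ ∀ N : ℕ, N₀ ≤ N → Even N → ∀ i j : ℕ, i < 2 → j < 2 →
    (N : ℝ) ^ (1 - ε) ≤ (((Ioo 0 N).filter fun n => n ≠ N - n ∧ n.Coprime N ∧
      ArithmeticFunction.cardFactors n % 2 = i ∧ ArithmeticFunction.cardFactors (N - n) % 2 = j ∧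
      (∀ p ∈ n.primeFactors, (Real.log N) ^ A < p) ∧
      ∀ p ∈ (N - n).primeFactors, (N : ℝ) ^ (1 / (C * Real.log (Real.log N))) < p).card : ℝ) := by
  obtain ⟨P, W, C1, N0, -, -, -, hC1, h⟩ := tc2_pat A ε hε
  refine ⟨C1, max N0 3, by linarith, fun N hN hev i j hi hj => ?_⟩
  have hN0 : N0 ≤ N := (le_max_left _ _).trans hN
  have hN3 : 3 ≤ N := (le_max_right _ _).trans hN
  obtain ⟨hM, hp⟩ := h N hN0 hev
  have hs : ∀ i : ℕ, i < 2 → ((-1 : ℝ) ^ i = 1 ∨ (-1 : ℝ) ^ i = -1) := by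
    intro i hi
    interval_cases i
    · left; norm_num
    · right; norm_num
  refine (hp ((-1) ^ i) ((-1) ^ j) (hs i hi) (hs j hj)).le.trans ?_
  rw [Nat.cast_le]
  refine card_le_card fun n hn => ?_
  unfold Pat Sst at hn
  rw [mem_filter, mem_filter, mem_Ioo] at hn
  obtain ⟨⟨⟨h0, h1⟩, hc, hr1, hr2⟩, hl1, hl2⟩ := hn
  rw [mem_filter, mem_Ioo]
  refine ⟨⟨h0, h1⟩, ?_, hc, xt_lam i hi n hl1, xt_lam j hj (N - n) hl2, ?_, ?_⟩
  · intro h2
    have h3 : N = 2 * n := by omega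
    have h4 : n ∣ N := ⟨2, by omega⟩
    have h5 : n = 1 := Nat.Coprime.eq_one_of_dvd hc h4
    omega
  · intro p hp
    have h2 := hr1 p (Nat.prime_of_mem_primeFactors hp) (Nat.dvd_of_mem_primeFactors hp)
    exact hM.trans_lt (by exact_mod_cast h2)
  · intro p hp
    have h2 := hr2 p (Nat.prime_of_mem_primeFactors hp) (Nat.dvd_of_mem_primeFactors hp)
    unfold zC at h2
    exact Nat.lt_of_floor_lt h2

end Pool.Agent.Lib.TE
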