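import Pool.Agent.Lib.MP_7b7e48_nt.TE.Defs
import Pool.Agent.Lib.Sieve.Mertens

/-!
# Module Esb: numerics of the pure sieve
-/

set_option autoImplicit false

open Finset Filter Topology

namespace Pool.Agent.Lib.TE

private theorem esb_insert (x : ℕ → ℝ) {S : Finset ℕ} {a : ℕ} (ha : a ∉ S) (m : ℕ) :
    ∑ T ∈ (insert a S).powersetCard (m + 1), ∏ p ∈ T, x p =
      ∑ T ∈ S.powersetCard (m + 1), ∏ p ∈ T, x p + x a * ∑ T ∈ S.powersetCard m, ∏ p ∈ T, x p := by
  have hnot : ∀ T ∈ S.powersetCard m, a ∉ T := fun T hT h => ha ((mem_powersetCard.1 hT).1 h)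
  rw [powersetCard_succ_insert ha, sum_union, sum_image, mul_sum]
  · congr 1
    exact sum_congr rfl fun T hT => prod_insert (hnot T hT)
  · intro T hT T' hT' h
    have h1 := hnot T hT
    have h2 := hnot T' hT'
    rw [← erase_insert h1, ← erase_insert h2]
    exact congrArg (fun U => erase U a) h
  · rw [disjoint_left]
    intro T hT hT'
    obtain ⟨U, -, rfl⟩ := mem_image.1 hT'
    exact ha ((mem_powersetCard.1 hT).1 (mem_insert_self a U))

/-- `m! e_m ≤ (∑ x)^m` -/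
private theorem esb_le {x : ℕ → ℝ} {S : Finset ℕ} (hx : ∀ p ∈ S, 0 ≤ x p) (m : ℕ) :
    (m.factorial : ℝ) * ∑ T ∈ S.powersetCard m, ∏ p ∈ T, x p ≤ (∑ p ∈ S, x p) ^ m := by
  induction S using Finset.induction_on generalizing m with
  | empty =>
    rcases Nat.eq_zero_or_pos m with rfl | h
    · simp
    · obtain ⟨i, rfl⟩ : ∃ i, m = i + 1 := ⟨m - 1, by omega⟩
      rw [powersetCard_eq_empty.2 (by simp), sum_empty, sum_empty]
      simp
  | insert a S ha ih =>
    have hxS : ∀ p ∈ S, 0 ≤ x p := fun p hp => hx p (mem_insert_of_mem hp)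
    have ha0 := hx a (mem_insert_self a S)
    have hs0 : 0 ≤ ∑ p ∈ S, x p := sum_nonneg hxS
    rcases Nat.eq_zero_or_pos m with rfl | h
    · simp
    · obtain ⟨i, rfl⟩ : ∃ i, m = i + 1 := ⟨m - 1, by omega⟩
      rw [esb_insert x ha, sum_insert ha]
      have h1 := ih hxS (i + 1)
      have h2 := ih hxS i
      have h3 : (((i + 1).factorial : ℕ) : ℝ) = (i + 1) * (i.factorial : ℝ) := by
        rw [Nat.factorial_succ]
        push_cast
        ring
      set u := ∑ T ∈ S.powersetCard (i + 1), ∏ p ∈ T, x p with hu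
      set v := ∑ T ∈ S.powersetCard i, ∏ p ∈ T, x p with hv
      set s := ∑ p ∈ S, x p with hs
      have h4 : (((i + 1).factorial : ℕ) : ℝ) * (u + x a * v) =
          (((i + 1).factorial : ℕ) : ℝ) * u + (i + 1) * x a * ((i.factorial : ℝ) * v) := by
        rw [mul_add, h3]
        ring
      rw [h4]
      have h5 : (i + 1) * x a * ((i.factorial : ℝ) * v) ≤ (i + 1) * x a * s ^ i :=
        mul_le_mul_of_nonneg_left h2 (by positivity)
      have h6 : ∀ j : ℕ, s ^ (j + 1) + (j + 1) * x a * s ^ j ≤ (x a + s) ^ (j + 1) := by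
        intro j
        induction j with
        | zero => simp; linarith
        | succ j ih2 =>
          have h7 := mul_le_mul_of_nonneg_right ih2 (show 0 ≤ x a + s by linarith)
          have h8 : (s ^ (j + 1) + (j + 1) * x a * s ^ j) * (x a + s) =
              s ^ (j + 1 + 1) + ((j + 1 : ℕ) + 1) * x a * s ^ (j + 1) + (j + 1) * (x a) ^ 2 * s ^ j := by
            push_cast
            ring
          have h9 : 0 ≤ ((j : ℝ) + 1) * (x a) ^ 2 * s ^ j := by positivity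
          rw [pow_succ (x a + s) (j + 1)]
          linarith
      have h7 := h6 i
      linarith

/-- `L^m / m! ≤ e^(-m)` for `m ≥ 8 L` -/
private theorem esb_fact {L : ℝ} (hL : 0 ≤ L) {m : ℕ} (hm : 8 * L ≤ m) (hm1 : 1 ≤ m) :
    L ^ m / (m.factorial : ℝ) ≤ Real.exp (-m) := by
  have hm0 : (0 : ℝ) < m := by exact_mod_cast hm1
  have h1 := Real.pow_div_factorial_le_exp (m : ℝ) hm0.le m
  have hf : (0 : ℝ) < m.factorial := by exact_mod_cast Nat.factorial_pos m
  have h2 : L ^ m / (m.factorial : ℝ) = (L / m) ^ m * ((m : ℝ) ^ m / m.factorial) := by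
    rw [div_pow]
    field_simp
  rw [h2]
  have h3 : (L / m) ^ m ≤ (Real.exp (-2)) ^ m := by
    refine pow_le_pow_left₀ (by positivity) ?_ m
    rw [div_le_iff₀ hm0]
    have h4 : (1 : ℝ) / 8 ≤ Real.exp (-2) := by
      rw [Real.exp_neg, one_div, inv_le_inv₀ (by norm_num) (Real.exp_pos 2)]
      have h5 : Real.exp 2 = Real.exp 1 ^ 2 := by
        rw [← Real.exp_nat_mul]
        norm_num
      rw [h5]
      have h6 := Real.exp_one_lt_d9
      have h7 := Real.exp_pos 1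
      nlinarith
    nlinarith
  calc (L / m) ^ m * ((m : ℝ) ^ m / m.factorial) ≤ (Real.exp (-2)) ^ m * Real.exp m :=
        mul_le_mul h3 h1 (by positivity) (by positivity)
    _ = Real.exp (-m) := by
        rw [← Real.exp_nat_mul, ← Real.exp_add]
        congr 1
        ring

/-- Mertens upper bound -/
private theorem esb_mertens : ∃ C : ℝ, 0 ≤ C ∧ ∀ N : ℕ, 3 ≤ N → ∀ P : Finset ℕ,
    (∀ p ∈ P, p.Prime ∧ p ≤ N) → ∑ p ∈ P, 1 / (p : ℝ) ≤ Real.log (Real.log N) + C := by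
  obtain ⟨C, hC, h⟩ := Pool.Agent.Lib.Sieve.mertens_product_upper
  refine ⟨max (Real.log C) 0, le_max_right _ _, fun N hN P hP => ?_⟩
  have hN' : (3 : ℝ) ≤ N := by exact_mod_cast hN
  have hlog : 0 < Real.log N := Real.log_pos (by linarith)
  have h1 := h N (by omega)
  have hsub : P ⊆ (Finset.Icc 1 N).filter Nat.Prime := by
    intro p hp
    obtain ⟨h2, h3⟩ := hP p hp
    exact mem_filter.2 ⟨mem_Icc.2 ⟨h2.one_lt.le, h3⟩, h2⟩
  have h2 : ∑ p ∈ P, 1 / (p : ℝ) ≤ ∑ p ∈ (Finset.Icc 1 N).filter Nat.Prime, 1 / (p : ℝ) :=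
    sum_le_sum_of_subset_of_nonneg hsub fun p _ _ => by positivity
  have h3 : Real.exp (∑ p ∈ (Finset.Icc 1 N).filter Nat.Prime, 1 / (p : ℝ)) ≤ C * Real.log N := by
    refine le_trans ?_ h1
    rw [Real.exp_sum]
    refine prod_le_prod (fun p _ => (Real.exp_pos _).le) fun p hp => ?_
    have hp2 : (2 : ℝ) ≤ p := by exact_mod_cast (mem_filter.1 hp).2.two_le
    have h4 : 0 < 1 - (1 : ℝ) / p := by
      rw [sub_pos, div_lt_one (by linarith)]
      linarith
    have h5 := Real.add_one_le_exp (-(1 / (p : ℝ)))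
    rw [le_inv_comm₀ (Real.exp_pos _) h4, ← Real.exp_neg]
    linarith
  have h4 : ∑ p ∈ (Finset.Icc 1 N).filter Nat.Prime, 1 / (p : ℝ) ≤ Real.log (C * Real.log N) := by
    rw [Real.le_log_iff_exp_le (by positivity)]
    exact h3
  rw [Real.log_mul hC.ne' hlog.ne'] at h4
  have h5 := le_max_left (Real.log C) 0
  linarith

private theorem esb_lg : Tendsto (fun N : ℕ => Real.log (Real.log N)) atTop atTop :=
  Real.tendsto_log_atTop.comp (Real.tendsto_log_atTop.comp tendsto_natCast_atTop_atTop)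

private theorem esb_zC {C1 : ℝ} {N : ℕ} (hN : 1 ≤ N) (h : 1 ≤ C1 * Real.log (Real.log N)) : zC C1 N ≤ N := by
  have hN' : (1 : ℝ) ≤ N := by exact_mod_cast hN
  have h1 : ((zC C1 N : ℕ) : ℝ) ≤ N := by
    refine (Nat.floor_le (by positivity)).trans ?_
    refine (Real.rpow_le_rpow_of_exponent_le hN' ?_).trans (Real.rpow_one _).le
    rw [div_le_one (by linarith)]
    exact h
  exact_mod_cast h1

private theorem esb_sum {C : ℝ} {N : ℕ} {P : Finset ℕ} {x : ℕ → ℝ} {lg : ℝ}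
    (h : ∑ p ∈ P, 1 / (p : ℝ) ≤ lg + C) (hx : ∀ p ∈ P, 0 ≤ x p ∧ x p ≤ 4 / p) :
    ∑ p ∈ P, x p ≤ 4 * (lg + C) := by
  have h1 : ∑ p ∈ P, x p ≤ ∑ p ∈ P, 4 * (1 / (p : ℝ)) := by
    refine sum_le_sum fun p hp => (hx p hp).2.trans (le_of_eq ?_)
    ring
  rw [← mul_sum] at h1
  linarith

theorem esb1 (A : ℕ) : ∃ C0 : ℝ, 1 ≤ C0 ∧ ∀ C1 : ℝ, C0 ≤ C1 → ∃ N0 : ℕ, ∀ N : ℕ, N0 ≤ N → ∀ P : Finset ℕ,
    (∀ p ∈ P, p.Prime ∧ p ≤ zC C1 N) → ∀ x : ℕ → ℝ, (∀ p ∈ P, 0 ≤ x p ∧ x p ≤ 4 / p) →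
    ∑ S ∈ P.powersetCard (T0C C1 N), ∏ p ∈ S, x p ≤ 1 / (Real.log N) ^ A := by
  obtain ⟨C, hC, hM⟩ := esb_mertens
  have hA : (0 : ℝ) ≤ A := Nat.cast_nonneg A
  refine ⟨5000 * (65 + A), by linarith, fun C1 hC1 => ?_⟩
  obtain ⟨N1, hN1⟩ := (tendsto_atTop.1 esb_lg (max C 1)).exists_forall_of_atTop
  refine ⟨max N1 3, fun N hN P hP x hx => ?_⟩
  have hN3 : 3 ≤ N := (le_max_right _ _).trans hN
  have hlg := hN1 N ((le_max_left _ _).trans hN)
  set lg := Real.log (Real.log N) with hlgd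
  have hlg1 : 1 ≤ lg := (le_max_right _ _).trans hlg
  have hlgC : C ≤ lg := (le_max_left _ _).trans hlg
  have hC1' : (65 + A : ℝ) ≤ C1 / 5000 := by
    rw [le_div_iff₀ (by norm_num)]
    linarith
  have hz : zC C1 N ≤ N := esb_zC (by omega) (by nlinarith)
  have hs := esb_sum (N := N) (hM N hN3 P fun p hp => ⟨(hP p hp).1, (hP p hp).2.trans hz⟩) hx
  have hs0 : 0 ≤ ∑ p ∈ P, x p := sum_nonneg fun p hp => (hx p hp).1
  have hT : C1 * lg / 5000 - 1 < T0C C1 N := Nat.sub_one_lt_floor _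
  have hT2 : (64 + A : ℝ) * lg ≤ T0C C1 N := by
    have h1 : (65 + A : ℝ) * lg ≤ C1 * lg / 5000 := by
      rw [mul_div_right_comm]
      exact mul_le_mul_of_nonneg_right hC1' (by linarith)
    nlinarith
  set T := T0C C1 N with hTd
  have hT1 : 1 ≤ T := by
    have h1 : (0 : ℝ) < T := lt_of_lt_of_le (by positivity) hT2
    exact_mod_cast h1
  have hlog : 0 < Real.log N := Real.log_pos (by exact_mod_cast (by omega : 1 < N))
  have h8 : 8 * ∑ p ∈ P, x p ≤ T := by nlinarith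
  have hf : (0 : ℝ) < T.factorial := by exact_mod_cast Nat.factorial_pos T
  have h9 : ∑ S ∈ P.powersetCard T, ∏ p ∈ S, x p ≤ Real.exp (-T) := by
    refine le_trans ?_ (esb_fact hs0 h8 hT1)
    rw [le_div_iff₀ hf, mul_comm]
    exact esb_le (fun p hp => (hx p hp).1) T
  refine h9.trans ?_
  rw [one_div, ← Real.exp_log hlog, ← Real.exp_nat_mul, ← Real.exp_neg, Real.exp_le_exp]
  have : (A : ℝ) * lg ≤ T := by nlinarith
  linarith

private theorem esb_prod {C1 : ℝ} {N : ℕ} (hN : (1 : ℝ) ≤ N) (hc : 0 < C1 * Real.log (Real.log N))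
    (hz : ((zC C1 N : ℕ) : ℝ) ≤ (N : ℝ) ^ (1 / (C1 * Real.log (Real.log N)))) (hz1 : 1 ≤ zC C1 N)
    {S : Finset ℕ} (hS : ∀ p ∈ S, p ≤ zC C1 N) (hcard : S.card ≤ T0C C1 N) :
    ((∏ p ∈ S, p : ℕ) : ℝ) ≤ (N : ℝ) ^ ((1 : ℝ) / 5000) := by
  have h1 : ∏ p ∈ S, p ≤ (zC C1 N) ^ T0C C1 N :=
    (prod_le_pow_card S (fun p => p) _ hS).trans (pow_le_pow_right₀ hz1 hcard)
  have h2 : ((∏ p ∈ S, p : ℕ) : ℝ) ≤ ((zC C1 N : ℕ) : ℝ) ^ T0C C1 N := by exact_mod_cast h1
  refine h2.trans ((pow_le_pow_left₀ (by positivity) hz _).trans ?_)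
  rw [← Real.rpow_natCast, ← Real.rpow_mul (by linarith)]
  refine Real.rpow_le_rpow_of_exponent_le hN ?_
  rw [one_div_mul_eq_div, div_le_iff₀ hc]
  have h3 : ((T0C C1 N : ℕ) : ℝ) ≤ C1 * Real.log (Real.log N) / 5000 := Nat.floor_le (by positivity)
  linarith

theorem esb2 (C1 : ℝ) (h : 5000 ≤ C1) : ∃ N0 : ℕ, ∀ N : ℕ, N0 ≤ N → 1 ≤ T0C C1 N ∧ 2 ≤ zC C1 N ∧ (zC C1 N) ^ 6 ≤ N ∧
    ∀ P : Finset ℕ, (∀ p ∈ P, p.Prime ∧ p ≤ zC C1 N) →
      (∀ x : ℕ → ℝ, (∀ p ∈ P, 0 ≤ x p ∧ x p ≤ 4 / p) → ∑ S ∈ P.powerset, ∏ p ∈ S, x p ≤ (Real.log N) ^ 5) ∧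
      (∀ S ∈ P.powerset, S.card ≤ T0C C1 N → ((∏ p ∈ S, p : ℕ) : ℝ) ≤ (N : ℝ) ^ ((1 : ℝ) / 5000)) ∧
      (((P.powerset.filter fun S => S.card ≤ T0C C1 N).card : ℕ) : ℝ) ≤ (N : ℝ) ^ ((1 : ℝ) / 5000) := by
  obtain ⟨C, hC, hM⟩ := esb_mertens
  obtain ⟨N1, hN1⟩ := (tendsto_atTop.1 esb_lg (max (4 * C) 1)).exists_forall_of_atTop
  -- `C1 log K ≤ K`
  have hK : ∀ᶠ N : ℕ in atTop, C1 * Real.log (Real.log N) ≤ Real.log N := by
    have h1 : (fun t : ℝ => Real.log t) =o[atTop] fun t : ℝ => t := Real.isLittleO_log_id_atTop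
    have h2 : Tendsto (fun N : ℕ => Real.log N) atTop atTop :=
      Real.tendsto_log_atTop.comp tendsto_natCast_atTop_atTop
    have h3 := h2.eventually (h1.bound (show (0 : ℝ) < 1 / C1 by positivity))
    filter_upwards [h3, h2.eventually (eventually_ge_atTop 1)] with N hN hN1
    have hC10 : 0 < C1 := by linarith
    rw [Real.norm_eq_abs, Real.norm_eq_abs, abs_of_nonneg (show 0 ≤ Real.log N by linarith),
      abs_of_nonneg (Real.log_nonneg hN1), one_div, inv_mul_eq_div, le_div_iff₀ hC10] at hN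
    linarith
  obtain ⟨N2, hN2⟩ := hK.exists_forall_of_atTop
  refine ⟨max (max N1 N2) 3, fun N hN => ?_⟩
  have hN3 : 3 ≤ N := (le_max_right _ _).trans hN
  have hlg := hN1 N (((le_max_left _ _).trans (le_max_left _ _)).trans hN)
  have hKN := hN2 N (((le_max_right _ _).trans (le_max_left _ _)).trans hN)
  set lg := Real.log (Real.log N) with hlgd
  have hlg1 : 1 ≤ lg := (le_max_right _ _).trans hlg
  have hlgC : 4 * C ≤ lg := (le_max_left _ _).trans hlg
  have hN3' : (3 : ℝ) ≤ N := by exact_mod_cast hN3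
  have hN1' : (1 : ℝ) ≤ N := by linarith
  have hN0' : (0 : ℝ) < N := by linarith
  have hc0 : 5000 ≤ C1 * lg := by nlinarith
  have hcpos : 0 < C1 * lg := by linarith
  have hz : zC C1 N ≤ N := esb_zC (by omega) (by linarith)
  have hlog : 0 < Real.log N := Real.log_pos (by linarith)
  -- `z`
  have hzle : ((zC C1 N : ℕ) : ℝ) ≤ (N : ℝ) ^ (1 / (C1 * lg)) := Nat.floor_le (by positivity)
  have hz2 : 2 ≤ zC C1 N := by
    refine Nat.le_floor ?_
    have h1 : (N : ℝ) ^ (1 / (C1 * lg)) = Real.exp (Real.log N / (C1 * lg)) := by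
      rw [Real.rpow_def_of_pos hN0']
      congr 1
      ring
    rw [h1]
    have h2 : (1 : ℝ) ≤ Real.log N / (C1 * lg) := by
      rw [le_div_iff₀ hcpos]
      linarith
    have h3 := Real.add_one_le_exp (Real.log N / (C1 * lg))
    push_cast
    linarith
  refine ⟨?_, hz2, ?_, fun P hP => ⟨fun x hx => ?_, ?_, ?_⟩⟩
  · refine Nat.le_floor ?_
    rw [Nat.cast_one, le_div_iff₀ (by norm_num)]
    linarith
  · have h1 : ((zC C1 N : ℕ) : ℝ) ^ 6 ≤ N := by
      refine (pow_le_pow_left₀ (by positivity) hzle 6).trans ?_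
      rw [← Real.rpow_natCast, ← Real.rpow_mul hN0'.le]
      refine (Real.rpow_le_rpow_of_exponent_le hN1' ?_).trans (Real.rpow_one _).le
      rw [one_div_mul_eq_div, div_le_one hcpos]
      push_cast
      linarith
    exact_mod_cast h1
  · have hs := esb_sum (N := N) (hM N hN3 P fun p hp => ⟨(hP p hp).1, (hP p hp).2.trans hz⟩) hx
    rw [← prod_one_add]
    have h1 : ∏ p ∈ P, (1 + x p) ≤ Real.exp (∑ p ∈ P, x p) := by
      rw [Real.exp_sum]
      refine prod_le_prod (fun p hp => by linarith [(hx p hp).1]) fun p hp => ?_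
      have := Real.add_one_le_exp (x p)
      linarith
    refine h1.trans ?_
    rw [← Real.exp_log hlog, ← Real.exp_nat_mul, Real.exp_le_exp]
    push_cast
    rw [← hlgd]
    linarith
  · intro S hS hcard
    exact esb_prod hN1' hcpos hzle (by omega) (fun p hp => (hP p (mem_powerset.1 hS hp)).2) hcard
  · have h1 : (P.powerset.filter fun S => S.card ≤ T0C C1 N).card ≤
        (Icc 1 ⌊(N : ℝ) ^ ((1 : ℝ) / 5000)⌋₊).card := by
      refine card_le_card_of_injOn (fun S => ∏ p ∈ S, p) ?_ ?_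
      · intro S hS
        obtain ⟨hS1, hS2⟩ := mem_filter.1 hS
        have hSP := mem_powerset.1 hS1
        rw [mem_coe, mem_Icc]
        refine ⟨Nat.one_le_iff_ne_zero.2 (prod_ne_zero_iff.2 fun p hp => (hP p (hSP hp)).1.ne_zero), ?_⟩
        exact Nat.le_floor (esb_prod hN1' hcpos hzle (by omega) (fun p hp => (hP p (hSP hp)).2) hS2)
      · intro S hS S' hS' he
        have hSP := mem_powerset.1 (mem_filter.1 hS).1
        have hSP' := mem_powerset.1 (mem_filter.1 hS').1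
        rw [← Nat.primeFactors_prod fun p hp => (hP p (hSP hp)).1,
          ← Nat.primeFactors_prod fun p hp => (hP p (hSP' hp)).1]
        exact congrArg Nat.primeFactors he
    have h2 : ((P.powerset.filter fun S => S.card ≤ T0C C1 N).card : ℝ) ≤
        (⌊(N : ℝ) ^ ((1 : ℝ) / 5000)⌋₊ : ℝ) := by
      have h3 := h1
      rw [Nat.card_Icc, Nat.add_sub_cancel] at h3
      exact_mod_cast h3
    exact h2.trans (Nat.floor_le (by positivity))

end Pool.Agent.Lib.TE
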