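import Pool.Agent.Lib.MP_7b7e48_nt.TE.H2AP

/-!
# Module H2D: `h2 c` on the multiples of `d1` in a progression
-/

set_option autoImplicit false

open Finset
open Pool.Agent.Lib.RG (RC LV rr PB)
open Pool.Agent.Lib.OW (rs dd h2)

namespace Pool.Agent.Lib.TE

private theorem H2D_HH (c : ℕ → ℝ) {a b : ℕ} (h : a.Coprime b) : HH c (a * b) = HH c a * HH c b := by
  unfold HH
  rw [Nat.totient_mul h, h.primeFactors_mul, prod_union h.disjoint_primeFactors, Nat.cast_mul,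
    ← one_div_mul_one_div]
  ring

open Classical in
/-- the numbers coprime to `d` in a progression modulo `M`, by classes modulo `M d` -/
private theorem H2D_cls {M d : ℕ} (b y : ℕ) (hMd : M.Coprime d) (hd : 1 ≤ d) (F : ℕ → ℝ) :
    ∃ β : ℕ → ℕ, (∀ r, β r ≡ b [MOD M] ∧ β r ≡ r [MOD d]) ∧
    ∑ n ∈ (Icc 1 y).filter (fun n => n ≡ b [MOD M] ∧ n.Coprime d), F n =
      ∑ r ∈ (range d).filter (fun r => d.Coprime r),
        ∑ n ∈ (Icc 1 y).filter (fun n => n ≡ β r [MOD M * d]), F n := by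
  refine ⟨fun r => (Nat.chineseRemainder hMd b r : ℕ), fun r => (Nat.chineseRemainder hMd b r).2, ?_⟩
  rw [← sum_fiberwise_of_maps_to (g := fun n => n % d) (t := (range d).filter (fun r => d.Coprime r))]
  · refine sum_congr rfl fun r hr => ?_
    obtain ⟨hr1, hr2⟩ := mem_filter.1 hr
    rw [mem_range] at hr1
    obtain ⟨h1, h2⟩ := (Nat.chineseRemainder hMd b r).2
    refine sum_congr ?_ fun _ _ => rfl
    ext n
    simp only [mem_filter]
    rw [← Nat.modEq_and_modEq_iff_modEq_mul hMd]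
    constructor
    · rintro ⟨⟨h3, h4, h5⟩, h6⟩
      refine ⟨h3, h4.trans h1.symm, ?_⟩
      refine Nat.ModEq.trans ?_ h2.symm
      unfold Nat.ModEq
      rw [h6, Nat.mod_eq_of_lt hr1]
    · rintro ⟨h3, h4, h5⟩
      have h6 : n ≡ r [MOD d] := h5.trans h2
      refine ⟨⟨h3, h4.trans h1, ?_⟩, ?_⟩
      · rw [Nat.coprime_iff_gcd_eq_one, h6.gcd_eq]
        exact Nat.coprime_comm.1 hr2
      · have h7 : n % d = r % d := h6
        rw [h7, Nat.mod_eq_of_lt hr1]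
  · intro n hn
    obtain ⟨-, -, h2⟩ := mem_filter.1 hn
    rw [mem_filter, mem_range]
    refine ⟨Nat.mod_lt _ hd, ?_⟩
    rw [Nat.coprime_iff_gcd_eq_one, Nat.gcd_comm, (Nat.mod_modEq n d).gcd_eq]
    exact h2

open Classical in
/-- inclusion-exclusion -/
private theorem H2D_ie {d n : ℕ} (hd : Squarefree d) :
    (if d ∣ n then (1 : ℝ) else 0) = ∑ T ∈ d.primeFactors.powerset,
      (-1 : ℝ) ^ T.card * (if n.Coprime (∏ q ∈ T, q) then (1 : ℝ) else 0) := by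
  have h1 : ∀ T ∈ d.primeFactors.powerset, (-1 : ℝ) ^ T.card * (if n.Coprime (∏ q ∈ T, q) then (1 : ℝ) else 0) =
      ∏ q ∈ T, (-(if q ∣ n then (0 : ℝ) else 1)) := by
    intro T hT
    have hTp : ∀ q ∈ T, q.Prime := fun q hq => Nat.prime_of_mem_primeFactors (mem_powerset.1 hT hq)
    rw [prod_neg]
    congr 1
    have h2 : ∀ q ∈ T, (if q ∣ n then (0 : ℝ) else 1) = if ¬ q ∣ n then 1 else 0 := by
      intro q _
      by_cases h : q ∣ n <;> simp [h]
    rw [prod_congr rfl h2, prod_ite_zero]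
    refine if_congr ?_ (by simp) rfl
    rw [Nat.coprime_prod_right_iff]
    refine forall₂_congr fun q hq => ?_
    rw [Nat.coprime_comm, (hTp q hq).coprime_iff_not_dvd]
  rw [sum_congr rfl h1, ← prod_one_add]
  have h3 : ∀ q ∈ d.primeFactors, (1 + -(if q ∣ n then (0 : ℝ) else 1)) = if q ∣ n then 1 else 0 := by
    intro q _
    by_cases h : q ∣ n <;> simp [h]
  rw [prod_congr rfl h3, prod_ite_zero]
  refine if_congr ?_ (by simp) rfl
  constructor
  · exact fun h q hq => (Nat.dvd_of_mem_primeFactors hq).trans h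
  · intro h
    rw [← Nat.prod_primeFactors_of_squarefree hd]
    exact prod_primes_dvd n (fun q hq => (Nat.prime_of_mem_primeFactors hq).prime) h

private theorem H2D_tot {T : Finset ℕ} (hT : ∀ q ∈ T, q.Prime) :
    ((∏ q ∈ T, q).totient : ℝ) = ∏ q ∈ T, ((q : ℝ) - 1) := by
  induction T using Finset.induction_on with
  | empty => simp
  | insert a T ha ih =>
    have hTp : ∀ q ∈ T, q.Prime := fun q hq => hT q (mem_insert_of_mem hq)
    have hap := hT a (mem_insert_self a T)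
    have hc : a.Coprime (∏ q ∈ T, q) := by
      rw [Nat.coprime_prod_right_iff]
      intro q hq
      exact (Nat.coprime_primes hap (hTp q hq)).2 fun h => ha (h ▸ hq)
    rw [prod_insert ha, prod_insert ha, Nat.totient_mul hc, Nat.totient_prime hap, Nat.cast_mul, ih hTp,
      Nat.cast_sub hap.one_lt.le, Nat.cast_one]

open Classical in
theorem h2d (Wf : ℕ) (hW : 1 ≤ Wf) : ∃ N0 : ℕ, ∀ (N : ℕ) [NeZero (Wf * N)], N0 ≤ N →
    ∀ χ : DirichletCharacter ℂ (Wf * N), χ ^ 2 = 1 →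
    (∃ m : ℕ, m ≡ 1 [MOD Wf] ∧ m.Coprime (Wf * N) ∧ χ (m : ZMod (Wf * N)) ≠ 1) →
    ∀ L : ℝ, LV (Wf * N) (fun n => (χ (n : ZMod (Wf * N))).re) L →
    ∀ m d1 d2 : ℕ, 1 ≤ m → ((m * d1 * d2 : ℕ) : ℝ) ≤ (N : ℝ) ^ ((1 : ℝ) / 700) → (m * d1 * d2).Coprime (Wf * N) →
    m.Coprime d1 → m.Coprime d2 → d1.Coprime d2 → Squarefree d1 → Squarefree d2 →
    (∀ q ∈ d1.primeFactors, (χ (q : ZMod (Wf * N))).re = 1) →
    ∀ b y : ℕ, b.Coprime (Wf * (m * d2)) → 1 ≤ y → (y : ℝ) ≤ (N : ℝ) ^ 2 →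
    |∑ n ∈ (Finset.Icc 1 y).filter (fun n => n ≡ b [MOD Wf * (m * d2)] ∧ d1 ∣ n), h2 (fun n => (χ (n : ZMod (Wf * N))).re) n -
      MT Wf N * L * HH (fun n => (χ (n : ZMod (Wf * N))).re) (m * d2) * (∏ q ∈ d1.primeFactors, 2 / ((q : ℝ) + 1)) * y| ≤
      Real.sqrt y * (N : ℝ) ^ ((35 : ℝ) / 100) := by
  obtain ⟨N1, h1⟩ := h2ap Wf hW
  refine ⟨max N1 2, ?_⟩
  intro N _ hN χ hχ hm L hL m d1 d2 hm1 hle hcop hmd1 hmd2 hd12 hsq1 hsq2 hc b y hb hy hyN
  have hN1 : N1 ≤ N := (le_max_left _ _).trans hN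
  have hN2 : 2 ≤ N := (le_max_right _ _).trans hN
  have hNr : (1 : ℝ) ≤ N := by exact_mod_cast (by omega : 1 ≤ N)
  have hN0 : (0 : ℝ) < N := by linarith
  set c : ℕ → ℝ := fun n => (χ (n : ZMod (Wf * N))).re with hcdef
  set h := m * d2 with hh
  have hd1 : d1 ≠ 0 := hsq1.ne_zero
  have hd2 : d2 ≠ 0 := hsq2.ne_zero
  have hh1 : 1 ≤ h := Nat.mul_pos hm1 (Nat.pos_of_ne_zero hd2)
  have hhd1 : h.Coprime d1 := Nat.Coprime.mul_left hmd1 hd12.symm
  have hmd : m * d1 * d2 = h * d1 := by rw [hh]; ring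
  rw [hmd] at hle hcop
  have hWd1 : Wf.Coprime d1 := by
    have h2 : d1.Coprime (Wf * N) := Nat.Coprime.coprime_dvd_left (dvd_mul_left d1 h) hcop
    exact (Nat.Coprime.coprime_dvd_right (dvd_mul_right Wf N) h2).symm
  set Q := d1.primeFactors with hQ
  have hTp : ∀ T ∈ Q.powerset, ∀ q ∈ T, q.Prime := fun T hT q hq =>
    Nat.prime_of_mem_primeFactors (mem_powerset.1 hT hq)
  have hTd : ∀ T ∈ Q.powerset, (∏ q ∈ T, q) ∣ d1 := by
    intro T hT
    rw [← Nat.prod_primeFactors_of_squarefree hsq1]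
    exact prod_dvd_prod_of_subset _ _ _ (mem_powerset.1 hT)
  set E := Real.sqrt y * (N : ℝ) ^ ((34 : ℝ) / 100) with hE
  -- the sums over the numbers coprime to a divisor of `d1`
  have key : ∀ T ∈ Q.powerset,
      |∑ n ∈ (Icc 1 y).filter (fun n => n ≡ b [MOD Wf * h] ∧ n.Coprime (∏ q ∈ T, q)), h2 c n -
        MT Wf N * L * HH c h * (∏ q ∈ T, ((1 - 1 / (q : ℝ)) / (1 + 1 / (q : ℝ)))) * y| ≤
      (∏ q ∈ T, ((q : ℝ) - 1)) * E := by
    intro T hT
    set d := ∏ q ∈ T, q with hd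
    have hdd1 : d ∣ d1 := hTd T hT
    have hdpos : 1 ≤ d := Nat.pos_of_ne_zero fun h0 => hd1 (by rw [h0] at hdd1; exact Nat.eq_zero_of_zero_dvd hdd1)
    have hMd : (Wf * h).Coprime d :=
      Nat.Coprime.coprime_dvd_right hdd1 (Nat.Coprime.mul_left hWd1 hhd1)
    have hhd : h.Coprime d := Nat.Coprime.coprime_dvd_right hdd1 hhd1
    obtain ⟨β, hβ, hsum⟩ := H2D_cls b y hMd hdpos (h2 c)
    have hcard : ((range d).filter (fun r => d.Coprime r)).card = d.totient := rfl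
    have hle' : ((h * d : ℕ) : ℝ) ≤ (N : ℝ) ^ ((1 : ℝ) / 700) := by
      refine le_trans ?_ hle
      exact_mod_cast Nat.mul_le_mul_left h (Nat.le_of_dvd (Nat.pos_of_ne_zero hd1) hdd1)
    have hcop' : (h * d).Coprime (Wf * N) := Nat.Coprime.coprime_dvd_left (Nat.mul_dvd_mul_left h hdd1) hcop
    have hone : ∀ r ∈ (range d).filter (fun r => d.Coprime r),
        |∑ n ∈ (Icc 1 y).filter (fun n => n ≡ β r [MOD Wf * h * d]), h2 c n - MT Wf N * L * HH c (h * d) * y| ≤ E := by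
      intro r hr
      obtain ⟨-, hr2⟩ := mem_filter.1 hr
      have h3 := h1 N hN1 χ hχ hm L hL (h * d) (Nat.mul_pos hh1 hdpos) hle' hcop' (β r) y ?_ hy hyN
      · rw [← mul_assoc] at h3
        exact h3
      · rw [← mul_assoc]
        refine Nat.Coprime.mul_right ?_ ?_
        · rw [Nat.coprime_iff_gcd_eq_one, (hβ r).1.gcd_eq]
          exact hb
        · rw [Nat.coprime_iff_gcd_eq_one, (hβ r).2.gcd_eq]
          exact hr2.symm
    have htot : (d.totient : ℝ) = ∏ q ∈ T, ((q : ℝ) - 1) := H2D_tot (hTp T hT)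
    have htot0 : (0 : ℝ) < d.totient := by exact_mod_cast Nat.totient_pos.2 hdpos
    have hHd : (d.totient : ℝ) * HH c d = ∏ q ∈ T, ((1 - 1 / (q : ℝ)) / (1 + 1 / (q : ℝ))) := by
      unfold HH
      rw [← mul_assoc, mul_one_div_cancel htot0.ne', one_mul, hd, Nat.primeFactors_prod (hTp T hT)]
      refine prod_congr rfl fun q hq => ?_
      have h4 : c q = 1 := hc q (mem_powerset.1 hT hq)
      rw [h4]
    have hmain : MT Wf N * L * HH c h * (∏ q ∈ T, ((1 - 1 / (q : ℝ)) / (1 + 1 / (q : ℝ)))) * y =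
        ∑ r ∈ (range d).filter (fun r => d.Coprime r), MT Wf N * L * HH c (h * d) * y := by
      rw [sum_const, nsmul_eq_mul, hcard, ← hHd, H2D_HH c hhd]
      ring
    rw [hsum, hmain, ← sum_sub_distrib]
    refine (abs_sum_le_sum_abs _ _).trans ((sum_le_sum hone).trans (le_of_eq ?_))
    rw [sum_const, nsmul_eq_mul, hcard, htot]
  -- inclusion-exclusion
  have hS : ∑ n ∈ (Icc 1 y).filter (fun n => n ≡ b [MOD Wf * h] ∧ d1 ∣ n), h2 c n =
      ∑ T ∈ Q.powerset, (-1 : ℝ) ^ T.card *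
        ∑ n ∈ (Icc 1 y).filter (fun n => n ≡ b [MOD Wf * h] ∧ n.Coprime (∏ q ∈ T, q)), h2 c n := by
    rw [← filter_filter, sum_filter]
    have h3 : ∀ n ∈ (Icc 1 y).filter (fun n => n ≡ b [MOD Wf * h]), (if d1 ∣ n then h2 c n else 0) =
        ∑ T ∈ Q.powerset, (-1 : ℝ) ^ T.card * (if n.Coprime (∏ q ∈ T, q) then h2 c n else 0) := by
      intro n _
      have h4 : (if d1 ∣ n then h2 c n else 0) = (if d1 ∣ n then (1 : ℝ) else 0) * h2 c n := by
        split_ifs <;> simp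
      rw [h4, H2D_ie hsq1, sum_mul]
      refine sum_congr rfl fun T _ => ?_
      split_ifs <;> simp
    rw [sum_congr rfl h3, sum_comm]
    refine sum_congr rfl fun T _ => ?_
    rw [← mul_sum, ← sum_filter, filter_filter]
  have hM : MT Wf N * L * HH c h * (∏ q ∈ Q, 2 / ((q : ℝ) + 1)) * y =
      ∑ T ∈ Q.powerset, (-1 : ℝ) ^ T.card *
        (MT Wf N * L * HH c h * (∏ q ∈ T, ((1 - 1 / (q : ℝ)) / (1 + 1 / (q : ℝ)))) * y) := by
    have h3 : ∏ q ∈ Q, 2 / ((q : ℝ) + 1) = ∑ T ∈ Q.powerset, ∏ q ∈ T, (-((1 - 1 / (q : ℝ)) / (1 + 1 / (q : ℝ)))) := by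
      rw [← prod_one_add]
      refine prod_congr rfl fun q hq => ?_
      have hq0 : (0 : ℝ) < q := by exact_mod_cast (Nat.prime_of_mem_primeFactors hq).pos
      field_simp
      ring
    rw [h3, mul_sum, sum_mul]
    refine sum_congr rfl fun T _ => ?_
    rw [prod_neg]
    ring
  rw [hS, hM, ← sum_sub_distrib]
  have hsumE : ∑ T ∈ Q.powerset, (∏ q ∈ T, ((q : ℝ) - 1)) * E = d1 * E := by
    rw [← sum_mul, ← prod_one_add]
    congr 1
    have h3 : ∀ q ∈ Q, (1 : ℝ) + ((q : ℝ) - 1) = q := fun q _ => by ring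
    rw [prod_congr rfl h3, ← Nat.cast_prod, Nat.prod_primeFactors_of_squarefree hsq1]
  have hfin : (d1 : ℝ) * E ≤ Real.sqrt y * (N : ℝ) ^ ((35 : ℝ) / 100) := by
    have h3 : (d1 : ℝ) ≤ (N : ℝ) ^ ((1 : ℝ) / 700) := by
      refine le_trans ?_ hle
      exact_mod_cast Nat.le_mul_of_pos_left d1 hh1
    calc (d1 : ℝ) * E ≤ (N : ℝ) ^ ((1 : ℝ) / 700) * (Real.sqrt y * (N : ℝ) ^ ((34 : ℝ) / 100)) :=
          mul_le_mul_of_nonneg_right h3 (by positivity)
      _ = Real.sqrt y * ((N : ℝ) ^ ((1 : ℝ) / 700) * (N : ℝ) ^ ((34 : ℝ) / 100)) := by ring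
      _ = Real.sqrt y * (N : ℝ) ^ ((1 : ℝ) / 700 + (34 : ℝ) / 100) := by rw [← Real.rpow_add hN0]
      _ ≤ _ := mul_le_mul_of_nonneg_left
          (Real.rpow_le_rpow_of_exponent_le hNr (by norm_num)) (Real.sqrt_nonneg _)
  refine le_trans ?_ hfin
  rw [← hsumE]
  refine (abs_sum_le_sum_abs _ _).trans (sum_le_sum fun T hT => ?_)
  rw [← mul_sub, abs_mul, abs_pow, abs_neg, abs_one, one_pow, one_mul]
  exact key T hT

end Pool.Agent.Lib.TE
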