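import Pool.Agent.Lib.MP_7b7e48_nt.TE.KapS
import Pool.Agent.Lib.MP_7b7e48_nt.RG.NUM

/-!
# Module Loc (60 minutes): local factors

`xx c wa wb G p` is the density of the forbidden classes modulo `p`; `PPS` the primes in question.
PROOF. `HH c p = (1 - c p/p)/((1 + 1/p)(p - 1))` is `1/(p-1)` if `c p = -1`, `1/(p+1)` if `c p = 1` (and `p/((p+1)(p-1))` if `c p = 0`): `≤ 2/p` and, for `p ≥ 3`, `≤ 1/2`. `xx ≤ 4/p`. If `c p = 1`: `xx ≤ 3/(p+1) ≤ 1` for `p ≥ 2`; if `c p ≠ 1`: `xx ≤ 1/(p-1) ≤ 1`.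
`prod_xx`: for `n` with `Rough wa n`: for `p ∈ PPS`, `p ∣ n` (so `p > wa`), `p ≤ wb`, `p ∤ g`: `xx c wa wb (g n) p = 0`, `xx c wa wb g p = HH c p`; for all other `p ∈ PPS` both are equal. `1 - HH c p ≥ 1/2` since `p > wa ≥ 2`.
`expand`: `∏_{p ∈ P} (1 - u p - v p) = ∑ over disjoint pairs (S1, S2) of (-1)^(|S1|+|S2|) ∏_{S1} u ∏_{S2} v` (`Finset.prod_sub`/`prod_add` twice or induction on `P`).
-/

set_option autoImplicit false

open Finset
open Pool.Agent.Lib.GT (Rough)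
open Pool.Agent.Lib.RG (RC)

namespace Pool.Agent.Lib.TE

open Classical in
/-- the density of the forbidden classes modulo `p` -/
noncomputable def xx (c : ℕ → ℝ) (wa wb G p : ℕ) : ℝ :=
  (if p ≤ wa ∧ c p = 1 then 2 / ((p : ℝ) + 1) else 0) + (if p ≤ wb ∧ ¬ p ∣ G then HH c p else 0)

open Classical in
/-- the primes `≤ w` which do not divide `M` -/
noncomputable def PPS (w M : ℕ) : Finset ℕ := (range (w + 1)).filter fun p => p.Prime ∧ ¬ p ∣ M

open Classical in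
/-- the correction factor -/
noncomputable def gg (c : ℕ → ℝ) (wa wb g M p : ℕ) : ℝ :=
  if p.Prime ∧ ¬ p ∣ M ∧ wa < p ∧ p ≤ wb ∧ ¬ p ∣ g then (1 - HH c p)⁻¹ else 1

private theorem Loc_HH (c : ℕ → ℝ) {p : ℕ} (hp : p.Prime) :
    HH c p = 1 / ((p : ℝ) - 1) * ((1 - c p / p) / (1 + 1 / (p : ℝ))) := by
  unfold HH
  rw [hp.primeFactors, prod_singleton, Nat.totient_prime hp, Nat.cast_sub hp.one_lt.le,
    Nat.cast_one]

private theorem Loc_one (c : ℕ → ℝ) {p : ℕ} (hp : p.Prime) (h : c p = 1) :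
    HH c p = 1 / ((p : ℝ) + 1) := by
  have h1 : (2 : ℝ) ≤ p := by exact_mod_cast hp.two_le
  have h2' : (p : ℝ) ≠ 0 := by linarith
  have h3 : (p : ℝ) - 1 ≠ 0 := by linarith
  have h4 : (p : ℝ) + 1 ≠ 0 := by linarith
  rw [Loc_HH c hp, h]
  field_simp

private theorem Loc_neg (c : ℕ → ℝ) {p : ℕ} (hp : p.Prime) (h : c p = -1) :
    HH c p = 1 / ((p : ℝ) - 1) := by
  have h1 : (2 : ℝ) ≤ p := by exact_mod_cast hp.two_le
  have h2' : (p : ℝ) ≠ 0 := by linarith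
  have h3 : (p : ℝ) - 1 ≠ 0 := by linarith
  have h4 : (p : ℝ) + 1 ≠ 0 := by linarith
  rw [Loc_HH c hp, h]
  field_simp
  ring

private theorem Loc_val {M : ℕ} {c : ℕ → ℝ} (hc : RC M c) {p : ℕ} (hp : p.Prime)
    (hpM : ¬ p ∣ M) : c p = 1 ∨ c p = -1 :=
  hc.val p ((Nat.Prime.coprime_iff_not_dvd hp).2 hpM)

theorem HH_prime {M : ℕ} {c : ℕ → ℝ} (hc : RC M c) (p : ℕ) (hp : p.Prime) (hpM : ¬ p ∣ M) :
    0 ≤ HH c p ∧ HH c p ≤ 2 / p ∧ (3 ≤ p → HH c p ≤ 1 / 2) := by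
  have h1 : (2 : ℝ) ≤ p := by exact_mod_cast hp.two_le
  rcases Loc_val hc hp hpM with h | h
  · rw [Loc_one c hp h]
    refine ⟨by positivity, ?_, fun h3 => ?_⟩
    · rw [div_le_div_iff₀ (by linarith) (by linarith)]
      linarith
    · have h3' : (3 : ℝ) ≤ p := by exact_mod_cast h3
      rw [div_le_div_iff₀ (by linarith) (by norm_num)]
      linarith
  · rw [Loc_neg c hp h]
    refine ⟨div_nonneg zero_le_one (by linarith), ?_, fun h3 => ?_⟩
    · rw [div_le_div_iff₀ (by linarith) (by linarith)]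
      linarith
    · have h3' : (3 : ℝ) ≤ p := by exact_mod_cast h3
      rw [div_le_div_iff₀ (by linarith) (by norm_num)]
      linarith

theorem xx_bd {M : ℕ} {c : ℕ → ℝ} (hc : RC M c) (wa wb G p : ℕ) (hp : p.Prime) (hpM : ¬ p ∣ M) :
    0 ≤ xx c wa wb G p ∧ xx c wa wb G p ≤ 4 / p ∧ xx c wa wb G p ≤ 1 := by
  have h1 : (2 : ℝ) ≤ p := by exact_mod_cast hp.two_le
  obtain ⟨hh1, hh2, -⟩ := HH_prime hc p hp hpM
  have hA : (0 : ℝ) ≤ 2 / ((p : ℝ) + 1) := by positivity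
  have hB : 2 / ((p : ℝ) + 1) ≤ 2 / p := by
    rw [div_le_div_iff₀ (by linarith) (by linarith)]
    linarith
  have h4 : (4 : ℝ) / p = 2 / p + 2 / p := by ring
  have h5 : (0 : ℝ) ≤ 2 / p := by positivity
  unfold xx
  refine ⟨?_, ?_, ?_⟩
  · split_ifs <;> linarith
  · rw [h4]
    split_ifs <;> linarith
  · rcases Loc_val hc hp hpM with h | h
    · have h6 : 2 / ((p : ℝ) + 1) + 1 / ((p : ℝ) + 1) ≤ 1 := by
        rw [← add_div, div_le_one (by linarith)]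
        linarith
      have h7 : (0 : ℝ) ≤ 1 / ((p : ℝ) + 1) := by positivity
      rw [Loc_one c hp h]
      split_ifs <;> linarith
    · have h6 : 1 / ((p : ℝ) - 1) ≤ 1 := by
        rw [div_le_one (by linarith)]
        linarith
      rw [Loc_neg c hp h, if_neg (show ¬ (p ≤ wa ∧ c p = 1) by
        rintro ⟨-, h8⟩
        rw [h] at h8
        norm_num at h8)]
      split_ifs <;> linarith

theorem gg_bd {M : ℕ} {c : ℕ → ℝ} (hc : RC M c) (wa wb g Q p : ℕ) (hwa : 2 ≤ wa) (hQ : M ∣ Q) (hp : p.Prime) :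
    1 ≤ gg c wa wb g Q p ∧ gg c wa wb g Q p ≤ 1 + 4 / p := by
  have h1 : (2 : ℝ) ≤ p := by exact_mod_cast hp.two_le
  have h0 : (0 : ℝ) ≤ 4 / p := by positivity
  unfold gg
  by_cases hcond : p.Prime ∧ ¬ p ∣ Q ∧ wa < p ∧ p ≤ wb ∧ ¬ p ∣ g
  · rw [if_pos hcond]
    obtain ⟨-, hQ', hwp, -, -⟩ := hcond
    obtain ⟨hh1, hh2, hh3⟩ := HH_prime hc p hp (fun h => hQ' (h.trans hQ))
    have hh4 := hh3 (by omega)
    have hpos : 0 < 1 - HH c p := by linarith
    have h4 : (4 : ℝ) / p = 2 / p + 2 / p := by ring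
    constructor
    · rw [← one_div, le_div_iff₀ hpos]
      linarith
    · have h5 : (1 - HH c p)⁻¹ ≤ 1 + 2 * HH c p := by
        rw [← one_div, div_le_iff₀ hpos]
        nlinarith
      refine h5.trans ?_
      rw [h4]
      linarith
  · rw [if_neg hcond]
    exact ⟨le_refl 1, by linarith⟩

theorem prod_xx {M : ℕ} {c : ℕ → ℝ} (hc : RC M c) (w wa wb g n Q : ℕ) (hwa : 2 ≤ wa) (hw : wb ≤ w) (hn : 1 ≤ n) (hQ : M ∣ Q)
    (hr : Rough wa n) :
    ∏ p ∈ PPS w Q, (1 - xx c wa wb (g * n) p) = (∏ p ∈ PPS w Q, (1 - xx c wa wb g p)) * ∏ p ∈ n.primeFactors, gg c wa wb g Q p := by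
  classical
  have e1 : ∏ p ∈ n.primeFactors, gg c wa wb g Q p =
      ∏ p ∈ PPS w Q, if p ∣ n then gg c wa wb g Q p else 1 := by
    rw [← prod_filter]
    symm
    refine prod_subset ?_ ?_
    · intro p hp
      obtain ⟨h1, h2'⟩ := mem_filter.1 hp
      unfold PPS at h1
      obtain ⟨-, h3, -⟩ := mem_filter.1 h1
      exact Nat.mem_primeFactors.2 ⟨h3, h2', by omega⟩
    · intro p hp hpn
      have hp1 := Nat.prime_of_mem_primeFactors hp
      have hp2 := Nat.dvd_of_mem_primeFactors hp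
      unfold gg
      rw [if_neg]
      rintro ⟨-, h1, -, h3, -⟩
      refine hpn (mem_filter.2 ⟨?_, hp2⟩)
      unfold PPS
      exact mem_filter.2 ⟨mem_range.2 (by omega), hp1, h1⟩
  rw [e1, ← prod_mul_distrib]
  refine prod_congr rfl fun p hp => ?_
  unfold PPS at hp
  obtain ⟨-, hp1, hp2⟩ := mem_filter.1 hp
  by_cases hpn : p ∣ n
  · rw [if_pos hpn]
    have hwp : wa < p := hr p hp1 hpn
    have hf : ¬ (p ≤ wa ∧ c p = 1) := fun h => by omega
    have hgn : ¬ (p ≤ wb ∧ ¬ p ∣ g * n) := fun h => h.2 (hpn.mul_left g)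
    unfold xx gg
    rw [if_neg hf, if_neg hgn]
    by_cases h4 : p ≤ wb ∧ ¬ p ∣ g
    · rw [if_pos h4, if_pos ⟨hp1, hp2, hwp, h4.1, h4.2⟩]
      obtain ⟨-, -, hh3⟩ := HH_prime hc p hp1 (fun h => hp2 (h.trans hQ))
      have hh4 := hh3 (by omega)
      have hne : 1 - HH c p ≠ 0 := by linarith
      rw [zero_add, zero_add, sub_zero, mul_inv_cancel₀ hne]
    · rw [if_neg h4, if_neg (fun h => h4 ⟨h.2.2.2.1, h.2.2.2.2⟩), mul_one]
  · rw [if_neg hpn, mul_one]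
    have h5 : p ∣ g * n ↔ p ∣ g :=
      ⟨fun h => (hp1.dvd_mul.1 h).resolve_right hpn, fun h => h.mul_right n⟩
    unfold xx
    simp only [h5]

open Classical in
theorem expand (P : Finset ℕ) (u v : ℕ → ℝ) :
    ∏ p ∈ P, (1 - (u p + v p)) = ∑ S1 ∈ P.powerset, ∑ S2 ∈ P.powerset.filter (fun S => Disjoint S1 S),
      (-1 : ℝ) ^ (S1.card + S2.card) * ((∏ p ∈ S1, u p) * ∏ p ∈ S2, v p) := by
  have e1 : ∏ p ∈ P, (1 - (u p + v p)) = ∏ p ∈ P, ((-1) * u p + ((-1) * v p + 1)) :=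
    prod_congr rfl fun p _ => by ring
  rw [e1, prod_add]
  refine sum_congr rfl fun S1 hS1 => ?_
  rw [prod_add, mul_sum]
  have e2 : (P \ S1).powerset = P.powerset.filter (fun S => Disjoint S1 S) := by
    ext S
    simp only [mem_powerset, mem_filter, subset_sdiff, disjoint_comm]
  rw [e2]
  refine sum_congr rfl fun S2 _ => ?_
  rw [prod_const_one, mul_one, prod_mul_distrib, prod_mul_distrib, prod_const, prod_const, pow_add]
  ring

/-- `HH` of a product -/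
theorem HH_mul (c : ℕ → ℝ) {a b : ℕ} (h : a.Coprime b) : HH c (a * b) = HH c a * HH c b := by
  unfold HH
  rw [h.primeFactors_mul, prod_union h.disjoint_primeFactors, Nat.totient_mul h, Nat.cast_mul]
  by_cases ha : (a.totient : ℝ) = 0
  · rw [ha]; simp
  by_cases hb : (b.totient : ℝ) = 0
  · rw [hb]; simp
  field_simp

private theorem Loc_fac {M : ℕ} {c : ℕ → ℝ} (hc : RC M c) {p : ℕ} (hp : p.Prime) :
    0 ≤ (1 - c p / p) / (1 + 1 / (p : ℝ)) ∧ (1 - c p / p) / (1 + 1 / (p : ℝ)) ≤ 1 := by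
  have h1 : (2 : ℝ) ≤ p := by exact_mod_cast hp.two_le
  have h2' : 0 < 1 / (p : ℝ) := by positivity
  have h3 : 1 / (p : ℝ) ≤ 1 := by
    rw [div_le_one (by linarith)]
    linarith
  have h4 : -1 ≤ c p ∧ c p ≤ 1 := by
    by_cases hpM : p.Coprime M
    · rcases hc.val p hpM with h | h <;> rw [h] <;> constructor <;> norm_num
    · rw [hc.zero p hpM]
      constructor <;> norm_num
  have h5 : c p / p = c p * (1 / (p : ℝ)) := by ring
  have h6 : c p * (1 / (p : ℝ)) ≤ 1 / (p : ℝ) := by nlinarith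
  have h7 : -(1 / (p : ℝ)) ≤ c p * (1 / (p : ℝ)) := by nlinarith
  constructor
  · rw [h5]
    exact div_nonneg (by linarith) (by linarith)
  · rw [h5, div_le_one (by linarith)]
    linarith

theorem HH_nonneg {M : ℕ} {c : ℕ → ℝ} (hc : RC M c) (h : ℕ) : 0 ≤ HH c h := by
  unfold HH
  exact mul_nonneg (by positivity) (prod_nonneg fun p hp =>
    (Loc_fac hc (Nat.prime_of_mem_primeFactors hp)).1)

/-- `HH c h ≤ K²/h` for `h ≤ N` (`HH c h ≤ 1/φ(h)`, and `h/φ(h) = ∏_{p ∣ h} p/(p-1) ≤ ω(h) + 1 ≤ log h/log 2 + 1`) -/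
theorem HH_le : ∃ N0 : ℕ, ∀ N : ℕ, N0 ≤ N → ∀ (M : ℕ) (c : ℕ → ℝ), RC M c → ∀ h : ℕ, 1 ≤ h → h ≤ N →
    HH c h ≤ (Real.log N) ^ 2 / h := by
  obtain ⟨h0, hh0⟩ := Filter.eventually_atTop.1 Pool.Agent.Lib.RH.ev_totient
  have ht : Filter.Tendsto (fun N : ℕ => Real.log (N : ℝ)) Filter.atTop Filter.atTop :=
    Real.tendsto_log_atTop.comp tendsto_natCast_atTop_atTop
  obtain ⟨N0, hN0⟩ := Filter.eventually_atTop.1
    (ht.eventually_ge_atTop ((h0 : ℝ) + 1))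
  refine ⟨N0, fun N hN M c hc h hh1 hhN => ?_⟩
  have hlog : (h0 : ℝ) + 1 ≤ Real.log N := hN0 N hN
  have h00 : (0 : ℝ) ≤ h0 := Nat.cast_nonneg h0
  have hphi : (1 : ℝ) ≤ h.totient := by exact_mod_cast Nat.totient_pos.2 hh1
  have hhpos : (0 : ℝ) < h := by exact_mod_cast hh1
  have e1 : HH c h ≤ 1 / (h.totient : ℝ) := by
    unfold HH
    have h3 : ∏ p ∈ h.primeFactors, ((1 - c p / p) / (1 + 1 / (p : ℝ))) ≤ 1 :=
      prod_le_one (fun p hp => (Loc_fac hc (Nat.prime_of_mem_primeFactors hp)).1)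
        fun p hp => (Loc_fac hc (Nat.prime_of_mem_primeFactors hp)).2
    calc 1 / (h.totient : ℝ) * ∏ p ∈ h.primeFactors, ((1 - c p / p) / (1 + 1 / (p : ℝ)))
        ≤ 1 / (h.totient : ℝ) * 1 := mul_le_mul_of_nonneg_left h3 (by positivity)
      _ = 1 / (h.totient : ℝ) := mul_one _
  refine e1.trans ?_
  rw [div_le_div_iff₀ (by linarith) hhpos, one_mul]
  rcases le_or_gt h0 h with h5 | h5
  · have h6 : (h : ℝ) ≤ Real.log h * h.totient := hh0 h h5
    have h7 : Real.log h ≤ Real.log N := Real.log_le_log hhpos (by exact_mod_cast hhN)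
    calc (h : ℝ) ≤ Real.log h * h.totient := h6
      _ ≤ Real.log N * h.totient := mul_le_mul_of_nonneg_right h7 (by linarith)
      _ ≤ Real.log N ^ 2 * h.totient :=
          mul_le_mul_of_nonneg_right (by nlinarith) (by linarith)
  · have h6 : (h : ℝ) ≤ h0 := by exact_mod_cast h5.le
    have h7 : (h0 : ℝ) ≤ Real.log N ^ 2 := by nlinarith
    nlinarith

theorem MT_bd (W N : ℕ) (hW : 1 ≤ W) (hN : 1 ≤ N) : 0 ≤ MT W N ∧ MT W N ≤ 4 * Pool.Agent.Lib.OW.del (W * N) := by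
  obtain ⟨h1, h3⟩ := kapM_bd (W * N) (Nat.mul_pos hW hN)
  have hd : 0 ≤ Pool.Agent.Lib.OW.del (W * N) := by
    unfold Pool.Agent.Lib.OW.del
    positivity
  have hphi : (1 : ℝ) ≤ W.totient := by exact_mod_cast Nat.totient_pos.2 hW
  have h5 : Pool.Agent.Lib.OW.del (W * N) / W.totient ≤ Pool.Agent.Lib.OW.del (W * N) :=
    div_le_self hd hphi
  have h6 : 0 ≤ Pool.Agent.Lib.OW.del (W * N) / W.totient := div_nonneg hd (by linarith)
  unfold MT
  exact ⟨mul_nonneg (by linarith) h6, by nlinarith⟩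

end Pool.Agent.Lib.TE
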