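import Pool.Agent.Lib.MP_7b7e48_nt.TE.LamG1
import Pool.Agent.Lib.MP_7b7e48_nt.TE.Esb
import Pool.Agent.Lib.MP_7b7e48_nt.LG.LA2
import Pool.Agent.Lib.Sieve.Mertens

/-!
# Module LamG2 (90 minutes): its sums are small

`K = log N`, `z = zC C1 N`, `β = 1/log z`, `|hG k| ≤ ∏_{p ∣ k} u_p` (`k` squarefree), `u_p = 1` if `p ∣ r` or `p ≤ wa` and `u_p = 4/p` for the other `p ≤ z`, `u_p = 0` for the other `p > z`. PROOF. (1) `∑_{k ≤ N} |hG k|/k ≤ ∏ (1 + u_p/p) ≤ exp(∑_{p ≤ z} 1/p + ∑_{p ∣ r} 1/p + 4) ≤ K^3` (`r ≤ N^3` has at most `5 K` prime factors, so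
`∑_{p ∣ r} 1/p ≤ log K + 2`, e.g. `log log (5K)` + ..). (2) RANKIN: `∑_{k > √X, k squarefree, k ≤ X} |hG k|/k ≤ X^(-β/2) ∑ |hG k| k^(β-1) ≤ X^(-β/2) ∏_p (1 + u_p p^(β-1))`: `p ≤ z`: `p^β ≤ e`: `exp(e ∑_{p ≤ z} 1/p + 4 e) ≤ K^4`; `p ∣ r`, `p > z`: `p ≤ N^3`, `p^β ≤ exp(3 K/log z) ≤ exp(4 C1 log K) = K^(4 C1)`, `p^(β-1) ≤ K^(4 C1)/z`, at most `5 K` such primes: factor `≤ 2`.
`X^(-β/2) ≤ exp(-K/(12 log z)) ≤ exp(-C1 log K/12) = K^(-C1/12)`. So (2) `≤ K^(5 - C1/12) ≤ K^(-A-2)` if `C1 ≥ 12 (A + 7)`. (3) `FG_sum`: `k ≤ √X`: `X/k ≥ √X - 1 ≥ N^(1/13)`, `LG.LA2`, `LG.LA0` with exponent `A + 5`: `≤ C (13)^(A+5) K^(-A-5)` resp. times `X/k`; `k > √X`: `|∑ lam n/n| ≤ C` resp. `≤ X/k`.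
(`log z ≤ K/(C1 log K)` and `log z ≥ K/(C1 log K) - 1` since `z = ⌊·⌋ ≥ 2`.)
-/

set_option autoImplicit false

open Finset

open Pool.Agent.Lib.MP_45349e_nt.LS (lam)

namespace Pool.Agent.Lib.TE

/-- a sum over squarefree numbers is at most the product over the primes -/
private theorem LamG2_euler (X : ℕ) (f : ℕ → ℝ) (hf : ∀ p, p.Prime → 0 ≤ f p) :
    ∑ k ∈ (Icc 1 X).filter (fun k => Squarefree k), ∏ p ∈ k.primeFactors, f p ≤
      ∏ p ∈ (Icc 1 X).filter Nat.Prime, (1 + f p) := by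
  classical
  rw [prod_one_add]
  have hinj : Set.InjOn Nat.primeFactors
      (((Icc 1 X).filter (fun k => Squarefree k) : Finset ℕ) : Set ℕ) := by
    intro a ha b hb hab
    rw [mem_coe, mem_filter] at ha hb
    rw [← Nat.prod_primeFactors_of_squarefree ha.2, ← Nat.prod_primeFactors_of_squarefree hb.2, hab]
  rw [← sum_image (f := fun S : Finset ℕ => ∏ p ∈ S, f p) hinj]
  refine sum_le_sum_of_subset_of_nonneg ?_ ?_
  · intro S hS
    rw [mem_image] at hS
    obtain ⟨k, hk, rfl⟩ := hS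
    rw [mem_filter, mem_Icc] at hk
    rw [mem_powerset]
    intro p hp
    have hp1 := Nat.prime_of_mem_primeFactors hp
    have hp2 := Nat.le_of_dvd (by omega) (Nat.dvd_of_mem_primeFactors hp)
    rw [mem_filter, mem_Icc]
    exact ⟨⟨hp1.one_le, by omega⟩, hp1⟩
  · intro S hS _
    rw [mem_powerset] at hS
    exact prod_nonneg fun p hp => hf p (mem_filter.1 (hS hp)).2

/-- the factors of the convolution factor -/
private noncomputable def LamG2_u (r wa : ℕ) (g : ℕ → ℝ) (p : ℕ) : ℝ :=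
  |if p ∣ r ∨ p ≤ wa then (1 : ℝ) else 1 - g p|

private theorem LamG2_rank (r wa : ℕ) (g : ℕ → ℝ) (X : ℕ) (β : ℝ) :
    ∑ k ∈ Icc 1 X, |hG r wa g k| * (k : ℝ) ^ (β - 1) ≤
      ∏ p ∈ (Icc 1 X).filter Nat.Prime, (1 + LamG2_u r wa g p * (p : ℝ) ^ (β - 1)) := by
  classical
  refine le_trans (le_of_eq ?_) (LamG2_euler X (fun p => LamG2_u r wa g p * (p : ℝ) ^ (β - 1))
    (fun p _ => mul_nonneg (abs_nonneg _) (by positivity)))
  rw [sum_filter]
  refine sum_congr rfl fun k hk => ?_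
  by_cases h : Squarefree k
  · rw [if_pos h, prod_mul_distrib]
    unfold hG
    rw [if_pos h, abs_prod]
    have h1 : ∏ p ∈ k.primeFactors, (p : ℝ) ^ (β - 1) = (k : ℝ) ^ (β - 1) := by
      rw [Real.finsetProd_rpow _ _ (fun p _ => Nat.cast_nonneg p), ← Nat.cast_prod,
        Nat.prod_primeFactors_of_squarefree h]
    rw [h1]
    rfl
  · rw [if_neg h]
    unfold hG
    rw [if_neg h, abs_zero, zero_mul]

private theorem LamG2_omega {N r : ℕ} (hr : 1 ≤ r) (h : (r : ℝ) ≤ (N : ℝ) ^ 3) :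
    (r.primeFactors.card : ℝ) ≤ 5 * Real.log N := by
  have h1 : 2 ^ r.primeFactors.card ≤ r := by
    calc 2 ^ r.primeFactors.card ≤ ∏ p ∈ r.primeFactors, p :=
          pow_card_le_prod _ _ _ fun p hp => (Nat.prime_of_mem_primeFactors hp).two_le
      _ ≤ r := Nat.le_of_dvd (by omega) (Nat.prod_primeFactors_dvd r)
  have h2 : (2 : ℝ) ^ r.primeFactors.card ≤ (N : ℝ) ^ 3 := le_trans (by exact_mod_cast h1) h
  have h3 := Real.log_le_log (by positivity) h2
  rw [Real.log_pow, Real.log_pow] at h3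
  have h4 := Real.log_two_gt_d9
  have h5 : 0 ≤ Real.log N := Real.log_natCast_nonneg N
  have h6 : (0 : ℝ) ≤ (r.primeFactors.card : ℝ) := Nat.cast_nonneg _
  push_cast at h3
  nlinarith

/-- Mertens -/
private theorem LamG2_mert : ∃ C : ℝ, 1 ≤ C ∧ ∀ X : ℕ, 2 ≤ X →
    ∏ p ∈ (Icc 1 X).filter Nat.Prime, (1 + 6 / (p : ℝ)) ≤ (C * Real.log X) ^ 6 := by
  obtain ⟨C, hC, hM⟩ := Pool.Agent.Lib.Sieve.mertens_product_upper
  refine ⟨max C 1, le_max_right _ _, fun X hX => ?_⟩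
  have hlog : 0 ≤ Real.log X := Real.log_natCast_nonneg X
  have hfac : ∀ p : ℕ, p.Prime → (0 : ℝ) < 1 - 1 / (p : ℝ) ∧
      1 + 1 / (p : ℝ) ≤ (1 - 1 / (p : ℝ))⁻¹ := by
    intro p hp
    have h2 : (2 : ℝ) ≤ p := by exact_mod_cast hp.two_le
    have h3 : 1 / (p : ℝ) ≤ 1 / 2 := one_div_le_one_div_of_le (by norm_num) h2
    have h4 : 0 ≤ 1 / (p : ℝ) := by positivity
    have h5 : (0 : ℝ) < 1 - 1 / (p : ℝ) := by linarith
    refine ⟨h5, ?_⟩
    rw [← one_div, le_div_iff₀ h5]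
    have h6 : 0 ≤ (1 / (p : ℝ)) ^ 2 := by positivity
    nlinarith
  have h2 : ∏ p ∈ (Icc 1 X).filter Nat.Prime, (1 + 6 / (p : ℝ)) ≤
      ∏ p ∈ (Icc 1 X).filter Nat.Prime, ((1 - 1 / (p : ℝ))⁻¹) ^ 6 := by
    refine prod_le_prod (fun p _ => by positivity) fun p hp => ?_
    have h3 : 1 + ((6 : ℕ) : ℝ) * (1 / (p : ℝ)) ≤ (1 + 1 / (p : ℝ)) ^ 6 := by
      apply one_add_mul_le_pow
      have : (0 : ℝ) ≤ 1 / (p : ℝ) := by positivity
      linarith
    calc 1 + 6 / (p : ℝ) = 1 + ((6 : ℕ) : ℝ) * (1 / (p : ℝ)) := by push_cast; ring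
      _ ≤ (1 + 1 / (p : ℝ)) ^ 6 := h3
      _ ≤ ((1 - 1 / (p : ℝ))⁻¹) ^ 6 := by
          apply pow_le_pow_left₀ _ (hfac p (mem_filter.1 hp).2).2
          positivity
  rw [prod_pow] at h2
  refine h2.trans ?_
  apply pow_le_pow_left₀ (prod_nonneg fun p hp => (inv_nonneg.2 (hfac p (mem_filter.1 hp).2).1.le))
  refine (hM X hX).trans ?_
  exact mul_le_mul_of_nonneg_right (le_max_left _ _) hlog

/-- numerical facts on `z = zC C1 N` -/
private theorem LamG2_num (C1 : ℝ) (h1 : 1 ≤ C1) (T : ℝ) : ∃ N0 : ℕ, ∀ N : ℕ, N0 ≤ N →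
    1 ≤ Real.log N ∧ T ≤ Real.log N ∧ 1 ≤ Real.log (Real.log N) ∧ 3 ≤ zC C1 N ∧
    Real.log (zC C1 N) ≤ Real.log N / (C1 * Real.log (Real.log N)) ∧
    Real.log N ≤ 2 * C1 * Real.log (Real.log N) * Real.log (zC C1 N) ∧
    10 * (Real.log N) ^ (2 * C1 + 1) ≤ zC C1 N := by
  have hev1 : ∀ᶠ x : ℝ in Filter.atTop, Real.log x ^ (2 : ℝ) ≤ 1 / (C1 * (2 * C1 + 10)) * x := by
    have h := (isLittleO_log_rpow_rpow_atTop (2 : ℝ) (one_pos)).bound
      (c := 1 / (C1 * (2 * C1 + 10))) (by positivity)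
    filter_upwards [h, Filter.eventually_ge_atTop 1] with x hx hx1
    rw [Real.rpow_one, Real.norm_of_nonneg (Real.rpow_nonneg (Real.log_nonneg hx1) _),
      Real.norm_of_nonneg (by linarith)] at hx
    exact hx
  have hK : Filter.Tendsto (fun N : ℕ => Real.log (N : ℝ)) Filter.atTop Filter.atTop :=
    Real.tendsto_log_atTop.comp tendsto_natCast_atTop_atTop
  have hev2 := hK.eventually hev1
  have hev3 := hK.eventually_ge_atTop (max T 1)
  have hev4 := (Real.tendsto_log_atTop.comp hK).eventually_ge_atTop 1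
  obtain ⟨N0, hN0⟩ := Filter.eventually_atTop.1 (hev2.and (hev3.and (hev4.and
    (Filter.eventually_ge_atTop 1))))
  refine ⟨N0, fun N hN => ?_⟩
  obtain ⟨a1, a2, a3, a4⟩ := hN0 N hN
  simp only [Function.comp_apply] at a3
  set K := Real.log (N : ℝ) with hKdef
  set M := Real.log K with hMdef
  have hK1 : 1 ≤ K := (le_max_right _ _).trans a2
  have hKT : T ≤ K := (le_max_left _ _).trans a2
  have hK0 : 0 < K := by linarith
  have hM0 : 0 < M := by linarith
  have hC0 : 0 < C1 := by linarith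
  have hNr : (0 : ℝ) < N := by exact_mod_cast a4
  have a1' : C1 * (2 * C1 + 10) * M ^ 2 ≤ K := by
    have e : M ^ (2 : ℝ) = M ^ 2 := by
      rw [← Real.rpow_natCast]
      norm_num
    rw [e] at a1
    have hpos : 0 < C1 * (2 * C1 + 10) := by positivity
    have h2 := mul_le_mul_of_nonneg_left a1 hpos.le
    have h3 : C1 * (2 * C1 + 10) * (1 / (C1 * (2 * C1 + 10)) * K) = K := by
      field_simp
    linarith
  -- q = K / (C1 M)
  set q := K / (C1 * M) with hq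
  have hq1 : (2 * C1 + 10) * M ≤ q := by
    rw [hq, le_div_iff₀ (by positivity)]
    calc (2 * C1 + 10) * M * (C1 * M) = C1 * (2 * C1 + 10) * M ^ 2 := by ring
      _ ≤ K := a1'
  have hE : (N : ℝ) ^ (1 / (C1 * M)) = Real.exp q := by
    rw [Real.rpow_def_of_pos hNr, hq]
    congr 1
    rw [← hKdef]
    ring
  have hz : zC C1 N = ⌊Real.exp q⌋₊ := by
    unfold zC
    rw [← hKdef, ← hMdef, hE]
  have hq12 : 12 ≤ q := by nlinarith
  have hE8 : (8 : ℝ) ≤ Real.exp q := by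
    have := Real.add_one_le_exp q
    linarith
  have hz1 : (zC C1 N : ℝ) ≤ Real.exp q := by
    rw [hz]
    exact Nat.floor_le (Real.exp_pos q).le
  have hz2 : Real.exp q / 2 ≤ (zC C1 N : ℝ) := by
    have h2 := Nat.lt_floor_add_one (Real.exp q)
    rw [← hz] at h2
    linarith
  have hz3 : (3 : ℝ) ≤ (zC C1 N : ℝ) := by linarith
  have hz0 : (0 : ℝ) < (zC C1 N : ℝ) := by linarith
  refine ⟨hK1, hKT, a3, by exact_mod_cast hz3, ?_, ?_, ?_⟩
  · have := Real.log_le_log hz0 hz1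
    rwa [Real.log_exp] at this
  · have h2 := Real.log_le_log (by positivity) hz2
    rw [Real.log_div (Real.exp_pos q).ne' (by norm_num), Real.log_exp] at h2
    have h3 := Real.log_two_lt_d9
    have h4 : q / 2 ≤ Real.log (zC C1 N) := by linarith
    have h5 : K = C1 * M * q := by
      rw [hq]
      field_simp
    calc K = 2 * C1 * M * (q / 2) := by rw [h5]; ring
      _ ≤ 2 * C1 * M * Real.log (zC C1 N) := mul_le_mul_of_nonneg_left h4 (by positivity)
  · refine le_trans ?_ hz2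
    have h2 : K ^ (2 * C1 + 1) = Real.exp (M * (2 * C1 + 1)) := by
      rw [Real.rpow_def_of_pos hK0]
    have h3 : (20 : ℝ) ≤ Real.exp 9 := by
      have h4 : (1 : ℝ) + 4.5 ≤ Real.exp 4.5 := by
        have := Real.add_one_le_exp (4.5 : ℝ)
        linarith
      have h5 : Real.exp 9 = Real.exp 4.5 * Real.exp 4.5 := by
        rw [← Real.exp_add]
        norm_num
      rw [h5]
      nlinarith
    have h6 : Real.exp 9 * Real.exp (M * (2 * C1 + 1)) ≤ Real.exp q := by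
      rw [← Real.exp_add, Real.exp_le_exp]
      nlinarith
    rw [h2]
    have h7 := Real.exp_pos (M * (2 * C1 + 1))
    nlinarith

private theorem LamG2_core (A : ℕ) (D : ℝ) (hD : 0 ≤ D) : ∃ C0 : ℝ, 5000 ≤ C0 ∧ ∀ C1 : ℝ, C0 ≤ C1 →
    ∃ N0 : ℕ, ∀ N : ℕ, N0 ≤ N →
    ∀ wa : ℕ, wa ≤ zC C1 N → ∀ r : ℕ, 1 ≤ r → (r : ℝ) ≤ (N : ℝ) ^ 3 →
    ∀ g : ℕ → ℝ, (∀ p : ℕ, p.Prime → 1 ≤ g p ∧ g p ≤ 1 + 4 / p) → (∀ p : ℕ, zC C1 N < p → g p = 1) →
    ∀ X : ℕ, (N : ℝ) ^ ((1 : ℝ) / 6) ≤ X → X ≤ N → ∀ v : ℕ → ℝ, (∀ k ∈ Icc 1 X, 0 ≤ v k ∧ v k ≤ D) →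
      (∀ k ∈ Icc 1 X, k * k ≤ X → v k ≤ D / (Real.log N) ^ (A + 7)) →
      ∑ k ∈ Icc 1 X, |hG r wa g k| / k * v k ≤ 1 / (Real.log N) ^ A := by
  classical
  obtain ⟨C, hC, hmert⟩ := LamG2_mert
  refine ⟨max 5000 (12 * (A + 7)), le_max_left _ _, fun C1 hC1 => ?_⟩
  have hC1a : 5000 ≤ C1 := (le_max_left _ _).trans hC1
  have hC1b : 12 * ((A : ℝ) + 7) ≤ C1 := (le_max_right _ _).trans hC1
  obtain ⟨N1, hN1⟩ := LamG2_num C1 (by linarith) (4 * C ^ 6 * D)
  refine ⟨max N1 3, fun N hN wa hwa r hr hrN g hg hg1 X hX hXN v hv hv2 => ?_⟩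
  obtain ⟨b1, b2, b3, b4, b5, b6, b7⟩ := hN1 N ((le_max_left _ _).trans hN)
  have hN3 : 3 ≤ N := (le_max_right _ _).trans hN
  set K := Real.log (N : ℝ) with hKdef
  set z := zC C1 N with hzdef
  have hK0 : 0 < K := by linarith
  have hNr1 : (1 : ℝ) < N := by exact_mod_cast (by omega : 1 < N)
  have hNr : (0 : ℝ) < N := by linarith
  have hz3 : (3 : ℝ) ≤ z := by exact_mod_cast b4
  have hz0 : (0 : ℝ) < z := by linarith
  have hlz : 0 < Real.log z := Real.log_pos (by linarith)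
  have hlK : 0 < Real.log K := by linarith
  obtain ⟨β, hβ⟩ : ∃ β : ℝ, β = 1 / Real.log z := ⟨_, rfl⟩
  have hβ0 : 0 < β := by rw [hβ]; positivity
  -- powers
  have hzβ : (z : ℝ) ^ β ≤ 3 := by
    rw [Real.rpow_def_of_pos hz0, hβ, mul_one_div_cancel hlz.ne']
    have := Real.exp_one_lt_d9
    linarith
  have hNβ : (N : ℝ) ^ β ≤ K ^ (2 * C1) := by
    rw [Real.rpow_def_of_pos hNr, Real.rpow_def_of_pos hK0, Real.exp_le_exp, ← hKdef, hβ,
      mul_one_div, div_le_iff₀ hlz]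
    linarith
  have hXr : (0 : ℝ) < X := lt_of_lt_of_le (by positivity) hX
  have hX1 : 1 ≤ X := by exact_mod_cast hXr
  have hX2 : 2 ≤ X := by
    by_contra hcon
    have h2 : X = 1 := by omega
    rw [h2] at hX
    have h3 : (1 : ℝ) < (N : ℝ) ^ ((1 : ℝ) / 6) := Real.one_lt_rpow hNr1 (by norm_num)
    push_cast at hX
    linarith
  have hXβ : (X : ℝ) ^ (-(β / 2)) ≤ 1 / K ^ (A + 7) := by
    have h2 : (X : ℝ) ^ (-(β / 2)) ≤ ((N : ℝ) ^ ((1 : ℝ) / 6)) ^ (-(β / 2)) :=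
      Real.rpow_le_rpow_of_nonpos (by positivity) hX (by linarith)
    refine h2.trans ?_
    have e : 1 / K ^ (A + 7) = Real.exp (Real.log K * (-((A + 7 : ℕ) : ℝ))) := by
      rw [← Real.rpow_def_of_pos hK0, Real.rpow_neg hK0.le, Real.rpow_natCast, one_div]
    rw [e, ← Real.rpow_mul hNr.le, Real.rpow_def_of_pos hNr, ← hKdef, Real.exp_le_exp]
    have h3 : C1 * Real.log K ≤ K * β := by
      rw [hβ, mul_one_div, le_div_iff₀ hlz]
      rw [le_div_iff₀ (by positivity)] at b5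
      linarith
    push_cast
    nlinarith
  -- the Euler product
  obtain ⟨τ, hτ⟩ : ∃ τ : ℝ, τ = K ^ (2 * C1) / z := ⟨_, rfl⟩
  have hτ0 : 0 ≤ τ := by rw [hτ]; positivity
  have hfac : ∀ p ∈ (Icc 1 X).filter Nat.Prime, 1 + LamG2_u r wa g p * (p : ℝ) ^ (β - 1) ≤
      (1 + 6 / (p : ℝ)) * (if p ∈ r.primeFactors then 1 + τ else 1) := by
    intro p hp
    rw [mem_filter, mem_Icc] at hp
    have hp0 : (0 : ℝ) < p := by exact_mod_cast hp.2.pos
    have hpow : (p : ℝ) ^ (β - 1) = (p : ℝ) ^ β / p := by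
      rw [Real.rpow_sub hp0, Real.rpow_one]
    have hif1 : (1 : ℝ) ≤ (if p ∈ r.primeFactors then 1 + τ else 1) := by
      split_ifs <;> linarith
    have h60 : (0 : ℝ) ≤ 6 / (p : ℝ) := by positivity
    have hp2 : (2 : ℝ) ≤ p := by exact_mod_cast hp.2.two_le
    by_cases hpz : p ≤ z
    · have hu : LamG2_u r wa g p ≤ 2 := by
        unfold LamG2_u
        split_ifs
        · norm_num
        · obtain ⟨g1, g2⟩ := hg p hp.2
          have h4 : (4 : ℝ) / p ≤ 2 := by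
            rw [div_le_iff₀ hp0]
            linarith
          rw [abs_le]
          constructor <;> linarith
      have hpb : (p : ℝ) ^ β ≤ 3 :=
        (Real.rpow_le_rpow hp0.le (by exact_mod_cast hpz) hβ0.le).trans hzβ
      have h5 : LamG2_u r wa g p * (p : ℝ) ^ (β - 1) ≤ 6 / p := by
        rw [hpow]
        calc LamG2_u r wa g p * ((p : ℝ) ^ β / p) ≤ 2 * (3 / p) := by
              refine mul_le_mul hu ?_ (by positivity) (by norm_num)
              exact div_le_div_of_nonneg_right hpb hp0.le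
          _ = 6 / p := by ring
      calc 1 + LamG2_u r wa g p * (p : ℝ) ^ (β - 1) ≤ (1 + 6 / (p : ℝ)) * 1 := by linarith
        _ ≤ _ := mul_le_mul_of_nonneg_left hif1 (by linarith)
    · push Not at hpz
      have hpwa : ¬ p ≤ wa := by omega
      by_cases hpr : p ∣ r
      · have hmem : p ∈ r.primeFactors := Nat.mem_primeFactors.2 ⟨hp.2, hpr, by omega⟩
        rw [if_pos hmem]
        have hu : LamG2_u r wa g p = 1 := by
          unfold LamG2_u
          rw [if_pos (Or.inl hpr), abs_one]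
        have hpb : (p : ℝ) ^ β ≤ K ^ (2 * C1) := by
          refine (Real.rpow_le_rpow hp0.le ?_ hβ0.le).trans hNβ
          exact_mod_cast hp.1.2.trans hXN
        have h5 : (p : ℝ) ^ β / p ≤ τ := by
          rw [hτ]
          exact div_le_div₀ (by positivity) hpb hz0 (by exact_mod_cast hpz.le)
        rw [hu, one_mul, hpow]
        calc 1 + (p : ℝ) ^ β / p ≤ 1 * (1 + τ) := by linarith
          _ ≤ _ := mul_le_mul_of_nonneg_right (by linarith) (by linarith)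
      · have hu : LamG2_u r wa g p = 0 := by
          unfold LamG2_u
          rw [if_neg (by rintro (h | h); exacts [hpr h, hpwa h]), hg1 p hpz, sub_self, abs_zero]
        rw [hu, zero_mul, add_zero]
        calc (1 : ℝ) = 1 * 1 := by ring
          _ ≤ _ := mul_le_mul (by linarith) hif1 zero_le_one (by linarith)
  have hprod : ∏ p ∈ (Icc 1 X).filter Nat.Prime, (1 + LamG2_u r wa g p * (p : ℝ) ^ (β - 1)) ≤
      (C * K) ^ 6 * 2 := by
    refine (prod_le_prod (fun p _ => ?_) hfac).trans ?_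
    · have : 0 ≤ LamG2_u r wa g p := abs_nonneg _
      positivity
    rw [prod_mul_distrib]
    refine mul_le_mul ?_ ?_ (prod_nonneg fun p _ => by split_ifs <;> linarith) (by positivity)
    · refine (hmert X hX2).trans (pow_le_pow_left₀ ?_ ?_ 6)
      · exact mul_nonneg (by linarith) (Real.log_natCast_nonneg X)
      · refine mul_le_mul_of_nonneg_left ?_ (by linarith)
        exact Real.log_le_log hXr (by exact_mod_cast hXN)
    · rw [← prod_filter, prod_const]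
      have hcard : ((((Icc 1 X).filter Nat.Prime).filter (fun p => p ∈ r.primeFactors)).card : ℝ) ≤
          5 * K := by
        refine le_trans ?_ (LamG2_omega hr hrN)
        exact_mod_cast card_le_card fun p hp => (mem_filter.1 hp).2
      set m := (((Icc 1 X).filter Nat.Prime).filter (fun p => p ∈ r.primeFactors)).card
      have h5 : (1 + τ) ^ m ≤ Real.exp (τ * m) := by
        calc (1 + τ) ^ m ≤ (Real.exp τ) ^ m :=
              pow_le_pow_left₀ (by linarith) (by linarith [Real.add_one_le_exp τ]) m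
          _ = Real.exp (τ * m) := by
              rw [← Real.exp_nat_mul, mul_comm]
      refine h5.trans ?_
      have h6 : τ * m ≤ 1 / 2 := by
        have h7 : τ * m ≤ τ * (5 * K) := mul_le_mul_of_nonneg_left hcard hτ0
        refine h7.trans ?_
        rw [hτ, div_mul_eq_mul_div, div_le_iff₀ hz0]
        have h8 : K ^ (2 * C1 + 1) = K ^ (2 * C1) * K := by
          rw [Real.rpow_add hK0, Real.rpow_one]
        rw [h8] at b7
        linarith
      have h9 := Real.exp_bound_div_one_sub_of_interval (x := 1 / 2) (by norm_num) (by norm_num)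
      calc Real.exp (τ * m) ≤ Real.exp (1 / 2) := Real.exp_le_exp.2 h6
        _ ≤ 1 / (1 - 1 / 2) := h9
        _ = 2 := by norm_num
  have hrank := (LamG2_rank r wa g X β).trans hprod
  -- comparison of the terms
  have hDK : 0 ≤ D / K ^ (A + 7) := by positivity
  have hterm : ∀ k ∈ Icc 1 X, |hG r wa g k| / k * v k ≤
      (|hG r wa g k| * (k : ℝ) ^ (β - 1)) * (2 * (D / K ^ (A + 7))) := by
    intro k hk
    have hk' := mem_Icc.1 hk
    have hk0 : (0 : ℝ) < k := by exact_mod_cast hk'.1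
    have hk1 : (1 : ℝ) ≤ k := by exact_mod_cast hk'.1
    obtain ⟨v0, v1⟩ := hv k hk
    have hkp : (k : ℝ) ^ (β - 1) = (k : ℝ) ^ β * (1 / k) := by
      rw [Real.rpow_sub hk0, Real.rpow_one]
      ring
    have hmain : 1 / (k : ℝ) * v k ≤ (k : ℝ) ^ (β - 1) * (2 * (D / K ^ (A + 7))) := by
      by_cases hkk : k * k ≤ X
      · have h3 := hv2 k hk hkk
        have h4 : 1 / (k : ℝ) ≤ (k : ℝ) ^ (β - 1) := by
          rw [hkp]
          have : (1 : ℝ) ≤ (k : ℝ) ^ β := Real.one_le_rpow hk1 hβ0.le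
          exact le_mul_of_one_le_left (by positivity) this
        exact mul_le_mul h4 (by linarith) v0 (by positivity)
      · push Not at hkk
        have h3 : (X : ℝ) ^ (β / 2) ≤ (k : ℝ) ^ β := by
          have h4 : (X : ℝ) ≤ (k : ℝ) ^ (2 : ℝ) := by
            have e : (k : ℝ) ^ (2 : ℝ) = k * k := by
              rw [show (2 : ℝ) = ((2 : ℕ) : ℝ) by norm_num, Real.rpow_natCast, sq]
            rw [e]
            exact_mod_cast hkk.le
          calc (X : ℝ) ^ (β / 2) ≤ ((k : ℝ) ^ (2 : ℝ)) ^ (β / 2) :=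
                Real.rpow_le_rpow hXr.le h4 (by linarith)
            _ = (k : ℝ) ^ β := by
                rw [← Real.rpow_mul hk0.le]
                congr 1
                ring
        have h5 : 1 ≤ (k : ℝ) ^ β * (1 / K ^ (A + 7)) := by
          calc (1 : ℝ) = (X : ℝ) ^ (β / 2) * (X : ℝ) ^ (-(β / 2)) := by
                rw [← Real.rpow_add hXr, add_neg_cancel, Real.rpow_zero]
            _ ≤ (k : ℝ) ^ β * (1 / K ^ (A + 7)) :=
                mul_le_mul h3 hXβ (by positivity) (by positivity)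
        rw [hkp]
        have h6 : 0 ≤ 1 / (k : ℝ) * D := by positivity
        calc 1 / (k : ℝ) * v k ≤ 1 / (k : ℝ) * D := mul_le_mul_of_nonneg_left v1 (by positivity)
          _ ≤ (1 / (k : ℝ) * D) * ((k : ℝ) ^ β * (1 / K ^ (A + 7))) := le_mul_of_one_le_right h6 h5
          _ = (k : ℝ) ^ β * (1 / k) * (D / K ^ (A + 7)) := by ring
          _ ≤ (k : ℝ) ^ β * (1 / k) * (2 * (D / K ^ (A + 7))) :=
              mul_le_mul_of_nonneg_left (by linarith) (by positivity)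
    calc |hG r wa g k| / k * v k = |hG r wa g k| * (1 / (k : ℝ) * v k) := by ring
      _ ≤ |hG r wa g k| * ((k : ℝ) ^ (β - 1) * (2 * (D / K ^ (A + 7)))) :=
          mul_le_mul_of_nonneg_left hmain (abs_nonneg _)
      _ = _ := by ring
  refine (sum_le_sum hterm).trans ?_
  rw [← sum_mul]
  refine (mul_le_mul_of_nonneg_right hrank (by positivity)).trans ?_
  have h10 : (C * K) ^ 6 * 2 * (2 * (D / K ^ (A + 7))) = 4 * C ^ 6 * D / (K * K ^ A) := by
    have e : K ^ (A + 7) = K ^ 6 * (K * K ^ A) := by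
      rw [pow_add]
      ring
    rw [e, mul_pow]
    field_simp
    ring
  rw [h10, div_le_div_iff₀ (by positivity) (by positivity)]
  have h11 : 0 < K ^ A := by positivity
  nlinarith

private theorem LamG2_lam (n : ℕ) : |lam n| = 1 := by
  unfold lam
  rw [abs_pow, abs_neg, abs_one, one_pow]

/-- lower bound for the logarithm of `X / k` -/
private theorem LamG2_log {N X k : ℕ} (hk : 1 ≤ k) (hX : (N : ℝ) ^ ((1 : ℝ) / 6) ≤ X) (hkk : k * k ≤ X)
    (hN : 1 ≤ N) (hK : 200 ≤ Real.log N) : 2 ≤ X / k ∧ Real.log N / 13 ≤ Real.log ((X / k : ℕ) : ℝ) := by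
  obtain ⟨y, hy⟩ : ∃ y : ℕ, y = X / k := ⟨_, rfl⟩
  rw [← hy]
  have hNr : (0 : ℝ) < N := by exact_mod_cast hN
  have hky : k ≤ y := by
    rw [hy, Nat.le_div_iff_mul_le (by omega)]
    exact hkk
  have hXy : X < k * (y + 1) := by
    rw [hy]
    exact Nat.lt_mul_div_succ X (by omega)
  have hXy2 : X ≤ (y + 1) * (y + 1) := by
    refine hXy.le.trans ?_
    exact Nat.mul_le_mul (by omega) (le_refl _)
  have h1 : (X : ℝ) ≤ ((y : ℝ) + 1) * ((y : ℝ) + 1) := by exact_mod_cast hXy2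
  have h2 : Real.log N / 6 ≤ Real.log X := by
    have := Real.log_le_log (by positivity) hX
    rw [Real.log_rpow hNr] at this
    linarith
  have hX0 : (0 : ℝ) < X := lt_of_lt_of_le (by positivity) hX
  have hy0 : (0 : ℝ) < (y : ℝ) + 1 := by positivity
  have h3 : Real.log X ≤ Real.log ((y : ℝ) + 1) + Real.log ((y : ℝ) + 1) := by
    rw [← Real.log_mul hy0.ne' hy0.ne']
    exact Real.log_le_log hX0 h1
  have h4 : Real.log N / 12 ≤ Real.log ((y : ℝ) + 1) := by linarith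
  have h5 : (2 : ℝ) ≤ y := by
    have h6 := Real.log_le_sub_one_of_pos hy0
    linarith
  refine ⟨by exact_mod_cast h5, ?_⟩
  have h7 : ((y : ℝ) + 1) / 2 ≤ y := by linarith
  have h8 := Real.log_le_log (by positivity) h7
  rw [Real.log_div hy0.ne' (by norm_num)] at h8
  have h9 := Real.log_two_lt_d9
  linarith

theorem lamG (A : ℕ) : ∃ C0 : ℝ, 5000 ≤ C0 ∧ ∀ C1 : ℝ, C0 ≤ C1 → ∃ N0 : ℕ, ∀ N : ℕ, N0 ≤ N →
    ∀ wa : ℕ, wa ≤ zC C1 N → ∀ r : ℕ, 1 ≤ r → (r : ℝ) ≤ (N : ℝ) ^ 3 →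
    ∀ g : ℕ → ℝ, (∀ p : ℕ, p.Prime → 1 ≤ g p ∧ g p ≤ 1 + 4 / p) → (∀ p : ℕ, zC C1 N < p → g p = 1) →
    ∀ X : ℕ, (N : ℝ) ^ ((1 : ℝ) / 6) ≤ X → X ≤ N →
    |∑ n ∈ Icc 1 X, FG r wa g n / n| ≤ 1 / (Real.log N) ^ A ∧ |∑ n ∈ Icc 1 X, FG r wa g n| ≤ X / (Real.log N) ^ A := by
  obtain ⟨Ca, hCa, hLa⟩ := Pool.Agent.Lib.MP_7b7e48_nt.LG.LA2 (A + 7)
  obtain ⟨Cb, hCb, hLb⟩ := Pool.Agent.Lib.MP_7b7e48_nt.LG.LA2 0
  obtain ⟨Cc, hCc, hLc⟩ := Pool.Agent.Lib.MP_7b7e48_nt.LG.LA0 (A + 7)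
  obtain ⟨D, hD⟩ : ∃ D : ℝ, D = (Ca + Cc) * 13 ^ (A + 7) + Cb + 1 := ⟨_, rfl⟩
  have hD0 : 0 ≤ D := by rw [hD]; positivity
  have hDa : Ca * 13 ^ (A + 7) ≤ D := by
    have : 0 ≤ Cc * 13 ^ (A + 7) := by positivity
    rw [hD]
    linarith
  have hDc : Cc * 13 ^ (A + 7) ≤ D := by
    have : 0 ≤ Ca * 13 ^ (A + 7) := by positivity
    rw [hD]
    linarith
  have hDb : Cb ≤ D ∧ 1 ≤ D := by
    have : 0 ≤ (Ca + Cc) * 13 ^ (A + 7) := by positivity
    rw [hD]
    constructor <;> linarith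
  obtain ⟨C0, hC0, hcore⟩ := LamG2_core A D hD0
  refine ⟨C0, hC0, fun C1 hC1 => ?_⟩
  obtain ⟨N1, hN1⟩ := hcore C1 hC1
  obtain ⟨N2, hN2⟩ := Filter.eventually_atTop.1
    ((Real.tendsto_log_atTop.comp tendsto_natCast_atTop_atTop).eventually_ge_atTop (200 : ℝ))
  refine ⟨max (max N1 N2) 3, fun N hN wa hwa r hr hrN g hg hg1 X hX hXN => ?_⟩
  have hc := hN1 N (by omega) wa hwa r hr hrN g hg hg1 X hX hXN
  have hK : 200 ≤ Real.log N := hN2 N (by omega)
  have hK0 : 0 < Real.log N := by linarith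
  have hNr : (0 : ℝ) < N := by
    have : 0 < N := by omega
    exact_mod_cast this
  have hX0 : (0 : ℝ) < X := lt_of_lt_of_le (by positivity) hX
  obtain ⟨hs1, hs2⟩ := FG_sum r wa hr g X
  have hlg : ∀ (c : ℝ) (y : ℕ), 0 < c → Real.log N / 13 ≤ Real.log (y : ℝ) →
      c / (Real.log y) ^ (A + 7) ≤ c * 13 ^ (A + 7) / (Real.log N) ^ (A + 7) := by
    intro c y hc0 hy
    have h1 : (Real.log N / 13) ^ (A + 7) ≤ (Real.log y) ^ (A + 7) :=
      pow_le_pow_left₀ (by positivity) hy _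
    have h2 : 0 < (Real.log N / 13) ^ (A + 7) := by positivity
    calc c / (Real.log y) ^ (A + 7) ≤ c / (Real.log N / 13) ^ (A + 7) :=
          div_le_div_of_nonneg_left hc0.le h2 h1
      _ = c * 13 ^ (A + 7) / (Real.log N) ^ (A + 7) := by
          rw [div_pow]
          field_simp
  constructor
  · rw [hs1]
    have key := hc (fun k => |∑ n ∈ Icc 1 (X / k), lam n / n|) (fun k hk => ⟨abs_nonneg _, ?_⟩)
      (fun k hk hkk => ?_)
    · refine le_trans (abs_sum_le_sum_abs _ _) (le_trans (le_of_eq ?_) key)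
      refine sum_congr rfl fun k hk => ?_
      rw [abs_mul, abs_div, Nat.abs_cast]
    · rw [mem_Icc] at hk
      have hy1 : 1 ≤ X / k := (Nat.one_le_div_iff (by omega)).2 hk.2
      rcases Nat.lt_or_ge 1 (X / k) with h | h
      · have := hLb (X / k) h
        rw [pow_zero, div_one] at this
        exact this.trans hDb.1
      · have h1 : X / k = 1 := by omega
        rw [h1, Icc_self, sum_singleton, Nat.cast_one, div_one, LamG2_lam]
        exact hDb.2
    · rw [mem_Icc] at hk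
      obtain ⟨hy2, hyl⟩ := LamG2_log hk.1 hX hkk (by omega) hK
      refine (hLa (X / k) hy2).trans ((hlg Ca (X / k) hCa hyl).trans ?_)
      exact div_le_div_of_nonneg_right hDa (by positivity)
  · rw [hs2]
    have key := hc (fun k => |∑ n ∈ Icc 1 (X / k), lam n| * k / X) (fun k hk => ?_)
      (fun k hk hkk => ?_)
    · have h2 : |∑ k ∈ Icc 1 X, hG r wa g k * ∑ n ∈ Icc 1 (X / k), lam n| ≤
          X * ∑ k ∈ Icc 1 X, |hG r wa g k| / k * (|∑ n ∈ Icc 1 (X / k), lam n| * k / X) := by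
        refine (abs_sum_le_sum_abs _ _).trans (le_of_eq ?_)
        rw [mul_sum]
        refine sum_congr rfl fun k hk => ?_
        rw [mem_Icc] at hk
        have hk0 : (k : ℝ) ≠ 0 := by
          have : 0 < k := hk.1
          exact_mod_cast this.ne'
        rw [abs_mul]
        field_simp
      refine h2.trans ?_
      calc X * _ ≤ X * (1 / (Real.log N) ^ A) := mul_le_mul_of_nonneg_left key hX0.le
        _ = X / (Real.log N) ^ A := by ring
    · rw [mem_Icc] at hk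
      have hk0 : (0 : ℝ) < k := by exact_mod_cast hk.1
      refine ⟨by positivity, ?_⟩
      have h1 : |∑ n ∈ Icc 1 (X / k), lam n| ≤ ((X / k : ℕ) : ℝ) := by
        refine (abs_sum_le_sum_abs _ _).trans (le_of_eq ?_)
        rw [sum_congr rfl fun n _ => LamG2_lam n, sum_const, Nat.card_Icc, nsmul_eq_mul, mul_one,
          Nat.add_sub_cancel]
      have h2 : ((X / k : ℕ) : ℝ) ≤ (X : ℝ) / k := Nat.cast_div_le
      have h3 : |∑ n ∈ Icc 1 (X / k), lam n| * k / X ≤ 1 := by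
        rw [div_le_one hX0]
        calc |∑ n ∈ Icc 1 (X / k), lam n| * k ≤ (X : ℝ) / k * k :=
              mul_le_mul_of_nonneg_right (h1.trans h2) hk0.le
          _ = X := div_mul_cancel₀ _ hk0.ne'
      exact h3.trans hDb.2
    · rw [mem_Icc] at hk
      have hk0 : (0 : ℝ) < k := by exact_mod_cast hk.1
      obtain ⟨hy2, hyl⟩ := LamG2_log hk.1 hX hkk (by omega) hK
      have h1 := hLc (X / k) hy2
      have h2 : ((X / k : ℕ) : ℝ) ≤ (X : ℝ) / k := Nat.cast_div_le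
      have h3 := hlg Cc (X / k) hCc hyl
      have hlpos : 0 < Real.log ((X / k : ℕ) : ℝ) := by linarith
      have h4 : |∑ n ∈ Icc 1 (X / k), lam n| ≤
          (X : ℝ) / k * (Cc * 13 ^ (A + 7) / (Real.log N) ^ (A + 7)) := by
        calc |∑ n ∈ Icc 1 (X / k), lam n| ≤ Cc * ((X / k : ℕ) : ℝ) / (Real.log ((X / k : ℕ) : ℝ)) ^ (A + 7) := h1
          _ = ((X / k : ℕ) : ℝ) * (Cc / (Real.log ((X / k : ℕ) : ℝ)) ^ (A + 7)) := by ring
          _ ≤ _ := mul_le_mul h2 h3 (by positivity) (by positivity)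
      calc |∑ n ∈ Icc 1 (X / k), lam n| * k / X ≤
            ((X : ℝ) / k * (Cc * 13 ^ (A + 7) / (Real.log N) ^ (A + 7))) * k / X := by
            refine div_le_div_of_nonneg_right (mul_le_mul_of_nonneg_right h4 hk0.le) hX0.le
        _ = Cc * 13 ^ (A + 7) / (Real.log N) ^ (A + 7) := by
            field_simp
        _ ≤ D / (Real.log N) ^ (A + 7) := div_le_div_of_nonneg_right hDc (by positivity)

end Pool.Agent.Lib.TE
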