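import Pool.Agent.Lib.MP_7b7e48_nt.TE.Defs

/-!
# Module H2R (45 minutes): `∑ h2 c b / b` over the rough `b`, without an assumption on the size of the sum over the primes

PROOF. Every `b ≥ 2` in the sum with `h2 c b ≠ 0` has a prime factor `q`, `w < q ≤ y`, `c q = 1`; `b = q b'`, `h2 c b ≤ 2 h2 c b'` (the number of prime factors grows by at most one). So the sum is `≤ ∑_q (2/q) ∑_{b' ≤ y} h2 c b'/b' ≤ 2 σ ∑_{b' ≤ y} τ(b')/b'`
(`h2 c b ≤ 2^ω(b) ≤ τ(b)`) `≤ 2 σ (1 + log y)^2` (`∑_{b ≤ y} τ(b)/b ≤ (∑_{a ≤ y} 1/a)²`), and `2 (1 + log N)^2 ≤ (log N)^3` for `N` large.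
-/

set_option autoImplicit false

open Finset
open Pool.Agent.Lib.GT (Rough)
open Pool.Agent.Lib.RG (RC)
open Pool.Agent.Lib.OW (QP h2)

namespace Pool.Agent.Lib.TE

private theorem H2R_harm (n : ℕ) : ∑ a ∈ Icc 1 n, (1 : ℝ) / a ≤ 1 + Real.log n := by
  have h := harmonic_le_one_add_log n
  rw [harmonic_eq_sum_Icc] at h
  push_cast at h
  refine le_trans (le_of_eq ?_) h
  exact sum_congr rfl fun a _ => one_div _

private theorem H2R_swap (F : ℕ → ℕ → ℝ) (X : ℕ) :
    ∑ n ∈ Icc 1 X, ∑ k ∈ n.divisors, F k (n / k) = ∑ k ∈ Icc 1 X, ∑ m ∈ Icc 1 (X / k), F k m := by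
  classical
  have e1 : ∀ n ∈ Icc 1 X, ∑ k ∈ n.divisors, F k (n / k) =
      ∑ k ∈ Icc 1 X, if k ∣ n then F k (n / k) else 0 := by
    intro n hn
    rw [mem_Icc] at hn
    rw [← sum_filter]
    refine sum_congr ?_ fun _ _ => rfl
    ext k
    rw [Nat.mem_divisors, mem_filter, mem_Icc]
    constructor
    · rintro ⟨h1, h2⟩
      have := Nat.le_of_dvd (by omega) h1
      have h3 := Nat.pos_of_dvd_of_pos h1 (by omega)
      exact ⟨⟨h3, by omega⟩, h1⟩
    · rintro ⟨_, h2⟩
      exact ⟨h2, by omega⟩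
  rw [sum_congr rfl e1, sum_comm]
  refine sum_congr rfl fun k hk => ?_
  rw [mem_Icc] at hk
  have hk0 : 0 < k := by omega
  rw [← sum_filter]
  refine sum_nbij' (fun n => n / k) (fun m => k * m) ?_ ?_ ?_ ?_ ?_
  · intro n hn
    rw [mem_filter, mem_Icc] at hn
    obtain ⟨⟨h1, h2⟩, m, rfl⟩ := hn
    rw [mem_Icc, Nat.mul_div_cancel_left m hk0, Nat.le_div_iff_mul_le hk0]
    refine ⟨?_, by rw [mul_comm]; exact h2⟩
    rcases Nat.eq_zero_or_pos m with h | h
    · rw [h, mul_zero] at h1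
      omega
    · exact h
  · intro m hm
    rw [mem_Icc, Nat.le_div_iff_mul_le hk0] at hm
    rw [mem_filter, mem_Icc]
    exact ⟨⟨Nat.mul_pos hk0 hm.1, by rw [mul_comm]; exact hm.2⟩, dvd_mul_right k m⟩
  · intro n hn
    rw [mem_filter] at hn
    exact Nat.mul_div_cancel' hn.2
  · intro m _
    exact Nat.mul_div_cancel_left m hk0
  · intro n _
    rfl

private theorem H2R_nonneg (c : ℕ → ℝ) (b : ℕ) : 0 ≤ h2 c b := by
  unfold h2
  split_ifs
  · positivity
  · exact le_refl 0

private theorem H2R_tau (c : ℕ → ℝ) (b : ℕ) (hb : b ≠ 0) : h2 c b ≤ (b.divisors.card : ℝ) := by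
  have h1 : 2 ^ b.primeFactors.card ≤ b.divisors.card := by
    rw [← card_powerset]
    refine card_le_card_of_injOn (fun S => ∏ p ∈ S, p) ?_ ?_
    · intro S hS
      rw [mem_coe, mem_powerset] at hS
      rw [mem_coe, Nat.mem_divisors]
      exact ⟨(prod_dvd_prod_of_subset _ _ _ hS).trans (Nat.prod_primeFactors_dvd b), hb⟩
    · intro S hS T hT hST
      rw [mem_coe, mem_powerset] at hS hT
      have h1 := Nat.primeFactors_prod (s := S) fun p hp => Nat.prime_of_mem_primeFactors (hS hp)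
      have h2 := Nat.primeFactors_prod (s := T) fun p hp => Nat.prime_of_mem_primeFactors (hT hp)
      have h3 : ∏ p ∈ S, p = ∏ p ∈ T, p := hST
      rw [← h1, ← h2, h3]
  unfold h2
  split_ifs
  · exact_mod_cast h1
  · positivity

/-- the sum over all numbers -/
private theorem H2R_all (c : ℕ → ℝ) (y : ℕ) :
    ∑ b ∈ Icc 1 y, h2 c b / b ≤ (1 + Real.log y) ^ 2 := by
  have h1 : ∑ b ∈ Icc 1 y, h2 c b / b ≤ ∑ b ∈ Icc 1 y, ∑ k ∈ b.divisors, 1 / ((k : ℝ) * ((b / k : ℕ) : ℝ)) := by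
    refine sum_le_sum fun b hb => ?_
    rw [mem_Icc] at hb
    have hb0 : b ≠ 0 := by omega
    have e : ∀ k ∈ b.divisors, 1 / ((k : ℝ) * ((b / k : ℕ) : ℝ)) = 1 / (b : ℝ) := by
      intro k hk
      rw [← Nat.cast_mul, Nat.mul_div_cancel' (Nat.dvd_of_mem_divisors hk)]
    rw [sum_congr rfl e, sum_const, nsmul_eq_mul, mul_one_div]
    exact div_le_div_of_nonneg_right (H2R_tau c b hb0) (Nat.cast_nonneg b)
  refine h1.trans ?_
  rw [H2R_swap (fun k m => 1 / ((k : ℝ) * (m : ℝ)))]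
  have hH : 0 ≤ ∑ a ∈ Icc 1 y, (1 : ℝ) / a := sum_nonneg fun a _ => by positivity
  have h2 : ∑ k ∈ Icc 1 y, ∑ m ∈ Icc 1 (y / k), 1 / ((k : ℝ) * (m : ℝ)) ≤
      ∑ k ∈ Icc 1 y, 1 / (k : ℝ) * ∑ a ∈ Icc 1 y, (1 : ℝ) / a := by
    refine sum_le_sum fun k _ => ?_
    rw [mul_sum]
    have h3 : ∀ m ∈ Icc 1 (y / k), 1 / ((k : ℝ) * (m : ℝ)) = 1 / (k : ℝ) * (1 / (m : ℝ)) := by
      intro m _
      rw [one_div_mul_one_div]
    rw [sum_congr rfl h3]
    refine sum_le_sum_of_subset_of_nonneg ?_ fun m _ _ => by positivity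
    exact Icc_subset_Icc_right (Nat.div_le_self y k)
  refine h2.trans ?_
  rw [← sum_mul, ← sq]
  exact pow_le_pow_left₀ hH (H2R_harm y) 2

/-- one prime factor is removed -/
private theorem H2R_two (c : ℕ → ℝ) {q b : ℕ} (hq : q.Prime) (hb : b ≠ 0)
    (h : ∀ p : ℕ, p.Prime → p ∣ q * b → c p = 1) : h2 c (q * b) ≤ 2 * h2 c b := by
  unfold h2
  rw [if_pos h, if_pos fun p hp hd => h p hp (Dvd.dvd.mul_left hd q)]
  have h1 : (q * b).primeFactors.card ≤ b.primeFactors.card + 1 := by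
    rw [Nat.primeFactors_mul hq.ne_zero hb, hq.primeFactors]
    refine (card_union_le _ _).trans ?_
    rw [card_singleton, add_comm]
  calc (2 : ℝ) ^ (q * b).primeFactors.card ≤ 2 ^ (b.primeFactors.card + 1) :=
        pow_le_pow_right₀ (by norm_num) h1
    _ = 2 * 2 ^ b.primeFactors.card := by rw [pow_succ]; ring

open Classical in
theorem h2_rough : ∃ N0 : ℕ, ∀ N : ℕ, N0 ≤ N → ∀ (c : ℕ → ℝ) (w y : ℕ) (σ : ℝ), y ≤ N →
    ∑ q ∈ (QP c y).filter (fun q => w < q), 1 / (q : ℝ) ≤ σ →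
    ∑ b ∈ (Icc 2 y).filter (fun b => Rough w b), h2 c b / b ≤ (Real.log N) ^ 3 * σ := by
  obtain ⟨N0, hN0⟩ := Filter.eventually_atTop.1
    ((Real.tendsto_log_atTop.comp tendsto_natCast_atTop_atTop).eventually_ge_atTop (8 : ℝ))
  refine ⟨N0, fun N hN c w y σ hyN hσ => ?_⟩
  have hK : 8 ≤ Real.log N := hN0 N hN
  have hσ0 : 0 ≤ σ := le_trans (sum_nonneg fun q _ => by positivity) hσ
  have hall := H2R_all c y
  have hlog0 : 0 ≤ Real.log y := Real.log_natCast_nonneg y
  have hlog : Real.log y ≤ Real.log N := by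
    rcases Nat.eq_zero_or_pos y with h | h
    · rw [h, Nat.cast_zero, Real.log_zero]
      linarith
    · exact Real.log_le_log (by exact_mod_cast h) (by exact_mod_cast hyN)
  have hpos : 0 ≤ ∑ b ∈ Icc 1 y, h2 c b / b :=
    sum_nonneg fun b _ => div_nonneg (H2R_nonneg c b) (Nat.cast_nonneg b)
  have hmain : ∑ b ∈ (Icc 2 y).filter (fun b => Rough w b), h2 c b / b ≤
      ∑ q ∈ (QP c y).filter (fun q => w < q), 1 / (q : ℝ) * (2 * ∑ b ∈ Icc 1 y, h2 c b / b) := by
    have h1 : ∀ b ∈ (Icc 2 y).filter (fun b => Rough w b), h2 c b / b ≤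
        ∑ q ∈ (QP c y).filter (fun q => w < q), if q ∣ b then 2 * (h2 c (b / q) / ((b / q : ℕ) : ℝ)) / q else 0 := by
      intro b hb
      rw [mem_filter, mem_Icc] at hb
      obtain ⟨⟨hb2, hby⟩, hro⟩ := hb
      have hnn : ∀ q ∈ (QP c y).filter (fun q => w < q),
          (0 : ℝ) ≤ if q ∣ b then 2 * (h2 c (b / q) / ((b / q : ℕ) : ℝ)) / q else 0 := by
        intro q _
        split_ifs
        · have := H2R_nonneg c (b / q)
          positivity
        · exact le_refl 0
      by_cases hc : ∀ p : ℕ, p.Prime → p ∣ b → c p = 1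
      · have hq : (b.minFac).Prime := Nat.minFac_prime (by omega)
        have hqd : b.minFac ∣ b := Nat.minFac_dvd b
        set q := b.minFac with hqdef
        have hqy : q ≤ y := (Nat.le_of_dvd (by omega) hqd).trans hby
        have hmem : q ∈ (QP c y).filter (fun q => w < q) := by
          rw [mem_filter]
          unfold QP
          rw [mem_filter, mem_range]
          exact ⟨⟨by omega, hq, hc q hq hqd⟩, hro q hq hqd⟩
        refine le_trans ?_ (single_le_sum hnn hmem)
        rw [if_pos hqd]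
        obtain ⟨m, hm⟩ := hqd
        have hm0 : m ≠ 0 := by
          rintro rfl
          rw [mul_zero] at hm
          omega
        have e1 : b / q = m := by
          rw [hm]
          exact Nat.mul_div_cancel_left m hq.pos
        rw [e1]
        have h3 : h2 c b ≤ 2 * h2 c m := by
          have := H2R_two c hq hm0 (fun p hp hd => hc p hp (by rw [hm]; exact hd))
          rwa [← hm] at this
        have hq0 : (0 : ℝ) < q := by exact_mod_cast hq.pos
        have hmr : (0 : ℝ) < m := by exact_mod_cast Nat.pos_of_ne_zero hm0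
        have hbr : (b : ℝ) = q * m := by
          rw [hm]
          push_cast
          ring
        rw [hbr]
        calc h2 c b / (q * m) ≤ 2 * h2 c m / (q * m) := div_le_div_of_nonneg_right h3 (by positivity)
          _ = 2 * (h2 c m / m) / q := by
              field_simp
      · have h3 : h2 c b = 0 := by
          unfold h2
          rw [if_neg hc]
        rw [h3, zero_div]
        exact sum_nonneg hnn
    refine (sum_le_sum h1).trans ?_
    rw [sum_comm]
    refine sum_le_sum fun q hq => ?_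
    rw [mem_filter] at hq
    have hq1 : q.Prime := by
      have := hq.1
      unfold QP at this
      rw [mem_filter] at this
      exact this.2.1
    have hq0 : (0 : ℝ) < q := by exact_mod_cast hq1.pos
    rw [← sum_filter]
    have h4 : ∑ b ∈ ((Icc 2 y).filter (fun b => Rough w b)).filter (fun b => q ∣ b),
        2 * (h2 c (b / q) / ((b / q : ℕ) : ℝ)) / q ≤ ∑ m ∈ Icc 1 y, 2 * (h2 c m / m) / q := by
      have hinj : Set.InjOn (fun b => b / q)
          ((((Icc 2 y).filter (fun b => Rough w b)).filter (fun b => q ∣ b) : Finset ℕ) : Set ℕ) := by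
        intro a ha b hb hab
        rw [mem_coe, mem_filter] at ha hb
        have h5 : a / q = b / q := hab
        rw [← Nat.mul_div_cancel' ha.2, ← Nat.mul_div_cancel' hb.2, h5]
      rw [← sum_image (f := fun m : ℕ => 2 * (h2 c m / (m : ℝ)) / q) hinj]
      refine sum_le_sum_of_subset_of_nonneg ?_ fun m _ _ => ?_
      · intro m hm
        rw [mem_image] at hm
        obtain ⟨b, hb, rfl⟩ := hm
        rw [mem_filter, mem_filter, mem_Icc] at hb
        rw [mem_Icc]
        have h6 := Nat.le_of_dvd (by omega) hb.2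
        exact ⟨(Nat.one_le_div_iff hq1.pos).2 h6, (Nat.div_le_self b q).trans hb.1.1.2⟩
      · have := H2R_nonneg c m
        positivity
    refine h4.trans (le_of_eq ?_)
    rw [mul_sum, mul_sum]
    exact sum_congr rfl fun m _ => by ring
  rw [← sum_mul] at hmain
  refine hmain.trans ?_
  have h7 : 2 * ∑ b ∈ Icc 1 y, h2 c b / b ≤ (Real.log N) ^ 3 := by
    have h8 : (1 + Real.log y) ^ 2 ≤ (1 + Real.log N) ^ 2 :=
      pow_le_pow_left₀ (by linarith) (by linarith) 2
    have h9 : 2 * (1 + Real.log N) ^ 2 ≤ (Real.log N) ^ 3 := by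
      have e : (Real.log N) ^ 3 = Real.log N * (Real.log N) ^ 2 := by ring
      rw [e]
      nlinarith
    linarith
  calc (∑ q ∈ (QP c y).filter (fun q => w < q), 1 / (q : ℝ)) * (2 * ∑ b ∈ Icc 1 y, h2 c b / b) ≤
        σ * (Real.log N) ^ 3 := mul_le_mul hσ h7 (by linarith) hσ0
    _ = (Real.log N) ^ 3 * σ := mul_comm _ _

end Pool.Agent.Lib.TE
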