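import Mathlib

/-!
# Module Bonf: the Bonferroni inequalities
-/

set_option autoImplicit false

open Finset

namespace Pool.Agent.Lib.TE

private theorem bonf_alt (m t : ℕ) :
    ∑ i ∈ range (t + 1), (-1 : ℝ) ^ i * ((m + 1).choose i : ℝ) = (-1 : ℝ) ^ t * (m.choose t : ℝ) := by
  induction t with
  | zero => simp
  | succ t ih =>
    rw [sum_range_succ, ih, Nat.choose_succ_succ m t]
    push_cast
    ring

theorem bonf (k T : ℕ) (hT : 1 ≤ T) :
    |(if k = 0 then (1 : ℝ) else 0) - ∑ i ∈ range T, (-1 : ℝ) ^ i * (k.choose i : ℝ)| ≤ (k.choose T : ℝ) := by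
  obtain ⟨t, rfl⟩ : ∃ t, T = t + 1 := ⟨T - 1, by omega⟩
  rcases Nat.eq_zero_or_pos k with hk | hk
  · subst hk
    have h1 : ∑ i ∈ range (t + 1), (-1 : ℝ) ^ i * ((0 : ℕ).choose i : ℝ) = 1 := by
      rw [sum_range_succ']
      simp
    rw [h1]
    simp
  · obtain ⟨m, rfl⟩ : ∃ m, k = m + 1 := ⟨k - 1, by omega⟩
    rw [if_neg (by omega), bonf_alt, zero_sub, abs_neg, abs_mul, abs_pow, abs_neg, abs_one, one_pow, one_mul,
      Nat.abs_cast]
    have h1 : m.choose t ≤ (m + 1).choose (t + 1) := by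
      rw [Nat.choose_succ_succ]
      exact Nat.le_add_right _ _
    exact_mod_cast h1

open Classical in
/-- for sets: `1[no p ∈ P has R] = ∑_{S ⊆ P, |S| < T} (-1)^|S| 1[all p ∈ S have R] + error`, error at most the number of `S ⊆ P`, `|S| = T`, all of whose elements have `R` -/
theorem bonf_set (P : Finset ℕ) (R : ℕ → Prop) (T : ℕ) (hT : 1 ≤ T) :
    |(if ∀ p ∈ P, ¬ R p then (1 : ℝ) else 0) -
      ∑ S ∈ P.powerset.filter (fun S => S.card < T), (-1 : ℝ) ^ S.card * (if ∀ p ∈ S, R p then (1 : ℝ) else 0)| ≤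
      ∑ S ∈ P.powersetCard T, (if ∀ p ∈ S, R p then (1 : ℝ) else 0) := by
  set Q : Finset ℕ := P.filter R with hQ
  have hsub : ∀ S : Finset ℕ, (S ⊆ P ∧ ∀ p ∈ S, R p) ↔ S ⊆ Q := by
    intro S
    constructor
    · rintro ⟨h1, h2⟩ p hp
      rw [hQ, mem_filter]
      exact ⟨h1 hp, h2 p hp⟩
    · intro h
      exact ⟨fun p hp => (mem_filter.1 (h hp)).1, fun p hp => (mem_filter.1 (h hp)).2⟩
  have h0 : (if ∀ p ∈ P, ¬ R p then (1 : ℝ) else 0) = if Q.card = 0 then (1 : ℝ) else 0 := by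
    refine if_congr ?_ rfl rfl
    rw [card_eq_zero, hQ, filter_eq_empty_iff]
  have h1 : ∑ S ∈ P.powersetCard T, (if ∀ p ∈ S, R p then (1 : ℝ) else 0) = (Q.card.choose T : ℝ) := by
    rw [← sum_filter, sum_const, nsmul_eq_mul, mul_one]
    have h2 : (P.powersetCard T).filter (fun S => ∀ p ∈ S, R p) = Q.powersetCard T := by
      ext S
      rw [mem_filter, mem_powersetCard, mem_powersetCard, ← hsub S]
      constructor
      · rintro ⟨⟨a, b⟩, c⟩
        exact ⟨⟨a, c⟩, b⟩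
      · rintro ⟨⟨a, c⟩, b⟩
        exact ⟨⟨a, b⟩, c⟩
    rw [h2, card_powersetCard]
  have h2 : ∑ S ∈ P.powerset.filter (fun S => S.card < T), (-1 : ℝ) ^ S.card * (if ∀ p ∈ S, R p then (1 : ℝ) else 0) =
      ∑ i ∈ range T, (-1 : ℝ) ^ i * (Q.card.choose i : ℝ) := by
    have e1 : ∑ S ∈ P.powerset.filter (fun S => S.card < T), (-1 : ℝ) ^ S.card * (if ∀ p ∈ S, R p then (1 : ℝ) else 0) =
        ∑ S ∈ Q.powerset, (fun i : ℕ => if i < T then (-1 : ℝ) ^ i else 0) S.card := by
      simp only [mul_ite, mul_one, mul_zero]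
      rw [← sum_filter, ← sum_filter]
      refine sum_congr ?_ fun S _ => rfl
      ext S
      simp only [mem_filter, mem_powerset]
      rw [← hsub S]
      constructor
      · rintro ⟨⟨a, b⟩, c⟩
        exact ⟨⟨a, c⟩, b⟩
      · rintro ⟨⟨a, c⟩, b⟩
        exact ⟨⟨a, b⟩, c⟩
    rw [e1, sum_powerset_apply_card (fun i : ℕ => if i < T then (-1 : ℝ) ^ i else 0)]
    -- both sums over a large range
    have e2 : ∑ m ∈ range (Q.card + 1), Q.card.choose m • (if m < T then (-1 : ℝ) ^ m else 0) =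
        ∑ m ∈ range (Q.card + 1 + T), Q.card.choose m • (if m < T then (-1 : ℝ) ^ m else 0) := by
      refine sum_subset (range_subset_range.2 (by omega)) fun m _ hm => ?_
      rw [mem_range] at hm
      rw [Nat.choose_eq_zero_of_lt (by omega), zero_smul]
    have e3 : ∑ i ∈ range T, (-1 : ℝ) ^ i * (Q.card.choose i : ℝ) =
        ∑ m ∈ range (Q.card + 1 + T), Q.card.choose m • (if m < T then (-1 : ℝ) ^ m else 0) := by
      have e4 : ∑ i ∈ range T, (-1 : ℝ) ^ i * (Q.card.choose i : ℝ) =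
          ∑ m ∈ range T, Q.card.choose m • (if m < T then (-1 : ℝ) ^ m else 0) := by
        refine sum_congr rfl fun m hm => ?_
        rw [mem_range] at hm
        rw [if_pos hm, nsmul_eq_mul, mul_comm]
      rw [e4]
      refine sum_subset (range_subset_range.2 (by omega)) fun m _ hm => ?_
      rw [mem_range] at hm
      rw [if_neg hm, smul_zero]
    rw [e2, e3]
  rw [h0, h1, h2]
  exact bonf Q.card T hT

end Pool.Agent.Lib.TE
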