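import Pool.Agent.Lib.MP_7b7e48_nt.TE.Defs

/-!
# Module Dec (60 minutes): the decomposition of `lam - c` in a sifted progression

PROOF. For `e` in the sum: `(e, Wf N) = 1` (`hWf`), so `c e = ∑_{b ∣ e} h2 c b lam (e/b)` (`OW.c_conv`, `RC (Wf N) c`), `h2 c 1 = 1`: `lam e - c e = -∑_{b ∣ e, b ≥ 2} h2 c b lam (e/b)`. Write `e = b n`. `Rough wa e` iff `Rough wa b` and `Rough wa n`. Split at `Z`. For `2 ≤ b ≤ Z` (first sum): `n ≤ T/b`, `FN N n`: `e` coprime to `N` iff `b` and `n` are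
(`h2 c b ≠ 0` implies `b` coprime to `Wf N`: a prime with `c = 1` does not divide `Wf N`). For `b > Z`: `n ≤ T/Z`, `b ≤ T/n`; `n` is coprime to `Wf N m` (`e ≡ cl` is coprime to `Wf m`). `T = (N-1)/g`; `(N-1)/g/n = (N-1)/(g n)`.
-/

set_option autoImplicit false

open Finset
open Pool.Agent.Lib.MP_45349e_nt.LS (lam)
open Pool.Agent.Lib.GT (Rough)
open Pool.Agent.Lib.RG (RC LV rr PB)
open Pool.Agent.Lib.OW (rs dd h2 sQ)

namespace Pool.Agent.Lib.TE

private theorem Dec_ext (S U : Finset ℕ) (h : S ⊆ U) (f : ℕ → ℝ) :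
    ∑ x ∈ S, f x = ∑ x ∈ U, if x ∈ S then f x else 0 := by
  rw [Finset.sum_ite_mem, Finset.inter_eq_right.mpr h]

private theorem Dec_h2_one (c : ℕ → ℝ) : h2 c 1 = 1 := by
  unfold h2
  rw [if_pos, Nat.primeFactors_one, card_empty, pow_zero]
  intro q hq h
  exact absurd (Nat.dvd_one.mp h) hq.one_lt.ne'

private theorem Dec_h2_cop {M : ℕ} {c : ℕ → ℝ} (hc : RC M c) {b : ℕ} (hb : h2 c b ≠ 0) :
    b.Coprime M := by
  unfold h2 at hb
  by_cases h : ∀ q : ℕ, q.Prime → q ∣ b → c q = 1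
  · by_contra hcon
    obtain ⟨q, hq, hq1, hq2⟩ := Nat.Prime.not_coprime_iff_dvd.mp hcon
    have h1 := h q hq hq1
    rw [hc.zero q (fun h3 => (Nat.Prime.coprime_iff_not_dvd hq).mp h3 hq2)] at h1
    exact zero_ne_one h1
  · rw [if_neg h] at hb
    exact absurd rfl hb

private theorem Dec_rough_mul (w b n : ℕ) : Rough w (b * n) ↔ Rough w b ∧ Rough w n := by
  constructor
  · intro h
    exact ⟨fun p hp hd => h p hp (hd.mul_right n), fun p hp hd => h p hp (hd.mul_left b)⟩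
  · rintro ⟨h1, h2⟩ p hp hd
    rcases hp.dvd_mul.mp hd with h | h
    · exact h1 p hp h
    · exact h2 p hp h

private theorem Dec_sum_div (T : ℕ) (P : ℕ → Prop) [DecidablePred P] (G : ℕ → ℕ → ℝ) (U : Finset ℕ)
    (hU : ∀ x : ℕ, 1 ≤ x → x ≤ T → x ∈ U) (hU1 : ∀ x ∈ U, 1 ≤ x) :
    ∑ e ∈ (Icc 1 T).filter P, ∑ b ∈ e.divisors.erase 1, G b (e / b) =
      ∑ b ∈ U, ∑ n ∈ U, if 2 ≤ b ∧ b * n ≤ T ∧ P (b * n) then G b n else 0 := by
  rw [Finset.sum_sigma', ← Finset.sum_product', ← Finset.sum_filter]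
  refine Finset.sum_nbij' (fun x => (x.2, x.1 / x.2)) (fun p => ⟨p.1 * p.2, p.1⟩) ?_ ?_ ?_ ?_ ?_
  · rintro ⟨e, b⟩ h
    simp only [mem_sigma, mem_filter, mem_Icc, mem_erase, Nat.mem_divisors, mem_product] at h ⊢
    obtain ⟨⟨⟨h1, h2⟩, h3⟩, h4, h5, h6⟩ := h
    have hb0 : 0 < b := Nat.pos_of_dvd_of_pos h5 h1
    have hbe : b ≤ e := Nat.le_of_dvd h1 h5
    have h7 : b * (e / b) = e := Nat.mul_div_cancel' h5
    have h8 : 1 ≤ e / b := Nat.div_pos hbe hb0
    refine ⟨⟨hU b hb0 (hbe.trans h2), hU _ h8 ((Nat.div_le_self e b).trans h2)⟩, by omega, ?_, ?_⟩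
    · rw [h7]; exact h2
    · rw [h7]; exact h3
  · rintro ⟨b, n⟩ h
    simp only [mem_sigma, mem_filter, mem_Icc, mem_erase, Nat.mem_divisors, mem_product] at h ⊢
    obtain ⟨⟨h1, h2⟩, h3, h4, h5⟩ := h
    have hb := hU1 b h1
    have hn := hU1 n h2
    have hbn : 0 < b * n := Nat.mul_pos hb hn
    exact ⟨⟨⟨hbn, h4⟩, h5⟩, by omega, dvd_mul_right b n, hbn.ne'⟩
  · rintro ⟨e, b⟩ h
    simp only [mem_sigma, mem_filter, mem_Icc, mem_erase, Nat.mem_divisors] at h
    have h7 : b * (e / b) = e := Nat.mul_div_cancel' h.2.2.1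
    simp only [h7]
  · rintro ⟨b, n⟩ h
    simp only [mem_filter, mem_product] at h
    have hb := hU1 b h.1.1
    simp only [Nat.mul_div_cancel_left n hb]
  · rintro ⟨e, b⟩ _
    rfl

open Classical in
theorem dec {Wf N : ℕ} {c : ℕ → ℝ} (hc : RC (Wf * N) c) (hW : 1 ≤ Wf) (hN : 2 ≤ N) (wa wb g m cl Z : ℕ) (hg : 1 ≤ g) (hm : 1 ≤ m)
    (hZ : 1 ≤ Z) (hcl : cl.Coprime (Wf * m)) (hWf : ∀ n : ℕ, Rough wa n → n.Coprime Wf) :
    ∑ e ∈ (Icc 1 ((N - 1) / g)).filter (fun e => e ≡ cl [MOD Wf * m] ∧ e.Coprime N ∧ Rough wa e ∧ Rough wb (N - g * e)),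
      (lam e - c e) =
    -(∑ b ∈ (Icc 2 Z).filter (fun b => Rough wa b ∧ b.Coprime (Wf * m)), h2 c b *
        ∑ n ∈ (Icc 1 ((N - 1) / g / b)).filter (fun n => b * n ≡ cl [MOD Wf * m] ∧ Rough wa n ∧ Rough wb (N - g * b * n)), FN N n) -
    ∑ n ∈ (Icc 1 ((N - 1) / g / Z)).filter (fun n => n.Coprime (Wf * N * m) ∧ Rough wa n), lam n *
      ∑ b ∈ (Ioc Z ((N - 1) / (g * n))).filter (fun b => b * n ≡ cl [MOD Wf * m] ∧ Rough wa b ∧ Rough wb (N - g * n * b)), h2 c b := by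
  set T : ℕ := (N - 1) / g with hT
  set P : ℕ → Prop := fun e => e ≡ cl [MOD Wf * m] ∧ e.Coprime N ∧ Rough wa e ∧
    Rough wb (N - g * e) with hP
  -- coprimality from the congruence
  have hcong : ∀ e : ℕ, e ≡ cl [MOD Wf * m] → e.Coprime (Wf * m) := by
    intro e he
    have h1 := he.gcd_eq
    unfold Nat.Coprime at hcl ⊢
    rw [h1]
    exact hcl
  set U : Finset ℕ := Icc 1 (T + Z) with hU
  have hUm : ∀ x : ℕ, 1 ≤ x → x ≤ T → x ∈ U := fun x h1 h2 => mem_Icc.2 ⟨h1, by omega⟩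
  have hU1 : ∀ x ∈ U, 1 ≤ x := fun x h => (mem_Icc.1 h).1
  -- left side
  have hL : ∑ e ∈ (Icc 1 T).filter P, (lam e - c e) =
      -∑ b ∈ U, ∑ n ∈ U, if 2 ≤ b ∧ b * n ≤ T ∧ P (b * n) then h2 c b * lam n else 0 := by
    rw [← Dec_sum_div T P (fun b n => h2 c b * lam n) U hUm hU1, ← sum_neg_distrib]
    refine sum_congr rfl fun e he => ?_
    obtain ⟨he1, he2, he3, he4, -⟩ := mem_filter.1 he
    have h1 : 1 ≤ e := (mem_Icc.1 he1).1
    have h2' : e.Coprime (Wf * N) := Nat.Coprime.mul_right (hWf e he4) he3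
    rw [OW.c_conv hc h1 h2', ← add_sum_erase e.divisors (fun b => h2 c b * lam (e / b))
      (Nat.one_mem_divisors.2 (by omega)), Dec_h2_one, Nat.div_one]
    ring
  -- first sum
  have hF : ∑ b ∈ (Icc 2 Z).filter (fun b => Rough wa b ∧ b.Coprime (Wf * m)), h2 c b *
        ∑ n ∈ (Icc 1 (T / b)).filter (fun n => b * n ≡ cl [MOD Wf * m] ∧ Rough wa n ∧
          Rough wb (N - g * b * n)), FN N n =
      ∑ b ∈ U, ∑ n ∈ U, if (2 ≤ b ∧ b ≤ Z) ∧ b * n ≤ T ∧ P (b * n) then h2 c b * lam n else 0 := by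
    rw [Dec_ext _ U (fun x hx => ?_)]
    · refine sum_congr rfl fun b hbU => ?_
      by_cases hb : b ∈ (Icc 2 Z).filter (fun b => Rough wa b ∧ b.Coprime (Wf * m))
      · rw [if_pos hb, Dec_ext _ U (fun x hx => ?_), mul_sum]
        · refine sum_congr rfl fun n hn => ?_
          obtain ⟨hb1, hb2, hb3⟩ := mem_filter.1 hb
          obtain ⟨hb4, hb5⟩ := mem_Icc.1 hb1
          have hn1 := hU1 n hn
          by_cases h0 : h2 c b = 0
          · rw [h0, zero_mul, zero_mul, ite_self]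
          · have hbc : b.Coprime N := (Dec_h2_cop hc h0).coprime_mul_left_right
            have hbn : b.Coprime N → ((b * n).Coprime N ↔ n.Coprime N) := fun h =>
              ⟨fun h1 => h1.coprime_mul_left, fun h1 => Nat.Coprime.mul_left h h1⟩
            have hiff : n ∈ (Icc 1 (T / b)).filter (fun n => b * n ≡ cl [MOD Wf * m] ∧ Rough wa n ∧
                Rough wb (N - g * b * n)) ∧ n.Coprime N ↔ ((2 ≤ b ∧ b ≤ Z) ∧ b * n ≤ T ∧ P (b * n)) := by
              simp only [mem_filter, mem_Icc, hP, Nat.le_div_iff_mul_le (show 0 < b by omega),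
                Dec_rough_mul, hbn hbc, mul_comm n b, mul_assoc]
              tauto
            by_cases h3 : n.Coprime N
            · have hFN : FN N n = lam n := if_pos h3
              rw [hFN]
              by_cases h4 : n ∈ (Icc 1 (T / b)).filter (fun n => b * n ≡ cl [MOD Wf * m] ∧
                  Rough wa n ∧ Rough wb (N - g * b * n))
              · rw [if_pos h4, if_pos (hiff.1 ⟨h4, h3⟩)]
              · rw [if_neg h4, if_neg (fun h5 => h4 (hiff.2 h5).1), mul_zero]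
            · have hFN : FN N n = 0 := if_neg h3
              rw [hFN, ite_self, mul_zero, if_neg (fun h5 => h3 (hiff.2 h5).2)]
        · obtain ⟨h1, -⟩ := mem_filter.1 hx
          exact hUm x (mem_Icc.1 h1).1 ((mem_Icc.1 h1).2.trans (Nat.div_le_self T b))
      · rw [if_neg hb]
        symm
        refine sum_eq_zero fun n _ => if_neg ?_
        rintro ⟨⟨h1, h2⟩, h3, h4, h5, h6, h7⟩
        exact hb (mem_filter.2 ⟨mem_Icc.2 ⟨h1, h2⟩, ((Dec_rough_mul wa b n).1 h6).1,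
          (hcong _ h4).coprime_mul_right⟩)
    · obtain ⟨h1, -⟩ := mem_filter.1 hx
      exact mem_Icc.2 ⟨by have := (mem_Icc.1 h1).1; omega,
        (mem_Icc.1 h1).2.trans (Nat.le_add_left Z T)⟩
  -- second sum
  have hS : ∑ n ∈ (Icc 1 (T / Z)).filter (fun n => n.Coprime (Wf * N * m) ∧ Rough wa n), lam n *
      ∑ b ∈ (Ioc Z ((N - 1) / (g * n))).filter (fun b => b * n ≡ cl [MOD Wf * m] ∧ Rough wa b ∧
        Rough wb (N - g * n * b)), h2 c b =
      ∑ b ∈ U, ∑ n ∈ U, if Z < b ∧ b * n ≤ T ∧ P (b * n) then h2 c b * lam n else 0 := by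
    rw [sum_comm, Dec_ext _ U (fun x hx => ?_)]
    · refine sum_congr rfl fun n hnU => ?_
      have hn1 := hU1 n hnU
      have hdd : (N - 1) / (g * n) = T / n := by rw [hT, Nat.div_div_eq_div_mul]
      rw [hdd]
      by_cases hn : n ∈ (Icc 1 (T / Z)).filter (fun n => n.Coprime (Wf * N * m) ∧ Rough wa n)
      · rw [if_pos hn, Dec_ext _ U (fun x hx => ?_), mul_sum]
        · refine sum_congr rfl fun b hb => ?_
          obtain ⟨hn2, hn3, hn4⟩ := mem_filter.1 hn
          by_cases h0 : h2 c b = 0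
          · rw [h0, ite_self, mul_zero, zero_mul, ite_self]
          · have hbc : b.Coprime N := (Dec_h2_cop hc h0).coprime_mul_left_right
            have hnc : n.Coprime N := hn3.coprime_mul_right_right.coprime_mul_left_right
            have hbn : (b * n).Coprime N := Nat.Coprime.mul_left hbc hnc
            have hiff : b ∈ (Ioc Z (T / n)).filter (fun b => b * n ≡ cl [MOD Wf * m] ∧ Rough wa b ∧
                Rough wb (N - g * n * b)) ↔ (Z < b ∧ b * n ≤ T ∧ P (b * n)) := by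
              simp only [mem_filter, mem_Ioc, hP, Nat.le_div_iff_mul_le (show 0 < n by omega),
                Dec_rough_mul, mul_comm n b, mul_assoc]
              tauto
            by_cases h4 : b ∈ (Ioc Z (T / n)).filter (fun b => b * n ≡ cl [MOD Wf * m] ∧
                Rough wa b ∧ Rough wb (N - g * n * b))
            · rw [if_pos h4, if_pos (hiff.1 h4), mul_comm]
            · rw [if_neg h4, if_neg (fun h5 => h4 (hiff.2 h5)), mul_zero]
        · obtain ⟨h1, -⟩ := mem_filter.1 hx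
          exact hUm x (by have := (mem_Ioc.1 h1).1; omega)
            ((mem_Ioc.1 h1).2.trans (Nat.div_le_self T n))
      · rw [if_neg hn]
        symm
        refine sum_eq_zero fun b _ => ?_
        by_cases hcnd : Z < b ∧ b * n ≤ T ∧ P (b * n)
        · exfalso
          obtain ⟨h1, h3, h4, h5, h6, h7⟩ := hcnd
          refine hn (mem_filter.2 ⟨mem_Icc.2 ⟨hn1, ?_⟩, ?_, ((Dec_rough_mul wa b n).1 h6).2⟩)
          · rw [Nat.le_div_iff_mul_le (by omega)]
            calc n * Z ≤ n * b := Nat.mul_le_mul_left n h1.le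
              _ = b * n := mul_comm n b
              _ ≤ T := h3
          · have h8 := (hcong _ h4).coprime_mul_left
            have h9 : n.Coprime N := h5.coprime_mul_left
            exact Nat.Coprime.mul_right (Nat.Coprime.mul_right h8.coprime_mul_right_right h9)
              h8.coprime_mul_left_right
        · rw [if_neg hcnd]
    · obtain ⟨h1, -⟩ := mem_filter.1 hx
      exact hUm x (mem_Icc.1 h1).1 ((mem_Icc.1 h1).2.trans (Nat.div_le_self T Z))
  rw [hL, hF, hS, ← neg_add', ← sum_add_distrib]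
  congr 1
  refine sum_congr rfl fun b _ => ?_
  rw [← sum_add_distrib]
  refine sum_congr rfl fun n _ => ?_
  by_cases h1 : b * n ≤ T ∧ P (b * n)
  · by_cases h3 : b ≤ Z
    · have h4 : ¬ Z < b := by omega
      by_cases h5 : 2 ≤ b
      · rw [if_pos ⟨h5, h1⟩, if_pos ⟨⟨h5, h3⟩, h1⟩, if_neg (fun h => h4 h.1), add_zero]
      · rw [if_neg (fun h => h5 h.1), if_neg (fun h => h5 h.1.1), if_neg (fun h => h4 h.1),
          add_zero]
    · have h4 : Z < b := by omega
      have h5 : 2 ≤ b := by omega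
      rw [if_pos ⟨h5, h1⟩, if_neg (fun h => h3 h.1.2), if_pos ⟨h4, h1⟩, zero_add]
  · rw [if_neg (fun h => h1 h.2), if_neg (fun h => h1 h.2), if_neg (fun h => h1 h.2), add_zero]

end Pool.Agent.Lib.TE
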