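import Pool.Agent.Lib.MP_7b7e48_nt.TE.LSL
import Pool.Agent.Lib.MP_7b7e48_nt.TE.SWL
import Pool.Agent.Lib.MP_7b7e48_nt.TE.ClsLe

/-!
# Module GBVF (90 minutes): `FN` in progressions, weighted families of moduli, fixed length `t`

`K = log N`. PROOF. `cls_le` for every `x`; `1/φ(m) ≤ K/m` for `1 ≤ m ≤ N` (`OW.del_low`-type bound `φ(m)/m ≥ c/log m`; for all `m ≤ N`: `m/φ(m) ≤ K` for `N` large: `RH.ev_totient` or the trivial product bound; any fixed power `K^3` will do).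
Interchange: the total is `≤ K³ ∑_{f, k ≥ 1, f k ≤ N^(1/1000)} w(f k) P(f, k)`, `w(j) = ∑_{x : j ∣ m} 1/m ≤ Th (j^(-1/4) + N^(-e))`, `P(1, k) = |∑_{n ≤ t/k} FN|`, `P(f, k) = PS f ‖LamC N (t/k) ψ‖` for `f > 1`; `t/k ≥ N^(1/9)` (natural quotient).
(1) `f = 1`, and `1 < f ≤ K^B2`: `swl`, `swl_one` with exponent `A3`: `P ≤ f · 2 (t/k) / K^A3`; sum over `f ≤ K^B2`, `k`: `≤ 2 Th · K^(2 B2) t K^(-A3) (∑ k^(-1) + ..) ≤ Th t K^(2 B2 + 2 - A3)`.
(2) `f > K^B2`: dyadic `D = 2^i ⌊K^B2⌋` (`≤ 2 K` values of `i`), on `(D, 2D]`: `w(f k) ≤ Th ((D k)^(-1/4) + N^(-e))`, `∑_{f ∈ (D,2D]} P(f,k) ≤ K^C (t/k)` (`lsl`): total `≤ 2 K · K^C t Th ∑_k (D^(-1/4) + N^(-e))/k ≤ K^(C+4) t Th (K^(-B2/4) + N^(-e))`.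
Choose `B2 = 4 (A + C + 10)`, `A3 = 2 B2 + A + 10`.
-/

set_option autoImplicit false

open Finset

namespace Pool.Agent.Lib.TE

private theorem GBVF_dyad (g : ℕ → ℝ) (hg : ∀ f, 0 ≤ g f) (M0 : ℕ) (b : ℝ) (hb : 0 ≤ b)
    (h : ∀ D : ℕ, 1 ≤ D → D ≤ M0 → ∑ f ∈ Ioc D (2 * D), g f ≤ b) (I : ℕ) :
    ∀ F0 : ℕ, 1 ≤ F0 → M0 ≤ 2 ^ I * F0 → ∑ f ∈ Ioc F0 M0, g f ≤ I * b := by
  induction I with
  | zero =>
    intro F0 _ hM
    rw [pow_zero, one_mul] at hM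
    rw [Ioc_eq_empty (by omega), sum_empty]
    simp
  | succ I ih =>
    intro F0 hF hM
    by_cases hlt : M0 ≤ F0
    · rw [Ioc_eq_empty (by omega), sum_empty]
      positivity
    · have h1 := ih (2 * F0) (by omega) (by
        have : 2 ^ (I + 1) * F0 = 2 ^ I * (2 * F0) := by rw [pow_succ]; ring
        omega)
      have h2 := h F0 hF (by omega)
      have h3 : ∑ f ∈ Ioc F0 M0, g f ≤
          ∑ f ∈ Ioc F0 (2 * F0), g f + ∑ f ∈ Ioc (2 * F0) M0, g f := by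
        rw [← sum_union]
        · refine sum_le_sum_of_subset_of_nonneg ?_ fun f _ _ => hg f
          intro f hf
          rw [mem_Ioc] at hf
          rw [mem_union, mem_Ioc, mem_Ioc]
          omega
        · rw [disjoint_left]
          intro a h1 h2
          rw [mem_Ioc] at h1 h2
          omega
      push_cast
      linarith

private theorem GBVF_div (m M0 : ℕ) (hm : 1 ≤ m) (hM : m ≤ M0) (g : ℕ → ℝ) :
    ∑ k ∈ m.divisors, g k = ∑ k ∈ Icc 1 M0, if k ∣ m then g k else 0 := by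
  rw [← sum_filter]
  refine sum_congr ?_ fun _ _ => rfl
  ext k
  rw [Nat.mem_divisors, mem_filter, mem_Icc]
  constructor
  · rintro ⟨h1, _⟩
    exact ⟨⟨Nat.pos_of_dvd_of_pos h1 hm, (Nat.le_of_dvd hm h1).trans hM⟩, h1⟩
  · rintro ⟨_, h1⟩
    exact ⟨h1, by omega⟩

private theorem GBVF_div2 (m M0 : ℕ) (hm : 1 ≤ m) (hM : m ≤ M0) (P : ℕ → ℕ → ℝ) :
    ∑ f ∈ m.divisors.filter (fun f => 1 < f), ∑ k ∈ (m / f).divisors, P f k =
      ∑ f ∈ Icc 2 M0, ∑ k ∈ Icc 1 M0, if f * k ∣ m then P f k else 0 := by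
  have h1 : m.divisors.filter (fun f => 1 < f) = (Icc 2 M0).filter (fun f => f ∣ m) := by
    ext f
    rw [mem_filter, mem_filter, Nat.mem_divisors, mem_Icc]
    constructor
    · rintro ⟨⟨h1, _⟩, h2⟩
      exact ⟨⟨h2, (Nat.le_of_dvd hm h1).trans hM⟩, h1⟩
    · rintro ⟨⟨h2, _⟩, h1⟩
      exact ⟨⟨h1, by omega⟩, h2⟩
  rw [h1, sum_filter]
  refine sum_congr rfl fun f hf => ?_
  rw [mem_Icc] at hf
  by_cases hfm : f ∣ m
  · rw [if_pos hfm]
    have hmf : 1 ≤ m / f := Nat.div_pos (Nat.le_of_dvd hm hfm) (by omega)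
    rw [GBVF_div (m / f) M0 hmf ((Nat.div_le_self m f).trans hM)]
    refine sum_congr rfl fun k _ => ?_
    refine if_congr ?_ rfl rfl
    exact Nat.dvd_div_iff_mul_dvd hfm
  · rw [if_neg hfm]
    refine (sum_eq_zero fun k _ => ?_).symm
    rw [if_neg]
    intro h
    exact hfm ((Dvd.intro k rfl).trans h)

/-- the interchange -/
private theorem GBVF_swap {ι : Type} (X : Finset ι) (m : ι → ℕ) (M0 : ℕ)
    (hm : ∀ x ∈ X, 1 ≤ m x ∧ m x ≤ M0) (P1 : ℕ → ℝ) (P : ℕ → ℕ → ℝ) :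
    ∑ x ∈ X, 1 / (m x : ℝ) * (∑ k ∈ (m x).divisors, P1 k +
      ∑ f ∈ (m x).divisors.filter (fun f => 1 < f), ∑ k ∈ (m x / f).divisors, P f k) =
    ∑ k ∈ Icc 1 M0, P1 k * (∑ x ∈ X.filter (fun x => k ∣ m x), 1 / (m x : ℝ)) +
      ∑ f ∈ Icc 2 M0, ∑ k ∈ Icc 1 M0,
        P f k * (∑ x ∈ X.filter (fun x => f * k ∣ m x), 1 / (m x : ℝ)) := by
  have h1 : ∀ x ∈ X, 1 / (m x : ℝ) * (∑ k ∈ (m x).divisors, P1 k +
      ∑ f ∈ (m x).divisors.filter (fun f => 1 < f), ∑ k ∈ (m x / f).divisors, P f k) =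
      (∑ k ∈ Icc 1 M0, if k ∣ m x then P1 k * (1 / (m x : ℝ)) else 0) +
      ∑ f ∈ Icc 2 M0, ∑ k ∈ Icc 1 M0, if f * k ∣ m x then P f k * (1 / (m x : ℝ)) else 0 := by
    intro x hx
    obtain ⟨ha, hb⟩ := hm x hx
    rw [GBVF_div (m x) M0 ha hb, GBVF_div2 (m x) M0 ha hb, mul_add, mul_sum, mul_sum]
    congr 1
    · refine sum_congr rfl fun k _ => ?_
      rw [mul_ite, mul_zero, mul_comm (1 / (m x : ℝ))]
    · refine sum_congr rfl fun f _ => ?_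
      rw [mul_sum]
      refine sum_congr rfl fun k _ => ?_
      rw [mul_ite, mul_zero, mul_comm (1 / (m x : ℝ))]
  rw [sum_congr rfl h1, sum_add_distrib]
  congr 1
  · rw [sum_comm]
    refine sum_congr rfl fun k _ => ?_
    rw [← sum_filter, mul_sum]
  · rw [sum_comm]
    refine sum_congr rfl fun f _ => ?_
    rw [sum_comm]
    refine sum_congr rfl fun k _ => ?_
    rw [← sum_filter, mul_sum]

/-- the bound for the double sum -/
private theorem GBVF_bound (M0 F0 I : ℕ) (hF0 : 1 ≤ F0) (hI : M0 ≤ 2 ^ I * F0)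
    (P1 W : ℕ → ℝ) (P : ℕ → ℕ → ℝ) (t Th a δ KC H : ℝ) (ht : 0 ≤ t) (hTh : 0 ≤ Th) (ha : 0 ≤ a)
    (hδ : 0 ≤ δ) (hKC : 0 ≤ KC)
    (hH : ∑ k ∈ Icc 1 M0, (1 : ℝ) / k = H)
    (hW0 : ∀ j, 0 ≤ W j) (hW1 : ∀ j, 1 ≤ j → W j ≤ 2 * Th) (hW2 : ∀ j, F0 ≤ j → W j ≤ Th * δ)
    (hP0 : ∀ f k, 0 ≤ P f k)
    (h1 : ∀ k ∈ Icc 1 M0, P1 k ≤ t / k * a)
    (h2 : ∀ f, 2 ≤ f → f ≤ F0 → ∀ k ∈ Icc 1 M0, P f k ≤ F0 * (t / k * a))
    (h3 : ∀ k ∈ Icc 1 M0, ∀ D : ℕ, 1 ≤ D → D ≤ M0 →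
      ∑ f ∈ Ioc D (2 * D), P f k ≤ KC * (t / k)) :
    ∑ k ∈ Icc 1 M0, P1 k * W k + ∑ f ∈ Icc 2 M0, ∑ k ∈ Icc 1 M0, P f k * W (f * k) ≤
      Th * t * H * (2 * a + 2 * a * F0 ^ 2 + I * KC * δ) := by
  have e1 : ∑ k ∈ Icc 1 M0, P1 k * W k ≤ Th * t * H * (2 * a) := by
    calc ∑ k ∈ Icc 1 M0, P1 k * W k ≤ ∑ k ∈ Icc 1 M0, (t / k * a) * (2 * Th) := by
          refine sum_le_sum fun k hk => ?_
          have hk1 := (mem_Icc.mp hk).1
          exact mul_le_mul (h1 k hk) (hW1 k hk1) (hW0 k) (by positivity)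
      _ = Th * t * H * (2 * a) := by
          rw [← hH, mul_sum, sum_mul]
          refine sum_congr rfl fun k _ => ?_
          ring
  have e2 : ∑ f ∈ Icc 2 F0, ∑ k ∈ Icc 1 M0, P f k * W (f * k) ≤
      Th * t * H * (2 * a * F0 ^ 2) := by
    calc ∑ f ∈ Icc 2 F0, ∑ k ∈ Icc 1 M0, P f k * W (f * k)
        ≤ ∑ f ∈ Icc 2 F0, F0 * (Th * t * H * (2 * a)) := by
          refine sum_le_sum fun f hf => ?_
          rw [mem_Icc] at hf
          calc ∑ k ∈ Icc 1 M0, P f k * W (f * k)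
              ≤ ∑ k ∈ Icc 1 M0, (F0 * (t / k * a)) * (2 * Th) := by
                refine sum_le_sum fun k hk => ?_
                have hk1 := (mem_Icc.mp hk).1
                exact mul_le_mul (h2 f hf.1 hf.2 k hk)
                  (hW1 _ (Nat.mul_pos (by omega) hk1)) (hW0 _) (by positivity)
            _ = F0 * (Th * t * H * (2 * a)) := by
                rw [← hH, mul_sum, sum_mul, mul_sum]
                refine sum_congr rfl fun k _ => ?_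
                ring
      _ = ((Icc 2 F0).card : ℝ) * (F0 * (Th * t * H * (2 * a))) := by
          rw [sum_const, nsmul_eq_mul]
      _ ≤ (F0 : ℝ) * (F0 * (Th * t * H * (2 * a))) := by
          have hH0 : 0 ≤ H := by
            rw [← hH]
            exact sum_nonneg fun k _ => by positivity
          refine mul_le_mul_of_nonneg_right ?_ (by positivity)
          have : (Icc 2 F0).card ≤ F0 := by
            rw [Nat.card_Icc]
            omega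
          exact_mod_cast this
      _ = Th * t * H * (2 * a * F0 ^ 2) := by ring
  have e3 : ∑ f ∈ Ioc F0 M0, ∑ k ∈ Icc 1 M0, P f k * W (f * k) ≤
      Th * t * H * (I * KC * δ) := by
    rw [sum_comm]
    calc ∑ k ∈ Icc 1 M0, ∑ f ∈ Ioc F0 M0, P f k * W (f * k)
        ≤ ∑ k ∈ Icc 1 M0, (I * (KC * (t / k))) * (Th * δ) := by
          refine sum_le_sum fun k hk => ?_
          have hk1 := (mem_Icc.mp hk).1
          calc ∑ f ∈ Ioc F0 M0, P f k * W (f * k) ≤ ∑ f ∈ Ioc F0 M0, P f k * (Th * δ) := by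
                refine sum_le_sum fun f hf => ?_
                refine mul_le_mul_of_nonneg_left (hW2 _ ?_) (hP0 f k)
                rw [mem_Ioc] at hf
                exact hf.1.le.trans (Nat.le_mul_of_pos_right f hk1)
            _ = (∑ f ∈ Ioc F0 M0, P f k) * (Th * δ) := by rw [sum_mul]
            _ ≤ (I * (KC * (t / k))) * (Th * δ) := by
                refine mul_le_mul_of_nonneg_right ?_ (by positivity)
                exact GBVF_dyad (fun f => P f k) (fun f => hP0 f k) M0 _ (by positivity)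
                  (h3 k hk) I F0 hF0 hI
      _ = Th * t * H * (I * KC * δ) := by
          rw [← hH, mul_sum, sum_mul]
          refine sum_congr rfl fun k _ => ?_
          ring
  have e4 : ∑ f ∈ Icc 2 M0, ∑ k ∈ Icc 1 M0, P f k * W (f * k) ≤
      ∑ f ∈ Icc 2 F0, ∑ k ∈ Icc 1 M0, P f k * W (f * k) +
      ∑ f ∈ Ioc F0 M0, ∑ k ∈ Icc 1 M0, P f k * W (f * k) := by
    rw [← sum_union]
    · refine sum_le_sum_of_subset_of_nonneg ?_ fun f _ _ =>
        sum_nonneg fun k _ => mul_nonneg (hP0 f k) (hW0 _)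
      intro f hf
      rw [mem_Icc] at hf
      rw [mem_union, mem_Icc, mem_Ioc]
      omega
    · rw [disjoint_left]
      intro a h1 h2
      rw [mem_Icc] at h1
      rw [mem_Ioc] at h2
      omega
  linarith [e1, e2, e3, e4, mul_add (Th * t * H) (2 * a) (2 * a * F0 ^ 2),
    mul_add (Th * t * H) (2 * a + 2 * a * F0 ^ 2) (I * KC * δ)]

private theorem GBVF_harm (M0 : ℕ) (K : ℝ) (hK : 1 ≤ K) (hM : Real.log M0 ≤ K) :
    ∑ k ∈ Icc 1 M0, (1 : ℝ) / k ≤ 2 * K := by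
  have h := harmonic_le_one_add_log M0
  rw [harmonic_eq_sum_Icc] at h
  push_cast at h
  have e : ∑ k ∈ Icc 1 M0, (1 : ℝ) / k = ∑ k ∈ Icc 1 M0, ((k : ℝ))⁻¹ :=
    sum_congr rfl fun a _ => one_div _
  rw [e]
  linarith

private theorem GBVF_num (K Th t a δ H I : ℝ) (F0 : ℝ) (A C B' : ℕ) (hK : 2 ≤ K) (hTh : 0 ≤ Th)
    (ht : 0 ≤ t) (hB' : B' = A + C + 10) (ha : a = 1 / K ^ (2 * (4 * B') + A + 10))
    (hF0 : 0 ≤ F0) (hF : F0 ≤ K ^ (4 * B')) (hH0 : 0 ≤ H) (hH : H ≤ 2 * K) (hI0 : 0 ≤ I)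
    (hI : I ≤ 3 * K) (hδ0 : 0 ≤ δ) (hδ : δ ≤ 3 / K ^ B') :
    K * (Th * t * H * (2 * a + 2 * a * F0 ^ 2 + I * K ^ C * δ)) ≤ Th * t / K ^ A := by
  have hK0 : 0 < K := by linarith
  have hK1 : 1 ≤ K := by linarith
  have ha0 : 0 ≤ a := by rw [ha]; positivity
  have h1 : a ≤ 1 / K ^ (A + 9) := by
    rw [ha]
    exact one_div_le_one_div_of_le (by positivity) (pow_le_pow_right₀ hK1 (by omega))
  have h2 : a * F0 ^ 2 ≤ 1 / K ^ (A + 9) := by
    have h3 : F0 ^ 2 ≤ K ^ (2 * (4 * B')) := by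
      calc F0 ^ 2 ≤ (K ^ (4 * B')) ^ 2 := pow_le_pow_left₀ hF0 hF 2
        _ = K ^ (2 * (4 * B')) := by rw [← pow_mul, mul_comm]
    calc a * F0 ^ 2 ≤ a * K ^ (2 * (4 * B')) := mul_le_mul_of_nonneg_left h3 ha0
      _ = 1 / K ^ (A + 10) := by
          rw [ha, add_assoc, pow_add K (2 * (4 * B')) (A + 10)]
          field_simp
      _ ≤ 1 / K ^ (A + 9) :=
          one_div_le_one_div_of_le (by positivity) (pow_le_pow_right₀ hK1 (by omega))
  have h3 : I * K ^ C * δ ≤ 9 / K ^ (A + 9) := by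
    calc I * K ^ C * δ ≤ (3 * K) * K ^ C * (3 / K ^ B') := by gcongr
      _ = 9 / K ^ (A + 9) := by
          have e : K ^ B' = K * K ^ C * K ^ (A + 9) := by
            rw [hB', ← pow_succ', ← pow_add]
            congr 1
            ring
          rw [e]
          field_simp
          ring
  have h4 : 2 * a + 2 * a * F0 ^ 2 + I * K ^ C * δ ≤ 13 / K ^ (A + 9) := by
    have e : (13 : ℝ) / K ^ (A + 9) =
        2 * (1 / K ^ (A + 9)) + 2 * (1 / K ^ (A + 9)) + 9 / K ^ (A + 9) := by ring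
    rw [e]
    have e2 : 2 * a * F0 ^ 2 = 2 * (a * F0 ^ 2) := by ring
    rw [e2]
    linarith
  calc K * (Th * t * H * (2 * a + 2 * a * F0 ^ 2 + I * K ^ C * δ))
      ≤ K * (Th * t * (2 * K) * (13 / K ^ (A + 9))) := by gcongr
    _ = (26 / K ^ 7) * (Th * t / K ^ A) := by
        have e : K ^ (A + 9) = K ^ A * K ^ 7 * (K * K) := by
          rw [pow_add]
          ring
        rw [e]
        field_simp
        ring
    _ ≤ 1 * (Th * t / K ^ A) := by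
        refine mul_le_mul_of_nonneg_right ?_ (by positivity)
        rw [div_le_one (by positivity)]
        calc (26 : ℝ) ≤ 2 ^ 7 := by norm_num
          _ ≤ K ^ 7 := pow_le_pow_left₀ (by norm_num) hK 7
    _ = Th * t / K ^ A := one_mul _

private theorem GBVF_delta (K N e : ℝ) (F0 B' : ℕ) (hK : 2 ≤ K) (hN : 1 ≤ N) (hB' : 1 ≤ B')
    (hF0 : F0 = ⌊K ^ (4 * B')⌋₊) (he : K ^ B' ≤ N ^ e) :
    (F0 : ℝ) ^ (-(1 / 4) : ℝ) + N ^ (-e) ≤ 3 / K ^ B' := by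
  have hK0 : 0 < K := by linarith
  have h1 : (K ^ B' / 2) ^ 4 ≤ (F0 : ℝ) := by
    have h2 : K ^ (4 * B') < (F0 : ℝ) + 1 := by
      rw [hF0]
      exact Nat.lt_floor_add_one _
    have h3 : (K ^ B' / 2) ^ 4 = K ^ (4 * B') / 16 := by
      rw [div_pow, ← pow_mul, mul_comm B' 4]
      norm_num
    have h4 : (2 : ℝ) ≤ K ^ (4 * B') := by
      calc (2 : ℝ) ≤ K := hK
        _ = K ^ 1 := (pow_one K).symm
        _ ≤ K ^ (4 * B') := pow_le_pow_right₀ (by linarith) (by omega)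
    rw [h3]
    linarith
  have h2 : (F0 : ℝ) ^ (-(1 / 4) : ℝ) ≤ 2 / K ^ B' := by
    have hpos : 0 < K ^ B' / 2 := by positivity
    calc (F0 : ℝ) ^ (-(1 / 4) : ℝ) ≤ ((K ^ B' / 2) ^ 4) ^ (-(1 / 4) : ℝ) :=
          Real.rpow_le_rpow_of_nonpos (by positivity) h1 (by norm_num)
      _ = (K ^ B' / 2)⁻¹ := by
          rw [← Real.rpow_natCast (K ^ B' / 2) 4, ← Real.rpow_mul hpos.le]
          norm_num
          rw [Real.rpow_neg_one, inv_div]
      _ = 2 / K ^ B' := by rw [inv_div]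
  have h3 : N ^ (-e) ≤ 1 / K ^ B' := by
    rw [Real.rpow_neg (by linarith), ← one_div]
    exact one_div_le_one_div_of_le (by positivity) he
  have h4 : (3 : ℝ) / K ^ B' = 2 / K ^ B' + 1 / K ^ B' := by ring
  rw [h4]
  exact add_le_add h2 h3

/-- `t / k` is large -/
private theorem GBVF_Y (N t k : ℕ) (hN : 1 ≤ N) (h2 : (2 : ℝ) ≤ (N : ℝ) ^ ((1 : ℝ) / 100))
    (ht : (N : ℝ) ^ ((1 : ℝ) / 8) ≤ t) (hk : 1 ≤ k) (hk2 : (k : ℝ) ≤ (N : ℝ) ^ ((1 : ℝ) / 1000)) :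
    (N : ℝ) ^ ((1 : ℝ) / 9) ≤ ((t / k : ℕ) : ℝ) := by
  have hNr : (1 : ℝ) ≤ N := by exact_mod_cast hN
  have hN0 : (0 : ℝ) < N := by linarith
  have hk0 : (0 : ℝ) < k := by exact_mod_cast hk
  have h3 : (t : ℝ) / k < ((t / k : ℕ) : ℝ) + 1 := by
    rw [div_lt_iff₀ hk0]
    have h7 : t < (t / k + 1) * k := by
      have := Nat.lt_div_mul_add (a := t) (b := k) (by omega)
      calc t < t / k * k + k := this
        _ = (t / k + 1) * k := by ring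
    exact_mod_cast h7
  have h4 : (N : ℝ) ^ ((1 : ℝ) / 9) * 2 ≤ (t : ℝ) / k := by
    rw [le_div_iff₀ hk0]
    calc (N : ℝ) ^ ((1 : ℝ) / 9) * 2 * k
        ≤ (N : ℝ) ^ ((1 : ℝ) / 9) * (N : ℝ) ^ ((1 : ℝ) / 100) * (N : ℝ) ^ ((1 : ℝ) / 1000) := by
          gcongr
      _ = (N : ℝ) ^ ((1 : ℝ) / 9 + 1 / 100 + 1 / 1000) := by
          rw [Real.rpow_add hN0, Real.rpow_add hN0]
      _ ≤ (N : ℝ) ^ ((1 : ℝ) / 8) := Real.rpow_le_rpow_of_exponent_le hNr (by norm_num)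
      _ ≤ t := ht
  have h5 : (1 : ℝ) ≤ (N : ℝ) ^ ((1 : ℝ) / 9) := Real.one_le_rpow hNr (by norm_num)
  linarith

theorem gbvf (A : ℕ) (e : ℝ) (he : 0 < e) : ∃ N0 : ℕ, ∀ N : ℕ, N0 ≤ N → ∀ (ι : Type) (X : Finset ι) (m c : ι → ℕ)
    (t : ℕ) (Th : ℝ), 0 ≤ Th → (N : ℝ) ^ ((1 : ℝ) / 8) ≤ t → t ≤ N →
    (∀ x ∈ X, 1 ≤ m x ∧ (m x : ℝ) ≤ (N : ℝ) ^ ((1 : ℝ) / 1000) ∧ (c x).Coprime (m x)) →
    (∀ j : ℕ, 1 ≤ j → ∑ x ∈ X.filter (fun x => j ∣ m x), 1 / (m x : ℝ) ≤ Th * ((j : ℝ) ^ (-(1 / 4) : ℝ) + (N : ℝ) ^ (-e))) →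
    ∑ x ∈ X, |∑ n ∈ (Icc 1 t).filter (fun n => n ≡ c x [MOD m x]), FN N n| ≤ Th * t / (Real.log N) ^ A := by
  obtain ⟨C, N1, hlsl⟩ := lsl
  obtain ⟨B', hB'⟩ : ∃ B' : ℕ, B' = A + C + 10 := ⟨_, rfl⟩
  obtain ⟨N2, hswl⟩ := swl (2 * (4 * B') + A + 10) (4 * B')
  obtain ⟨N3, hswl1⟩ := swl_one (2 * (4 * B') + A + 10)
  obtain ⟨N4, hN4⟩ := Filter.eventually_atTop.mp Pool.Agent.Lib.RH.ev_totient
  have v1 := Pool.Agent.Lib.RH.ev_log_ge (max 2 (N4 : ℝ))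
  have v2 := Pool.Agent.Lib.RH.ev_log_pow B' e he 1 one_pos
  have v3 := Pool.Agent.Lib.RH.ev_log_pow 0 (1 / 100) (by norm_num) 2 (by norm_num)
  obtain ⟨N0, hN0⟩ := Filter.eventually_atTop.mp (v1.and (v2.and (v3.and
    ((Filter.eventually_ge_atTop N1).and ((Filter.eventually_ge_atTop N2).and
    ((Filter.eventually_ge_atTop N3).and (Filter.eventually_ge_atTop 2)))))))
  refine ⟨N0, fun N hN ι X m c t Th hTh ht1 ht2 hX hw => ?_⟩
  obtain ⟨u1, u2, u3, u4, u5, u6, u7⟩ := hN0 N hN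
  rw [one_mul] at u2
  rw [pow_zero, mul_one] at u3
  set K : ℝ := Real.log N with hK
  have hK2 : 2 ≤ K := (le_max_left _ _).trans u1
  have hK4 : (N4 : ℝ) ≤ K := (le_max_right _ _).trans u1
  have hK1 : 1 ≤ K := by linarith
  have hK0 : 0 < K := by linarith
  have hNr : (1 : ℝ) ≤ N := by exact_mod_cast (by omega : 1 ≤ N)
  have hNp : (0 : ℝ) < N := by linarith
  have hexpK : Real.exp K = N := Real.exp_log hNp
  set M0 : ℕ := ⌊(N : ℝ) ^ ((1 : ℝ) / 1000)⌋₊ with hM0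
  have hM0le : (M0 : ℝ) ≤ (N : ℝ) ^ ((1 : ℝ) / 1000) := Nat.floor_le (by positivity)
  have hM0N : (M0 : ℝ) ≤ N := by
    refine hM0le.trans ?_
    calc (N : ℝ) ^ ((1 : ℝ) / 1000) ≤ (N : ℝ) ^ (1 : ℝ) :=
          Real.rpow_le_rpow_of_exponent_le hNr (by norm_num)
      _ = N := Real.rpow_one _
  have hM01 : 1 ≤ M0 := by
    rw [hM0]
    apply Nat.le_floor
    push_cast
    exact Real.one_le_rpow hNr (by norm_num)
  have hmM : ∀ x ∈ X, 1 ≤ m x ∧ m x ≤ M0 := fun x hx =>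
    ⟨(hX x hx).1, Nat.le_floor (hX x hx).2.1⟩
  set F0 : ℕ := ⌊K ^ (4 * B')⌋₊ with hF0
  have hF0le : (F0 : ℝ) ≤ K ^ (4 * B') := Nat.floor_le (by positivity)
  have hF01 : 1 ≤ F0 := by
    rw [hF0]
    apply Nat.le_floor
    push_cast
    exact one_le_pow₀ hK1
  set I : ℕ := ⌊2 * K⌋₊ + 1 with hI
  have hIle : (I : ℝ) ≤ 3 * K := by
    have h1 : ((⌊2 * K⌋₊ : ℕ) : ℝ) ≤ 2 * K := Nat.floor_le (by linarith)
    rw [hI]
    push_cast
    linarith
  have hMI : M0 ≤ 2 ^ I * F0 := by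
    have h1 : 2 * K < (I : ℝ) := by
      rw [hI]
      push_cast
      exact Nat.lt_floor_add_one _
    have h2 : (N : ℝ) ≤ (2 : ℝ) ^ I := by
      rw [← hexpK, ← Real.rpow_natCast, Real.rpow_def_of_pos (by norm_num)]
      apply Real.exp_le_exp.mpr
      have h3 : (1 : ℝ) / 2 ≤ Real.log 2 := by
        have := Real.log_two_gt_d9
        linarith
      nlinarith
    have h3 : (M0 : ℝ) ≤ ((2 ^ I : ℕ) : ℝ) := by
      push_cast
      exact hM0N.trans h2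
    have h4 : M0 ≤ 2 ^ I := by exact_mod_cast h3
    exact h4.trans (Nat.le_mul_of_pos_right _ hF01)
  have htot : ∀ x ∈ X, 1 / ((m x).totient : ℝ) ≤ K * (1 / (m x : ℝ)) := by
    intro x hx
    obtain ⟨h1, h2⟩ := hmM x hx
    have h3 : (0 : ℝ) < (m x).totient := by exact_mod_cast Nat.totient_pos.2 h1
    have h4 : (0 : ℝ) < m x := by exact_mod_cast h1
    have h5 : (m x : ℝ) ≤ K * (m x).totient := by
      by_cases hc : N4 ≤ m x
      · refine (hN4 (m x) hc).trans ?_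
        refine mul_le_mul_of_nonneg_right ?_ h3.le
        refine Real.log_le_log h4 ?_
        have h6 : (m x : ℝ) ≤ M0 := by exact_mod_cast h2
        exact h6.trans hM0N
      · have h6 : (m x : ℝ) ≤ N4 := by exact_mod_cast (not_le.mp hc).le
        have h7 : (1 : ℝ) ≤ (m x).totient := by exact_mod_cast Nat.totient_pos.2 h1
        calc (m x : ℝ) ≤ K := h6.trans hK4
          _ = K * 1 := (mul_one K).symm
          _ ≤ K * (m x).totient := mul_le_mul_of_nonneg_left h7 hK0.le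
    rw [mul_one_div, div_le_div_iff₀ h3 h4, one_mul]
    exact h5
  set P1 : ℕ → ℝ := fun k => |∑ n ∈ Icc 1 (t / k), FN N n| with hP1
  set P : ℕ → ℕ → ℝ := fun f k =>
    BV.PS f (fun ψ : DirichletCharacter ℂ f => ‖LamC N (t / k) ψ‖) with hP
  have hP0 : ∀ f k, 0 ≤ P f k := fun f k => BV.PS_nonneg fun _ => norm_nonneg _
  have hstep : ∑ x ∈ X, |∑ n ∈ (Icc 1 t).filter (fun n => n ≡ c x [MOD m x]), FN N n| ≤
      K * ∑ x ∈ X, 1 / (m x : ℝ) * (∑ k ∈ (m x).divisors, P1 k +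
      ∑ f ∈ (m x).divisors.filter (fun f => 1 < f), ∑ k ∈ (m x / f).divisors, P f k) := by
    rw [mul_sum]
    refine sum_le_sum fun x hx => ?_
    refine (cls_le N t (m x) (c x) (by omega) (hX x hx).1 (hX x hx).2.2).trans ?_
    rw [← mul_assoc]
    refine mul_le_mul_of_nonneg_right (htot x hx) ?_
    refine add_nonneg (sum_nonneg fun k _ => abs_nonneg _) ?_
    exact sum_nonneg fun f _ => sum_nonneg fun k _ => hP0 f k
  refine hstep.trans ?_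
  rw [GBVF_swap X m M0 hmM P1 P]
  set W : ℕ → ℝ := fun j => ∑ x ∈ X.filter (fun x => j ∣ m x), 1 / (m x : ℝ) with hW
  have hNe1 : (N : ℝ) ^ (-e) ≤ 1 := Real.rpow_le_one_of_one_le_of_nonpos hNr (by linarith)
  have hW0 : ∀ j, 0 ≤ W j := fun j => sum_nonneg fun x _ => by positivity
  have hW1 : ∀ j, 1 ≤ j → W j ≤ 2 * Th := by
    intro j hj
    refine (hw j hj).trans ?_
    have hj1 : (1 : ℝ) ≤ j := by exact_mod_cast hj
    have h1 : (j : ℝ) ^ (-(1 / 4) : ℝ) ≤ 1 :=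
      Real.rpow_le_one_of_one_le_of_nonpos hj1 (by norm_num)
    nlinarith
  have hW2 : ∀ j, F0 ≤ j → W j ≤ Th * ((F0 : ℝ) ^ (-(1 / 4) : ℝ) + (N : ℝ) ^ (-e)) := by
    intro j hj
    refine (hw j (hF01.trans hj)).trans ?_
    refine mul_le_mul_of_nonneg_left ?_ hTh
    refine add_le_add ?_ le_rfl
    refine Real.rpow_le_rpow_of_nonpos ?_ ?_ (by norm_num)
    · exact_mod_cast hF01
    · exact_mod_cast hj
  have hkk : ∀ k ∈ Icc 1 M0, (N : ℝ) ^ ((1 : ℝ) / 9) ≤ ((t / k : ℕ) : ℝ) ∧ t / k ≤ N ∧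
      ((t / k : ℕ) : ℝ) ≤ (t : ℝ) / k := by
    intro k hk
    rw [mem_Icc] at hk
    refine ⟨GBVF_Y N t k (by omega) u3 ht1 hk.1 ?_, (Nat.div_le_self t k).trans ht2,
      Nat.cast_div_le⟩
    have h1 : (k : ℝ) ≤ M0 := by exact_mod_cast hk.2
    exact h1.trans hM0le
  have hb := GBVF_bound M0 F0 I hF01 hMI P1 W P t Th (1 / K ^ (2 * (4 * B') + A + 10))
    ((F0 : ℝ) ^ (-(1 / 4) : ℝ) + (N : ℝ) ^ (-e)) (K ^ C) (∑ k ∈ Icc 1 M0, (1 : ℝ) / k)
    (Nat.cast_nonneg t) hTh (by positivity) (by positivity) (by positivity) rfl hW0 hW1 hW2 hP0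
    (by
      intro k hk
      obtain ⟨h1, h2, h3⟩ := hkk k hk
      refine (hswl1 N u6 (t / k) h1).trans ?_
      rw [div_eq_mul_one_div]
      exact mul_le_mul_of_nonneg_right h3 (by positivity))
    (by
      intro f hf2 hfF k hk
      obtain ⟨h1, h2, h3⟩ := hkk k hk
      have h4 : (f : ℝ) ≤ K ^ (4 * B') := by
        have : (f : ℝ) ≤ F0 := by exact_mod_cast hfF
        exact this.trans hF0le
      refine (BV.PS_le_const (d := f) (by omega) (c := ((t / k : ℕ) : ℝ) /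
        K ^ (2 * (4 * B') + A + 10)) (by positivity) ?_).trans ?_
      · intro ψ hψ
        exact hswl N u5 (t / k) h1 h2 f (by omega) h4 ψ (BV.ne_one_of_prim (by omega) hψ)
      · refine mul_le_mul ?_ ?_ (by positivity) (by positivity)
        · have : f.totient ≤ F0 := (Nat.totient_le f).trans hfF
          exact_mod_cast this
        · rw [div_eq_mul_one_div]
          exact mul_le_mul_of_nonneg_right h3 (by positivity))
    (by
      intro k hk D hD1 hD2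
      obtain ⟨h1, h2, h3⟩ := hkk k hk
      refine (hlsl N u4 (t / k) h1 h2 D hD1 ?_).trans ?_
      · have h4 : (D : ℝ) ≤ M0 := by exact_mod_cast hD2
        refine (h4.trans hM0le).trans ?_
        exact Real.rpow_le_rpow_of_exponent_le hNr (by norm_num)
      · exact mul_le_mul_of_nonneg_left h3 (by positivity))
  refine (mul_le_mul_of_nonneg_left hb hK0.le).trans ?_
  have hlogM : Real.log M0 ≤ K := by
    refine Real.log_le_log ?_ hM0N
    exact_mod_cast hM01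
  exact GBVF_num K Th t _ _ _ I F0 A C B' hK2 hTh (Nat.cast_nonneg t) hB' rfl
    (Nat.cast_nonneg F0) hF0le (sum_nonneg fun k _ => by positivity)
    (GBVF_harm M0 K hK1 hlogM) (Nat.cast_nonneg I) hIle (by positivity)
    (GBVF_delta K N e F0 B' hK2 hNr (by omega) hF0 u2)

end Pool.Agent.Lib.TE
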