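import Pool.Agent.Lib.MP_7b7e48_nt.TE.Defs
import Pool.Agent.Lib.MP_7b7e48_nt.OW.U3

/-!
# Module RstC (75 minutes): the restriction of the character to the numbers coprime to `h`

`c n = Re χ n`, `h` coprime to `Wf N`, `M' = Wf h N`. PROOF. `χ' = changeLevel χ` modulo `M'`: `χ' n = χ n` if `(n, h) = 1` (and `0` if not), so `Re χ' n = rst h c n` (`(n, M') = 1` iff `(n, Wf N) = 1` and `(n, h) = 1`). `χ'² = 1`; take `m' ≡ m` modulo `Wf N`, `m' ≡ 1` modulo `h` (Chinese remainder): `m' ≡ 1` modulo `Wf h`, coprime to `M'`,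
`χ'(m') = χ(m) ≠ 1`; in particular `χ' ≠ 1`. (1) `RG.RC_char`. (3) `OW.pv_class` with `W := Wf * h` (real parts). (2) `RG.LV_char` gives some `L'` with `LV M' (rst h c) L'`; `L' = lim ∑_{a ≤ y} rst h c a/a`, and
`∑_{a ≤ y} rst h c a/a = ∑_{k ∣ h squarefree} μ(k) (c k/k) ∑_{a ≤ y/k} c a/a → ∑_k μ(k) c k/k · L = L ∏_{p ∣ h} (1 - c p/p)` (`LV (Wf N) c L`; the divisors `k` are finitely many), so `L'` is that value (uniqueness of limits).
-/

set_option autoImplicit false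

open Finset
open Pool.Agent.Lib.RG (RC LV rr PB)

namespace Pool.Agent.Lib.TE

private theorem rst_re {N : ℕ} [NeZero N] (χ : DirichletCharacter ℂ N) (h1 : χ ^ 2 = 1)
    (n : ℕ) : χ (n : ZMod N) = (((χ (n : ZMod N)).re : ℝ) : ℂ) := by
  apply Complex.ext
  · simp
  · simpa using SW.rc_real h1 (n : ZMod N)

private theorem rst_lim {N : ℕ} [NeZero N] (χ : DirichletCharacter ℂ N) (h2 : χ ^ 2 = 1) (h1 : χ ≠ 1) (M : ℕ) (hM : 1 ≤ M) :
    |∑ a ∈ Finset.Icc 1 M, (χ (a : ZMod N)).re / a - (DirichletCharacter.LFunction χ 1).re| ≤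
      N * 2 / M := by
  have h := SW.LFunction_sub_sum_le h1 (1 : ℂ) (by norm_num) M hM
  have e1 : ∑ n ∈ Finset.Icc 1 M, SW.ch χ n * (n : ℂ) ^ (-(1 : ℂ)) =
      ((∑ a ∈ Finset.Icc 1 M, (χ (a : ZMod N)).re / a : ℝ) : ℂ) := by
    push_cast
    refine Finset.sum_congr rfl fun n hn => ?_
    rw [Complex.cpow_neg_one, SW.ch, rst_re χ h2 n, Complex.ofReal_re, div_eq_mul_inv]
  rw [e1] at h
  have h4 := (Complex.abs_re_le_norm _).trans h
  rw [Complex.sub_re, Complex.ofReal_re, abs_sub_comm] at h4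
  refine h4.trans (le_of_eq ?_)
  have hM0 : (M : ℝ) ≠ 0 := by
    have : 0 < M := hM
    positivity
  rw [norm_one, Complex.one_re, Real.rpow_neg (Nat.cast_nonneg M), Real.rpow_one]
  ring

/-- the number `L` of `LV` is the value of the `L`-function -/
private theorem rst_val {N : ℕ} [NeZero N] (χ : DirichletCharacter ℂ N) (h2 : χ ^ 2 = 1) (h1 : χ ≠ 1) (L : ℝ)
    (hL : LV N (fun n => (χ (n : ZMod N)).re) L) : L = (DirichletCharacter.LFunction χ 1).re := by
  obtain ⟨l, hl⟩ : ∃ l : ℝ, l = (DirichletCharacter.LFunction χ 1).re := ⟨_, rfl⟩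
  rw [← hl]
  have key : ∀ M : ℕ, 1 ≤ M → |L - l| ≤ (2 * PB N + N * 2) / M := by
    intro M hM
    have a1 := hL.2 M hM
    have a2 := rst_lim χ h2 h1 M hM
    rw [← hl] at a2
    have e : L - l = -(∑ a ∈ Finset.Icc 1 M, (χ (a : ZMod N)).re / a - L) +
        (∑ a ∈ Finset.Icc 1 M, (χ (a : ZMod N)).re / a - l) := by ring
    rw [e, add_div]
    refine (abs_add_le _ _).trans ?_
    rw [abs_neg]
    exact add_le_add a1 a2
  have h0 : |L - l| ≤ 0 := by
    refine le_of_forall_pos_le_add fun ε hε => ?_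
    obtain ⟨M, hM⟩ := exists_nat_gt ((2 * PB N + N * 2) / ε)
    have hM' : (2 * PB N + N * 2) / ε < ((M + 1 : ℕ) : ℝ) := by
      push_cast
      linarith
    refine (key (M + 1) (by omega)).trans ?_
    have hm0 : (0 : ℝ) < ((M + 1 : ℕ) : ℝ) := by positivity
    rw [zero_add, div_le_iff₀ hm0]
    rw [div_lt_iff₀ hε] at hM'
    linarith
  have h3 := abs_eq_zero.1 (le_antisymm h0 (abs_nonneg _))
  linarith

private theorem rst_app {M M' h : ℕ} (hM : M' = M * h) (hdvd : M ∣ M') (χ : DirichletCharacter ℂ M) (n : ℕ) :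
    DirichletCharacter.changeLevel hdvd χ (n : ZMod M') = if n.Coprime h then χ (n : ZMod M) else 0 := by
  by_cases hn : n.Coprime M'
  · have h1 := DirichletCharacter.changeLevel_eq_cast_of_dvd' χ hdvd (a := (n : ℤ)) (Nat.isCoprime_iff_coprime.mpr hn)
    have hnh : n.Coprime h := hn.coprime_dvd_right (hM ▸ dvd_mul_left h M)
    rw [if_pos hnh]
    simpa using h1
  · have h1 : ¬ IsUnit (n : ZMod M') := by rwa [ZMod.isUnit_iff_coprime]
    rw [MulChar.map_nonunit _ h1]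
    by_cases hnh : n.Coprime h
    · rw [if_pos hnh]
      have h2 : ¬ n.Coprime M := fun h3 => hn (hM ▸ h3.mul_right hnh)
      have h4 : ¬ IsUnit (n : ZMod M) := by rwa [ZMod.isUnit_iff_coprime]
      rw [MulChar.map_nonunit _ h4]
    · rw [if_neg hnh]

open Classical in
theorem rst_char (Wf N h : ℕ) [NeZero (Wf * N)] (h2 : 2 ≤ Wf * N) (hh : 1 ≤ h) (hc : h.Coprime (Wf * N))
    (χ : DirichletCharacter ℂ (Wf * N)) (hχ : χ ^ 2 = 1) (m : ℕ) (hm : m ≡ 1 [MOD Wf]) (hmc : m.Coprime (Wf * N))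
    (hχm : χ (m : ZMod (Wf * N)) ≠ 1) (L : ℝ) (hL : LV (Wf * N) (fun n => (χ (n : ZMod (Wf * N))).re) L) :
    RC (Wf * h * N) (rst h fun n => (χ (n : ZMod (Wf * N))).re) ∧
    LV (Wf * h * N) (rst h fun n => (χ (n : ZMod (Wf * N))).re)
      (L * ∏ p ∈ h.primeFactors, (1 - (χ (p : ZMod (Wf * N))).re / p)) ∧
    ∀ a y : ℕ, |∑ n ∈ (range y).filter (fun n => n ≡ a [MOD Wf * h]), rst h (fun n => (χ (n : ZMod (Wf * N))).re) n| ≤
      PB (Wf * h * N) := by
  have hM' : Wf * h * N = Wf * N * h := by ring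
  have hdvd : Wf * N ∣ Wf * h * N := ⟨h, hM'⟩
  have hMh0 : Wf * h * N ≠ 0 := by
    rw [hM']
    exact Nat.mul_ne_zero (by omega) (by omega)
  have : NeZero (Wf * h * N) := ⟨hMh0⟩
  have hM2 : 2 ≤ Wf * h * N := by
    rw [hM']
    calc 2 ≤ Wf * N := h2
      _ = Wf * N * 1 := (mul_one _).symm
      _ ≤ Wf * N * h := Nat.mul_le_mul_left _ hh
  have hWf : 1 ≤ Wf := by
    rcases Nat.eq_zero_or_pos Wf with h0 | h0
    · rw [h0, zero_mul] at h2
      omega
    · exact h0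
  obtain ⟨ψ, hψ⟩ : ∃ ψ : DirichletCharacter ℂ (Wf * h * N), ψ = DirichletCharacter.changeLevel hdvd χ := ⟨_, rfl⟩
  have happ : ∀ n : ℕ, ψ (n : ZMod (Wf * h * N)) = if n.Coprime h then χ (n : ZMod (Wf * N)) else 0 := by
    intro n
    rw [hψ]
    exact rst_app hM' hdvd χ n
  have hre : (fun n : ℕ => (ψ (n : ZMod (Wf * h * N))).re) = rst h fun n => (χ (n : ZMod (Wf * N))).re := by
    funext n
    unfold rst
    rw [happ]
    split_ifs
    · rfl
    · exact Complex.zero_re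
  have hψ2 : ψ ^ 2 = 1 := by
    rw [hψ, ← map_pow, hχ, map_one]
  have hχ1 : χ ≠ 1 := by
    intro h0
    apply hχm
    rw [h0, MulChar.one_apply ((ZMod.isUnit_iff_coprime m _).2 hmc)]
  -- a number congruent to 1 modulo `h`
  obtain ⟨m', hm1, hm2⟩ : ∃ m' : ℕ, m' ≡ m [MOD Wf * N] ∧ m' ≡ 1 [MOD h] := by
    obtain ⟨k, hk⟩ := Nat.chineseRemainder hc.symm m 1
    exact ⟨k, hk⟩
  have hcWh : Wf.Coprime h := (hc.coprime_dvd_right (dvd_mul_right Wf N)).symm
  have hmW : m' ≡ 1 [MOD Wf * h] := by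
    rw [← Nat.modEq_and_modEq_iff_modEq_mul hcWh]
    exact ⟨(hm1.of_dvd (dvd_mul_right Wf N)).trans hm, hm2⟩
  have hmcN : m'.Coprime (Wf * N) := by
    have h1 := hm1.gcd_eq
    rw [Nat.Coprime, h1]
    exact hmc
  have hmch : m'.Coprime h := by
    have h1 := hm2.gcd_eq
    rw [Nat.Coprime, h1]
    exact Nat.gcd_one_left h
  have hmcM : m'.Coprime (Wf * h * N) := by
    rw [hM']
    exact hmcN.mul_right hmch
  have hψm : ψ (m' : ZMod (Wf * h * N)) ≠ 1 := by
    rw [happ, if_pos hmch]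
    have h1 : (m' : ZMod (Wf * N)) = (m : ZMod (Wf * N)) := (ZMod.natCast_eq_natCast_iff _ _ _).2 hm1
    rw [h1]
    exact hχm
  have hψ1 : ψ ≠ 1 := by
    intro h0
    apply hψm
    rw [h0, MulChar.one_apply ((ZMod.isUnit_iff_coprime m' _).2 hmcM)]
  refine ⟨?_, ?_, ?_⟩
  · rw [← hre]
    exact Pool.Agent.Lib.RG.RC_char (Wf * h * N) hM2 ψ hψ2 hψ1
  · obtain ⟨κ, _, hκ⟩ := Pool.Agent.Lib.RG.LV_char 1 one_pos
    obtain ⟨L', hL', _⟩ := hκ (Wf * h * N) hM2 ψ hψ2 hψ1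
    have v1 := rst_val χ hχ hχ1 L hL
    have v2 := rst_val ψ hψ2 hψ1 L' hL'
    have him : (DirichletCharacter.LFunction χ 1).im = 0 := by
      have := SW.LFunction_im hχ1 hχ 1 one_pos
      simpa using this
    have e1 : DirichletCharacter.LFunction χ 1 = ((L : ℝ) : ℂ) := by
      apply Complex.ext
      · rw [Complex.ofReal_re, v1]
      · rw [Complex.ofReal_im, him]
    have e2 : ∏ p ∈ (Wf * h * N).primeFactors, (1 - χ (p : ZMod (Wf * N)) * (p : ℂ) ^ (-(1 : ℂ))) =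
        ((∏ p ∈ h.primeFactors, (1 - (χ (p : ZMod (Wf * N))).re / p) : ℝ) : ℂ) := by
      push_cast
      symm
      apply Finset.prod_subset_one_on_sdiff
      · intro p hp
        rw [Nat.mem_primeFactors] at hp ⊢
        exact ⟨hp.1, hp.2.1.trans (hM' ▸ dvd_mul_left h _), hMh0⟩
      · intro p hp
        rw [mem_sdiff, Nat.mem_primeFactors, Nat.mem_primeFactors] at hp
        have h1 : ¬ p.Coprime (Wf * N) := by
          intro h3
          apply hp.2
          refine ⟨hp.1.1, ?_, by omega⟩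
          have h4 : p ∣ Wf * N * h := hM' ▸ hp.1.2.1
          exact h3.dvd_of_dvd_mul_left h4
        have h3 : ¬ IsUnit (p : ZMod (Wf * N)) := by rwa [ZMod.isUnit_iff_coprime]
        rw [MulChar.map_nonunit _ h3]
        simp
      · intro p _
        rw [Complex.cpow_neg_one, ← rst_re χ hχ p, div_eq_mul_inv]
    have e3 : L' = L * ∏ p ∈ h.primeFactors, (1 - (χ (p : ZMod (Wf * N))).re / p) := by
      rw [v2, hψ, DirichletCharacter.LFunction_changeLevel hdvd χ (Or.inl hχ1), e1, e2, ← Complex.ofReal_mul, Complex.ofReal_re]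
    rw [← hre, ← e3]
    exact hL'
  · intro a y
    have h3 := Pool.Agent.Lib.OW.pv_class N (Wf * h) (Nat.mul_pos hWf hh) hM2 ψ m' hmW hmcM hψm a y
    rw [← hre]
    rw [← Complex.re_sum]
    exact (Complex.abs_re_le_norm _).trans h3


end Pool.Agent.Lib.TE
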