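import Pool.Agent.Lib.MP_7b7e48_nt.TE.H2U
import Pool.Agent.Lib.MP_7b7e48_nt.TE.RstC

/-!
# Module H2AP (60 minutes): `h2 c` in progressions modulo `Wf h`

PROOF. `h2_unif` with `W := Wf * h` (`≤ N^(1/600)` for large `N`) and the character `rst h c` (`rst_char`). For `n ≡ b` modulo `Wf h` (`b` a unit) `n` is coprime to `h`, so `h2 (rst h c) n = h2 c n` (a prime `q ∣ n` does not divide `h`). Main term: with `h` coprime to `Wf N`:
`kapM (Wf h N) = kapM (Wf N) ∏_{p ∣ h} (1 - 1/p²)^(-1)`, `del (Wf h N) = del (Wf N) ∏_{p ∣ h} (1 - 1/p)`, `φ(Wf h) = φ(Wf) φ(h)`, so `kapM (Wf h N) · dd N (Wf h) · L ∏_{p ∣ h} (1 - c p/p) = MT Wf N · L · HH c h`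
(`(1 - 1/p)/(1 - 1/p²) = 1/(1 + 1/p)`).
-/

set_option autoImplicit false

open Finset
open Pool.Agent.Lib.RG (RC LV rr PB)
open Pool.Agent.Lib.OW (rs dd h2)

namespace Pool.Agent.Lib.TE

private theorem H2AP_big (c K : ℝ) (hc : 0 < c) : ∃ Q : ℕ, ∀ q : ℕ, Q ≤ q → K ≤ (q : ℝ) ^ c := by
  have h := (tendsto_rpow_atTop hc).comp (tendsto_natCast_atTop_atTop (R := ℝ))
  exact Filter.eventually_atTop.1 (h.eventually_ge_atTop K)

open Classical in
private theorem H2AP_h2 (c : ℕ → ℝ) {h n : ℕ} (hn : n.Coprime h) : h2 (rst h c) n = h2 c n := by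
  have h1 : (∀ q : ℕ, q.Prime → q ∣ n → rst h c q = 1) ↔ ∀ q : ℕ, q.Prime → q ∣ n → c q = 1 := by
    refine forall_congr' fun q => imp_congr_right fun _ => forall_congr' fun hqn => ?_
    have h2 : q.Coprime h := Nat.Coprime.coprime_dvd_left hqn hn
    unfold rst
    rw [if_pos h2]
  unfold OW.h2
  by_cases h2 : ∀ q : ℕ, q.Prime → q ∣ n → c q = 1
  · rw [if_pos (h1.2 h2), if_pos h2]
  · rw [if_neg (fun h3 => h2 (h1.1 h3)), if_neg h2]

private theorem H2AP_tot (h : ℕ) (hh : 1 ≤ h) :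
    (h.totient : ℝ) / h = ∏ p ∈ h.primeFactors, (1 - 1 / (p : ℝ)) := by
  have h1 := Nat.totient_eq_mul_prod_factors h
  have h2 : (h.totient : ℝ) = h * ∏ p ∈ h.primeFactors, (1 - (p : ℝ)⁻¹) := by
    have h3 := congrArg (fun x : ℚ => (x : ℝ)) h1
    push_cast at h3
    exact h3
  have h0 : (h : ℝ) ≠ 0 := by
    have : h ≠ 0 := by omega
    exact_mod_cast this
  rw [h2, mul_div_cancel_left₀ _ h0]
  simp only [one_div]

private theorem H2AP_del {a b : ℕ} (h : a.Coprime b) : OW.del (a * b) = OW.del a * OW.del b := by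
  unfold OW.del
  rw [Nat.totient_mul h]
  push_cast
  rw [mul_div_mul_comm]

private theorem H2AP_kap {a b : ℕ} (h : a.Coprime b) :
    kapM (a * b) = (∏ p ∈ a.primeFactors, (1 - 1 / (p : ℝ) ^ 2)⁻¹) * kapM b := by
  unfold kapM
  rw [h.primeFactors_mul, Finset.prod_union h.disjoint_primeFactors]
  ring

private theorem H2AP_main (Wf N h : ℕ) (hh : 1 ≤ h) (hc : h.Coprime (Wf * N)) (c : ℕ → ℝ) (L : ℝ) :
    kapM (Wf * h * N) * dd N (Wf * h) * (L * ∏ p ∈ h.primeFactors, (1 - c p / p)) =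
      MT Wf N * L * HH c h := by
  have e1 : Wf * h * N = h * (Wf * N) := by ring
  have hW : h.Coprime Wf := hc.coprime_mul_right_right
  have e2 : (Wf * h).totient = Wf.totient * h.totient := Nat.totient_mul hW.symm
  have e3 : OW.del h = ∏ p ∈ h.primeFactors, (1 - 1 / (p : ℝ)) := H2AP_tot h hh
  have hφ : (h.totient : ℝ) ≠ 0 := by
    have : 0 < h.totient := Nat.totient_pos.2 hh
    exact_mod_cast this.ne'
  unfold OW.dd MT HH
  rw [e1, H2AP_kap hc, H2AP_del hc, e2, e3]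
  have key : (∏ p ∈ h.primeFactors, (1 - 1 / (p : ℝ) ^ 2)⁻¹) *
      (∏ p ∈ h.primeFactors, (1 - 1 / (p : ℝ))) * (∏ p ∈ h.primeFactors, (1 - c p / p)) =
      ∏ p ∈ h.primeFactors, ((1 - c p / p) / (1 + 1 / (p : ℝ))) := by
    rw [← Finset.prod_mul_distrib, ← Finset.prod_mul_distrib]
    refine Finset.prod_congr rfl fun p hp => ?_
    have hp2 : (2 : ℝ) ≤ p := by exact_mod_cast (Nat.prime_of_mem_primeFactors hp).two_le
    have hp0 : (0 : ℝ) < p := by linarith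
    have h1 : 1 - 1 / (p : ℝ) ≠ 0 := by
      have : 1 / (p : ℝ) ≤ 1 / 2 := one_div_le_one_div_of_le (by norm_num) hp2
      intro h0
      linarith
    have h2 : 1 + 1 / (p : ℝ) ≠ 0 := by positivity
    have h3 : 1 - 1 / (p : ℝ) ^ 2 = (1 - 1 / (p : ℝ)) * (1 + 1 / (p : ℝ)) := by
      ring
    rw [h3, mul_inv]
    calc (1 - 1 / (p : ℝ))⁻¹ * (1 + 1 / (p : ℝ))⁻¹ * (1 - 1 / (p : ℝ)) * (1 - c p / p)
        = ((1 - 1 / (p : ℝ))⁻¹ * (1 - 1 / (p : ℝ))) * ((1 - c p / p) * (1 + 1 / (p : ℝ))⁻¹) := by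
          ring
      _ = _ := by rw [inv_mul_cancel₀ h1, one_mul, ← div_eq_mul_inv]
  rw [← key]
  push_cast
  have hφ2 : (Wf.totient : ℝ) * (h.totient : ℝ) = (h.totient : ℝ) * Wf.totient := mul_comm _ _
  rw [hφ2]
  by_cases hWt : (Wf.totient : ℝ) = 0
  · rw [hWt]
    simp
  · field_simp

open Classical in
theorem h2ap (Wf : ℕ) (hW : 1 ≤ Wf) : ∃ N0 : ℕ, ∀ (N : ℕ) [NeZero (Wf * N)], N0 ≤ N →
    ∀ χ : DirichletCharacter ℂ (Wf * N), χ ^ 2 = 1 →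
    (∃ m : ℕ, m ≡ 1 [MOD Wf] ∧ m.Coprime (Wf * N) ∧ χ (m : ZMod (Wf * N)) ≠ 1) →
    ∀ L : ℝ, LV (Wf * N) (fun n => (χ (n : ZMod (Wf * N))).re) L →
    ∀ h : ℕ, 1 ≤ h → (h : ℝ) ≤ (N : ℝ) ^ ((1 : ℝ) / 700) → h.Coprime (Wf * N) →
    ∀ b y : ℕ, b.Coprime (Wf * h) → 1 ≤ y → (y : ℝ) ≤ (N : ℝ) ^ 2 →
    |∑ n ∈ (Finset.Icc 1 y).filter (fun n => n ≡ b [MOD Wf * h]), h2 (fun n => (χ (n : ZMod (Wf * N))).re) n -
      MT Wf N * L * HH (fun n => (χ (n : ZMod (Wf * N))).re) h * y| ≤ Real.sqrt y * (N : ℝ) ^ ((34 : ℝ) / 100) := by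
  obtain ⟨N1, h1⟩ := h2_unif
  obtain ⟨N2, hN2⟩ := H2AP_big ((1 : ℝ) / 600 - 1 / 700) Wf (by norm_num)
  refine ⟨max (max N1 N2) 2, ?_⟩
  intro N _ hN χ hχ hm L hL h hh hhN hc b y hb hy hyN
  obtain ⟨m, hm1, hm2, hm3⟩ := hm
  have hNa : N1 ≤ N := ((le_max_left _ _).trans (le_max_left _ _)).trans hN
  have hNb : N2 ≤ N := ((le_max_right _ _).trans (le_max_left _ _)).trans hN
  have hNc : 2 ≤ N := (le_max_right _ _).trans hN
  have hN0 : (0 : ℝ) < N := by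
    have : 0 < N := by omega
    exact_mod_cast this
  have hN1r : (1 : ℝ) ≤ N := by
    have : 1 ≤ N := by omega
    exact_mod_cast this
  obtain ⟨hRC, hLV, hPV⟩ := rst_char Wf N h (by nlinarith) hh hc χ hχ m hm1 hm2 hm3 L hL
  set c : ℕ → ℝ := fun n => (χ (n : ZMod (Wf * N))).re with hcdef
  have hWh : ((Wf * h : ℕ) : ℝ) ≤ (N : ℝ) ^ ((1 : ℝ) / 600) := by
    push_cast
    calc (Wf : ℝ) * h ≤ (N : ℝ) ^ ((1 : ℝ) / 600 - 1 / 700) * (N : ℝ) ^ ((1 : ℝ) / 700) := by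
          have := hN2 N hNb
          gcongr
      _ = (N : ℝ) ^ ((1 : ℝ) / 600) := by
          rw [← Real.rpow_add hN0]
          norm_num
  have k2 := h1 N hNa (Wf * h) (Nat.one_le_iff_ne_zero.2 (by positivity)) hWh (rst h c)
    (L * ∏ p ∈ h.primeFactors, (1 - c p / p)) hRC hLV hPV b y hb hy hyN
  have h3 : ∑ n ∈ (Finset.Icc 1 y).filter (fun n => n ≡ b [MOD Wf * h]), h2 (rst h c) n =
      ∑ n ∈ (Finset.Icc 1 y).filter (fun n => n ≡ b [MOD Wf * h]), h2 c n := by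
    refine Finset.sum_congr rfl fun n hn => H2AP_h2 c ?_
    have hnb := (Finset.mem_filter.1 hn).2
    have h4 : n.Coprime (Wf * h) := by
      have h5 := hnb.gcd_eq
      unfold Nat.Coprime
      rw [h5]
      exact hb
    exact h4.coprime_mul_left_right
  rw [h3, H2AP_main Wf N h hh hc c L] at k2
  refine k2.trans ?_
  refine mul_le_mul_of_nonneg_left ?_ (Real.sqrt_nonneg _)
  exact Real.rpow_le_rpow_of_exponent_le hN1r (by norm_num)

end Pool.Agent.Lib.TE
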