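import Pool.Agent.Lib.MP_7b7e48_nt.TE.Defs

/-!
# Module KapS (60 minutes): the sum of `μ(f)/f²` over the `f` coprime to `M`

PROOF. `cMu` is an absolutely convergent sum; `cMu ≥ 1 - ∑_{f ≥ 2} 1/f² ≥ 1/4` (`∑_{f ≥ 2} 1/f² ≤ 1/4 + ∑_{f ≥ 3} 1/(f (f-1)) = 3/4`), `cMu ≤ 1 + 3/4`. `∏_{p ∣ M} (1 - 1/p²)^(-1) ≤ 2` (`∏_{2 ≤ n ≤ M} (1 - 1/n²) ≥ 1/2`).
Identity: by induction on the set of primes, `∑'_{(f, ∏ S) = 1} μ(f)/f² · ∏_{p ∈ S} (1 - 1/p²) = cMu`: for a prime `p ∉ S`: `∑'_{(f, S) = 1} = ∑'_{(f,S)=1, p ∤ f} + ∑'_{p ∣ f}` and `f = p f'`, `p ∤ f'` (otherwise `μ = 0`), `μ(p f') = -μ(f')`: `= (1 - 1/p²) ∑'_{(f, S ∪ {p}) = 1}`.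
So `∑'_{(f,M)=1} μ(f)/f² = kapM M`; the tail over `f > y` is `≤ ∑_{f > y} 1/f² ≤ 1/y`.
-/

set_option autoImplicit false

open Finset

namespace Pool.Agent.Lib.TE

open Classical in
/-- the terms without prime factors in `S` -/
private noncomputable def KapS_G (S : Finset ℕ) (f : ℕ) : ℝ :=
  if ∀ p ∈ S, ¬ p ∣ f then ((ArithmeticFunction.moebius f : ℤ) : ℝ) / (f : ℝ) ^ 2 else 0

private theorem KapS_le (S : Finset ℕ) (f : ℕ) : |KapS_G S f| ≤ ((f : ℝ) ^ 2)⁻¹ := by
  unfold KapS_G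
  split_ifs with h
  · rw [abs_div, abs_of_nonneg (by positivity : (0 : ℝ) ≤ (f : ℝ) ^ 2), div_eq_mul_inv]
    have hmu : |((ArithmeticFunction.moebius f : ℤ) : ℝ)| ≤ 1 := by
      have h := ArithmeticFunction.abs_moebius_le_one (n := f)
      exact_mod_cast h
    calc |((ArithmeticFunction.moebius f : ℤ) : ℝ)| * ((f : ℝ) ^ 2)⁻¹ ≤ 1 * ((f : ℝ) ^ 2)⁻¹ :=
          mul_le_mul_of_nonneg_right hmu (by positivity)
      _ = ((f : ℝ) ^ 2)⁻¹ := one_mul _
  · rw [abs_zero]; positivity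

private theorem KapS_summable (g : ℕ → ℝ) (hg : ∀ f, |g f| ≤ ((f : ℝ) ^ 2)⁻¹) : Summable g := by
  refine Summable.of_norm_bounded (g := fun f : ℕ => ((f : ℝ) ^ 2)⁻¹) ?_ hg
  exact Real.summable_nat_pow_inv.mpr (by norm_num)

/-- tails -/
private theorem KapS_tail (g : ℕ → ℝ) (hg : ∀ f, |g f| ≤ ((f : ℝ) ^ 2)⁻¹) (y : ℕ) (hy : 1 ≤ y) :
    |∑ f ∈ Icc 1 y, g f - ∑' f, g f| ≤ 1 / y := by
  have hs := KapS_summable g hg
  have ht := hs.hasSum.tendsto_sum_nat
  have hg0 : g 0 = 0 := by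
    have := hg 0
    simp only [Nat.cast_zero] at this
    norm_num at this
    exact this
  have h1 : Filter.Tendsto (fun n => |∑ f ∈ Icc 1 y, g f - ∑ f ∈ range n, g f|) Filter.atTop
      (nhds |∑ f ∈ Icc 1 y, g f - ∑' f, g f|) := (tendsto_const_nhds.sub ht).abs
  refine le_of_tendsto h1 ?_
  filter_upwards [Filter.eventually_ge_atTop (y + 1)] with n hn
  have e1 : ∑ f ∈ range n, g f = ∑ f ∈ Icc 1 y, g f + ∑ f ∈ Ioc y (n - 1), g f := by
    have e2 : range n = insert 0 (Icc 1 y ∪ Ioc y (n - 1)) := by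
      ext a
      rw [mem_insert, mem_union, mem_range, mem_Icc, mem_Ioc]
      omega
    rw [e2, sum_insert, hg0, zero_add, sum_union]
    · rw [disjoint_left]
      intro a h1 h2
      rw [mem_Icc] at h1
      rw [mem_Ioc] at h2
      omega
    · rw [mem_union, mem_Icc, mem_Ioc]
      omega
  have e3 : ∑ f ∈ Icc 1 y, g f - ∑ f ∈ range n, g f = -∑ f ∈ Ioc y (n - 1), g f := by
    rw [e1]; ring
  rw [e3, abs_neg]
  refine (abs_sum_le_sum_abs _ _).trans ((sum_le_sum fun f _ => hg f).trans ?_)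
  refine (sum_Ioc_inv_sq_le_sub (α := ℝ) (k := y) (n := n - 1) (by omega) (by omega)).trans ?_
  have h2 : (0 : ℝ) ≤ (((n - 1 : ℕ) : ℝ))⁻¹ := by positivity
  rw [one_div]
  linarith

private theorem KapS_mul (S : Finset ℕ) (hS : ∀ q ∈ S, q.Prime) (p : ℕ) (hp : p.Prime)
    (hpS : p ∉ S) (f : ℕ) :
    KapS_G S (p * f) = -(1 / (p : ℝ) ^ 2) * KapS_G (insert p S) f := by
  by_cases hpf : p ∣ f
  · have h1 : ArithmeticFunction.moebius (p * f) = 0 := by
      apply ArithmeticFunction.moebius_eq_zero_of_not_squarefree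
      intro hsq
      have h2 := hsq p (Nat.mul_dvd_mul_left p hpf)
      exact hp.one_lt.ne' (Nat.isUnit_iff.mp h2)
    have h2 : KapS_G (insert p S) f = 0 := by
      unfold KapS_G
      rw [if_neg]
      intro h
      exact h p (mem_insert_self p S) hpf
    have h3 : KapS_G S (p * f) = 0 := by
      unfold KapS_G
      rw [h1]
      simp
    rw [h2, h3, mul_zero]
  · have hcop : p.Coprime f := (Nat.Prime.coprime_iff_not_dvd hp).mpr hpf
    have h1 : ArithmeticFunction.moebius (p * f) = -ArithmeticFunction.moebius f := by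
      rw [ArithmeticFunction.isMultiplicative_moebius.map_mul_of_coprime hcop,
        ArithmeticFunction.moebius_apply_prime hp]
      ring
    have hiff : (∀ q ∈ S, ¬ q ∣ p * f) ↔ ∀ q ∈ insert p S, ¬ q ∣ f := by
      constructor
      · intro h q hq hqf
        rcases mem_insert.mp hq with rfl | hq
        · exact hpf hqf
        · exact h q hq (Dvd.dvd.mul_left hqf p)
      · intro h q hq hqf
        rcases (hS q hq).dvd_mul.mp hqf with h2 | h2
        · have h3 := (Nat.prime_dvd_prime_iff_eq (hS q hq) hp).mp h2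
          exact hpS (h3 ▸ hq)
        · exact h q (mem_insert_of_mem hq) h2
    unfold KapS_G
    by_cases hc : ∀ q ∈ insert p S, ¬ q ∣ f
    · rw [if_pos (hiff.mpr hc), if_pos hc, h1]
      push_cast
      have hp0 : (p : ℝ) ≠ 0 := by exact_mod_cast hp.ne_zero
      by_cases hf : (f : ℝ) = 0
      · rw [hf]; simp
      · field_simp
    · rw [if_neg (fun h => hc (hiff.mp h)), if_neg hc, mul_zero]

private theorem KapS_step (S : Finset ℕ) (hS : ∀ q ∈ S, q.Prime) (p : ℕ) (hp : p.Prime)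
    (hpS : p ∉ S) :
    ∑' f, KapS_G S f = (1 - 1 / (p : ℝ) ^ 2) * ∑' f, KapS_G (insert p S) f := by
  classical
  have s1 := KapS_summable _ (KapS_le (insert p S))
  have s2 : Summable (fun f => if p ∣ f then KapS_G S f else 0) := by
    refine KapS_summable _ fun f => ?_
    split_ifs
    · exact KapS_le S f
    · rw [abs_zero]; positivity
  have e1 : ∀ f, KapS_G S f = KapS_G (insert p S) f + (if p ∣ f then KapS_G S f else 0) := by
    intro f
    by_cases hpf : p ∣ f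
    · rw [if_pos hpf]
      have h2 : KapS_G (insert p S) f = 0 := by
        unfold KapS_G
        rw [if_neg]
        intro h
        exact h p (mem_insert_self p S) hpf
      rw [h2, zero_add]
    · rw [if_neg hpf, add_zero]
      unfold KapS_G
      refine if_congr ?_ rfl rfl
      constructor
      · intro h q hq
        rcases mem_insert.mp hq with rfl | hq
        · exact hpf
        · exact h q hq
      · intro h q hq
        exact h q (mem_insert_of_mem hq)
  have e2 : ∑' f, (if p ∣ f then KapS_G S f else 0) =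
      -(1 / (p : ℝ) ^ 2) * ∑' f, KapS_G (insert p S) f := by
    have hinj : Function.Injective (fun f : ℕ => p * f) := fun a b h =>
      Nat.eq_of_mul_eq_mul_left hp.pos h
    rw [← hinj.tsum_eq (f := fun f => if p ∣ f then KapS_G S f else 0), ← tsum_mul_left]
    · refine tsum_congr fun f => ?_
      rw [if_pos (dvd_mul_right p f)]
      exact KapS_mul S hS p hp hpS f
    · intro f hf
      rw [Function.mem_support] at hf
      by_cases hpf : p ∣ f
      · obtain ⟨k, rfl⟩ := hpf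
        exact ⟨k, rfl⟩
      · rw [if_neg hpf] at hf
        exact absurd rfl hf
  rw [tsum_congr e1, s1.tsum_add s2, e2]
  ring

private theorem KapS_prod (S : Finset ℕ) : (∀ q ∈ S, q.Prime) →
    cMu * ∏ p ∈ S, (1 - 1 / (p : ℝ) ^ 2)⁻¹ = ∑' f, KapS_G S f := by
  induction S using Finset.induction_on with
  | empty =>
    intro _
    rw [prod_empty, mul_one, cMu]
    refine tsum_congr fun f => ?_
    unfold KapS_G
    rw [if_pos]
    intro q hq
    exact absurd hq (notMem_empty q)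
  | insert p S hpS ih =>
    intro hS
    have hp := hS p (mem_insert_self p S)
    have hS' : ∀ q ∈ S, q.Prime := fun q hq => hS q (mem_insert_of_mem hq)
    have hne : (1 - 1 / (p : ℝ) ^ 2) ≠ 0 := by
      have h1 : (1 : ℝ) < p := by exact_mod_cast hp.one_lt
      have h2 : (1 : ℝ) < (p : ℝ) ^ 2 := one_lt_pow₀ h1 (by norm_num)
      have h3 : 1 / (p : ℝ) ^ 2 < 1 := by rw [div_lt_one (by linarith)]; exact h2
      linarith
    rw [prod_insert hpS, mul_left_comm, ih hS', KapS_step S hS' p hp hpS, ← mul_assoc,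
      inv_mul_cancel₀ hne, one_mul]

private theorem KapS_cop (M : ℕ) (hM : 1 ≤ M) (f : ℕ) :
    f.Coprime M ↔ ∀ p ∈ M.primeFactors, ¬ p ∣ f := by
  constructor
  · intro h p hp hpf
    have h1 := Nat.prime_of_mem_primeFactors hp
    exact Nat.Prime.not_coprime_iff_dvd.2 ⟨p, h1, hpf, Nat.dvd_of_mem_primeFactors hp⟩ h
  · intro h
    by_contra hc
    obtain ⟨p, hp, h1, h2⟩ := Nat.Prime.not_coprime_iff_dvd.1 hc
    exact h p (Nat.mem_primeFactors.2 ⟨hp, h2, by omega⟩) h1

private theorem KapS_main (M : ℕ) : kapM M = ∑' f, KapS_G M.primeFactors f :=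
  KapS_prod _ fun _ h => Nat.prime_of_mem_primeFactors h

private theorem KapS_bd (S : Finset ℕ) (hS : 1 ∉ S) :
    (1 : ℝ) / 4 ≤ ∑' f, KapS_G S f ∧ ∑' f, KapS_G S f ≤ 2 := by
  have h1 := abs_le.mp (KapS_tail _ (KapS_le S) 2 (by norm_num))
  have e1 : Icc 1 2 = ({1, 2} : Finset ℕ) := rfl
  rw [e1, sum_pair (by norm_num)] at h1
  have e2 : KapS_G S 1 = 1 := by
    unfold KapS_G
    rw [if_pos]
    · simp
    · intro q hq hq1
      rw [Nat.dvd_one] at hq1
      exact hS (hq1 ▸ hq)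
  have e3 : KapS_G S 2 = 0 ∨ KapS_G S 2 = -(1 / 4) := by
    unfold KapS_G
    split_ifs
    · right
      rw [ArithmeticFunction.moebius_apply_prime Nat.prime_two]
      norm_num
    · left; rfl
  rw [e2] at h1
  push_cast at h1
  rcases e3 with h | h <;> rw [h] at h1 <;> constructor <;> linarith [h1.1, h1.2]

theorem cMu_bd : (1 : ℝ) / 4 ≤ cMu ∧ cMu ≤ 2 := by
  have h1 := KapS_prod ∅ (fun q hq => absurd hq (notMem_empty q))
  rw [prod_empty, mul_one] at h1
  rw [h1]
  exact KapS_bd ∅ (notMem_empty 1)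

theorem kapM_bd (M : ℕ) (hM : 1 ≤ M) : (1 : ℝ) / 4 ≤ kapM M ∧ kapM M ≤ 4 := by
  rw [KapS_main]
  have h1 := KapS_bd M.primeFactors (fun h => Nat.not_prime_one (Nat.prime_of_mem_primeFactors h))
  exact ⟨h1.1, by linarith [h1.2]⟩

theorem kapM_sum (M : ℕ) (hM : 1 ≤ M) (y : ℕ) (hy : 1 ≤ y) :
    |∑ f ∈ (Icc 1 y).filter (fun f => f.Coprime M), ((ArithmeticFunction.moebius f : ℤ) : ℝ) / (f : ℝ) ^ 2 - kapM M| ≤ 1 / y := by
  rw [KapS_main]
  have h1 := KapS_tail _ (KapS_le M.primeFactors) y hy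
  have e1 : ∑ f ∈ (Icc 1 y).filter (fun f => f.Coprime M),
      ((ArithmeticFunction.moebius f : ℤ) : ℝ) / (f : ℝ) ^ 2 =
      ∑ f ∈ Icc 1 y, KapS_G M.primeFactors f := by
    rw [sum_filter]
    refine sum_congr rfl fun f _ => ?_
    unfold KapS_G
    exact if_congr (KapS_cop M hM f) rfl rfl
  rw [e1]
  exact h1

end Pool.Agent.Lib.TE
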