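import Pool.Agent.Lib.MP_7b7e48_nt.TE.RsU
import Pool.Agent.Lib.MP_7b7e48_nt.TE.KapS
import Pool.Agent.Lib.MP_7b7e48_nt.OW.S8

/-!
# Module H2U (60 minutes): `h2 c` in residue classes modulo `W`, uniformly, with the explicit constant

This is `OW.h2_class` (module `OW/S8`) with `rs_unif` in place of `rs_class` and `kapM_sum` for the constant. PROOF. For `d` coprime to `M = W N`: `h2 c d = ∑_{f² ∣ d} μ(f) rs M c (d/f²)` (see `OW/S8.lean`, the private lemmas there can be copied). So the sum is `∑_{f ≤ √y, (f,M)=1} μ(f) ∑_{n ≤ y/f², n ≡ b f^(-2)} rs M c n`;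
`rs_unif`: main term `dd N W L y ∑_{f ≤ √y, (f,M)=1} μ(f)/f²` (the floor of `y/f²` costs `≤ dd |L| ≤ |L|` for each `f`), error `≤ ∑_f (√y/f) N^(31/100) ≤ √y (1 + log y) N^(31/100)`; `kapM_sum` with `⌊√y⌋`: `dd |L| y · 2/√y ≤ 2 √y |L|`, `|L| ≤ N^(1/100)`.
-/

set_option autoImplicit false

open Finset
open Pool.Agent.Lib.RG (RC LV rr PB)
open Pool.Agent.Lib.OW (rs dd h2 del S5_rr_mul S1_L_le)

namespace Pool.Agent.Lib.TE

private theorem H2U_h2_one (c : ℕ → ℝ) : h2 c 1 = 1 := by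
  unfold h2
  rw [if_pos, Nat.primeFactors_one, card_empty, pow_zero]
  intro q hq h
  exact absurd (Nat.dvd_one.mp h) hq.one_lt.ne'

private theorem H2U_h2_mul (c : ℕ → ℝ) {m n : ℕ} (h : m.Coprime n) :
    h2 c (m * n) = h2 c m * h2 c n := by
  unfold h2
  rw [h.primeFactors_mul, card_union_of_disjoint h.disjoint_primeFactors, pow_add]
  by_cases h1 : ∀ q : ℕ, q.Prime → q ∣ m → c q = 1
  · by_cases h3 : ∀ q : ℕ, q.Prime → q ∣ n → c q = 1
    · rw [if_pos h1, if_pos h3, if_pos]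
      intro q hq hd
      rcases hq.dvd_mul.mp hd with h4 | h4
      · exact h1 q hq h4
      · exact h3 q hq h4
    · rw [if_neg h3, mul_zero, if_neg]
      intro h4
      exact h3 fun q hq hd => h4 q hq (hd.mul_left m)
  · rw [if_neg h1, zero_mul, if_neg]
    intro h4
    exact h1 fun q hq hd => h4 q hq (hd.mul_right n)

private theorem H2U_h2_pow (c : ℕ → ℝ) {p : ℕ} (hp : p.Prime) (k : ℕ) :
    h2 c (p ^ (k + 1)) = if c p = 1 then 2 else 0 := by
  unfold h2
  rw [Nat.primeFactors_prime_pow (Nat.succ_ne_zero k) hp, card_singleton, pow_one]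
  by_cases h : c p = 1
  · rw [if_pos h, if_pos]
    intro q hq hd
    have := (Nat.prime_dvd_prime_iff_eq hq hp).mp (hq.dvd_of_dvd_pow hd)
    rw [this]
    exact h
  · rw [if_neg h, if_neg]
    intro h3
    exact h (h3 p hp (dvd_pow_self p (Nat.succ_ne_zero k)))

/-- `h2 c` as an arithmetic function -/
private noncomputable def H2U_H (c : ℕ → ℝ) : ArithmeticFunction ℝ :=
  ⟨fun n => if n = 0 then 0 else h2 c n, if_pos rfl⟩

private theorem H2U_H_apply (c : ℕ → ℝ) {n : ℕ} (hn : n ≠ 0) : H2U_H c n = h2 c n := if_neg hn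

private theorem H2U_H_mult (c : ℕ → ℝ) : (H2U_H c).IsMultiplicative := by
  rw [ArithmeticFunction.IsMultiplicative.iff_ne_zero]
  refine ⟨?_, fun {m n} hm hn h => ?_⟩
  · rw [H2U_H_apply c one_ne_zero, H2U_h2_one]
  · rw [H2U_H_apply c hm, H2U_H_apply c hn, H2U_H_apply c (mul_ne_zero hm hn), H2U_h2_mul c h]

/-- `rs M c` as an arithmetic function -/
private noncomputable def H2U_R (M : ℕ) (c : ℕ → ℝ) : ArithmeticFunction ℝ :=
  ⟨fun n => if n = 0 then 0 else rs M c n, if_pos rfl⟩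

private theorem H2U_R_apply (M : ℕ) (c : ℕ → ℝ) {n : ℕ} (hn : n ≠ 0) : H2U_R M c n = rs M c n := if_neg hn

private theorem H2U_rs_mul {M : ℕ} {c : ℕ → ℝ} (hc : RC M c) {m n : ℕ} (h : m.Coprime n) :
    rs M c (m * n) = rs M c m * rs M c n := by
  unfold rs
  by_cases h1 : m.Coprime M
  · by_cases h3 : n.Coprime M
    · rw [if_pos h1, if_pos h3, if_pos (Nat.Coprime.mul_left h1 h3), S5_rr_mul hc h]
    · rw [if_neg h3, mul_zero, if_neg]
      intro h4
      exact h3 (Nat.Coprime.coprime_mul_left h4)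
  · rw [if_neg h1, zero_mul, if_neg]
    intro h4
    exact h1 (Nat.Coprime.coprime_mul_right h4)

private theorem H2U_one {N : ℕ} {c : ℕ → ℝ} (hc : RC N c) : c 1 = 1 := by
  have h1 := hc.mul 1 1
  rw [mul_one] at h1
  rcases hc.val 1 (Nat.coprime_one_left N) with h | h
  · exact h
  · rw [h] at h1
    norm_num at h1

private theorem H2U_rs_one {M : ℕ} {c : ℕ → ℝ} (hc : RC M c) : rs M c 1 = 1 := by
  unfold rs rr
  rw [if_pos (Nat.coprime_one_left M), Nat.divisors_one, sum_singleton, H2U_one hc]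

private theorem H2U_R_mult {M : ℕ} {c : ℕ → ℝ} (hc : RC M c) : (H2U_R M c).IsMultiplicative := by
  rw [ArithmeticFunction.IsMultiplicative.iff_ne_zero]
  refine ⟨?_, fun {m n} hm hn h => ?_⟩
  · rw [H2U_R_apply M c one_ne_zero, H2U_rs_one hc]
  · rw [H2U_R_apply M c hm, H2U_R_apply M c hn, H2U_R_apply M c (mul_ne_zero hm hn), H2U_rs_mul hc h]

private theorem H2U_c_pow {M : ℕ} {c : ℕ → ℝ} (hc : RC M c) (p k : ℕ) : c (p ^ k) = c p ^ k := by
  induction k with
  | zero => rw [pow_zero, pow_zero]; exact H2U_one hc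
  | succ k ih => rw [pow_succ, hc.mul, ih, pow_succ]

private theorem H2U_rs_pow {M : ℕ} {c : ℕ → ℝ} (hc : RC M c) {p : ℕ} (hp : p.Prime) (hM : p.Coprime M) (k : ℕ) :
    rs M c (p ^ k) = ∑ j ∈ range (k + 1), c p ^ j := by
  unfold rs rr
  rw [if_pos (Nat.Coprime.pow_left k hM), Nat.divisors_prime_pow hp, sum_map]
  exact sum_congr rfl fun j _ => H2U_c_pow hc p j

open Classical in
/-- `μ` on the squares of the numbers coprime to `M` -/
private noncomputable def H2U_G (M : ℕ) : ArithmeticFunction ℝ :=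
  ⟨fun n => if n = 0 then 0 else if IsSquare n ∧ n.Coprime M then
    ((ArithmeticFunction.moebius (Nat.sqrt n) : ℤ) : ℝ) else 0, if_pos rfl⟩

open Classical in
private theorem H2U_G_apply (M : ℕ) {n : ℕ} (hn : n ≠ 0) : H2U_G M n = if IsSquare n ∧ n.Coprime M then
    ((ArithmeticFunction.moebius (Nat.sqrt n) : ℤ) : ℝ) else 0 := if_neg hn

private theorem H2U_G_sq (M : ℕ) {f : ℕ} (hf : f ≠ 0) (hM : f.Coprime M) :
    H2U_G M (f * f) = ((ArithmeticFunction.moebius f : ℤ) : ℝ) := by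
  rw [H2U_G_apply M (mul_ne_zero hf hf), if_pos ⟨⟨f, rfl⟩, Nat.Coprime.mul_left hM hM⟩, Nat.sqrt_eq]

private theorem H2U_G_not (M : ℕ) {n : ℕ} (h : ¬ (IsSquare n ∧ n.Coprime M)) : H2U_G M n = 0 := by
  by_cases hn : n = 0
  · rw [hn]; exact (H2U_G M).map_zero
  · rw [H2U_G_apply M hn, if_neg h]

private theorem H2U_sq_cop {m n : ℕ} (h : m.Coprime n) (hs : IsSquare (m * n)) : IsSquare m := by
  obtain ⟨r, hr⟩ := hs
  have h1 : IsUnit (gcd m n) := by
    have : gcd m n = 1 := h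
    rw [this]; exact isUnit_one
  obtain ⟨d, hd⟩ := exists_eq_pow_of_mul_eq_pow h1 (show m * n = r ^ 2 by rw [hr, sq])
  exact ⟨d, by rw [hd, sq]⟩

private theorem H2U_G_mult (M : ℕ) : (H2U_G M).IsMultiplicative := by
  rw [ArithmeticFunction.IsMultiplicative.iff_ne_zero]
  refine ⟨?_, fun {m n} hm hn h => ?_⟩
  · have := H2U_G_sq M one_ne_zero (Nat.coprime_one_left M)
    rw [mul_one] at this
    rw [this]; simp
  · by_cases h1 : IsSquare m ∧ m.Coprime M
    · by_cases h3 : IsSquare n ∧ n.Coprime M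
      · obtain ⟨⟨u, hu⟩, hmM⟩ := h1
        obtain ⟨⟨v, hv⟩, hnM⟩ := h3
        have hu0 : u ≠ 0 := by rintro rfl; exact hm (by rw [hu])
        have hv0 : v ≠ 0 := by rintro rfl; exact hn (by rw [hv])
        have huM : u.Coprime M := by rw [hu] at hmM; exact Nat.Coprime.coprime_mul_right hmM
        have hvM : v.Coprime M := by rw [hv] at hnM; exact Nat.Coprime.coprime_mul_right hnM
        have huv : u.Coprime v := by
          rw [hu, hv] at h
          exact Nat.Coprime.coprime_mul_right (Nat.Coprime.coprime_mul_right_right h)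
        rw [hu, hv, show u * u * (v * v) = (u * v) * (u * v) by ring,
          H2U_G_sq M (mul_ne_zero hu0 hv0) (Nat.Coprime.mul_left huM hvM), H2U_G_sq M hu0 huM,
          H2U_G_sq M hv0 hvM, ArithmeticFunction.isMultiplicative_moebius.map_mul_of_coprime huv]
        push_cast; ring
      · rw [H2U_G_not M h3, mul_zero]
        apply H2U_G_not
        rintro ⟨h4, h5⟩
        exact h3 ⟨H2U_sq_cop h.symm (by rwa [mul_comm]), Nat.Coprime.coprime_mul_left h5⟩
    · rw [H2U_G_not M h1, zero_mul]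
      apply H2U_G_not
      rintro ⟨h4, h5⟩
      exact h1 ⟨H2U_sq_cop h h4, Nat.Coprime.coprime_mul_right h5⟩

private theorem H2U_G_pow (M : ℕ) {p : ℕ} (hp : p.Prime) (hM : p.Coprime M) (j : ℕ) :
    H2U_G M (p ^ j) = if j = 0 then 1 else if j = 2 then -1 else 0 := by
  by_cases h0 : j = 0
  · rw [if_pos h0, h0, pow_zero]
    have := H2U_G_sq M one_ne_zero (Nat.coprime_one_left M)
    rw [mul_one] at this
    rw [this]; simp
  rw [if_neg h0]
  rcases Nat.even_or_odd' j with ⟨i, hi | hi⟩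
  · have hi0 : i ≠ 0 := by omega
    rw [hi, show p ^ (2 * i) = p ^ i * p ^ i by ring, H2U_G_sq M (pow_ne_zero _ hp.ne_zero)
      (Nat.Coprime.pow_left i hM), ArithmeticFunction.moebius_apply_prime_pow hp hi0]
    by_cases h1 : i = 1
    · rw [if_pos h1, if_pos (by omega)]; simp
    · rw [if_neg h1, if_neg (by omega)]; simp
  · rw [if_neg (by omega)]
    apply H2U_G_not
    rintro ⟨⟨r, hr⟩, -⟩
    have h3 : (p ^ j).factorization p = (r * r).factorization p := by rw [hr]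
    have hr0 : r ≠ 0 := by
      rintro rfl
      exact pow_ne_zero j hp.ne_zero (by rw [hr, Nat.mul_zero])
    rw [Nat.factorization_mul hr0 hr0, hp.factorization_pow] at h3
    simp at h3
    omega

private theorem H2U_conv_pow {M : ℕ} {c : ℕ → ℝ} (hc : RC M c) {p : ℕ} (hp : p.Prime) (k : ℕ) :
    H2U_H c (p ^ k) = (H2U_G M * H2U_R M c) (p ^ k) := by
  have hpk : ∀ j : ℕ, p ^ j ≠ 0 := fun j => pow_ne_zero j hp.ne_zero
  rw [ArithmeticFunction.mul_apply, Nat.sum_divisorsAntidiagonal (fun i j => H2U_G M i * H2U_R M c j),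
    Nat.divisors_prime_pow hp, sum_map]
  have e0 : ∑ j ∈ range (k + 1), H2U_G M ((⟨fun x => p ^ x, Nat.pow_right_injective hp.two_le⟩ : ℕ ↪ ℕ) j) *
      H2U_R M c (p ^ k / (⟨fun x => p ^ x, Nat.pow_right_injective hp.two_le⟩ : ℕ ↪ ℕ) j) =
      ∑ j ∈ range (k + 1), H2U_G M (p ^ j) * rs M c (p ^ (k - j)) := by
    refine sum_congr rfl fun j hj => ?_
    have hjk : j ≤ k := by rw [mem_range] at hj; omega
    change H2U_G M (p ^ j) * H2U_R M c (p ^ k / p ^ j) = _
    rw [Nat.pow_div hjk hp.pos, H2U_R_apply M c (hpk _)]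
  rw [e0, H2U_H_apply c (hpk k)]
  by_cases hM : p.Coprime M
  · -- c p = 1 or -1
    have e1 : ∀ k : ℕ, ∑ j ∈ range (k + 1), H2U_G M (p ^ j) * rs M c (p ^ (k - j)) =
        rs M c (p ^ k) - (if 2 ≤ k then rs M c (p ^ (k - 2)) else 0) := by
      intro k
      have h1 : ∀ j ∈ range (k + 1), H2U_G M (p ^ j) * rs M c (p ^ (k - j)) =
          (if j = 0 then rs M c (p ^ k) else 0) - (if j = 2 then rs M c (p ^ (k - 2)) else 0) := by
        intro j _
        rw [H2U_G_pow M hp hM]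
        by_cases h2 : j = 0
        · simp [h2]
        · by_cases h3 : j = 2
          · simp [h3]
          · simp [h2, h3]
      rw [sum_congr rfl h1, sum_sub_distrib, sum_ite_eq', sum_ite_eq', if_pos (by simp)]
      congr 1
      by_cases h : 2 ≤ k
      · rw [if_pos h, if_pos (by rw [mem_range]; omega)]
      · rw [if_neg h, if_neg (by rw [mem_range]; omega)]
    rw [e1]
    rcases k with _ | _ | k
    · rw [pow_zero, H2U_h2_one, H2U_rs_one hc]
      norm_num
    · rw [H2U_h2_pow c hp 0, H2U_rs_pow hc hp hM]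
      have h9 : ¬ (2 ≤ 0 + 1) := by norm_num
      rcases hc.val p hM with h | h
      · rw [h, if_pos rfl, if_neg h9]; norm_num [sum_range_succ]
      · rw [h, if_neg (by norm_num), if_neg h9]; norm_num [sum_range_succ]
    · have h9 : 2 ≤ k + 1 + 1 := by omega
      rw [H2U_h2_pow c hp (k + 1), H2U_rs_pow hc hp hM, if_pos h9, H2U_rs_pow hc hp hM,
        show k + 1 + 1 - 2 + 1 = k + 1 by omega, sum_range_succ, sum_range_succ]
      rcases hc.val p hM with h | h
      · rw [h, if_pos rfl]; simp only [one_pow]; ring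
      · rw [h, if_neg (by norm_num)]
        have h10 : (-1 : ℝ) ^ (k + 1 + 1) = - (-1 : ℝ) ^ (k + 1) := by rw [pow_succ]; ring
        rw [h10]; ring
  · have hcp : c p = 0 := hc.zero p hM
    have hnot : ∀ j : ℕ, j ≠ 0 → ¬ (p ^ j).Coprime M := by
      intro j hj h
      exact hM (Nat.Coprime.coprime_dvd_left (dvd_pow_self p hj) h)
    rcases k with _ | k
    · rw [pow_zero, H2U_h2_one, zero_add, sum_range_one, pow_zero]
      have := H2U_G_sq M one_ne_zero (Nat.coprime_one_left M)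
      rw [mul_one] at this
      rw [this, H2U_rs_one hc]; simp
    · rw [H2U_h2_pow c hp k, if_neg (by rw [hcp]; norm_num)]
      symm
      refine sum_eq_zero fun j _ => ?_
      by_cases hj : j = 0
      · rw [hj, Nat.sub_zero]
        have : rs M c (p ^ (k + 1)) = 0 := by
          unfold rs; rw [if_neg (hnot _ (Nat.succ_ne_zero k))]
        rw [this, mul_zero]
      · rw [H2U_G_not M (fun h => hnot j hj h.2), zero_mul]

private theorem H2U_conv {M : ℕ} {c : ℕ → ℝ} (hc : RC M c) : H2U_H c = H2U_G M * H2U_R M c :=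
  (ArithmeticFunction.IsMultiplicative.eq_iff_eq_on_prime_powers _ (H2U_H_mult c) _
    ((H2U_G_mult M).mul (H2U_R_mult hc))).2 fun p i hp => H2U_conv_pow hc hp i

/-- the identity, summed -/
private theorem H2U_sum {M : ℕ} {c : ℕ → ℝ} (hc : RC M c) (W b y : ℕ) :
    ∑ n ∈ (Finset.Icc 1 y).filter (fun n => n ≡ b [MOD W]), h2 c n =
      ∑ f ∈ (Finset.Icc 1 (Nat.sqrt y)).filter (fun f => f.Coprime M),
        ((ArithmeticFunction.moebius f : ℤ) : ℝ) *
          ∑ n ∈ (Finset.Icc 1 (y / (f * f))).filter (fun n => f * f * n ≡ b [MOD W]), rs M c n := by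
  classical
  have e1 : ∑ n ∈ (Finset.Icc 1 y).filter (fun n => n ≡ b [MOD W]), h2 c n =
      ∑ n ∈ Finset.Icc 1 y, ∑ x ∈ n.divisorsAntidiagonal,
        if n ≡ b [MOD W] then H2U_G M x.1 * H2U_R M c x.2 else 0 := by
    rw [sum_filter]
    refine sum_congr rfl fun n hn => ?_
    have hn0 : n ≠ 0 := by rw [Finset.mem_Icc] at hn; omega
    by_cases h : n ≡ b [MOD W]
    · rw [if_pos h, ← H2U_H_apply c hn0, H2U_conv hc, ArithmeticFunction.mul_apply]
      exact sum_congr rfl fun x _ => (if_pos h).symm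
    · rw [if_neg h]
      exact (sum_eq_zero fun x _ => if_neg h).symm
  rw [e1, sum_sigma']
  have e2 : ∑ f ∈ (Finset.Icc 1 (Nat.sqrt y)).filter (fun f => f.Coprime M),
        ((ArithmeticFunction.moebius f : ℤ) : ℝ) *
          ∑ n ∈ (Finset.Icc 1 (y / (f * f))).filter (fun n => f * f * n ≡ b [MOD W]), rs M c n =
      ∑ z ∈ ((Finset.Icc 1 (Nat.sqrt y)).filter (fun f => f.Coprime M)).sigma
          (fun f => (Finset.Icc 1 (y / (f * f))).filter (fun n => f * f * n ≡ b [MOD W])),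
        ((ArithmeticFunction.moebius z.1 : ℤ) : ℝ) * rs M c z.2 := by
    rw [sum_sigma]
    exact sum_congr rfl fun f _ => by rw [mul_sum]
  rw [e2]
  symm
  refine sum_of_injOn (fun z => (⟨z.1 * z.1 * z.2, (z.1 * z.1, z.2)⟩ : (_ : ℕ) × (ℕ × ℕ))) ?_ ?_ ?_ ?_
  · rintro ⟨f, v⟩ _ ⟨f', v'⟩ _ h
    simp only [Sigma.mk.injEq, heq_eq_eq, Prod.mk.injEq] at h
    obtain ⟨-, h1, h3⟩ := h
    have h4 : f = f' := Nat.mul_self_inj.1 h1
    subst h4; subst h3; rfl
  · rintro ⟨f, v⟩ hz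
    simp only [coe_sigma, Set.mem_sigma_iff, mem_coe, mem_filter, Finset.mem_Icc] at hz
    obtain ⟨⟨⟨hf1, hf2⟩, hfM⟩, ⟨hv1, hv2⟩, hmod⟩ := hz
    have hff : 0 < f * f := Nat.mul_pos (by omega) (by omega)
    simp only [coe_sigma, Set.mem_sigma_iff, mem_coe, Finset.mem_Icc, Nat.mem_divisorsAntidiagonal]
    have h1 : f * f * v ≤ y := by
      rw [Nat.le_div_iff_mul_le hff] at hv2
      rw [mul_comm]; exact hv2
    have h2 : 0 < f * f * v := Nat.mul_pos hff (by omega)
    exact ⟨⟨h2, h1⟩, trivial, by omega⟩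
  · rintro ⟨n, u, v⟩ hz hnot
    simp only [mem_sigma, Finset.mem_Icc, Nat.mem_divisorsAntidiagonal] at hz
    obtain ⟨⟨hn1, hn2⟩, huv, hn0⟩ := hz
    by_cases h : n ≡ b [MOD W]
    · rw [if_pos h]
      by_cases hG : IsSquare u ∧ u.Coprime M
      · exfalso
        obtain ⟨⟨f, hf⟩, huM⟩ := hG
        apply hnot
        have hu0 : u ≠ 0 := by rintro rfl; exact hn0 (by rw [← huv, zero_mul])
        have hv0 : v ≠ 0 := by rintro rfl; exact hn0 (by rw [← huv, mul_zero])
        have hf0 : 0 < f := by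
          rcases Nat.eq_zero_or_pos f with h0 | h0
          · exact absurd (by rw [hf, h0]) hu0
          · exact h0
        have hfy : f * f ≤ y := by
          rw [← hf]; exact (Nat.le_mul_of_pos_right u (Nat.pos_of_ne_zero hv0)).trans (huv ▸ hn2)
        refine ⟨⟨f, v⟩, ?_, ?_⟩
        · simp only [coe_sigma, Set.mem_sigma_iff, mem_coe, mem_filter, Finset.mem_Icc]
          refine ⟨⟨⟨hf0, Nat.le_sqrt.2 hfy⟩, ?_⟩, ⟨Nat.pos_of_ne_zero hv0, ?_⟩, ?_⟩
          · rw [hf] at huM; exact Nat.Coprime.coprime_mul_right huM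
          · rw [Nat.le_div_iff_mul_le (Nat.mul_pos hf0 hf0), mul_comm, ← hf, huv]; exact hn2
          · rw [← hf, huv]; exact h
        · simp only [Sigma.mk.injEq, heq_eq_eq, Prod.mk.injEq]
          exact ⟨by rw [← hf, huv], hf.symm, trivial⟩
      · rw [H2U_G_not M hG, zero_mul]
    · rw [if_neg h]
  · rintro ⟨f, v⟩ hz
    simp only [mem_sigma, mem_filter, Finset.mem_Icc] at hz
    obtain ⟨⟨⟨hf1, hf2⟩, hfM⟩, ⟨hv1, hv2⟩, hmod⟩ := hz
    simp only
    rw [if_pos hmod, H2U_G_sq M (by omega) hfM, H2U_R_apply M c (by omega)]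

private theorem H2U_harm (n : ℕ) : ∑ a ∈ Finset.Icc 1 n, (1 : ℝ) / a ≤ 1 + Real.log n := by
  have h := harmonic_le_one_add_log n
  rw [harmonic_eq_sum_Icc] at h
  push_cast at h
  refine le_trans (le_of_eq ?_) h
  exact Finset.sum_congr rfl fun a _ => one_div _

/-- `∑_{s < f ≤ n} 1/f² ≤ 1/s` -/
private theorem H2U_tail (s : ℕ) (hs : 1 ≤ s) (n : ℕ) :
    ∑ f ∈ Finset.Ioc s n, (1 : ℝ) / ((f : ℝ) * f) ≤ 1 / s := by
  have key : ∀ n : ℕ, s ≤ n → ∑ f ∈ Finset.Ioc s n, (1 : ℝ) / ((f : ℝ) * f) ≤ 1 / s - 1 / n := by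
    intro n hn
    induction n, hn using Nat.le_induction with
    | base => simp
    | succ n hn ih =>
      rw [Finset.sum_Ioc_succ_top (by omega)]
      have hn0 : (0 : ℝ) < n := by exact_mod_cast (by omega : 0 < n)
      have h1 : (1 : ℝ) / (((n + 1 : ℕ) : ℝ) * ((n + 1 : ℕ) : ℝ)) ≤ 1 / n - 1 / ((n + 1 : ℕ) : ℝ) := by
        push_cast
        rw [div_sub_div _ _ hn0.ne' (by positivity), div_le_div_iff₀ (by positivity) (by positivity)]
        nlinarith
      linarith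
  rcases le_or_gt s n with h | h
  · refine (key n h).trans ?_
    have : (0 : ℝ) ≤ 1 / n := by positivity
    linarith
  · rw [Finset.Ioc_eq_empty (by omega), sum_empty]; positivity

private theorem H2U_inv {W d b : ℕ} (hW : W ≠ 0) (hd : d.Coprime W) (hb : b.Coprime W) :
    ∃ b' : ℕ, b'.Coprime W ∧ ∀ e : ℕ, d * e ≡ b [MOD W] ↔ e ≡ b' [MOD W] := by
  have : NeZero W := ⟨hW⟩
  set a' : ℕ := (((d : ZMod W))⁻¹ * (b : ZMod W)).val with ha'
  have e1 : d * a' ≡ b [MOD W] := by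
    rw [← ZMod.natCast_eq_natCast_iff]
    push_cast
    rw [ha', ZMod.natCast_val, ZMod.cast_id', id, ← mul_assoc, ZMod.coe_mul_inv_eq_one d hd, one_mul]
  have e2 : (d * a').Coprime W := by
    have := e1.gcd_eq
    rw [Nat.Coprime, this]
    exact hb
  refine ⟨a', Nat.Coprime.coprime_mul_left e2, fun e => ⟨fun h => ?_, fun h => ?_⟩⟩
  · exact Nat.ModEq.cancel_left_of_coprime (by rw [Nat.gcd_comm]; exact hd) (h.trans e1.symm)
  · exact (Nat.ModEq.mul_left d h).trans e1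

private theorem H2U_dd_le {N W : ℕ} (hN : N ≠ 0) (hW : W ≠ 0) : 0 ≤ dd N W ∧ dd N W ≤ 1 := by
  have h0 : 0 ≤ dd N W := by unfold dd del; positivity
  refine ⟨h0, ?_⟩
  unfold dd del
  have h1 : (1 : ℝ) ≤ W.totient := by
    have : 1 ≤ W.totient := Nat.totient_pos.2 (Nat.pos_of_ne_zero hW)
    exact_mod_cast this
  have h2 : ((W * N).totient : ℝ) / ((W * N : ℕ) : ℝ) ≤ 1 := by
    apply div_le_one_of_le₀ _ (Nat.cast_nonneg _)
    exact_mod_cast Nat.totient_le _
  rw [div_le_one (by linarith)]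
  linarith

private theorem H2U_mu (f : ℕ) : |((ArithmeticFunction.moebius f : ℤ) : ℝ)| ≤ 1 := by
  exact_mod_cast ArithmeticFunction.abs_moebius_le_one (n := f)

open Classical in
theorem h2_unif : ∃ N0 : ℕ, ∀ N : ℕ, N0 ≤ N → ∀ W : ℕ, 1 ≤ W → (W : ℝ) ≤ (N : ℝ) ^ ((1 : ℝ) / 600) →
    ∀ (c : ℕ → ℝ) (L : ℝ), RC (W * N) c → LV (W * N) c L →
    (∀ a y : ℕ, |∑ n ∈ (range y).filter (fun n => n ≡ a [MOD W]), c n| ≤ PB (W * N)) →
    ∀ b y : ℕ, b.Coprime W → 1 ≤ y → (y : ℝ) ≤ (N : ℝ) ^ 2 →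
    |∑ n ∈ (Finset.Icc 1 y).filter (fun n => n ≡ b [MOD W]), h2 c n - kapM (W * N) * dd N W * L * y| ≤
      Real.sqrt y * (N : ℝ) ^ ((33 : ℝ) / 100) := by
  obtain ⟨N1, H1⟩ := rs_unif
  obtain ⟨C1, hC1, hP⟩ := Pool.Agent.Lib.RG.PB_le (1 / 100) (by norm_num)
  have e1 := Pool.Agent.Lib.RH.ev_log_ge 1
  have e2 := Pool.Agent.Lib.RH.ev_log_pow 1 (1 / 100) (by norm_num)
    (2 + 3 * (3 + 2 * C1)) (by positivity)
  obtain ⟨N2, hN2⟩ := Filter.eventually_atTop.mp (e1.and (e2.and (Filter.eventually_ge_atTop 2)))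
  refine ⟨max N1 N2, fun N hN W hW hWN c L hc hL hpv b y hb hy hyN => ?_⟩
  have HN1 := H1 N (le_trans (le_max_left _ _) hN) W hW hWN c L hc hL hpv
  obtain ⟨h1, h2, h4⟩ := hN2 N (le_trans (le_max_right _ _) hN)
  rw [pow_one] at h2
  have hWr1 : (1 : ℝ) ≤ W := by exact_mod_cast hW
  have hlW : 0 ≤ Real.log W := Real.log_nonneg hWr1
  have hN1 : (1 : ℝ) ≤ N := by exact_mod_cast (by omega : 1 ≤ N)
  have hNp : (0 : ℝ) < N := by linarith
  have hN' : N ≠ 0 := by omega
  have hW' : W ≠ 0 := by omega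
  have hM2 : 2 ≤ W * N := le_trans h4 (Nat.le_mul_of_pos_left N hW)
  have hMr : ((W * N : ℕ) : ℝ) = W * N := by push_cast; rfl
  obtain ⟨hPB, -⟩ := hP (W * N) hM2
  obtain ⟨hdd0, hdd1⟩ := H2U_dd_le hN' hW'
  have hL0 : 0 ≤ L := hL.1
  -- the bound for `L`
  have hM1 : (1 : ℝ) ≤ ((W * N : ℕ) : ℝ) := by exact_mod_cast (by omega : 1 ≤ W * N)
  have hlWN : Real.log W ≤ Real.log N := by
    refine Real.log_le_log (by linarith) (hWN.trans ?_)
    calc (N : ℝ) ^ ((1 : ℝ) / 600) ≤ (N : ℝ) ^ (1 : ℝ) :=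
          Real.rpow_le_rpow_of_exponent_le hN1 (by norm_num)
      _ = N := Real.rpow_one _
  have hLb : L ≤ (3 + 2 * C1) * Real.log N := by
    have h5 := S1_L_le hM2 hc hL
    have h6 : 2 * PB (W * N) / ((W * N : ℕ) : ℝ) ≤ 2 * C1 := by
      rw [div_le_iff₀ (by linarith)]
      have h7 : ((W * N : ℕ) : ℝ) ^ ((1 : ℝ) / 2 + 1 / 100) ≤ ((W * N : ℕ) : ℝ) := by
        have := Real.rpow_le_rpow_of_exponent_le hM1 (show (1 : ℝ) / 2 + 1 / 100 ≤ 1 by norm_num)
        rwa [Real.rpow_one] at this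
      have h8 : C1 * ((W * N : ℕ) : ℝ) ^ ((1 : ℝ) / 2 + 1 / 100) ≤ C1 * ((W * N : ℕ) : ℝ) :=
        mul_le_mul_of_nonneg_left h7 hC1.le
      linarith
    have h7 : Real.log ((W * N : ℕ) : ℝ) = Real.log W + Real.log N := by
      rw [hMr, Real.log_mul (by linarith) (by linarith)]
    rw [h7] at h5
    have h9 : 0 ≤ C1 * (Real.log N - 1) := mul_nonneg hC1.le (by linarith)
    nlinarith
  let g : ℕ → ℝ := fun f => if f.Coprime (W * N) then ((ArithmeticFunction.moebius f : ℤ) : ℝ) / ((f : ℝ) * f) else 0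
  have hy1 : (1 : ℝ) ≤ y := by exact_mod_cast hy
  have hyp : (0 : ℝ) < y := by linarith
  set s := Nat.sqrt y with hs
  have hs1 : 1 ≤ s := by rw [hs, Nat.le_sqrt]; omega
  have hs1r : (1 : ℝ) ≤ s := by exact_mod_cast hs1
  have hsq : (s : ℝ) ≤ Real.sqrt y := by
    rw [hs]; exact Real.nat_sqrt_le_real_sqrt
  have hsq2 : Real.sqrt y < s + 1 := by
    rw [hs]; exact Real.real_sqrt_lt_nat_sqrt_succ
  have hsN : s ≤ N := by
    have : (s : ℝ) ≤ N := by
      refine hsq.trans ?_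
      rw [Real.sqrt_le_left hNp.le]; exact hyN
    exact_mod_cast this
  rw [H2U_sum hc W b y]
  -- each `f`
  have hterm : ∀ f ∈ (Finset.Icc 1 s).filter (fun f => f.Coprime (W * N)),
      |((ArithmeticFunction.moebius f : ℤ) : ℝ) *
          ∑ n ∈ (Finset.Icc 1 (y / (f * f))).filter (fun n => f * f * n ≡ b [MOD W]), rs (W * N) c n -
        g f * (dd N W * L * y)| ≤ Real.sqrt y * (N : ℝ) ^ ((31 : ℝ) / 100) * (1 / f) + L := by
    intro f hf
    rw [mem_filter, Finset.mem_Icc] at hf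
    obtain ⟨⟨hf1, hf2⟩, hfM⟩ := hf
    have hf0 : (0 : ℝ) < f := by exact_mod_cast hf1
    have hff : 0 < f * f := Nat.mul_pos hf1 hf1
    have hffy : f * f ≤ y := by rw [hs] at hf2; exact Nat.le_sqrt.1 hf2
    have hfW : (f * f).Coprime W :=
      Nat.Coprime.mul_left (Nat.Coprime.coprime_mul_right_right hfM) (Nat.Coprime.coprime_mul_right_right hfM)
    obtain ⟨b', hb', hbb⟩ := H2U_inv hW' hfW hb
    have hq1 : 1 ≤ y / (f * f) := (Nat.one_le_div_iff hff).2 hffy
    have hq2 : ((y / (f * f) : ℕ) : ℝ) ≤ (N : ℝ) ^ 2 := by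
      refine le_trans ?_ hyN
      exact_mod_cast Nat.div_le_self y (f * f)
    have h5 := HN1 b' (y / (f * f)) hb' hq1 hq2
    have h6 : (Finset.Icc 1 (y / (f * f))).filter (fun n => f * f * n ≡ b [MOD W]) =
        (Finset.Icc 1 (y / (f * f))).filter (fun n => n ≡ b' [MOD W]) :=
      filter_congr fun n _ => hbb n
    rw [h6]
    set T := ∑ n ∈ (Finset.Icc 1 (y / (f * f))).filter (fun n => n ≡ b' [MOD W]), rs (W * N) c n
    have hgf : g f = ((ArithmeticFunction.moebius f : ℤ) : ℝ) / ((f : ℝ) * f) := if_pos hfM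
    have h7 : ((ArithmeticFunction.moebius f : ℤ) : ℝ) * T - g f * (dd N W * L * y) =
        ((ArithmeticFunction.moebius f : ℤ) : ℝ) * ((T - dd N W * L * ((y / (f * f) : ℕ) : ℝ)) -
          dd N W * L * ((y : ℝ) / ((f : ℝ) * f) - ((y / (f * f) : ℕ) : ℝ))) := by
      rw [hgf]; ring
    have h8 : ((y / (f * f) : ℕ) : ℝ) ≤ (y : ℝ) / ((f : ℝ) * f) := by
      have := @Nat.cast_div_le ℝ _ _ _ y (f * f)
      push_cast at this; exact this
    have h9 : (y : ℝ) / ((f : ℝ) * f) < ((y / (f * f) : ℕ) : ℝ) + 1 := by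
      rw [div_lt_iff₀ (by positivity)]
      have h10 : y < (y / (f * f) + 1) * (f * f) := by
        have := Nat.lt_div_mul_add (a := y) hff
        rw [add_mul, one_mul]; exact this
      exact_mod_cast h10
    have h10 : Real.sqrt ((y / (f * f) : ℕ) : ℝ) ≤ Real.sqrt y * (1 / f) := by
      refine (Real.sqrt_le_sqrt h8).trans (le_of_eq ?_)
      rw [Real.sqrt_div hyp.le, Real.sqrt_mul_self hf0.le]
      ring
    rw [h7, abs_mul]
    have h11 : |(T - dd N W * L * ((y / (f * f) : ℕ) : ℝ)) -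
          dd N W * L * ((y : ℝ) / ((f : ℝ) * f) - ((y / (f * f) : ℕ) : ℝ))| ≤
        Real.sqrt y * (N : ℝ) ^ ((31 : ℝ) / 100) * (1 / f) + L := by
      refine (abs_sub _ _).trans (add_le_add ?_ ?_)
      · refine h5.trans ?_
        calc Real.sqrt ((y / (f * f) : ℕ) : ℝ) * (N : ℝ) ^ ((31 : ℝ) / 100) ≤
            (Real.sqrt y * (1 / f)) * (N : ℝ) ^ ((31 : ℝ) / 100) :=
              mul_le_mul_of_nonneg_right h10 (Real.rpow_nonneg hNp.le _)
          _ = _ := by ring
      · rw [abs_mul, abs_mul, abs_of_nonneg hdd0, abs_of_nonneg hL0, abs_of_nonneg (by linarith)]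
        have h12 : dd N W * L ≤ L := by nlinarith
        have h13 : 0 ≤ dd N W * L := mul_nonneg hdd0 hL0
        nlinarith
    calc |((ArithmeticFunction.moebius f : ℤ) : ℝ)| * _ ≤ 1 * (Real.sqrt y * (N : ℝ) ^ ((31 : ℝ) / 100) * (1 / f) + L) :=
          mul_le_mul (H2U_mu f) h11 (abs_nonneg _) zero_le_one
      _ = _ := one_mul _
  have hmain : |∑ f ∈ (Finset.Icc 1 s).filter (fun f => f.Coprime (W * N)), ((ArithmeticFunction.moebius f : ℤ) : ℝ) *
          ∑ n ∈ (Finset.Icc 1 (y / (f * f))).filter (fun n => f * f * n ≡ b [MOD W]), rs (W * N) c n -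
        (∑ f ∈ (Finset.Icc 1 s).filter (fun f => f.Coprime (W * N)), g f) * (dd N W * L * y)| ≤
      Real.sqrt y * (N : ℝ) ^ ((31 : ℝ) / 100) * (1 + Real.log s) + L * s := by
    rw [sum_mul, ← sum_sub_distrib]
    refine (abs_sum_le_sum_abs _ _).trans ((sum_le_sum hterm).trans ?_)
    refine (sum_le_sum_of_subset_of_nonneg (filter_subset _ _) fun f _ _ => by positivity).trans ?_
    rw [sum_add_distrib, ← mul_sum, sum_const, Nat.card_Icc, Nat.add_sub_cancel, nsmul_eq_mul]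
    have := H2U_harm s
    have h6 : 0 ≤ Real.sqrt y * (N : ℝ) ^ ((31 : ℝ) / 100) := by positivity
    have h7 := mul_le_mul_of_nonneg_left this h6
    linarith
  -- the constant
  have hBk : |∑ f ∈ (Finset.Icc 1 s).filter (fun f => f.Coprime (W * N)), g f - kapM (W * N)| ≤ 1 / s := by
    have h5 := kapM_sum (W * N) (by omega) s hs1
    refine le_trans (le_of_eq ?_) h5
    have h6 : ∑ f ∈ (Finset.Icc 1 s).filter (fun f => f.Coprime (W * N)), g f =
        ∑ f ∈ (Finset.Icc 1 s).filter (fun f => f.Coprime (W * N)),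
          ((ArithmeticFunction.moebius f : ℤ) : ℝ) / (f : ℝ) ^ 2 := by
      refine sum_congr rfl fun f hf => ?_
      rw [mem_filter] at hf
      show (if f.Coprime (W * N) then ((ArithmeticFunction.moebius f : ℤ) : ℝ) / ((f : ℝ) * f) else 0) = _
      rw [if_pos hf.2, sq]
    rw [h6]
  set A := ∑ f ∈ (Finset.Icc 1 s).filter (fun f => f.Coprime (W * N)), ((ArithmeticFunction.moebius f : ℤ) : ℝ) *
          ∑ n ∈ (Finset.Icc 1 (y / (f * f))).filter (fun n => f * f * n ≡ b [MOD W]), rs (W * N) c n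
  set B := ∑ f ∈ (Finset.Icc 1 s).filter (fun f => f.Coprime (W * N)), g f
  have htail : |(B - kapM (W * N)) * (dd N W * L * y)| ≤ 2 * L * Real.sqrt y := by
    rw [abs_mul, abs_of_nonneg (show 0 ≤ dd N W * L * y by positivity)]
    have h6 : dd N W * L * y ≤ L * y := by
      have : dd N W * L ≤ L := by nlinarith
      exact mul_le_mul_of_nonneg_right this hyp.le
    have h7 : (y : ℝ) = Real.sqrt y * Real.sqrt y := (Real.mul_self_sqrt hyp.le).symm
    have h8 : Real.sqrt y ≤ 2 * s := by linarith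
    calc |B - kapM (W * N)| * (dd N W * L * y) ≤ (1 / s) * (L * y) :=
          mul_le_mul hBk h6 (by positivity) (by positivity)
      _ = L * Real.sqrt y * (Real.sqrt y / s) := by
          nth_rewrite 1 [h7]; ring
      _ ≤ L * Real.sqrt y * 2 := by
          apply mul_le_mul_of_nonneg_left _ (by positivity)
          rw [div_le_iff₀ (by linarith)]; exact h8
      _ = 2 * L * Real.sqrt y := by ring
  have h5 : A - kapM (W * N) * dd N W * L * y =
      (A - B * (dd N W * L * y)) + (B - kapM (W * N)) * (dd N W * L * y) := by ring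
  rw [h5]
  refine (abs_add_le _ _).trans ((add_le_add hmain htail).trans ?_)
  -- numbers
  have hlogs : Real.log s ≤ Real.log N := Real.log_le_log (by linarith) (by exact_mod_cast hsN)
  have hpow : (N : ℝ) ^ ((31 : ℝ) / 100) * (N : ℝ) ^ ((1 : ℝ) / 100) ≤ (N : ℝ) ^ ((33 : ℝ) / 100) := by
    rw [← Real.rpow_add hNp]
    exact Real.rpow_le_rpow_of_exponent_le hN1 (by norm_num)
  have ht1 : 1 ≤ (N : ℝ) ^ ((31 : ℝ) / 100) := Real.one_le_rpow hN1 (by norm_num)
  have hsy : 0 ≤ Real.sqrt y := Real.sqrt_nonneg _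
  set t := (N : ℝ) ^ ((31 : ℝ) / 100) with ht
  have h6 : Real.sqrt y * t * (1 + Real.log s) + L * s + 2 * L * Real.sqrt y ≤
      Real.sqrt y * (t * ((1 + Real.log N) + 3 * L)) := by
    have h7 : L * s ≤ L * Real.sqrt y := mul_le_mul_of_nonneg_left hsq hL0
    have h8 : Real.sqrt y * t * Real.log s ≤ Real.sqrt y * t * Real.log N :=
      mul_le_mul_of_nonneg_left hlogs (by positivity)
    have h9 : L * Real.sqrt y ≤ L * Real.sqrt y * t := le_mul_of_one_le_right (by positivity) ht1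
    nlinarith
  refine h6.trans (mul_le_mul_of_nonneg_left ?_ hsy)
  refine le_trans (mul_le_mul_of_nonneg_left (a := t) (c := (N : ℝ) ^ ((1 : ℝ) / 100)) ?_ (by linarith)) hpow
  refine le_trans ?_ h2
  nlinarith

end Pool.Agent.Lib.TE
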