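import Pool.Agent.Lib.MP_7b7e48_nt.TE.Defs

/-!
# Module HA (40 minutes): `χ(n) χ(N - n)` depends only on `n` modulo `Wf`

PROOF. In `ZMod (Wf N)`: `n (N - n) n0² - n0 (N - n0) n² = n n0 N (n0 - n) = 0` since `Wf ∣ n0 - n` (casts of `N - n` are differences as `n ≤ N`). Apply `χ`: `χ(n) χ(N-n) χ(n0)² = χ(n0) χ(N-n0) χ(n)²`, and `χ(n)² = χ(n0)² = 1` for units (`χ² = 1`).
The second statement is about the real parts (`χ² = 1`: all values are real: `RG` has `a2_re` or use `RC_char`-type lemmas: `(χ n : ℂ) = ((χ n).re : ℂ)`).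
-/

set_option autoImplicit false

open Finset

namespace Pool.Agent.Lib.TE

private theorem HA_sq {M : ℕ} (χ : DirichletCharacter ℂ M) (hχ : χ ^ 2 = 1) (a : ZMod M) : χ a ^ 2 = (1 : DirichletCharacter ℂ M) a := by
  rw [← hχ, MulChar.pow_apply' χ two_ne_zero]

private theorem HA_im {M : ℕ} (χ : DirichletCharacter ℂ M) (hχ : χ ^ 2 = 1) (a : ZMod M) : (χ a).im = 0 := by
  by_cases ha : IsUnit a
  · have h := HA_sq χ hχ a
    rw [MulChar.one_apply ha] at h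
    rcases sq_eq_one_iff.1 h with h' | h'
    · rw [h', Complex.one_im]
    · rw [h', Complex.neg_im, Complex.one_im, neg_zero]
  · rw [MulChar.map_nonunit χ ha, Complex.zero_im]

theorem eps_dep (Wf N : ℕ) [NeZero (Wf * N)] (χ : DirichletCharacter ℂ (Wf * N)) (hχ : χ ^ 2 = 1) {n n0 : ℕ}
    (hn : n ≤ N) (hn0 : n0 ≤ N) (h : n ≡ n0 [MOD Wf]) (c : n.Coprime (Wf * N)) (c0 : n0.Coprime (Wf * N)) :
    χ (n : ZMod (Wf * N)) * χ ((N - n : ℕ) : ZMod (Wf * N)) = χ (n0 : ZMod (Wf * N)) * χ ((N - n0 : ℕ) : ZMod (Wf * N)) := by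
  have h1 : (N : ZMod (Wf * N)) * ((n0 : ZMod (Wf * N)) - n) = 0 := by
    obtain ⟨q, hq⟩ := (Nat.modEq_iff_dvd.1 h)
    have h2 : ((n0 : ZMod (Wf * N)) - n) = ((((n0 : ℤ) - n : ℤ)) : ZMod (Wf * N)) := by push_cast; ring
    rw [h2, hq]
    have h3 : ((Wf * N : ℕ) : ZMod (Wf * N)) = 0 := ZMod.natCast_self _
    push_cast at h3 ⊢
    calc (N : ZMod (Wf * N)) * (Wf * q) = (Wf * N) * q := by ring
      _ = 0 := by rw [h3, zero_mul]
  have h4 : ((n : ZMod (Wf * N)) * ((N - n : ℕ) : ZMod (Wf * N))) * ((n0 : ZMod (Wf * N)) * n0) =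
      ((n0 : ZMod (Wf * N)) * ((N - n0 : ℕ) : ZMod (Wf * N))) * ((n : ZMod (Wf * N)) * n) := by
    rw [Nat.cast_sub hn, Nat.cast_sub hn0]
    have h5 : (n : ZMod (Wf * N)) * (N - n) * (n0 * n0) - n0 * (N - n0) * (n * n) = n * n0 * (N * (n0 - n)) := by ring
    rw [h1, mul_zero] at h5
    exact sub_eq_zero.1 h5
  have hu : IsUnit (n : ZMod (Wf * N)) := (ZMod.isUnit_iff_coprime n (Wf * N)).2 c
  have hu0 : IsUnit (n0 : ZMod (Wf * N)) := (ZMod.isUnit_iff_coprime n0 (Wf * N)).2 c0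
  have h6 := HA_sq χ hχ (n : ZMod (Wf * N))
  have h7 := HA_sq χ hχ (n0 : ZMod (Wf * N))
  rw [MulChar.one_apply hu] at h6
  rw [MulChar.one_apply hu0] at h7
  have h8 := congrArg χ h4
  simp only [map_mul] at h8
  rw [← pow_two, ← pow_two, h6, h7, mul_one, mul_one] at h8
  exact h8

theorem eps_dep_re (Wf N : ℕ) [NeZero (Wf * N)] (χ : DirichletCharacter ℂ (Wf * N)) (hχ : χ ^ 2 = 1) {n n0 : ℕ}
    (hn : n ≤ N) (hn0 : n0 ≤ N) (h : n ≡ n0 [MOD Wf]) (c : n.Coprime (Wf * N)) (c0 : n0.Coprime (Wf * N)) :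
    (χ (n : ZMod (Wf * N))).re * (χ ((N - n : ℕ) : ZMod (Wf * N))).re =
      (χ (n0 : ZMod (Wf * N))).re * (χ ((N - n0 : ℕ) : ZMod (Wf * N))).re := by
  have h1 := congrArg Complex.re (eps_dep Wf N χ hχ hn hn0 h c c0)
  rw [Complex.mul_re, Complex.mul_re, HA_im χ hχ (n : ZMod (Wf * N)), HA_im χ hχ (n0 : ZMod (Wf * N)), zero_mul, zero_mul, sub_zero,
    sub_zero] at h1
  exact h1

end Pool.Agent.Lib.TE
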