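import Pool.Agent.Lib.MP_7b7e48_nt.TE.Defs
import Pool.Agent.Lib.MP_7b7e48_nt.OW.S2

/-!
# Module HB: few numbers have a prime factor with `c = 1`
-/

set_option autoImplicit false

open Finset
open Pool.Agent.Lib.RG (RC LV)
open Pool.Agent.Lib.OW (QP rs SSs)

namespace Pool.Agent.Lib.TE

private theorem HB_rs {M : ℕ} {c : ℕ → ℝ} (hc : RC M c) {q : ℕ} (hq : q.Prime) (h1 : c q = 1) :
    1 ≤ rs M c q := by
  have hcop : q.Coprime M := by
    by_contra h
    have := hc.zero q h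
    rw [h1] at this
    exact one_ne_zero this
  have hone : c 1 = 1 := by
    have h2 := hc.mul 1 q
    rw [one_mul, h1, mul_one] at h2
    exact h2.symm
  unfold rs
  rw [if_pos hcop]
  unfold RG.rr
  rw [hq.sum_divisors, h1, hone]
  norm_num

private theorem HB_harm (N : ℕ) : ∑ k ∈ Icc 1 N, 1 / (k : ℝ) ≤ 1 + Real.log N := by
  have h2 := harmonic_le_one_add_log N
  rw [harmonic_eq_sum_Icc] at h2
  push_cast at h2
  simpa [one_div] using h2

open Classical in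
theorem few_Q (Wf : ℕ) (hW : 1 ≤ Wf) (CL : ℕ) : ∃ N0 : ℕ, ∀ N : ℕ, N0 ≤ N → ∀ (c : ℕ → ℝ) (L : ℝ), RC (Wf * N) c →
    LV (Wf * N) c L → ((Wf * N : ℕ) : ℝ) ^ (-(1 / 50) : ℝ) ≤ L → ∀ σ : ℝ, L ≤ (Real.log N) ^ CL * σ → ∀ w1 : ℕ,
    ∑ q ∈ (QP c ⌊(N : ℝ) ^ ((4 : ℝ) / 5)⌋₊).filter (fun q => w1 < q), 1 / (q : ℝ) ≤ σ →
    (((Icc 1 N).filter fun n => ∃ q : ℕ, q.Prime ∧ w1 < q ∧ c q = 1 ∧ q ∣ n).card : ℝ) ≤ (Real.log N) ^ (CL + 2) * σ * N := by
  obtain ⟨N1, hN1⟩ := Pool.Agent.Lib.OW.SSs_two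
  have e1 : ∀ᶠ N : ℕ in Filter.atTop, (3 : ℝ) ≤ Real.log N :=
    (Real.tendsto_log_atTop.comp tendsto_natCast_atTop_atTop).eventually (Filter.eventually_ge_atTop 3)
  have e2 : ∀ᶠ N : ℕ in Filter.atTop, (Wf : ℝ) ^ ((7 : ℝ) / 10) ≤ (N : ℝ) ^ ((1 : ℝ) / 10) :=
    ((tendsto_rpow_atTop (by norm_num : (0 : ℝ) < 1 / 10)).comp
      tendsto_natCast_atTop_atTop).eventually (Filter.eventually_ge_atTop _)
  obtain ⟨N0, hN0⟩ := Filter.eventually_atTop.mp (e1.and (e2.and (Filter.eventually_ge_atTop (max 2 N1))))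
  refine ⟨N0, fun N hN c L hc hL hLl σ hσ w1 hs => ?_⟩
  obtain ⟨hK, hWN, hN2⟩ := hN0 N hN
  have hNge : 2 ≤ N := (le_max_left _ _).trans hN2
  have hNN1 : N1 ≤ N := (le_max_right _ _).trans hN2
  have hNr : (0 : ℝ) < N := by exact_mod_cast (by omega : 0 < N)
  set M := Wf * N with hM
  have hMN : N ≤ M := Nat.le_mul_of_pos_left N hW
  have hM0 : (0 : ℝ) < M := by exact_mod_cast (by omega : 0 < M)
  set K := Real.log N with hKdef
  have hL0 : 0 < L := lt_of_lt_of_le (Real.rpow_pos_of_pos hM0 _) hLl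
  have hKpos : 0 < K ^ CL := by positivity
  have hσ0 : 0 < σ := by
    by_contra h
    have h2 : K ^ CL * σ ≤ 0 := mul_nonpos_of_nonneg_of_nonpos hKpos.le (not_lt.1 h)
    linarith
  set Z := ⌊(N : ℝ) ^ ((4 : ℝ) / 5)⌋₊ with hZ
  set Q1 := (QP c Z).filter (fun q => w1 < q) with hQ1
  set P2 : ℕ → Finset ℕ := fun k => (Icc 1 (N / k)).filter (fun q => q.Prime ∧ Z < q ∧ c q = 1) with hP2
  -- the two parts
  have hsub : (Icc 1 N).filter (fun n => ∃ q : ℕ, q.Prime ∧ w1 < q ∧ c q = 1 ∧ q ∣ n) ⊆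
      (Q1.biUnion fun q => (Ioc 0 N).filter (fun n => q ∣ n)) ∪
      ((Icc 1 N).biUnion fun k => (P2 k).image (fun q => q * k)) := by
    intro n hn
    obtain ⟨hn1, q, hq, hqw, hcq, hd⟩ := mem_filter.1 hn
    rw [mem_Icc] at hn1
    rcases le_or_gt q Z with h | h
    · refine mem_union_left _ (mem_biUnion.2 ⟨q, ?_, ?_⟩)
      · rw [hQ1, mem_filter]
        refine ⟨?_, hqw⟩
        unfold OW.QP
        rw [mem_filter, mem_range]
        exact ⟨by omega, hq, hcq⟩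
      · rw [mem_filter, mem_Ioc]
        exact ⟨by omega, hd⟩
    · obtain ⟨k, rfl⟩ := hd
      have hk : 0 < k := Nat.pos_of_ne_zero (by rintro rfl; omega)
      refine mem_union_right _ (mem_biUnion.2 ⟨k, ?_, ?_⟩)
      · rw [mem_Icc]
        exact ⟨hk, (Nat.le_mul_of_pos_left k hq.pos).trans hn1.2⟩
      · refine mem_image.2 ⟨q, ?_, rfl⟩
        rw [hP2, mem_filter, mem_Icc]
        exact ⟨⟨hq.one_lt.le, (Nat.le_div_iff_mul_le hk).2 hn1.2⟩, hq, h, hcq⟩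
  have hcard := (card_le_card hsub).trans (card_union_le _ _)
  -- small primes
  have hp1 : (((Q1.biUnion fun q => (Ioc 0 N).filter (fun n => q ∣ n)).card : ℕ) : ℝ) ≤ N * σ := by
    have h1 : ((Q1.biUnion fun q => (Ioc 0 N).filter (fun n => q ∣ n)).card : ℕ) ≤ ∑ q ∈ Q1, N / q := by
      refine card_biUnion_le.trans (le_of_eq (sum_congr rfl fun q _ => ?_))
      exact Nat.Ioc_filter_dvd_card_eq_div N q
    have h2 : (((Q1.biUnion fun q => (Ioc 0 N).filter (fun n => q ∣ n)).card : ℕ) : ℝ) ≤ ∑ q ∈ Q1, (N : ℝ) * (1 / (q : ℝ)) := by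
      refine le_trans (by exact_mod_cast h1 : _ ≤ ((∑ q ∈ Q1, N / q : ℕ) : ℝ)) ?_
      rw [Nat.cast_sum]
      refine sum_le_sum fun q _ => Nat.cast_div_le.trans (le_of_eq ?_)
      ring
    rw [← mul_sum] at h2
    exact h2.trans (mul_le_mul_of_nonneg_left hs hNr.le)
  -- large primes
  have hone : ∀ k ∈ Icc 1 N, (((P2 k).card : ℕ) : ℝ) ≤ 2 * L * N * (1 / (k : ℝ)) := by
    intro k hk
    rw [mem_Icc] at hk
    have hk0 : (0 : ℝ) < k := by exact_mod_cast (by omega : 0 < k)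
    rcases (P2 k).eq_empty_or_nonempty with he | ⟨q0, hq0⟩
    · rw [he, card_empty, Nat.cast_zero]
      positivity
    · obtain ⟨h1, h2, h3, h4⟩ := mem_filter.1 hq0
      rw [mem_Icc] at h1
      have h5 : Z < N / k := lt_of_lt_of_le h3 h1.2
      have h6 : (M : ℝ) ^ ((7 : ℝ) / 10) ≤ ((N / k : ℕ) : ℝ) := by
        have h7 : (N : ℝ) ^ ((4 : ℝ) / 5) < ((N / k : ℕ) : ℝ) := by
          have h8 := Nat.lt_floor_add_one ((N : ℝ) ^ ((4 : ℝ) / 5))
          refine lt_of_lt_of_le h8 ?_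
          exact_mod_cast h5
        refine le_trans ?_ h7.le
        rw [hM, Nat.cast_mul, Real.mul_rpow (by positivity) hNr.le]
        calc (Wf : ℝ) ^ ((7 : ℝ) / 10) * (N : ℝ) ^ ((7 : ℝ) / 10)
            ≤ (N : ℝ) ^ ((1 : ℝ) / 10) * (N : ℝ) ^ ((7 : ℝ) / 10) :=
              mul_le_mul_of_nonneg_right hWN (by positivity)
          _ = (N : ℝ) ^ ((4 : ℝ) / 5) := by
              rw [← Real.rpow_add hNr]
              norm_num
      obtain ⟨-, h7⟩ := hN1 M (hNN1.trans hMN) c L hc hL hLl (N / k) h6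
      have h8 : (((P2 k).card : ℕ) : ℝ) ≤ SSs M c (N / k) := by
        unfold OW.SSs
        calc (((P2 k).card : ℕ) : ℝ) = ∑ _q ∈ P2 k, (1 : ℝ) := by simp
          _ ≤ ∑ q ∈ P2 k, rs M c q := sum_le_sum fun q hq => by
              obtain ⟨-, h9, -, h10⟩ := mem_filter.1 hq
              exact HB_rs hc h9 h10
          _ ≤ ∑ n ∈ Icc 1 (N / k), rs M c n :=
              sum_le_sum_of_subset_of_nonneg (filter_subset _ _) fun n _ _ => OW.rs_nonneg hc n
      have hdel : OW.del M ≤ 1 := by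
        unfold OW.del
        rw [div_le_one hM0]
        exact_mod_cast Nat.totient_le M
      have hdel0 : 0 ≤ OW.del M := by
        unfold OW.del
        positivity
      have h9 : ((N / k : ℕ) : ℝ) ≤ N * (1 / (k : ℝ)) := Nat.cast_div_le.trans (le_of_eq (by ring))
      have h10 : OW.del M * L * ((N / k : ℕ) : ℝ) ≤ L * (N * (1 / (k : ℝ))) := by
        calc OW.del M * L * ((N / k : ℕ) : ℝ) ≤ 1 * L * ((N / k : ℕ) : ℝ) :=
              mul_le_mul_of_nonneg_right (mul_le_mul_of_nonneg_right hdel hL0.le) (by positivity)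
          _ = L * ((N / k : ℕ) : ℝ) := by ring
          _ ≤ _ := mul_le_mul_of_nonneg_left h9 hL0.le
      have h11 : 0 ≤ L * (N * (1 / (k : ℝ))) := by positivity
      calc (((P2 k).card : ℕ) : ℝ) ≤ 101 / 100 * (OW.del M * L * ((N / k : ℕ) : ℝ)) := h8.trans h7
        _ ≤ 101 / 100 * (L * (N * (1 / (k : ℝ)))) := mul_le_mul_of_nonneg_left h10 (by norm_num)
        _ ≤ 2 * (L * (N * (1 / (k : ℝ)))) := mul_le_mul_of_nonneg_right (by norm_num) h11
        _ = 2 * L * N * (1 / (k : ℝ)) := by ring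
  have hp2 : ((((Icc 1 N).biUnion fun k => (P2 k).image (fun q => q * k)).card : ℕ) : ℝ) ≤ 2 * L * N * (1 + K) := by
    have h1 : ((Icc 1 N).biUnion fun k => (P2 k).image (fun q => q * k)).card ≤ ∑ k ∈ Icc 1 N, (P2 k).card :=
      card_biUnion_le.trans (sum_le_sum fun k _ => card_image_le)
    have h2 : ((((Icc 1 N).biUnion fun k => (P2 k).image (fun q => q * k)).card : ℕ) : ℝ) ≤ ∑ k ∈ Icc 1 N, (((P2 k).card : ℕ) : ℝ) := by
      rw [← Nat.cast_sum]
      exact_mod_cast h1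
    refine h2.trans ((sum_le_sum hone).trans ?_)
    rw [← mul_sum]
    exact mul_le_mul_of_nonneg_left (HB_harm N) (by positivity)
  have hcard' : (((Icc 1 N).filter fun n => ∃ q : ℕ, q.Prime ∧ w1 < q ∧ c q = 1 ∧ q ∣ n).card : ℝ) ≤
      N * σ + 2 * L * N * (1 + K) := by
    refine le_trans (by exact_mod_cast hcard : _ ≤ (((Q1.biUnion fun q => (Ioc 0 N).filter (fun n => q ∣ n)).card +
      ((Icc 1 N).biUnion fun k => (P2 k).image (fun q => q * k)).card : ℕ) : ℝ)) ?_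
    rw [Nat.cast_add]
    exact add_le_add hp1 hp2
  refine hcard'.trans ?_
  have hKC : 1 ≤ K ^ CL := one_le_pow₀ (by linarith)
  have h1 : 2 * L * N * (1 + K) ≤ 2 * (K ^ CL * σ) * N * (1 + K) := by
    have : L * (N * (1 + K)) ≤ K ^ CL * σ * (N * (1 + K)) := mul_le_mul_of_nonneg_right hσ (by positivity)
    linarith
  have h2 : N * σ ≤ K ^ CL * σ * N := by
    have : 1 * (σ * N) ≤ K ^ CL * (σ * N) := mul_le_mul_of_nonneg_right hKC (by positivity)
    linarith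
  have h3 : K ^ (CL + 2) * σ * N = K ^ CL * σ * N * K ^ 2 := by ring
  rw [h3]
  have h4 : 0 ≤ K ^ CL * σ * N := by positivity
  have h5 : K ^ CL * σ * N * (1 + 2 * (1 + K)) ≤ K ^ CL * σ * N * K ^ 2 :=
    mul_le_mul_of_nonneg_left (by nlinarith) h4
  linarith

end Pool.Agent.Lib.TE
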