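import Pool.Agent.Lib.MP_7b7e48_nt.TE.Esb
import Pool.Agent.Lib.MP_7b7e48_nt.TC.FLM
import Pool.Agent.Lib.MP_7b7e48_nt.RG.NUM
import Pool.Agent.Lib.Sieve.Mertens

/-!
# Module HC (90 minutes): lower bound for the number of the admissible `n` in a class modulo `Wf`

`K = log N`, `z = zC C1 N`. PROOF. Conditions on `n ∈ (0, N)`, `n ≡ n0 (Wf)`: for the primes `p ∣ Wf`: nothing (`n0`, `N - n0` are coprime to `Wf`). For the primes `p ≤ z`, `p ∤ Wf` (the set `P`): forbidden classes modulo `p`: `p ∣ N`: the class `0`; `p ∤ N`: the class `N`, and the class `0` if `p ≤ w1`.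
(`p = 2`: `N` is even, so `2 ∣ N`.) Density `g p = (number of the forbidden classes)/p ≤ 2/p`, `g 2 ≤ 1/2`, `g 3 ≤ 2/3`. For `p ∣ N`, `p > z`: the `n` with `p ∣ n`: at most `∑_{p ∣ N, p > z} (N/p + 1) ≤ 2 K (N/z + 1)` numbers, thrown away (`z ≥ K^10`).
Lower weights `lo` of `TC.flm 2` with `b` fixed such that `K0 2^(-b) ≤ 1/2`: the number wanted is `≥ ∑_d lo d #{0 < n < N, n ≡ n0 (Wf), forbidden at all p ∈ d} - ..`; for a set `d` the count is the sum over the (`≤ 2^|d|`) classes modulo `Wf ∏ d`: `(N/Wf) ∏_{p ∈ d} g p + O(2^|d| · 2)`;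
`∏ d ≤ z^(12 b) ≤ N^(1/4)` (`C1 ≥ 5000`, `log log N` large), `|lo d| ≤ NJ z + 1 ≤ K^2`, so the total error is `≤ K² N^(1/4) N^(1/4) · 2 ≤ N^(3/5)`. Main term `≥ (N/Wf)(1/2) ∏_{p ∈ P} (1 - g p) ≥ (N/(2 Wf)) (1/6) ∏_{5 ≤ p ≤ z} (1 - 2/p) ≥ N/K^3` (Mertens: `∏ (1 - 2/p) ≥ c/(log z)^2`; in Lib, e.g. `OW/LFA`, `MT`, `Sieve`).
-/

set_option autoImplicit false

open Finset
open Pool.Agent.Lib.GT (Rough)

namespace Pool.Agent.Lib.TE

private theorem HC_ap (r u v : ℕ) (hr : 0 < r) :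
    |(((Icc 1 u).filter fun x => x ≡ v [MOD r]).card : ℝ) - (u : ℝ) / r| ≤ 1 := by
  have h := Nat.Ioc_filter_modEq_card 0 u hr v
  have e : Icc 1 u = Finset.Ioc 0 u := by ext x; simp [Finset.mem_Icc, Finset.mem_Ioc]; omega
  rw [e]
  have hr' : (0 : ℚ) < r := by exact_mod_cast hr
  set x : ℚ := ((u : ℚ) - v) / r with hx
  set y : ℚ := (((0 : ℕ) : ℚ) - v) / r with hy
  have hxy : x - y = (u : ℚ) / r := by
    rw [hx, hy]; push_cast; ring
  have hxy0 : 0 ≤ x - y := by rw [hxy]; positivity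
  have hfl : ⌊y⌋ ≤ ⌊x⌋ := Int.floor_le_floor (by linarith)
  rw [max_eq_left (by linarith)] at h
  have h1 := Int.floor_le x
  have h2 := Int.lt_floor_add_one x
  have h3 := Int.floor_le y
  have h4 := Int.lt_floor_add_one y
  have h5 : |((⌊x⌋ - ⌊y⌋ : ℤ) : ℚ) - (u : ℚ) / r| ≤ 1 := by
    rw [← hxy, abs_le]
    push_cast
    constructor <;> linarith
  rw [← h] at h5
  have h6 : ((|(((((Finset.Ioc 0 u).filter fun x => x ≡ v [MOD r]).card : ℤ)) : ℚ) - (u : ℚ) / r| : ℚ) : ℝ) ≤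
      ((1 : ℚ) : ℝ) := by exact_mod_cast h5
  push_cast at h6
  exact h6

private theorem HC_base (N m a : ℕ) (hN : 1 ≤ N) (hm : 1 ≤ m) :
    |(((Ioo 0 N).filter fun n => n ≡ a [MOD m]).card : ℝ) - (N : ℝ) / m| ≤ 2 := by
  have e : Ioo 0 N = Icc 1 (N - 1) := by ext x; rw [mem_Ioo, mem_Icc]; omega
  have h := HC_ap m (N - 1) a (by omega)
  rw [e]
  have hm1 : (1 : ℝ) ≤ m := by exact_mod_cast hm
  have h1 : (N : ℝ) / m = ((N - 1 : ℕ) : ℝ) / m + 1 / m := by
    rw [Nat.cast_sub hN]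
    push_cast
    ring
  have h2 : 1 / (m : ℝ) ≤ 1 := by
    rw [div_le_one (by linarith)]
    exact hm1
  have h3 : (0 : ℝ) ≤ 1 / (m : ℝ) := by positivity
  rw [h1]
  rw [abs_le] at h ⊢
  constructor <;> linarith [h.1, h.2]

open Classical in
private theorem HC_cnt (N : ℕ) (hN : 1 ≤ N) (R : ℕ → Finset ℕ) (hR : ∀ p, ∀ r ∈ R p, r < p)
    (d : Finset ℕ) : (∀ p ∈ d, p.Prime) → ∀ (m a : ℕ), 1 ≤ m → (∀ p ∈ d, m.Coprime p) →
    |(((Ioo 0 N).filter fun n => n ≡ a [MOD m] ∧ ∀ p ∈ d, n % p ∈ R p).card : ℝ) -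
      (N : ℝ) / m * ∏ p ∈ d, ((R p).card : ℝ) / p| ≤ 2 * ∏ p ∈ d, ((R p).card : ℝ) := by
  induction d using Finset.induction_on with
  | empty =>
    intro _ m a hm _
    rw [prod_empty, prod_empty, mul_one, mul_one]
    have e : ((Ioo 0 N).filter fun n => n ≡ a [MOD m] ∧ ∀ p ∈ (∅ : Finset ℕ), n % p ∈ R p) =
        (Ioo 0 N).filter fun n => n ≡ a [MOD m] := by
      refine filter_congr fun n _ => ?_
      constructor
      · intro h
        exact h.1
      · intro h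
        exact ⟨h, fun p hp => absurd hp (notMem_empty p)⟩
    rw [e]
    exact HC_base N m a hN hm
  | insert p d hp ih =>
    intro hpr m a hm hco
    have hpp : p.Prime := hpr p (mem_insert_self p d)
    have hmp : m.Coprime p := hco p (mem_insert_self p d)
    have hp0 : (0 : ℝ) < p := by exact_mod_cast hpp.pos
    have hm0 : (0 : ℝ) < m := by exact_mod_cast hm
    have hih := ih (fun q hq => hpr q (mem_insert_of_mem hq))
    rw [prod_insert hp, prod_insert hp]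
    set s := (Ioo 0 N).filter fun n => n ≡ a [MOD m] ∧ ∀ q ∈ insert p d, n % q ∈ R q with hs
    have hcard : s.card = ∑ r ∈ R p, (s.filter fun n => n % p = r).card := by
      refine card_eq_sum_card_fiberwise fun n hn => ?_
      rw [mem_coe, hs, mem_filter] at hn
      rw [mem_coe]
      exact hn.2.2 p (mem_insert_self p d)
    have hfib : ∀ r ∈ R p, s.filter (fun n => n % p = r) =
        (Ioo 0 N).filter fun n => n ≡ (Nat.chineseRemainder hmp a r : ℕ) [MOD m * p] ∧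
          ∀ q ∈ d, n % q ∈ R q := by
      intro r hr
      have hrp := hR p r hr
      have hc := (Nat.chineseRemainder hmp a r).2
      ext n
      rw [mem_filter, hs, mem_filter, mem_filter, ← Nat.modEq_and_modEq_iff_modEq_mul hmp]
      constructor
      · rintro ⟨⟨h1, h2, h3⟩, h4⟩
        refine ⟨h1, ⟨h2.trans hc.1.symm, ?_⟩, fun q hq => h3 q (mem_insert_of_mem hq)⟩
        have h5 : n ≡ r [MOD p] := by
          rw [Nat.ModEq, h4, Nat.mod_eq_of_lt hrp]
        exact h5.trans hc.2.symm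
      · rintro ⟨h1, ⟨h2, h3⟩, h4⟩
        have h5 : n % p = r := by
          have h6 : n ≡ r [MOD p] := h3.trans hc.2
          rw [Nat.ModEq, Nat.mod_eq_of_lt hrp] at h6
          exact h6
        refine ⟨⟨h1, h2.trans hc.1, fun q hq => ?_⟩, h5⟩
        rcases mem_insert.1 hq with h6 | h6
        · rw [h6, h5]
          exact hr
        · exact h4 q h6
    have hmain : ∀ r ∈ R p, |((s.filter fun n => n % p = r).card : ℝ) -
        (N : ℝ) / ((m * p : ℕ) : ℝ) * ∏ q ∈ d, ((R q).card : ℝ) / q| ≤ 2 * ∏ q ∈ d, ((R q).card : ℝ) := by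
      intro r hr
      rw [hfib r hr]
      refine hih (m * p) _ (Nat.mul_pos hm hpp.pos) fun q hq => ?_
      refine Nat.Coprime.mul_left (hco q (mem_insert_of_mem hq)) ?_
      rw [Nat.coprime_primes hpp (hpr q (mem_insert_of_mem hq))]
      rintro rfl
      exact hp hq
    have e1 : (N : ℝ) / m * (((R p).card : ℝ) / p * ∏ q ∈ d, ((R q).card : ℝ) / q) =
        ∑ _r ∈ R p, (N : ℝ) / ((m * p : ℕ) : ℝ) * ∏ q ∈ d, ((R q).card : ℝ) / q := by
      rw [sum_const, nsmul_eq_mul, Nat.cast_mul]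
      generalize ∏ q ∈ d, ((R q).card : ℝ) / q = G
      generalize ((R p).card : ℝ) = c
      field_simp
    rw [hcard, e1, Nat.cast_sum, ← sum_sub_distrib]
    refine (abs_sum_le_sum_abs _ _).trans ((sum_le_sum hmain).trans (le_of_eq ?_))
    rw [sum_const, nsmul_eq_mul]
    ring

/-- numerical facts on `z = zC C1 N` -/
private theorem HC_num (C1 : ℝ) (h1 : 1 ≤ C1) (T E : ℝ) (hE0 : 0 ≤ E) : ∃ N0 : ℕ, ∀ N : ℕ, N0 ≤ N →
    1 ≤ Real.log N ∧ T ≤ Real.log N ∧ 1 ≤ Real.log (Real.log N) ∧ T ≤ Real.log (Real.log N) ∧ 3 ≤ zC C1 N ∧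
    Real.log (zC C1 N) ≤ Real.log N / (C1 * Real.log (Real.log N)) ∧
    10 * (Real.log N) ^ E ≤ zC C1 N := by
  have hev1 : ∀ᶠ x : ℝ in Filter.atTop, Real.log x ^ (2 : ℝ) ≤ 1 / (C1 * (E + 10)) * x := by
    have h := (isLittleO_log_rpow_rpow_atTop (2 : ℝ) (one_pos)).bound
      (c := 1 / (C1 * (E + 10))) (by positivity)
    filter_upwards [h, Filter.eventually_ge_atTop 1] with x hx hx1
    rw [Real.rpow_one, Real.norm_of_nonneg (Real.rpow_nonneg (Real.log_nonneg hx1) _),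
      Real.norm_of_nonneg (by linarith)] at hx
    exact hx
  have hK : Filter.Tendsto (fun N : ℕ => Real.log (N : ℝ)) Filter.atTop Filter.atTop :=
    Real.tendsto_log_atTop.comp tendsto_natCast_atTop_atTop
  have hev2 := hK.eventually hev1
  have hev3 := hK.eventually_ge_atTop (max T 1)
  have hev4 := (Real.tendsto_log_atTop.comp hK).eventually_ge_atTop (max T 1)
  obtain ⟨N0, hN0⟩ := Filter.eventually_atTop.1 (hev2.and (hev3.and (hev4.and
    (Filter.eventually_ge_atTop 1))))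
  refine ⟨N0, fun N hN => ?_⟩
  obtain ⟨a1, a2, a3, a4⟩ := hN0 N hN
  simp only [Function.comp_apply] at a3
  set K := Real.log (N : ℝ) with hKdef
  set M := Real.log K with hMdef
  have hK1 : 1 ≤ K := (le_max_right _ _).trans a2
  have hKT : T ≤ K := (le_max_left _ _).trans a2
  have hM1 : 1 ≤ M := (le_max_right _ _).trans a3
  have hMT : T ≤ M := (le_max_left _ _).trans a3
  have hK0 : 0 < K := by linarith
  have hM0 : 0 < M := by linarith
  have hC0 : 0 < C1 := by linarith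
  have hNr : (0 : ℝ) < N := by exact_mod_cast a4
  have a1' : C1 * (E + 10) * M ^ 2 ≤ K := by
    have e : M ^ (2 : ℝ) = M ^ 2 := by
      rw [← Real.rpow_natCast]
      norm_num
    rw [e] at a1
    have hpos : 0 < C1 * (E + 10) := by positivity
    have h2 := mul_le_mul_of_nonneg_left a1 hpos.le
    have h3 : C1 * (E + 10) * (1 / (C1 * (E + 10)) * K) = K := by
      field_simp
    linarith
  -- q = K / (C1 M)
  set q := K / (C1 * M) with hq
  have hq1 : (E + 10) * M ≤ q := by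
    rw [hq, le_div_iff₀ (by positivity)]
    calc (E + 10) * M * (C1 * M) = C1 * (E + 10) * M ^ 2 := by ring
      _ ≤ K := a1'
  have hE : (N : ℝ) ^ (1 / (C1 * M)) = Real.exp q := by
    rw [Real.rpow_def_of_pos hNr, hq]
    congr 1
    rw [← hKdef]
    ring
  have hz : zC C1 N = ⌊Real.exp q⌋₊ := by
    unfold zC
    rw [← hKdef, ← hMdef, hE]
  have hq12 : 10 ≤ q := by nlinarith
  have hE8 : (8 : ℝ) ≤ Real.exp q := by
    have := Real.add_one_le_exp q
    linarith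
  have hz1 : (zC C1 N : ℝ) ≤ Real.exp q := by
    rw [hz]
    exact Nat.floor_le (Real.exp_pos q).le
  have hz2 : Real.exp q / 2 ≤ (zC C1 N : ℝ) := by
    have h2 := Nat.lt_floor_add_one (Real.exp q)
    rw [← hz] at h2
    linarith
  have hz3 : (3 : ℝ) ≤ (zC C1 N : ℝ) := by linarith
  have hz0 : (0 : ℝ) < (zC C1 N : ℝ) := by linarith
  refine ⟨hK1, hKT, hM1, hMT, by exact_mod_cast hz3, ?_, ?_⟩
  · have := Real.log_le_log hz0 hz1
    rwa [Real.log_exp] at this
  · refine le_trans ?_ hz2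
    have h2 : K ^ E = Real.exp (M * E) := by
      rw [Real.rpow_def_of_pos hK0]
    have h3 : (20 : ℝ) ≤ Real.exp 9 := by
      have h4 : (1 : ℝ) + 4.5 ≤ Real.exp 4.5 := by
        have := Real.add_one_le_exp (4.5 : ℝ)
        linarith
      have h5 : Real.exp 9 = Real.exp 4.5 * Real.exp 4.5 := by
        rw [← Real.exp_add]
        norm_num
      rw [h5]
      nlinarith
    have h6 : Real.exp 9 * Real.exp (M * E) ≤ Real.exp q := by
      rw [← Real.exp_add, Real.exp_le_exp]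
      nlinarith
    rw [h2]
    have h7 := Real.exp_pos (M * E)
    nlinarith

/-- number of the sets of primes with bounded product -/
private theorem HC_sets (P : Finset ℕ) (hP : ∀ p ∈ P, p.Prime) (Y : ℕ) :
    (P.powerset.filter fun d => ∏ r ∈ d, r ≤ Y).card ≤ Y := by
  classical
  have h : (P.powerset.filter fun d => ∏ r ∈ d, r ≤ Y).card ≤ (Icc 1 Y).card := by
    refine card_le_card_of_injOn (fun d => ∏ r ∈ d, r) ?_ ?_
    · intro d hd
      rw [mem_coe, mem_filter, mem_powerset] at hd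
      rw [mem_coe, mem_Icc]
      refine ⟨?_, hd.2⟩
      exact Nat.one_le_iff_ne_zero.2 (prod_ne_zero_iff.2 fun p hp => (hP p (hd.1 hp)).ne_zero)
    · intro d hd e he hde
      rw [mem_coe, mem_filter, mem_powerset] at hd he
      have h1 := Nat.primeFactors_prod (s := d) fun p hp => hP p (hd.1 hp)
      have h2 := Nat.primeFactors_prod (s := e) fun p hp => hP p (he.1 hp)
      have h3 : ∏ r ∈ d, r = ∏ r ∈ e, r := hde
      rw [← h1, ← h2, h3]
  rw [Nat.card_Icc, Nat.add_sub_cancel] at h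
  exact h

/-- numbers with a large prime factor in common with `N` -/
private theorem HC_big (N z : ℕ) (hN : 1 ≤ N) (hz : 1 ≤ z) :
    (((Ioo 0 N).filter fun n => ∃ p ∈ N.primeFactors, z < p ∧ p ∣ n).card : ℝ) ≤ 2 * Real.log N * (N / z) := by
  classical
  have hz0 : (0 : ℝ) < z := by exact_mod_cast hz
  have h1 : (Ioo 0 N).filter (fun n => ∃ p ∈ N.primeFactors, z < p ∧ p ∣ n) ⊆
      (N.primeFactors.filter fun p => z < p).biUnion fun p => (Ioc 0 N).filter fun n => p ∣ n := by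
    intro n hn
    rw [mem_filter, mem_Ioo] at hn
    obtain ⟨⟨h2, h3⟩, p, hp, h4, h5⟩ := hn
    rw [mem_biUnion]
    refine ⟨p, mem_filter.2 ⟨hp, h4⟩, ?_⟩
    rw [mem_filter, mem_Ioc]
    exact ⟨⟨h2, h3.le⟩, h5⟩
  have h2 : (((Ioo 0 N).filter fun n => ∃ p ∈ N.primeFactors, z < p ∧ p ∣ n).card : ℝ) ≤
      ∑ p ∈ N.primeFactors.filter (fun p => z < p), (((Ioc 0 N).filter fun n => p ∣ n).card : ℝ) := by
    have := (card_le_card h1).trans card_biUnion_le
    exact_mod_cast this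
  refine h2.trans ?_
  have h3 : ∀ p ∈ N.primeFactors.filter (fun p => z < p),
      (((Ioc 0 N).filter fun n => p ∣ n).card : ℝ) ≤ N / z := by
    intro p hp
    rw [mem_filter] at hp
    rw [Nat.Ioc_filter_dvd_card_eq_div]
    calc ((N / p : ℕ) : ℝ) ≤ (N : ℝ) / p := Nat.cast_div_le
      _ ≤ N / z := div_le_div_of_nonneg_left (Nat.cast_nonneg N) hz0 (by exact_mod_cast hp.2.le)
  refine (sum_le_sum h3).trans ?_
  rw [sum_const, nsmul_eq_mul]
  refine mul_le_mul_of_nonneg_right ?_ (by positivity)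
  have h4 : 2 ^ N.primeFactors.card ≤ N := by
    calc 2 ^ N.primeFactors.card ≤ ∏ p ∈ N.primeFactors, p :=
          pow_card_le_prod _ _ _ fun p hp => (Nat.prime_of_mem_primeFactors hp).two_le
      _ ≤ N := Nat.le_of_dvd (by omega) (Nat.prod_primeFactors_dvd N)
  have h5 : (2 : ℝ) ^ N.primeFactors.card ≤ N := by exact_mod_cast h4
  have h6 := Real.log_le_log (by positivity) h5
  rw [Real.log_pow] at h6
  have h7 := Real.log_two_gt_d9
  have h8 : (0 : ℝ) ≤ (N.primeFactors.card : ℝ) := Nat.cast_nonneg _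
  have h9 : ((N.primeFactors.filter fun p => z < p).card : ℝ) ≤ N.primeFactors.card := by
    exact_mod_cast card_le_card (filter_subset _ _)
  nlinarith

/-- the forbidden classes -/
private noncomputable def HC_R (N w1 p : ℕ) : Finset ℕ := by
  classical
  exact (if p ∣ N ∨ p ≤ w1 then {0, N % p} else {N % p} : Finset ℕ).filter fun r => r < p

private theorem HC_R_card (N w1 p : ℕ) : (HC_R N w1 p).card ≤ 2 := by
  classical
  unfold HC_R
  refine (card_filter_le _ _).trans ?_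
  split_ifs
  · exact card_le_two
  · rw [card_singleton]
    norm_num

private theorem HC_R_two (N w1 : ℕ) (hN : Even N) : (HC_R N w1 2).card ≤ 1 := by
  classical
  have h0 : N % 2 = 0 := Nat.even_iff.1 hN
  unfold HC_R
  refine (card_filter_le _ _).trans ?_
  rw [h0]
  split_ifs
  · simp
  · simp

private theorem HC_R_mem (N w1 p n : ℕ) (hp : p.Prime) (hn : n < N) :
    n % p ∈ HC_R N w1 p ↔ (p ∣ n ∧ (p ∣ N ∨ p ≤ w1)) ∨ p ∣ N - n := by
  classical
  have h1 : p ∣ N - n ↔ n % p = N % p := (Nat.modEq_iff_dvd' hn.le).symm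
  have h2 : p ∣ n ↔ n % p = 0 := Nat.dvd_iff_mod_eq_zero
  unfold HC_R
  rw [mem_filter, h1, h2]
  have h3 : n % p < p := Nat.mod_lt _ hp.pos
  by_cases h : p ∣ N ∨ p ≤ w1
  · rw [if_pos h, mem_insert, mem_singleton]
    constructor
    · rintro ⟨h4 | h4, _⟩
      · exact Or.inl ⟨h4, h⟩
      · exact Or.inr h4
    · rintro (h4 | h4)
      · exact ⟨Or.inl h4.1, h3⟩
      · exact ⟨Or.inr h4, h3⟩
  · rw [if_neg h, mem_singleton]
    constructor
    · rintro ⟨h4, _⟩
      exact Or.inr h4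
    · rintro (h4 | h4)
      · exact absurd h4.2 h
      · exact ⟨h4, h3⟩

open Classical in
theorem sst_low (Wf : ℕ) (hW : 1 ≤ Wf) (C1 A1 : ℝ) (hC : 5000 ≤ C1) (hA1 : 0 < A1) : ∃ N0 : ℕ, ∀ N : ℕ, N0 ≤ N → Even N →
    ∀ w1 : ℕ, (w1 : ℝ) ≤ (Real.log N) ^ A1 → ∀ n0 : ℕ, n0 < N → n0.Coprime Wf → (N - n0).Coprime Wf →
    (N : ℝ) / (Real.log N) ^ 4 ≤ (((Ioo 0 N).filter fun n => (n.Coprime N ∧ Rough w1 n ∧ Rough (zC C1 N) (N - n)) ∧ n ≡ n0 [MOD Wf]).card : ℝ) := by
  obtain ⟨K0, hK0, hflm⟩ := Pool.Agent.Lib.TC.flm 2 (by norm_num)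
  obtain ⟨Cm, hCm, hM⟩ := Pool.Agent.Lib.Sieve.mertens_product_upper
  -- the parameter `b`
  obtain ⟨b, hb, hb1⟩ : ∃ b : ℕ, K0 * (1 / 2 : ℝ) ^ b ≤ 1 / 2 ∧ 1 ≤ b := by
    have hlim : Filter.Tendsto (fun b : ℕ => K0 * (1 / 2 : ℝ) ^ b) Filter.atTop (nhds (K0 * 0)) :=
      (tendsto_pow_atTop_nhds_zero_of_lt_one (by norm_num) (by norm_num)).const_mul _
    rw [mul_zero] at hlim
    have h1 := (hlim.eventually (Iic_mem_nhds (by norm_num : (0 : ℝ) < 1 / 2))).and
      (Filter.eventually_ge_atTop 1)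
    exact h1.exists
  obtain ⟨N1, hN1⟩ := HC_num C1 (by linarith) (max (24 * b + 2) (6 * Wf * Cm ^ 3)) (max A1 6)
    (le_trans hA1.le (le_max_left _ _))
  obtain ⟨N2, hN2⟩ := Filter.eventually_atTop.1 (Pool.Agent.Lib.RH.ev_log_pow 4 (1 / 2) (by norm_num) 2 (by norm_num))
  refine ⟨max (max N1 N2) 3, fun N hN hev w1 hw1 n0 hn0 hn0W hNW => ?_⟩
  obtain ⟨a1, a2, a3, a4, a5, a6, a7⟩ := hN1 N (by omega)
  have a8 := hN2 N (by omega)
  have hN3 : 3 ≤ N := by omega
  set K := Real.log (N : ℝ) with hKdef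
  set z := zC C1 N with hzdef
  have hKpos : 0 < K := by linarith
  have hNr : (0 : ℝ) < N := by
    have : 0 < N := by omega
    exact_mod_cast this
  have hz3 : (3 : ℝ) ≤ z := by exact_mod_cast a5
  have hz0 : (0 : ℝ) < z := by linarith
  have hz1 : (1 : ℝ) ≤ z := by linarith
  have hlogK : 0 < Real.log K := by linarith
  have hWr : (1 : ℝ) ≤ Wf := by exact_mod_cast hW
  have hWr0 : (0 : ℝ) < Wf := by linarith
  have hlz0 : 0 < Real.log z := Real.log_pos (by linarith)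
  -- w1 ≤ z
  have hw1z : w1 ≤ z := by
    have h1 : K ^ A1 ≤ K ^ (max A1 6) := Real.rpow_le_rpow_of_exponent_le a1 (le_max_left _ _)
    have h2 : (w1 : ℝ) ≤ z := by
      have h3 : 0 ≤ K ^ (max A1 6) := by positivity
      linarith
    exact_mod_cast h2
  have hK6 : K ^ 6 ≤ z := by
    have h1 : K ^ (6 : ℝ) ≤ K ^ (max A1 6) := Real.rpow_le_rpow_of_exponent_le a1 (le_max_right _ _)
    have h2 : K ^ (6 : ℝ) = K ^ 6 := by
      rw [← Real.rpow_natCast]
      norm_num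
    rw [h2] at h1
    have h3 : 0 ≤ K ^ 6 := by positivity
    linarith
  -- powers of z
  have hzpow : (z : ℝ) ^ (24 * b + 2) ≤ (N : ℝ) ^ ((1 : ℝ) / 2) := by
    rw [← Real.rpow_natCast, Real.rpow_def_of_pos hz0, Real.rpow_def_of_pos hNr, Real.exp_le_exp,
      ← hKdef]
    have h1 : Real.log z * ((24 * b + 2 : ℕ) : ℝ) ≤ K / (C1 * Real.log K) * ((24 * b + 2 : ℕ) : ℝ) :=
      mul_le_mul_of_nonneg_right a6 (Nat.cast_nonneg _)
    refine h1.trans ?_
    rw [div_mul_eq_mul_div, div_le_iff₀ (by positivity)]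
    have h2 : ((24 * b + 2 : ℕ) : ℝ) ≤ Real.log K := by
      push_cast
      exact (le_max_left _ _).trans a4
    have h3 : K * ((24 * b + 2 : ℕ) : ℝ) ≤ K * Real.log K := mul_le_mul_of_nonneg_left h2 hKpos.le
    have h4 : 0 < K * Real.log K := by positivity
    nlinarith
  -- the primes
  set P : Finset ℕ := (Icc 1 z).filter fun p => p.Prime ∧ ¬ p ∣ Wf with hPdef
  have hPmem : ∀ p, p ∈ P ↔ p ≤ z ∧ p.Prime ∧ ¬ p ∣ Wf := by
    intro p
    rw [hPdef, mem_filter, mem_Icc]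
    constructor
    · rintro ⟨h1, h2⟩
      exact ⟨h1.2, h2⟩
    · rintro ⟨h1, h2⟩
      exact ⟨⟨h2.1.one_le, h1⟩, h2⟩
  have hPp : ∀ r ∈ P, r.Prime ∧ r ≤ z := fun r hr => ⟨((hPmem r).1 hr).2.1, ((hPmem r).1 hr).1⟩
  obtain ⟨up, lo, f1, f2, f3, f4⟩ := hflm b hb1 z (by omega) P hPp
  obtain ⟨R, hRdef⟩ : ∃ R : ℕ → Finset ℕ, R = HC_R N w1 := ⟨_, rfl⟩
  have hRlt : ∀ p, ∀ r ∈ R p, r < p := by
    intro p r hr
    rw [hRdef] at hr
    unfold HC_R at hr
    exact (mem_filter.1 hr).2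
  have hRc : ∀ p, (R p).card ≤ 2 := fun p => by rw [hRdef]; exact HC_R_card N w1 p
  have hRcr : ∀ p, ((R p).card : ℝ) ≤ 2 := fun p => by exact_mod_cast hRc p
  have hR2 : ((R 2).card : ℝ) ≤ 1 := by
    have := HC_R_two N w1 hev
    rw [hRdef]
    exact_mod_cast this
  set g : ℕ → ℝ := fun p => ((R p).card : ℝ) / p with hg
  have hgb : ∀ r : ℕ, r.Prime → 0 ≤ g r ∧ g r ≤ 2 / r ∧ g r ≤ 2 / 3 ∧ (1 - 1 / (r : ℝ)) ^ 3 ≤ 1 - g r := by
    intro r hr
    have hr0 : (0 : ℝ) < r := by exact_mod_cast hr.pos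
    have h0 : 0 ≤ g r := by simp only [hg]; positivity
    have h1 : g r ≤ 2 / r := by
      simp only [hg]
      exact div_le_div_of_nonneg_right (hRcr r) hr0.le
    refine ⟨h0, h1, ?_⟩
    by_cases h2 : r = 2
    · have h3 : g r ≤ 1 / 2 := by
        simp only [hg]
        rw [h2]
        push_cast
        linarith
      refine ⟨by linarith, ?_⟩
      rw [h2]
      rw [h2] at h3
      push_cast
      norm_num
      linarith
    · have h3 : 3 ≤ r := by
        have := hr.two_le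
        omega
      have h3r : (3 : ℝ) ≤ r := by exact_mod_cast h3
      have h4 : 2 / (r : ℝ) ≤ 2 / 3 := div_le_div_of_nonneg_left (by norm_num) (by norm_num) h3r
      refine ⟨by linarith, ?_⟩
      obtain ⟨x, hx⟩ : ∃ x : ℝ, x = 1 / (r : ℝ) := ⟨_, rfl⟩
      have hx0 : 0 ≤ x := by rw [hx]; positivity
      have hx1 : x ≤ 1 / 3 := by
        rw [hx]
        exact one_div_le_one_div_of_le (by norm_num) h3r
      have h5 : 2 / (r : ℝ) = 2 * x := by rw [hx]; ring
      rw [← hx]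
      have h6 : (1 - x) ^ 3 = 1 - 3 * x + 3 * x ^ 2 - x ^ 3 := by ring
      rw [h6]
      have h7 : 0 ≤ x * (1 - 3 * x + x ^ 2) := by
        refine mul_nonneg hx0 ?_
        nlinarith
      nlinarith
  -- the sieve inequality
  set S : Finset ℕ := (Ioo 0 N).filter fun n => n ≡ n0 [MOD Wf] with hS
  set a : Finset ℕ → ℝ := fun d =>
    (((Ioo 0 N).filter fun n => n ≡ n0 [MOD Wf] ∧ ∀ p ∈ d, n % p ∈ R p).card : ℝ) with ha
  have hsieve : ∑ d ∈ P.powerset, lo d * a d ≤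
      ((S.filter fun n => P.filter (fun p => n % p ∈ R p) = ∅).card : ℝ) := by
    have e1 : ((S.filter fun n => P.filter (fun p => n % p ∈ R p) = ∅).card : ℝ) =
        ∑ n ∈ S, if P.filter (fun p => n % p ∈ R p) = ∅ then (1 : ℝ) else 0 := by
      rw [← sum_filter, sum_const, nsmul_eq_mul, mul_one]
    have e2 : ∑ d ∈ P.powerset, lo d * a d =
        ∑ n ∈ S, ∑ d ∈ (P.filter (fun p => n % p ∈ R p)).powerset, lo d := by
      have e3 : ∀ d ∈ P.powerset, lo d * a d = ∑ n ∈ S, if ∀ p ∈ d, n % p ∈ R p then lo d else 0 := by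
        intro d _
        rw [← sum_filter, sum_const, nsmul_eq_mul, mul_comm]
        simp only [ha]
        rw [hS, filter_filter]
      rw [sum_congr rfl e3, sum_comm]
      refine sum_congr rfl fun n _ => ?_
      rw [← sum_filter]
      refine sum_congr ?_ fun _ _ => rfl
      ext d
      rw [mem_filter, mem_powerset, mem_powerset]
      constructor
      · rintro ⟨h1, h2⟩ p hp
        exact mem_filter.2 ⟨h1 hp, h2 p hp⟩
      · intro h1
        exact ⟨fun p hp => (mem_filter.1 (h1 hp)).1, fun p hp => (mem_filter.1 (h1 hp)).2⟩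
    rw [e1, e2]
    exact sum_le_sum fun n _ => (f3 _ (filter_subset _ _)).1
  -- main term and error term
  have hcnt : ∀ d ∈ P.powerset, |a d - (N : ℝ) / Wf * ∏ p ∈ d, g p| ≤ 2 * ∏ p ∈ d, ((R p).card : ℝ) := by
    intro d hd
    rw [mem_powerset] at hd
    refine HC_cnt N (by omega) R hRlt d (fun p hp => (hPp p (hd hp)).1) Wf n0 hW fun p hp => ?_
    exact ((Nat.Prime.coprime_iff_not_dvd (hPp p (hd hp)).1).2 ((hPmem p).1 (hd hp)).2.2).symm
  have hmain : (N : ℝ) / Wf * (1 / 2 * ∏ p ∈ P, (1 - g p)) ≤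
      (N : ℝ) / Wf * ∑ d ∈ P.powerset, lo d * ∏ p ∈ d, g p := by
    have h1 := (f4 g (fun r hr => ⟨(hgb r (hPp r hr).1).1, (hgb r (hPp r hr).1).2.1,
      (hgb r (hPp r hr).1).2.2.1⟩)).2
    have h2 : 0 ≤ ∏ p ∈ P, (1 - g p) := prod_nonneg fun p hp => by
      have := (hgb p (hPp p hp).1).2.2.1
      linarith
    refine mul_le_mul_of_nonneg_left ?_ (by positivity)
    have h3 := (abs_le.1 h1).1
    have h4 : K0 * (1 / 2) ^ b * ∏ p ∈ P, (1 - g p) ≤ 1 / 2 * ∏ p ∈ P, (1 - g p) :=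
      mul_le_mul_of_nonneg_right hb h2
    linarith
  obtain ⟨Y, hY⟩ : ∃ Y : ℕ, Y = z ^ (12 * b) := ⟨_, rfl⟩
  have hYr : (Y : ℝ) = (z : ℝ) ^ (12 * b) := by rw [hY]; push_cast; rfl
  have herr : ∑ d ∈ P.powerset, |lo d| * (2 * ∏ p ∈ d, ((R p).card : ℝ)) ≤ 2 * (z : ℝ) ^ (24 * b + 2) := by
    have h1 : ∀ d ∈ P.powerset, |lo d| * (2 * ∏ p ∈ d, ((R p).card : ℝ)) ≤
        if ∏ r ∈ d, r ≤ Y then (z : ℝ) ^ 2 * (2 * Y) else 0 := by
      intro d hd
      rw [mem_powerset] at hd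
      by_cases h2 : lo d = 0
      · rw [h2, abs_zero, zero_mul]
        split_ifs
        · positivity
        · exact le_refl 0
      · have h3 := f2 d hd (Or.inr h2)
        have h4 : ∏ r ∈ d, r ≤ Y := by
          rw [← hYr] at h3
          exact_mod_cast h3
        rw [if_pos h4]
        have h5 : |lo d| ≤ (z : ℝ) ^ 2 := (f1 d).2.trans (Pool.Agent.Lib.GT.NJ_le z (by omega))
        have h6 : ∏ p ∈ d, ((R p).card : ℝ) ≤ Y := by
          calc ∏ p ∈ d, ((R p).card : ℝ) ≤ ∏ p ∈ d, (p : ℝ) := by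
                refine prod_le_prod (fun p _ => Nat.cast_nonneg _) fun p hp => ?_
                have h7 : (2 : ℝ) ≤ p := by exact_mod_cast (hPp p (hd hp)).1.two_le
                exact (hRcr p).trans h7
            _ = ((∏ r ∈ d, r : ℕ) : ℝ) := by push_cast; rfl
            _ ≤ Y := by exact_mod_cast h4
        exact mul_le_mul h5 (mul_le_mul_of_nonneg_left h6 (by norm_num))
          (mul_nonneg (by norm_num) (prod_nonneg fun p _ => Nat.cast_nonneg _)) (by positivity)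
    refine (sum_le_sum h1).trans ?_
    rw [← sum_filter, sum_const, nsmul_eq_mul]
    have h8 : ((P.powerset.filter fun d => ∏ r ∈ d, r ≤ Y).card : ℝ) ≤ Y := by
      exact_mod_cast HC_sets P (fun p hp => (hPp p hp).1) Y
    calc ((P.powerset.filter fun d => ∏ r ∈ d, r ≤ Y).card : ℝ) * ((z : ℝ) ^ 2 * (2 * Y)) ≤
          Y * ((z : ℝ) ^ 2 * (2 * Y)) := mul_le_mul_of_nonneg_right h8 (by positivity)
      _ = 2 * (z : ℝ) ^ (24 * b + 2) := by
          rw [hYr]
          ring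
  have hlow : (N : ℝ) / Wf * (1 / 2 * ∏ p ∈ P, (1 - g p)) - 2 * (z : ℝ) ^ (24 * b + 2) ≤
      ∑ d ∈ P.powerset, lo d * a d := by
    have h1 : ∑ d ∈ P.powerset, lo d * a d = (N : ℝ) / Wf * ∑ d ∈ P.powerset, lo d * ∏ p ∈ d, g p +
        ∑ d ∈ P.powerset, lo d * (a d - (N : ℝ) / Wf * ∏ p ∈ d, g p) := by
      rw [mul_sum, ← sum_add_distrib]
      exact sum_congr rfl fun d _ => by ring
    have h2 : -(2 * (z : ℝ) ^ (24 * b + 2)) ≤
        ∑ d ∈ P.powerset, lo d * (a d - (N : ℝ) / Wf * ∏ p ∈ d, g p) := by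
      have h3 : |∑ d ∈ P.powerset, lo d * (a d - (N : ℝ) / Wf * ∏ p ∈ d, g p)| ≤
          2 * (z : ℝ) ^ (24 * b + 2) := by
        refine (abs_sum_le_sum_abs _ _).trans (le_trans (sum_le_sum fun d hd => ?_) herr)
        rw [abs_mul]
        exact mul_le_mul_of_nonneg_left (hcnt d hd) (abs_nonneg _)
      exact (abs_le.1 h3).1
    rw [h1]
    linarith
  -- lower bound for the product
  have hprod : 1 / (Cm * K) ^ 3 ≤ ∏ p ∈ P, (1 - g p) := by
    have h1 : (∏ p ∈ (Icc 1 z).filter Nat.Prime, (1 - 1 / (p : ℝ))) ^ 3 ≤ ∏ p ∈ P, (1 - g p) := by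
      rw [← prod_pow]
      have h2 : ∏ p ∈ (Icc 1 z).filter Nat.Prime, (1 - 1 / (p : ℝ)) ^ 3 ≤
          ∏ p ∈ P, (1 - 1 / (p : ℝ)) ^ 3 := by
        have hsub : P ⊆ (Icc 1 z).filter Nat.Prime := by
          intro p hp
          rw [hPdef, mem_filter] at hp
          exact mem_filter.2 ⟨hp.1, hp.2.1⟩
        rw [← prod_sdiff hsub]
        have h3 : ∏ p ∈ (Icc 1 z).filter Nat.Prime \ P, (1 - 1 / (p : ℝ)) ^ 3 ≤ 1 := by
          refine prod_le_one (fun p hp => ?_) fun p hp => ?_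
          · have hp1 := (mem_filter.1 (mem_sdiff.1 hp).1).2
            have : 1 / (p : ℝ) ≤ 1 := by
              rw [div_le_one (by exact_mod_cast hp1.pos)]
              exact_mod_cast hp1.one_le
            exact pow_nonneg (by linarith) 3
          · have hp1 := (mem_filter.1 (mem_sdiff.1 hp).1).2
            have h4 : 1 / (p : ℝ) ≤ 1 := by
              rw [div_le_one (by exact_mod_cast hp1.pos)]
              exact_mod_cast hp1.one_le
            have h5 : (0 : ℝ) ≤ 1 / (p : ℝ) := by positivity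
            exact pow_le_one₀ (by linarith) (by linarith)
        have h6 : 0 ≤ ∏ p ∈ P, (1 - 1 / (p : ℝ)) ^ 3 := by
          refine prod_nonneg fun p hp => ?_
          have hp1 := (hPp p hp).1
          have : 1 / (p : ℝ) ≤ 1 := by
            rw [div_le_one (by exact_mod_cast hp1.pos)]
            exact_mod_cast hp1.one_le
          exact pow_nonneg (by linarith) 3
        calc _ ≤ 1 * ∏ p ∈ P, (1 - 1 / (p : ℝ)) ^ 3 := mul_le_mul_of_nonneg_right h3 h6
          _ = _ := one_mul _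
      refine h2.trans ?_
      refine prod_le_prod (fun p hp => ?_) fun p hp => (hgb p (hPp p hp).1).2.2.2
      have hp1 := (hPp p hp).1
      have : 1 / (p : ℝ) ≤ 1 := by
        rw [div_le_one (by exact_mod_cast hp1.pos)]
        exact_mod_cast hp1.one_le
      exact pow_nonneg (by linarith) 3
    refine le_trans ?_ h1
    have h7 := hM z (by omega)
    have hpos : 0 < ∏ p ∈ (Icc 1 z).filter Nat.Prime, (1 - 1 / (p : ℝ)) := by
      refine prod_pos fun p hp => ?_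
      have hp1 := (mem_filter.1 hp).2
      have h2 : (2 : ℝ) ≤ p := by exact_mod_cast hp1.two_le
      have h3 : 1 / (p : ℝ) ≤ 1 / 2 := one_div_le_one_div_of_le (by norm_num) h2
      linarith
    rw [prod_inv_distrib] at h7
    have h8 : Real.log z ≤ K := by
      refine a6.trans ?_
      rw [div_le_iff₀ (by positivity)]
      have : 1 ≤ C1 * Real.log K := by nlinarith
      nlinarith
    have h9 : (∏ p ∈ (Icc 1 z).filter Nat.Prime, (1 - 1 / (p : ℝ)))⁻¹ ≤ Cm * K :=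
      h7.trans (mul_le_mul_of_nonneg_left h8 hCm.le)
    have h10 : 1 / (Cm * K) ≤ ∏ p ∈ (Icc 1 z).filter Nat.Prime, (1 - 1 / (p : ℝ)) := by
      rw [one_div]
      exact inv_le_of_inv_le₀ hpos h9
    rw [← one_div_pow]
    exact pow_le_pow_left₀ (by positivity) h10 3
  -- comparison of the sets
  have hsub : S.filter (fun n => P.filter (fun p => n % p ∈ R p) = ∅) ⊆
      ((Ioo 0 N).filter fun n => (n.Coprime N ∧ Rough w1 n ∧ Rough (zC C1 N) (N - n)) ∧ n ≡ n0 [MOD Wf]) ∪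
      (Ioo 0 N).filter fun n => ∃ p ∈ N.primeFactors, z < p ∧ p ∣ n := by
    intro n hn
    rw [mem_filter, hS, mem_filter] at hn
    obtain ⟨⟨hnI, hmod⟩, hB⟩ := hn
    have hnI' := mem_Ioo.1 hnI
    rw [mem_union, mem_filter, mem_filter]
    by_cases hT : ∃ p ∈ N.primeFactors, z < p ∧ p ∣ n
    · exact Or.inr ⟨hnI, hT⟩
    left
    have hno : ∀ p : ℕ, p.Prime → p ≤ z → ¬ p ∣ Wf → ¬ ((p ∣ n ∧ (p ∣ N ∨ p ≤ w1)) ∨ p ∣ N - n) := by
      intro p hp hpz hpW hcon
      have h1 : p ∈ P.filter (fun p => n % p ∈ R p) := by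
        rw [mem_filter]
        refine ⟨(hPmem p).2 ⟨hpz, hp, hpW⟩, ?_⟩
        rw [hRdef, HC_R_mem N w1 p n hp hnI'.2]
        exact hcon
      rw [hB] at h1
      exact notMem_empty p h1
    have hnW : n.Coprime Wf := by
      rw [Nat.Coprime, hmod.gcd_eq]
      exact hn0W
    have hNnW : (N - n).Coprime Wf := by
      have h1 : N - n ≡ N - n0 [MOD Wf] := by
        have h2 : (N - n) + n ≡ (N - n0) + n0 [MOD Wf] := by
          rw [Nat.sub_add_cancel hnI'.2.le, Nat.sub_add_cancel hn0.le]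
        exact Nat.ModEq.add_right_cancel hmod h2
      rw [Nat.Coprime, h1.gcd_eq]
      exact hNW
    refine ⟨hnI, ⟨?_, ?_, ?_⟩, hmod⟩
    · by_contra hc
      obtain ⟨p, hp, h1, h2⟩ := Nat.Prime.not_coprime_iff_dvd.1 hc
      by_cases hpz : p ≤ z
      · by_cases hpW : p ∣ Wf
        · exact Nat.Prime.not_coprime_iff_dvd.2 ⟨p, hp, h1, hpW⟩ hnW
        · exact hno p hp hpz hpW (Or.inl ⟨h1, Or.inl h2⟩)
      · exact hT ⟨p, Nat.mem_primeFactors.2 ⟨hp, h2, by omega⟩, by omega, h1⟩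
    · intro p hp h1
      by_contra hc
      push Not at hc
      by_cases hpW : p ∣ Wf
      · exact Nat.Prime.not_coprime_iff_dvd.2 ⟨p, hp, h1, hpW⟩ hnW
      · exact hno p hp (by omega) hpW (Or.inl ⟨h1, Or.inr hc⟩)
    · intro p hp h1
      by_contra hc
      push Not at hc
      by_cases hpW : p ∣ Wf
      · exact Nat.Prime.not_coprime_iff_dvd.2 ⟨p, hp, h1, hpW⟩ hNnW
      · exact hno p hp hc hpW (Or.inr h1)
  have hcard : ((S.filter fun n => P.filter (fun p => n % p ∈ R p) = ∅).card : ℝ) ≤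
      (((Ioo 0 N).filter fun n => (n.Coprime N ∧ Rough w1 n ∧ Rough (zC C1 N) (N - n)) ∧ n ≡ n0 [MOD Wf]).card : ℝ) +
      (((Ioo 0 N).filter fun n => ∃ p ∈ N.primeFactors, z < p ∧ p ∣ n).card : ℝ) := by
    have := (card_le_card hsub).trans (card_union_le _ _)
    exact_mod_cast this
  have hbig := HC_big N z (by omega) (by omega)
  rw [← hKdef] at hbig
  -- numbers
  have hKc : 6 * Wf * Cm ^ 3 ≤ K := (le_max_right _ _).trans a2
  have n1 : 3 * (N / K ^ 4) ≤ (N : ℝ) / Wf * (1 / 2 * ∏ p ∈ P, (1 - g p)) := by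
    have h1 : (N : ℝ) / Wf * (1 / 2 * (1 / (Cm * K) ^ 3)) ≤ (N : ℝ) / Wf * (1 / 2 * ∏ p ∈ P, (1 - g p)) :=
      mul_le_mul_of_nonneg_left (mul_le_mul_of_nonneg_left hprod (by norm_num)) (by positivity)
    refine le_trans ?_ h1
    have h2 : (N : ℝ) / Wf * (1 / 2 * (1 / (Cm * K) ^ 3)) = N / (2 * Wf * Cm ^ 3 * K ^ 3) := by
      field_simp
    have h3 : 3 * (N / K ^ 4) = N / (K ^ 4 / 3) := by
      field_simp
    rw [h2, h3]
    refine div_le_div_of_nonneg_left hNr.le (by positivity) ?_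
    have e : K ^ 4 = K * K ^ 3 := by ring
    rw [e]
    have h4 : 0 < K ^ 3 := by positivity
    nlinarith
  have n2 : 2 * (z : ℝ) ^ (24 * b + 2) ≤ N / K ^ 4 := by
    rw [le_div_iff₀ (by positivity)]
    have h1 : (N : ℝ) ^ ((1 : ℝ) / 2) * (N : ℝ) ^ ((1 : ℝ) / 2) = N := by
      rw [← Real.rpow_add hNr]
      norm_num
    have h2 : 0 ≤ (N : ℝ) ^ ((1 : ℝ) / 2) := by positivity
    have h3 : 0 < K ^ 4 := by positivity
    calc 2 * (z : ℝ) ^ (24 * b + 2) * K ^ 4 ≤ 2 * (N : ℝ) ^ ((1 : ℝ) / 2) * K ^ 4 := by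
          refine mul_le_mul_of_nonneg_right ?_ h3.le
          linarith
      _ = (N : ℝ) ^ ((1 : ℝ) / 2) * (2 * K ^ 4) := by ring
      _ ≤ (N : ℝ) ^ ((1 : ℝ) / 2) * (N : ℝ) ^ ((1 : ℝ) / 2) := mul_le_mul_of_nonneg_left a8 h2
      _ = N := h1
  have n3 : 2 * K * (N / z) ≤ N / K ^ 4 := by
    rw [mul_div_assoc', div_le_div_iff₀ hz0 (by positivity)]
    have h1 : 2 * K * K ^ 4 ≤ z := by
      have h2 : 2 ≤ K := by
        have h3 : (24 : ℝ) * b + 2 ≤ K := (le_max_left _ _).trans a2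
        have h4 : (0 : ℝ) ≤ (b : ℝ) := Nat.cast_nonneg b
        linarith
      have e : 2 * K * K ^ 4 = 2 * K ^ 5 := by ring
      have e2 : K ^ 6 = K * K ^ 5 := by ring
      rw [e]
      rw [e2] at hK6
      have h5 : 0 < K ^ 5 := by positivity
      nlinarith
    calc 2 * K * (N : ℝ) * K ^ 4 = (N : ℝ) * (2 * K * K ^ 4) := by ring
      _ ≤ (N : ℝ) * z := mul_le_mul_of_nonneg_left h1 hNr.le
  linarith

end Pool.Agent.Lib.TE
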