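import Pool.Agent.Lib.MP_7b7e48_nt.TE.Main
import Pool.Agent.Lib.MP_7b7e48_nt.TE.HA
import Pool.Agent.Lib.MP_7b7e48_nt.TE.HB
import Pool.Agent.Lib.MP_7b7e48_nt.TE.HC

/-!
# Module HD (75 minutes): the hypothesis (H1): `χ(N - n) = -s t χ(n)` for all admissible `n`

`c n = Re χ n`. PROOF. Let `n0 ∈ Sst`. `sst_low`: at least `N/K^4` elements `n ∈ Sst` with `n ≡ n0` modulo `Wf` (`n0` and `N - n0` are coprime to `Wf`: `hWf`, `w0 ≤ w1`, `w0 ≤ z`). Throw away `Pat s t` and `Pat (-s) (-t)` (hypotheses, at most `2 N/K^6` elements), and the `n` for which some prime `q > w1` with `c q = 1` divides `n` or `N - n`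
(`few_Q`, twice: at most `2 K^(CL+2) σ N ≤ 2 N/K^6` elements). So some `n` is left. For it `lam n lam (N - n) = - s t` (`lam = ±1`, `(lam n, lam (N-n))` is neither `(s,t)` nor `(-s,-t)`); all prime factors `p` of `n` and of `N - n` are `> w1` (`z ≥ w1`), do not divide `Wf N` and have `c p = -1` (`RC`: `c p = ±1` for `p ∤ Wf N`), so `c n = lam n`, `c (N-n) = lam (N-n)`
(complete multiplicativity of `c` and `lam`). Hence `c n c (N-n) = - s t`, and `eps_dep_re` gives `c n0 c (N - n0) = - s t`; finally `s c n0 + t c (N-n0) = c n0 (s + t c n0 c (N-n0)) = c n0 (s - s t²) = 0` (`c n0 ^ 2 = 1`).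
-/

set_option autoImplicit false

open Finset
open Pool.Agent.Lib.MP_45349e_nt.LS (lam)
open Pool.Agent.Lib.GT (Rough)
open Pool.Agent.Lib.RG (RC LV)
open Pool.Agent.Lib.OW (QP)

namespace Pool.Agent.Lib.TE

/-- `z` is large -/
private theorem HD_z (C1 A1 : ℝ) (hC1 : 0 < C1) (hA1 : 0 < A1) : ∃ N0 : ℕ, ∀ N : ℕ, N0 ≤ N →
    ∀ w : ℕ, (w : ℝ) ≤ (Real.log N) ^ A1 → w ≤ zC C1 N := by
  have h1 : ∀ᶠ x : ℝ in Filter.atTop, Real.log x ^ 2 ≤ 1 / (A1 * C1) * x := by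
    have h := (Real.isLittleO_pow_log_id_atTop (n := 2)).bound
      (show (0 : ℝ) < 1 / (A1 * C1) by positivity)
    filter_upwards [h, Filter.eventually_ge_atTop (0 : ℝ)] with x hx hx0
    simp only [id, Real.norm_eq_abs, abs_of_nonneg hx0] at hx
    exact (le_abs_self _).trans hx
  have h2 : Filter.Tendsto (fun N : ℕ => Real.log (N : ℝ)) Filter.atTop Filter.atTop :=
    Real.tendsto_log_atTop.comp tendsto_natCast_atTop_atTop
  obtain ⟨N0, hN0⟩ := Filter.eventually_atTop.1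
    ((h2.eventually h1).and (h2.eventually (Filter.eventually_ge_atTop (3 : ℝ))))
  refine ⟨max N0 1, fun N hN w hw => ?_⟩
  obtain ⟨h3, h4⟩ := hN0 N ((le_max_left _ _).trans hN)
  have hN1 : (0 : ℝ) < N := by exact_mod_cast (le_max_right _ _).trans hN
  have hK : 0 < Real.log (N : ℝ) := by linarith
  have hLK : 0 < Real.log (Real.log N) := Real.log_pos (by linarith)
  apply Nat.le_floor
  refine hw.trans ?_
  rw [Real.rpow_def_of_pos hK, Real.rpow_def_of_pos hN1]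
  apply Real.exp_le_exp.2
  rw [mul_one_div, le_div_iff₀ (by positivity)]
  rw [div_mul_eq_mul_div, one_mul, le_div_iff₀ (by positivity)] at h3
  calc Real.log (Real.log N) * A1 * (C1 * Real.log (Real.log N))
      = Real.log (Real.log N) ^ 2 * (A1 * C1) := by ring
    _ ≤ Real.log N := h3

private theorem HD_log (B : ℝ) : ∃ N0 : ℕ, ∀ N : ℕ, N0 ≤ N → B ≤ Real.log (N : ℝ) := by
  have h2 : Filter.Tendsto (fun N : ℕ => Real.log (N : ℝ)) Filter.atTop Filter.atTop :=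
    Real.tendsto_log_atTop.comp tendsto_natCast_atTop_atTop
  exact Filter.eventually_atTop.1 (h2.eventually (Filter.eventually_ge_atTop B))

private theorem HD_rough {w w' n : ℕ} (h : w' ≤ w) (hn : Rough w n) : Rough w' n :=
  fun p hp hpn => lt_of_le_of_lt h (hn p hp hpn)

private theorem HD_cop {N n : ℕ} (hn : n < N) (h : n.Coprime N) : (N - n).Coprime N := by
  obtain ⟨k, rfl⟩ := Nat.exists_eq_add_of_le hn.le
  rw [Nat.add_sub_cancel_left, Nat.coprime_add_self_right]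
  rw [Nat.coprime_self_add_right] at h
  exact h.symm

private theorem HD_one {M : ℕ} {c : ℕ → ℝ} (hc : RC M c) : c 1 = 1 := by
  have h1 := hc.mul 1 1
  rw [Nat.mul_one] at h1
  rcases hc.val 1 (Nat.coprime_one_left M) with h | h
  · exact h
  · rw [h] at h1
    norm_num at h1

private theorem HD_eq {M : ℕ} {c : ℕ → ℝ} (hc : RC M c) : ∀ n : ℕ, 0 < n →
    (∀ q : ℕ, q.Prime → q ∣ n → c q = -1) → lam n = c n := by
  intro n
  induction n using Nat.strong_induction_on with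
  | _ n ih =>
    intro h0 h
    by_cases h1 : n = 1
    · subst h1
      rw [Pool.Agent.Lib.MP_45349e_nt.LS.lam_one, HD_one hc]
    · have hp := Nat.minFac_prime h1
      obtain ⟨m, hm⟩ := Nat.minFac_dvd n
      have hm0 : 0 < m := by
        rcases Nat.eq_zero_or_pos m with h2 | h2
        · rw [h2, mul_zero] at hm
          omega
        · exact h2
      have hlt : m < n := by
        rw [hm]
        have := hp.two_le
        nlinarith
      have e1 := ih m hlt hm0 (fun q hq hqm => h q hq (hqm.trans (Dvd.intro_left _ hm.symm)))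
      have e2 := h _ hp (Nat.minFac_dvd n)
      have e3 : lam n = lam (n.minFac) * lam m := by
        conv_lhs => rw [hm]
        exact Pool.Agent.Lib.MP_45349e_nt.LS.lam_mul _ _ hp.ne_zero hm0.ne'
      have e4 : c n = c (n.minFac) * c m := by
        conv_lhs => rw [hm]
        exact hc.mul _ _
      rw [e3, e4, e2, e1, Pool.Agent.Lib.MP_45349e_nt.LS.lam_prime _ hp]

private theorem HD_pick {S A B C : Finset ℕ} (N : ℕ) {x a b c : ℝ} (hSN : ∀ n ∈ S, n ≤ N) (hS : x ≤ (S.card : ℝ))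
    (hA : (A.card : ℝ) ≤ a) (hB : (B.card : ℝ) ≤ b) (hC : (C.card : ℝ) ≤ c) (h : a + b + 2 * c < x) :
    ∃ n ∈ S, n ∉ A ∧ n ∉ B ∧ n ∉ C ∧ (N - n) ∉ C := by
  by_contra hcon
  push Not at hcon
  have hsub : S ⊆ A ∪ (B ∪ (C ∪ S.filter (fun n => N - n ∈ C))) := by
    intro n hn
    simp only [mem_union, mem_filter]
    by_cases h1 : n ∈ A
    · exact Or.inl h1
    by_cases h2 : n ∈ B
    · exact Or.inr (Or.inl h2)
    by_cases h3 : n ∈ C
    · exact Or.inr (Or.inr (Or.inl h3))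
    · exact Or.inr (Or.inr (Or.inr ⟨hn, hcon n hn h1 h2 h3⟩))
  have h4 : (S.filter (fun n => N - n ∈ C)).card ≤ C.card := by
    refine card_le_card_of_injOn (fun n => N - n) (fun n hn => (mem_filter.1 hn).2) ?_
    intro n hn m hm hnm
    have h5 := hSN n (mem_filter.1 hn).1
    have h6 := hSN m (mem_filter.1 hm).1
    have h7 : N - n = N - m := hnm
    omega
  have h5 := card_le_card hsub
  have h6 := card_union_le A (B ∪ (C ∪ S.filter (fun n => N - n ∈ C)))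
  have h7 := card_union_le B (C ∪ S.filter (fun n => N - n ∈ C))
  have h8 := card_union_le C (S.filter (fun n => N - n ∈ C))
  have h9 : S.card ≤ A.card + B.card + 2 * C.card := by omega
  have h10 : (S.card : ℝ) ≤ A.card + B.card + 2 * C.card := by exact_mod_cast h9
  linarith

private theorem HD_pm {a s : ℝ} (ha : a = 1 ∨ a = -1) (hs : s = 1 ∨ s = -1) : a = s ∨ a = -s := by
  rcases ha with ha | ha <;> rcases hs with hs | hs <;> rw [ha, hs]
  · exact Or.inl rfl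
  · right
    norm_num
  · right
    norm_num
  · exact Or.inl rfl

private theorem HD_sgn {a b s t : ℝ} (ha : a = 1 ∨ a = -1) (hb : b = 1 ∨ b = -1) (hs : s = 1 ∨ s = -1) (ht : t = 1 ∨ t = -1)
    (h3 : ¬ (a = s ∧ b = t)) (h4 : ¬ (a = -s ∧ b = -t)) : a * b = - (s * t) := by
  rcases HD_pm ha hs with h | h
  · rcases HD_pm hb ht with h' | h'
    · exact absurd ⟨h, h'⟩ h3
    · rw [h, h']
      ring
  · rcases HD_pm hb ht with h' | h'
    · rw [h, h']
      ring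
    · exact absurd ⟨h, h'⟩ h4

open Classical in
theorem h1 (Wf w0 : ℕ) (hW : 1 ≤ Wf) (CL : ℕ) (C1 A1 : ℝ) (hC : 5000 ≤ C1) (hA1 : 0 < A1) :
    ∃ N0 : ℕ, ∀ (N : ℕ) [NeZero (Wf * N)], N0 ≤ N → Even N → (∀ n : ℕ, Rough w0 n → n.Coprime Wf) → ∀ w1 : ℕ, w0 ≤ w1 →
    (w1 : ℝ) ≤ (Real.log N) ^ A1 → ∀ χ : DirichletCharacter ℂ (Wf * N), χ ^ 2 = 1 → χ ≠ 1 →
    ∀ L : ℝ, LV (Wf * N) (fun n => (χ (n : ZMod (Wf * N))).re) L → ((Wf * N : ℕ) : ℝ) ^ (-(1 / 50) : ℝ) ≤ L →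
    ∀ σ : ℝ, L ≤ (Real.log N) ^ CL * σ → σ ≤ 1 / (Real.log N) ^ (CL + 9) →
    ∑ q ∈ (QP (fun n => (χ (n : ZMod (Wf * N))).re) ⌊(N : ℝ) ^ ((4 : ℝ) / 5)⌋₊).filter (fun q => w1 < q), 1 / (q : ℝ) ≤ σ →
    ∀ s t : ℝ, (s = 1 ∨ s = -1) → (t = 1 ∨ t = -1) →
    ((Pat N w1 (zC C1 N) s t).card : ℝ) ≤ N / (Real.log N) ^ 6 →
    ((Pat N w1 (zC C1 N) (-s) (-t)).card : ℝ) ≤ N / (Real.log N) ^ 6 →
    ∀ n ∈ Sst N w1 (zC C1 N), s * (χ (n : ZMod (Wf * N))).re + t * (χ ((N - n : ℕ) : ZMod (Wf * N))).re = 0 := by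
  obtain ⟨N1, hN1⟩ := few_Q Wf hW CL
  obtain ⟨N2, hN2⟩ := sst_low Wf hW C1 A1 hC hA1
  obtain ⟨N3, hN3⟩ := HD_z C1 A1 (by linarith) hA1
  obtain ⟨N4, hN4⟩ := HD_log 3
  refine ⟨max (max N1 N2) (max N3 (max N4 2)), fun N _ hN hev hRo w1 hw0 hw1 χ hχ hχ1 L hL hL1 σ hLσ hσ hsum s t hs ht
    hp1 hp2 n0 hn0 => ?_⟩
  have hNa : N1 ≤ N := (le_max_left _ _).trans ((le_max_left _ _).trans hN)
  have hNb : N2 ≤ N := (le_max_right _ _).trans ((le_max_left _ _).trans hN)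
  have hNc : N3 ≤ N := (le_max_left _ _).trans ((le_max_right _ _).trans hN)
  have hNd : N4 ≤ N := (le_max_left _ _).trans ((le_max_right _ _).trans ((le_max_right _ _).trans hN))
  have hNe : 2 ≤ N := (le_max_right _ _).trans ((le_max_right _ _).trans ((le_max_right _ _).trans hN))
  have hK := hN4 N hNd
  have hKpos : 0 < Real.log (N : ℝ) := by linarith
  have hNpos : (0 : ℝ) < N := by exact_mod_cast (show 0 < N by omega)
  have hwz : w1 ≤ zC C1 N := hN3 N hNc w1 hw1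
  have hRC := Pool.Agent.Lib.RG.RC_char (Wf * N) (hNe.trans (Nat.le_mul_of_pos_left N hW)) χ hχ hχ1
  have hmem : ∀ n, n ∈ Sst N w1 (zC C1 N) ↔ (0 < n ∧ n < N) ∧ (n.Coprime N ∧ Rough w1 n ∧ Rough (zC C1 N) (N - n)) := by
    intro n
    unfold Sst
    rw [mem_filter, mem_Ioo]
  obtain ⟨⟨hn00, hn0N⟩, hn0c, hn0r, hn0r'⟩ := (hmem n0).1 hn0
  have hn0W : n0.Coprime Wf := hRo n0 (HD_rough hw0 hn0r)
  have hn0W' : (N - n0).Coprime Wf := hRo (N - n0) (HD_rough (hw0.trans hwz) hn0r')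
  have hS := hN2 N hNb hev w1 hw1 n0 hn0N hn0W hn0W'
  have hQ := hN1 N hNa _ L hRC hL hL1 σ hLσ w1 hsum
  have hineq : (N : ℝ) / (Real.log N) ^ 6 + N / (Real.log N) ^ 6 + 2 * ((Real.log N) ^ (CL + 2) * σ * N) < (N : ℝ) / (Real.log N) ^ 4 := by
    have e1 : (Real.log N) ^ (CL + 2) * σ * N ≤ (Real.log N) ^ (CL + 2) * (1 / (Real.log N) ^ (CL + 9)) * N :=
      mul_le_mul_of_nonneg_right (mul_le_mul_of_nonneg_left hσ (by positivity)) hNpos.le
    have e2 : (Real.log N) ^ (CL + 2) * (1 / (Real.log N) ^ (CL + 9)) * N = (N : ℝ) / (Real.log N) ^ 7 := by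
      have e3 : (Real.log (N : ℝ)) ^ (CL + 9) = (Real.log N) ^ (CL + 2) * (Real.log N) ^ 7 := by
        rw [← pow_add]
      rw [e3]
      field_simp
    rw [e2] at e1
    have e4 : (N : ℝ) / (Real.log N) ^ 7 ≤ (N : ℝ) / (Real.log N) ^ 6 := by
      apply div_le_div_of_nonneg_left hNpos.le (by positivity)
      exact pow_le_pow_right₀ (by linarith) (by norm_num)
    have e5 : 4 * ((N : ℝ) / (Real.log N) ^ 6) < (N : ℝ) / (Real.log N) ^ 4 := by
      have e6 : (N : ℝ) / (Real.log N) ^ 4 = (Real.log N) ^ 2 * ((N : ℝ) / (Real.log N) ^ 6) := by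
        field_simp
      rw [e6]
      apply mul_lt_mul_of_pos_right _ (by positivity)
      nlinarith
    linarith
  obtain ⟨n, hnS, hnA, hnB, hnC, hnD⟩ := HD_pick N (fun n hn => (mem_Ioo.1 (mem_filter.1 hn).1).2.le) hS hp1 hp2 hQ hineq
  obtain ⟨hnI, ⟨hnc, hnr, hnr'⟩, hnm⟩ := mem_filter.1 hnS
  obtain ⟨hn1, hnN⟩ := mem_Ioo.1 hnI
  have hnSst : n ∈ Sst N w1 (zC C1 N) := (hmem n).2 ⟨⟨hn1, hnN⟩, hnc, hnr, hnr'⟩
  have hnW : n.Coprime Wf := hRo n (HD_rough hw0 hnr)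
  have hnW' : (N - n).Coprime Wf := hRo (N - n) (HD_rough (hw0.trans hwz) hnr')
  have hnc' : (N - n).Coprime N := HD_cop hnN hnc
  have hval : ∀ m : ℕ, 0 < m → m ≤ N → m.Coprime (Wf * N) → Rough w1 m →
      m ∉ (Icc 1 N).filter (fun n => ∃ q : ℕ, q.Prime ∧ w1 < q ∧ (χ (q : ZMod (Wf * N))).re = 1 ∧ q ∣ n) →
      lam m = (χ (m : ZMod (Wf * N))).re := by
    intro m hm0 hmN hmc hmr hm
    refine HD_eq hRC m hm0 fun q hq hqm => ?_
    rcases hRC.val q (Nat.Coprime.coprime_dvd_left hqm hmc) with h | h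
    · exact absurd (mem_filter.2 ⟨mem_Icc.2 ⟨hm0, hmN⟩, q, hq, hmr q hq hqm, h, hqm⟩) hm
    · exact h
  have hv1 := hval n hn1 hnN.le (Nat.Coprime.mul_right hnW hnc) hnr hnC
  have hv2 := hval (N - n) (by omega) (by omega) (Nat.Coprime.mul_right hnW' hnc') (HD_rough hwz hnr') hnD
  have hdep := eps_dep_re Wf N χ hχ hnN.le hn0N.le hnm (Nat.Coprime.mul_right hnW hnc) (Nat.Coprime.mul_right hn0W hn0c)
  have hlam : ∀ n : ℕ, lam n = 1 ∨ lam n = -1 := by
    intro n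
    have h1 := Pool.Agent.Lib.MP_45349e_nt.LS.abs_lam n
    exact (abs_eq zero_le_one).1 h1
  have hPat : ∀ s' t' : ℝ, n ∉ Pat N w1 (zC C1 N) s' t' → ¬ (lam n = s' ∧ lam (N - n) = t') := by
    intro s' t' h h'
    apply h
    unfold Pat
    exact mem_filter.2 ⟨hnSst, h'⟩
  have h3 := hPat s t hnA
  have h4 := hPat (-s) (-t) hnB
  have h5 : lam n * lam (N - n) = - (s * t) := by
    exact HD_sgn (hlam n) (hlam (N - n)) hs ht h3 h4
  rw [← hv1, ← hv2, h5] at hdep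
  have h6 : (χ (n0 : ZMod (Wf * N))).re * (χ (n0 : ZMod (Wf * N))).re = 1 := by
    rcases hRC.val n0 (Nat.Coprime.mul_right hn0W hn0c) with h | h
    · have h' : (χ (n0 : ZMod (Wf * N))).re = 1 := h
      rw [h', one_mul]
    · have h' : (χ (n0 : ZMod (Wf * N))).re = -1 := h
      rw [h']
      norm_num
  have h7 : t * t = 1 := by
    rcases ht with rfl | rfl <;> norm_num
  have h8 : (χ ((N - n0 : ℕ) : ZMod (Wf * N))).re = - (s * t) * (χ (n0 : ZMod (Wf * N))).re := by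
    calc (χ ((N - n0 : ℕ) : ZMod (Wf * N))).re =
        ((χ (n0 : ZMod (Wf * N))).re * (χ (n0 : ZMod (Wf * N))).re) * (χ ((N - n0 : ℕ) : ZMod (Wf * N))).re := by
          rw [h6, one_mul]
      _ = (χ (n0 : ZMod (Wf * N))).re * ((χ (n0 : ZMod (Wf * N))).re * (χ ((N - n0 : ℕ) : ZMod (Wf * N))).re) := by ring
      _ = - (s * t) * (χ (n0 : ZMod (Wf * N))).re := by rw [← hdep]; ring
  rw [h8]
  linear_combination (- s * (χ (n0 : ZMod (Wf * N))).re) * h7

end Pool.Agent.Lib.TE
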