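import Pool.Agent.Lib.MP_7b7e48_nt.TE.H2D
import Pool.Agent.Lib.MP_7b7e48_nt.TE.Sift
import Pool.Agent.Lib.MP_7b7e48_nt.TE.Esb
import Pool.Agent.Lib.MP_7b7e48_nt.TE.Loc

/-!
# Module Inn (150 minutes): the sum of `h2 c` in a sifted progression

`c n = Re χ n`, `K = log N`, `T0 = T0C C1 N`, `w = max wa wb`, `P = PPS w (Wf N m)`. PROOF. Only `n` composed of primes with `c = 1` contribute; they are coprime to `Wf N`. So `Rough wa n` iff no `p ∈ P1 = {p ∈ P : p ≤ wa, c p = 1}` divides `n` (`p ∣ m`: `n ≡ b` is coprime to `m`), and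
`Rough wb (N - G n)` iff no `p ∈ P2 = {p ∈ P : p ≤ wb}` divides `N - G n` (`p ∣ Wf m`: hypothesis `hcl`; `p ∣ N`: `p ∤ G n`). `sift` with `E = {n ∈ (Z, Y] : n ≡ b}`, `f = h2 c`, `T := T0`.
THE TERM `(S1, S2)`: `d1 = ∏ S1`, `d2 = ∏ S2` (`≤ N^(1/5000)` each, `esb2`). If `S1, S2` are not disjoint, or some `p ∈ S2` divides `G`, the sum over `n` is `0` (such `p` would divide `N`). Otherwise `n ≡ b'` modulo `Wf m d2` (`b' ≡ b`, `b' ≡ N G^(-1)` modulo `d2`, a unit), `d1 ∣ n`: `h2d` at `Y` and at `Z`: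
main term `μ0 ∏_{S1} 2/(q+1) ∏_{S2} HH c p`, `μ0 = MT Wf N · L · HH c m · (Y - Z)` (`HH_mul`; `HH c d2 = ∏ HH c p`), error `≤ 2 √Y N^(35/100)`. So the main term is `μ0` times the sum over the disjoint pairs with `|S1|, |S2| < T0` of `(-1)^(..) ∏_{S1} u ∏_{S2} v`,
`u p = [p ≤ wa, c p = 1] 2/(p+1)`, `v p = [p ≤ wb, p ∤ G] HH c p`, `u + v = xx c wa wb G`. All pairs: `expand`. The pairs with `|S1| ≥ T0` or `|S2| ≥ T0`: every such set contains a subset with `T0` elements: `≤ 2 (∑_{|S| = T0} ∏) (∑_S ∏)² ≤ 2 K^(-A-12) K^10` (`esb1 (A + 12)`, `esb2`; `u, v ≤ 4/p`).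
ERROR TERMS of `sift` (one or two of the sets have exactly `T0` elements): the same evaluation (sums over `n ≤ Y`): `≤ μ0' (2 K^(-A-12) + K^(-2A-24)) + ..`, `μ0' = MT L HH c m Y`. The errors `√Y N^(35/100)` occur at most `3 N^(2/5000)` times (`esb2` (5)).
-/

set_option autoImplicit false

open Finset
open Pool.Agent.Lib.GT (Rough)
open Pool.Agent.Lib.RG (RC LV rr PB)
open Pool.Agent.Lib.OW (rs dd h2)

namespace Pool.Agent.Lib.TE

open Classical in
private theorem Inn_tail (P : Finset ℕ) (x : ℕ → ℝ) (hx : ∀ p ∈ P, 0 ≤ x p) (T : ℕ) :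
    ∑ S ∈ P.powerset.filter (fun S => ¬ S.card < T), ∏ p ∈ S, x p ≤
      (∑ S ∈ P.powersetCard T, ∏ p ∈ S, x p) * ∑ S ∈ P.powerset, ∏ p ∈ S, x p := by
  have hex : ∀ S : Finset ℕ, ∃ S' : Finset ℕ, ¬ S.card < T → S' ⊆ S ∧ S'.card = T := by
    intro S
    by_cases h : S.card < T
    · exact ⟨∅, fun h' => absurd h h'⟩
    · obtain ⟨S', h1, h2⟩ := exists_subset_card_eq (not_lt.1 h)
      exact ⟨S', fun _ => ⟨h1, h2⟩⟩
  choose φ hφ using hex
  have h0 : ∀ S ⊆ P, 0 ≤ ∏ p ∈ S, x p := fun S hS => prod_nonneg fun p hp => hx p (hS hp)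
  rw [sum_mul_sum, ← sum_product']
  have h1 : ∑ S ∈ P.powerset.filter (fun S => ¬ S.card < T), ∏ p ∈ S, x p =
      ∑ r ∈ (P.powerset.filter (fun S => ¬ S.card < T)).image (fun S => (φ S, S \ φ S)),
        (∏ p ∈ r.1, x p) * ∏ p ∈ r.2, x p := by
    rw [sum_image]
    · refine sum_congr rfl fun S hS => ?_
      rw [mem_filter] at hS
      rw [mul_comm, prod_sdiff (hφ S hS.2).1]
    · intro S hS S' hS' he
      rw [mem_coe, mem_filter] at hS hS'
      rw [Prod.mk.injEq] at he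
      rw [← union_sdiff_of_subset (hφ S hS.2).1, ← union_sdiff_of_subset (hφ S' hS'.2).1, he.1]
      rw [he.1] at he
      rw [he.2]
  rw [h1]
  refine sum_le_sum_of_subset_of_nonneg ?_ ?_
  · intro r hr
    obtain ⟨S, hS, rfl⟩ := mem_image.1 hr
    rw [mem_filter, mem_powerset] at hS
    rw [mem_product, mem_powersetCard, mem_powerset]
    exact ⟨⟨(hφ S hS.2).1.trans hS.1, (hφ S hS.2).2⟩, sdiff_subset.trans hS.1⟩
  · intro r hr _
    rw [mem_product, mem_powersetCard, mem_powerset] at hr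
    exact mul_nonneg (h0 _ hr.1.1) (h0 _ hr.2)

open Classical in
/-- the combinatorial part: from the inequality of `sift` to the product over the primes -/
private theorem Inn_comb (P P1 P2 : Finset ℕ) (h1 : P1 ⊆ P) (h2 : P2 ⊆ P) (u v : ℕ → ℝ)
    (hu : ∀ p ∈ P, 0 ≤ u p) (hv : ∀ p ∈ P, 0 ≤ v p) (hu0 : ∀ p ∈ P, p ∉ P1 → u p = 0)
    (hv0 : ∀ p ∈ P, p ∉ P2 → v p = 0) (T : ℕ) (δ B Q μ err X : ℝ) (hδ : 0 ≤ δ) (hB : 1 ≤ B)
    (hQ1 : 1 ≤ Q) (hμ : 0 ≤ μ) (herr : 0 ≤ err)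
    (hδu : ∑ S ∈ P.powersetCard T, ∏ p ∈ S, u p ≤ δ)
    (hδv : ∑ S ∈ P.powersetCard T, ∏ p ∈ S, v p ≤ δ)
    (hBu : ∑ S ∈ P.powerset, ∏ p ∈ S, u p ≤ B) (hBv : ∑ S ∈ P.powerset, ∏ p ∈ S, v p ≤ B)
    (hQ : (((P.powerset.filter fun S => S.card ≤ T).card : ℕ) : ℝ) ≤ Q)
    (F : Finset ℕ → Finset ℕ → ℝ)
    (hF : ∀ S1 ⊆ P1, ∀ S2 ⊆ P2, S1.card ≤ T → S2.card ≤ T →
      |F S1 S2 - (if Disjoint S1 S2 then μ * ((∏ p ∈ S1, u p) * ∏ p ∈ S2, v p) else 0)| ≤ err)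
    (hX : |X - ∑ S1 ∈ P1.powerset.filter (fun S => S.card < T),
        ∑ S2 ∈ P2.powerset.filter (fun S => S.card < T),
        (-1 : ℝ) ^ (S1.card + S2.card) * F S1 S2| ≤
      ∑ S1 ∈ P1.powersetCard T, F S1 ∅ + ∑ S2 ∈ P2.powersetCard T, F ∅ S2 +
      ∑ S1 ∈ P1.powersetCard T, ∑ S2 ∈ P2.powersetCard T, F S1 S2) :
    |X - μ * ∏ p ∈ P, (1 - (u p + v p))| ≤
      μ * (2 * (δ * B) * B + 2 * δ + δ * δ) + 4 * (Q * Q) * err := by
  have hpu : ∀ S ⊆ P, 0 ≤ ∏ p ∈ S, u p := fun S hS => prod_nonneg fun p hp => hu p (hS hp)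
  have hpv : ∀ S ⊆ P, 0 ≤ ∏ p ∈ S, v p := fun S hS => prod_nonneg fun p hp => hv p (hS hp)
  have hcl : ∀ P' ⊆ P, ((P'.powerset.filter (fun S => S.card < T)).card : ℝ) ≤ Q := by
    intro P' hP'
    refine le_trans ?_ hQ
    exact_mod_cast card_le_card (fun S hS => by
      rw [mem_filter, mem_powerset] at hS ⊢
      exact ⟨hS.1.trans hP', hS.2.le⟩)
  have hce : ∀ P' ⊆ P, ((P'.powersetCard T).card : ℝ) ≤ Q := by
    intro P' hP'
    refine le_trans ?_ hQ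
    exact_mod_cast card_le_card (fun S hS => by
      rw [mem_powersetCard] at hS
      rw [mem_filter, mem_powerset]
      exact ⟨hS.1.trans hP', hS.2.le⟩)
  let w : Finset ℕ → Finset ℕ → ℝ := fun S1 S2 =>
    if Disjoint S1 S2 then (∏ p ∈ S1, u p) * ∏ p ∈ S2, v p else 0
  have hw0 : ∀ S1 ⊆ P, ∀ S2 ⊆ P, 0 ≤ w S1 S2 := by
    intro S1 hS1 S2 hS2
    show 0 ≤ if Disjoint S1 S2 then (∏ p ∈ S1, u p) * ∏ p ∈ S2, v p else 0
    split_ifs
    · exact mul_nonneg (hpu _ hS1) (hpv _ hS2)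
    · exact le_rfl
  have hwle : ∀ S1 ⊆ P, ∀ S2 ⊆ P, w S1 S2 ≤ (∏ p ∈ S1, u p) * ∏ p ∈ S2, v p := by
    intro S1 hS1 S2 hS2
    show (if Disjoint S1 S2 then (∏ p ∈ S1, u p) * ∏ p ∈ S2, v p else 0) ≤ _
    split_ifs
    · exact le_rfl
    · exact mul_nonneg (hpu _ hS1) (hpv _ hS2)
  have hμw : ∀ S1 S2, (if Disjoint S1 S2 then μ * ((∏ p ∈ S1, u p) * ∏ p ∈ S2, v p) else 0) =
      μ * w S1 S2 := by
    intro S1 S2
    show _ = μ * (if Disjoint S1 S2 then (∏ p ∈ S1, u p) * ∏ p ∈ S2, v p else 0)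
    split_ifs
    · rfl
    · rw [mul_zero]
  simp only [hμw] at hF
  -- the main sum
  set M0 := ∑ S1 ∈ P1.powerset.filter (fun S => S.card < T),
        ∑ S2 ∈ P2.powerset.filter (fun S => S.card < T),
        (-1 : ℝ) ^ (S1.card + S2.card) * F S1 S2 with hM0
  set M1 := ∑ S1 ∈ P1.powerset.filter (fun S => S.card < T),
        ∑ S2 ∈ P2.powerset.filter (fun S => S.card < T),
        (-1 : ℝ) ^ (S1.card + S2.card) * w S1 S2 with hM1
  have e1 : |M0 - μ * M1| ≤ Q * Q * err := by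
    rw [hM0, hM1, mul_sum, ← sum_sub_distrib]
    refine (abs_sum_le_sum_abs _ _).trans ?_
    have e2 : ∀ S1 ∈ P1.powerset.filter (fun S => S.card < T),
        |∑ S2 ∈ P2.powerset.filter (fun S => S.card < T), (-1 : ℝ) ^ (S1.card + S2.card) * F S1 S2 -
          μ * ∑ S2 ∈ P2.powerset.filter (fun S => S.card < T),
            (-1 : ℝ) ^ (S1.card + S2.card) * w S1 S2| ≤ Q * err := by
      intro S1 hS1
      rw [mul_sum, ← sum_sub_distrib]
      refine (abs_sum_le_sum_abs _ _).trans ?_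
      have e3 : ∀ S2 ∈ P2.powerset.filter (fun S => S.card < T),
          |(-1 : ℝ) ^ (S1.card + S2.card) * F S1 S2 -
            μ * ((-1 : ℝ) ^ (S1.card + S2.card) * w S1 S2)| ≤ err := by
        intro S2 hS2
        rw [mem_filter, mem_powerset] at hS1 hS2
        have e4 : (-1 : ℝ) ^ (S1.card + S2.card) * F S1 S2 -
            μ * ((-1 : ℝ) ^ (S1.card + S2.card) * w S1 S2) =
            (-1 : ℝ) ^ (S1.card + S2.card) * (F S1 S2 - μ * w S1 S2) := by ring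
        rw [e4, abs_mul, abs_pow, abs_neg, abs_one, one_pow, one_mul]
        exact hF S1 hS1.1 S2 hS2.1 hS1.2.le hS2.2.le
      refine (sum_le_card_nsmul _ _ _ e3).trans ?_
      rw [nsmul_eq_mul]
      exact mul_le_mul_of_nonneg_right (hcl P2 h2) herr
    refine (sum_le_card_nsmul _ _ _ e2).trans ?_
    rw [nsmul_eq_mul, mul_assoc]
    exact mul_le_mul_of_nonneg_right (hcl P1 h1) (mul_nonneg (by linarith) herr)
  -- enlarge the sets
  have hwu : ∀ S1 ⊆ P, ¬ S1 ⊆ P1 → ∀ S2, w S1 S2 = 0 := by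
    intro S1 hS1 hn S2
    obtain ⟨p, hp, hp1⟩ := not_subset.1 hn
    have : ∏ p ∈ S1, u p = 0 := prod_eq_zero hp (hu0 p (hS1 hp) hp1)
    show (if Disjoint S1 S2 then (∏ p ∈ S1, u p) * ∏ p ∈ S2, v p else 0) = 0
    rw [this, zero_mul, ite_self]
  have hwv : ∀ S2 ⊆ P, ¬ S2 ⊆ P2 → ∀ S1, w S1 S2 = 0 := by
    intro S2 hS2 hn S1
    obtain ⟨p, hp, hp1⟩ := not_subset.1 hn
    have : ∏ p ∈ S2, v p = 0 := prod_eq_zero hp (hv0 p (hS2 hp) hp1)
    show (if Disjoint S1 S2 then (∏ p ∈ S1, u p) * ∏ p ∈ S2, v p else 0) = 0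
    rw [this, mul_zero, ite_self]
  have e5 : M1 = ∑ S1 ∈ P.powerset.filter (fun S => S.card < T),
        ∑ S2 ∈ P.powerset.filter (fun S => S.card < T), (-1 : ℝ) ^ (S1.card + S2.card) * w S1 S2 := by
    rw [hM1]
    have e6 : ∀ S1, ∑ S2 ∈ P2.powerset.filter (fun S => S.card < T),
        (-1 : ℝ) ^ (S1.card + S2.card) * w S1 S2 = ∑ S2 ∈ P.powerset.filter (fun S => S.card < T),
          (-1 : ℝ) ^ (S1.card + S2.card) * w S1 S2 := by
      intro S1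
      refine sum_subset ?_ ?_
      · intro S hS
        rw [mem_filter, mem_powerset] at hS ⊢
        exact ⟨hS.1.trans h2, hS.2⟩
      · intro S hS hn
        rw [mem_filter, mem_powerset] at hS hn
        rw [hwv S hS.1 (fun h => hn ⟨h, hS.2⟩), mul_zero]
    rw [sum_congr rfl fun S1 _ => e6 S1]
    refine sum_subset ?_ ?_
    · intro S hS
      rw [mem_filter, mem_powerset] at hS ⊢
      exact ⟨hS.1.trans h1, hS.2⟩
    · intro S hS hn
      rw [mem_filter, mem_powerset] at hS hn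
      exact sum_eq_zero fun S2 _ => by rw [hwu S hS.1 (fun h => hn ⟨h, hS.2⟩), mul_zero]
  have e6 : ∏ p ∈ P, (1 - (u p + v p)) = ∑ S1 ∈ P.powerset, ∑ S2 ∈ P.powerset,
      (-1 : ℝ) ^ (S1.card + S2.card) * w S1 S2 := by
    rw [expand]
    refine sum_congr rfl fun S1 _ => ?_
    rw [sum_filter]
    refine sum_congr rfl fun S2 _ => ?_
    show _ = (-1 : ℝ) ^ (S1.card + S2.card) *
      (if Disjoint S1 S2 then (∏ p ∈ S1, u p) * ∏ p ∈ S2, v p else 0)
    split_ifs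
    · rfl
    · rw [mul_zero]
  have hsu : 0 ≤ ∑ S ∈ P.powerset, ∏ p ∈ S, u p := sum_nonneg fun S hS => hpu S (mem_powerset.1 hS)
  have hsv : 0 ≤ ∑ S ∈ P.powerset, ∏ p ∈ S, v p := sum_nonneg fun S hS => hpv S (mem_powerset.1 hS)
  have tu : ∑ S ∈ P.powerset.filter (fun S => ¬ S.card < T), ∏ p ∈ S, u p ≤ δ * B :=
    (Inn_tail P u hu T).trans (mul_le_mul hδu hBu hsu hδ)
  have tv : ∑ S ∈ P.powerset.filter (fun S => ¬ S.card < T), ∏ p ∈ S, v p ≤ δ * B :=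
    (Inn_tail P v hv T).trans (mul_le_mul hδv hBv hsv hδ)
  have hδB : 0 ≤ δ * B := mul_nonneg hδ (by linarith)
  have habs : ∀ S1 ⊆ P, ∀ S2 ⊆ P, |(-1 : ℝ) ^ (S1.card + S2.card) * w S1 S2| ≤
      (∏ p ∈ S1, u p) * ∏ p ∈ S2, v p := by
    intro S1 hS1 S2 hS2
    rw [abs_mul, abs_pow, abs_neg, abs_one, one_pow, one_mul, abs_of_nonneg (hw0 S1 hS1 S2 hS2)]
    exact hwle S1 hS1 S2 hS2
  have e7 : |M1 - ∏ p ∈ P, (1 - (u p + v p))| ≤ 2 * (δ * B) * B := by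
    have e8 : ∏ p ∈ P, (1 - (u p + v p)) - M1 =
        (∑ S1 ∈ P.powerset.filter (fun S => ¬ S.card < T), ∑ S2 ∈ P.powerset,
          (-1 : ℝ) ^ (S1.card + S2.card) * w S1 S2) +
        ∑ S1 ∈ P.powerset.filter (fun S => S.card < T),
          ∑ S2 ∈ P.powerset.filter (fun S => ¬ S.card < T),
            (-1 : ℝ) ^ (S1.card + S2.card) * w S1 S2 := by
      rw [e6, e5, ← sum_filter_add_sum_filter_not P.powerset (fun S => S.card < T)]
      have e9 : ∑ S1 ∈ P.powerset.filter (fun S => S.card < T), ∑ S2 ∈ P.powerset,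
          (-1 : ℝ) ^ (S1.card + S2.card) * w S1 S2 =
          ∑ S1 ∈ P.powerset.filter (fun S => S.card < T),
            ((∑ S2 ∈ P.powerset.filter (fun S => S.card < T),
              (-1 : ℝ) ^ (S1.card + S2.card) * w S1 S2) +
            ∑ S2 ∈ P.powerset.filter (fun S => ¬ S.card < T),
              (-1 : ℝ) ^ (S1.card + S2.card) * w S1 S2) :=
        sum_congr rfl fun S1 _ => (sum_filter_add_sum_filter_not P.powerset
          (fun S => S.card < T) _).symm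
      rw [e9, sum_add_distrib]
      ring
    rw [abs_sub_comm, e8]
    refine (abs_add_le _ _).trans ?_
    have f1 : |∑ S1 ∈ P.powerset.filter (fun S => ¬ S.card < T), ∑ S2 ∈ P.powerset,
          (-1 : ℝ) ^ (S1.card + S2.card) * w S1 S2| ≤ δ * B * B := by
      refine (abs_sum_le_sum_abs _ _).trans ?_
      calc ∑ S1 ∈ P.powerset.filter (fun S => ¬ S.card < T), |∑ S2 ∈ P.powerset,
          (-1 : ℝ) ^ (S1.card + S2.card) * w S1 S2| ≤
          ∑ S1 ∈ P.powerset.filter (fun S => ¬ S.card < T), (∏ p ∈ S1, u p) *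
            ∑ S2 ∈ P.powerset, ∏ p ∈ S2, v p := by
            refine sum_le_sum fun S1 hS1 => ?_
            rw [mem_filter, mem_powerset] at hS1
            rw [mul_sum]
            exact (abs_sum_le_sum_abs _ _).trans (sum_le_sum fun S2 hS2 =>
              habs S1 hS1.1 S2 (mem_powerset.1 hS2))
        _ = (∑ S1 ∈ P.powerset.filter (fun S => ¬ S.card < T), ∏ p ∈ S1, u p) *
            ∑ S2 ∈ P.powerset, ∏ p ∈ S2, v p := by rw [sum_mul]
        _ ≤ δ * B * B := mul_le_mul tu hBv hsv hδB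
    have f2 : |∑ S1 ∈ P.powerset.filter (fun S => S.card < T),
          ∑ S2 ∈ P.powerset.filter (fun S => ¬ S.card < T),
            (-1 : ℝ) ^ (S1.card + S2.card) * w S1 S2| ≤ B * (δ * B) := by
      refine (abs_sum_le_sum_abs _ _).trans ?_
      have htv0 : 0 ≤ ∑ S ∈ P.powerset.filter (fun S => ¬ S.card < T), ∏ p ∈ S, v p :=
        sum_nonneg fun S hS => hpv S (mem_powerset.1 (mem_filter.1 hS).1)
      calc ∑ S1 ∈ P.powerset.filter (fun S => S.card < T),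
          |∑ S2 ∈ P.powerset.filter (fun S => ¬ S.card < T),
            (-1 : ℝ) ^ (S1.card + S2.card) * w S1 S2| ≤
          ∑ S1 ∈ P.powerset.filter (fun S => S.card < T), (∏ p ∈ S1, u p) *
            ∑ S2 ∈ P.powerset.filter (fun S => ¬ S.card < T), ∏ p ∈ S2, v p := by
            refine sum_le_sum fun S1 hS1 => ?_
            rw [mem_filter, mem_powerset] at hS1
            rw [mul_sum]
            exact (abs_sum_le_sum_abs _ _).trans (sum_le_sum fun S2 hS2 =>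
              habs S1 hS1.1 S2 (mem_powerset.1 (mem_filter.1 hS2).1))
        _ ≤ ∑ S1 ∈ P.powerset, (∏ p ∈ S1, u p) *
            ∑ S2 ∈ P.powerset.filter (fun S => ¬ S.card < T), ∏ p ∈ S2, v p := by
            refine sum_le_sum_of_subset_of_nonneg (filter_subset _ _) fun S hS _ => ?_
            exact mul_nonneg (hpu S (mem_powerset.1 hS)) htv0
        _ = (∑ S1 ∈ P.powerset, ∏ p ∈ S1, u p) *
            ∑ S2 ∈ P.powerset.filter (fun S => ¬ S.card < T), ∏ p ∈ S2, v p := by rw [sum_mul]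
        _ ≤ B * (δ * B) := mul_le_mul hBu tv htv0 (by linarith)
    linarith
  -- the error terms
  have hFle : ∀ S1 ⊆ P1, ∀ S2 ⊆ P2, S1.card ≤ T → S2.card ≤ T →
      F S1 S2 ≤ μ * ((∏ p ∈ S1, u p) * ∏ p ∈ S2, v p) + err := by
    intro S1 hS1 S2 hS2 c1 c2
    have g1 := (abs_le.1 (hF S1 hS1 S2 hS2 c1 c2)).2
    have g2 := mul_le_mul_of_nonneg_left (hwle S1 (hS1.trans h1) S2 (hS2.trans h2)) hμ
    linarith
  have hδu1 : ∑ S ∈ P1.powersetCard T, ∏ p ∈ S, u p ≤ δ :=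
    (sum_le_sum_of_subset_of_nonneg (powersetCard_mono h1) fun S hS _ =>
      hpu S (mem_powersetCard.1 hS).1).trans hδu
  have hδv1 : ∑ S ∈ P2.powersetCard T, ∏ p ∈ S, v p ≤ δ :=
    (sum_le_sum_of_subset_of_nonneg (powersetCard_mono h2) fun S hS _ =>
      hpv S (mem_powersetCard.1 hS).1).trans hδv
  have g1 : ∑ S1 ∈ P1.powersetCard T, F S1 ∅ ≤ μ * δ + Q * err := by
    calc ∑ S1 ∈ P1.powersetCard T, F S1 ∅ ≤ ∑ S1 ∈ P1.powersetCard T, (μ * (∏ p ∈ S1, u p) + err) := by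
          refine sum_le_sum fun S1 hS1 => ?_
          rw [mem_powersetCard] at hS1
          have := hFle S1 hS1.1 ∅ (empty_subset _) hS1.2.le (by simp)
          rwa [prod_empty, mul_one] at this
      _ = μ * (∑ S1 ∈ P1.powersetCard T, ∏ p ∈ S1, u p) + (P1.powersetCard T).card * err := by
          rw [sum_add_distrib, mul_sum, sum_const, nsmul_eq_mul]
      _ ≤ μ * δ + Q * err := add_le_add (mul_le_mul_of_nonneg_left hδu1 hμ)
          (mul_le_mul_of_nonneg_right (hce P1 h1) herr)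
  have g2 : ∑ S2 ∈ P2.powersetCard T, F ∅ S2 ≤ μ * δ + Q * err := by
    calc ∑ S2 ∈ P2.powersetCard T, F ∅ S2 ≤ ∑ S2 ∈ P2.powersetCard T, (μ * (∏ p ∈ S2, v p) + err) := by
          refine sum_le_sum fun S2 hS2 => ?_
          rw [mem_powersetCard] at hS2
          have := hFle ∅ (empty_subset _) S2 hS2.1 (by simp) hS2.2.le
          rwa [prod_empty, one_mul] at this
      _ = μ * (∑ S2 ∈ P2.powersetCard T, ∏ p ∈ S2, v p) + (P2.powersetCard T).card * err := by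
          rw [sum_add_distrib, mul_sum, sum_const, nsmul_eq_mul]
      _ ≤ μ * δ + Q * err := add_le_add (mul_le_mul_of_nonneg_left hδv1 hμ)
          (mul_le_mul_of_nonneg_right (hce P2 h2) herr)
  have hQ0 : 0 ≤ Q := by linarith
  have g3 : ∑ S1 ∈ P1.powersetCard T, ∑ S2 ∈ P2.powersetCard T, F S1 S2 ≤
      μ * (δ * δ) + Q * Q * err := by
    have hv1 : 0 ≤ ∑ S ∈ P2.powersetCard T, ∏ p ∈ S, v p := sum_nonneg fun S hS =>
      hpv S ((mem_powersetCard.1 hS).1.trans h2)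
    have hu1 : 0 ≤ ∑ S ∈ P1.powersetCard T, ∏ p ∈ S, u p := sum_nonneg fun S hS =>
      hpu S ((mem_powersetCard.1 hS).1.trans h1)
    calc ∑ S1 ∈ P1.powersetCard T, ∑ S2 ∈ P2.powersetCard T, F S1 S2 ≤
        ∑ S1 ∈ P1.powersetCard T, (μ * ((∏ p ∈ S1, u p) *
          ∑ S2 ∈ P2.powersetCard T, ∏ p ∈ S2, v p) + (P2.powersetCard T).card * err) := by
          refine sum_le_sum fun S1 hS1 => ?_
          rw [mem_powersetCard] at hS1
          have : μ * ((∏ p ∈ S1, u p) * ∑ S2 ∈ P2.powersetCard T, ∏ p ∈ S2, v p) +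
              (P2.powersetCard T).card * err =
              ∑ S2 ∈ P2.powersetCard T, (μ * ((∏ p ∈ S1, u p) * ∏ p ∈ S2, v p) + err) := by
            rw [sum_add_distrib, mul_sum, mul_sum, sum_const, nsmul_eq_mul]
          rw [this]
          refine sum_le_sum fun S2 hS2 => ?_
          rw [mem_powersetCard] at hS2
          exact hFle S1 hS1.1 S2 hS2.1 hS1.2.le hS2.2.le
      _ = μ * ((∑ S1 ∈ P1.powersetCard T, ∏ p ∈ S1, u p) *
          ∑ S2 ∈ P2.powersetCard T, ∏ p ∈ S2, v p) +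
          (P1.powersetCard T).card * ((P2.powersetCard T).card * err) := by
          rw [sum_add_distrib, sum_const, nsmul_eq_mul, sum_mul, mul_sum]
      _ ≤ μ * (δ * δ) + Q * Q * err := by
          refine add_le_add (mul_le_mul_of_nonneg_left (mul_le_mul hδu1 hδv1 hv1 hδ) hμ) ?_
          rw [mul_assoc]
          exact mul_le_mul (hce P1 h1) (mul_le_mul_of_nonneg_right (hce P2 h2) herr)
            (mul_nonneg (Nat.cast_nonneg _) herr) hQ0
  have k1 : Q * err ≤ Q * Q * err := by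
    have : Q * 1 ≤ Q * Q := mul_le_mul_of_nonneg_left hQ1 hQ0
    rw [mul_one] at this
    exact mul_le_mul_of_nonneg_right this herr
  have k2 : |μ * M1 - μ * ∏ p ∈ P, (1 - (u p + v p))| ≤ μ * (2 * (δ * B) * B) := by
    rw [← mul_sub, abs_mul, abs_of_nonneg hμ]
    exact mul_le_mul_of_nonneg_left e7 hμ
  have k3 := abs_sub_le X M0 (μ * ∏ p ∈ P, (1 - (u p + v p)))
  have k4 := abs_sub_le M0 (μ * M1) (μ * ∏ p ∈ P, (1 - (u p + v p)))
  have k5 : μ * (2 * (δ * B) * B + 2 * δ + δ * δ) + 4 * (Q * Q) * err =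
      μ * (2 * (δ * B) * B) + 2 * (μ * δ) + μ * (δ * δ) + 4 * (Q * Q * err) := by ring
  rw [k5]
  linarith

private theorem Inn_HH (c : ℕ → ℝ) (S : Finset ℕ) (hS : ∀ p ∈ S, p.Prime) :
    HH c (∏ p ∈ S, p) = ∏ p ∈ S, HH c p := by
  classical
  induction S using Finset.induction_on with
  | empty => simp [HH]
  | insert p S hp ih =>
    rw [prod_insert hp, prod_insert hp, HH_mul, ih fun q hq => hS q (mem_insert_of_mem hq)]
    refine Nat.Coprime.prod_right fun q hq => ?_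
    rw [Nat.coprime_primes (hS p (mem_insert_self _ _)) (hS q (mem_insert_of_mem hq))]
    rintro rfl
    exact hp hq

private theorem Inn_sqf {A : Finset ℕ} (hA : ∀ p ∈ A, p.Prime) : Squarefree (∏ p ∈ A, p) := by
  refine Finset.squarefree_prod_of_pairwise_isCoprime (fun p hp q hq hpq => ?_) fun p hp => ?_
  · exact (Nat.coprime_iff_isRelPrime).1 ((Nat.coprime_primes (hA p hp) (hA q hq)).2 hpq)
  · exact (hA p hp).prime.squarefree

private theorem Inn_cop {A : Finset ℕ} (hA : ∀ p ∈ A, p.Prime) {x : ℕ} (hx : ∀ p ∈ A, ¬ p ∣ x) :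
    (∏ p ∈ A, p).Coprime x :=
  Nat.Coprime.prod_left fun p hp => (Nat.Prime.coprime_iff_not_dvd (hA p hp)).2 (hx p hp)

open Classical in
/-- the sum over the `e` with `S1` dividing `e` and `S2` dividing `N - G e` -/
private theorem Inn_F (Wf N : ℕ) (c : ℕ → ℝ) (L : ℝ) (m G b Z Y : ℕ) (S1 S2 : Finset ℕ)
    (hb : b.Coprime (Wf * m)) (hZ : 1 ≤ Z) (hZY : Z ≤ Y)
    (hGY : G * Y < N) (hYN : Y ≤ N) (hS1 : ∀ p ∈ S1, p.Prime)
    (hS2 : ∀ p ∈ S2, p.Prime ∧ ¬ p ∣ Wf * N * m) (hSG : ∀ p ∈ S2, ¬ p ∣ G)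
    (H : ∀ b' y : ℕ, b'.Coprime (Wf * (m * ∏ p ∈ S2, p)) → 1 ≤ y → (y : ℝ) ≤ (N : ℝ) ^ 2 →
      |∑ n ∈ (Finset.Icc 1 y).filter (fun n => n ≡ b' [MOD Wf * (m * ∏ p ∈ S2, p)] ∧
        (∏ p ∈ S1, p) ∣ n), h2 c n -
        MT Wf N * L * HH c (m * ∏ p ∈ S2, p) *
          (∏ q ∈ (∏ p ∈ S1, p).primeFactors, 2 / ((q : ℝ) + 1)) * y| ≤
        Real.sqrt y * (N : ℝ) ^ ((35 : ℝ) / 100)) :
    |∑ e ∈ ((Ioc Z Y).filter (fun n => n ≡ b [MOD Wf * m])).filter
        (fun e => (∀ p ∈ S1, p ∣ e) ∧ ∀ p ∈ S2, p ∣ (N - G * e)), h2 c e -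
      MT Wf N * L * HH c m * ((Y : ℝ) - Z) *
        ((∏ p ∈ S1, 2 / ((p : ℝ) + 1)) * ∏ p ∈ S2, HH c p)| ≤
      2 * (Real.sqrt Y * (N : ℝ) ^ ((35 : ℝ) / 100)) := by
  set d1 := ∏ p ∈ S1, p with hd1
  set d2 := ∏ p ∈ S2, p with hd2
  have hS2p : ∀ p ∈ S2, p.Prime := fun p hp => (hS2 p hp).1
  have hN1 : 1 ≤ N := by omega
  have hdv : ∀ p ∈ S2, ¬ p ∣ Wf ∧ ¬ p ∣ N ∧ ¬ p ∣ m := by
    intro p hp
    obtain ⟨_, h2⟩ := hS2 p hp
    refine ⟨fun h => h2 ?_, fun h => h2 ?_, fun h => h2 ?_⟩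
    · exact (h.mul_right N).mul_right m
    · exact (h.mul_left Wf).mul_right m
    · exact h.mul_left (Wf * N)
  have c1 : d2.Coprime Wf := Inn_cop hS2p fun p hp => (hdv p hp).1
  have c2 : d2.Coprime N := Inn_cop hS2p fun p hp => (hdv p hp).2.1
  have c3 : d2.Coprime m := Inn_cop hS2p fun p hp => (hdv p hp).2.2
  have c4 : d2.Coprime G := Inn_cop hS2p hSG
  have c5 : (Wf * m).Coprime d2 := (Nat.Coprime.mul_right c1 c3).symm
  have hd20 : 0 < d2 := prod_pos fun p hp => (hS2p p hp).pos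
  have : NeZero d2 := ⟨hd20.ne'⟩
  -- the inverse of `G`
  obtain ⟨g', hg'⟩ : ∃ g' : ℕ, G * g' ≡ 1 [MOD d2] := by
    refine ⟨((G : ZMod d2)⁻¹).val, ?_⟩
    rw [← ZMod.natCast_eq_natCast_iff]
    push_cast
    rw [ZMod.natCast_zmod_val]
    exact ZMod.coe_mul_inv_eq_one G c4.symm
  have hinv : ∀ e : ℕ, G * e ≡ N [MOD d2] ↔ e ≡ N * g' [MOD d2] := by
    intro e
    constructor
    · intro h
      calc e = 1 * e := (one_mul e).symm
        _ ≡ (G * g') * e [MOD d2] := (hg'.symm.mul_right e)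
        _ = (G * e) * g' := by ring
        _ ≡ N * g' [MOD d2] := h.mul_right g'
    · intro h
      calc G * e ≡ G * (N * g') [MOD d2] := h.mul_left G
        _ = (G * g') * N := by ring
        _ ≡ 1 * N [MOD d2] := hg'.mul_right N
        _ = N := one_mul N
  have hg'c : g'.Coprime d2 := by
    have h1 := hg'.gcd_eq
    rw [Nat.gcd_one_left] at h1
    exact Nat.Coprime.coprime_dvd_left (Dvd.intro_left G rfl) h1
  obtain ⟨b', hb1, hb2⟩ := Nat.chineseRemainder c5 b (N * g')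
  have hb'c : b'.Coprime (Wf * (m * d2)) := by
    rw [← mul_assoc]
    refine Nat.Coprime.mul_right ?_ ?_
    · unfold Nat.Coprime
      rw [hb1.gcd_eq]
      exact hb
    · unfold Nat.Coprime
      rw [hb2.gcd_eq]
      exact Nat.Coprime.mul_left c2.symm hg'c
  -- the set
  have hset : ((Ioc Z Y).filter (fun n => n ≡ b [MOD Wf * m])).filter
        (fun e => (∀ p ∈ S1, p ∣ e) ∧ ∀ p ∈ S2, p ∣ (N - G * e)) =
      (Ioc Z Y).filter (fun n => n ≡ b' [MOD Wf * (m * d2)] ∧ d1 ∣ n) := by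
    rw [filter_filter]
    refine filter_congr fun e he => ?_
    rw [mem_Ioc] at he
    have hGe : G * e ≤ N := (Nat.mul_le_mul_left G he.2).trans hGY.le
    have h1 : (∀ p ∈ S1, p ∣ e) ↔ d1 ∣ e := by
      constructor
      · intro h
        exact prod_primes_dvd e (fun p hp => (hS1 p hp).prime) h
      · intro h p hp
        exact (dvd_prod_of_mem (fun p => p) hp).trans h
    have h2 : (∀ p ∈ S2, p ∣ (N - G * e)) ↔ e ≡ N * g' [MOD d2] := by
      rw [← hinv, Nat.modEq_iff_dvd' hGe]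
      constructor
      · intro h
        exact prod_primes_dvd _ (fun p hp => (hS2p p hp).prime) h
      · intro h p hp
        exact (dvd_prod_of_mem (fun p => p) hp).trans h
    have h3 : e ≡ b' [MOD Wf * (m * d2)] ↔ e ≡ b [MOD Wf * m] ∧ e ≡ N * g' [MOD d2] := by
      rw [← mul_assoc, ← Nat.modEq_and_modEq_iff_modEq_mul c5]
      exact ⟨fun h => ⟨h.1.trans hb1, h.2.trans hb2⟩, fun h => ⟨h.1.trans hb1.symm,
        h.2.trans hb2.symm⟩⟩
    rw [h1, h2, h3]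
    tauto
  have hsum : ∑ n ∈ (Ioc Z Y).filter (fun n => n ≡ b' [MOD Wf * (m * d2)] ∧ d1 ∣ n), h2 c n =
      ∑ n ∈ (Icc 1 Y).filter (fun n => n ≡ b' [MOD Wf * (m * d2)] ∧ d1 ∣ n), h2 c n -
      ∑ n ∈ (Icc 1 Z).filter (fun n => n ≡ b' [MOD Wf * (m * d2)] ∧ d1 ∣ n), h2 c n := by
    have h1 : Icc 1 Y = Icc 1 Z ∪ Ioc Z Y := by
      ext n
      simp only [mem_union, mem_Icc, mem_Ioc]
      omega
    have h2 : Disjoint ((Icc 1 Z).filter (fun n => n ≡ b' [MOD Wf * (m * d2)] ∧ d1 ∣ n))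
        ((Ioc Z Y).filter (fun n => n ≡ b' [MOD Wf * (m * d2)] ∧ d1 ∣ n)) := by
      rw [disjoint_left]
      intro n hn hn'
      rw [mem_filter, mem_Icc] at hn
      rw [mem_filter, mem_Ioc] at hn'
      omega
    rw [h1, filter_union, sum_union h2]
    ring
  rw [hset, hsum]
  have hNr : (1 : ℝ) ≤ N := by exact_mod_cast hN1
  have hYr : (Y : ℝ) ≤ (N : ℝ) ^ 2 := by
    have : (Y : ℝ) ≤ N := by exact_mod_cast hYN
    nlinarith
  have hZr : (Z : ℝ) ≤ (N : ℝ) ^ 2 := le_trans (by exact_mod_cast hZY) hYr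
  have hA := H b' Y hb'c (hZ.trans hZY) hYr
  have hB := H b' Z hb'c hZ hZr
  have hpf : d1.primeFactors = S1 := Nat.primeFactors_prod hS1
  have hHH : HH c (m * d2) = HH c m * ∏ p ∈ S2, HH c p := by
    rw [HH_mul c c3.symm, Inn_HH c S2 hS2p]
  rw [hpf, hHH] at hA hB
  have hs : Real.sqrt Z * (N : ℝ) ^ ((35 : ℝ) / 100) ≤ Real.sqrt Y * (N : ℝ) ^ ((35 : ℝ) / 100) := by
    refine mul_le_mul_of_nonneg_right (Real.sqrt_le_sqrt (by exact_mod_cast hZY)) (by positivity)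
  have h6 : ∀ a1 a2 x1 x2 e1 e2 x : ℝ, |a1 - x1| ≤ e1 → |a2 - x2| ≤ e2 → x = x1 - x2 →
      |a1 - a2 - x| ≤ e1 + e2 := by
    intro a1 a2 x1 x2 e1 e2 x h1 h2 h3
    have : a1 - a2 - x = (a1 - x1) - (a2 - x2) := by rw [h3]; ring
    rw [this]
    exact (abs_sub _ _).trans (add_le_add h1 h2)
  refine (h6 _ _ _ _ _ _ _ hA hB ?_).trans (by linarith)
  ring

open Classical in
private theorem Inn_iff (Wf N : ℕ) (c : ℕ → ℝ) (hc : RC (Wf * N) c) (wa wb m G b n : ℕ)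
    (hG : G.Coprime N) (hb : b.Coprime (Wf * m)) (hGn : G * n < N)
    (hmod : n ≡ b [MOD Wf * m])
    (hcl : ∀ p : ℕ, p.Prime → p ∣ Wf * m → p ≤ wb → ¬ p ∣ (N - G * n)) (h2n : h2 c n ≠ 0) :
    (Rough wa n ∧ Rough wb (N - G * n)) ↔
      ((∀ p ∈ (PPS (max wa wb) (Wf * N * m)).filter (fun p => p ≤ wa ∧ c p = 1), ¬ p ∣ n) ∧
        ∀ p ∈ (PPS (max wa wb) (Wf * N * m)).filter (fun p => p ≤ wb), ¬ p ∣ (N - G * n)) := by
  have hsup : ∀ q : ℕ, q.Prime → q ∣ n → c q = 1 := by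
    by_contra h
    apply h2n
    unfold h2
    rw [if_neg h]
  have hcM : ∀ q : ℕ, q.Prime → c q = 1 → ¬ q ∣ Wf * N := by
    intro q hq h1 h2
    have h3 : ¬ q.Coprime (Wf * N) := by
      rw [Nat.Prime.coprime_iff_not_dvd hq]
      exact not_not.2 h2
    rw [hc.zero q h3] at h1
    exact zero_ne_one h1
  constructor
  · rintro ⟨h1, h2⟩
    refine ⟨fun p hp hd => ?_, fun p hp hd => ?_⟩
    · rw [mem_filter] at hp
      unfold PPS at hp
      rw [mem_filter] at hp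
      have := h1 p hp.1.2.1 hd
      omega
    · rw [mem_filter] at hp
      unfold PPS at hp
      rw [mem_filter] at hp
      have := h2 p hp.1.2.1 hd
      omega
  · rintro ⟨h1, h2⟩
    refine ⟨fun p hp hd => ?_, fun p hp hd => ?_⟩
    · by_contra hlt
      have hcp := hsup p hp hd
      have hpm : ¬ p ∣ m := by
        intro h3
        have h4 : p ∣ Wf * m := h3.mul_left Wf
        have h5 : p ∣ b := (Nat.ModEq.dvd_iff hmod h4).1 hd
        have h6 := Nat.dvd_gcd h5 h4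
        rw [Nat.Coprime] at hb
        rw [hb] at h6
        exact hp.one_lt.ne' (Nat.dvd_one.1 h6)
      refine h1 p ?_ hd
      rw [mem_filter]
      unfold PPS
      rw [mem_filter, mem_range]
      refine ⟨⟨by omega, hp, ?_⟩, by omega, hcp⟩
      rw [hp.dvd_mul]
      rintro (h3 | h3)
      · exact hcM p hp hcp h3
      · exact hpm h3
    · by_contra hlt
      refine h2 p ?_ hd
      rw [mem_filter]
      unfold PPS
      rw [mem_filter, mem_range]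
      refine ⟨⟨by omega, hp, ?_⟩, by omega⟩
      intro h3
      have h4 : p ∣ N → False := by
        intro h4
        have h5 : p ∣ G * n := by
          have h6 := Nat.dvd_sub h4 hd
          rwa [Nat.sub_sub_self hGn.le] at h6
        rcases hp.dvd_mul.1 h5 with h6 | h6
        · have h7 := Nat.dvd_gcd h6 h4
          rw [Nat.Coprime] at hG
          rw [hG] at h7
          exact hp.one_lt.ne' (Nat.dvd_one.1 h7)
        · exact hcM p hp (hsup p hp h6) (h4.mul_left Wf)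
      rcases hp.dvd_mul.1 h3 with h5 | h5
      · rcases hp.dvd_mul.1 h5 with h6 | h6
        · exact hcl p hp (h6.mul_right m) (by omega) hd
        · exact h4 h6
      · exact hcl p hp (h5.mul_left Wf) (by omega) hd

private theorem Inn_num : ∃ N0 : ℕ, ∀ N : ℕ, N0 ≤ N → 2 ≤ Real.log N ∧
    8 * (N : ℝ) ^ ((1 : ℝ) / 5000) * (N : ℝ) ^ ((1 : ℝ) / 5000) * (N : ℝ) ^ ((35 : ℝ) / 100) ≤
      (N : ℝ) ^ ((36 : ℝ) / 100) := by
  have e1 : ∀ᶠ N : ℕ in Filter.atTop, 2 ≤ Real.log N :=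
    (Real.tendsto_log_atTop.comp tendsto_natCast_atTop_atTop).eventually_ge_atTop 2
  have e2 : ∀ᶠ N : ℕ in Filter.atTop, 8 ≤ (N : ℝ) ^ ((96 : ℝ) / 10000) :=
    ((tendsto_rpow_atTop (by norm_num)).comp tendsto_natCast_atTop_atTop).eventually_ge_atTop 8
  have e3 : ∀ᶠ N : ℕ in Filter.atTop, 1 ≤ N := Filter.eventually_ge_atTop 1
  obtain ⟨N0, hN0⟩ := Filter.eventually_atTop.1 (e1.and (e2.and e3))
  refine ⟨N0, fun N hN => ?_⟩
  obtain ⟨h1, h2, h3⟩ := hN0 N hN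
  refine ⟨h1, ?_⟩
  have hN1 : (0 : ℝ) < N := by exact_mod_cast h3
  have e4 : (N : ℝ) ^ ((36 : ℝ) / 100) = (N : ℝ) ^ ((96 : ℝ) / 10000) *
      (N : ℝ) ^ ((1 : ℝ) / 5000) * (N : ℝ) ^ ((1 : ℝ) / 5000) * (N : ℝ) ^ ((35 : ℝ) / 100) := by
    rw [← Real.rpow_add hN1, ← Real.rpow_add hN1, ← Real.rpow_add hN1]
    norm_num
  rw [e4]
  gcongr

open Classical in
theorem inn (Wf : ℕ) (hW : 1 ≤ Wf) (A : ℕ) : ∃ C0 : ℝ, 5000 ≤ C0 ∧ ∀ C1 : ℝ, C0 ≤ C1 → ∃ N0 : ℕ, ∀ (N : ℕ) [NeZero (Wf * N)], N0 ≤ N →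
    ∀ χ : DirichletCharacter ℂ (Wf * N), χ ^ 2 = 1 →
    (∃ m : ℕ, m ≡ 1 [MOD Wf] ∧ m.Coprime (Wf * N) ∧ χ (m : ZMod (Wf * N)) ≠ 1) →
    ∀ L : ℝ, 0 ≤ L → LV (Wf * N) (fun n => (χ (n : ZMod (Wf * N))).re) L →
    ∀ wa wb : ℕ, wa ≤ zC C1 N → wb ≤ zC C1 N → ∀ m G b Z Y : ℕ, 1 ≤ m → (m : ℝ) ≤ (N : ℝ) ^ ((1 : ℝ) / 1500) →
    m.Coprime (Wf * N) → 1 ≤ G → G.Coprime N → b.Coprime (Wf * m) → 1 ≤ Z → Z ≤ Y → G * Y < N →
    (∀ p : ℕ, p.Prime → p ∣ Wf * m → p ≤ wb → ∀ n : ℕ, n ≤ Y → n ≡ b [MOD Wf * m] → ¬ p ∣ (N - G * n)) →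
    |∑ n ∈ (Ioc Z Y).filter (fun n => n ≡ b [MOD Wf * m] ∧ Rough wa n ∧ Rough wb (N - G * n)),
        h2 (fun n => (χ (n : ZMod (Wf * N))).re) n -
      MT Wf N * L * HH (fun n => (χ (n : ZMod (Wf * N))).re) m * ((Y : ℝ) - Z) *
        ∏ p ∈ PPS (max wa wb) (Wf * N * m), (1 - xx (fun n => (χ (n : ZMod (Wf * N))).re) wa wb G p)| ≤
      MT Wf N * L * HH (fun n => (χ (n : ZMod (Wf * N))).re) m * Y / (Real.log N) ^ A +
        Real.sqrt Y * (N : ℝ) ^ ((36 : ℝ) / 100) := by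
  obtain ⟨C0', hC0', hE1⟩ := esb1 (A + 12)
  refine ⟨max C0' 5000, le_max_right _ _, fun C1 hC1 => ?_⟩
  obtain ⟨N1, hN1⟩ := hE1 C1 ((le_max_left _ _).trans hC1)
  obtain ⟨N2, hN2⟩ := esb2 C1 ((le_max_right _ _).trans hC1)
  obtain ⟨N3, hN3⟩ := h2d Wf hW
  obtain ⟨N4, hN4⟩ := Inn_num
  refine ⟨max (max N1 N2) (max (max N3 N4) 2), ?_⟩
  intro N _ hN χ hχ hex L hL0 hLV wa wb hwa hwb m G b Z Y hm hmN hmc hG1 hG hb hZ hZY hGY hcl
  have hNa : N1 ≤ N := ((le_max_left _ _).trans (le_max_left _ _)).trans hN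
  have hNb : N2 ≤ N := ((le_max_right _ _).trans (le_max_left _ _)).trans hN
  have hNc : N3 ≤ N := (((le_max_left _ _).trans (le_max_left _ _)).trans (le_max_right _ _)).trans hN
  have hNd : N4 ≤ N := (((le_max_right _ _).trans (le_max_left _ _)).trans (le_max_right _ _)).trans hN
  have hNe : 2 ≤ N := ((le_max_right _ _).trans (le_max_right _ _)).trans hN
  obtain ⟨hT1, hz2, hz6, hesb⟩ := hN2 N hNb
  obtain ⟨hK2, hnum⟩ := hN4 N hNd
  have hχ1 : χ ≠ 1 := by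
    rintro rfl
    obtain ⟨m', _, h2, h3⟩ := hex
    apply h3
    rw [MulChar.one_apply]
    exact (ZMod.isUnit_iff_coprime _ _).2 h2
  have hM2 : 2 ≤ Wf * N := by nlinarith
  have hc : RC (Wf * N) (fun n => (χ (n : ZMod (Wf * N))).re) :=
    Pool.Agent.Lib.RG.RC_char (Wf * N) hM2 χ hχ hχ1
  have H := hN3 N hNc χ hχ hex L hLV
  generalize hcc : (fun n : ℕ => (χ (n : ZMod (Wf * N))).re) = c at *
  have hYN : Y ≤ N := by
    have : 1 * Y ≤ G * Y := Nat.mul_le_mul_right Y hG1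
    omega
  set w := max wa wb with hw
  set P := PPS w (Wf * N * m) with hP
  have hwz : w ≤ zC C1 N := max_le hwa hwb
  have hPm : ∀ p ∈ P, p.Prime ∧ ¬ p ∣ Wf * N * m ∧ p ≤ zC C1 N := by
    intro p hp
    rw [hP] at hp
    unfold PPS at hp
    rw [mem_filter, mem_range] at hp
    exact ⟨hp.2.1, hp.2.2, by omega⟩
  have hPM : ∀ p ∈ P, ¬ p ∣ Wf * N := fun p hp h => (hPm p hp).2.1 (h.mul_right m)
  have hPz : ∀ p ∈ P, p.Prime ∧ p ≤ zC C1 N := fun p hp => ⟨(hPm p hp).1, (hPm p hp).2.2⟩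
  let u : ℕ → ℝ := fun p => if p ≤ wa ∧ c p = 1 then 2 / ((p : ℝ) + 1) else 0
  let v : ℕ → ℝ := fun p => if p ≤ wb ∧ ¬ p ∣ G then HH c p else 0
  have hu : ∀ p ∈ P, 0 ≤ u p ∧ u p ≤ 4 / p := by
    intro p hp
    have hp0 : (0 : ℝ) < p := by exact_mod_cast (hPm p hp).1.pos
    show 0 ≤ (if p ≤ wa ∧ c p = 1 then 2 / ((p : ℝ) + 1) else 0) ∧
      (if p ≤ wa ∧ c p = 1 then 2 / ((p : ℝ) + 1) else 0) ≤ 4 / p
    split_ifs
    · refine ⟨by positivity, ?_⟩
      rw [div_le_div_iff₀ (by linarith) hp0]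
      linarith
    · exact ⟨le_rfl, by positivity⟩
  have hv : ∀ p ∈ P, 0 ≤ v p ∧ v p ≤ 4 / p := by
    intro p hp
    have hp0 : (0 : ℝ) < p := by exact_mod_cast (hPm p hp).1.pos
    obtain ⟨h1, h2, _⟩ := HH_prime hc p (hPm p hp).1 (hPM p hp)
    have h3 : (2 : ℝ) / p ≤ 4 / p := by
      rw [div_le_div_iff₀ hp0 hp0]
      linarith
    show 0 ≤ (if p ≤ wb ∧ ¬ p ∣ G then HH c p else 0) ∧
      (if p ≤ wb ∧ ¬ p ∣ G then HH c p else 0) ≤ 4 / p
    split_ifs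
    · exact ⟨h1, h2.trans h3⟩
    · exact ⟨le_rfl, by positivity⟩
  obtain ⟨hs1, hs2, hs3⟩ := hesb P hPz
  set P1 := P.filter (fun p => p ≤ wa ∧ c p = 1) with hP1
  set P2 := P.filter (fun p => p ≤ wb) with hP2
  set E := (Ioc Z Y).filter (fun n => n ≡ b [MOD Wf * m]) with hE
  let F : Finset ℕ → Finset ℕ → ℝ := fun S1 S2 =>
    ∑ e ∈ E.filter (fun e => (∀ p ∈ S1, p ∣ e) ∧ ∀ p ∈ S2, p ∣ (N - G * e)), h2 c e
  have hh0 : ∀ n, 0 ≤ h2 c n := by
    intro n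
    unfold h2
    split_ifs
    · positivity
    · exact le_rfl
  -- the sum
  have hX : ∑ n ∈ (Ioc Z Y).filter (fun n => n ≡ b [MOD Wf * m] ∧ Rough wa n ∧
      Rough wb (N - G * n)), h2 c n =
      ∑ e ∈ E.filter (fun e => (∀ p ∈ P1, ¬ p ∣ e) ∧ ∀ p ∈ P2, ¬ p ∣ (N - G * e)), h2 c e := by
    rw [hE, filter_filter, sum_filter, sum_filter]
    refine sum_congr rfl fun n hn => ?_
    rw [mem_Ioc] at hn
    by_cases h0 : h2 c n = 0
    · rw [h0, ite_self, ite_self]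
    · by_cases hmod : n ≡ b [MOD Wf * m]
      · have hGn : G * n < N := lt_of_le_of_lt (Nat.mul_le_mul_left G hn.2) hGY
        have := Inn_iff Wf N c hc wa wb m G b n hG hb hGn hmod
          (fun p h1 h2 h3 => hcl p h1 h2 h3 n hn.2 hmod) h0
        exact if_congr (and_congr_right fun _ => this) rfl rfl
      · rw [if_neg (fun h => hmod h.1), if_neg (fun h => hmod h.1)]
  have hμ0 : 0 ≤ MT Wf N * L * HH c m := mul_nonneg (mul_nonneg (MT_bd Wf N hW (by omega)).1 hL0)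
    (HH_nonneg hc m)
  have hYZ : (0 : ℝ) ≤ (Y : ℝ) - Z := by
    have : (Z : ℝ) ≤ Y := by exact_mod_cast hZY
    linarith
  have herr0 : 0 ≤ 2 * (Real.sqrt Y * (N : ℝ) ^ ((35 : ℝ) / 100)) := by positivity
  have hNr : (1 : ℝ) ≤ N := by exact_mod_cast (by omega : 1 ≤ N)
  have hN0r : (0 : ℝ) < N := by linarith
  have hQ1 : (1 : ℝ) ≤ (N : ℝ) ^ ((1 : ℝ) / 5000) := Real.one_le_rpow hNr (by norm_num)
  have hK1 : 1 ≤ Real.log N := by linarith
  -- the evaluation of `F`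
  have hF : ∀ S1 ⊆ P1, ∀ S2 ⊆ P2, S1.card ≤ T0C C1 N → S2.card ≤ T0C C1 N →
      |F S1 S2 - (if Disjoint S1 S2 then (MT Wf N * L * HH c m * ((Y : ℝ) - Z)) *
        ((∏ p ∈ S1, u p) * ∏ p ∈ S2, v p) else 0)| ≤
      2 * (Real.sqrt Y * (N : ℝ) ^ ((35 : ℝ) / 100)) := by
    intro S1 hS1 S2 hS2 hc1 hc2
    have hS1P : S1 ⊆ P := hS1.trans (filter_subset _ _)
    have hS2P : S2 ⊆ P := hS2.trans (filter_subset _ _)
    have hne : ∀ p ∈ S2, ∀ e ∈ E, p ∣ (N - G * e) → p ∣ G * e → False := by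
      intro p hp e he h1 h2
      rw [hE, mem_filter, mem_Ioc] at he
      have hGe : G * e ≤ N := (Nat.mul_le_mul_left G he.1.2).trans hGY.le
      have h3 : p ∣ N := by
        have := Nat.dvd_add h1 h2
        rwa [Nat.sub_add_cancel hGe] at this
      exact hPM p (hS2P hp) (h3.mul_left Wf)
    by_cases hdis : Disjoint S1 S2
    · rw [if_pos hdis]
      by_cases hSG : ∀ p ∈ S2, ¬ p ∣ G
      · have hu' : ∏ p ∈ S1, u p = ∏ p ∈ S1, 2 / ((p : ℝ) + 1) := by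
          refine prod_congr rfl fun p hp => ?_
          have := (mem_filter.1 (hS1 hp)).2
          exact if_pos this
        have hv' : ∏ p ∈ S2, v p = ∏ p ∈ S2, HH c p := by
          refine prod_congr rfl fun p hp => ?_
          have := (mem_filter.1 (hS2 hp)).2
          exact if_pos ⟨this, hSG p hp⟩
        rw [hu', hv']
        have hS1p : ∀ p ∈ S1, p.Prime := fun p hp => (hPm p (hS1P hp)).1
        have hS2p : ∀ p ∈ S2, p.Prime := fun p hp => (hPm p (hS2P hp)).1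
        have hdv : ∀ p ∈ P, ¬ p ∣ Wf * N ∧ ¬ p ∣ m := fun p hp =>
          ⟨hPM p hp, fun h => (hPm p hp).2.1 (h.mul_left (Wf * N))⟩
        refine Inn_F Wf N c L m G b Z Y S1 S2 hb hZ hZY hGY hYN hS1p
          (fun p hp => ⟨hS2p p hp, (hPm p (hS2P hp)).2.1⟩) hSG ?_
        intro b' y hb' hy hyN
        have k1 : (∏ p ∈ S1, p).Coprime (Wf * N) := Inn_cop hS1p fun p hp => (hdv p (hS1P hp)).1
        have k2 : (∏ p ∈ S2, p).Coprime (Wf * N) := Inn_cop hS2p fun p hp => (hdv p (hS2P hp)).1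
        have k3 : (∏ p ∈ S1, p).Coprime m := Inn_cop hS1p fun p hp => (hdv p (hS1P hp)).2
        have k4 : (∏ p ∈ S2, p).Coprime m := Inn_cop hS2p fun p hp => (hdv p (hS2P hp)).2
        have k5 : (∏ p ∈ S1, p).Coprime (∏ p ∈ S2, p) := by
          refine Nat.Coprime.prod_left fun p hp => Nat.Coprime.prod_right fun q hq => ?_
          rw [Nat.coprime_primes (hS1p p hp) (hS2p q hq)]
          rintro rfl
          exact (disjoint_left.1 hdis) hp hq
        have k6 : ((m * (∏ p ∈ S1, p) * (∏ p ∈ S2, p) : ℕ) : ℝ) ≤ (N : ℝ) ^ ((1 : ℝ) / 700) := by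
          have b1 := hs2 S1 (mem_powerset.2 hS1P) hc1
          have b2 := hs2 S2 (mem_powerset.2 hS2P) hc2
          rw [Nat.cast_mul, Nat.cast_mul]
          calc (m : ℝ) * ((∏ p ∈ S1, p : ℕ) : ℝ) * ((∏ p ∈ S2, p : ℕ) : ℝ) ≤
              (N : ℝ) ^ ((1 : ℝ) / 1500) * (N : ℝ) ^ ((1 : ℝ) / 5000) * (N : ℝ) ^ ((1 : ℝ) / 5000) := by
                refine mul_le_mul (mul_le_mul hmN b1 (Nat.cast_nonneg _) (by positivity)) b2
                  (Nat.cast_nonneg _) (by positivity)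
            _ = (N : ℝ) ^ ((1 : ℝ) / 1500 + 1 / 5000 + 1 / 5000) := by
                rw [← Real.rpow_add hN0r, ← Real.rpow_add hN0r]
            _ ≤ (N : ℝ) ^ ((1 : ℝ) / 700) :=
                Real.rpow_le_rpow_of_exponent_le hNr (by norm_num)
        exact H m (∏ p ∈ S1, p) (∏ p ∈ S2, p) hm k6
          (Nat.Coprime.mul_left (Nat.Coprime.mul_left hmc k1) k2) k3.symm k4.symm k5
          (Inn_sqf hS1p) (Inn_sqf hS2p) (by
            intro q hq
            rw [Nat.primeFactors_prod hS1p] at hq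
            exact (congrFun hcc q).trans (mem_filter.1 (hS1 hq)).2.2) b' y hb' hy hyN
      · rw [not_forall] at hSG
        obtain ⟨p, hSG⟩ := hSG
        rw [not_forall, not_not] at hSG
        obtain ⟨hp, hpG⟩ := hSG
        have h1 : F S1 S2 = 0 := by
          refine sum_eq_zero fun e he => ?_
          rw [mem_filter] at he
          exact (hne p hp e he.1 (he.2.2 p hp) (hpG.mul_right e)).elim
        have h2 : ∏ p ∈ S2, v p = 0 := by
          refine prod_eq_zero hp ?_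
          exact if_neg fun h => h.2 hpG
        rw [h1, h2, mul_zero, mul_zero, sub_zero, abs_zero]
        exact herr0
    · rw [if_neg hdis]
      rw [not_disjoint_iff] at hdis
      obtain ⟨p, hp1, hp2⟩ := hdis
      have h1 : F S1 S2 = 0 := by
        refine sum_eq_zero fun e he => ?_
        rw [mem_filter] at he
        exact (hne p hp2 e he.1 (he.2.2 p hp2) ((he.2.1 p hp1).mul_left G)).elim
      rw [h1, sub_zero, abs_zero]
      exact herr0
  -- the sieve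
  have hsift := sift E (h2 c) P1 P2 (fun e p => p ∣ e) (fun e p => p ∣ (N - G * e)) (T0C C1 N) hT1
  simp only [abs_of_nonneg (hh0 _)] at hsift
  have hsift' : |∑ e ∈ E.filter (fun e => (∀ p ∈ P1, ¬ p ∣ e) ∧ ∀ p ∈ P2, ¬ p ∣ (N - G * e)), h2 c e -
      ∑ S1 ∈ P1.powerset.filter (fun S => S.card < T0C C1 N),
        ∑ S2 ∈ P2.powerset.filter (fun S => S.card < T0C C1 N),
        (-1 : ℝ) ^ (S1.card + S2.card) * F S1 S2| ≤
      ∑ S1 ∈ P1.powersetCard (T0C C1 N), F S1 ∅ + ∑ S2 ∈ P2.powersetCard (T0C C1 N), F ∅ S2 +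
      ∑ S1 ∈ P1.powersetCard (T0C C1 N), ∑ S2 ∈ P2.powersetCard (T0C C1 N), F S1 S2 := by
    have f1 : ∀ S1, F S1 ∅ = ∑ e ∈ E.filter (fun e => ∀ p ∈ S1, p ∣ e), h2 c e := by
      intro S1
      refine sum_congr (filter_congr fun e _ => ?_) fun _ _ => rfl
      constructor
      · exact fun h => h.1
      · exact fun h => ⟨h, fun p hp => absurd hp (notMem_empty p)⟩
    have f2 : ∀ S2, F ∅ S2 = ∑ e ∈ E.filter (fun e => ∀ p ∈ S2, p ∣ (N - G * e)), h2 c e := by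
      intro S2
      refine sum_congr (filter_congr fun e _ => ?_) fun _ _ => rfl
      constructor
      · exact fun h => h.2
      · exact fun h => ⟨fun p hp => absurd hp (notMem_empty p), h⟩
    rw [sum_congr rfl fun S1 _ => f1 S1, sum_congr rfl fun S2 _ => f2 S2]
    convert hsift
  have hδ0 : 0 ≤ 1 / (Real.log N) ^ (A + 12) := by positivity
  have hcomb := Inn_comb P P1 P2 (filter_subset _ _) (filter_subset _ _) u v
    (fun p hp => (hu p hp).1) (fun p hp => (hv p hp).1)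
    (fun p hp hn => if_neg fun h => hn (mem_filter.2 ⟨hp, h⟩))
    (fun p hp hn => if_neg fun h => hn (mem_filter.2 ⟨hp, h.1⟩)) (T0C C1 N)
    (1 / (Real.log N) ^ (A + 12)) ((Real.log N) ^ 5) ((N : ℝ) ^ ((1 : ℝ) / 5000))
    (MT Wf N * L * HH c m * ((Y : ℝ) - Z)) (2 * (Real.sqrt Y * (N : ℝ) ^ ((35 : ℝ) / 100)))
    _ hδ0 (one_le_pow₀ hK1) hQ1 (mul_nonneg hμ0 hYZ) herr0
    (hN1 N hNa P hPz u hu) (hN1 N hNa P hPz v hv) (hs1 u hu) (hs1 v hv) hs3 F hF hsift'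
  rw [hX]
  have hxx : ∏ p ∈ P, (1 - xx c wa wb G p) = ∏ p ∈ P, (1 - (u p + v p)) := rfl
  rw [hxx]
  refine hcomb.trans (add_le_add ?_ ?_)
  · -- the main error
    have hK0 : 0 < Real.log N := by linarith
    have hKA : 0 < (Real.log N) ^ A := pow_pos hK0 A
    have h1 : 2 * (1 / (Real.log N) ^ (A + 12) * (Real.log N) ^ 5) * (Real.log N) ^ 5 +
        2 * (1 / (Real.log N) ^ (A + 12)) +
        1 / (Real.log N) ^ (A + 12) * (1 / (Real.log N) ^ (A + 12)) ≤ 1 / (Real.log N) ^ A := by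
      set K := Real.log N with hK
      have k1 : (1 : ℝ) / K ^ (A + 12) = 1 / K ^ A * (1 / K ^ 12) := by
        rw [pow_add]
        field_simp
      have k2 : 1 / K ^ 12 * K ^ 5 * K ^ 5 = 1 / K ^ 2 := by
        field_simp
      have k3 : (4 : ℝ) ≤ K ^ 2 := by nlinarith
      have k4 : 1 / K ^ 2 ≤ 1 / 4 := one_div_le_one_div_of_le (by norm_num) k3
      have k5 : (4096 : ℝ) ≤ K ^ 12 := by
        have : (2 : ℝ) ^ 12 ≤ K ^ 12 := pow_le_pow_left₀ (by norm_num) hK2 12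
        linarith
      have k6 : 1 / K ^ 12 ≤ 1 / 4096 := one_div_le_one_div_of_le (by norm_num) k5
      have k7 : 1 / K ^ A ≤ 1 := by
        rw [div_le_one hKA]
        exact one_le_pow₀ hK1
      have k8 : 0 ≤ 1 / K ^ A := by positivity
      have k9 : 0 ≤ 1 / K ^ 12 := by positivity
      have k10 : 2 * (1 / K ^ (A + 12) * K ^ 5) * K ^ 5 = 1 / K ^ A * (2 * (1 / K ^ 2)) := by
        rw [k1, ← k2]
        ring
      rw [k10, k1]
      have k11 : 1 / K ^ A * (1 / K ^ 12) * (1 / K ^ A * (1 / K ^ 12)) ≤ 1 / K ^ A * (1 / 4096) := by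
        have : 1 / K ^ A * (1 / K ^ 12) ≤ 1 := by
          calc 1 / K ^ A * (1 / K ^ 12) ≤ 1 * 1 := mul_le_mul k7 (by linarith) k9 (by norm_num)
            _ = 1 := by norm_num
        calc 1 / K ^ A * (1 / K ^ 12) * (1 / K ^ A * (1 / K ^ 12)) ≤
            1 / K ^ A * (1 / K ^ 12) * 1 := mul_le_mul_of_nonneg_left this (mul_nonneg k8 k9)
          _ = 1 / K ^ A * (1 / K ^ 12) := mul_one _
          _ ≤ 1 / K ^ A * (1 / 4096) := mul_le_mul_of_nonneg_left k6 k8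
      have k12 : 1 / K ^ A * (2 * (1 / K ^ 2)) ≤ 1 / K ^ A * (1 / 2) :=
        mul_le_mul_of_nonneg_left (by linarith) k8
      have k13 : 1 / K ^ A * (1 / K ^ 12) ≤ 1 / K ^ A * (1 / 4096) :=
        mul_le_mul_of_nonneg_left k6 k8
      linarith
    calc MT Wf N * L * HH c m * ((Y : ℝ) - Z) * _ ≤
        MT Wf N * L * HH c m * ((Y : ℝ) - Z) * (1 / (Real.log N) ^ A) :=
          mul_le_mul_of_nonneg_left h1 (mul_nonneg hμ0 hYZ)
      _ ≤ MT Wf N * L * HH c m * Y * (1 / (Real.log N) ^ A) := by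
          refine mul_le_mul_of_nonneg_right ?_ (by positivity)
          refine mul_le_mul_of_nonneg_left ?_ hμ0
          have : (0 : ℝ) ≤ Z := Nat.cast_nonneg _
          linarith
      _ = MT Wf N * L * HH c m * Y / (Real.log N) ^ A := by rw [mul_one_div]
  · calc 4 * ((N : ℝ) ^ ((1 : ℝ) / 5000) * (N : ℝ) ^ ((1 : ℝ) / 5000)) *
        (2 * (Real.sqrt Y * (N : ℝ) ^ ((35 : ℝ) / 100))) =
        Real.sqrt Y * (8 * (N : ℝ) ^ ((1 : ℝ) / 5000) * (N : ℝ) ^ ((1 : ℝ) / 5000) *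
          (N : ℝ) ^ ((35 : ℝ) / 100)) := by ring
      _ ≤ Real.sqrt Y * (N : ℝ) ^ ((36 : ℝ) / 100) :=
        mul_le_mul_of_nonneg_left hnum (Real.sqrt_nonneg _)

end Pool.Agent.Lib.TE
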