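import Pool.Agent.Lib.MP_7b7e48_nt.TE.Defs
import Pool.Agent.Lib.MP_7b7e48_nt.OW.M_1

/-!
# Module Ty2L (60 minutes): the bilinear part, on average over the characters

PROOF. `U = ⌊Y^(1/5)⌋`, so `U ≥ 1`, `Y/U ≤ 2 Y^(4/5)`. `BV.type2` with `X = Y`, `Q = 2 D`, `M1 = U`, `M2 = Y / U`, `α = FN N` (`∑_{l ∈ (M, 2M]} |α|² ≤ M`: `Lα = 1`), `β = bV N U` (`|β n| ≤ τ(n)`, `∑_{n ≤ n0} τ(n)² ≤ C n0 (log Y)^3`: in Lib, search for the
sum of squares of `Nat.divisors.card`; `Lβ = K^4`), `b l = Y + 1` (then the filter is trivial). Result: `LA D (2D) ≤ C (1 + log Y)^3 K² √Y (√Y/D + √(2 Y^(4/5)) + √(2 Y^(4/5)) + 2 D)`. Multiply by `2 D` (`1/φ(f) ≥ 1/(2D)` for `f ≤ 2D`: `∑_{f ∈ (D,2D]} PS f ≤ 2 D · LA D (2D)`):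
`≤ K^6 (2 Y + 8 D Y^(9/10) + 4 D² √Y) ≤ K^7 Y` because `D ≤ N^(1/500) ≤ Y^(9/500)`.
-/

set_option autoImplicit false

open Finset
open Pool.Agent.Lib.BV (PS)

namespace Pool.Agent.Lib.TE

private lemma ty2L_FN (N n : ℕ) : ‖((FN N n : ℝ) : ℂ)‖ ≤ 1 := by
  rw [Complex.norm_real, Real.norm_eq_abs]
  unfold FN
  split_ifs
  · rw [Pool.Agent.Lib.MP_45349e_nt.LS.abs_lam]
  · simp

private lemma ty2L_bV (N V n : ℕ) : ‖((bV N V n : ℝ) : ℂ)‖ ≤ (n.divisors.card : ℝ) := by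
  rw [Complex.norm_real, Real.norm_eq_abs]
  unfold bV
  split_ifs
  · refine (abs_sum_le_sum_abs _ _).trans ?_
    refine (sum_le_sum (g := fun _ => (1 : ℝ)) (fun d _ => ?_)).trans ?_
    · have := ArithmeticFunction.abs_moebius_le_one (n := d)
      exact_mod_cast this
    · rw [sum_const, nsmul_eq_mul, mul_one]
      exact_mod_cast card_filter_le _ _
  · simp

private lemma ty2L_beta (N V Y n0 : ℕ) (h : n0 ≤ Y) :
    ∑ n ∈ Icc 1 n0, ‖((bV N V n : ℝ) : ℂ)‖ ^ 2 ≤ (1 + Real.log Y) ^ 16 * n0 := by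
  have h1 : ∑ n ∈ Icc 1 n0, ‖((bV N V n : ℝ) : ℂ)‖ ^ 2 ≤ ∑ n ∈ Icc 1 n0, (n.divisors.card : ℝ) ^ 4 := by
    refine sum_le_sum fun n hn => ?_
    rw [mem_Icc] at hn
    have h2 := ty2L_bV N V n
    have h3 : (1 : ℝ) ≤ (n.divisors.card : ℝ) := by
      have : 0 < n.divisors.card := card_pos.mpr ⟨1, Nat.one_mem_divisors.mpr (by omega)⟩
      exact_mod_cast this
    calc ‖((bV N V n : ℝ) : ℂ)‖ ^ 2 ≤ (n.divisors.card : ℝ) ^ 2 := by gcongr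
      _ ≤ (n.divisors.card : ℝ) ^ 4 := pow_le_pow_right₀ h3 (by norm_num)
  refine h1.trans ((OW.mt4 n0).trans ?_)
  rcases Nat.eq_zero_or_pos n0 with h0 | h0
  · rw [h0]; simp
  have h4 : Real.log n0 ≤ Real.log Y := by
    apply Real.log_le_log
    · exact_mod_cast h0
    · exact_mod_cast h
  have h5 : 0 ≤ Real.log n0 := Real.log_natCast_nonneg _
  rw [mul_comm]
  gcongr

private lemma ty2L_num {y U D M : ℝ} (hy : 1 ≤ y) (hU : y ^ (1 / 5 : ℝ) ≤ 2 * U) (hU0 : 0 < U) (hM : M ≤ y / U)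
    (hD : 1 ≤ D) (hDy : D ≤ y ^ (9 / 500 : ℝ)) :
    2 * D * (√y * (√y / D + √M + √(y / U) + 2 * D)) ≤ 14 * y := by
  have hy0 : 0 < y := by linarith
  have hD0 : 0 < D := by linarith
  have hsy : √y * √y = y := Real.mul_self_sqrt hy0.le
  have hsqrt : √y = y ^ (1 / 2 : ℝ) := Real.sqrt_eq_rpow y
  have hsy0 : 0 ≤ √y := Real.sqrt_nonneg _
  have h1 : √y * √(y / U) ≤ 2 * y ^ (9 / 10 : ℝ) := by
    rw [← Real.sqrt_mul hy0.le]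
    rw [Real.sqrt_le_left (by positivity)]
    have e1 : y * (y / U) = y ^ (2 : ℝ) / U := by
      rw [Real.rpow_two]; ring
    rw [e1, div_le_iff₀ hU0]
    have e2 : y ^ (2 : ℝ) = y ^ (9 / 5 : ℝ) * y ^ (1 / 5 : ℝ) := by
      rw [← Real.rpow_add hy0]; norm_num
    have e3 : (2 * y ^ (9 / 10 : ℝ)) ^ 2 = 4 * y ^ (9 / 5 : ℝ) := by
      rw [mul_pow, ← Real.rpow_natCast (y ^ (9 / 10 : ℝ)), ← Real.rpow_mul hy0.le]
      norm_num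
    rw [e2, e3]
    have p : 0 < y ^ (9 / 5 : ℝ) := Real.rpow_pos_of_pos hy0 _
    calc y ^ (9 / 5 : ℝ) * y ^ (1 / 5 : ℝ) ≤ y ^ (9 / 5 : ℝ) * (2 * U) := mul_le_mul_of_nonneg_left hU p.le
      _ ≤ 4 * y ^ (9 / 5 : ℝ) * U := by
        have := mul_pos p hU0
        linarith
  have h2 : √y * √M ≤ 2 * y ^ (9 / 10 : ℝ) := by
    refine le_trans ?_ h1
    exact mul_le_mul_of_nonneg_left (Real.sqrt_le_sqrt hM) hsy0
  have h3 : D * y ^ (9 / 10 : ℝ) ≤ y := by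
    calc D * y ^ (9 / 10 : ℝ) ≤ y ^ (9 / 500 : ℝ) * y ^ (9 / 10 : ℝ) := by
          have := Real.rpow_pos_of_pos hy0 (9 / 10)
          gcongr
      _ = y ^ (9 / 500 + 9 / 10 : ℝ) := by rw [← Real.rpow_add hy0]
      _ ≤ y ^ (1 : ℝ) := Real.rpow_le_rpow_of_exponent_le hy (by norm_num)
      _ = y := Real.rpow_one y
  have h4 : D * D * √y ≤ y := by
    rw [hsqrt]
    have p1 := Real.rpow_pos_of_pos hy0 (9 / 500)
    have p2 := Real.rpow_pos_of_pos hy0 (1 / 2)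
    calc D * D * y ^ (1 / 2 : ℝ) ≤ y ^ (9 / 500 : ℝ) * y ^ (9 / 500 : ℝ) * y ^ (1 / 2 : ℝ) := by gcongr
      _ = y ^ (9 / 500 + 9 / 500 + 1 / 2 : ℝ) := by rw [← Real.rpow_add hy0, ← Real.rpow_add hy0]
      _ ≤ y ^ (1 : ℝ) := Real.rpow_le_rpow_of_exponent_le hy (by norm_num)
      _ = y := Real.rpow_one y
  have e : 2 * D * (√y * (√y / D + √M + √(y / U) + 2 * D)) =
      2 * (√y * √y) + 2 * D * (√y * √M) + 2 * D * (√y * √(y / U)) + 4 * (D * D * √y) := by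
    field_simp
    ring
  rw [e, hsy]
  nlinarith

theorem ty2L : ∃ C N0 : ℕ, ∀ N : ℕ, N0 ≤ N → ∀ Y : ℕ, (N : ℝ) ^ ((1 : ℝ) / 9) ≤ Y → Y ≤ N → ∀ D : ℕ, 1 ≤ D →
    (D : ℝ) ≤ (N : ℝ) ^ ((1 : ℝ) / 500) →
    ∑ f ∈ Ioc D (2 * D), PS f (fun ψ => ‖∑ a ∈ Ioc ⌊(Y : ℝ) ^ ((1 : ℝ) / 5)⌋₊ (Y / ⌊(Y : ℝ) ^ ((1 : ℝ) / 5)⌋₊),
      ∑ n ∈ Icc 1 (Y / a), (FN N a : ℂ) * (bV N ⌊(Y : ℝ) ^ ((1 : ℝ) / 5)⌋₊ n : ℂ) * ψ (a : ZMod f) * ψ (n : ZMod f)‖) ≤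
      (Real.log N) ^ C * Y := by
  obtain ⟨C, hC, hty⟩ := BV.type2
  have a1 : ∀ᶠ x : ℝ in Filter.atTop, 14 * C * 2 ^ 11 ≤ Real.log x :=
    Real.tendsto_log_atTop.eventually_ge_atTop _
  have a2 : ∀ᶠ x : ℝ in Filter.atTop, 1 ≤ Real.log x := Real.tendsto_log_atTop.eventually_ge_atTop _
  have a3 : ∀ᶠ x : ℝ in Filter.atTop, 2 ≤ x ^ (1 / 10 : ℝ) :=
    (tendsto_rpow_atTop (show (0 : ℝ) < 1 / 10 by norm_num)).eventually_ge_atTop _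
  have a4 := Filter.eventually_ge_atTop (2 : ℝ)
  obtain ⟨X, hX⟩ := Filter.eventually_atTop.mp (a1.and (a2.and (a3.and a4)))
  refine ⟨12, ⌈X⌉₊, fun N hN Y hYl hYN D hD hDN => ?_⟩
  have hNX : X ≤ N := (Nat.le_ceil X).trans (by exact_mod_cast hN)
  obtain ⟨g1, g2, g3, g4⟩ := hX N hNX
  clear hX a1 a2 a3 a4
  have hN1 : (1 : ℝ) ≤ N := by linarith
  have hN0 : (0 : ℝ) < N := by linarith
  have hy1 : (1 : ℝ) ≤ Y := le_trans (Real.one_le_rpow hN1 (by norm_num)) hYl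
  have hy0 : (0 : ℝ) < Y := by linarith
  have hYpos : 1 ≤ Y := by exact_mod_cast hy1
  have hD1 : (1 : ℝ) ≤ D := by exact_mod_cast hD
  set U : ℕ := ⌊(Y : ℝ) ^ ((1 : ℝ) / 5)⌋₊ with hUdef
  have hYp : (1 : ℝ) ≤ (Y : ℝ) ^ ((1 : ℝ) / 5) := Real.one_le_rpow hy1 (by norm_num)
  have hU1 : 1 ≤ U := by
    rw [hUdef]
    apply Nat.le_floor
    push_cast
    exact hYp
  have hU1r : (1 : ℝ) ≤ U := by exact_mod_cast hU1
  have hU2 : (Y : ℝ) ^ (1 / 5 : ℝ) ≤ 2 * U := by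
    have := Nat.lt_floor_add_one ((Y : ℝ) ^ ((1 : ℝ) / 5))
    rw [← hUdef] at this
    linarith
  have hDy : (D : ℝ) ≤ (Y : ℝ) ^ (9 / 500 : ℝ) := by
    calc (D : ℝ) ≤ (N : ℝ) ^ ((1 : ℝ) / 500) := hDN
      _ = ((N : ℝ) ^ ((1 : ℝ) / 9)) ^ (9 / 500 : ℝ) := by
          rw [← Real.rpow_mul hN0.le]; norm_num
      _ ≤ (Y : ℝ) ^ (9 / 500 : ℝ) := Real.rpow_le_rpow (by positivity) hYl (by norm_num)
  have h2D : 2 * D ≤ Y := by
    have h1 : 2 * (D : ℝ) ≤ Y := by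
      calc 2 * (D : ℝ) ≤ (N : ℝ) ^ (1 / 10 : ℝ) * (N : ℝ) ^ ((1 : ℝ) / 500) := by
            gcongr
        _ = (N : ℝ) ^ (1 / 10 + 1 / 500 : ℝ) := by rw [← Real.rpow_add hN0]
        _ ≤ (N : ℝ) ^ ((1 : ℝ) / 9) := Real.rpow_le_rpow_of_exponent_le hN1 (by norm_num)
        _ ≤ Y := hYl
    exact_mod_cast h1
  have hlogY : 0 ≤ Real.log Y := Real.log_natCast_nonneg _
  have hlogYN : Real.log Y ≤ Real.log N := by
    apply Real.log_le_log hy0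
    exact_mod_cast hYN
  -- the bilinear estimate
  have hmain := hty Y (2 * D) D U (Y / U) 1 ((1 + Real.log Y) ^ 16) (fun a => (FN N a : ℂ)) (fun n => (bV N U n : ℂ))
    (fun _ => Y + 1) hD hU1 (Nat.div_le_self Y U) h2D zero_le_one (by positivity)
    (by
      intro M _ _
      refine (sum_le_card_nsmul _ _ 1 fun l _ => ?_).trans ?_
      · have := ty2L_FN N l
        have h0 : 0 ≤ ‖((FN N l : ℝ) : ℂ)‖ := norm_nonneg _
        nlinarith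
      · rw [Nat.card_Ioc, nsmul_eq_mul, mul_one, one_mul]
        have : 2 * M - M = M := by omega
        rw [this])
    (by
      intro n0 hn0
      exact ty2L_beta N U Y n0 hn0)
  have hfil : ∀ (d : ℕ) (ψ : DirichletCharacter ℂ d),
      ∑ l ∈ Ioc U (Y / U), ∑ n ∈ (Icc 1 (Y / l)).filter (fun n => n < Y + 1),
        (FN N l : ℂ) * (bV N U n : ℂ) * ψ (l : ZMod d) * ψ (n : ZMod d) =
      ∑ l ∈ Ioc U (Y / U), ∑ n ∈ Icc 1 (Y / l),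
        (FN N l : ℂ) * (bV N U n : ℂ) * ψ (l : ZMod d) * ψ (n : ZMod d) := by
    intro d ψ
    refine sum_congr rfl fun l _ => ?_
    rw [filter_true_of_mem]
    intro n hn
    rw [mem_Icc] at hn
    have := Nat.div_le_self Y l
    omega
  simp only [hfil] at hmain
  -- from LA to the plain sum
  have hLA : ∑ f ∈ Ioc D (2 * D), PS f (fun ψ => ‖∑ a ∈ Ioc U (Y / U),
      ∑ n ∈ Icc 1 (Y / a), (FN N a : ℂ) * (bV N U n : ℂ) * ψ (a : ZMod f) * ψ (n : ZMod f)‖) ≤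
      2 * D * BV.LA D (2 * D) (fun d ψ => ‖∑ l ∈ Ioc U (Y / U), ∑ n ∈ Icc 1 (Y / l),
        (FN N l : ℂ) * (bV N U n : ℂ) * ψ (l : ZMod d) * ψ (n : ZMod d)‖) := by
    unfold BV.LA
    rw [mul_sum]
    refine sum_le_sum fun f hf => ?_
    rw [mem_Ioc] at hf
    have hP : 0 ≤ PS f (fun ψ => ‖∑ a ∈ Ioc U (Y / U),
      ∑ n ∈ Icc 1 (Y / a), (FN N a : ℂ) * (bV N U n : ℂ) * ψ (a : ZMod f) * ψ (n : ZMod f)‖) :=
      BV.PS_nonneg fun _ => norm_nonneg _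
    have ht : (0 : ℝ) < f.totient := BV.tot_pos (by omega)
    have ht2 : (f.totient : ℝ) ≤ 2 * D := by
      have : f.totient ≤ 2 * D := (Nat.totient_le f).trans hf.2
      exact_mod_cast this
    have h1 : (1 : ℝ) ≤ 2 * D * (1 / (f.totient : ℝ)) := by
      rw [mul_one_div, le_div_iff₀ ht]
      linarith
    rw [← mul_assoc]
    exact le_mul_of_one_le_left hP h1
  refine hLA.trans ?_
  have hsq : √(1 * (1 + Real.log (Y : ℝ)) ^ 16) = (1 + Real.log Y) ^ 8 := by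
    rw [one_mul, show (1 + Real.log (Y : ℝ)) ^ 16 = ((1 + Real.log (Y : ℝ)) ^ 8) ^ 2 by ring]
    exact Real.sqrt_sq (by positivity)
  rw [hsq] at hmain
  have hM : ((Y / U : ℕ) : ℝ) ≤ (Y : ℝ) / U := Nat.cast_div_le
  have hnum := ty2L_num hy1 hU2 (by linarith) hM hD1 hDy
  have hpow : (1 + Real.log (Y : ℝ)) ^ 11 ≤ 2 ^ 11 * Real.log N ^ 11 := by
    rw [← mul_pow]
    apply pow_le_pow_left₀ (by positivity)
    linarith
  push_cast at hmain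
  calc 2 * (D : ℝ) * BV.LA D (2 * D) (fun d ψ => ‖∑ l ∈ Ioc U (Y / U), ∑ n ∈ Icc 1 (Y / l),
        (FN N l : ℂ) * (bV N U n : ℂ) * ψ (l : ZMod d) * ψ (n : ZMod d)‖)
      ≤ 2 * D * (C * (1 + Real.log Y) ^ 3 * (1 + Real.log Y) ^ 8 * √(Y : ℝ) *
          (√(Y : ℝ) / D + √((Y / U : ℕ) : ℝ) + √((Y : ℝ) / U) + 2 * D)) := by
        gcongr
    _ = C * (1 + Real.log Y) ^ 11 * (2 * D * (√(Y : ℝ) *
          (√(Y : ℝ) / D + √((Y / U : ℕ) : ℝ) + √((Y : ℝ) / U) + 2 * D))) := by ring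
    _ ≤ C * (1 + Real.log Y) ^ 11 * (14 * Y) := by gcongr
    _ ≤ C * (2 ^ 11 * Real.log N ^ 11) * (14 * Y) := by gcongr
    _ = (14 * C * 2 ^ 11) * (Real.log N ^ 11 * Y) := by ring
    _ ≤ Real.log N * (Real.log N ^ 11 * Y) := by gcongr
    _ = Real.log N ^ 12 * Y := by ring

end Pool.Agent.Lib.TE
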