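import Pool.Agent.Lib.MP_7b7e48_nt.TE.LSplit
import Pool.Agent.Lib.MP_7b7e48_nt.TE.Ty2L
import Pool.Agent.Lib.MP_7b7e48_nt.RG.PV

/-!
# Module LSL (45 minutes): the large sieve estimate for `LamC`

PROOF. `lamC_split` with `U = V = ⌊Y^(1/5)⌋` for every primitive `ψ` modulo `f`, `f ∈ (D, 2D]` (`f ≥ 2`, so `ψ ≠ 1`: `BV.ne_one_of_prim`). There are at most `∑_{f ≤ 2D} f ≤ 4 D²` pairs (`BV.PS_le_const`); the first three terms are `≤ Y^(1/5) + 2 Y^(3/5) + Y^(2/5) τ(N) 2 D`,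
`τ(N) ≤ N^(1/1000)` (`RG.divisor_bound`), `D ≤ N^(1/500)`, so their total is `≤ 4 N^(1/250) (3 Y^(3/5) + 2 Y^(2/5) N^(3/1000)) ≤ Y` (`Y ≥ N^(1/9)`). The fourth: `ty2L`.
-/

set_option autoImplicit false

open Finset
open Pool.Agent.Lib.BV (PS)

namespace Pool.Agent.Lib.TE

private lemma lsl_num {y D C1 t U : ℝ} (hy : 1 ≤ y) (hD : 1 ≤ D) (hDy : D ≤ y ^ (9 / 500 : ℝ)) (hC1 : 0 ≤ C1)
    (ht : t ≤ C1 * y ^ (9 / 1000 : ℝ)) (ht0 : 0 ≤ t) (hU : U ≤ y ^ (1 / 5 : ℝ)) (hU0 : 0 ≤ U) :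
    2 * D * D * (U + 2 * √(y * U) + U * U * (t * (2 * D))) ≤ (6 + 4 * C1) * y := by
  have hy0 : 0 < y := by linarith
  have hD0 : 0 < D := by linarith
  have pw : ∀ e : ℝ, 0 < y ^ e := fun e => Real.rpow_pos_of_pos hy0 e
  have hmono : ∀ a b : ℝ, a ≤ b → y ^ a ≤ y ^ b := fun a b h => Real.rpow_le_rpow_of_exponent_le hy h
  have h1 : U ≤ y ^ (3 / 5 : ℝ) := hU.trans (hmono _ _ (by norm_num))
  have h2 : √(y * U) ≤ y ^ (3 / 5 : ℝ) := by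
    rw [Real.sqrt_le_left (pw _).le]
    calc y * U ≤ y * y ^ (1 / 5 : ℝ) := by gcongr
      _ = y ^ (1 : ℝ) * y ^ (1 / 5 : ℝ) := by rw [Real.rpow_one]
      _ = y ^ (6 / 5 : ℝ) := by rw [← Real.rpow_add hy0]; norm_num
      _ = (y ^ (3 / 5 : ℝ)) ^ 2 := by
          rw [← Real.rpow_natCast (y ^ (3 / 5 : ℝ)), ← Real.rpow_mul hy0.le]; norm_num
  have h3 : U * U * (t * (2 * D)) ≤ 2 * C1 * y ^ (3 / 5 : ℝ) := by
    calc U * U * (t * (2 * D)) ≤ y ^ (1 / 5 : ℝ) * y ^ (1 / 5 : ℝ) * ((C1 * y ^ (9 / 1000 : ℝ)) * (2 * y ^ (9 / 500 : ℝ))) := by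
          have p1 := pw (1 / 5)
          gcongr
      _ = 2 * C1 * (y ^ (1 / 5 : ℝ) * y ^ (1 / 5 : ℝ) * y ^ (9 / 1000 : ℝ) * y ^ (9 / 500 : ℝ)) := by ring
      _ = 2 * C1 * y ^ (1 / 5 + 1 / 5 + 9 / 1000 + 9 / 500 : ℝ) := by
          rw [← Real.rpow_add hy0, ← Real.rpow_add hy0, ← Real.rpow_add hy0]
      _ ≤ 2 * C1 * y ^ (3 / 5 : ℝ) := by
          exact mul_le_mul_of_nonneg_left (hmono _ _ (by norm_num)) (by positivity)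
  have h4 : D * D * y ^ (3 / 5 : ℝ) ≤ y := by
    calc D * D * y ^ (3 / 5 : ℝ) ≤ y ^ (9 / 500 : ℝ) * y ^ (9 / 500 : ℝ) * y ^ (3 / 5 : ℝ) := by
          have p1 := pw (9 / 500)
          have p2 := pw (3 / 5)
          gcongr
      _ = y ^ (9 / 500 + 9 / 500 + 3 / 5 : ℝ) := by rw [← Real.rpow_add hy0, ← Real.rpow_add hy0]
      _ ≤ y ^ (1 : ℝ) := hmono _ _ (by norm_num)
      _ = y := Real.rpow_one y
  calc 2 * D * D * (U + 2 * √(y * U) + U * U * (t * (2 * D)))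
      ≤ 2 * D * D * (y ^ (3 / 5 : ℝ) + 2 * y ^ (3 / 5 : ℝ) + 2 * C1 * y ^ (3 / 5 : ℝ)) := by gcongr
    _ = (6 + 4 * C1) * (D * D * y ^ (3 / 5 : ℝ)) := by ring
    _ ≤ (6 + 4 * C1) * y := by gcongr

theorem lsl : ∃ C N0 : ℕ, ∀ N : ℕ, N0 ≤ N → ∀ Y : ℕ, (N : ℝ) ^ ((1 : ℝ) / 9) ≤ Y → Y ≤ N → ∀ D : ℕ, 1 ≤ D →
    (D : ℝ) ≤ (N : ℝ) ^ ((1 : ℝ) / 500) →
    ∑ f ∈ Ioc D (2 * D), PS f (fun ψ => ‖LamC N Y ψ‖) ≤ (Real.log N) ^ C * Y := by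
  obtain ⟨C, N1, hty⟩ := ty2L
  obtain ⟨C1, hC1, hdiv⟩ := Pool.Agent.Lib.RG.divisor_bound (1 / 1000) (by norm_num)
  have a1 : ∀ᶠ x : ℝ in Filter.atTop, 7 + 4 * C1 ≤ Real.log x :=
    Real.tendsto_log_atTop.eventually_ge_atTop _
  have a4 := Filter.eventually_ge_atTop (2 : ℝ)
  obtain ⟨X, hX⟩ := Filter.eventually_atTop.mp (a1.and a4)
  refine ⟨C + 1, max N1 ⌈X⌉₊, fun N hN Y hYl hYN D hD hDN => ?_⟩
  have hNX : X ≤ N := (Nat.le_ceil X).trans (by exact_mod_cast (le_max_right _ _).trans hN)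
  obtain ⟨g1, g4⟩ := hX N hNX
  clear hX a1 a4
  have hbil := hty N ((le_max_left _ _).trans hN) Y hYl hYN D hD hDN
  have hN1 : (1 : ℝ) ≤ N := by linarith
  have hN0 : (0 : ℝ) < N := by linarith
  have hNnat : 1 ≤ N := by exact_mod_cast hN1
  have hy1 : (1 : ℝ) ≤ Y := le_trans (Real.one_le_rpow hN1 (by norm_num)) hYl
  have hy0 : (0 : ℝ) < Y := by linarith
  have hYpos : 1 ≤ Y := by exact_mod_cast hy1
  have hD1 : (1 : ℝ) ≤ D := by exact_mod_cast hD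
  have hNy : ∀ e : ℝ, 0 ≤ e → (N : ℝ) ^ (e / 9) ≤ (Y : ℝ) ^ e := by
    intro e he
    have h1 : (N : ℝ) ^ (e / 9) = ((N : ℝ) ^ ((1 : ℝ) / 9)) ^ e := by
      rw [← Real.rpow_mul hN0.le]
      congr 1
      ring
    rw [h1]
    exact Real.rpow_le_rpow (by positivity) hYl he
  have hDy : (D : ℝ) ≤ (Y : ℝ) ^ (9 / 500 : ℝ) := by
    refine hDN.trans ?_
    have := hNy (9 / 500) (by norm_num)
    norm_num at this ⊢
    exact this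
  have htau : (N.divisors.card : ℝ) ≤ C1 * (Y : ℝ) ^ (9 / 1000 : ℝ) := by
    refine (hdiv N hNnat).trans ?_
    have := hNy (9 / 1000) (by norm_num)
    have h2 : (N : ℝ) ^ (1 / 1000 : ℝ) ≤ (Y : ℝ) ^ (9 / 1000 : ℝ) := by
      norm_num at this ⊢
      exact this
    gcongr
  set U : ℕ := ⌊(Y : ℝ) ^ ((1 : ℝ) / 5)⌋₊ with hUdef
  have hYp : (1 : ℝ) ≤ (Y : ℝ) ^ ((1 : ℝ) / 5) := Real.one_le_rpow hy1 (by norm_num)
  have hU1 : 1 ≤ U := by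
    rw [hUdef]
    apply Nat.le_floor
    push_cast
    exact hYp
  have hUle : (U : ℝ) ≤ (Y : ℝ) ^ (1 / 5 : ℝ) := Nat.floor_le (by positivity)
  have hUY : U ≤ Y := by
    have h1 : (U : ℝ) ≤ Y := by
      refine hUle.trans ?_
      calc (Y : ℝ) ^ (1 / 5 : ℝ) ≤ (Y : ℝ) ^ (1 : ℝ) := Real.rpow_le_rpow_of_exponent_le hy1 (by norm_num)
        _ = Y := Real.rpow_one _
    exact_mod_cast h1
  set T : ℝ := U + 2 * √((Y : ℝ) * U) + U * U * ((N.divisors.card : ℝ) * (2 * D)) with hT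
  have hT0 : 0 ≤ T := by positivity
  have hpt : ∀ f ∈ Ioc D (2 * D), PS f (fun ψ => ‖LamC N Y ψ‖) ≤ 2 * D * T +
      PS f (fun ψ => ‖∑ a ∈ Ioc U (Y / U), ∑ n ∈ Icc 1 (Y / a),
        (FN N a : ℂ) * (bV N U n : ℂ) * ψ (a : ZMod f) * ψ (n : ZMod f)‖) := by
    intro f hf
    rw [mem_Ioc] at hf
    have hf2 : 1 < f := by omega
    haveI : NeZero f := ⟨by omega⟩
    have hfD : (f : ℝ) ≤ 2 * D := by exact_mod_cast hf.2
    have h1 : PS f (fun ψ => ‖LamC N Y ψ‖) ≤ PS f (fun ψ => T + ‖∑ a ∈ Ioc U (Y / U), ∑ n ∈ Icc 1 (Y / a),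
        (FN N a : ℂ) * (bV N U n : ℂ) * ψ (a : ZMod f) * ψ (n : ZMod f)‖) := by
      apply BV.PS_mono
      intro ψ hψ
      refine (lamC_split N U U Y f hNnat hU1 hU1 hUY ψ (BV.ne_one_of_prim hf2 hψ)).trans ?_
      rw [hT]
      gcongr
    refine h1.trans ?_
    rw [BV.PS_add]
    refine add_le_add ?_ le_rfl
    refine (BV.PS_le_const (by omega) hT0 (fun _ _ => le_rfl)).trans ?_
    have : (f.totient : ℝ) ≤ 2 * D := by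
      have h2 : (f.totient : ℝ) ≤ f := by exact_mod_cast Nat.totient_le f
      linarith
    gcongr
  have hcard : ((Ioc D (2 * D)).card : ℝ) = D := by
    rw [Nat.card_Ioc]
    congr 1
    omega
  have hnum := lsl_num hy1 hD1 hDy (by linarith) htau (Nat.cast_nonneg _) hUle (Nat.cast_nonneg U)
  have hlog1 : 1 ≤ Real.log N := by linarith
  calc ∑ f ∈ Ioc D (2 * D), PS f (fun ψ => ‖LamC N Y ψ‖)
      ≤ ∑ f ∈ Ioc D (2 * D), (2 * D * T + PS f (fun ψ => ‖∑ a ∈ Ioc U (Y / U), ∑ n ∈ Icc 1 (Y / a),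
        (FN N a : ℂ) * (bV N U n : ℂ) * ψ (a : ZMod f) * ψ (n : ZMod f)‖)) := sum_le_sum hpt
    _ = 2 * D * D * T + ∑ f ∈ Ioc D (2 * D), PS f (fun ψ => ‖∑ a ∈ Ioc U (Y / U), ∑ n ∈ Icc 1 (Y / a),
        (FN N a : ℂ) * (bV N U n : ℂ) * ψ (a : ZMod f) * ψ (n : ZMod f)‖) := by
        rw [sum_add_distrib, sum_const, nsmul_eq_mul, hcard]
        ring
    _ ≤ (6 + 4 * C1) * Y + (Real.log N) ^ C * Y := add_le_add hnum hbil
    _ ≤ (6 + 4 * C1) * ((Real.log N) ^ C * Y) + (Real.log N) ^ C * Y := by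
        have h1 : (1 : ℝ) ≤ (Real.log N) ^ C := one_le_pow₀ hlog1
        have h2 : (Y : ℝ) ≤ (Real.log N) ^ C * Y := le_mul_of_one_le_left hy0.le h1
        gcongr
    _ = (7 + 4 * C1) * ((Real.log N) ^ C * Y) := by ring
    _ ≤ Real.log N * ((Real.log N) ^ C * Y) := by gcongr
    _ = (Real.log N) ^ (C + 1) * Y := by ring

end Pool.Agent.Lib.TE
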