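import Pool.Agent.Lib.MP_7b7e48_nt.TE.VID

/-!
# Module LSplit (45 minutes): the character sum of `FN` is a bilinear sum plus small terms

PROOF. `vid` with `G = BV.fr N ψ` (completely multiplicative; `lam n * G n = FN N n * ψ n`), `U ≤ Y`. First sum: `≤ U` terms. Second: `∑_{v ≤ V} #{k : v k² ≤ Y} ≤ ∑_v √(Y/v) ≤ 2 √(Y V)`.
Third: `BV.char_sum_coprime` for each of the `U V` inner sums. Fourth: `a > Y/V` (natural quotient) gives `n ≤ Y/a ≤ V`, so the inner divisor sum is empty (`d ∣ n`, `d > V ≥ n`); the coprimality conditions of `FN N a`, `bV N V n` are those of `fr`.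
-/

set_option autoImplicit false

open Finset
open Pool.Agent.Lib.MP_45349e_nt.LS (lam)

namespace Pool.Agent.Lib.TE

private lemma lsplit_lam (n : ℕ) : ‖((lam n : ℝ) : ℂ)‖ = 1 := by
  rw [Complex.norm_real, Real.norm_eq_abs, Pool.Agent.Lib.MP_45349e_nt.LS.abs_lam]

private lemma lsplit_mu (n : ℕ) : ‖((ArithmeticFunction.moebius n : ℤ) : ℂ)‖ ≤ 1 := by
  rw [Complex.norm_intCast]
  exact_mod_cast ArithmeticFunction.abs_moebius_le_one

private lemma lsplit_inv_sqrt (V : ℕ) : ∑ v ∈ Icc 1 V, 1 / Real.sqrt v ≤ 2 * Real.sqrt V := by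
  induction V with
  | zero => simp
  | succ V ih =>
    rw [sum_Icc_succ_top (by omega)]
    have h1 : 0 ≤ Real.sqrt V := Real.sqrt_nonneg _
    have h0 : (0 : ℝ) < ((V + 1 : ℕ) : ℝ) := by positivity
    have h2 : 0 < Real.sqrt ((V + 1 : ℕ) : ℝ) := Real.sqrt_pos.mpr h0
    have h3 : Real.sqrt ((V + 1 : ℕ) : ℝ) * Real.sqrt ((V + 1 : ℕ) : ℝ) = (V : ℝ) + 1 := by
      rw [Real.mul_self_sqrt h0.le]; push_cast; ring
    have h4 : Real.sqrt V * Real.sqrt V = V := Real.mul_self_sqrt (Nat.cast_nonneg _)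
    have h5 : Real.sqrt V ≤ Real.sqrt ((V + 1 : ℕ) : ℝ) := by
      apply Real.sqrt_le_sqrt
      push_cast
      linarith
    have h6 : 1 / Real.sqrt ((V + 1 : ℕ) : ℝ) ≤ 2 * Real.sqrt ((V + 1 : ℕ) : ℝ) - 2 * Real.sqrt V := by
      rw [div_le_iff₀ h2]
      nlinarith
    linarith

private lemma lsplit_card (Y v : ℕ) (hv : 1 ≤ v) :
    (((Icc 1 Y).filter (fun k => v * k ^ 2 ≤ Y)).card : ℝ) ≤ Real.sqrt Y * (1 / Real.sqrt v) := by
  have hv0 : (0 : ℝ) < v := by exact_mod_cast hv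
  have hs : 0 < Real.sqrt v := Real.sqrt_pos.mpr hv0
  have hsub : (Icc 1 Y).filter (fun k => v * k ^ 2 ≤ Y) ⊆ Icc 1 (Nat.sqrt (Y / v)) := by
    intro k hk
    rw [mem_filter, mem_Icc] at hk
    rw [mem_Icc]
    refine ⟨hk.1.1, ?_⟩
    rw [Nat.le_sqrt', Nat.le_div_iff_mul_le hv]
    calc k ^ 2 * v = v * k ^ 2 := by ring
      _ ≤ Y := hk.2
  have h1 : (((Icc 1 Y).filter (fun k => v * k ^ 2 ≤ Y)).card : ℝ) ≤ (Nat.sqrt (Y / v) : ℝ) := by
    have := card_le_card hsub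
    rw [Nat.card_Icc, Nat.add_sub_cancel] at this
    exact_mod_cast this
  refine h1.trans ?_
  rw [mul_one_div, le_div_iff₀ hs]
  rw [← Real.sqrt_sq (show (0 : ℝ) ≤ (Nat.sqrt (Y / v) : ℝ) by positivity), ← Real.sqrt_mul (by positivity)]
  apply Real.sqrt_le_sqrt
  have h2 : Nat.sqrt (Y / v) ^ 2 * v ≤ Y := by
    have h3 : Nat.sqrt (Y / v) ^ 2 ≤ Y / v := Nat.sqrt_le' _
    exact (Nat.mul_le_mul_right v h3).trans (Nat.div_mul_le_self Y v)
  exact_mod_cast h2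

theorem lamC_split (N U V Y f : ℕ) [NeZero f] (hN : 1 ≤ N) (hU : 1 ≤ U) (hV : 1 ≤ V) (hUY : U ≤ Y)
    (ψ : DirichletCharacter ℂ f) (hψ : ψ ≠ 1) :
    ‖LamC N Y ψ‖ ≤ U + 2 * Real.sqrt (Y * V) + U * V * ((N.divisors.card : ℝ) * f) +
      ‖∑ a ∈ Ioc U (Y / V), ∑ n ∈ Icc 1 (Y / a), (FN N a : ℂ) * (bV N V n : ℂ) * ψ (a : ZMod f) * ψ (n : ZMod f)‖ := by
  have hsum : LamC N Y ψ = ∑ n ∈ Icc 1 Y, (lam n : ℂ) * BV.fr N ψ n := by
    unfold LamC
    refine sum_congr rfl fun n _ => ?_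
    unfold FN BV.fr
    split_ifs <;> simp
  rw [hsum, vid (BV.fr N ψ) (BV.fr_mul N ψ) U V Y hU hV hUY]
  have hG : ∀ n, ‖BV.fr N ψ n‖ ≤ 1 := BV.norm_fr_le N ψ
  -- first
  have t1 : ‖∑ n ∈ Icc 1 U, (lam n : ℂ) * BV.fr N ψ n‖ ≤ U := by
    refine (norm_sum_le _ _).trans ?_
    refine (sum_le_card_nsmul _ _ 1 fun n _ => ?_).trans ?_
    · rw [norm_mul, lsplit_lam, one_mul]
      exact hG n
    · rw [Nat.card_Icc, Nat.add_sub_cancel, nsmul_eq_mul, mul_one]
  -- second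
  have t2 : ‖∑ v ∈ Icc 1 V, ((ArithmeticFunction.moebius v : ℤ) : ℂ) * BV.fr N ψ v *
        ∑ k ∈ (Icc 1 Y).filter (fun k => v * k ^ 2 ≤ Y), BV.fr N ψ (k ^ 2)‖ ≤ 2 * Real.sqrt (Y * V) := by
    refine (norm_sum_le _ _).trans ?_
    have h1 : ∀ v ∈ Icc 1 V, ‖((ArithmeticFunction.moebius v : ℤ) : ℂ) * BV.fr N ψ v *
        ∑ k ∈ (Icc 1 Y).filter (fun k => v * k ^ 2 ≤ Y), BV.fr N ψ (k ^ 2)‖ ≤ Real.sqrt Y * (1 / Real.sqrt v) := by
      intro v hv
      rw [mem_Icc] at hv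
      rw [norm_mul, norm_mul]
      have h2 : ‖∑ k ∈ (Icc 1 Y).filter (fun k => v * k ^ 2 ≤ Y), BV.fr N ψ (k ^ 2)‖ ≤
          Real.sqrt Y * (1 / Real.sqrt v) := by
        refine (norm_sum_le _ _).trans ?_
        refine (sum_le_card_nsmul _ _ 1 fun n _ => hG _).trans ?_
        rw [nsmul_eq_mul, mul_one]
        exact lsplit_card Y v hv.1
      calc ‖((ArithmeticFunction.moebius v : ℤ) : ℂ)‖ * ‖BV.fr N ψ v‖ *
          ‖∑ k ∈ (Icc 1 Y).filter (fun k => v * k ^ 2 ≤ Y), BV.fr N ψ (k ^ 2)‖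
          ≤ 1 * 1 * (Real.sqrt Y * (1 / Real.sqrt v)) := by
            apply mul_le_mul (mul_le_mul (lsplit_mu v) (hG v) (norm_nonneg _) zero_le_one) h2 (norm_nonneg _)
            norm_num
        _ = _ := by ring
    refine (sum_le_sum h1).trans ?_
    rw [← mul_sum]
    calc Real.sqrt Y * ∑ v ∈ Icc 1 V, 1 / Real.sqrt v ≤ Real.sqrt Y * (2 * Real.sqrt V) :=
          mul_le_mul_of_nonneg_left (lsplit_inv_sqrt V) (Real.sqrt_nonneg _)
      _ = 2 * Real.sqrt (Y * V) := by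
          rw [Real.sqrt_mul (Nat.cast_nonneg Y)]; ring
  -- third
  have t3 : ‖∑ u ∈ Icc 1 U, ∑ v ∈ Icc 1 V, (lam u : ℂ) * ((ArithmeticFunction.moebius v : ℤ) : ℂ) *
      BV.fr N ψ (u * v) * ∑ k ∈ Icc 1 (Y / (u * v)), BV.fr N ψ k‖ ≤ U * V * ((N.divisors.card : ℝ) * f) := by
    refine (norm_sum_le _ _).trans ?_
    have h1 : ∀ u ∈ Icc 1 U, ‖∑ v ∈ Icc 1 V, (lam u : ℂ) * ((ArithmeticFunction.moebius v : ℤ) : ℂ) *
        BV.fr N ψ (u * v) * ∑ k ∈ Icc 1 (Y / (u * v)), BV.fr N ψ k‖ ≤ V * ((N.divisors.card : ℝ) * f) := by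
      intro u _
      refine (norm_sum_le _ _).trans ?_
      refine (sum_le_card_nsmul _ _ ((N.divisors.card : ℝ) * f) fun v _ => ?_).trans ?_
      · rw [norm_mul, norm_mul, norm_mul, lsplit_lam]
        have h2 := BV.char_sum_coprime ψ hψ (Y / (u * v)) N hN
        calc 1 * ‖((ArithmeticFunction.moebius v : ℤ) : ℂ)‖ * ‖BV.fr N ψ (u * v)‖ *
            ‖∑ k ∈ Icc 1 (Y / (u * v)), BV.fr N ψ k‖
            ≤ 1 * 1 * 1 * ((N.divisors.card : ℝ) * f) := by
              apply mul_le_mul (mul_le_mul (mul_le_mul le_rfl (lsplit_mu v) (norm_nonneg _) zero_le_one)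
                (hG _) (norm_nonneg _) (by norm_num)) h2 (norm_nonneg _)
              norm_num
          _ = _ := by ring
      · rw [Nat.card_Icc, Nat.add_sub_cancel, nsmul_eq_mul]
    refine (sum_le_card_nsmul _ _ _ h1).trans ?_
    rw [Nat.card_Icc, Nat.add_sub_cancel, nsmul_eq_mul]
    apply le_of_eq
    ring
  -- fourth
  have t4 : ∑ a ∈ Ioc U Y, ∑ n ∈ Icc 1 (Y / a), (lam a : ℂ) *
        ((∑ d ∈ n.divisors.filter (fun d => V < d), ((ArithmeticFunction.moebius d : ℤ) : ℝ) : ℝ) : ℂ) *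
          (BV.fr N ψ a * BV.fr N ψ n) =
      ∑ a ∈ Ioc U (Y / V), ∑ n ∈ Icc 1 (Y / a), (FN N a : ℂ) * (bV N V n : ℂ) * ψ (a : ZMod f) * ψ (n : ZMod f) := by
    have h1 : ∀ a n : ℕ, (lam a : ℂ) *
        ((∑ d ∈ n.divisors.filter (fun d => V < d), ((ArithmeticFunction.moebius d : ℤ) : ℝ) : ℝ) : ℂ) *
          (BV.fr N ψ a * BV.fr N ψ n) = (FN N a : ℂ) * (bV N V n : ℂ) * ψ (a : ZMod f) * ψ (n : ZMod f) := by
      intro a n
      unfold FN bV BV.fr
      by_cases ha : a.Coprime N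
      · by_cases hn : n.Coprime N
        · rw [if_pos ha, if_pos hn, if_pos ha, if_pos hn]; ring
        · rw [if_neg hn, if_neg hn]; simp
      · rw [if_neg ha, if_neg ha]; simp
    rw [sum_congr rfl (fun a _ => sum_congr rfl (fun n _ => h1 a n))]
    symm
    apply sum_subset
    · intro a ha
      rw [mem_Ioc] at ha ⊢
      exact ⟨ha.1, ha.2.trans (Nat.div_le_self Y V)⟩
    · intro a ha hna
      rw [mem_Ioc] at ha hna
      have haV : Y / V < a := by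
        by_contra hcon
        exact hna ⟨ha.1, by omega⟩
      apply sum_eq_zero
      intro n hn
      rw [mem_Icc] at hn
      have h2 : Y < a * V := by
        rw [Nat.div_lt_iff_lt_mul hV] at haV
        exact haV
      have h3 : n ≤ V := by
        have ha0 : 0 < a := by omega
        have h4 : Y / a < V := by
          rw [Nat.div_lt_iff_lt_mul ha0]
          calc Y < a * V := h2
            _ = V * a := by ring
        omega
      have hb : bV N V n = 0 := by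
        unfold bV
        split_ifs
        · apply sum_eq_zero
          intro d hd
          rw [mem_filter, Nat.mem_divisors] at hd
          have := Nat.le_of_dvd hn.1 hd.1.1
          omega
        · rfl
      rw [hb]
      simp
  rw [t4]
  refine (norm_add_le _ _).trans ?_
  refine add_le_add ?_ le_rfl
  refine (norm_sub_le _ _).trans ?_
  refine add_le_add ?_ t3
  refine (norm_add_le _ _).trans ?_
  exact add_le_add t1 t2

end Pool.Agent.Lib.TE
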