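import Pool.Agent.Lib.MP_7b7e48_nt.TE.Defs

/-!
# Module LamG1 (45 minutes): a multiplicative twist of `lam` as a convolution

PROOF. Both sides are multiplicative in `n` (induction on the prime powers, e.g. `Nat.recOnPosPrimePosCoprime`/`Nat.recOnMul`; or expand the right side over the subsets of `n.primeFactors`: `lam (n/k) = lam n · lam k = lam n (-1)^ω(k)` for `k ∣ n` squarefree, so the right side is
`lam n ∏_{p ∣ n} (1 - h_p)`, `h_p = 1` if `p ∣ r` or `p ≤ wa`, `h_p = 1 - g p` otherwise). That product is `0` if some `p ∣ n` divides `r` or is `≤ wa`, and `∏ g p` otherwise.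
-/

set_option autoImplicit false

open Finset
open Pool.Agent.Lib.MP_45349e_nt.LS (lam)
open Pool.Agent.Lib.GT (Rough)

namespace Pool.Agent.Lib.TE

open Classical in
/-- the twist -/
noncomputable def FG (r wa : ℕ) (g : ℕ → ℝ) (n : ℕ) : ℝ :=
  if n.Coprime r ∧ Rough wa n then lam n * ∏ p ∈ n.primeFactors, g p else 0

open Classical in
/-- the convolution factor -/
noncomputable def hG (r wa : ℕ) (g : ℕ → ℝ) (k : ℕ) : ℝ :=
  if Squarefree k then ∏ p ∈ k.primeFactors, (if p ∣ r ∨ p ≤ wa then (1 : ℝ) else 1 - g p) else 0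

/-- the number removed from `1` at the prime `p` -/
private noncomputable def LamG1_h (r wa : ℕ) (g : ℕ → ℝ) (p : ℕ) : ℝ := by
  classical
  exact if p ∣ r ∨ p ≤ wa then (1 : ℝ) else 1 - g p

private theorem LamG1_hG (r wa : ℕ) (g : ℕ → ℝ) (k : ℕ) :
    hG r wa g k = if Squarefree k then ∏ p ∈ k.primeFactors, LamG1_h r wa g p else 0 := by
  classical
  unfold hG LamG1_h
  by_cases h : Squarefree k
  · rw [if_pos h]
  · rw [if_neg h]

private theorem LamG1_lam_mul (a b : ℕ) (ha : a ≠ 0) (hb : b ≠ 0) : lam (a * b) = lam a * lam b := by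
  unfold lam
  rw [ArithmeticFunction.cardFactors_mul ha hb, pow_add]

private theorem LamG1_lam_sqf {k : ℕ} (hk : Squarefree k) : lam k = ∏ _p ∈ k.primeFactors, (-1 : ℝ) := by
  unfold lam
  rw [prod_const, ← (ArithmeticFunction.cardDistinctFactors_eq_cardFactors_iff_squarefree
    hk.ne_zero).2 hk, ArithmeticFunction.cardDistinctFactors_apply]
  rfl

private theorem LamG1_lam_sq (k : ℕ) : lam k * lam k = 1 := by
  unfold lam
  rw [← mul_pow]
  norm_num

theorem FG_conv (r wa : ℕ) (hr : 1 ≤ r) (g : ℕ → ℝ) (n : ℕ) (hn : 1 ≤ n) :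
    FG r wa g n = ∑ k ∈ n.divisors, hG r wa g k * lam (n / k) := by
  classical
  have hn0 : n ≠ 0 := by omega
  have e1 : ∀ k ∈ n.divisors, hG r wa g k * lam (n / k) =
      if Squarefree k then lam n * ∏ p ∈ k.primeFactors, (-LamG1_h r wa g p) else 0 := by
    intro k hk
    rw [LamG1_hG]
    by_cases h : Squarefree k
    · rw [if_pos h, if_pos h]
      have hk1 := Nat.dvd_of_mem_divisors hk
      obtain ⟨m, hm⟩ := hk1
      have hk0 : k ≠ 0 := h.ne_zero
      have hm0 : m ≠ 0 := by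
        rintro rfl
        rw [mul_zero] at hm
        exact hn0 hm
      have e2 : n / k = m := by
        rw [hm]
        exact Nat.mul_div_cancel_left m (Nat.pos_of_ne_zero hk0)
      have e3 : ∏ p ∈ k.primeFactors, (-LamG1_h r wa g p) =
          lam k * ∏ p ∈ k.primeFactors, LamG1_h r wa g p := by
        rw [LamG1_lam_sqf h, ← prod_mul_distrib]
        exact prod_congr rfl fun p _ => by ring
      rw [e2, e3, hm, LamG1_lam_mul k m hk0 hm0]
      have := LamG1_lam_sq k
      calc (∏ p ∈ k.primeFactors, LamG1_h r wa g p) * lam m =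
          (lam k * lam k) * ((∏ p ∈ k.primeFactors, LamG1_h r wa g p) * lam m) := by
            rw [this, one_mul]
        _ = _ := by ring
    · rw [if_neg h, if_neg h, zero_mul]
  have e4 : ∑ k ∈ n.divisors.filter (fun k => Squarefree k), ∏ p ∈ k.primeFactors, (-LamG1_h r wa g p) =
      ∏ p ∈ n.primeFactors, (1 + -LamG1_h r wa g p) := by
    rw [prod_one_add]
    refine sum_nbij' (fun k => k.primeFactors) (fun S => ∏ p ∈ S, p) ?_ ?_ ?_ ?_ ?_
    · intro k hk
      rw [mem_filter, Nat.mem_divisors] at hk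
      rw [mem_powerset]
      exact Nat.primeFactors_mono hk.1.1 hn0
    · intro S hS
      rw [mem_powerset] at hS
      have hp : ∀ p ∈ S, p.Prime := fun p hp => Nat.prime_of_mem_primeFactors (hS hp)
      rw [mem_filter, Nat.mem_divisors]
      refine ⟨⟨?_, hn0⟩, ?_⟩
      · exact (prod_dvd_prod_of_subset _ _ _ hS).trans (Nat.prod_primeFactors_dvd n)
      · refine Finset.squarefree_prod_of_pairwise_isCoprime (fun p hp1 q hq1 hpq => ?_)
          fun p hp1 => (hp p hp1).squarefree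
        exact Nat.coprime_iff_isRelPrime.1 ((Nat.coprime_primes (hp p hp1) (hp q hq1)).2 hpq)
    · intro k hk
      rw [mem_filter] at hk
      exact Nat.prod_primeFactors_of_squarefree hk.2
    · intro S hS
      rw [mem_powerset] at hS
      exact Nat.primeFactors_prod fun p hp => Nat.prime_of_mem_primeFactors (hS hp)
    · intro k _
      rfl
  rw [sum_congr rfl e1, ← sum_filter, ← mul_sum, e4]
  unfold FG
  by_cases h : n.Coprime r ∧ Rough wa n
  · rw [if_pos h]
    refine congrArg _ (prod_congr rfl fun p hp => ?_)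
    have hpp := Nat.prime_of_mem_primeFactors hp
    have hpd := Nat.dvd_of_mem_primeFactors hp
    have h1 : ¬ (p ∣ r ∨ p ≤ wa) := by
      rintro (h2 | h2)
      · exact Nat.Prime.not_coprime_iff_dvd.2 ⟨p, hpp, hpd, h2⟩ h.1
      · have := h.2 p hpp hpd
        omega
    unfold LamG1_h
    rw [if_neg h1]
    ring
  · rw [if_neg h]
    have h1 : ∃ p ∈ n.primeFactors, p ∣ r ∨ p ≤ wa := by
      by_contra hcon
      push Not at hcon
      apply h
      constructor
      · by_contra hc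
        obtain ⟨p, hp, h1, h2⟩ := Nat.Prime.not_coprime_iff_dvd.1 hc
        exact (hcon p (Nat.mem_primeFactors.2 ⟨hp, h1, hn0⟩)).1 h2
      · intro p hp hpn
        exact (hcon p (Nat.mem_primeFactors.2 ⟨hp, hpn, hn0⟩)).2
    obtain ⟨p, hp, h2⟩ := h1
    rw [prod_eq_zero hp, mul_zero]
    unfold LamG1_h
    rw [if_pos h2]
    ring

private theorem LamG1_swap (F : ℕ → ℕ → ℝ) (X : ℕ) :
    ∑ n ∈ Icc 1 X, ∑ k ∈ n.divisors, F k (n / k) = ∑ k ∈ Icc 1 X, ∑ m ∈ Icc 1 (X / k), F k m := by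
  classical
  have e1 : ∀ n ∈ Icc 1 X, ∑ k ∈ n.divisors, F k (n / k) =
      ∑ k ∈ Icc 1 X, if k ∣ n then F k (n / k) else 0 := by
    intro n hn
    rw [mem_Icc] at hn
    rw [← sum_filter]
    refine sum_congr ?_ fun _ _ => rfl
    ext k
    rw [Nat.mem_divisors, mem_filter, mem_Icc]
    constructor
    · rintro ⟨h1, h2⟩
      have := Nat.le_of_dvd (by omega) h1
      have h3 := Nat.pos_of_dvd_of_pos h1 (by omega)
      exact ⟨⟨h3, by omega⟩, h1⟩
    · rintro ⟨_, h2⟩
      exact ⟨h2, by omega⟩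
  rw [sum_congr rfl e1, sum_comm]
  refine sum_congr rfl fun k hk => ?_
  rw [mem_Icc] at hk
  have hk0 : 0 < k := by omega
  rw [← sum_filter]
  refine sum_nbij' (fun n => n / k) (fun m => k * m) ?_ ?_ ?_ ?_ ?_
  · intro n hn
    rw [mem_filter, mem_Icc] at hn
    obtain ⟨⟨h1, h2⟩, m, rfl⟩ := hn
    rw [mem_Icc, Nat.mul_div_cancel_left m hk0, Nat.le_div_iff_mul_le hk0]
    refine ⟨?_, by rw [mul_comm]; exact h2⟩
    rcases Nat.eq_zero_or_pos m with h | h
    · rw [h, mul_zero] at h1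
      omega
    · exact h
  · intro m hm
    rw [mem_Icc, Nat.le_div_iff_mul_le hk0] at hm
    rw [mem_filter, mem_Icc]
    exact ⟨⟨Nat.mul_pos hk0 hm.1, by rw [mul_comm]; exact hm.2⟩, dvd_mul_right k m⟩
  · intro n hn
    rw [mem_filter] at hn
    exact Nat.mul_div_cancel' hn.2
  · intro m _
    exact Nat.mul_div_cancel_left m hk0
  · intro n _
    rfl

theorem FG_sum (r wa : ℕ) (hr : 1 ≤ r) (g : ℕ → ℝ) (X : ℕ) :
    ∑ n ∈ Icc 1 X, FG r wa g n / n = ∑ k ∈ Icc 1 X, hG r wa g k / k * ∑ n ∈ Icc 1 (X / k), lam n / n ∧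
    ∑ n ∈ Icc 1 X, FG r wa g n = ∑ k ∈ Icc 1 X, hG r wa g k * ∑ n ∈ Icc 1 (X / k), lam n := by
  constructor
  · have h := LamG1_swap (fun k m => hG r wa g k / k * (lam m / m)) X
    have e : ∑ k ∈ Icc 1 X, hG r wa g k / k * ∑ n ∈ Icc 1 (X / k), lam n / n =
        ∑ k ∈ Icc 1 X, ∑ m ∈ Icc 1 (X / k), hG r wa g k / k * (lam m / m) :=
      sum_congr rfl fun k _ => mul_sum _ _ _
    rw [e, ← h]
    refine sum_congr rfl fun n hn => ?_
    rw [mem_Icc] at hn
    rw [FG_conv r wa hr g n hn.1, sum_div]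
    refine sum_congr rfl fun k hk => ?_
    have hk1 := Nat.dvd_of_mem_divisors hk
    have hk0 : (k : ℝ) ≠ 0 := by
      have := Nat.pos_of_mem_divisors hk
      exact_mod_cast this.ne'
    have hn0 : (n : ℝ) ≠ 0 := by
      have : n ≠ 0 := by omega
      exact_mod_cast this
    show hG r wa g k * lam (n / k) / n = hG r wa g k / k * (lam (n / k) / ((n / k : ℕ) : ℝ))
    rw [Nat.cast_div hk1 hk0]
    field_simp
  · have h := LamG1_swap (fun k m => hG r wa g k * lam m) X
    have e : ∑ k ∈ Icc 1 X, hG r wa g k * ∑ n ∈ Icc 1 (X / k), lam n =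
        ∑ k ∈ Icc 1 X, ∑ m ∈ Icc 1 (X / k), hG r wa g k * lam m :=
      sum_congr rfl fun k _ => mul_sum _ _ _
    rw [e, ← h]
    refine sum_congr rfl fun n hn => ?_
    rw [mem_Icc] at hn
    exact FG_conv r wa hr g n hn.1

end Pool.Agent.Lib.TE
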