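import Pool.Agent.Lib.MP_7b7e48_nt.TE.Sid2
import Pool.Agent.Lib.MP_45349e_nt.LS.LamB

/-!
# Module Main (150 minutes): the exceptional set in progressions

`Sst` is `S*`. A family `x ↦ (M x, c x)`. PROOF (`ee_lam`, stage 1). For `x` whose progression meets `Sst`: `g0 = gcd(c, M)`, `g1 = gcd(N - c', M)` (`c'` = an element of the progression in `Sst`): `g0` divides that element, `g1` divides `N -` it, so `g0` is `w1`-rough, `g1` is `z`-rough, both coprime to `N`.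
`n = g0 e`: `e ≡ c/g0` modulo `M/g0` (unit class); split into the `Wf` classes modulo `Wf` (only the unit classes contribute as `e` is `w1`-rough and `hW1`): class `cl` modulo `Wf (M/g0)`. The conditions `n ∈ Sst` are `(e,N) = 1`, `Rough w1 e`, `Rough z (N - g0 e)`; `lam n = lam g0 lam e`: `sid1` with `d = 1`, `g = g0`, `m = M/g0`, family `(x, class)`,
`1/(g m) = 1/M`, `j ∣ M/g0` implies `j ∣ M`: `Th = Wf K^Cw`. The side `N - n = g1 e` is the same with `(wa, wb) = (z, w1)`.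
(`ee_c`, stage 2). `s c(n) + t c(N - n) = 0` on `Sst` (`H1`), so `s lam n + t lam (N-n) = s (lam - c)(n) + t (lam - c)(N - n)`; `(lam - c)(g e) = c g (lam - c)(e) + (lam g - c g) lam e`; `sid2` for the first term (`Th = Wf K^Cw`); the second is `0` unless `g` has a prime factor `q` with `c q = 1` (all other primes `∤ Wf N` have `c p = -1 = lam p`):
`sid1` for that subfamily with `Th = 2 Wf σ K^Cw`: `q ∣ g`, `j ∣ M/g` give `q j ∣ M`: hypothesis `W2`.
-/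

set_option autoImplicit false

open Finset
open Pool.Agent.Lib.MP_45349e_nt.LS (lam)
open Pool.Agent.Lib.GT (Rough)
open Pool.Agent.Lib.RG (LV)
open Pool.Agent.Lib.OW (QP)

namespace Pool.Agent.Lib.TE

open Classical in
/-- the admissible `n`: coprime to `N`, `w1`-rough, `N - n` is `z`-rough -/
noncomputable def Sst (N w1 z : ℕ) : Finset ℕ :=
  (Ioo 0 N).filter fun n => n.Coprime N ∧ Rough w1 n ∧ Rough z (N - n)

open Classical in
/-- the pattern `(s, t)` -/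
noncomputable def Pat (N w1 z : ℕ) (s t : ℝ) : Finset ℕ := (Sst N w1 z).filter fun n => lam n = s ∧ lam (N - n) = t

/-! ### Parametrisation of a progression on one side -/

open Classical in
/-- the admissible numbers in a progression -/
private noncomputable def MaT (N wa wb c M : ℕ) : Finset ℕ :=
  (Ioo 0 N).filter fun n => (n.Coprime N ∧ Rough wa n ∧ Rough wb (N - n)) ∧ n ≡ c [MOD M]

open Classical in
private theorem Main_bij {N wa wb c M : ℕ} (hM : 1 ≤ M) (hMN : M.Coprime N) (F : ℕ → ℝ) {n0 : ℕ}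
    (h0 : n0 ∈ MaT N wa wb c M) :
    Rough wa (Nat.gcd c M) ∧ ∑ n ∈ MaT N wa wb c M, F n =
      ∑ e ∈ (Icc 1 ((N - 1) / Nat.gcd c M)).filter
        (fun e => e ≡ c / Nat.gcd c M [MOD M / Nat.gcd c M] ∧ e.Coprime N ∧ Rough wa e ∧
          Rough wb (N - Nat.gcd c M * e)), F (Nat.gcd c M * e) := by
  set g := Nat.gcd c M with hg
  have hgpos : 0 < g := Nat.gcd_pos_of_pos_right _ hM
  have hgM : g ∣ M := Nat.gcd_dvd_right _ _
  have hgc : g ∣ c := Nat.gcd_dvd_left _ _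
  have hdv : ∀ n, n ≡ c [MOD M] → g ∣ n := fun n hn =>
    (Nat.modEq_zero_iff_dvd).1 ((hn.of_dvd hgM).trans ((Nat.modEq_zero_iff_dvd).2 hgc))
  have hgN : g.Coprime N := Nat.Coprime.coprime_dvd_left hgM hMN
  have hMg : g * (M / g) = M := Nat.mul_div_cancel' hgM
  have hcg : g * (c / g) = c := Nat.mul_div_cancel' hgc
  have hmem : ∀ n, n ∈ MaT N wa wb c M ↔ (0 < n ∧ n < N) ∧
      (n.Coprime N ∧ Rough wa n ∧ Rough wb (N - n)) ∧ n ≡ c [MOD M] := by
    intro n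
    unfold MaT
    rw [mem_filter, mem_Ioo]
  have hn0 := (hmem n0).1 h0
  have hgr : Rough wa g := fun p hp hpg => hn0.2.1.2.1 p hp (hpg.trans (hdv n0 hn0.2.2))
  refine ⟨hgr, ?_⟩
  have hN1 : 1 ≤ N := by omega
  refine sum_nbij' (fun n => n / g) (fun e => g * e) ?_ ?_ ?_ ?_ ?_
  · intro n hn
    obtain ⟨⟨h1, h2⟩, ⟨h3, h4, h5⟩, h6⟩ := (hmem n).1 hn
    have hgn := hdv n h6
    have hng : g * (n / g) = n := Nat.mul_div_cancel' hgn
    rw [mem_filter, mem_Icc]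
    refine ⟨⟨Nat.div_pos (Nat.le_of_dvd h1 hgn) hgpos, Nat.div_le_div_right (by omega)⟩,
      ?_, ?_, ?_, ?_⟩
    · apply Nat.ModEq.mul_left_cancel' hgpos.ne'
      rw [hng, hcg, hMg]
      exact h6
    · exact Nat.Coprime.coprime_dvd_left (Nat.div_dvd_of_dvd hgn) h3
    · exact fun p hp hpn => h4 p hp (hpn.trans (Nat.div_dvd_of_dvd hgn))
    · rw [hng]
      exact h5
  · intro e he
    rw [mem_filter, mem_Icc] at he
    obtain ⟨⟨h1, h2⟩, h3, h4, h5, h6⟩ := he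
    rw [hmem]
    have h7 : g * e ≤ N - 1 := by
      calc g * e ≤ g * ((N - 1) / g) := Nat.mul_le_mul_left _ h2
        _ ≤ N - 1 := Nat.mul_div_le _ _
    refine ⟨⟨Nat.mul_pos hgpos h1, by omega⟩, ⟨Nat.Coprime.mul_left hgN h4, ?_, h6⟩, ?_⟩
    · intro p hp hpe
      rcases (Nat.Prime.dvd_mul hp).1 hpe with h | h
      · exact hgr p hp h
      · exact h5 p hp h
    · have h8 := Nat.ModEq.mul_left' g h3
      rwa [hcg, hMg] at h8
  · intro n hn
    exact Nat.mul_div_cancel' (hdv n ((hmem n).1 hn).2.2)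
  · intro e _
    exact Nat.mul_div_cancel_left e hgpos
  · intro n hn
    show F n = F (g * (n / g))
    rw [Nat.mul_div_cancel' (hdv n ((hmem n).1 hn).2.2)]

open Classical in
private theorem Main_split {N wa wb g m c' Wf : ℕ} (hW : 1 ≤ Wf) (hco : Wf.Coprime m)
    (hRo : ∀ n, Rough wa n → n.Coprime Wf) (cl : ℕ → ℕ)
    (hcl : ∀ r, cl r ≡ r [MOD Wf] ∧ cl r ≡ c' [MOD m]) (F : ℕ → ℝ) :
    ∑ e ∈ (Icc 1 ((N - 1) / g)).filter
        (fun e => e ≡ c' [MOD m] ∧ e.Coprime N ∧ Rough wa e ∧ Rough wb (N - g * e)), F e =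
      ∑ r ∈ (range Wf).filter (fun r => r.Coprime Wf),
        ∑ e ∈ (Icc 1 ((N - 1) / g)).filter
          (fun e => e ≡ cl r [MOD Wf * m] ∧ e.Coprime N ∧ Rough wa e ∧ Rough wb (N - g * e)),
          F e := by
  rw [← sum_fiberwise_of_maps_to (g := fun e => e % Wf)
    (t := (range Wf).filter (fun r => r.Coprime Wf))]
  · refine sum_congr rfl fun r hr => ?_
    refine sum_congr ?_ fun _ _ => rfl
    ext e
    have hr' : r < Wf := mem_range.1 (mem_filter.1 hr).1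
    simp only [mem_filter]
    constructor
    · rintro ⟨⟨h1, h2, h3⟩, h4⟩
      refine ⟨h1, ?_, h3⟩
      refine (Nat.modEq_and_modEq_iff_modEq_mul hco).1 ⟨?_, h2.trans (hcl r).2.symm⟩
      refine Nat.ModEq.trans ?_ (hcl r).1.symm
      rw [← h4]
      exact (Nat.mod_modEq e Wf).symm
    · rintro ⟨h1, h2, h3⟩
      obtain ⟨h4, h5⟩ := (Nat.modEq_and_modEq_iff_modEq_mul hco).2 h2
      refine ⟨⟨h1, h5.trans (hcl r).2, h3⟩, ?_⟩
      have h6 : e % Wf = r % Wf := h4.trans (hcl r).1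
      rw [h6, Nat.mod_eq_of_lt hr']
  · intro e he
    have h1 := (mem_filter.1 he).2.2.2.1
    rw [mem_filter, mem_range]
    refine ⟨Nat.mod_lt _ (by omega), ?_⟩
    have h2 : (e % Wf).Coprime Wf := by
      rw [Nat.coprime_iff_gcd_eq_one, (Nat.mod_modEq e Wf).gcd_eq]
      exact hRo e h1
    exact h2

/-- the data of a family: classes modulo `Wf m` -/
private theorem Main_cl {Wf : ℕ} {ι : Type} (X : Finset ι) (M c : ι → ℕ)
    (hX : ∀ x ∈ X, 1 ≤ M x ∧ (M x).Coprime Wf) :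
    ∃ cl : ι × ℕ → ℕ, ∀ x ∈ X, ∀ r, cl (x, r) ≡ r [MOD Wf] ∧
      cl (x, r) ≡ c x / Nat.gcd (c x) (M x) [MOD M x / Nat.gcd (c x) (M x)] ∧
      (r.Coprime Wf → (cl (x, r)).Coprime (Wf * (M x / Nat.gcd (c x) (M x)))) := by
  have key : ∀ y : ι × ℕ, ∃ k : ℕ, y.1 ∈ X → k ≡ y.2 [MOD Wf] ∧
      k ≡ c y.1 / Nat.gcd (c y.1) (M y.1) [MOD M y.1 / Nat.gcd (c y.1) (M y.1)] ∧
      (y.2.Coprime Wf → k.Coprime (Wf * (M y.1 / Nat.gcd (c y.1) (M y.1)))) := by
    rintro ⟨x, r⟩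
    by_cases hx : x ∈ X
    · obtain ⟨hM, hMW⟩ := hX x hx
      have hgpos : 0 < Nat.gcd (c x) (M x) := Nat.gcd_pos_of_pos_right _ hM
      have hco : Wf.Coprime (M x / Nat.gcd (c x) (M x)) :=
        (Nat.Coprime.coprime_dvd_left (Nat.div_dvd_of_dvd (Nat.gcd_dvd_right _ _)) hMW).symm
      obtain ⟨k, hk1, hk2⟩ := Nat.chineseRemainder hco r (c x / Nat.gcd (c x) (M x))
      refine ⟨k, fun _ => ⟨hk1, hk2, fun hr => ?_⟩⟩
      apply Nat.Coprime.mul_right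
      · rw [Nat.coprime_iff_gcd_eq_one, hk1.gcd_eq]
        exact hr
      · rw [Nat.coprime_iff_gcd_eq_one, hk2.gcd_eq]
        exact Nat.coprime_div_gcd_div_gcd hgpos
    · exact ⟨0, fun h => absurd h hx⟩
  choose cl hcl using key
  exact ⟨cl, fun x hx r => hcl (x, r) hx⟩

/-- the number of unit classes -/
private theorem Main_units (Wf : ℕ) :
    ((range Wf).filter (fun r => r.Coprime Wf)).card ≤ Wf :=
  (card_filter_le _ _).trans (card_range Wf).le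

open Classical in
private theorem Main_sum {Wf : ℕ} {ι : Type} (X Y : Finset ι) (M c : ι → ℕ) (hYX : Y ⊆ X)
    (hX : ∀ x ∈ X, 1 ≤ M x) {Th E : ℝ} (j : ℕ)
    (h : ∑ x ∈ X.filter (fun x => j ∣ M x / Nat.gcd (c x) (M x)), 1 / (M x : ℝ) ≤ Th * E) :
    ∑ y ∈ (Y ×ˢ (range Wf).filter (fun r => r.Coprime Wf)).filter
      (fun y => j ∣ M y.1 / Nat.gcd (c y.1) (M y.1)),
        1 / (((Nat.gcd (c y.1) (M y.1) : ℕ) : ℝ) * ((M y.1 / Nat.gcd (c y.1) (M y.1) : ℕ) : ℝ)) ≤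
      ((Wf : ℝ) * Th) * E := by
  have e1 : (Y ×ˢ (range Wf).filter (fun r => r.Coprime Wf)).filter
      (fun y => j ∣ M y.1 / Nat.gcd (c y.1) (M y.1)) =
      (Y.filter (fun x => j ∣ M x / Nat.gcd (c x) (M x))) ×ˢ
        (range Wf).filter (fun r => r.Coprime Wf) := by
    ext y
    simp only [mem_filter, mem_product]
    tauto
  rw [e1, sum_product]
  have e2 : ∀ x ∈ Y.filter (fun x => j ∣ M x / Nat.gcd (c x) (M x)),
      ∑ r ∈ (range Wf).filter (fun r => r.Coprime Wf),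
        1 / (((Nat.gcd (c (x, r).1) (M (x, r).1) : ℕ) : ℝ) *
          ((M (x, r).1 / Nat.gcd (c (x, r).1) (M (x, r).1) : ℕ) : ℝ)) ≤ Wf * (1 / (M x : ℝ)) := by
    intro x hx
    have hMx := hX x (hYX (mem_filter.1 hx).1)
    have h3 : ((Nat.gcd (c x) (M x) : ℕ) : ℝ) * ((M x / Nat.gcd (c x) (M x) : ℕ) : ℝ) = M x := by
      rw [← Nat.cast_mul, Nat.mul_div_cancel' (Nat.gcd_dvd_right _ _)]
    simp only [h3]
    rw [sum_const, nsmul_eq_mul]
    exact mul_le_mul_of_nonneg_right (by exact_mod_cast Main_units Wf) (by positivity)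
  refine (sum_le_sum e2).trans ?_
  rw [← mul_sum, mul_assoc]
  refine mul_le_mul_of_nonneg_left (le_trans ?_ h) (Nat.cast_nonneg _)
  exact sum_le_sum_of_subset_of_nonneg (filter_subset_filter _ hYX)
    fun x _ _ => by positivity

open Classical in
/-- the sum of `lam` over the admissible numbers, on average over a family -/
private theorem Main_sideL (Wf : ℕ) (hW : 1 ≤ Wf) (A : ℕ) : ∃ C0 : ℝ, 5000 ≤ C0 ∧ ∀ C1 : ℝ,
    C0 ≤ C1 → ∀ e : ℝ, 0 < e → ∃ N0 : ℕ, ∀ N : ℕ, N0 ≤ N → ∀ wa wb : ℕ, wa ≤ zC C1 N →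
    wb ≤ zC C1 N → (∀ n : ℕ, Rough wa n → n.Coprime Wf) →
    ∀ (ι : Type) (X : Finset ι) (M c : ι → ℕ) (Th : ℝ), 0 ≤ Th →
    (∀ x ∈ X, 1 ≤ M x ∧ (M x : ℝ) ≤ (N : ℝ) ^ ((1 : ℝ) / 2000) ∧ (M x).Coprime (Wf * N)) →
    (∀ j : ℕ, 1 ≤ j → ∑ x ∈ X.filter (fun x => j ∣ M x / Nat.gcd (c x) (M x)), 1 / (M x : ℝ) ≤
      Th * ((j : ℝ) ^ (-(1 / 2) : ℝ) + (N : ℝ) ^ (-e))) →
    ∑ x ∈ X, |∑ n ∈ MaT N wa wb (c x) (M x), lam n| ≤ (Wf * Th) * N / (Real.log N) ^ A := by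
  obtain ⟨C0, hC0, h⟩ := sid1 Wf hW A
  refine ⟨C0, hC0, fun C1 hC1 e he => ?_⟩
  obtain ⟨N0, hN0⟩ := h C1 hC1 e he
  refine ⟨max N0 1, fun N hN' wa wb hwa hwb hRo ι X M c Th hTh hX hsum => ?_⟩
  have hN : N0 ≤ N := (le_max_left _ _).trans hN'
  have hN1 : 1 ≤ N := (le_max_right _ _).trans hN'
  obtain ⟨cl, hcl⟩ := Main_cl (Wf := Wf) X M c fun x hx =>
    ⟨(hX x hx).1, (hX x hx).2.2.coprime_mul_right_right⟩
  set Y : Finset ι := X.filter fun x => (MaT N wa wb (c x) (M x)).Nonempty with hY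
  set U : Finset ℕ := (range Wf).filter (fun r => r.Coprime Wf) with hU
  have hYX : Y ⊆ X := filter_subset _ _
  have h1 := hN0 N hN wa wb hwa hwb 1 le_rfl ?_ (Nat.coprime_one_left N) (ι × ℕ) (Y ×ˢ U)
    (fun y => Nat.gcd (c y.1) (M y.1)) (fun y => M y.1 / Nat.gcd (c y.1) (M y.1)) cl (Wf * Th)
    (by positivity) ?_ ?_
  · rw [Nat.cast_one, div_one] at h1
    refine le_trans ?_ h1
    have h2 : ∑ x ∈ X, |∑ n ∈ MaT N wa wb (c x) (M x), lam n| =
        ∑ x ∈ Y, |∑ n ∈ MaT N wa wb (c x) (M x), lam n| := by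
      rw [hY, sum_filter]
      refine sum_congr rfl fun x _ => ?_
      split_ifs with hne
      · rfl
      · rw [not_nonempty_iff_eq_empty] at hne
        rw [hne, sum_empty, abs_zero]
    rw [h2, sum_product]
    refine sum_le_sum fun x hx => ?_
    obtain ⟨n0, hn0⟩ := (mem_filter.1 hx).2
    have hxX := hYX hx
    obtain ⟨hM1, -, hMc⟩ := hX x hxX
    have hgpos : 0 < Nat.gcd (c x) (M x) := Nat.gcd_pos_of_pos_right _ hM1
    have hco : Wf.Coprime (M x / Nat.gcd (c x) (M x)) :=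
      (Nat.Coprime.coprime_dvd_left (Nat.div_dvd_of_dvd (Nat.gcd_dvd_right _ _))
        hMc.coprime_mul_right_right).symm
    obtain ⟨-, h3⟩ := Main_bij hM1 hMc.coprime_mul_left_right lam hn0
    have h4 : ∑ n ∈ MaT N wa wb (c x) (M x), lam n = lam (Nat.gcd (c x) (M x)) *
        ∑ e ∈ (Icc 1 ((N - 1) / Nat.gcd (c x) (M x))).filter
        (fun e => e ≡ c x / Nat.gcd (c x) (M x) [MOD M x / Nat.gcd (c x) (M x)] ∧ e.Coprime N ∧
          Rough wa e ∧ Rough wb (N - Nat.gcd (c x) (M x) * e)), lam e := by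
      rw [h3, mul_sum]
      refine sum_congr rfl fun e he => ?_
      have he1 := (mem_Icc.1 (mem_filter.1 he).1).1
      exact Pool.Agent.Lib.MP_45349e_nt.LS.lam_mul _ _ hgpos.ne' (by omega)
    rw [h4, abs_mul, Pool.Agent.Lib.MP_45349e_nt.LS.abs_lam, one_mul,
      Main_split hW hco hRo (fun r => cl (x, r)) (fun r => ⟨(hcl x hxX r).1, (hcl x hxX r).2.1⟩)]
    refine (abs_sum_le_sum_abs _ _).trans (le_of_eq ?_)
    refine sum_congr rfl fun r _ => ?_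
    congr 1
    unfold FN
    rw [← sum_filter, filter_filter]
    simp only [one_mul]
    refine sum_congr ?_ fun _ _ => rfl
    ext e
    simp only [mem_filter]
    tauto
  · rw [Nat.cast_one]
    exact Real.one_le_rpow (by exact_mod_cast hN1) (by norm_num)
  · rintro ⟨x, r⟩ hy
    obtain ⟨hx, hr⟩ := mem_product.1 hy
    have hxX := hYX hx
    obtain ⟨hM1, hM2, hMc⟩ := hX x hxX
    have hgpos : 0 < Nat.gcd (c x) (M x) := Nat.gcd_pos_of_pos_right _ hM1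
    refine ⟨hgpos, Nat.div_pos (Nat.le_of_dvd hM1 (Nat.gcd_dvd_right _ _)) hgpos, ?_, ?_, ?_⟩
    · show (((Nat.gcd (c x) (M x)) * (M x / Nat.gcd (c x) (M x)) : ℕ) : ℝ) ≤ _
      rw [Nat.mul_div_cancel' (Nat.gcd_dvd_right _ _)]
      exact hM2
    · exact Nat.Coprime.coprime_dvd_left (Nat.gcd_dvd_right _ _) hMc.coprime_mul_left_right
    · exact (hcl x hxX r).2.2 (mem_filter.1 hr).2
  · intro j hj
    exact Main_sum X Y M c hYX (fun x hx => (hX x hx).1) j (hsum j hj)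

open Classical in
/-- the sum of `lam - c` over the admissible cofactors, on average over a family -/
private theorem Main_sideC (Wf : ℕ) (hW : 1 ≤ Wf) (A CL : ℕ) : ∃ C0 : ℝ, 5000 ≤ C0 ∧ ∀ C1 : ℝ,
    C0 ≤ C1 → ∀ e : ℝ, 0 < e → ∃ N0 : ℕ, ∀ (N : ℕ) [NeZero (Wf * N)], N0 ≤ N →
    ∀ χ : DirichletCharacter ℂ (Wf * N), χ ^ 2 = 1 →
    (∃ m : ℕ, m ≡ 1 [MOD Wf] ∧ m.Coprime (Wf * N) ∧ χ (m : ZMod (Wf * N)) ≠ 1) →
    ∀ L : ℝ, 0 ≤ L → LV (Wf * N) (fun n => (χ (n : ZMod (Wf * N))).re) L →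
    ∀ σ : ℝ, (N : ℝ) ^ (-(1 / 40) : ℝ) ≤ σ → L ≤ (Real.log N) ^ CL * σ → ∀ w0 : ℕ, 2 ≤ w0 →
    ∑ q ∈ (QP (fun n => (χ (n : ZMod (Wf * N))).re) ⌊(N : ℝ) ^ ((4 : ℝ) / 5)⌋₊).filter (fun q => w0 < q), 1 / (q : ℝ) ≤ σ →
    ∀ wa wb : ℕ, w0 ≤ wa → wa ≤ zC C1 N →
    wb ≤ zC C1 N → (∀ n : ℕ, Rough wa n → n.Coprime Wf) →
    ∀ (ι : Type) (X : Finset ι) (M c : ι → ℕ) (Th : ℝ), 0 ≤ Th →
    (∀ x ∈ X, 1 ≤ M x ∧ (M x : ℝ) ≤ (N : ℝ) ^ ((1 : ℝ) / 2000) ∧ (M x).Coprime (Wf * N)) →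
    (∀ j : ℕ, 1 ≤ j → ∑ x ∈ X.filter (fun x => j ∣ M x / Nat.gcd (c x) (M x)), 1 / (M x : ℝ) ≤
      Th * ((j : ℝ) ^ (-(1 / 2) : ℝ) + (N : ℝ) ^ (-e))) →
    ∑ x ∈ X.filter (fun x => (MaT N wa wb (c x) (M x)).Nonempty),
      |∑ e ∈ (Icc 1 ((N - 1) / Nat.gcd (c x) (M x))).filter
        (fun e => e ≡ c x / Nat.gcd (c x) (M x) [MOD M x / Nat.gcd (c x) (M x)] ∧ e.Coprime N ∧
          Rough wa e ∧ Rough wb (N - Nat.gcd (c x) (M x) * e)),
        (lam e - (χ (e : ZMod (Wf * N))).re)| ≤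
      σ * (Wf * Th) * N / (Real.log N) ^ A := by
  obtain ⟨C0, hC0, h⟩ := sid2 Wf hW A CL
  refine ⟨C0, hC0, fun C1 hC1 e he => ?_⟩
  obtain ⟨N0, hN0⟩ := h C1 hC1 e he
  refine ⟨N0, fun N _ hN χ hχ hne L hL0 hL σ hσ1 hσ2 w0 hw2 hσ3 wa wb h2 hwa hwb hRo ι X M c Th hTh hX hsum => ?_⟩
  obtain ⟨cl, hcl⟩ := Main_cl (Wf := Wf) X M c fun x hx =>
    ⟨(hX x hx).1, (hX x hx).2.2.coprime_mul_right_right⟩
  set Y : Finset ι := X.filter fun x => (MaT N wa wb (c x) (M x)).Nonempty with hY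
  set U : Finset ℕ := (range Wf).filter (fun r => r.Coprime Wf) with hU
  have hYX : Y ⊆ X := filter_subset _ _
  have h1 := hN0 N hN χ hχ hne L hL0 hL σ hσ1 hσ2 w0 hw2 hσ3 wa wb h2 hwa hwb hRo (ι × ℕ) (Y ×ˢ U)
    (fun y => Nat.gcd (c y.1) (M y.1)) (fun y => M y.1 / Nat.gcd (c y.1) (M y.1)) cl (Wf * Th)
    (by positivity) ?_ ?_
  · refine le_trans ?_ h1
    rw [sum_product]
    refine sum_le_sum fun x hx => ?_
    have hxX := hYX hx
    obtain ⟨hM1, -, hMc⟩ := hX x hxX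
    have hco : Wf.Coprime (M x / Nat.gcd (c x) (M x)) :=
      (Nat.Coprime.coprime_dvd_left (Nat.div_dvd_of_dvd (Nat.gcd_dvd_right _ _))
        hMc.coprime_mul_right_right).symm
    rw [Main_split hW hco hRo (fun r => cl (x, r)) (fun r => ⟨(hcl x hxX r).1, (hcl x hxX r).2.1⟩)]
    exact abs_sum_le_sum_abs _ _
  · rintro ⟨x, r⟩ hy
    obtain ⟨hx, hr⟩ := mem_product.1 hy
    have hxX := hYX hx
    obtain ⟨hM1, hM2, hMc⟩ := hX x hxX
    have hgpos : 0 < Nat.gcd (c x) (M x) := Nat.gcd_pos_of_pos_right _ hM1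
    refine ⟨hgpos, Nat.div_pos (Nat.le_of_dvd hM1 (Nat.gcd_dvd_right _ _)) hgpos, ?_, ?_, ?_⟩
    · show (((Nat.gcd (c x) (M x)) * (M x / Nat.gcd (c x) (M x)) : ℕ) : ℝ) ≤ _
      rw [Nat.mul_div_cancel' (Nat.gcd_dvd_right _ _)]
      exact hM2
    · show ((Nat.gcd (c x) (M x)) * (M x / Nat.gcd (c x) (M x))).Coprime (Wf * N)
      rw [Nat.mul_div_cancel' (Nat.gcd_dvd_right _ _)]
      exact hMc
    · exact (hcl x hxX r).2.2 (mem_filter.1 hr).2
  · intro j hj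
    exact Main_sum X Y M c hYX (fun x hx => (hX x hx).1) j (hsum j hj)

/-! ### The reflection `n ↦ N - n` -/

private theorem Main_cop {N n : ℕ} (hn : n < N) (h : n.Coprime N) : (N - n).Coprime N := by
  obtain ⟨k, rfl⟩ := Nat.exists_eq_add_of_le hn.le
  rw [Nat.add_sub_cancel_left, Nat.coprime_add_self_right]
  rw [Nat.coprime_self_add_right] at h
  exact h.symm

open Classical in
private theorem Main_refl {N wa wb c M : ℕ} (hM : 1 ≤ M) (F : ℕ → ℝ) :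
    ∑ n ∈ MaT N wa wb c M, F (N - n) = ∑ n ∈ MaT N wb wa (N + (M - 1) * c) M, F n := by
  have hmem : ∀ wa wb c n, n ∈ MaT N wa wb c M ↔ (0 < n ∧ n < N) ∧
      (n.Coprime N ∧ Rough wa n ∧ Rough wb (N - n)) ∧ n ≡ c [MOD M] := by
    intro wa wb c n
    unfold MaT
    rw [mem_filter, mem_Ioo]
  have hcop : ∀ n, n < N → n.Coprime N → (N - n).Coprime N := fun n hn h => Main_cop hn h
  have hmod : ∀ n, n < N → (n ≡ c [MOD M] ↔ N - n ≡ N + (M - 1) * c [MOD M]) := by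
    intro n hn
    rw [Nat.modEq_iff_dvd, Nat.modEq_iff_dvd]
    push_cast [Nat.cast_sub hn.le, Nat.cast_sub hM]
    have e1 : ((N : ℤ) + (M - 1) * c - (N - n)) = M * c - (c - n) := by ring
    rw [e1]
    constructor
    · intro h
      exact dvd_sub (dvd_mul_right _ _) h
    · intro h
      have := dvd_sub (dvd_mul_right (M : ℤ) (c : ℤ)) h
      rwa [sub_sub_cancel] at this
  refine sum_nbij' (fun n => N - n) (fun n => N - n) ?_ ?_ ?_ ?_ ?_
  · intro n hn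
    obtain ⟨⟨h1, h2⟩, ⟨h3, h4, h5⟩, h6⟩ := (hmem _ _ _ n).1 hn
    rw [hmem]
    refine ⟨⟨by omega, by omega⟩, ⟨hcop n h2 h3, h5, ?_⟩, (hmod n h2).1 h6⟩
    rw [show N - (N - n) = n by omega]
    exact h4
  · intro n hn
    obtain ⟨⟨h1, h2⟩, ⟨h3, h4, h5⟩, h6⟩ := (hmem _ _ _ n).1 hn
    rw [hmem]
    refine ⟨⟨by omega, by omega⟩, ⟨hcop n h2 h3, h5, ?_⟩, ?_⟩
    · rw [show N - (N - n) = n by omega]
      exact h4
    · rw [hmod (N - n) (by omega), show N - (N - n) = n by omega]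
      exact h6
  · intro n hn
    obtain ⟨⟨h1, h2⟩, -⟩ := (hmem _ _ _ n).1 hn
    show N - (N - n) = n
    omega
  · intro n hn
    obtain ⟨⟨h1, h2⟩, -⟩ := (hmem _ _ _ n).1 hn
    show N - (N - n) = n
    omega
  · intro n _
    rfl

/-- `z` is large -/
private theorem Main_z (C1 A1 : ℝ) (hC1 : 0 < C1) (hA1 : 0 < A1) : ∃ N0 : ℕ, ∀ N : ℕ, N0 ≤ N →
    ∀ w : ℕ, (w : ℝ) ≤ (Real.log N) ^ A1 → w ≤ zC C1 N := by
  have h1 : ∀ᶠ x : ℝ in Filter.atTop, Real.log x ^ 2 ≤ 1 / (A1 * C1) * x := by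
    have h := (Real.isLittleO_pow_log_id_atTop (n := 2)).bound
      (show (0 : ℝ) < 1 / (A1 * C1) by positivity)
    filter_upwards [h, Filter.eventually_ge_atTop (0 : ℝ)] with x hx hx0
    simp only [id, Real.norm_eq_abs, abs_of_nonneg hx0] at hx
    exact (le_abs_self _).trans hx
  have h2 : Filter.Tendsto (fun N : ℕ => Real.log (N : ℝ)) Filter.atTop Filter.atTop :=
    Real.tendsto_log_atTop.comp tendsto_natCast_atTop_atTop
  obtain ⟨N0, hN0⟩ := Filter.eventually_atTop.1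
    ((h2.eventually h1).and (h2.eventually (Filter.eventually_ge_atTop (3 : ℝ))))
  refine ⟨max N0 1, fun N hN w hw => ?_⟩
  obtain ⟨h3, h4⟩ := hN0 N ((le_max_left _ _).trans hN)
  have hN1 : (0 : ℝ) < N := by exact_mod_cast (le_max_right _ _).trans hN
  have hK : 0 < Real.log (N : ℝ) := by linarith
  have hLK : 0 < Real.log (Real.log N) := Real.log_pos (by linarith)
  apply Nat.le_floor
  refine hw.trans ?_
  rw [Real.rpow_def_of_pos hK, Real.rpow_def_of_pos hN1]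
  apply Real.exp_le_exp.2
  rw [mul_one_div, le_div_iff₀ (by positivity)]
  rw [div_mul_eq_mul_div, one_mul, le_div_iff₀ (by positivity)] at h3
  calc Real.log (Real.log N) * A1 * (C1 * Real.log (Real.log N))
      = Real.log (Real.log N) ^ 2 * (A1 * C1) := by ring
    _ ≤ Real.log N := h3

private theorem Main_log (B : ℝ) : ∃ N0 : ℕ, ∀ N : ℕ, N0 ≤ N → B ≤ Real.log (N : ℝ) := by
  have h2 : Filter.Tendsto (fun N : ℕ => Real.log (N : ℝ)) Filter.atTop Filter.atTop :=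
    Real.tendsto_log_atTop.comp tendsto_natCast_atTop_atTop
  exact Filter.eventually_atTop.1 (h2.eventually (Filter.eventually_ge_atTop B))

private theorem Main_rough {w w' n : ℕ} (h : w' ≤ w) (hn : Rough w n) : Rough w' n :=
  fun p hp hpn => lt_of_le_of_lt h (hn p hp hpn)

open Classical in
private theorem Main_filter (N w1 z c M : ℕ) :
    (Sst N w1 z).filter (fun n => n ≡ c [MOD M]) = MaT N w1 z c M := by
  unfold Sst MaT
  rw [filter_filter]

open Classical in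
theorem ee_lam (Wf w0 : ℕ) (hW : 1 ≤ Wf) (A Cw : ℕ) (A1 : ℝ) (hA1 : 0 < A1) : ∃ C0 : ℝ, 5000 ≤ C0 ∧ ∀ C1 : ℝ, C0 ≤ C1 → ∀ e : ℝ, 0 < e →
    ∃ N0 : ℕ, ∀ N : ℕ, N0 ≤ N → (∀ n : ℕ, Rough w0 n → n.Coprime Wf) → ∀ w1 : ℕ, w0 ≤ w1 → (w1 : ℝ) ≤ (Real.log N) ^ A1 →
    ∀ s t : ℝ, |s| ≤ 1 → |t| ≤ 1 → ∀ (ι : Type) (X : Finset ι) (M c : ι → ℕ),
    (∀ x ∈ X, 1 ≤ M x ∧ (M x : ℝ) ≤ (N : ℝ) ^ ((1 : ℝ) / 2000) ∧ (M x).Coprime (Wf * N)) →
    (∀ j : ℕ, 1 ≤ j → ∑ x ∈ X.filter (fun x => j ∣ M x), 1 / (M x : ℝ) ≤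
      (Real.log N) ^ Cw * ((j : ℝ) ^ (-(1 / 2) : ℝ) + (N : ℝ) ^ (-e))) →
    ∑ x ∈ X, |∑ n ∈ (Sst N w1 (zC C1 N)).filter (fun n => n ≡ c x [MOD M x]), (s * lam n + t * lam (N - n))| ≤
      N / (Real.log N) ^ A := by
  obtain ⟨C0, hC0, h⟩ := Main_sideL Wf hW (A + Cw + 1)
  refine ⟨C0, hC0, fun C1 hC1 e he => ?_⟩
  obtain ⟨N0, hN0⟩ := h C1 hC1 e he
  obtain ⟨N1, hN1⟩ := Main_z C1 A1 (by linarith) hA1
  obtain ⟨N2, hN2⟩ := Main_log (2 * Wf + 1)
  refine ⟨max N0 (max N1 N2), fun N hN hRo w1 hw0 hw1 s t hs ht ι X M c hX hsum => ?_⟩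
  have hNa : N0 ≤ N := (le_max_left _ _).trans hN
  have hNb : N1 ≤ N := (le_max_left _ _).trans ((le_max_right _ _).trans hN)
  have hNc : N2 ≤ N := (le_max_right _ _).trans ((le_max_right _ _).trans hN)
  have hK := hN2 N hNc
  have hKpos : 0 < Real.log (N : ℝ) := by
    have : (0 : ℝ) ≤ Wf := Nat.cast_nonneg _
    linarith
  have hwz : w1 ≤ zC C1 N := hN1 N hNb w1 hw1
  have hsum' : ∀ c' : ι → ℕ, ∀ j : ℕ, 1 ≤ j →
      ∑ x ∈ X.filter (fun x => j ∣ M x / Nat.gcd (c' x) (M x)), 1 / (M x : ℝ) ≤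
      (Real.log N) ^ Cw * ((j : ℝ) ^ (-(1 / 2) : ℝ) + (N : ℝ) ^ (-e)) := by
    intro c' j hj
    refine le_trans ?_ (hsum j hj)
    refine sum_le_sum_of_subset_of_nonneg ?_ fun x _ _ => by positivity
    intro x hx
    rw [mem_filter] at hx ⊢
    exact ⟨hx.1, hx.2.trans (Nat.div_dvd_of_dvd (Nat.gcd_dvd_right _ _))⟩
  have h0 := hN0 N hNa w1 (zC C1 N) hwz le_rfl (fun n hn => hRo n (Main_rough hw0 hn)) ι X M c
    ((Real.log N) ^ Cw) (by positivity) hX (hsum' c)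
  have h1 := hN0 N hNa (zC C1 N) w1 le_rfl hwz
    (fun n hn => hRo n (Main_rough (hw0.trans hwz) hn)) ι X M (fun x => N + (M x - 1) * c x)
    ((Real.log N) ^ Cw) (by positivity) hX (hsum' _)
  have hx : ∀ x ∈ X, |∑ n ∈ (Sst N w1 (zC C1 N)).filter (fun n => n ≡ c x [MOD M x]),
      (s * lam n + t * lam (N - n))| ≤ |∑ n ∈ MaT N w1 (zC C1 N) (c x) (M x), lam n| +
        |∑ n ∈ MaT N (zC C1 N) w1 (N + (M x - 1) * c x) (M x), lam n| := by
    intro x hx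
    rw [Main_filter, sum_add_distrib, ← mul_sum, ← mul_sum, Main_refl (hX x hx).1 lam]
    refine (abs_add_le _ _).trans (add_le_add ?_ ?_)
    · rw [abs_mul]
      exact mul_le_of_le_one_left (abs_nonneg _) hs
    · rw [abs_mul]
      exact mul_le_of_le_one_left (abs_nonneg _) ht
  refine (sum_le_sum hx).trans ?_
  rw [sum_add_distrib]
  refine (add_le_add h0 h1).trans ?_
  rw [← add_div, div_le_div_iff₀ (by positivity) (by positivity)]
  have h2 : (Real.log (N : ℝ)) ^ (A + Cw + 1) =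
      (Real.log N) ^ Cw * (Real.log N) ^ A * Real.log N := by
    rw [pow_succ, pow_add]; ring
  rw [h2]
  have h3 : (0 : ℝ) ≤ N * ((Real.log N) ^ Cw * (Real.log N) ^ A) := by positivity
  have h4 : (2 * Wf : ℝ) ≤ Real.log N := by linarith
  nlinarith [mul_le_mul_of_nonneg_left h4 h3]

/-! ### The terms with `lam g ≠ c g` -/

private theorem Main_one {M : ℕ} {c : ℕ → ℝ} (hc : Pool.Agent.Lib.RG.RC M c) : c 1 = 1 := by
  have h1 := hc.mul 1 1
  rw [Nat.mul_one] at h1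
  rcases hc.val 1 (Nat.coprime_one_left M) with h | h
  · exact h
  · rw [h] at h1
    norm_num at h1

private theorem Main_eq {M : ℕ} {c : ℕ → ℝ} (hc : Pool.Agent.Lib.RG.RC M c) : ∀ n : ℕ, 0 < n →
    (∀ q : ℕ, q.Prime → q ∣ n → c q = -1) → lam n = c n := by
  intro n
  induction n using Nat.strong_induction_on with
  | _ n ih =>
    intro h0 h
    by_cases h1 : n = 1
    · subst h1
      rw [Pool.Agent.Lib.MP_45349e_nt.LS.lam_one, Main_one hc]
    · have hp := Nat.minFac_prime h1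
      obtain ⟨m, hm⟩ := Nat.minFac_dvd n
      have hm0 : 0 < m := by
        rcases Nat.eq_zero_or_pos m with h2 | h2
        · rw [h2, mul_zero] at hm
          omega
        · exact h2
      have hlt : m < n := by
        rw [hm]
        have := hp.two_le
        nlinarith
      have e1 := ih m hlt hm0 (fun q hq hqm => h q hq (hqm.trans (Dvd.intro_left _ hm.symm)))
      have e2 := h _ hp (Nat.minFac_dvd n)
      have e3 : lam n = lam (n.minFac) * lam m := by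
        conv_lhs => rw [hm]
        exact Pool.Agent.Lib.MP_45349e_nt.LS.lam_mul _ _ hp.ne_zero hm0.ne'
      have e4 : c n = c (n.minFac) * c m := by
        conv_lhs => rw [hm]
        exact hc.mul _ _
      rw [e3, e4, e2, e1, Pool.Agent.Lib.MP_45349e_nt.LS.lam_prime _ hp]

open Classical in
private theorem Main_G {Q N wa wb c M : ℕ} {f : ℕ → ℝ} (hf : Pool.Agent.Lib.RG.RC Q f)
    (hM : 1 ≤ M) (hMN : M.Coprime N) (hMQ : M.Coprime Q) :
    |∑ n ∈ MaT N wa wb c M, (lam n - f n)| ≤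
      (if (MaT N wa wb c M).Nonempty then
        |∑ e ∈ (Icc 1 ((N - 1) / Nat.gcd c M)).filter
          (fun e => e ≡ c / Nat.gcd c M [MOD M / Nat.gcd c M] ∧ e.Coprime N ∧
            Rough wa e ∧ Rough wb (N - Nat.gcd c M * e)), (lam e - f e)| else 0) +
      (if ∃ q : ℕ, q.Prime ∧ f q = 1 ∧ q ∣ Nat.gcd c M then
        2 * |∑ n ∈ MaT N wa wb c M, lam n| else 0) := by
  have hr : 0 ≤ (if ∃ q : ℕ, q.Prime ∧ f q = 1 ∧ q ∣ Nat.gcd c M then
        2 * |∑ n ∈ MaT N wa wb c M, lam n| else 0) := by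
    split_ifs <;> positivity
  by_cases hne : (MaT N wa wb c M).Nonempty
  · rw [if_pos hne]
    obtain ⟨n0, hn0⟩ := hne
    have hgpos : 0 < Nat.gcd c M := Nat.gcd_pos_of_pos_right _ hM
    have hgQ : (Nat.gcd c M).Coprime Q := Nat.Coprime.coprime_dvd_left (Nat.gcd_dvd_right _ _) hMQ
    obtain ⟨-, h1⟩ := Main_bij hM hMN (fun n => lam n - f n) hn0
    obtain ⟨-, h2⟩ := Main_bij hM hMN lam hn0
    set S := (Icc 1 ((N - 1) / Nat.gcd c M)).filter
          (fun e => e ≡ c / Nat.gcd c M [MOD M / Nat.gcd c M] ∧ e.Coprime N ∧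
            Rough wa e ∧ Rough wb (N - Nat.gcd c M * e)) with hS
    set g := Nat.gcd c M with hg
    have hmul : ∀ e ∈ S, lam (g * e) = lam g * lam e := by
      intro e he
      have he1 := (mem_Icc.1 (mem_filter.1 he).1).1
      exact Pool.Agent.Lib.MP_45349e_nt.LS.lam_mul _ _ hgpos.ne' (by omega)
    have h3 : ∑ n ∈ MaT N wa wb c M, lam n = lam g * ∑ e ∈ S, lam e := by
      rw [h2, mul_sum]
      exact sum_congr rfl hmul
    have h4 : ∑ n ∈ MaT N wa wb c M, (lam n - f n) =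
        f g * ∑ e ∈ S, (lam e - f e) + (lam g - f g) * ∑ e ∈ S, lam e := by
      rw [h1, mul_sum, mul_sum, ← sum_add_distrib]
      refine sum_congr rfl fun e he => ?_
      rw [hmul e he, hf.mul]
      ring
    have h5 : |∑ n ∈ MaT N wa wb c M, lam n| = |∑ e ∈ S, lam e| := by
      rw [h3, abs_mul, Pool.Agent.Lib.MP_45349e_nt.LS.abs_lam, one_mul]
    have h6 : |f g| = 1 := by
      rcases hf.val g hgQ with h | h <;> rw [h] <;> norm_num
    rw [h4, h5]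
    refine (abs_add_le _ _).trans (add_le_add ?_ ?_)
    · rw [abs_mul, h6, one_mul]
    · split_ifs with hq
      · rw [abs_mul]
        refine mul_le_mul_of_nonneg_right ?_ (abs_nonneg _)
        calc |lam g - f g| ≤ |lam g| + |f g| := abs_sub _ _
          _ = 2 := by rw [Pool.Agent.Lib.MP_45349e_nt.LS.abs_lam, h6]; norm_num
      · have h7 : lam g = f g := by
          apply Main_eq hf g hgpos
          intro q hq1 hq2
          rcases hf.val q (Nat.Coprime.coprime_dvd_left hq2 hgQ) with h | h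
          · exact absurd ⟨q, hq1, h, hq2⟩ hq
          · exact h
        rw [h7, sub_self, zero_mul, abs_zero]
  · rw [if_neg hne, zero_add]
    rw [not_nonempty_iff_eq_empty] at hne
    rw [hne, sum_empty, abs_zero]
    rw [hne] at hr
    exact hr

open Classical in
theorem ee_c (Wf w0 : ℕ) (hW : 1 ≤ Wf) (h0 : 2 ≤ w0) (A Cw CL : ℕ) (A1 : ℝ) (hA1 : 0 < A1) : ∃ C0 : ℝ, 5000 ≤ C0 ∧ ∀ C1 : ℝ, C0 ≤ C1 → ∀ e : ℝ, 0 < e →
    ∃ N0 : ℕ, ∀ (N : ℕ) [NeZero (Wf * N)], N0 ≤ N → (∀ n : ℕ, Rough w0 n → n.Coprime Wf) → ∀ w1 : ℕ, w0 ≤ w1 → (w1 : ℝ) ≤ (Real.log N) ^ A1 →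
    ∀ χ : DirichletCharacter ℂ (Wf * N), χ ^ 2 = 1 →
    (∃ m : ℕ, m ≡ 1 [MOD Wf] ∧ m.Coprime (Wf * N) ∧ χ (m : ZMod (Wf * N)) ≠ 1) →
    ∀ L : ℝ, 0 ≤ L → LV (Wf * N) (fun n => (χ (n : ZMod (Wf * N))).re) L →
    ∀ σ : ℝ, (N : ℝ) ^ (-(1 / 40) : ℝ) ≤ σ → L ≤ (Real.log N) ^ CL * σ →
    ∑ q ∈ (QP (fun n => (χ (n : ZMod (Wf * N))).re) ⌊(N : ℝ) ^ ((4 : ℝ) / 5)⌋₊).filter (fun q => w1 < q), 1 / (q : ℝ) ≤ σ →
    ∀ s t : ℝ, (s = 1 ∨ s = -1) → (t = 1 ∨ t = -1) →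
    (∀ n ∈ Sst N w1 (zC C1 N), s * (χ (n : ZMod (Wf * N))).re + t * (χ ((N - n : ℕ) : ZMod (Wf * N))).re = 0) →
    ∀ (ι : Type) (X : Finset ι) (M c : ι → ℕ),
    (∀ x ∈ X, 1 ≤ M x ∧ (M x : ℝ) ≤ (N : ℝ) ^ ((1 : ℝ) / 2000) ∧ (M x).Coprime (Wf * N)) →
    (∀ j : ℕ, 1 ≤ j → ∑ x ∈ X.filter (fun x => j ∣ M x), 1 / (M x : ℝ) ≤
      (Real.log N) ^ Cw * ((j : ℝ) ^ (-(1 / 2) : ℝ) + (N : ℝ) ^ (-e))) →
    (∀ j : ℕ, 1 ≤ j → ∑ x ∈ X.filter (fun x => ∃ q : ℕ, q.Prime ∧ (χ (q : ZMod (Wf * N))).re = 1 ∧ q * j ∣ M x), 1 / (M x : ℝ) ≤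
      σ * (Real.log N) ^ Cw * ((j : ℝ) ^ (-(1 / 2) : ℝ) + (N : ℝ) ^ (-e))) →
    ∑ x ∈ X, |∑ n ∈ (Sst N w1 (zC C1 N)).filter (fun n => n ≡ c x [MOD M x]), (s * lam n + t * lam (N - n))| ≤
      σ * N / (Real.log N) ^ A := by
  obtain ⟨C0, hC0, h⟩ := Main_sideL Wf hW (A + Cw + 1)
  obtain ⟨C0', hC0', h'⟩ := Main_sideC Wf hW (A + Cw + 1) CL
  refine ⟨max C0 C0', hC0.trans (le_max_left _ _), fun C1 hC1 e he => ?_⟩
  obtain ⟨N0, hN0⟩ := h C1 ((le_max_left _ _).trans hC1) e he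
  obtain ⟨N0', hN0'⟩ := h' C1 ((le_max_right _ _).trans hC1) e he
  have hC1p : 0 < C1 := by
    have := (le_max_left C0 C0').trans hC1
    linarith
  obtain ⟨N1, hN1⟩ := Main_z C1 A1 hC1p hA1
  obtain ⟨N2, hN2⟩ := Main_log (6 * Wf + 1)
  refine ⟨max (max N0 N0') (max N1 (max N2 2)), fun N _ hN hRo w1 hw0 hw1 χ hχ hne L hL0 hL σ hσ1 hσ2 hσ3 s t hs ht
    hH1 ι X M c hX hsum hsum2 => ?_⟩
  have hNa : N0 ≤ N := (le_max_left _ _).trans ((le_max_left _ _).trans hN)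
  have hNa' : N0' ≤ N := (le_max_right _ _).trans ((le_max_left _ _).trans hN)
  have hNb : N1 ≤ N := (le_max_left _ _).trans ((le_max_right _ _).trans hN)
  have hNc : N2 ≤ N :=
    (le_max_left _ _).trans ((le_max_right _ _).trans ((le_max_right _ _).trans hN))
  have hNd : 2 ≤ N :=
    (le_max_right _ _).trans ((le_max_right _ _).trans ((le_max_right _ _).trans hN))
  have hK := hN2 N hNc
  have hKpos : 0 < Real.log (N : ℝ) := by
    have : (0 : ℝ) ≤ Wf := Nat.cast_nonneg _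
    linarith
  have hwz : w1 ≤ zC C1 N := hN1 N hNb w1 hw1
  have hχ1 : χ ≠ 1 := by
    rintro rfl
    obtain ⟨m, _, hm, hm1⟩ := hne
    exact hm1 (MulChar.one_apply ((ZMod.isUnit_iff_coprime m (Wf * N)).2 hm))
  have hRC := Pool.Agent.Lib.RG.RC_char (Wf * N)
    (hNd.trans (Nat.le_mul_of_pos_left N hW)) χ hχ hχ1
  set f : ℕ → ℝ := fun n => (χ (n : ZMod (Wf * N))).re with hf
  have hσ0 : 0 ≤ σ := le_trans (Real.rpow_nonneg (Nat.cast_nonneg _) _) hσ1
  set bad : ℕ → ℕ → Prop := fun c M => ∃ q : ℕ, q.Prime ∧ f q = 1 ∧ q ∣ Nat.gcd c M with hbad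
  -- one side
  have side : ∀ wa wb : ℕ, w1 ≤ wa → wa ≤ zC C1 N → wb ≤ zC C1 N → ∀ c' : ι → ℕ,
      ∑ x ∈ X, |∑ n ∈ MaT N wa wb (c' x) (M x), (lam n - f n)| ≤
        3 * (σ * (Wf * (Real.log N) ^ Cw) * N / (Real.log N) ^ (A + Cw + 1)) := by
    intro wa wb hwa0 hwa hwb c'
    have hR' : ∀ n : ℕ, Rough wa n → n.Coprime Wf := fun n hn => hRo n (Main_rough (hw0.trans hwa0) hn)
    have hs1 := hN0' N hNa' χ hχ hne L hL0 hL σ hσ1 hσ2 w1 (h0.trans hw0) hσ3 wa wb hwa0 hwa hwb hR' ι X M c'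
      ((Real.log N) ^ Cw) (by positivity) hX (by
        intro j hj
        refine le_trans ?_ (hsum j hj)
        refine sum_le_sum_of_subset_of_nonneg ?_ fun x _ _ => by positivity
        intro x hx
        rw [mem_filter] at hx ⊢
        exact ⟨hx.1, hx.2.trans (Nat.div_dvd_of_dvd (Nat.gcd_dvd_right _ _))⟩)
    have hs2 := hN0 N hNa wa wb hwa hwb hR' ι (X.filter fun x => bad (c' x) (M x)) M c'
      (σ * (Real.log N) ^ Cw) (by positivity) (fun x hx => hX x (mem_filter.1 hx).1) (by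
        intro j hj
        refine le_trans ?_ (hsum2 j hj)
        refine sum_le_sum_of_subset_of_nonneg ?_ fun x _ _ => by positivity
        intro x hx
        rw [mem_filter] at hx
        obtain ⟨hx1, hx2⟩ := hx
        rw [mem_filter] at hx1 ⊢
        obtain ⟨hx1, q, hq1, hq2, hq3⟩ := hx1
        refine ⟨hx1, q, hq1, hq2, ?_⟩
        have h8 := Nat.mul_dvd_mul hq3 hx2
        rwa [Nat.mul_div_cancel' (Nat.gcd_dvd_right _ _)] at h8)
    have hG : ∀ x ∈ X, |∑ n ∈ MaT N wa wb (c' x) (M x), (lam n - f n)| ≤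
      (if (MaT N wa wb (c' x) (M x)).Nonempty then
        |∑ e ∈ (Icc 1 ((N - 1) / Nat.gcd (c' x) (M x))).filter
          (fun e => e ≡ c' x / Nat.gcd (c' x) (M x) [MOD M x / Nat.gcd (c' x) (M x)] ∧
            e.Coprime N ∧ Rough wa e ∧ Rough wb (N - Nat.gcd (c' x) (M x) * e)),
          (lam e - f e)| else 0) +
      (if bad (c' x) (M x) then 2 * |∑ n ∈ MaT N wa wb (c' x) (M x), lam n| else 0) :=
      fun x hx => Main_G hRC (hX x hx).1 (hX x hx).2.2.coprime_mul_left_right (hX x hx).2.2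
    refine (sum_le_sum hG).trans ?_
    rw [sum_add_distrib, ← sum_filter, ← sum_filter, ← mul_sum]
    refine (add_le_add hs1 (mul_le_mul_of_nonneg_left hs2 (by norm_num))).trans (le_of_eq ?_)
    ring
  have h0s := side w1 (zC C1 N) le_rfl hwz le_rfl c
  have h1s := side (zC C1 N) w1 hwz le_rfl hwz (fun x => N + (M x - 1) * c x)
  have hx : ∀ x ∈ X, |∑ n ∈ (Sst N w1 (zC C1 N)).filter (fun n => n ≡ c x [MOD M x]),
      (s * lam n + t * lam (N - n))| ≤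
        |∑ n ∈ MaT N w1 (zC C1 N) (c x) (M x), (lam n - f n)| +
        |∑ n ∈ MaT N (zC C1 N) w1 (N + (M x - 1) * c x) (M x), (lam n - f n)| := by
    intro x hx
    have e1 : ∑ n ∈ (Sst N w1 (zC C1 N)).filter (fun n => n ≡ c x [MOD M x]),
        (s * lam n + t * lam (N - n)) =
        s * ∑ n ∈ MaT N w1 (zC C1 N) (c x) (M x), (lam n - f n) +
        t * ∑ n ∈ MaT N w1 (zC C1 N) (c x) (M x), (lam (N - n) - f (N - n)) := by
      rw [← Main_filter, mul_sum, mul_sum, ← sum_add_distrib]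
      refine sum_congr rfl fun n hn => ?_
      have e2 := hH1 n (mem_filter.1 hn).1
      have e3 : s * f n + t * f (N - n) = 0 := e2
      linear_combination e3
    rw [e1, Main_refl (hX x hx).1 (fun n => lam n - f n)]
    refine (abs_add_le _ _).trans (add_le_add ?_ ?_)
    · rw [abs_mul]
      refine mul_le_of_le_one_left (abs_nonneg _) ?_
      rcases hs with rfl | rfl <;> norm_num
    · rw [abs_mul]
      refine mul_le_of_le_one_left (abs_nonneg _) ?_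
      rcases ht with rfl | rfl <;> norm_num
  refine (sum_le_sum hx).trans ?_
  rw [sum_add_distrib]
  refine (add_le_add h0s h1s).trans ?_
  have h2 : (Real.log (N : ℝ)) ^ (A + Cw + 1) =
      (Real.log N) ^ Cw * (Real.log N) ^ A * Real.log N := by
    rw [pow_succ, pow_add]; ring
  have h3 : 3 * (σ * (Wf * (Real.log N) ^ Cw) * N / (Real.log N) ^ (A + Cw + 1)) +
      3 * (σ * (Wf * (Real.log N) ^ Cw) * N / (Real.log N) ^ (A + Cw + 1)) =
      (6 * Wf / Real.log N) * (σ * N / (Real.log N) ^ A) := by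
    rw [h2]
    field_simp
    ring
  rw [h3]
  refine mul_le_of_le_one_left (by positivity) ?_
  rw [div_le_one hKpos]
  linarith

open Classical in
/-- the exceptional set `Pat (-s) (-t)` in progressions, in terms of the pattern `(s, t)` and the sums above: PROOF. `s lam n + t lam (N-n)` is `2` on `Pat s t`, `-2` on `Pat (-s) (-t)`, `0` otherwise (`lam = ±1`); for every `x`:
`#(Pat (-s) (-t), x) = #(Pat s t, x) - (1/2) ∑`, and `∑_x #(Pat s t, x) ≤ |X| |Pat s t|`. -/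
theorem ee_count (N w1 z : ℕ) (s t : ℝ) (hs : s = 1 ∨ s = -1) (ht : t = 1 ∨ t = -1) (ι : Type) (X : Finset ι) (M c : ι → ℕ) :
    ∑ x ∈ X, (((Pat N w1 z (-s) (-t)).filter fun n => n ≡ c x [MOD M x]).card : ℝ) ≤
      (X.card : ℝ) * (Pat N w1 z s t).card +
      ∑ x ∈ X, |∑ n ∈ (Sst N w1 z).filter (fun n => n ≡ c x [MOD M x]), (s * lam n + t * lam (N - n))| := by
  have hlam : ∀ n : ℕ, lam n = 1 ∨ lam n = -1 := by
    intro n
    have h1 := Pool.Agent.Lib.MP_45349e_nt.LS.abs_lam n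
    rcases abs_eq (zero_le_one) |>.1 h1 with h | h
    · exact Or.inl h
    · exact Or.inr h
  have key : ∀ x ∈ X, (((Pat N w1 z (-s) (-t)).filter fun n => n ≡ c x [MOD M x]).card : ℝ) ≤
      (Pat N w1 z s t).card +
        |∑ n ∈ (Sst N w1 z).filter (fun n => n ≡ c x [MOD M x]), (s * lam n + t * lam (N - n))| := by
    intro x _
    have e1 : ∀ n, s * lam n + t * lam (N - n) =
        2 * (if lam n = s ∧ lam (N - n) = t then (1 : ℝ) else 0) -
        2 * (if lam n = -s ∧ lam (N - n) = -t then (1 : ℝ) else 0) := by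
      intro n
      rcases hs with rfl | rfl <;> rcases ht with rfl | rfl <;> rcases hlam n with h1 | h1 <;>
        rcases hlam (N - n) with h2 | h2 <;> rw [h1, h2] <;> norm_num
    have e2 : ∑ n ∈ (Sst N w1 z).filter (fun n => n ≡ c x [MOD M x]),
        (s * lam n + t * lam (N - n)) =
        2 * (((Pat N w1 z s t).filter fun n => n ≡ c x [MOD M x]).card : ℝ) -
        2 * (((Pat N w1 z (-s) (-t)).filter fun n => n ≡ c x [MOD M x]).card : ℝ) := by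
      rw [sum_congr rfl fun n _ => e1 n, sum_sub_distrib, ← mul_sum, ← mul_sum, ← sum_filter,
        ← sum_filter, sum_const, sum_const, nsmul_eq_mul, nsmul_eq_mul, mul_one, mul_one,
        filter_filter, filter_filter]
      unfold Pat
      rw [filter_filter, filter_filter]
      have e3 : ∀ s t : ℝ, (Sst N w1 z).filter (fun n => n ≡ c x [MOD M x] ∧ lam n = s ∧
          lam (N - n) = t) = (Sst N w1 z).filter (fun n => (lam n = s ∧ lam (N - n) = t) ∧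
          n ≡ c x [MOD M x]) := by
        intro s t
        ext n
        simp only [mem_filter]
        tauto
      rw [e3, e3]
    have e4 : (((Pat N w1 z s t).filter fun n => n ≡ c x [MOD M x]).card : ℝ) ≤
        (Pat N w1 z s t).card := by
      exact_mod_cast card_filter_le _ _
    have e5 := neg_abs_le (∑ n ∈ (Sst N w1 z).filter (fun n => n ≡ c x [MOD M x]),
      (s * lam n + t * lam (N - n)))
    have e6 := abs_nonneg (∑ n ∈ (Sst N w1 z).filter (fun n => n ≡ c x [MOD M x]),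
      (s * lam n + t * lam (N - n)))
    linarith
  refine (sum_le_sum key).trans (le_of_eq ?_)
  rw [sum_add_distrib, sum_const, nsmul_eq_mul]

end Pool.Agent.Lib.TE
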