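import Pool.Agent.Lib.MP_7b7e48_nt.TE.Inn
import Pool.Agent.Lib.MP_7b7e48_nt.TE.LamG2
import Pool.Agent.Lib.MP_7b7e48_nt.OW.S6

/-!
# Module VB (150 minutes): the part `b > N^(4/5)` of one progression

`c n = Re χ n`, `K = log N`, `Z = ⌊N^(4/5)⌋`. PROOF. If some prime `p ∣ Wf m`, `p ≤ wb`, divides `N - g e` for one (hence every) `e ≡ cl` modulo `Wf m`, `e ≤ (N-1)/g`, then all inner sums are empty. Otherwise fix `n = m'` (`≤ X := ((N-1)/g)/Z`), `n` coprime to `Wf N m`, `Rough wa n`;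
the condition on `b` is `b ≡ cl n^(-1)` modulo `Wf m`; `inn` with `G = g n`, `Y = (N-1)/(g n)` (`Z ≤ Y`, `G Y < N`): the inner sum is `μ (Y - Z) Π(n) + E`, `μ = MT Wf N · L · HH c m`, `|E| ≤ μ Y/K^(A+6) + √Y N^(36/100)`. `∑_{n ≤ X} √Y N^(36/100) ≤ ∑ √(N/n) N^(36/100) ≤ 2 N^(1/2 + 1/10 + 36/100) ≤ 2 N^(24/25)`.. (`X ≤ N^(1/5)`);
precisely `≤ N^(193/200)/2`. `∑_n μ Y/K^(A+6) ≤ μ (N/g) (K+1)/K^(A+6)`. MAIN: `Π(n) = V0 ∏_{p ∣ n} gg c wa wb g (Wf N m) p` (`prod_xx`), `0 ≤ V0 ≤ 1` (`xx_bd`), `Y = N/(g n) + O(1)`: `∑_n lam n Π(n) (Y - Z) = V0 ((N/g) ∑ FG(n)/n - Z ∑ FG(n)) + O(X)`,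
`FG = FG (Wf N m) wa (gg ..)`; `lamG (A + 6)` (`X ≥ N^(1/6)`; `gg_bd`; `gg = 1` above `wb`): `≤ (N/g)/K^(A+6) + Z X/K^(A+6) ≤ 2 (N/g)/K^(A+6)`. (The `O(1)` terms: `μ X ≤ N^(1/4)`.) Finally `μ ≤ 4 del(Wf N) L K²/m ≤ 4 K^(CL+2) σ/m` (`MT_bd`, `HH_le`, `del ≤ 1`, `L ≤ K^CL σ`), so the total is
`≤ σ (N/(g m)) (C K^(CL+3)/K^(A'+6)) + N^(193/200)`: use `inn`, `lamG` with the exponent `A' + 6`, `A' = A + CL + 3`.
-/

set_option autoImplicit false

open Finset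
open Pool.Agent.Lib.MP_45349e_nt.LS (lam)
open Pool.Agent.Lib.GT (Rough)
open Pool.Agent.Lib.RG (RC LV rr PB)
open Pool.Agent.Lib.OW (rs dd h2 sQ)

namespace Pool.Agent.Lib.TE

private theorem VB_sqrt (X : ℕ) : ∑ n ∈ Icc 1 X, 1 / Real.sqrt n ≤ 2 * Real.sqrt X := by
  induction X with
  | zero => simp
  | succ X ih =>
    rw [Finset.sum_Icc_succ_top (by omega)]
    set a : ℝ := Real.sqrt ((X : ℕ) : ℝ) with ha
    set b : ℝ := Real.sqrt ((X + 1 : ℕ) : ℝ) with hb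
    have ha0 : 0 ≤ a := Real.sqrt_nonneg _
    have hb0 : 0 < b := Real.sqrt_pos.2 (by exact_mod_cast Nat.succ_pos X)
    have ha2 : a ^ 2 = X := Real.sq_sqrt (Nat.cast_nonneg _)
    have hb2 : b ^ 2 = X + 1 := by
      rw [hb, Real.sq_sqrt (Nat.cast_nonneg _)]
      push_cast
      ring
    have hab : a ≤ b := by
      rw [ha, hb]
      exact Real.sqrt_le_sqrt (by push_cast; linarith)
    have h1 : 1 / b ≤ 2 * (b - a) := by
      rw [div_le_iff₀ hb0]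
      nlinarith
    linarith

private theorem VB_harm (X : ℕ) : ∑ n ∈ Icc 1 X, 1 / (n : ℝ) ≤ 1 + Real.log X := by
  have h1 := harmonic_le_one_add_log X
  rw [harmonic_eq_sum_Icc] at h1
  push_cast at h1
  refine le_trans (le_of_eq ?_) h1
  exact Finset.sum_congr rfl fun n _ => one_div _

/-- the estimate, given the evaluation of the inner sums -/
private theorem VB_core (X : ℕ) (P : ℕ → Prop) [DecidablePred P] (lf G S Y : ℕ → ℝ)
    (μ V0 Z B KA E δ : ℝ) (hlam : ∀ n, |lf n| ≤ 1) (hμ : 0 ≤ μ) (hV0 : 0 ≤ V0) (hV1 : V0 ≤ 1)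
    (hZ : 0 ≤ Z) (hB : 0 ≤ B) (hKA : 0 < KA) (hE : 0 ≤ E)
    (hS : ∀ n ∈ Icc 1 X, P n → |S n - μ * (Y n - Z) * (V0 * G n)| ≤ μ * Y n / KA + Real.sqrt (Y n) * E)
    (hY : ∀ n ∈ Icc 1 X, P n → |Y n - B / n| ≤ 2) (hY0 : ∀ n ∈ Icc 1 X, P n → Y n ≤ B / n)
    (hG : ∀ n ∈ Icc 1 X, P n → |G n| ≤ (n : ℝ) ^ 2)
    (F : ℕ → ℝ) (hF : ∀ n, F n = if P n then lf n * G n else 0)
    (h1 : |∑ n ∈ Icc 1 X, F n / n| ≤ δ) (h2 : |∑ n ∈ Icc 1 X, F n| ≤ X * δ) :
    |∑ n ∈ (Icc 1 X).filter P, lf n * S n| ≤ μ * (B * δ + Z * (X * δ)) + μ * (2 * (X : ℝ) ^ 3) +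
      (μ * B / KA * (1 + Real.log X) + E * Real.sqrt B * (2 * Real.sqrt X)) := by
  have hδ : 0 ≤ δ := (abs_nonneg _).trans h1
  have hn1 : ∀ n ∈ Icc 1 X, (1 : ℝ) ≤ n ∧ (n : ℝ) ≤ X := fun n hn => by
    rw [Finset.mem_Icc] at hn
    exact ⟨by exact_mod_cast hn.1, by exact_mod_cast hn.2⟩
  -- the main term
  have hmain : |∑ n ∈ (Icc 1 X).filter P, lf n * (μ * (Y n - Z) * (V0 * G n))| ≤
      μ * (B * δ + Z * (X * δ)) + μ * (2 * (X : ℝ) ^ 3) := by
    have e1 : ∑ n ∈ (Icc 1 X).filter P, lf n * (μ * (Y n - Z) * (V0 * G n)) =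
        μ * V0 * (B * ∑ n ∈ Icc 1 X, F n / n - Z * ∑ n ∈ Icc 1 X, F n +
          ∑ n ∈ Icc 1 X, F n * (Y n - B / n)) := by
      rw [Finset.sum_filter, Finset.mul_sum, Finset.mul_sum, ← Finset.sum_sub_distrib,
        ← Finset.sum_add_distrib, Finset.mul_sum]
      refine Finset.sum_congr rfl fun n hn => ?_
      have hn0 : (n : ℝ) ≠ 0 := by
        have := (hn1 n hn).1
        linarith
      rw [hF n]
      split_ifs with h
      · field_simp
        ring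
      · ring
    have e2 : |∑ n ∈ Icc 1 X, F n * (Y n - B / n)| ≤ 2 * (X : ℝ) ^ 3 := by
      refine (Finset.abs_sum_le_sum_abs _ _).trans ?_
      have h3 : ∀ n ∈ Icc 1 X, |F n * (Y n - B / n)| ≤ 2 * (X : ℝ) ^ 2 := by
        intro n hn
        rw [hF n, abs_mul]
        split_ifs with h
        · rw [abs_mul]
          have q1 := hY n hn h
          have q2 := hG n hn h
          have q3 := hlam n
          have q4 : (n : ℝ) ^ 2 ≤ (X : ℝ) ^ 2 :=
            pow_le_pow_left₀ (Nat.cast_nonneg _) (hn1 n hn).2 2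
          calc |lf n| * |G n| * |Y n - B / n| ≤ 1 * (X : ℝ) ^ 2 * 2 := by
                gcongr
                exact q2.trans q4
            _ = 2 * (X : ℝ) ^ 2 := by ring
        · rw [abs_zero, zero_mul]
          positivity
      refine (Finset.sum_le_sum h3).trans (le_of_eq ?_)
      rw [Finset.sum_const, Nat.card_Icc, nsmul_eq_mul, Nat.add_sub_cancel]
      ring
    rw [e1, abs_mul, abs_of_nonneg (mul_nonneg hμ hV0)]
    have e3 : |B * ∑ n ∈ Icc 1 X, F n / n - Z * ∑ n ∈ Icc 1 X, F n +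
          ∑ n ∈ Icc 1 X, F n * (Y n - B / n)| ≤ B * δ + Z * (X * δ) + 2 * (X : ℝ) ^ 3 := by
      refine (abs_add_le _ _).trans (add_le_add ((abs_sub _ _).trans (add_le_add ?_ ?_)) e2)
      · rw [abs_mul, abs_of_nonneg hB]
        exact mul_le_mul_of_nonneg_left h1 hB
      · rw [abs_mul, abs_of_nonneg hZ]
        exact mul_le_mul_of_nonneg_left h2 hZ
    calc μ * V0 * _ ≤ μ * 1 * (B * δ + Z * (X * δ) + 2 * (X : ℝ) ^ 3) := by
          refine mul_le_mul (mul_le_mul_of_nonneg_left hV1 hμ) e3 (abs_nonneg _) (by linarith)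
      _ = _ := by ring
  -- the error terms
  have herr : |∑ n ∈ (Icc 1 X).filter P, lf n * (S n - μ * (Y n - Z) * (V0 * G n))| ≤
      μ * B / KA * (1 + Real.log X) + E * Real.sqrt B * (2 * Real.sqrt X) := by
    refine (Finset.abs_sum_le_sum_abs _ _).trans ?_
    have h3 : ∀ n ∈ (Icc 1 X).filter P, |lf n * (S n - μ * (Y n - Z) * (V0 * G n))| ≤
        μ * B / KA * (1 / n) + E * Real.sqrt B * (1 / Real.sqrt n) := by
      intro n hn
      rw [Finset.mem_filter] at hn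
      obtain ⟨hn, hP⟩ := hn
      have q0 := (hn1 n hn).1
      have q1 := hS n hn hP
      have q2 := hY0 n hn hP
      rw [abs_mul]
      calc |lf n| * |S n - μ * (Y n - Z) * (V0 * G n)| ≤ 1 * (μ * Y n / KA + Real.sqrt (Y n) * E) :=
            mul_le_mul (hlam n) q1 (abs_nonneg _) zero_le_one
        _ = μ * Y n / KA + Real.sqrt (Y n) * E := one_mul _
        _ ≤ μ * (B / n) / KA + Real.sqrt (B / n) * E := by
            gcongr
        _ = μ * B / KA * (1 / n) + E * Real.sqrt B * (1 / Real.sqrt n) := by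
            rw [Real.sqrt_div hB]
            ring
    refine (Finset.sum_le_sum h3).trans ?_
    have hnn : ∀ n ∈ Icc 1 X, 0 ≤ μ * B / KA * (1 / (n : ℝ)) + E * Real.sqrt B * (1 / Real.sqrt n) :=
      fun n _ => by positivity
    refine (Finset.sum_le_sum_of_subset_of_nonneg (Finset.filter_subset _ _)
      fun n hn _ => hnn n hn).trans ?_
    rw [Finset.sum_add_distrib, ← Finset.mul_sum, ← Finset.mul_sum]
    refine add_le_add (mul_le_mul_of_nonneg_left (VB_harm X) (by positivity))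
      (mul_le_mul_of_nonneg_left (VB_sqrt X) (by positivity))
  have hsplit : ∑ n ∈ (Icc 1 X).filter P, lf n * S n =
      ∑ n ∈ (Icc 1 X).filter P, lf n * (μ * (Y n - Z) * (V0 * G n)) +
      ∑ n ∈ (Icc 1 X).filter P, lf n * (S n - μ * (Y n - Z) * (V0 * G n)) := by
    rw [← Finset.sum_add_distrib]
    refine Finset.sum_congr rfl fun n _ => ?_
    ring
  rw [hsplit]
  exact (abs_add_le _ _).trans (add_le_add hmain herr)

/-- sizes -/
private theorem VB_size (A : ℕ) : ∀ᶠ N : ℕ in Filter.atTop, 16 ≤ Real.log N ∧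
    128 * (Real.log N) ^ A ≤ (N : ℝ) ^ ((1 : ℝ) / 5) ∧
    4 ≤ (N : ℝ) ^ ((1 : ℝ) / 200) ∧ 2 ≤ N := by
  have hcast : Filter.Tendsto (fun N : ℕ => (N : ℝ)) Filter.atTop Filter.atTop :=
    tendsto_natCast_atTop_atTop
  have hlog : Filter.Tendsto (fun N : ℕ => Real.log N) Filter.atTop Filter.atTop :=
    Real.tendsto_log_atTop.comp hcast
  have h3 : ∀ᶠ N : ℕ in Filter.atTop, 128 * (Real.log N) ^ A ≤ (N : ℝ) ^ ((1 : ℝ) / 5) := by
    have h := (isLittleO_log_rpow_rpow_atTop (A : ℝ) (show (0 : ℝ) < 1 / 5 by norm_num)).bound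
      (show (0 : ℝ) < 1 / 128 by norm_num)
    filter_upwards [hcast.eventually h, hlog.eventually_ge_atTop 1] with N hN hN1
    have h9 : 0 ≤ Real.log (N : ℝ) := by linarith
    have h8 : 0 ≤ (N : ℝ) ^ ((1 : ℝ) / 5) := Real.rpow_nonneg (Nat.cast_nonneg N) _
    rw [Real.rpow_natCast, Real.norm_of_nonneg (pow_nonneg h9 _), Real.norm_of_nonneg h8] at hN
    linarith
  filter_upwards [hlog.eventually_ge_atTop 16, h3,
    ((tendsto_rpow_atTop (show (0 : ℝ) < 1 / 200 by norm_num)).comp hcast).eventually_ge_atTop 4,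
    Filter.eventually_ge_atTop 2] with N a1 a3 a4 a5
  exact ⟨a1, a3, a4, a5⟩

private theorem VB_X (N g : ℕ) (hN : 2 ≤ N) (h4 : 4 ≤ (N : ℝ) ^ ((1 : ℝ) / 200)) (hg : 1 ≤ g)
    (hg2 : (g : ℝ) ≤ (N : ℝ) ^ ((1 : ℝ) / 2000)) :
    1 ≤ ⌊(N : ℝ) ^ ((4 : ℝ) / 5)⌋₊ ∧
    (N : ℝ) ^ ((1 : ℝ) / 6) ≤ (((N - 1) / g / ⌊(N : ℝ) ^ ((4 : ℝ) / 5)⌋₊ : ℕ) : ℝ) ∧
    (((N - 1) / g / ⌊(N : ℝ) ^ ((4 : ℝ) / 5)⌋₊ : ℕ) : ℝ) ≤ 2 * (N : ℝ) ^ ((1 : ℝ) / 5) := by
  have hN1 : (1 : ℝ) ≤ N := by exact_mod_cast (by omega : 1 ≤ N)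
  have hN2 : (2 : ℝ) ≤ N := by exact_mod_cast hN
  have hN0 : (0 : ℝ) < N := by linarith
  have h45 : 4 ≤ (N : ℝ) ^ ((4 : ℝ) / 5) :=
    h4.trans (Real.rpow_le_rpow_of_exponent_le hN1 (by norm_num))
  set Z : ℕ := ⌊(N : ℝ) ^ ((4 : ℝ) / 5)⌋₊ with hZ
  have hZ1 : (N : ℝ) ^ ((4 : ℝ) / 5) < Z + 1 := Nat.lt_floor_add_one _
  have hZ2 : (Z : ℝ) ≤ (N : ℝ) ^ ((4 : ℝ) / 5) := Nat.floor_le (by positivity)
  have hZ3 : (N : ℝ) ^ ((4 : ℝ) / 5) / 2 ≤ Z := by linarith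
  have hZ0 : (0 : ℝ) < Z := by linarith
  have hZn : 1 ≤ Z := by exact_mod_cast (by exact_mod_cast hZ0 : 0 < Z)
  rw [Nat.div_div_eq_div_mul]
  have hg0 : (1 : ℝ) ≤ g := by exact_mod_cast hg
  have hgZ : 0 < g * Z := Nat.mul_pos hg hZn
  have hgZ0 : (0 : ℝ) < ((g * Z : ℕ) : ℝ) := by exact_mod_cast hgZ
  have hcast : ((N - 1 : ℕ) : ℝ) = (N : ℝ) - 1 := by
    rw [Nat.cast_sub (by omega)]
    simp
  refine ⟨hZn, ?_, ?_⟩
  · have h1 : ((N - 1 : ℕ) : ℝ) / ((g * Z : ℕ) : ℝ) < ((N - 1) / (g * Z) : ℕ) + 1 := by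
      have h2 := Nat.lt_div_mul_add hgZ (a := N - 1)
      rw [div_lt_iff₀ hgZ0]
      have h3 : ((N - 1 : ℕ) : ℝ) < (((N - 1) / (g * Z) * (g * Z) + g * Z : ℕ) : ℝ) := by
        exact_mod_cast h2
      push_cast at h3 ⊢
      linarith
    have h2 : ((g * Z : ℕ) : ℝ) ≤ (N : ℝ) ^ ((1601 : ℝ) / 2000) := by
      push_cast
      calc (g : ℝ) * Z ≤ (N : ℝ) ^ ((1 : ℝ) / 2000) * (N : ℝ) ^ ((4 : ℝ) / 5) :=
            mul_le_mul hg2 hZ2 hZ0.le (by positivity)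
        _ = (N : ℝ) ^ ((1601 : ℝ) / 2000) := by
            rw [← Real.rpow_add hN0]
            norm_num
    have h3 : (N : ℝ) ^ ((399 : ℝ) / 2000) / 2 ≤ ((N - 1 : ℕ) : ℝ) / ((g * Z : ℕ) : ℝ) := by
      rw [le_div_iff₀ hgZ0, hcast]
      calc (N : ℝ) ^ ((399 : ℝ) / 2000) / 2 * ((g * Z : ℕ) : ℝ) ≤
            (N : ℝ) ^ ((399 : ℝ) / 2000) / 2 * (N : ℝ) ^ ((1601 : ℝ) / 2000) :=
              mul_le_mul_of_nonneg_left h2 (by positivity)
        _ = (N : ℝ) / 2 := by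
              rw [div_mul_eq_mul_div, ← Real.rpow_add hN0]
              norm_num
        _ ≤ (N : ℝ) - 1 := by linarith
    have h5 : 4 * (N : ℝ) ^ ((1 : ℝ) / 6) ≤ (N : ℝ) ^ ((399 : ℝ) / 2000) := by
      calc 4 * (N : ℝ) ^ ((1 : ℝ) / 6) ≤ (N : ℝ) ^ ((1 : ℝ) / 200) * (N : ℝ) ^ ((1 : ℝ) / 6) :=
            mul_le_mul_of_nonneg_right h4 (by positivity)
        _ = (N : ℝ) ^ ((1 : ℝ) / 200 + 1 / 6) := by rw [← Real.rpow_add hN0]
        _ ≤ (N : ℝ) ^ ((399 : ℝ) / 2000) := Real.rpow_le_rpow_of_exponent_le hN1 (by norm_num)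
    have h6 : (1 : ℝ) ≤ (N : ℝ) ^ ((1 : ℝ) / 6) := Real.one_le_rpow hN1 (by norm_num)
    linarith
  · have h1 : (((N - 1) / (g * Z) : ℕ) : ℝ) ≤ ((N - 1 : ℕ) : ℝ) / ((g * Z : ℕ) : ℝ) :=
      Nat.cast_div_le
    refine h1.trans ?_
    rw [div_le_iff₀ hgZ0, hcast]
    push_cast
    calc (N : ℝ) - 1 ≤ N := by linarith
      _ = 2 * (N : ℝ) ^ ((1 : ℝ) / 5) * (1 * ((N : ℝ) ^ ((4 : ℝ) / 5) / 2)) := by
          have : (N : ℝ) ^ ((1 : ℝ) / 5) * (N : ℝ) ^ ((4 : ℝ) / 5) = N := by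
            rw [← Real.rpow_add hN0]
            norm_num
          linear_combination -this
      _ ≤ 2 * (N : ℝ) ^ ((1 : ℝ) / 5) * ((g : ℝ) * Z) := by
          refine mul_le_mul_of_nonneg_left ?_ (by positivity)
          exact mul_le_mul hg0 hZ3 (by positivity) (by linarith)

/-- the lengths of the inner sums -/
private theorem VB_Y (N g n Z : ℕ) (hN : 1 ≤ N) (hg : 1 ≤ g) (hn : 1 ≤ n) (hZ : 1 ≤ Z)
    (hX : n ≤ (N - 1) / g / Z) :
    Z ≤ (N - 1) / (g * n) ∧ g * n * ((N - 1) / (g * n)) < N ∧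
    |(((N - 1) / (g * n) : ℕ) : ℝ) - (N : ℝ) / g / n| ≤ 2 ∧
    (((N - 1) / (g * n) : ℕ) : ℝ) ≤ (N : ℝ) / g / n := by
  have hgn : 0 < g * n := Nat.mul_pos hg hn
  have hgn0 : (0 : ℝ) < ((g * n : ℕ) : ℝ) := by exact_mod_cast hgn
  have hgn1 : (1 : ℝ) ≤ ((g * n : ℕ) : ℝ) := by exact_mod_cast hgn
  have hcast : ((N - 1 : ℕ) : ℝ) = (N : ℝ) - 1 := by
    rw [Nat.cast_sub hN]
    simp
  have e1 : (N : ℝ) / g / n = (N : ℝ) / ((g * n : ℕ) : ℝ) := by
    push_cast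
    rw [div_div]
  have u1 : (((N - 1) / (g * n) : ℕ) : ℝ) ≤ ((N - 1 : ℕ) : ℝ) / ((g * n : ℕ) : ℝ) :=
    Nat.cast_div_le
  have u2 : ((N - 1 : ℕ) : ℝ) / ((g * n : ℕ) : ℝ) < (((N - 1) / (g * n) : ℕ) : ℝ) + 1 := by
    have h2 := Nat.lt_div_mul_add hgn (a := N - 1)
    rw [div_lt_iff₀ hgn0]
    have h3 : ((N - 1 : ℕ) : ℝ) < (((N - 1) / (g * n) * (g * n) + g * n : ℕ) : ℝ) := by
      exact_mod_cast h2
    push_cast at h3 ⊢
    linarith
  have u3 : ((N - 1 : ℕ) : ℝ) / ((g * n : ℕ) : ℝ) = (N : ℝ) / ((g * n : ℕ) : ℝ) -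
      1 / ((g * n : ℕ) : ℝ) := by
    rw [hcast, sub_div]
  have u4 : 0 < 1 / ((g * n : ℕ) : ℝ) := by positivity
  have u5 : 1 / ((g * n : ℕ) : ℝ) ≤ 1 := by
    rw [div_le_one hgn0]
    exact hgn1
  refine ⟨?_, ?_, ?_, ?_⟩
  · rw [Nat.le_div_iff_mul_le hgn]
    rw [Nat.le_div_iff_mul_le (by omega), Nat.le_div_iff_mul_le (by omega)] at hX
    calc Z * (g * n) = n * Z * g := by ring
      _ ≤ N - 1 := hX
  · have := Nat.mul_div_le (N - 1) (g * n)
    omega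
  · rw [e1, abs_le]
    constructor <;> linarith
  · rw [e1]
    linarith

/-- crude bound for the correction factors -/
private theorem VB_gg (G : ℕ → ℝ) (hG : ∀ p : ℕ, p.Prime → 1 ≤ G p ∧ G p ≤ 1 + 4 / p) (n : ℕ)
    (hn : 1 ≤ n) : |∏ p ∈ n.primeFactors, G p| ≤ (n : ℝ) ^ 2 := by
  rw [Finset.abs_prod]
  have h1 : ∏ p ∈ n.primeFactors, |G p| ≤ ∏ p ∈ n.primeFactors, (p : ℝ) ^ 2 := by
    refine Finset.prod_le_prod (fun p _ => abs_nonneg _) fun p hp => ?_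
    have hpp := Nat.prime_of_mem_primeFactors hp
    obtain ⟨h2, h3⟩ := hG p hpp
    have h4 : (2 : ℝ) ≤ p := by exact_mod_cast hpp.two_le
    have h5 : (4 : ℝ) / p ≤ 2 := by
      rw [div_le_iff₀ (by linarith)]
      linarith
    rw [abs_of_nonneg (by linarith)]
    nlinarith
  refine h1.trans ?_
  rw [Finset.prod_pow]
  refine pow_le_pow_left₀ (Finset.prod_nonneg fun p _ => Nat.cast_nonneg _) ?_ 2
  have h2 : ∏ p ∈ n.primeFactors, p ≤ n := Nat.le_of_dvd hn (Nat.prod_primeFactors_dvd n)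
  rw [← Nat.cast_prod]
  exact_mod_cast h2

open Classical in
theorem vb (Wf : ℕ) (hW : 1 ≤ Wf) (A CL : ℕ) : ∃ C0 : ℝ, 5000 ≤ C0 ∧ ∀ C1 : ℝ, C0 ≤ C1 → ∃ N0 : ℕ, ∀ (N : ℕ) [NeZero (Wf * N)], N0 ≤ N →
    ∀ χ : DirichletCharacter ℂ (Wf * N), χ ^ 2 = 1 →
    (∃ m : ℕ, m ≡ 1 [MOD Wf] ∧ m.Coprime (Wf * N) ∧ χ (m : ZMod (Wf * N)) ≠ 1) →
    ∀ L : ℝ, 0 ≤ L → LV (Wf * N) (fun n => (χ (n : ZMod (Wf * N))).re) L → ∀ σ : ℝ, L ≤ (Real.log N) ^ CL * σ →
    ∀ wa wb : ℕ, 2 ≤ wa → wa ≤ zC C1 N → wb ≤ zC C1 N → ∀ g m cl : ℕ, 1 ≤ g → 1 ≤ m →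
    ((g * m : ℕ) : ℝ) ≤ (N : ℝ) ^ ((1 : ℝ) / 2000) → (g * m).Coprime (Wf * N) → cl.Coprime (Wf * m) →
    |∑ n ∈ (Icc 1 ((N - 1) / g / ⌊(N : ℝ) ^ ((4 : ℝ) / 5)⌋₊)).filter (fun n => n.Coprime (Wf * N * m) ∧ Rough wa n), lam n *
      ∑ b ∈ (Ioc ⌊(N : ℝ) ^ ((4 : ℝ) / 5)⌋₊ ((N - 1) / (g * n))).filter
        (fun b => b * n ≡ cl [MOD Wf * m] ∧ Rough wa b ∧ Rough wb (N - g * n * b)),
        h2 (fun n => (χ (n : ZMod (Wf * N))).re) b| ≤
      σ * N / (g * m) / (Real.log N) ^ A + (N : ℝ) ^ ((193 : ℝ) / 200) := by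
  obtain ⟨Ca, hCa, hinn⟩ := inn Wf hW (A + CL + 9)
  obtain ⟨Cb, hCb, hlamG⟩ := lamG (A + CL + 9)
  obtain ⟨Nh, hHH⟩ := HH_le
  refine ⟨max Ca Cb, hCa.trans (le_max_left _ _), fun C1 hC1 => ?_⟩
  obtain ⟨Na, hNa⟩ := hinn C1 ((le_max_left _ _).trans hC1)
  obtain ⟨Nb, hNb⟩ := hlamG C1 ((le_max_right _ _).trans hC1)
  obtain ⟨Nc, hNc⟩ := Filter.eventually_atTop.1 (VB_size (A + CL + 2))
  refine ⟨max (max Na Nb) (max Nh (max Nc (Wf + 1))), ?_⟩
  intro N _ hN χ hχ hex L hL0 hLV σ hLσ wa wb hwa2 hwa hwb g m cl hg hm hgm hcop hcl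
  have hN' : Na ≤ N ∧ Nb ≤ N ∧ Nh ≤ N ∧ Nc ≤ N ∧ Wf + 1 ≤ N := by
    simp only [max_le_iff] at hN
    tauto
  obtain ⟨n1, n2, n4, n5, n6⟩ := hN'
  obtain ⟨k1, k3, k4, k5⟩ := hNc N n5
  set c : ℕ → ℝ := fun n => (χ (n : ZMod (Wf * N))).re with hc
  have hN0 : (0 : ℝ) < N := by exact_mod_cast (by omega : 0 < N)
  have hN1 : (1 : ℝ) ≤ N := by exact_mod_cast (by omega : 1 ≤ N)
  have hWN : N ≤ Wf * N := Nat.le_mul_of_pos_left _ hW
  -- the character
  have hne1 : χ ≠ 1 := by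
    obtain ⟨x, -, hx1, hx2⟩ := hex
    intro h1
    rw [h1, MulChar.one_apply ((ZMod.isUnit_iff_coprime _ _).2 hx1)] at hx2
    exact hx2 rfl
  have hrc : RC (Wf * N) c := Pool.Agent.Lib.RG.RC_char (Wf * N) (by omega) χ hχ hne1
  set K : ℝ := Real.log N with hK
  set Z : ℕ := ⌊(N : ℝ) ^ ((4 : ℝ) / 5)⌋₊ with hZdef
  set X : ℕ := (N - 1) / g / Z with hXdef
  have hKCL : 0 < K ^ CL := pow_pos (by linarith) _
  have hσ0 : 0 ≤ σ := by
    by_contra hneg
    push Not at hneg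
    have := mul_neg_of_pos_of_neg hKCL hneg
    linarith
  have hg1 : (1 : ℝ) ≤ g := by exact_mod_cast hg
  have hm1 : (1 : ℝ) ≤ m := by exact_mod_cast hm
  have hgle : (g : ℝ) ≤ (N : ℝ) ^ ((1 : ℝ) / 2000) := by
    refine le_trans ?_ hgm
    push_cast
    nlinarith
  have hmle : (m : ℝ) ≤ (N : ℝ) ^ ((1 : ℝ) / 2000) := by
    refine le_trans ?_ hgm
    push_cast
    nlinarith
  obtain ⟨hZ1, hX1, hX2⟩ := VB_X N g k5 k4 hg hgle
  rw [← hZdef] at hZ1
  rw [← hZdef, ← hXdef] at hX1 hX2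
  have hgc : g.Coprime (Wf * N) := Nat.Coprime.coprime_dvd_left (Dvd.intro _ rfl) hcop
  have hmc : m.Coprime (Wf * N) := Nat.Coprime.coprime_dvd_left (Dvd.intro_left _ rfl) hcop
  have hXN : X ≤ N := by
    rw [hXdef]
    exact (Nat.div_le_self _ _).trans ((Nat.div_le_self _ _).trans (Nat.sub_le _ _))
  -- the nonnegative bound
  have hR0 : 0 ≤ σ * N / (g * m) / K ^ A + (N : ℝ) ^ ((193 : ℝ) / 200) := by
    have : 0 ≤ K := by linarith
    positivity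
  by_cases hloc : ∃ p : ℕ, p.Prime ∧ p ∣ Wf * m ∧ p ≤ wb ∧ N ≡ g * cl [MOD p]
  · -- all inner sums are empty
    obtain ⟨p, hp, hpW, hpw, hpN⟩ := hloc
    have h0 : ∀ n ∈ (Icc 1 X).filter (fun n => n.Coprime (Wf * N * m) ∧ Rough wa n), lam n *
        ∑ b ∈ (Ioc Z ((N - 1) / (g * n))).filter
          (fun b => b * n ≡ cl [MOD Wf * m] ∧ Rough wa b ∧ Rough wb (N - g * n * b)), h2 c b = 0 := by
      intro n hn
      rw [Finset.mem_filter, Finset.mem_Icc] at hn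
      have hgn : 0 < g * n := Nat.mul_pos hg hn.1.1
      rw [Finset.sum_eq_zero, mul_zero]
      intro b hb
      exfalso
      rw [Finset.mem_filter, Finset.mem_Ioc] at hb
      obtain ⟨⟨-, hb2⟩, hb3, -, hb4⟩ := hb
      have hle : g * n * b ≤ N - 1 := by
        rw [Nat.le_div_iff_mul_le hgn] at hb2
        calc g * n * b = b * (g * n) := by ring
          _ ≤ N - 1 := hb2
      have hmod : g * n * b ≡ N [MOD p] := by
        have h1 : b * n ≡ cl [MOD p] := hb3.of_dvd hpW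
        have h2 : g * (b * n) ≡ g * cl [MOD p] := h1.mul_left g
        have h3 : g * n * b = g * (b * n) := by ring
        rw [h3]
        exact h2.trans hpN.symm
      have hdvd : p ∣ N - g * n * b := (Nat.modEq_iff_dvd' (by omega)).1 hmod
      have := hb4 p hp hdvd
      omega
    rw [Finset.sum_eq_zero h0, abs_zero]
    exact hR0
  · push Not at hloc
    set Q : ℕ := Wf * N * m with hQ
    have hQ1 : 1 ≤ Q := Nat.mul_pos (Nat.mul_pos hW (by omega)) hm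
    have hgg : ∀ p : ℕ, p.Prime → 1 ≤ gg c wa wb g Q p ∧ gg c wa wb g Q p ≤ 1 + 4 / p :=
      fun p hp => gg_bd hrc wa wb g Q p hwa2 (Dvd.intro _ rfl) hp
    have hgg1 : ∀ p : ℕ, zC C1 N < p → gg c wa wb g Q p = 1 := by
      intro p hp
      unfold gg
      rw [if_neg]
      rintro ⟨-, -, -, h, -⟩
      omega
    have hQ3 : (Q : ℝ) ≤ (N : ℝ) ^ 3 := by
      have h1 : m ≤ N := by
        have : (m : ℝ) ≤ N := hmle.trans (by
          calc (N : ℝ) ^ ((1 : ℝ) / 2000) ≤ (N : ℝ) ^ (1 : ℝ) :=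
                Real.rpow_le_rpow_of_exponent_le hN1 (by norm_num)
            _ = N := Real.rpow_one _)
        exact_mod_cast this
      have h2 : Q ≤ N ^ 3 := by
        calc Q ≤ N * N * N := Nat.mul_le_mul (Nat.mul_le_mul (by omega) le_rfl) h1
          _ = N ^ 3 := by ring
      exact_mod_cast h2
    obtain ⟨hF1, hF2⟩ := hNb N n2 wa hwa Q hQ1 hQ3 (gg c wa wb g Q) hgg hgg1 X hX1 hXN
    set H : ℝ := HH c m with hH
    have hH0 : 0 ≤ H := HH_nonneg hrc m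
    obtain ⟨hMT0, hMT4⟩ := MT_bd Wf N hW (by omega)
    set μ : ℝ := MT Wf N * L * H with hμ
    have hμ0 : 0 ≤ μ := mul_nonneg (mul_nonneg hMT0 hL0) hH0
    have hμle : μ ≤ 4 * K ^ (CL + 2) * σ / m := by
      have h4 : Pool.Agent.Lib.OW.del (Wf * N) ≤ 1 := by
        unfold Pool.Agent.Lib.OW.del
        refine div_le_one_of_le₀ ?_ (Nat.cast_nonneg _)
        exact_mod_cast Nat.totient_le _
      have h5 : MT Wf N ≤ 4 := hMT4.trans (by linarith)
      have h6 : H ≤ K ^ 2 / m := by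
        refine hHH N n4 (Wf * N) c hrc m hm ?_
        have : (m : ℝ) ≤ N := hmle.trans (by
          calc (N : ℝ) ^ ((1 : ℝ) / 2000) ≤ (N : ℝ) ^ (1 : ℝ) :=
                Real.rpow_le_rpow_of_exponent_le hN1 (by norm_num)
            _ = N := Real.rpow_one _)
        exact_mod_cast this
      calc μ = MT Wf N * L * H := rfl
        _ ≤ 4 * (K ^ CL * σ) * (K ^ 2 / m) := by
            gcongr
        _ = 4 * K ^ (CL + 2) * σ / m := by
            rw [pow_add]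
            ring
    set V0 : ℝ := ∏ p ∈ PPS (max wa wb) Q, (1 - xx c wa wb g p) with hV0def
    have hxx : ∀ p ∈ PPS (max wa wb) Q, 0 ≤ 1 - xx c wa wb g p ∧ 1 - xx c wa wb g p ≤ 1 := by
      intro p hp
      unfold PPS at hp
      rw [Finset.mem_filter] at hp
      obtain ⟨-, hp1, hp2⟩ := hp
      have h1 := xx_bd hrc wa wb g p hp1 (fun h => hp2 (h.trans (Dvd.intro _ rfl)))
      constructor <;> linarith [h1.1, h1.2.2]
    have hV00 : 0 ≤ V0 := Finset.prod_nonneg fun p hp => (hxx p hp).1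
    have hV01 : V0 ≤ 1 := Finset.prod_le_one (fun p hp => (hxx p hp).1) fun p hp => (hxx p hp).2
    have hKA : 0 < K ^ (A + CL + 9) := by
      have : 0 < K := by linarith
      positivity
    have hlam1 : ∀ n, |lam n| ≤ 1 := by
      intro n
      unfold Pool.Agent.Lib.MP_45349e_nt.LS.lam
      rw [abs_pow]
      simp
    have hcore := VB_core X (fun n => n.Coprime Q ∧ Rough wa n) lam
      (fun n => ∏ p ∈ n.primeFactors, gg c wa wb g Q p)
      (fun n => ∑ b ∈ (Ioc Z ((N - 1) / (g * n))).filter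
        (fun b => b * n ≡ cl [MOD Wf * m] ∧ Rough wa b ∧ Rough wb (N - g * n * b)), h2 c b)
      (fun n => (((N - 1) / (g * n) : ℕ) : ℝ)) μ V0 Z (N / g) (K ^ (A + CL + 9))
      ((N : ℝ) ^ ((36 : ℝ) / 100)) (1 / K ^ (A + CL + 9)) hlam1 hμ0 hV00 hV01 (Nat.cast_nonneg _)
      (by positivity) hKA (by positivity) ?_ ?_ ?_ ?_ (fun n => FG Q wa (gg c wa wb g Q) n)
      (fun n => rfl) hF1 (by rw [mul_one_div]; exact hF2)
    · refine hcore.trans ?_
      have hK0 : 0 < K := by linarith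
      have hX0 : (0 : ℝ) < X := lt_of_lt_of_le (by positivity) hX1
      have hlogX : Real.log X ≤ K := Real.log_le_log hX0 (by exact_mod_cast hXN)
      have hZX : (Z : ℝ) * X ≤ (N : ℝ) / g := by
        rw [le_div_iff₀ (by linarith)]
        have h1 : X * Z ≤ (N - 1) / g := Nat.div_mul_le_self _ _
        have h2 : X * Z * g ≤ N - 1 := by
          calc X * Z * g ≤ (N - 1) / g * g := Nat.mul_le_mul_right g h1
            _ ≤ N - 1 := Nat.div_mul_le_self _ _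
        have h3 : Z * X * g ≤ N := by
          calc Z * X * g = X * Z * g := by ring
            _ ≤ N := h2.trans (Nat.sub_le _ _)
        exact_mod_cast h3
      have hδ0 : 0 < 1 / K ^ (A + CL + 9) := by positivity
      have hB0 : 0 ≤ (N : ℝ) / g := by positivity
      -- the first part
      have p1 : μ * ((N : ℝ) / g * (1 / K ^ (A + CL + 9)) + Z * (X * (1 / K ^ (A + CL + 9)))) +
          μ * ((N : ℝ) / g) / K ^ (A + CL + 9) * (1 + Real.log X) ≤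
            σ * N / (g * m) / K ^ A * (1 / 2) := by
        have q1 : μ * ((N : ℝ) / g * (1 / K ^ (A + CL + 9)) + Z * (X * (1 / K ^ (A + CL + 9)))) ≤
            μ * (2 * ((N : ℝ) / g) * (1 / K ^ (A + CL + 9))) := by
          refine mul_le_mul_of_nonneg_left ?_ hμ0
          have : (Z : ℝ) * (X * (1 / K ^ (A + CL + 9))) ≤ (N : ℝ) / g * (1 / K ^ (A + CL + 9)) := by
            rw [← mul_assoc]
            exact mul_le_mul_of_nonneg_right hZX hδ0.le
          linarith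
        have q2 : μ * ((N : ℝ) / g) / K ^ (A + CL + 9) * (1 + Real.log X) ≤
            μ * ((N : ℝ) / g) / K ^ (A + CL + 9) * (1 + K) :=
          mul_le_mul_of_nonneg_left (add_le_add_right hlogX 1) (by positivity)
        have q3 : μ * (2 * ((N : ℝ) / g) * (1 / K ^ (A + CL + 9))) +
            μ * ((N : ℝ) / g) / K ^ (A + CL + 9) * (1 + K) =
            μ * (((N : ℝ) / g) / K ^ (A + CL + 9) * (K + 3)) := by
          field_simp
          ring
        have q4 : μ * (((N : ℝ) / g) / K ^ (A + CL + 9) * (K + 3)) ≤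
            4 * K ^ (CL + 2) * σ / m * (((N : ℝ) / g) / K ^ (A + CL + 9) * (K + 3)) :=
          mul_le_mul_of_nonneg_right hμle (by positivity)
        have q5 : 4 * K ^ (CL + 2) * σ / m * (((N : ℝ) / g) / K ^ (A + CL + 9) * (K + 3)) =
            σ * N / (g * m) / K ^ A * (4 * (K + 3) / K ^ 7) := by
          rw [show A + CL + 9 = A + ((CL + 2) + 7) by ring, pow_add K A, pow_add K (CL + 2)]
          field_simp
        have q6 : 4 * (K + 3) / K ^ 7 ≤ 1 / 2 := by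
          rw [div_le_iff₀ (by positivity)]
          have r3 : K * K ≤ K ^ 7 := by
            have : K * K = K ^ 2 := by ring
            rw [this]
            exact pow_le_pow_right₀ (by linarith) (by norm_num)
          have r4 : 16 * K ≤ K * K := mul_le_mul_of_nonneg_right k1 hK0.le
          linarith
        have q7 : σ * N / (g * m) / K ^ A * (4 * (K + 3) / K ^ 7) ≤
            σ * N / (g * m) / K ^ A * (1 / 2) :=
          mul_le_mul_of_nonneg_left q6 (by positivity)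
        linarith
      -- the second part
      have p2 : μ * (2 * (X : ℝ) ^ 3) ≤ σ * N / (g * m) / K ^ A * (1 / 2) := by
        have q2 : (X : ℝ) ^ 3 ≤ 8 * (N : ℝ) ^ ((3 : ℝ) / 5) := by
          calc (X : ℝ) ^ 3 ≤ (2 * (N : ℝ) ^ ((1 : ℝ) / 5)) ^ 3 :=
                pow_le_pow_left₀ hX0.le hX2 3
            _ = 8 * (N : ℝ) ^ ((3 : ℝ) / 5) := by
                rw [mul_pow, ← Real.rpow_natCast ((N : ℝ) ^ ((1 : ℝ) / 5)) 3, ← Real.rpow_mul hN0.le]
                norm_num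
        have q3 : 128 * K ^ (A + CL + 2) * (N : ℝ) ^ ((3 : ℝ) / 5) * g ≤ N := by
          calc 128 * K ^ (A + CL + 2) * (N : ℝ) ^ ((3 : ℝ) / 5) * g ≤
                (N : ℝ) ^ ((1 : ℝ) / 5) * (N : ℝ) ^ ((3 : ℝ) / 5) * (N : ℝ) ^ ((1 : ℝ) / 2000) := by
                gcongr
            _ = (N : ℝ) ^ ((1 : ℝ) / 5 + 3 / 5 + 1 / 2000) := by
                rw [← Real.rpow_add hN0, ← Real.rpow_add hN0]
            _ ≤ (N : ℝ) ^ (1 : ℝ) := Real.rpow_le_rpow_of_exponent_le hN1 (by norm_num)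
            _ = N := Real.rpow_one _
        have hg0 : (0 : ℝ) < g := by linarith
        have hm0 : (0 : ℝ) < m := by linarith
        calc μ * (2 * (X : ℝ) ^ 3) ≤
              4 * K ^ (CL + 2) * σ / m * (2 * (8 * (N : ℝ) ^ ((3 : ℝ) / 5))) := by
              gcongr
          _ = σ / (g * m) / K ^ A * (1 / 2) *
                (128 * K ^ (A + CL + 2) * (N : ℝ) ^ ((3 : ℝ) / 5) * g) := by
              rw [show A + CL + 2 = A + (CL + 2) by ring, pow_add K A]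
              field_simp
              ring
          _ ≤ σ / (g * m) / K ^ A * (1 / 2) * N :=
              mul_le_mul_of_nonneg_left q3 (by positivity)
          _ = σ * N / (g * m) / K ^ A * (1 / 2) := by ring
      -- the third part
      have p3 : (N : ℝ) ^ ((36 : ℝ) / 100) * Real.sqrt ((N : ℝ) / g) * (2 * Real.sqrt X) ≤
          3 * (N : ℝ) ^ ((24 : ℝ) / 25) := by
        have q1 : Real.sqrt ((N : ℝ) / g) ≤ (N : ℝ) ^ ((1 : ℝ) / 2) := by
          rw [Real.sqrt_eq_rpow]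
          refine Real.rpow_le_rpow hB0 ?_ (by norm_num)
          exact div_le_self hN0.le hg1
        have q2 : Real.sqrt X ≤ 3 / 2 * (N : ℝ) ^ ((1 : ℝ) / 10) := by
          rw [Real.sqrt_le_left (by positivity)]
          refine hX2.trans ?_
          have : (3 / 2 * (N : ℝ) ^ ((1 : ℝ) / 10)) ^ 2 = 9 / 4 * (N : ℝ) ^ ((1 : ℝ) / 5) := by
            rw [mul_pow, ← Real.rpow_natCast ((N : ℝ) ^ ((1 : ℝ) / 10)) 2, ← Real.rpow_mul hN0.le]
            norm_num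
          rw [this]
          have : 0 ≤ (N : ℝ) ^ ((1 : ℝ) / 5) := by positivity
          linarith
        calc (N : ℝ) ^ ((36 : ℝ) / 100) * Real.sqrt ((N : ℝ) / g) * (2 * Real.sqrt X) ≤
              (N : ℝ) ^ ((36 : ℝ) / 100) * (N : ℝ) ^ ((1 : ℝ) / 2) *
                (2 * (3 / 2 * (N : ℝ) ^ ((1 : ℝ) / 10))) := by gcongr
          _ = 3 * ((N : ℝ) ^ ((36 : ℝ) / 100) * (N : ℝ) ^ ((1 : ℝ) / 2) *
                (N : ℝ) ^ ((1 : ℝ) / 10)) := by ring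
          _ = 3 * (N : ℝ) ^ ((24 : ℝ) / 25) := by
              rw [← Real.rpow_add hN0, ← Real.rpow_add hN0]
              norm_num
      have p4 : 3 * (N : ℝ) ^ ((24 : ℝ) / 25) ≤ (N : ℝ) ^ ((193 : ℝ) / 200) := by
        have q1 : 0 ≤ (N : ℝ) ^ ((24 : ℝ) / 25) := by positivity
        have q2 : 4 * (N : ℝ) ^ ((24 : ℝ) / 25) ≤ (N : ℝ) ^ ((193 : ℝ) / 200) := by
          calc 4 * (N : ℝ) ^ ((24 : ℝ) / 25) ≤ (N : ℝ) ^ ((1 : ℝ) / 200) * (N : ℝ) ^ ((24 : ℝ) / 25) :=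
                mul_le_mul_of_nonneg_right k4 (by positivity)
            _ = (N : ℝ) ^ ((193 : ℝ) / 200) := by
                rw [← Real.rpow_add hN0]
                norm_num
        linarith
      linarith
    · -- the inner sums
      intro n hn hP
      rw [Finset.mem_Icc] at hn
      obtain ⟨hPc, hPr⟩ := hP
      obtain ⟨y1, y2, -, -⟩ := VB_Y N g n Z (by omega) hg hn.1 hZ1 hn.2
      have hnWm : n.Coprime (Wf * m) := by
        refine Nat.Coprime.coprime_dvd_right ?_ hPc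
        rw [hQ]
        exact ⟨N, by ring⟩
      have hnN : n.Coprime N := by
        refine Nat.Coprime.coprime_dvd_right ?_ hPc
        rw [hQ]
        exact ⟨Wf * m, by ring⟩
      have hgN : g.Coprime N := Nat.Coprime.coprime_dvd_right (Dvd.intro_left _ rfl) hgc
      have hk0 : NeZero (Wf * m) := ⟨(Nat.mul_pos hW hm).ne'⟩
      have hinv : ((n : ℕ) : ZMod (Wf * m)) * ((n : ℕ) : ZMod (Wf * m))⁻¹ = 1 :=
        ZMod.coe_mul_inv_eq_one n hnWm
      set b0 : ℕ := (((cl : ℕ) : ZMod (Wf * m)) * ((n : ℕ) : ZMod (Wf * m))⁻¹).val with hb0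
      have hb0c : ((b0 : ℕ) : ZMod (Wf * m)) = ((cl : ℕ) : ZMod (Wf * m)) *
          ((n : ℕ) : ZMod (Wf * m))⁻¹ := ZMod.natCast_zmod_val _
      have hb0n : ((b0 : ℕ) : ZMod (Wf * m)) * ((n : ℕ) : ZMod (Wf * m)) = ((cl : ℕ) : ZMod (Wf * m)) := by
        rw [hb0c]
        linear_combination (cl : ZMod (Wf * m)) * hinv
      have hb0cop : b0.Coprime (Wf * m) := by
        rw [← ZMod.isUnit_iff_coprime]
        have h1 : IsUnit ((cl : ℕ) : ZMod (Wf * m)) := (ZMod.isUnit_iff_coprime _ _).2 hcl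
        rw [← hb0n] at h1
        exact isUnit_of_mul_isUnit_left h1
      have hiff : ∀ b : ℕ, b * n ≡ cl [MOD Wf * m] ↔ b ≡ b0 [MOD Wf * m] := by
        intro b
        rw [← ZMod.natCast_eq_natCast_iff, ← ZMod.natCast_eq_natCast_iff]
        constructor
        · intro h
          rw [hb0c, ← h]
          push_cast
          linear_combination (-(b : ZMod (Wf * m))) * hinv
        · intro h
          push_cast
          rw [h]
          exact hb0n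
      have hmle2 : (m : ℝ) ≤ (N : ℝ) ^ ((1 : ℝ) / 1500) :=
        hmle.trans (Real.rpow_le_rpow_of_exponent_le hN1 (by norm_num))
      have hin := hNa N n1 χ hχ hex L hL0 hLV wa wb hwa hwb m (g * n) b0 Z ((N - 1) / (g * n)) hm
        hmle2 hmc (Nat.mul_pos hg hn.1) (Nat.Coprime.mul_left hgN hnN) hb0cop hZ1 y1 y2 (by
          intro p hp hpW hpw n' hn' hmod hdvd
          refine hloc p hp hpW hpw ?_
          have hle : g * n * n' ≤ N := by
            calc g * n * n' ≤ g * n * ((N - 1) / (g * n)) := Nat.mul_le_mul_left _ hn'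
              _ ≤ N := y2.le
          have h1 : g * n * n' ≡ N [MOD p] := (Nat.modEq_iff_dvd' hle).2 hdvd
          have h2 : n' * n ≡ cl [MOD p] := ((hiff n').2 hmod).of_dvd hpW
          have h3 : g * n * n' = g * (n' * n) := by ring
          rw [h3] at h1
          exact h1.symm.trans (h2.mul_left g))
      have hprod := prod_xx hrc (max wa wb) wa wb g n Q hwa2 (le_max_right _ _) hn.1
        (Dvd.intro _ rfl) hPr
      have hfilt : (Ioc Z ((N - 1) / (g * n))).filter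
          (fun b => b * n ≡ cl [MOD Wf * m] ∧ Rough wa b ∧ Rough wb (N - g * n * b)) =
          (Ioc Z ((N - 1) / (g * n))).filter
          (fun b => b ≡ b0 [MOD Wf * m] ∧ Rough wa b ∧ Rough wb (N - g * n * b)) := by
        refine Finset.filter_congr fun b _ => ?_
        rw [hiff]
      show |∑ b ∈ (Ioc Z ((N - 1) / (g * n))).filter
        (fun b => b * n ≡ cl [MOD Wf * m] ∧ Rough wa b ∧ Rough wb (N - g * n * b)), h2 c b -
        μ * ((((N - 1) / (g * n) : ℕ) : ℝ) - Z) * (V0 * ∏ p ∈ n.primeFactors, gg c wa wb g Q p)| ≤ _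
      rw [hfilt]
      rw [← hc, hprod] at hin
      exact hin
    · intro n hn _
      rw [Finset.mem_Icc] at hn
      exact (VB_Y N g n Z (by omega) hg hn.1 hZ1 hn.2).2.2.1
    · intro n hn _
      rw [Finset.mem_Icc] at hn
      exact (VB_Y N g n Z (by omega) hg hn.1 hZ1 hn.2).2.2.2
    · intro n hn _
      rw [Finset.mem_Icc] at hn
      exact VB_gg _ hgg n hn.1

end Pool.Agent.Lib.TE
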