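import Pool.Agent.Lib.MP_7b7e48_nt.TE.Defs

/-!
# Module VID (60 minutes): Vaughan's identity for the Liouville function

Pointwise, for `n ≥ 1`: `lam n = [n ≤ U] lam n + ∑_{v ∣ n, v ≤ V} μ(v) [n/v is a square] - ∑_{u v ∣ n, u ≤ U, v ≤ V} lam u μ(v) + ∑_{a ∣ n, a > U} lam a ∑_{d ∣ n/a, d > V} μ(d)`.
PROOF. (In arithmetic functions: `λ = λ1 + λ2`, `μ = μ1 + μ2`, `λ1, μ1` the parts `≤ U`, `≤ V`; `λ * 1 = sq` (the indicator of the squares), `1 * μ = 1_{n=1}`, so `λ2 = λ2 * 1 * μ = (sq - λ1 * 1) * μ1 + λ2 * (1 * μ2)`.)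
Then sum over `n ≤ Y` with the weight `G n` (completely multiplicative): `n = v k²`; `n = u v k`; `n = a n'`. `∑_{d ∣ n} lam d = [n is a square]`: `Lib` has it (search `isSquare`/`LG`), or by multiplicativity.
-/

set_option autoImplicit false

open Finset
open Pool.Agent.Lib.MP_45349e_nt.LS (lam)

namespace Pool.Agent.Lib.TE

open Pool.Agent.Lib.SW

private noncomputable def VID_L : ArithmeticFunction ℝ :=
  ((ArithmeticFunction.liouville : ArithmeticFunction ℤ) : ArithmeticFunction ℝ)

private noncomputable def VID_Z : ArithmeticFunction ℝ :=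
  ((ArithmeticFunction.zeta : ArithmeticFunction ℕ) : ArithmeticFunction ℝ)

private theorem VID_L_apply {n : ℕ} (hn : n ≠ 0) : VID_L n = lam n := by
  rw [VID_L, ArithmeticFunction.intCoe_apply, ArithmeticFunction.liouville_apply hn]
  unfold Pool.Agent.Lib.MP_45349e_nt.LS.lam
  push_cast
  rfl

private theorem VID_Z_apply {n : ℕ} (hn : n ≠ 0) : VID_Z n = 1 := by
  rw [VID_Z, ArithmeticFunction.natCoe_apply, ArithmeticFunction.zeta_apply_ne hn]
  simp

open ArithmeticFunction in
private theorem VID_pp (p k : ℕ) (hp : p.Prime) :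
    (liouville * ((zeta : ArithmeticFunction ℕ) : ArithmeticFunction ℤ)) (p ^ k) =
      if Even k then 1 else 0 := by
  rw [coe_mul_zeta_apply, Nat.sum_divisors_prime_pow hp]
  have h : ∀ j ∈ Finset.range (k + 1), liouville (p ^ j) = (-1 : ℤ) ^ j := by
    intro j _
    rw [liouville_apply (pow_ne_zero j hp.ne_zero), cardFactors_apply_prime_pow hp]
  rw [Finset.sum_congr rfl h, neg_one_geom_sum]
  by_cases hk : Even k
  · rw [if_pos hk, if_neg (by rw [Nat.even_add_one]; exact fun h => h hk)]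
  · rw [if_neg hk, if_pos (by rw [Nat.even_add_one]; exact hk)]

open ArithmeticFunction in
private theorem VID_val (n : ℕ) (hn : n ≠ 0) :
    (liouville * ((zeta : ArithmeticFunction ℕ) : ArithmeticFunction ℤ)) n =
      if IsSquare n then 1 else 0 := by
  have hf : IsMultiplicative (liouville * ((zeta : ArithmeticFunction ℕ) :
      ArithmeticFunction ℤ)) := isMultiplicative_liouville.mul isMultiplicative_zeta.natCast
  rw [hf.multiplicative_factorization _ hn]
  unfold Finsupp.prod
  have h1 : ∀ p ∈ n.factorization.support,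
      (liouville * ((zeta : ArithmeticFunction ℕ) : ArithmeticFunction ℤ))
        (p ^ n.factorization p) = if Even (n.factorization p) then 1 else 0 := by
    intro p hp
    rw [Nat.support_factorization] at hp
    exact VID_pp p _ (Nat.prime_of_mem_primeFactors hp)
  rw [Finset.prod_congr rfl h1]
  by_cases hall : ∀ p ∈ n.factorization.support, Even (n.factorization p)
  · have hsq : IsSquare n := by
      obtain ⟨a, b, ha, hb, hab, hsq⟩ := Nat.sq_mul_squarefree_of_pos (Nat.pos_of_ne_zero hn)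
      have ha1 : a = 1 := by
        by_contra hne
        obtain ⟨p, hp, hpa⟩ := Nat.exists_prime_and_dvd hne
        have h2 : p ∈ n.factorization.support := by
          rw [Nat.support_factorization, Nat.mem_primeFactors]
          exact ⟨hp, by rw [← hab]; exact Dvd.dvd.mul_left hpa _, hn⟩
        have h3 := hall p h2
        have h4 : n.factorization p = 2 * b.factorization p + a.factorization p := by
          rw [← hab, Nat.factorization_mul (pow_ne_zero 2 hb.ne') ha.ne', Nat.factorization_pow]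
          simp
        have h5 := Squarefree.natFactorization_le_one p hsq
        have h6 : 1 ≤ a.factorization p := (hp.dvd_iff_one_le_factorization ha.ne').1 hpa
        obtain ⟨r, hr⟩ := h3
        omega
      refine ⟨b, ?_⟩
      rw [← hab, ha1, mul_one, pow_two]
    rw [if_pos hsq, Finset.prod_congr rfl (fun p hp => if_pos (hall p hp)), Finset.prod_const_one]
  · push Not at hall
    obtain ⟨p, hp, hodd⟩ := hall
    rw [Finset.prod_eq_zero hp (if_neg hodd)]
    rw [if_neg]
    rintro ⟨b, rfl⟩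
    apply hodd
    have hb : b ≠ 0 := by
      rintro rfl
      exact hn rfl
    rw [Nat.factorization_mul hb hb]
    exact ⟨b.factorization p, by simp⟩

private theorem VID_sq {n : ℕ} (hn : n ≠ 0) : (VID_L * VID_Z) n = if IsSquare n then 1 else 0 := by
  have h := VID_val n hn
  rw [ArithmeticFunction.coe_mul_zeta_apply] at h
  rw [VID_Z, ArithmeticFunction.coe_mul_zeta_apply]
  have h2 : ∑ i ∈ n.divisors, VID_L i =
      ((∑ i ∈ n.divisors, ArithmeticFunction.liouville i : ℤ) : ℝ) := by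
    rw [Int.cast_sum]
    refine sum_congr rfl fun i _ => ?_
    rw [VID_L, ArithmeticFunction.intCoe_apply]
  rw [h2, h]
  split_ifs <;> simp

private theorem VID_sqsum (G : ℕ → ℂ) (hG : ∀ a b, G (a * b) = G a * G b) (v Y : ℕ) (hv : 1 ≤ v) :
    ∑ k ∈ Icc 1 (Y / v), (((VID_L * VID_Z) k : ℝ) : ℂ) * G (v * k) =
      G v * ∑ k ∈ (Icc 1 Y).filter (fun k => v * k ^ 2 ≤ Y), G (k ^ 2) := by
  have h1 : ∑ k ∈ Icc 1 (Y / v), (((VID_L * VID_Z) k : ℝ) : ℂ) * G (v * k) =
      ∑ k ∈ (Icc 1 (Y / v)).filter (fun k => IsSquare k), G v * G k := by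
    rw [sum_filter]
    refine sum_congr rfl fun k hk => ?_
    rw [mem_Icc] at hk
    rw [VID_sq (by omega), hG]
    split_ifs <;> simp
  rw [h1, mul_sum]
  symm
  refine sum_bij (fun k _ => k ^ 2) ?_ ?_ ?_ ?_
  · intro k hk
    rw [mem_filter, mem_Icc] at hk
    rw [mem_filter, mem_Icc]
    refine ⟨⟨Nat.one_le_pow _ _ hk.1.1, ?_⟩, ⟨k, pow_two k⟩⟩
    rw [Nat.le_div_iff_mul_le hv, mul_comm]
    exact hk.2
  · intro a _ b _ hab
    exact Nat.pow_left_injective (by norm_num : (2 : ℕ) ≠ 0) hab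
  · intro m hm
    rw [mem_filter, mem_Icc] at hm
    obtain ⟨⟨hm1, hm2⟩, k, rfl⟩ := hm
    rw [Nat.le_div_iff_mul_le hv, mul_comm] at hm2
    have hk1 : 1 ≤ k := by
      rcases Nat.eq_zero_or_pos k with h0 | h0
      · rw [h0] at hm1
        omega
      · exact h0
    refine ⟨k, ?_, pow_two k⟩
    rw [mem_filter, mem_Icc]
    refine ⟨⟨hk1, ?_⟩, by rw [pow_two]; exact hm2⟩
    calc k ≤ k * k := Nat.le_mul_of_pos_left k hk1
      _ ≤ v * (k * k) := Nat.le_mul_of_pos_left _ hv
      _ ≤ Y := hm2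
  · intro k _
    rfl

theorem vid (G : ℕ → ℂ) (hG : ∀ a b, G (a * b) = G a * G b) (U V Y : ℕ) (hU : 1 ≤ U) (hV : 1 ≤ V) (hUY : U ≤ Y) :
    ∑ n ∈ Icc 1 Y, (lam n : ℂ) * G n =
      ∑ n ∈ Icc 1 U, (lam n : ℂ) * G n +
      ∑ v ∈ Icc 1 V, ((ArithmeticFunction.moebius v : ℤ) : ℂ) * G v *
        ∑ k ∈ (Icc 1 Y).filter (fun k => v * k ^ 2 ≤ Y), G (k ^ 2) -
      ∑ u ∈ Icc 1 U, ∑ v ∈ Icc 1 V, (lam u : ℂ) * ((ArithmeticFunction.moebius v : ℤ) : ℂ) * G (u * v) *
        ∑ k ∈ Icc 1 (Y / (u * v)), G k +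
      ∑ a ∈ Ioc U Y, ∑ n ∈ Icc 1 (Y / a), (lam a : ℂ) *
        ((∑ d ∈ n.divisors.filter (fun d => V < d), ((ArithmeticFunction.moebius d : ℤ) : ℝ) : ℝ) : ℂ) * (G a * G n) := by
  have _ := hU
  have _ := hV
  set a := Vaughan_tr VID_L U with ha
  set b := Vaughan_tr Vaughan_mu V with hb
  have hz : Vaughan_mu * VID_Z = 1 := Vaughan_mu_zeta
  have hid : VID_L = a + b * (VID_L * VID_Z) - a * (b * VID_Z) +
      (VID_L - a) * ((Vaughan_mu - b) * VID_Z) := by
    linear_combination (a - VID_L) * hz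
  have hdiv : ∀ m, Y < m → Y / m = 0 := fun m hm => Nat.div_eq_of_lt hm
  have h1 : ∀ n ∈ Icc 1 Y, (lam n : ℂ) * G n =
      ((a n : ℝ) : ℂ) * G n + (((b * (VID_L * VID_Z)) n : ℝ) : ℂ) * G n -
        (((a * (b * VID_Z)) n : ℝ) : ℂ) * G n +
        ((((VID_L - a) * ((Vaughan_mu - b) * VID_Z)) n : ℝ) : ℂ) * G n := by
    intro n hn
    rw [mem_Icc] at hn
    have h : VID_L n = (a + b * (VID_L * VID_Z) - a * (b * VID_Z) +
      (VID_L - a) * ((Vaughan_mu - b) * VID_Z)) n :=
      congrArg (fun F : ArithmeticFunction ℝ => F n) hid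
    rw [← VID_L_apply (by omega : n ≠ 0), h, ArithmeticFunction.add_apply, Vaughan_sub_apply,
      ArithmeticFunction.add_apply]
    push_cast
    ring
  rw [sum_congr rfl h1, sum_add_distrib, sum_sub_distrib, sum_add_distrib]
  have hA : ∀ u ∈ Icc 1 U, (a u : ℝ) = lam u := by
    intro u hu
    rw [mem_Icc] at hu
    rw [ha, Vaughan_tr_apply, if_pos hu.2, VID_L_apply (by omega)]
  have hA0 : ∀ m, U < m → ((a m : ℝ) : ℂ) = 0 := by
    intro m hm
    rw [ha, Vaughan_tr_apply, if_neg (by omega)]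
    simp
  have hB : ∀ v ∈ Icc 1 V, ((b v : ℝ) : ℂ) = ((ArithmeticFunction.moebius v : ℤ) : ℂ) := by
    intro v hv
    rw [mem_Icc] at hv
    rw [hb, Vaughan_tr_apply, if_pos hv.2, Vaughan_mu_apply]
    push_cast
    rfl
  have hB0 : ∀ m, V < m → ((b m : ℝ) : ℂ) = 0 := by
    intro m hm
    rw [hb, Vaughan_tr_apply, if_neg (by omega)]
    simp
  congr 1
  · congr 1
    · congr 1
      · -- first sum
        symm
        rw [sum_congr rfl fun n hn => by rw [← hA n hn]]
        apply sum_subset (Icc_subset_Icc_right hUY)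
        intro n hn hn'
        rw [mem_Icc] at hn hn'
        rw [hA0 n (by omega), zero_mul]
      · rw [Vaughan_dirichlet, Vaughan_restrict _ _ V Y hB0]
        · refine sum_congr rfl fun v hv => ?_
          rw [hB v hv]
          rw [mem_Icc] at hv
          rw [VID_sqsum G hG v Y hv.1, mul_assoc]
        · intro m hm
          rw [hdiv m hm]
          simp
    · rw [Vaughan_dirichlet, Vaughan_restrict _ _ U Y hA0]
      · refine sum_congr rfl fun u hu => ?_
        rw [hA u hu]
        have e1 : ∑ k ∈ Icc 1 (Y / u), (((b * VID_Z) k : ℝ) : ℂ) * G (u * k) =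
            G u * ∑ k ∈ Icc 1 (Y / u), (((b * VID_Z) k : ℝ) : ℂ) * G k := by
          rw [mul_sum]
          refine sum_congr rfl fun k _ => ?_
          rw [hG]
          ring
        rw [e1, Vaughan_dirichlet, Vaughan_restrict _ _ V (Y / u) hB0]
        · rw [mul_sum, mul_sum]
          refine sum_congr rfl fun v hv => ?_
          rw [hB v hv, hG, Nat.div_div_eq_div_mul]
          have e2 : ∑ k ∈ Icc 1 (Y / (u * v)), ((VID_Z k : ℝ) : ℂ) * G (v * k) =
              G v * ∑ k ∈ Icc 1 (Y / (u * v)), G k := by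
            rw [mul_sum]
            refine sum_congr rfl fun k hk => ?_
            rw [mem_Icc] at hk
            rw [VID_Z_apply (by omega), hG]
            simp
          rw [e2]
          ring
        · intro m hm
          rw [Nat.div_eq_of_lt hm]
          simp
      · intro m hm
        rw [hdiv m hm]
        simp
  · rw [Vaughan_dirichlet, Vaughan_tail VID_L U]
    refine sum_congr rfl fun l hl => ?_
    rw [mem_Ioc] at hl
    rw [VID_L_apply (by omega), mul_sum]
    refine sum_congr rfl fun n _ => ?_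
    rw [hb, VID_Z, Vaughan_bU_eq, hG]
    unfold bU
    ring

end Pool.Agent.Lib.TE
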