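import Mathlib

/-!
# Module XA1 (60 minutes): sums over tuples in which given numbers occur

`sumF_mem`: for a finite set `S` and a set `G` of coordinates, the sum of `∏_f h f (x f)` over the tuples `x` in which every `p ∈ S` occurs at some coordinate of `G`. PROOF. The indicator is `≤ ∏_{p ∈ S} ∑_{f ∈ G} [x f = p] = ∑_{φ : S → G} ∏_p [x (φ p) = p]` (`Finset.prod_sum`, functions `φ ∈ Finset.pi` or `Fintype.piFinset` over `S` as a subtype). For fixed `φ`
the sum over `x` factors (`Finset.prod_univ_sum`): `∏_f (∑_{a ∈ B f} h f a ∏_{p : φ p = f} [a = p])`. A factor with empty fibre is `≤ v f`; a factor with a fibre `{p}` is `≤ h f p ≤ u p`; a fibre with two different elements gives `0 ≤ ∏ u p`. So the product is `≤ (∏_{p ∈ S} u p) (∏_{f ∉ G} v f)` (`v f ≤ 1` for `f ∈ G`; the fibres over `f ∉ G` are empty).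
There are `#G ^ #S` functions `φ`.
`marg`: `x ↦ (update x a z, x a)` is a bijection from `piFinset B` onto `piFinset (update B a {z}) × B a`, with inverse `(y, v) ↦ update y a v`.
-/

set_option autoImplicit false

open Finset

namespace Pool.Agent.Lib.TE

private theorem XA1_fac {F : Type} [DecidableEq F] (B : F → Finset ℕ) (h : F → ℕ → ℝ) (v : F → ℝ) (u : ℕ → ℝ) (S : Finset ℕ) (G : Finset F)
    (h0 : ∀ f, ∀ p ∈ B f, 0 ≤ h f p) (hv : ∀ f, ∑ p ∈ B f, h f p ≤ v f) (hG : ∀ f ∈ G, v f ≤ 1) (hu0 : ∀ p ∈ S, 0 ≤ u p)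
    (hu : ∀ f ∈ G, ∀ p ∈ S, p ∈ B f → h f p ≤ u p) (φ : S → F) (hφ : ∀ p, φ p ∈ G) (f : F) :
    ∑ a ∈ B f, (if ∀ p : S, φ p = f → a = p then h f a else 0) ≤
      (∏ p ∈ univ.filter (fun p : S => φ p = f), u p) * (if f ∈ G then 1 else v f) := by
  by_cases hf : f ∈ G
  · rw [if_pos hf, mul_one]
    by_cases hT : ∃ p0 : S, φ p0 = f
    · obtain ⟨p0, hp0⟩ := hT
      by_cases h1 : ∀ p : S, φ p = f → p = p0
      · have h2 : univ.filter (fun p : S => φ p = f) = {p0} := by
          ext p
          rw [mem_filter, mem_singleton]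
          exact ⟨fun h => h1 p h.2, fun h => ⟨mem_univ _, h ▸ hp0⟩⟩
        rw [h2, prod_singleton]
        by_cases h3 : (p0 : ℕ) ∈ B f
        · refine le_trans ?_ (hu f hf p0 p0.2 h3)
          rw [sum_eq_single_of_mem (p0 : ℕ) h3]
          · split_ifs
            · exact le_rfl
            · exact h0 f p0 h3
          · intro b _ hb'
            rw [if_neg]
            intro h
            exact hb' (h p0 hp0)
        · refine le_trans (le_of_eq ?_) (hu0 p0 p0.2)
          refine sum_eq_zero fun a ha => ?_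
          rw [if_neg]
          intro h
          exact h3 (h p0 hp0 ▸ ha)
      · push Not at h1
        obtain ⟨p1, hp1, hne⟩ := h1
        refine le_trans (le_of_eq ?_) (prod_nonneg fun p _ => hu0 p p.2)
        refine sum_eq_zero fun a _ => ?_
        rw [if_neg]
        intro h
        exact hne (Subtype.ext ((h p1 hp1).symm.trans (h p0 hp0)))
    · push Not at hT
      have h2 : univ.filter (fun p : S => φ p = f) = ∅ := by
        rw [filter_eq_empty_iff]
        intro p _
        exact hT p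
      rw [h2, prod_empty]
      refine le_trans (sum_le_sum (g := fun a => h f a) fun a ha => ?_) ((hv f).trans (hG f hf))
      split_ifs
      · exact le_rfl
      · exact h0 f a ha
  · rw [if_neg hf]
    have h2 : univ.filter (fun p : S => φ p = f) = ∅ := by
      rw [filter_eq_empty_iff]
      intro p _ h
      exact hf (h ▸ hφ p)
    rw [h2, prod_empty, one_mul]
    refine le_trans (sum_le_sum (g := fun a => h f a) fun a ha => ?_) (hv f)
    split_ifs
    · exact le_rfl
    · exact h0 f a ha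

private theorem XA1_one {F : Type} [Fintype F] [DecidableEq F] (B : F → Finset ℕ) (h : F → ℕ → ℝ) (v : F → ℝ) (u : ℕ → ℝ) (S : Finset ℕ) (G : Finset F)
    (h0 : ∀ f, ∀ p ∈ B f, 0 ≤ h f p) (hv : ∀ f, ∑ p ∈ B f, h f p ≤ v f) (hG : ∀ f ∈ G, v f ≤ 1) (hu0 : ∀ p ∈ S, 0 ≤ u p)
    (hu : ∀ f ∈ G, ∀ p ∈ S, p ∈ B f → h f p ≤ u p) (φ : S → F) (hφ : ∀ p, φ p ∈ G) :
    ∑ x ∈ Fintype.piFinset B, (if ∀ p : S, x (φ p) = p then ∏ f, h f (x f) else 0) ≤
      (∏ p ∈ S, u p) * ∏ f ∈ univ \ G, v f := by
  have h1 : ∀ x : F → ℕ, (if ∀ p : S, x (φ p) = p then ∏ f, h f (x f) else 0) =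
      ∏ f, (if ∀ p : S, φ p = f → x f = p then h f (x f) else 0) := by
    intro x
    rw [prod_ite_zero]
    have h2 : (∀ p : S, x (φ p) = p) ↔ ∀ f ∈ (univ : Finset F), ∀ p : S, φ p = f → x f = p :=
      ⟨fun h f _ p hp => by rw [← hp]; exact h p, fun h p => h (φ p) (mem_univ _) p rfl⟩
    by_cases h3 : ∀ p : S, x (φ p) = p
    · rw [if_pos h3, if_pos (h2.1 h3)]
    · rw [if_neg h3, if_neg fun h => h3 (h2.2 h)]
  rw [sum_congr rfl fun x _ => h1 x, ← prod_univ_sum B (fun f a => if ∀ p : S, φ p = f → a = p then h f a else 0)]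
  have h4 : ∏ f, ((∏ p ∈ univ.filter (fun p : S => φ p = f), u p) * (if f ∈ G then 1 else v f)) =
      (∏ p ∈ S, u p) * ∏ f ∈ univ \ G, v f := by
    rw [prod_mul_distrib, prod_fiberwise (univ : Finset S) φ (fun p : S => u p), prod_coe_sort S u]
    congr 1
    rw [prod_ite, prod_const_one, one_mul]
    refine prod_congr ?_ fun _ _ => rfl
    ext f
    rw [mem_filter, mem_sdiff]
  rw [← h4]
  refine prod_le_prod (fun f _ => sum_nonneg fun a ha => ?_) fun f _ => XA1_fac B h v u S G h0 hv hG hu0 hu φ hφ f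
  split_ifs
  · exact h0 f a ha
  · exact le_rfl

open Classical in
theorem sumF_mem {F : Type} [Fintype F] [DecidableEq F] (B : F → Finset ℕ) (h : F → ℕ → ℝ) (v : F → ℝ) (u : ℕ → ℝ) (S : Finset ℕ) (G : Finset F)
    (h0 : ∀ f, ∀ p ∈ B f, 0 ≤ h f p) (hv : ∀ f, ∑ p ∈ B f, h f p ≤ v f) (hG : ∀ f ∈ G, v f ≤ 1) (hu0 : ∀ p ∈ S, 0 ≤ u p)
    (hu : ∀ f ∈ G, ∀ p ∈ S, p ∈ B f → h f p ≤ u p) :
    ∑ x ∈ (Fintype.piFinset B).filter (fun x => ∀ p ∈ S, ∃ f ∈ G, x f = p), ∏ f, h f (x f) ≤
      (G.card : ℝ) ^ S.card * (∏ p ∈ S, u p) * ∏ f ∈ univ \ G, v f := by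
  have hcard : (Fintype.piFinset fun _ : S => G).card = G.card ^ S.card := by
    rw [Fintype.card_piFinset, prod_const, card_univ, Fintype.card_coe]
  have h1 : ∑ x ∈ (Fintype.piFinset B).filter (fun x => ∀ p ∈ S, ∃ f ∈ G, x f = p), ∏ f, h f (x f) ≤
      ∑ x ∈ Fintype.piFinset B, ∑ φ ∈ Fintype.piFinset (fun _ : S => G), (if ∀ p : S, x (φ p) = p then ∏ f, h f (x f) else 0) := by
    rw [sum_filter]
    refine sum_le_sum fun x hx => ?_
    have hx0 : 0 ≤ ∏ f, h f (x f) := prod_nonneg fun f _ => h0 f _ (Fintype.mem_piFinset.1 hx f)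
    have hnn : ∀ φ ∈ Fintype.piFinset (fun _ : S => G), 0 ≤ (if ∀ p : S, x (φ p) = p then ∏ f, h f (x f) else 0) := by
      intro φ _
      split_ifs
      · exact hx0
      · exact le_rfl
    by_cases hc : ∀ p ∈ S, ∃ f ∈ G, x f = p
    · rw [if_pos hc]
      choose g hg using hc
      have h2 : (fun p : S => g p p.2) ∈ Fintype.piFinset (fun _ : S => G) :=
        Fintype.mem_piFinset.2 fun p => (hg p p.2).1
      refine le_trans (le_of_eq ?_) (single_le_sum hnn h2)
      rw [if_pos fun p : S => (hg p p.2).2]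
    · rw [if_neg hc]
      exact sum_nonneg hnn
  refine h1.trans ?_
  rw [sum_comm]
  refine (sum_le_sum fun φ hφ => XA1_one B h v u S G h0 hv hG hu0 hu φ (Fintype.mem_piFinset.1 hφ)).trans (le_of_eq ?_)
  rw [sum_const, hcard, nsmul_eq_mul, Nat.cast_pow, mul_assoc]

theorem marg {F : Type} [Fintype F] [DecidableEq F] (B : F → Finset ℕ) (a : F) (z : ℕ) (H : (F → ℕ) → ℝ) :
    ∑ x ∈ Fintype.piFinset B, H x =
      ∑ y ∈ Fintype.piFinset (Function.update B a {z}), ∑ v ∈ B a, H (Function.update y a v) := by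
  rw [← sum_product' (Fintype.piFinset (Function.update B a {z})) (B a) (fun y v => H (Function.update y a v))]
  refine sum_nbij' (fun x => (Function.update x a z, x a)) (fun w => Function.update w.1 a w.2) ?_ ?_ ?_ ?_ ?_
  · intro x hx
    rw [Fintype.mem_piFinset] at hx
    rw [mem_product, Fintype.mem_piFinset]
    refine ⟨fun f => ?_, hx a⟩
    by_cases hf : f = a
    · subst hf
      simp
    · rw [Function.update_of_ne hf]
      show Function.update x a z f ∈ B f
      rw [Function.update_of_ne hf]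
      exact hx f
  · intro w hw
    rw [mem_product, Fintype.mem_piFinset] at hw
    rw [Fintype.mem_piFinset]
    intro f
    by_cases hf : f = a
    · subst hf
      rw [Function.update_self]
      exact hw.2
    · rw [Function.update_of_ne hf]
      have h1 := hw.1 f
      rw [Function.update_of_ne hf] at h1
      exact h1
  · intro x _
    simp
  · intro w hw
    rw [mem_product, Fintype.mem_piFinset] at hw
    have h1 := hw.1 a
    rw [Function.update_self, mem_singleton] at h1
    refine Prod.ext ?_ ?_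
    · show Function.update (Function.update w.1 a w.2) a z = w.1
      rw [Function.update_idem, ← h1, Function.update_eq_self]
    · show Function.update w.1 a w.2 a = w.2
      rw [Function.update_self]
  · intro x _
    simp

end Pool.Agent.Lib.TE
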