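import Mathlib

/-!
# Module XA2 (60 minutes): counting the primes of the last windows

`cnt1`: `u U + r ≡ 0` modulo `j`, `U` a unit modulo `j`: `u` is in one class modulo `j`: at most `Z/j + 1` numbers in `(3 Z, 4 Z]` resp. `(Z, 2 Z]` (any interval of length `Z`). Each has `1/u ≤ 1/Z`.
`cnt2`: for a given value `e` the pairs `(u, v)` with `u U + v W = D e`: `v` is determined modulo `U` (`gcd (U, W) = 1`), so there are at most `Z/U + 1 ≤ 2 Z/U` values of `v ∈ (Z, 2 Z]`, and `u` is determined by `v`. The number of the values `e ≤ c Z U/D` which are divisible by `q j` for some prime `q` of `Q`: at most `∑_{q ∈ Q} c Z U/(D q j) ≤ c Z U σ/j` (`Q` contains all relevant primes).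
So at most `2 c Z² σ/j` pairs, each of weight `1/(u v) ≤ 1/(3 Z²)`.
-/

set_option autoImplicit false

open Finset

namespace Pool.Agent.Lib.TE

/-- numbers of one class modulo `j` in an interval of length `Z` -/
private theorem xa2_card (F : Finset ℕ) (Z X0 j : ℕ) (hj : 1 ≤ j) (hZ : 1 ≤ Z)
    (hF : ∀ u ∈ F, X0 < u ∧ u ≤ X0 + Z) (hc : ∀ u ∈ F, ∀ v ∈ F, (j : ℤ) ∣ (u : ℤ) - v) :
    F.card ≤ Z / j + 1 := by
  rcases F.eq_empty_or_nonempty with h0 | h0
  · rw [h0]; simp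
  obtain ⟨m, hm, hmin⟩ := F.exists_min_image (fun u => u) h0
  have h1 : F.card ≤ (range (Z / j + 1)).card := by
    refine card_le_card_of_injOn (fun u => (u - m) / j) ?_ ?_
    · intro u hu
      rw [mem_coe] at hu
      simp only [coe_range, Set.mem_Iio]
      have h2 : u - m ≤ Z := by
        have := hF u hu
        have := hF m hm
        omega
      have := Nat.div_le_div_right (c := j) h2
      omega
    · intro u hu v hv huv
      rw [mem_coe] at hu hv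
      simp only at huv
      have hmu := hmin u hu
      have hmv := hmin v hv
      have hdu : j ∣ u - m := by
        have := hc u hu m hm
        rw [← Int.natCast_dvd_natCast, Nat.cast_sub hmu]
        exact this
      have hdv : j ∣ v - m := by
        have := hc v hv m hm
        rw [← Int.natCast_dvd_natCast, Nat.cast_sub hmv]
        exact this
      obtain ⟨a, ha⟩ := hdu
      obtain ⟨b, hb⟩ := hdv
      rw [ha, hb, Nat.mul_div_cancel_left _ (by omega), Nat.mul_div_cancel_left _ (by omega)] at huv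
      rw [huv] at ha
      omega
  rwa [card_range] at h1

open Classical in
theorem cnt1 (I : Finset ℕ) (Z X0 : ℕ) (hZ : 1 ≤ Z) (hX : Z ≤ X0) (hI : ∀ u ∈ I, X0 < u ∧ u ≤ X0 + Z) (U r : ℤ) (j : ℕ) (hj : 1 ≤ j)
    (hU : IsCoprime U j) :
    ∑ u ∈ I.filter (fun u : ℕ => (j : ℤ) ∣ u * U + r), 1 / (u : ℝ) ≤ 1 / j + 1 / Z := by
  set F := I.filter (fun u : ℕ => (j : ℤ) ∣ u * U + r) with hF
  have hZr : (0 : ℝ) < Z := by exact_mod_cast hZ
  have hjr : (0 : ℝ) < j := by exact_mod_cast hj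
  have hcard : F.card ≤ Z / j + 1 := by
    refine xa2_card F Z X0 j hj hZ (fun u hu => hI u (mem_filter.1 hu).1) ?_
    intro u hu v hv
    have h1 := (mem_filter.1 hu).2
    have h2 := (mem_filter.1 hv).2
    have h3 : (j : ℤ) ∣ ((u : ℤ) - v) * U := by
      have h4 := dvd_sub h1 h2
      have e : ((u : ℤ) - v) * U = (u * U + r) - (v * U + r) := by ring
      rw [e]
      exact h4
    exact hU.symm.dvd_of_dvd_mul_right h3
  have h1 : ∑ u ∈ F, 1 / (u : ℝ) ≤ ∑ _u ∈ F, 1 / (Z : ℝ) := by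
    refine sum_le_sum fun u hu => one_div_le_one_div_of_le hZr ?_
    have := hI u (mem_filter.1 hu).1
    exact_mod_cast (by omega : Z ≤ u)
  refine h1.trans ?_
  rw [sum_const, nsmul_eq_mul]
  have h2 : (F.card : ℝ) ≤ Z / j + 1 := by
    have h3 : (F.card : ℝ) ≤ ((Z / j + 1 : ℕ) : ℝ) := by exact_mod_cast hcard
    refine h3.trans ?_
    push_cast
    have := @Nat.cast_div_le ℝ _ _ _ Z j
    linarith
  calc (F.card : ℝ) * (1 / Z) ≤ (Z / j + 1) * (1 / Z) := mul_le_mul_of_nonneg_right h2 (by positivity)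
    _ = 1 / j + 1 / Z := by
      field_simp

open Classical in
theorem cnt2 (Ia Ib : Finset ℕ) (Z : ℕ) (hZ : 1 ≤ Z) (hIa : ∀ u ∈ Ia, 3 * Z < u ∧ u ≤ 4 * Z) (hIb : ∀ v ∈ Ib, Z < v ∧ v ≤ 2 * Z)
    (U W : ℤ) (hU0 : 0 < U) (hUZ : U ≤ Z) (hUW : IsCoprime U W) (D j cS : ℕ) (hD : 1 ≤ D) (hj : 1 ≤ j)
    (Q : Finset ℕ) (hQ : ∀ q ∈ Q, 0 < q) (σ : ℝ) (hσ : ∑ q ∈ Q, 1 / (q : ℝ) ≤ σ) :
    ∑ uv ∈ (Ia ×ˢ Ib).filter (fun uv : ℕ × ℕ => 0 < (uv.1 : ℤ) * U + uv.2 * W ∧ (uv.1 : ℤ) * U + uv.2 * W ≤ cS * Z * U ∧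
      ∃ q ∈ Q, ((D * (q * j) : ℕ) : ℤ) ∣ uv.1 * U + uv.2 * W), 1 / (uv.1 : ℝ) * (1 / (uv.2 : ℝ)) ≤ cS * σ / j := by
  obtain ⟨U', rfl⟩ := Int.eq_ofNat_of_zero_le hU0.le
  have hU1 : 1 ≤ U' := by exact_mod_cast hU0
  have hUZ' : U' ≤ Z := by exact_mod_cast hUZ
  set P := (Ia ×ˢ Ib).filter (fun uv : ℕ × ℕ => 0 < (uv.1 : ℤ) * (U' : ℤ) + uv.2 * W ∧
    (uv.1 : ℤ) * (U' : ℤ) + uv.2 * W ≤ cS * Z * (U' : ℤ) ∧
      ∃ q ∈ Q, ((D * (q * j) : ℕ) : ℤ) ∣ uv.1 * (U' : ℤ) + uv.2 * W) with hP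
  have hZr : (0 : ℝ) < Z := by exact_mod_cast hZ
  have hjr : (0 : ℝ) < j := by exact_mod_cast hj
  have hUr : (0 : ℝ) < U' := by exact_mod_cast hU1
  have hσ0 : 0 ≤ σ := le_trans (sum_nonneg fun q _ => by positivity) hσ
  have hPm : ∀ x ∈ P, (3 * Z < x.1 ∧ x.1 ≤ 4 * Z) ∧ (Z < x.2 ∧ x.2 ≤ 2 * Z) ∧
      0 < (x.1 : ℤ) * (U' : ℤ) + x.2 * W ∧ (x.1 : ℤ) * (U' : ℤ) + x.2 * W ≤ cS * Z * (U' : ℤ) ∧
      ∃ q ∈ Q, ((D * (q * j) : ℕ) : ℤ) ∣ x.1 * (U' : ℤ) + x.2 * W := by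
    intro x hx
    rw [hP, mem_filter, mem_product] at hx
    exact ⟨hIa _ hx.1.1, hIb _ hx.1.2, hx.2⟩
  set f : ℕ × ℕ → ℕ := fun x => ((x.1 : ℤ) * (U' : ℤ) + x.2 * W).toNat with hf
  -- the fibres
  have hfib : ∀ a ∈ P.image f, (P.filter fun x => f x = a).card ≤ Z / U' + 1 := by
    intro a _
    have hval : ∀ x ∈ P.filter (fun x => f x = a), (x.1 : ℤ) * (U' : ℤ) + x.2 * W = a := by
      intro x hx
      rw [mem_filter] at hx
      have h1 := (hPm x hx.1).2.2.1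
      have h2 : ((x.1 : ℤ) * (U' : ℤ) + x.2 * W) = ((f x : ℕ) : ℤ) := by
        rw [hf]
        exact (Int.toNat_of_nonneg h1.le).symm
      rw [h2, hx.2]
    have h1 : (P.filter fun x => f x = a).card = ((P.filter fun x => f x = a).image Prod.snd).card := by
      rw [card_image_of_injOn]
      intro x hx y hy hxy
      rw [mem_coe] at hx hy
      have h2 := hval x hx
      have h3 := hval y hy
      have h4 : (x.1 : ℤ) * (U' : ℤ) = y.1 * (U' : ℤ) := by
        rw [hxy] at h2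
        linarith
      have h5 : (x.1 : ℤ) = y.1 := mul_right_cancel₀ (by exact_mod_cast (by omega : U' ≠ 0)) h4
      exact Prod.ext (by exact_mod_cast h5) hxy
    rw [h1]
    refine xa2_card _ Z Z U' hU1 hZ ?_ ?_
    · intro v hv
      obtain ⟨x, hx, rfl⟩ := mem_image.1 hv
      have := (hPm x (mem_filter.1 hx).1).2.1
      omega
    · intro v hv w hw
      obtain ⟨x, hx, rfl⟩ := mem_image.1 hv
      obtain ⟨y, hy, rfl⟩ := mem_image.1 hw
      have h2 := hval x hx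
      have h3 := hval y hy
      have h4 : (U' : ℤ) ∣ ((x.2 : ℤ) - y.2) * W := ⟨(y.1 : ℤ) - x.1, by linarith⟩
      exact hUW.dvd_of_dvd_mul_right h4
  have hcard := card_le_mul_card_image (f := f) P (Z / U' + 1) hfib
  -- the values
  have himg : P.image f ⊆ Q.biUnion fun q => (Ioc 0 (cS * Z * U')).filter fun e => D * (q * j) ∣ e := by
    intro a ha
    obtain ⟨x, hx, rfl⟩ := mem_image.1 ha
    obtain ⟨-, -, h1, h2, q, hq, h3⟩ := hPm x hx
    have h4 : ((f x : ℕ) : ℤ) = (x.1 : ℤ) * (U' : ℤ) + x.2 * W := by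
      rw [hf]
      exact Int.toNat_of_nonneg h1.le
    rw [mem_biUnion]
    refine ⟨q, hq, ?_⟩
    rw [mem_filter, mem_Ioc]
    rw [← h4] at h1 h2 h3
    exact ⟨⟨by exact_mod_cast h1, by exact_mod_cast h2⟩, by exact_mod_cast h3⟩
  have hE : ((P.image f).card : ℝ) ≤ cS * Z * U' * σ / j := by
    have h1 : (P.image f).card ≤ ∑ q ∈ Q, ((Ioc 0 (cS * Z * U')).filter fun e => D * (q * j) ∣ e).card :=
      (card_le_card himg).trans card_biUnion_le
    have h2 : ((P.image f).card : ℝ) ≤ ∑ q ∈ Q, (((Ioc 0 (cS * Z * U')).filter fun e => D * (q * j) ∣ e).card : ℝ) := by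
      exact_mod_cast h1
    refine h2.trans ?_
    have h3 : ∀ q ∈ Q, (((Ioc 0 (cS * Z * U')).filter fun e => D * (q * j) ∣ e).card : ℝ) ≤
        (cS * Z * U' / j) * (1 / (q : ℝ)) := by
      intro q hq
      have hq0 : 0 < q := hQ q hq
      have hqr : (0 : ℝ) < q := by exact_mod_cast hq0
      rw [Nat.Ioc_filter_dvd_card_eq_div]
      refine (@Nat.cast_div_le ℝ _ _ _ (cS * Z * U') (D * (q * j))).trans ?_
      push_cast
      have h4 : (q : ℝ) * j ≤ D * (q * j) := by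
        have : (1 : ℝ) ≤ D := by exact_mod_cast hD
        exact le_mul_of_one_le_left (by positivity) this
      calc (cS : ℝ) * Z * U' / (D * (q * j)) ≤ cS * Z * U' / (q * j) :=
            div_le_div_of_nonneg_left (by positivity) (by positivity) h4
        _ = (cS * Z * U' / j) * (1 / (q : ℝ)) := by field_simp
    refine (sum_le_sum h3).trans ?_
    rw [← mul_sum]
    calc (cS * Z * U' / j : ℝ) * ∑ q ∈ Q, 1 / (q : ℝ) ≤ (cS * Z * U' / j) * σ :=
          mul_le_mul_of_nonneg_left hσ (by positivity)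
      _ = _ := by ring
  have hPc : (P.card : ℝ) ≤ 2 * cS * Z ^ 2 * σ / j := by
    have h1 : (P.card : ℝ) ≤ ((Z / U' + 1 : ℕ) : ℝ) * (P.image f).card := by exact_mod_cast hcard
    have h2 : ((Z / U' + 1 : ℕ) : ℝ) ≤ 2 * (Z / U') := by
      push_cast
      have h3 := @Nat.cast_div_le ℝ _ _ _ Z U'
      have h4 : (1 : ℝ) ≤ Z / U' := by
        rw [le_div_iff₀ hUr, one_mul]
        exact_mod_cast hUZ'
      linarith
    calc (P.card : ℝ) ≤ ((Z / U' + 1 : ℕ) : ℝ) * (P.image f).card := h1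
      _ ≤ (2 * (Z / U')) * (cS * Z * U' * σ / j) := mul_le_mul h2 hE (by positivity) (by positivity)
      _ = _ := by field_simp
  have hw : ∀ x ∈ P, 1 / (x.1 : ℝ) * (1 / (x.2 : ℝ)) ≤ 1 / (2 * Z ^ 2) := by
    intro x hx
    obtain ⟨h1, h2, -⟩ := hPm x hx
    have h3 : 1 / (x.1 : ℝ) ≤ 1 / (2 * Z) := one_div_le_one_div_of_le (by positivity) (by
      exact_mod_cast (by omega : 2 * Z ≤ x.1))
    have h4 : 1 / (x.2 : ℝ) ≤ 1 / Z := one_div_le_one_div_of_le hZr (by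
      exact_mod_cast (by omega : Z ≤ x.2))
    calc 1 / (x.1 : ℝ) * (1 / (x.2 : ℝ)) ≤ 1 / (2 * Z) * (1 / Z) :=
          mul_le_mul h3 h4 (by positivity) (by positivity)
      _ = 1 / (2 * Z ^ 2) := by field_simp
  refine (sum_le_sum hw).trans ?_
  rw [sum_const, nsmul_eq_mul]
  calc (P.card : ℝ) * (1 / (2 * Z ^ 2)) ≤ (2 * cS * Z ^ 2 * σ / j) * (1 / (2 * Z ^ 2)) :=
        mul_le_mul_of_nonneg_right hPc (by positivity)
    _ = cS * σ / j := by field_simp

end Pool.Agent.Lib.TE
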