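import Pool.Agent.Lib.MP_7b7e48_nt.TE.XDefs
import Pool.Agent.Lib.MP_7b7e48_nt.TE.XA1
import Pool.Agent.Lib.MP_7b7e48_nt.TE.XA2

/-!
# Module XA3 (90 minutes): sums with a divisibility condition for the linear form

PROOF of `core_a`: `marg` at `a` (with `z = 0`): for `y` fixed the inner sum over `v ∈ B a` is `∏_{f ≠ a} g f (y f)` times the sum of `1/v` over the `v` with `PF (update y a v)`, `j1 ∣ v U y + y b W y` (`SF` at `update y a v`, `h.Ua`, `h.ab`). If it is not empty, `U y ∣ ∏_{f ≠ a} y f` (`h.Udvd` at `update y a v`) is coprime to `SF`, so `IsCoprime (U y) j1`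
and `cnt1` (`X0 = 3 Z`) gives `≤ 1/j1 + 1/Z`. Then `sumF_mem` for `update B a {0}`, `h f = g f` for `f ≠ a` and `h a = 1`, `v a = 1`; the condition `∀ p ∈ S, ∃ f ∈ G, x f = p` concerns only `y` (`a ∉ G`).
`core_b`: the same with `b`: the class of `v ∈ B b` modulo `j1` is determined because `IsCoprime (W y) j1`: a prime dividing `j1` and `W` divides `SF` and `x a * U`, so it divides `SF` and `∏ x f` (`U ∣ ∏`), impossible (`PF`); `cnt1` with `X0 = Z`.
`core_ab`: `marg` at `a` and at `b`; `cnt2` (`IsCoprime U W`: a common prime divides `SF` and `U ∣ ∏ x f`); `h.Spos`, `h.Upos` (for `x ∈ piFinset B`).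
`core_0`: `sumF_mem`.
-/

set_option autoImplicit false

open Finset

namespace Pool.Agent.Lib.TE

variable {F : Type} [Fintype F] [DecidableEq F] {B : F → Finset ℕ} {a b : F} {U W : (F → ℕ) → ℤ} {Z y0 cS : ℕ}

open Classical in
private theorem XA3_one {F : Type} [Fintype F] [DecidableEq F] (B : F → Finset ℕ) (c : F) (P1 P2 : (F → ℕ) → Prop) (M : ℝ) (hM : 0 ≤ M)
    (g : F → ℕ → ℝ) (v : F → ℝ) (u : ℕ → ℝ) (S : Finset ℕ) (G : Finset F)
    (hc : c ∉ G) (h0 : ∀ f, ∀ p ∈ B f, 0 ≤ g f p) (hv : ∀ f, ∑ p ∈ B f, g f p ≤ v f) (hG : ∀ f ∈ G, v f ≤ 1) (hu0 : ∀ p ∈ S, 0 ≤ u p)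
    (hu : ∀ f ∈ G, ∀ p ∈ S, p ∈ B f → g f p ≤ u p)
    (hin : ∀ y, ∀ I ⊆ B c, (∀ w ∈ I, P1 (Function.update y c w) ∧ P2 (Function.update y c w)) → ∑ w ∈ I, 1 / (w : ℝ) ≤ M) :
    ∑ x ∈ (Fintype.piFinset B).filter (fun x => P1 x ∧ P2 x ∧ ∀ p ∈ S, ∃ f ∈ G, x f = p),
      (1 / (x c : ℝ)) * ∏ f ∈ univ.erase c, g f (x f) ≤
      M * ((G.card : ℝ) ^ S.card * (∏ p ∈ S, u p) * ∏ f ∈ (univ \ G).erase c, v f) := by
  rw [Finset.sum_filter, marg B c 0]
  have h1 : ∀ y ∈ Fintype.piFinset (Function.update B c {0}),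
      ∑ w ∈ B c, (if P1 (Function.update y c w) ∧ P2 (Function.update y c w) ∧ ∀ p ∈ S, ∃ f ∈ G, Function.update y c w f = p then
        (1 / ((Function.update y c w c : ℕ) : ℝ)) * ∏ f ∈ univ.erase c, g f (Function.update y c w f) else 0) ≤
      if ∀ p ∈ S, ∃ f ∈ G, y f = p then M * ∏ f ∈ univ.erase c, g f (y f) else 0 := by
    intro y hy
    have h2 : ∀ w, (∀ p ∈ S, ∃ f ∈ G, Function.update y c w f = p) ↔ ∀ p ∈ S, ∃ f ∈ G, y f = p := by
      intro w
      have hw : ∀ f ∈ G, Function.update y c w f = y f := fun f hf => Function.update_of_ne (ne_of_mem_of_not_mem hf hc) _ _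
      constructor
      · intro h p hp
        obtain ⟨f, hf, e⟩ := h p hp
        exact ⟨f, hf, by rw [← e, hw f hf]⟩
      · intro h p hp
        obtain ⟨f, hf, e⟩ := h p hp
        exact ⟨f, hf, by rw [hw f hf, e]⟩
    have h3 : ∀ w, ∏ f ∈ univ.erase c, g f (Function.update y c w f) = ∏ f ∈ univ.erase c, g f (y f) := fun w =>
      Finset.prod_congr rfl fun f hf => by rw [Function.update_of_ne (Finset.ne_of_mem_erase hf)]
    have hprod : 0 ≤ ∏ f ∈ univ.erase c, g f (y f) := Finset.prod_nonneg fun f hf => h0 f _ (by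
      have h5 := Fintype.mem_piFinset.mp hy f
      rwa [Function.update_of_ne (Finset.ne_of_mem_erase hf)] at h5)
    by_cases hS : ∀ p ∈ S, ∃ f ∈ G, y f = p
    · rw [if_pos hS]
      calc ∑ w ∈ B c, (if P1 (Function.update y c w) ∧ P2 (Function.update y c w) ∧ ∀ p ∈ S, ∃ f ∈ G, Function.update y c w f = p then
            (1 / ((Function.update y c w c : ℕ) : ℝ)) * ∏ f ∈ univ.erase c, g f (Function.update y c w f) else 0)
          = ∑ w ∈ B c, (if P1 (Function.update y c w) ∧ P2 (Function.update y c w) then (1 / (w : ℝ)) * ∏ f ∈ univ.erase c, g f (y f) else 0) := by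
            refine Finset.sum_congr rfl fun w _ => ?_
            rw [h3, Function.update_self]
            refine if_congr ?_ rfl rfl
            constructor
            · rintro ⟨k1, k2, _⟩
              exact ⟨k1, k2⟩
            · rintro ⟨k1, k2⟩
              exact ⟨k1, k2, (h2 w).2 hS⟩
        _ = (∑ w ∈ (B c).filter (fun w => P1 (Function.update y c w) ∧ P2 (Function.update y c w)), 1 / (w : ℝ)) *
              ∏ f ∈ univ.erase c, g f (y f) := by rw [← Finset.sum_filter, Finset.sum_mul]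
        _ ≤ M * ∏ f ∈ univ.erase c, g f (y f) := mul_le_mul_of_nonneg_right
            (hin y _ (Finset.filter_subset _ _) fun w hw => (Finset.mem_filter.mp hw).2) hprod
    · rw [if_neg hS]
      refine le_of_eq (Finset.sum_eq_zero fun w _ => ?_)
      rw [if_neg]
      rintro ⟨_, _, h⟩
      exact hS ((h2 w).1 h)
  refine (Finset.sum_le_sum h1).trans ?_
  rw [← Finset.sum_filter, ← Finset.mul_sum]
  refine mul_le_mul_of_nonneg_left ?_ hM
  have h4 := sumF_mem (Function.update B c {0}) (fun f => if f = c then fun _ => 1 else g f) (fun f => if f = c then 1 else v f) u S G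
    (by
      intro f p hp
      by_cases hf : f = c
      · simp [hf]
      · rw [Function.update_of_ne hf] at hp
        simpa [hf] using h0 f p hp)
    (by
      intro f
      by_cases hf : f = c
      · subst hf
        simp
      · rw [Function.update_of_ne hf]
        simpa [hf] using hv f)
    (by
      intro f hf
      have hfc : f ≠ c := fun e => hc (e ▸ hf)
      simpa [hfc] using hG f hf)
    hu0
    (by
      intro f hf p hp hpB
      have hfc : f ≠ c := fun e => hc (e ▸ hf)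
      rw [Function.update_of_ne hfc] at hpB
      simpa [hfc] using hu f hf p hp hpB)
  have e1 : ∀ y : F → ℕ, ∏ f, (if f = c then fun _ => (1 : ℝ) else g f) (y f) = ∏ f ∈ univ.erase c, g f (y f) := by
    intro y
    rw [← Finset.mul_prod_erase univ _ (Finset.mem_univ c), if_pos rfl, one_mul]
    exact Finset.prod_congr rfl fun f hf => by rw [if_neg (Finset.ne_of_mem_erase hf)]
  have e2 : ∏ f ∈ univ \ G, (if f = c then (1 : ℝ) else v f) = ∏ f ∈ (univ \ G).erase c, v f := by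
    rw [← Finset.mul_prod_erase (univ \ G) _ (Finset.mem_sdiff.mpr ⟨Finset.mem_univ c, hc⟩), if_pos rfl, one_mul]
    exact Finset.prod_congr rfl fun f hf => by rw [if_neg (Finset.ne_of_mem_erase hf)]
  rw [e2] at h4
  refine le_trans (le_of_eq ?_) h4
  exact Finset.sum_congr rfl fun y _ => (e1 y).symm

private theorem XA3_pow (S : Finset ℕ) (u : ℕ → ℝ) (n m : ℕ) (hnm : n ≤ m) (hu : ∀ p ∈ S, 0 ≤ u p) :
    (n : ℝ) ^ S.card * ∏ p ∈ S, u p ≤ (m : ℝ) ^ S.card * ∏ p ∈ S, u p :=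
  mul_le_mul_of_nonneg_right (pow_le_pow_left₀ (Nat.cast_nonneg _) (by exact_mod_cast hnm) _) (Finset.prod_nonneg hu)

open Classical in
theorem core_a (h : AOK B a b U W Z y0 cS) (j1 : ℕ) (hj : 1 ≤ j1) (g : F → ℕ → ℝ) (v : F → ℝ) (u : ℕ → ℝ) (S : Finset ℕ) (G : Finset F)
    (ha : a ∉ G) (h0 : ∀ f, ∀ p ∈ B f, 0 ≤ g f p) (hv : ∀ f, ∑ p ∈ B f, g f p ≤ v f) (hG : ∀ f ∈ G, v f ≤ 1) (hu0 : ∀ p ∈ S, 0 ≤ u p)
    (hu : ∀ f ∈ G, ∀ p ∈ S, p ∈ B f → g f p ≤ u p) :
    ∑ x ∈ (Fintype.piFinset B).filter (fun x => PF a b U W x ∧ (j1 : ℤ) ∣ SF a b U W x ∧ ∀ p ∈ S, ∃ f ∈ G, x f = p),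
      (1 / (x a : ℝ)) * ∏ f ∈ univ.erase a, g f (x f) ≤
      (1 / j1 + 1 / Z) * ((G.card : ℝ) ^ S.card * (∏ p ∈ S, u p) * ∏ f ∈ (univ \ G).erase a, v f) := by
  refine le_trans (le_of_eq (Finset.sum_congr (by ext x; simp only [Finset.mem_filter]) fun _ _ => rfl))
    (XA3_one B a (fun x => PF a b U W x) (fun x => (j1 : ℤ) ∣ SF a b U W x) (1 / j1 + 1 / Z) (by positivity) g v u S G ha h0 hv hG hu0 hu ?_)
  intro y I hI hIP
  have hSF : ∀ w : ℕ, SF a b U W (Function.update y a w) = w * U y + y b * W y := by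
    intro w
    rw [SF, Function.update_self, Function.update_of_ne h.ab.symm, (h.Ua y w).1, (h.Ua y w).2]
  rcases I.eq_empty_or_nonempty with he | ⟨w0, hw0⟩
  · rw [he, Finset.sum_empty]
    positivity
  · obtain ⟨hPF, hdv⟩ := hIP w0 hw0
    have hU : IsCoprime (U y) (j1 : ℤ) := by
      have h1 : U y ∣ ∏ f, ((Function.update y a w0 f : ℕ) : ℤ) := by
        have h2 := h.Udvd (Function.update y a w0)
        rw [(h.Ua y w0).1] at h2
        exact h2.trans (Finset.prod_dvd_prod_of_subset _ _ _ (Finset.erase_subset _ _))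
      exact ((hPF.2.of_isCoprime_of_dvd_left hdv).of_isCoprime_of_dvd_right h1).symm
    refine le_trans ?_ (cnt1 (B a) Z (3 * Z) h.Z1 (by omega) (fun p hp => ⟨(h.Ba p hp).1, by have := (h.Ba p hp).2; omega⟩) (U y) (y b * W y) j1 hj hU)
    refine Finset.sum_le_sum_of_subset_of_nonneg ?_ (fun _ _ _ => by positivity)
    intro w hw
    have hw3 := (hIP w hw).2
    refine Finset.mem_filter.mpr ⟨hI hw, ?_⟩
    rw [hSF] at hw3
    exact hw3

open Classical in
theorem core_b (h : AOK B a b U W Z y0 cS) (j1 : ℕ) (hj : 1 ≤ j1) (g : F → ℕ → ℝ) (v : F → ℝ) (u : ℕ → ℝ) (S : Finset ℕ) (G : Finset F)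
    (hb : b ∉ G) (h0 : ∀ f, ∀ p ∈ B f, 0 ≤ g f p) (hv : ∀ f, ∑ p ∈ B f, g f p ≤ v f) (hG : ∀ f ∈ G, v f ≤ 1) (hu0 : ∀ p ∈ S, 0 ≤ u p)
    (hu : ∀ f ∈ G, ∀ p ∈ S, p ∈ B f → g f p ≤ u p) :
    ∑ x ∈ (Fintype.piFinset B).filter (fun x => PF a b U W x ∧ (j1 : ℤ) ∣ SF a b U W x ∧ ∀ p ∈ S, ∃ f ∈ G, x f = p),
      (1 / (x b : ℝ)) * ∏ f ∈ univ.erase b, g f (x f) ≤
      (1 / j1 + 1 / Z) * ((G.card : ℝ) ^ S.card * (∏ p ∈ S, u p) * ∏ f ∈ (univ \ G).erase b, v f) := by
  refine le_trans (le_of_eq (Finset.sum_congr (by ext x; simp only [Finset.mem_filter]) fun _ _ => rfl))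
    (XA3_one B b (fun x => PF a b U W x) (fun x => (j1 : ℤ) ∣ SF a b U W x) (1 / j1 + 1 / Z) (by positivity) g v u S G hb h0 hv hG hu0 hu ?_)
  intro y I hI hIP
  have hSF : ∀ w : ℕ, SF a b U W (Function.update y b w) = w * W y + y a * U y := by
    intro w
    rw [SF, Function.update_self, Function.update_of_ne h.ab, (h.Ub y w).1, (h.Ub y w).2]
    ring
  rcases I.eq_empty_or_nonempty with he | ⟨w0, hw0⟩
  · rw [he, Finset.sum_empty]
    positivity
  · obtain ⟨hPF, hdv⟩ := hIP w0 hw0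
    have hU : IsCoprime (W y) (j1 : ℤ) := by
      have h1 : U y ∣ ∏ f, ((Function.update y b w0 f : ℕ) : ℤ) := by
        have h2 := h.Udvd (Function.update y b w0)
        rw [(h.Ub y w0).1] at h2
        exact h2.trans (Finset.prod_dvd_prod_of_subset _ _ _ (Finset.erase_subset _ _))
      have h3 : (y a : ℤ) ∣ ∏ f, ((Function.update y b w0 f : ℕ) : ℤ) := by
        have h4 := Finset.dvd_prod_of_mem (fun f => ((Function.update y b w0 f : ℕ) : ℤ)) (Finset.mem_univ a)
        simpa [Function.update_of_ne h.ab] using h4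
      have hj0 := hPF.2.of_isCoprime_of_dvd_left hdv
      have h5 : IsCoprime (j1 : ℤ) (y a * U y) := (hj0.of_isCoprime_of_dvd_right h3).mul_right (hj0.of_isCoprime_of_dvd_right h1)
      rw [hSF] at hdv
      obtain ⟨d, hd⟩ := hdv
      have h6 : IsCoprime (j1 : ℤ) (w0 * W y) := by
        have h7 : (w0 : ℤ) * W y = -(y a * U y) + j1 * d := by linarith
        rw [h7]
        exact h5.neg_right.add_mul_left_right d
      exact (h6.of_mul_right_right).symm
    refine le_trans ?_ (cnt1 (B b) Z Z h.Z1 (le_refl _) (fun p hp => ⟨(h.Bb p hp).1, by have := (h.Bb p hp).2; omega⟩) (W y) (y a * U y) j1 hj hU)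
    refine Finset.sum_le_sum_of_subset_of_nonneg ?_ (fun _ _ _ => by positivity)
    intro w hw
    have hw3 := (hIP w hw).2
    refine Finset.mem_filter.mpr ⟨hI hw, ?_⟩
    rw [hSF] at hw3
    exact hw3

open Classical in
theorem core_ab (h : AOK B a b U W Z y0 cS) (D j1 : ℕ) (hD : 1 ≤ D) (hj : 1 ≤ j1) (Q : Finset ℕ) (hQ : ∀ q ∈ Q, 0 < q) (σ : ℝ)
    (hσ : ∑ q ∈ Q, 1 / (q : ℝ) ≤ σ) (S : Finset ℕ) (G : Finset F) (ha : a ∉ G) (hb : b ∉ G) (hS : ∀ p ∈ S, 0 < p) :
    ∑ x ∈ (Fintype.piFinset B).filter (fun x => PF a b U W x ∧ (∃ q ∈ Q, ((D * (q * j1) : ℕ) : ℤ) ∣ SF a b U W x) ∧ ∀ p ∈ S, ∃ f ∈ G, x f = p),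
      wF x ≤ cS * σ / j1 * ((G.card : ℝ) ^ S.card * ∏ p ∈ S, 1 / (p : ℝ)) := by
  have hσ0 : 0 ≤ σ := le_trans (Finset.sum_nonneg fun _ _ => by positivity) hσ
  have hM : 0 ≤ cS * σ / (j1 : ℝ) := by positivity
  obtain ⟨P, hP⟩ : ∃ P : (F → ℕ) → Prop, P = fun x => PF a b U W x ∧ ∃ q ∈ Q, ((D * (q * j1) : ℕ) : ℤ) ∣ SF a b U W x := ⟨_, rfl⟩
  have hba : b ≠ a := h.ab.symm
  -- the double update
  obtain ⟨T2, hT2⟩ : ∃ T2 : (F → ℕ) → ℕ → ℕ → (F → ℕ), T2 = fun y w z => Function.update (Function.update y b z) a w := ⟨_, rfl⟩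
  have t1 : ∀ y w z, T2 y w z a = w := fun y w z => by rw [hT2]; simp
  have t2 : ∀ y w z, T2 y w z b = z := fun y w z => by rw [hT2]; simp [hba]
  have t3 : ∀ y w z f, f ≠ a → f ≠ b → T2 y w z f = y f := fun y w z f h1 h2 => by rw [hT2]; simp [h1, h2]
  have hUT : ∀ y w z, U (T2 y w z) = U y := fun y w z => by rw [hT2]; simp only []; rw [(h.Ua _ w).1, (h.Ub y z).1]
  have hWT : ∀ y w z, W (T2 y w z) = W y := fun y w z => by rw [hT2]; simp only []; rw [(h.Ua _ w).2, (h.Ub y z).2]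
  have hST : ∀ y w z, SF a b U W (T2 y w z) = w * U y + z * W y := fun y w z => by
    rw [SF, t1, t2, hUT, hWT]
  have hcond : ∀ y w z, (∀ p ∈ S, ∃ f ∈ G, T2 y w z f = p) ↔ ∀ p ∈ S, ∃ f ∈ G, y f = p := by
    intro y w z
    have hw : ∀ f ∈ G, T2 y w z f = y f := fun f hf => t3 y w z f (fun e => ha (e ▸ hf)) (fun e => hb (e ▸ hf))
    constructor
    · intro h p hp
      obtain ⟨f, hf, e⟩ := h p hp
      exact ⟨f, hf, by rw [← e, hw f hf]⟩
    · intro h p hp
      obtain ⟨f, hf, e⟩ := h p hp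
      exact ⟨f, hf, by rw [hw f hf, e]⟩
  have hwT : ∀ y w z, wF (T2 y w z) = 1 / (w : ℝ) * (1 / (z : ℝ)) * ∏ f ∈ (univ.erase a).erase b, 1 / (y f : ℝ) := by
    intro y w z
    rw [wF, ← Finset.mul_prod_erase univ _ (Finset.mem_univ a), ← Finset.mul_prod_erase (univ.erase a) _ (Finset.mem_erase.mpr ⟨hba, Finset.mem_univ b⟩),
      t1, t2, mul_assoc]
    congr 2
    exact Finset.prod_congr rfl fun f hf => by
      rw [t3 y w z f (Finset.ne_of_mem_erase (Finset.mem_of_mem_erase hf)) (Finset.ne_of_mem_erase hf)]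
  obtain ⟨B2, hB2⟩ : ∃ B2 : F → Finset ℕ, B2 = Function.update (Function.update B a {0}) b {0} := ⟨_, rfl⟩
  have hB2' : ∀ f, f ≠ a → f ≠ b → B2 f = B f := fun f h1 h2 => by rw [hB2]; simp [h1, h2]
  have hB2a : B2 a = {0} := by rw [hB2]; simp [h.ab]
  have hB2b : B2 b = {0} := by rw [hB2]; simp
  rw [Finset.sum_filter, marg B a 0, Finset.sum_comm]
  have h1 : ∀ w ∈ B a, ∑ y ∈ Fintype.piFinset (Function.update B a {0}),
      (if PF a b U W (Function.update y a w) ∧ (∃ q ∈ Q, ((D * (q * j1) : ℕ) : ℤ) ∣ SF a b U W (Function.update y a w)) ∧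
        ∀ p ∈ S, ∃ f ∈ G, Function.update y a w f = p then wF (Function.update y a w) else 0) =
      ∑ y ∈ Fintype.piFinset B2, ∑ z ∈ B b, (if P (T2 y w z) ∧ ∀ p ∈ S, ∃ f ∈ G, y f = p then wF (T2 y w z) else 0) := by
    intro w _
    rw [marg (Function.update B a {0}) b 0, ← hB2, Function.update_of_ne hba]
    refine Finset.sum_congr rfl fun y _ => Finset.sum_congr rfl fun z _ => ?_
    have e : Function.update (Function.update y b z) a w = T2 y w z := by rw [hT2]
    rw [e]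
    refine if_congr ?_ rfl rfl
    rw [← and_assoc, hcond y w z, hP]
  rw [Finset.sum_congr rfl h1, Finset.sum_comm]
  have h2 : ∀ y ∈ Fintype.piFinset B2, ∑ w ∈ B a, ∑ z ∈ B b, (if P (T2 y w z) ∧ ∀ p ∈ S, ∃ f ∈ G, y f = p then wF (T2 y w z) else 0) ≤
      if ∀ p ∈ S, ∃ f ∈ G, y f = p then cS * σ / j1 * ∏ f ∈ (univ.erase a).erase b, 1 / (y f : ℝ) else 0 := by
    intro y hy
    have hprod : 0 ≤ ∏ f ∈ (univ.erase a).erase b, 1 / (y f : ℝ) := Finset.prod_nonneg fun f _ => by positivity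
    by_cases hSy : ∀ p ∈ S, ∃ f ∈ G, y f = p
    · rw [if_pos hSy]
      have e1 : ∑ w ∈ B a, ∑ z ∈ B b, (if P (T2 y w z) ∧ ∀ p ∈ S, ∃ f ∈ G, y f = p then wF (T2 y w z) else 0) =
          (∑ uv ∈ (B a ×ˢ B b).filter (fun uv : ℕ × ℕ => P (T2 y uv.1 uv.2)), 1 / (uv.1 : ℝ) * (1 / (uv.2 : ℝ))) *
            ∏ f ∈ (univ.erase a).erase b, 1 / (y f : ℝ) := by
        rw [Finset.sum_mul, Finset.sum_filter, Finset.sum_product]
        refine Finset.sum_congr rfl fun w _ => Finset.sum_congr rfl fun z _ => ?_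
        rw [hwT]
        exact if_congr ⟨fun k => k.1, fun k => ⟨k, hSy⟩⟩ rfl rfl
      rw [e1]
      refine mul_le_mul_of_nonneg_right ?_ hprod
      rcases Finset.eq_empty_or_nonempty ((B a ×ˢ B b).filter (fun uv : ℕ × ℕ => P (T2 y uv.1 uv.2))) with he | ⟨uv, huv⟩
      · rw [he, Finset.sum_empty]
        exact hM
      · have hmem : ∀ w ∈ B a, ∀ z ∈ B b, T2 y w z ∈ Fintype.piFinset B := by
          intro w hw z hz
          rw [Fintype.mem_piFinset]
          intro f
          by_cases hfa : f = a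
          · rw [hfa, t1]
            exact hw
          · by_cases hfb : f = b
            · rw [hfb, t2]
              exact hz
            · rw [t3 y w z f hfa hfb, ← hB2' f hfa hfb]
              exact Fintype.mem_piFinset.mp hy f
        obtain ⟨huv1, huv2⟩ := Finset.mem_filter.mp huv
        obtain ⟨hu1, hu2⟩ := Finset.mem_product.mp huv1
        have hx := hmem uv.1 hu1 uv.2 hu2
        have hUp := h.Upos _ hx
        rw [hUT] at hUp
        have hUW : IsCoprime (U y) (W y) := by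
          rw [hP] at huv2
          have h3 := huv2.1.2
          have h4 : U y ∣ ∏ f, ((T2 y uv.1 uv.2 f : ℕ) : ℤ) := by
            have h5 := h.Udvd (T2 y uv.1 uv.2)
            rw [hUT] at h5
            exact h5.trans (Finset.prod_dvd_prod_of_subset _ _ _ (Finset.erase_subset _ _))
          have h6 := (h3.of_isCoprime_of_dvd_right h4).symm
          rw [hST] at h6
          have h7 : IsCoprime (U y) (uv.2 * W y) := by
            have h8 : (uv.2 : ℤ) * W y = (uv.1 * U y + uv.2 * W y) + U y * (-(uv.1 : ℤ)) := by ring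
            rw [h8]
            exact h6.add_mul_left_right _
          exact h7.of_mul_right_right
        refine le_trans ?_ (cnt2 (B a) (B b) Z h.Z1 h.Ba h.Bb (U y) (W y) hUp.1 hUp.2 hUW D j1 cS hD hj Q hQ σ hσ)
        refine Finset.sum_le_sum_of_subset_of_nonneg ?_ (fun _ _ _ => by positivity)
        intro wz hwz
        obtain ⟨hwz1, hwz2⟩ := Finset.mem_filter.mp hwz
        obtain ⟨hw1, hw2⟩ := Finset.mem_product.mp hwz1
        have hx' := h.Spos _ (hmem wz.1 hw1 wz.2 hw2)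
        rw [hST, hUT] at hx'
        refine Finset.mem_filter.mpr ⟨hwz1, hx'.1, hx'.2, ?_⟩
        rw [hP] at hwz2
        obtain ⟨q, hq, hq2⟩ := hwz2.2
        rw [hST] at hq2
        exact ⟨q, hq, hq2⟩
    · rw [if_neg hSy]
      refine le_of_eq (Finset.sum_eq_zero fun w _ => Finset.sum_eq_zero fun z _ => ?_)
      rw [if_neg]
      rintro ⟨_, k⟩
      exact hSy k
  refine (Finset.sum_le_sum h2).trans ?_
  rw [← Finset.sum_filter, ← Finset.mul_sum]
  refine mul_le_mul_of_nonneg_left ?_ hM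
  have h4 := sumF_mem B2 (fun f => if f = a ∨ f = b then fun _ => 1 else fun p => 1 / (p : ℝ)) (fun _ => 1) (fun p => 1 / (p : ℝ)) S G
    (by
      intro f p _
      by_cases hf : f = a ∨ f = b
      · simp [hf]
      · simp [hf])
    (by
      intro f
      by_cases hf : f = a ∨ f = b
      · have e : B2 f = {0} := by
          rcases hf with hf | hf
          · rw [hf, hB2a]
          · rw [hf, hB2b]
        rw [e]
        simp [hf]
      · have e := hB2' f (fun k => hf (Or.inl k)) (fun k => hf (Or.inr k))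
        rw [e]
        simpa [hf] using h.sum f)
    (fun _ _ => le_refl _)
    (fun _ _ => by positivity)
    (by
      intro f hf p hp _
      have hfc : ¬ (f = a ∨ f = b) := by
        rintro (e | e)
        · exact ha (e ▸ hf)
        · exact hb (e ▸ hf)
      simp [hfc])
  rw [Finset.prod_const_one, mul_one] at h4
  refine le_trans (le_of_eq ?_) h4
  refine Finset.sum_congr rfl fun y _ => ?_
  rw [← Finset.mul_prod_erase univ _ (Finset.mem_univ a), ← Finset.mul_prod_erase (univ.erase a) _ (Finset.mem_erase.mpr ⟨hba, Finset.mem_univ b⟩),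
    if_pos (Or.inl rfl), if_pos (Or.inr rfl), one_mul, one_mul]
  refine Finset.prod_congr rfl fun f hf => ?_
  rw [if_neg]
  rintro (e | e)
  · exact (Finset.ne_of_mem_erase (Finset.mem_of_mem_erase hf)) e
  · exact (Finset.ne_of_mem_erase hf) e

open Classical in
theorem core_0 (h : AOK B a b U W Z y0 cS) (f0 : F) (Q : Finset ℕ) (σ : ℝ) (hσ : ∑ q ∈ Q, 1 / (q : ℝ) ≤ σ) (S : Finset ℕ) (hS : ∀ p ∈ S, 0 < p) :
    ∑ x ∈ (Fintype.piFinset B).filter (fun x => ∀ p ∈ S, ∃ f, x f = p), wF x ≤ (Fintype.card F : ℝ) ^ S.card * ∏ p ∈ S, 1 / (p : ℝ) ∧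
    ∑ x ∈ (Fintype.piFinset B).filter (fun x => x f0 ∈ Q ∧ ∀ p ∈ S, ∃ f ∈ univ.erase f0, x f = p), wF x ≤
      σ * ((Fintype.card F : ℝ) ^ S.card * ∏ p ∈ S, 1 / (p : ℝ)) := by
  have hσ0 : 0 ≤ σ := le_trans (Finset.sum_nonneg fun _ _ => by positivity) hσ
  constructor
  · have h4 := sumF_mem B (fun _ p => 1 / (p : ℝ)) (fun _ => 1) (fun p => 1 / (p : ℝ)) S univ
      (fun _ _ _ => by positivity) h.sum (fun _ _ => le_refl _) (fun _ _ => by positivity) (fun _ _ _ _ _ => le_refl _)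
    rw [Finset.prod_const_one, mul_one, Finset.card_univ] at h4
    refine le_trans (le_of_eq ?_) h4
    refine Finset.sum_congr ?_ fun x _ => rfl
    refine Finset.filter_congr fun x _ => ?_
    simp
  · have h4 := sumF_mem B (fun f p => if f = f0 then (if p ∈ Q then 1 / (p : ℝ) else 0) else 1 / (p : ℝ)) (fun f => if f = f0 then σ else 1)
      (fun p => 1 / (p : ℝ)) S (univ.erase f0)
      (by
        intro f p _
        split_ifs <;> positivity)
      (by
        intro f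
        by_cases hf : f = f0
        · simp only [hf, if_true]
          rw [← Finset.sum_filter]
          refine le_trans (Finset.sum_le_sum_of_subset_of_nonneg ?_ (fun _ _ _ => by positivity)) hσ
          intro p hp
          exact (Finset.mem_filter.mp hp).2
        · simpa [hf] using h.sum f)
      (by
        intro f hf
        simp [Finset.ne_of_mem_erase hf])
      (fun _ _ => by positivity)
      (by
        intro f hf p _ _
        simp [Finset.ne_of_mem_erase hf])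
    have e1 : (univ \ univ.erase f0 : Finset F) = {f0} := by
      ext f
      simp
    rw [e1, Finset.prod_singleton, if_pos rfl] at h4
    have h5 : ∑ x ∈ (Fintype.piFinset B).filter (fun x => x f0 ∈ Q ∧ ∀ p ∈ S, ∃ f ∈ univ.erase f0, x f = p), wF x =
        ∑ x ∈ (Fintype.piFinset B).filter (fun x => ∀ p ∈ S, ∃ f ∈ univ.erase f0, x f = p),
          ∏ f, (if f = f0 then (if x f ∈ Q then 1 / (x f : ℝ) else 0) else 1 / (x f : ℝ)) := by
      have h6 : (Fintype.piFinset B).filter (fun x => x f0 ∈ Q ∧ ∀ p ∈ S, ∃ f ∈ univ.erase f0, x f = p) =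
          ((Fintype.piFinset B).filter (fun x => ∀ p ∈ S, ∃ f ∈ univ.erase f0, x f = p)).filter (fun x => x f0 ∈ Q) := by
        ext x
        simp only [Finset.mem_filter]
        tauto
      rw [h6, Finset.sum_filter]
      refine Finset.sum_congr rfl fun x _ => ?_
      rw [wF, ← Finset.mul_prod_erase univ _ (Finset.mem_univ f0),
        ← Finset.mul_prod_erase univ (fun f => if f = f0 then (if x f ∈ Q then 1 / (x f : ℝ) else 0) else 1 / (x f : ℝ)) (Finset.mem_univ f0), if_pos rfl]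
      have h7 : ∏ f ∈ univ.erase f0, (if f = f0 then (if x f ∈ Q then 1 / (x f : ℝ) else 0) else 1 / (x f : ℝ)) = ∏ f ∈ univ.erase f0, 1 / (x f : ℝ) :=
        Finset.prod_congr rfl fun f hf => if_neg (Finset.ne_of_mem_erase hf)
      rw [h7]
      by_cases hq : x f0 ∈ Q
      · rw [if_pos hq, if_pos hq]
      · rw [if_neg hq, if_neg hq, zero_mul]
    rw [h5]
    refine (le_trans (le_of_eq (Finset.sum_congr (by ext x; simp only [Finset.mem_filter]) fun _ _ => rfl)) h4).trans ?_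
    rw [mul_comm]
    refine mul_le_mul_of_nonneg_left ?_ hσ0
    exact XA3_pow S _ _ _ (by rw [← Finset.card_univ]; exact Finset.card_le_card (Finset.erase_subset _ _)) (fun _ _ => by positivity)

end Pool.Agent.Lib.TE
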