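import Pool.Agent.Lib.MP_7b7e48_nt.TE.XA3

/-!
# Module XA4 (75 minutes): the condition (W1), abstract form

PROOF. Sum over the `≤ τ(j)` pairs `(j1, j2)`. Fix one with a non-empty sum. `x` is injective with prime values, so `∏ x f` is squarefree, `j2` is squarefree, `S := j2.primeFactors`, `∏ S = j2`, every `p ∈ S` is some `x f`, and `p > y0 ≥ (card F)^4`, so `(card F)^#S ≤ j2^(1/4)` (`num_j2`).
Tuples with all primes of `S` at coordinates `≠ a`: `core_a` with `G = univ.erase a`, `g f p = u p = 1/p`, `v f = 1` (`wF x = (1/x a) ∏_{f ≠ a} 1/x f`): `≤ (1/j1 + 1/Z) (card F)^#S/j2 ≤ (1/j1 + 1/Z) j2^(-3/4) ≤ j^(-3/4) + Z^(-3/4)`.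
The others: `x a ∈ S`, so `3 Z < x a ≤ j2`; `core_0`: `≤ (card F)^#S/j2 ≤ j2^(-3/4) ≤ Z^(-3/4)`.
-/

set_option autoImplicit false

open Finset

namespace Pool.Agent.Lib.TE

variable {F : Type} [Fintype F] [DecidableEq F] {B : F → Finset ℕ} {a b : F} {U W : (F → ℕ) → ℤ} {Z y0 cS : ℕ}

private theorem XA4_sqf {x : F → ℕ} (hp : ∀ f, (x f).Prime) (hi : Function.Injective x) : Squarefree (∏ f, x f) := by
  rw [Nat.squarefree_iff_prime_squarefree]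
  intro q hq hqq
  have h1 : q ∣ ∏ f, x f := (Dvd.intro _ rfl).trans hqq
  obtain ⟨f, _, hf⟩ := (hq.prime.dvd_finsetProd_iff _).1 h1
  have hqf : q = x f := (Nat.prime_dvd_prime_iff_eq hq (hp f)).1 hf
  rw [← Finset.mul_prod_erase univ x (mem_univ f), ← hqf] at hqq
  have h2 : q ∣ ∏ g ∈ univ.erase f, x g := Nat.dvd_of_mul_dvd_mul_left hq.pos hqq
  obtain ⟨g, hg, hg2⟩ := (hq.prime.dvd_finsetProd_iff _).1 h2
  have hqg : q = x g := (Nat.prime_dvd_prime_iff_eq hq (hp g)).1 hg2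
  exact (Finset.ne_of_mem_erase hg) (hi (hqg.symm.trans hqf))

/-- the primes of a divisor of `∏ x f` -/
theorem num_j2 (h : AOK B a b U W Z y0 cS) {x : F → ℕ} (hx : x ∈ Fintype.piFinset B) (hi : Function.Injective x) {j2 : ℕ}
    (hj : j2 ∣ ∏ f, x f) : Squarefree j2 ∧ (∏ p ∈ j2.primeFactors, p = j2) ∧ (∀ p ∈ j2.primeFactors, ∃ f, x f = p) ∧
      (Fintype.card F : ℝ) ^ j2.primeFactors.card ≤ (j2 : ℝ) ^ ((1 : ℝ) / 4) := by
  have hx' : ∀ f, x f ∈ B f := fun f => Fintype.mem_piFinset.1 hx f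
  have hp : ∀ f, (x f).Prime := fun f => (h.pr f _ (hx' f)).1
  have hsq : Squarefree j2 := (XA4_sqf hp hi).squarefree_of_dvd hj
  have hprod : ∏ p ∈ j2.primeFactors, p = j2 := Nat.prod_primeFactors_of_squarefree hsq
  have hmem : ∀ p ∈ j2.primeFactors, ∃ f, x f = p := by
    intro p hpj
    have hpp : p.Prime := Nat.prime_of_mem_primeFactors hpj
    have h1 : p ∣ ∏ f, x f := (Nat.dvd_of_mem_primeFactors hpj).trans hj
    obtain ⟨f, _, hf⟩ := (hpp.prime.dvd_finsetProd_iff _).1 h1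
    exact ⟨f, ((Nat.prime_dvd_prime_iff_eq hpp (hp f)).1 hf).symm⟩
  refine ⟨hsq, hprod, hmem, ?_⟩
  have h1 : ∀ p ∈ j2.primeFactors, (Fintype.card F : ℝ) ≤ (p : ℝ) ^ ((1 : ℝ) / 4) := by
    intro p hpj
    obtain ⟨f, hf⟩ := hmem p hpj
    have h2 : y0 < p := by rw [← hf]; exact (h.pr f _ (hx' f)).2
    have h3 : ((Fintype.card F : ℝ)) ^ 4 ≤ (p : ℝ) := by
      have := h.card.trans h2.le
      exact_mod_cast this
    have h4 : ((Fintype.card F : ℝ) ^ 4) ^ ((1 : ℝ) / 4) = (Fintype.card F : ℝ) := by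
      rw [← Real.rpow_natCast, ← Real.rpow_mul (Nat.cast_nonneg _)]
      norm_num
    calc (Fintype.card F : ℝ) = ((Fintype.card F : ℝ) ^ 4) ^ ((1 : ℝ) / 4) := h4.symm
      _ ≤ (p : ℝ) ^ ((1 : ℝ) / 4) := Real.rpow_le_rpow (by positivity) h3 (by norm_num)
  calc (Fintype.card F : ℝ) ^ j2.primeFactors.card = ∏ p ∈ j2.primeFactors, (Fintype.card F : ℝ) := by
        rw [Finset.prod_const]
    _ ≤ ∏ p ∈ j2.primeFactors, (p : ℝ) ^ ((1 : ℝ) / 4) :=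
        Finset.prod_le_prod (fun p _ => Nat.cast_nonneg _) h1
    _ = (∏ p ∈ j2.primeFactors, (p : ℝ)) ^ ((1 : ℝ) / 4) :=
        Real.finsetProd_rpow _ _ (fun p _ => Nat.cast_nonneg _) _
    _ = (j2 : ℝ) ^ ((1 : ℝ) / 4) := by
        rw [← Nat.cast_prod, hprod]

private theorem XA4_wF_nonneg (x : F → ℕ) : 0 ≤ wF x := by
  unfold wF
  exact Finset.prod_nonneg fun f _ => by positivity

private theorem XA4_biUnion {ι : Type*} [DecidableEq ι] [DecidableEq (F → ℕ)] (J : Finset ι) (t : ι → Finset (F → ℕ)) :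
    ∑ x ∈ J.biUnion t, wF x ≤ ∑ i ∈ J, ∑ x ∈ t i, wF x := by
  induction J using Finset.induction_on with
  | empty => simp
  | insert i J hi ih =>
    rw [Finset.biUnion_insert, Finset.sum_insert hi]
    have h1 := Finset.sum_union_inter (s₁ := t i) (s₂ := J.biUnion t) (f := fun x => wF x)
    have h2 : 0 ≤ ∑ x ∈ t i ∩ J.biUnion t, wF x := Finset.sum_nonneg fun x _ => XA4_wF_nonneg x
    linarith

open Classical in
private theorem XA4_pair (h : AOK B a b U W Z y0 cS) (j1 j2 : ℕ) (hj1 : 1 ≤ j1) (hj2 : 1 ≤ j2) :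
    ∑ x ∈ (Fintype.piFinset B).filter (fun x => PF a b U W x ∧ (j1 : ℤ) ∣ SF a b U W x ∧ j2 ∣ ∏ f, x f), wF x ≤
      ((j1 * j2 : ℕ) : ℝ) ^ (-(3 / 4) : ℝ) + 2 * (Z : ℝ) ^ (-(3 / 4) : ℝ) := by
  have hR : 0 ≤ ((j1 * j2 : ℕ) : ℝ) ^ (-(3 / 4) : ℝ) + 2 * (Z : ℝ) ^ (-(3 / 4) : ℝ) := by positivity
  rcases Finset.eq_empty_or_nonempty ((Fintype.piFinset B).filter
    (fun x => PF a b U W x ∧ (j1 : ℤ) ∣ SF a b U W x ∧ j2 ∣ ∏ f, x f)) with he | ⟨x0, hx0⟩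
  · rw [he, Finset.sum_empty]
    exact hR
  rw [Finset.mem_filter] at hx0
  obtain ⟨hx0B, hx0P, _, hx0d⟩ := hx0
  obtain ⟨hsq, hprod, _, hcard⟩ := num_j2 h hx0B hx0P.1 hx0d
  set S := j2.primeFactors with hS
  have hj1R : (1 : ℝ) ≤ j1 := by exact_mod_cast hj1
  have hj2R : (1 : ℝ) ≤ j2 := by exact_mod_cast hj2
  have hZR : (1 : ℝ) ≤ Z := by exact_mod_cast h.Z1
  have hj2pos : (0 : ℝ) < j2 := lt_of_lt_of_le one_pos hj2R
  have hSprod : ∏ p ∈ S, 1 / (p : ℝ) = 1 / (j2 : ℝ) := by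
    rw [Finset.prod_div_distrib, Finset.prod_const_one, ← Nat.cast_prod, hprod]
  have hkey : (Fintype.card F : ℝ) ^ S.card * ∏ p ∈ S, 1 / (p : ℝ) ≤ (j2 : ℝ) ^ (-(3 / 4) : ℝ) := by
    rw [hSprod]
    have h1 : (j2 : ℝ) ^ (-(3 / 4) : ℝ) = (j2 : ℝ) ^ ((1 : ℝ) / 4) * (1 / (j2 : ℝ)) := by
      rw [one_div (j2 : ℝ), ← Real.rpow_neg_one, ← Real.rpow_add hj2pos]
      norm_num
    rw [h1]
    exact mul_le_mul_of_nonneg_right hcard (by positivity)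
  have hZneg : (1 : ℝ) / Z ≤ (Z : ℝ) ^ (-(3 / 4) : ℝ) := by
    rw [one_div, ← Real.rpow_neg_one]
    exact Real.rpow_le_rpow_of_exponent_le hZR (by norm_num)
  -- the tuples with the primes of `S` at coordinates different from `a`
  have hA : ∀ T : Finset (F → ℕ), (∀ x ∈ T, x ∈ Fintype.piFinset B ∧ PF a b U W x ∧ (j1 : ℤ) ∣ SF a b U W x ∧
      ∀ p ∈ S, ∃ f ∈ univ.erase a, x f = p) → ∑ x ∈ T, wF x ≤
      ((j1 * j2 : ℕ) : ℝ) ^ (-(3 / 4) : ℝ) + (Z : ℝ) ^ (-(3 / 4) : ℝ) := by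
    intro T hT
    have hc := core_a h j1 hj1 (fun _ p => 1 / (p : ℝ)) (fun _ => 1) (fun p => 1 / (p : ℝ)) S (univ.erase a)
      (Finset.notMem_erase a univ) (fun f p _ => by positivity) (fun f => h.sum f) (fun f _ => le_refl _)
      (fun p _ => by positivity) (fun f _ p _ _ => le_refl _)
    have hw : ∀ x : F → ℕ, wF x = (1 / (x a : ℝ)) * ∏ f ∈ univ.erase a, 1 / (x f : ℝ) := by
      intro x
      unfold wF
      exact (Finset.mul_prod_erase univ (fun f => 1 / (x f : ℝ)) (mem_univ a)).symm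
    have hc2 : (1 / (j1 : ℝ) + 1 / Z) * (((univ.erase a).card : ℝ) ^ S.card * (∏ p ∈ S, 1 / (p : ℝ)) *
        ∏ f ∈ (univ \ univ.erase a).erase a, (fun _ => (1 : ℝ)) f) ≤ (1 / (j1 : ℝ) + 1 / Z) * (j2 : ℝ) ^ (-(3 / 4) : ℝ) := by
      refine mul_le_mul_of_nonneg_left ?_ (by positivity)
      rw [Finset.prod_const_one, mul_one]
      refine le_trans (mul_le_mul_of_nonneg_right ?_ (Finset.prod_nonneg fun p _ => by positivity)) hkey
      refine pow_le_pow_left₀ (Nat.cast_nonneg _) ?_ _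
      exact_mod_cast (Finset.card_le_univ (univ.erase a))
    have hfin : (1 / (j1 : ℝ) + 1 / Z) * (j2 : ℝ) ^ (-(3 / 4) : ℝ) ≤
        ((j1 * j2 : ℕ) : ℝ) ^ (-(3 / 4) : ℝ) + (Z : ℝ) ^ (-(3 / 4) : ℝ) := by
      calc (1 / (j1 : ℝ) + 1 / Z) * (j2 : ℝ) ^ (-(3 / 4) : ℝ)
          = 1 / (j1 : ℝ) * (j2 : ℝ) ^ (-(3 / 4) : ℝ) + 1 / Z * (j2 : ℝ) ^ (-(3 / 4) : ℝ) := by ring
        _ ≤ (j1 : ℝ) ^ (-(3 / 4) : ℝ) * (j2 : ℝ) ^ (-(3 / 4) : ℝ) + (Z : ℝ) ^ (-(3 / 4) : ℝ) * 1 := by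
            refine add_le_add (mul_le_mul_of_nonneg_right ?_ (by positivity)) (mul_le_mul hZneg ?_ (by positivity) (by positivity))
            · rw [one_div, ← Real.rpow_neg_one]
              exact Real.rpow_le_rpow_of_exponent_le hj1R (by norm_num)
            · exact Real.rpow_le_one_of_one_le_of_nonpos hj2R (by norm_num)
        _ = _ := by
            rw [mul_one, Nat.cast_mul, Real.mul_rpow (by positivity) (by positivity)]
    refine le_trans (le_trans ?_ hc) (hc2.trans hfin)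
    rw [Finset.sum_congr rfl fun x _ => hw x]
    refine Finset.sum_le_sum_of_subset_of_nonneg ?_ fun x _ _ => ?_
    · intro x hx
      rw [Finset.mem_filter]
      exact hT x hx
    · exact mul_nonneg (by positivity) (Finset.prod_nonneg fun f _ => by positivity)
  have hB : ∀ T : Finset (F → ℕ), (∀ x ∈ T, x ∈ Fintype.piFinset B ∧ (∀ p ∈ S, ∃ f, x f = p) ∧ x a ∈ S) →
      ∑ x ∈ T, wF x ≤ (Z : ℝ) ^ (-(3 / 4) : ℝ) := by
    intro T hT
    rcases Finset.eq_empty_or_nonempty T with he | ⟨x1, hx1⟩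
    · rw [he, Finset.sum_empty]
      positivity
    obtain ⟨hx1B, _, hx1a⟩ := hT x1 hx1
    have h3 : 3 * Z < x1 a := (h.Ba _ (Fintype.mem_piFinset.1 hx1B a)).1
    have h4 : x1 a ≤ j2 := Nat.le_of_dvd hj2 (Nat.dvd_of_mem_primeFactors hx1a)
    have h5 : (Z : ℝ) ≤ j2 := by
      have : Z ≤ j2 := by omega
      exact_mod_cast this
    have hc := (core_0 h a ∅ 0 (by simp) S (fun p hp => (Nat.prime_of_mem_primeFactors hp).pos)).1
    refine le_trans (le_trans ?_ hc) (hkey.trans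
      (Real.rpow_le_rpow_of_nonpos (lt_of_lt_of_le one_pos hZR) h5 (by norm_num)))
    refine Finset.sum_le_sum_of_subset_of_nonneg ?_ fun x _ _ => XA4_wF_nonneg x
    intro x hx
    rw [Finset.mem_filter]
    exact ⟨(hT x hx).1, (hT x hx).2.1⟩
  have hm : ∀ x ∈ (Fintype.piFinset B).filter (fun x => PF a b U W x ∧ (j1 : ℤ) ∣ SF a b U W x ∧ j2 ∣ ∏ f, x f),
      x ∈ Fintype.piFinset B ∧ PF a b U W x ∧ (j1 : ℤ) ∣ SF a b U W x ∧ ∀ p ∈ S, ∃ f, x f = p := by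
    intro x hx
    rw [Finset.mem_filter] at hx
    obtain ⟨hxB, hxP, hx1, hx2⟩ := hx
    exact ⟨hxB, hxP, hx1, (num_j2 h hxB hxP.1 hx2).2.2.1⟩
  rw [← Finset.sum_filter_add_sum_filter_not _ (fun x : F → ℕ => x a ∈ S)]
  have h1 := hB (((Fintype.piFinset B).filter (fun x => PF a b U W x ∧ (j1 : ℤ) ∣ SF a b U W x ∧ j2 ∣ ∏ f, x f)).filter
    (fun x => x a ∈ S)) (by
      intro x hx
      rw [Finset.mem_filter] at hx
      exact ⟨(hm x hx.1).1, (hm x hx.1).2.2.2, hx.2⟩)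
  have h2 := hA (((Fintype.piFinset B).filter (fun x => PF a b U W x ∧ (j1 : ℤ) ∣ SF a b U W x ∧ j2 ∣ ∏ f, x f)).filter
    (fun x => ¬ x a ∈ S)) (by
      intro x hx
      rw [Finset.mem_filter] at hx
      obtain ⟨g1, g2, g3, g4⟩ := hm x hx.1
      refine ⟨g1, g2, g3, fun p hp => ?_⟩
      obtain ⟨f, hf⟩ := g4 p hp
      refine ⟨f, Finset.mem_erase.2 ⟨?_, mem_univ f⟩, hf⟩
      rintro rfl
      exact hx.2 (by rw [hf]; exact hp))
  refine (add_le_add h1 h2).trans (le_of_eq ?_)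
  ring

open Classical in
theorem w1_abs (h : AOK B a b U W Z y0 cS) (j : ℕ) (hj : 1 ≤ j) :
    ∑ x ∈ (Fintype.piFinset B).filter (fun x => PF a b U W x ∧ ∃ j1 j2 : ℕ, j1 * j2 = j ∧ (j1 : ℤ) ∣ SF a b U W x ∧ j2 ∣ ∏ f, x f), wF x ≤
      (j.divisors.card : ℝ) * ((j : ℝ) ^ (-(3 / 4) : ℝ) + 2 * (Z : ℝ) ^ (-(3 / 4) : ℝ)) := by
  have hj0 : j ≠ 0 := by omega
  calc _ ≤ ∑ x ∈ (j.divisorsAntidiagonal).biUnion (fun jj => (Fintype.piFinset B).filter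
        (fun x => PF a b U W x ∧ ((jj.1 : ℕ) : ℤ) ∣ SF a b U W x ∧ jj.2 ∣ ∏ f, x f)), wF x := by
        refine Finset.sum_le_sum_of_subset_of_nonneg ?_ fun x _ _ => XA4_wF_nonneg x
        intro x hx
        rw [Finset.mem_filter] at hx
        obtain ⟨hxB, hxP, j1, j2, hjj, h1, h2⟩ := hx
        rw [Finset.mem_biUnion]
        exact ⟨(j1, j2), Nat.mem_divisorsAntidiagonal.2 ⟨hjj, hj0⟩, Finset.mem_filter.2 ⟨hxB, hxP, h1, h2⟩⟩
    _ ≤ ∑ jj ∈ j.divisorsAntidiagonal, ∑ x ∈ (Fintype.piFinset B).filter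
        (fun x => PF a b U W x ∧ ((jj.1 : ℕ) : ℤ) ∣ SF a b U W x ∧ jj.2 ∣ ∏ f, x f), wF x :=
        XA4_biUnion _ _
    _ ≤ ∑ jj ∈ j.divisorsAntidiagonal, ((j : ℝ) ^ (-(3 / 4) : ℝ) + 2 * (Z : ℝ) ^ (-(3 / 4) : ℝ)) := by
        refine Finset.sum_le_sum fun jj hjj => ?_
        obtain ⟨h1, _⟩ := Nat.mem_divisorsAntidiagonal.1 hjj
        have h2 : 1 ≤ jj.1 := Nat.one_le_iff_ne_zero.2 (by rintro h0; rw [h0, zero_mul] at h1; exact hj0 h1.symm)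
        have h3 : 1 ≤ jj.2 := Nat.one_le_iff_ne_zero.2 (by rintro h0; rw [h0, mul_zero] at h1; exact hj0 h1.symm)
        have := XA4_pair h jj.1 jj.2 h2 h3
        rw [h1] at this
        exact this
    _ = _ := by
        rw [Finset.sum_const, nsmul_eq_mul]
        congr 2
        rw [← Nat.map_div_right_divisors, Finset.card_map]

end Pool.Agent.Lib.TE
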