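import Pool.Agent.Lib.MP_7b7e48_nt.TE.XA4

/-!
# Module XA5 (90 minutes): the condition (W2), abstract form, a mark with `c = 1`

PROOF. Fix `(j1, j2)` (`≤ τ(j)` pairs) with a non-empty sum. `q ∈ Q` prime, `q j2 ∣ ∏ x f` squarefree (`num_j2` for `q j2`): `q = x f0` for some `f0` (so `x f0 ∈ Q`), `q ∤ j2`, and the primes of `S = j2.primeFactors` occur at coordinates `≠ f0`. Sum over `f0` (`card F` values). `u p = 1/p`, `(card F)^#S ≤ j2^(1/4)`.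
(1) `f0 ≠ a`, the primes of `S` at coordinates `≠ a, f0`: `core_a`, `G = (univ.erase a).erase f0`, `g f0 p = [p ∈ Q]/p`, `v f0 = σ`, `v f = 1` otherwise: `≤ (1/j1 + 1/Z) σ j2^(-3/4) ≤ σ (j^(-3/4) + Z^(-3/4))`. (2) `f0 ≠ a`, `x a ∈ S`: `3 Z < j2`, `core_0`: `≤ σ j2^(-3/4) ≤ σ Z^(-3/4)`.
(3) `f0 = a`, the primes of `S` at coordinates `≠ a, b`: `core_b` with `g a p = [p ∈ Q]/p`: as (1). (4) `f0 = a`, `x b ∈ S`: `Z < j2`, `core_0`: `≤ σ Z^(-3/4)`.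
-/

set_option autoImplicit false

open Finset

namespace Pool.Agent.Lib.TE

variable {F : Type} [Fintype F] [DecidableEq F] {B : F → Finset ℕ} {a b : F} {U W : (F → ℕ) → ℤ} {Z y0 cS : ℕ}


private theorem XA5_num (j1 j2 Z : ℕ) (hj1 : 1 ≤ j1) (hj2 : 1 ≤ j2) (hZ : 1 ≤ Z) (σ K : ℝ) (hσ : 0 ≤ σ) (hK0 : 0 ≤ K) (hK : K ≤ (j2 : ℝ) ^ ((1 : ℝ) / 4)) :
    (1 / (j1 : ℝ) + 1 / Z) * (K * (1 / (j2 : ℝ)) * σ) ≤
      σ * (((j1 * j2 : ℕ) : ℝ) ^ (-(3 / 4) : ℝ) + (Z : ℝ) ^ (-(3 / 4) : ℝ)) := by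
  have h1 : (1 : ℝ) ≤ j1 := by exact_mod_cast hj1
  have h2 : (1 : ℝ) ≤ j2 := by exact_mod_cast hj2
  have h3 : (1 : ℝ) ≤ Z := by exact_mod_cast hZ
  have e1 : ∀ t : ℝ, 1 ≤ t → 1 / t ≤ t ^ (-(3 / 4) : ℝ) := by
    intro t ht
    have : 1 / t = t ^ (-1 : ℝ) := by rw [Real.rpow_neg_one, one_div]
    rw [this]
    exact Real.rpow_le_rpow_of_exponent_le ht (by norm_num)
  have e2 : K * (1 / (j2 : ℝ)) ≤ (j2 : ℝ) ^ (-(3 / 4) : ℝ) := by
    have h4 : (j2 : ℝ) ^ ((1 : ℝ) / 4) * (1 / (j2 : ℝ)) = (j2 : ℝ) ^ (-(3 / 4) : ℝ) := by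
      have : 1 / (j2 : ℝ) = (j2 : ℝ) ^ (-1 : ℝ) := by rw [Real.rpow_neg_one, one_div]
      rw [this, ← Real.rpow_add (by linarith)]
      norm_num
    rw [← h4]
    exact mul_le_mul_of_nonneg_right hK (by positivity)
  have e3 : (j2 : ℝ) ^ (-(3 / 4) : ℝ) ≤ 1 := Real.rpow_le_one_of_one_le_of_nonpos h2 (by norm_num)
  have e4 : ((j1 * j2 : ℕ) : ℝ) ^ (-(3 / 4) : ℝ) = (j1 : ℝ) ^ (-(3 / 4) : ℝ) * (j2 : ℝ) ^ (-(3 / 4) : ℝ) := by
    push_cast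
    exact Real.mul_rpow (by linarith) (by linarith)
  have e5 : 0 ≤ K * (1 / (j2 : ℝ)) := by positivity
  have e6 : (1 / (j1 : ℝ)) * (K * (1 / (j2 : ℝ))) ≤ (j1 : ℝ) ^ (-(3 / 4) : ℝ) * (j2 : ℝ) ^ (-(3 / 4) : ℝ) :=
    mul_le_mul (e1 _ h1) e2 e5 (by positivity)
  have e7 : (1 / (Z : ℝ)) * (K * (1 / (j2 : ℝ))) ≤ (Z : ℝ) ^ (-(3 / 4) : ℝ) * 1 :=
    mul_le_mul (e1 _ h3) (e2.trans e3) e5 (by positivity)
  rw [e4]
  have e8 : (1 / (j1 : ℝ) + 1 / Z) * (K * (1 / (j2 : ℝ)) * σ) =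
    σ * ((1 / (j1 : ℝ)) * (K * (1 / (j2 : ℝ))) + (1 / (Z : ℝ)) * (K * (1 / (j2 : ℝ)))) := by ring
  rw [e8]
  apply mul_le_mul_of_nonneg_left _ hσ
  linarith

private theorem XA5_num2 (j2 Z : ℕ) (hj2 : Z < j2) (hZ : 1 ≤ Z) (K : ℝ) (hK : K ≤ (j2 : ℝ) ^ ((1 : ℝ) / 4)) :
    K * (1 / (j2 : ℝ)) ≤ (Z : ℝ) ^ (-(3 / 4) : ℝ) := by
  have h3 : (1 : ℝ) ≤ Z := by exact_mod_cast hZ
  have h2' : (Z : ℝ) < j2 := by exact_mod_cast hj2
  have h2 : (1 : ℝ) ≤ j2 := by linarith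
  have h4 : (j2 : ℝ) ^ ((1 : ℝ) / 4) * (1 / (j2 : ℝ)) = (j2 : ℝ) ^ (-(3 / 4) : ℝ) := by
    have : 1 / (j2 : ℝ) = (j2 : ℝ) ^ (-1 : ℝ) := by rw [Real.rpow_neg_one, one_div]
    rw [this, ← Real.rpow_add (by linarith)]
    norm_num
  calc K * (1 / (j2 : ℝ)) ≤ (j2 : ℝ) ^ ((1 : ℝ) / 4) * (1 / (j2 : ℝ)) := mul_le_mul_of_nonneg_right hK (by positivity)
    _ = (j2 : ℝ) ^ (-(3 / 4) : ℝ) := h4
    _ ≤ _ := Real.rpow_le_rpow_of_nonpos (by linarith) h2'.le (by norm_num)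

private def XA5O (f0 : F) (S : Finset ℕ) (x : F → ℕ) : Prop := ∀ p ∈ S, ∃ f ∈ univ.erase f0, x f = p

private theorem XA5_wnn (x : F → ℕ) : 0 ≤ wF x := prod_nonneg fun _ _ => by positivity

open Classical in
private theorem XA5_step (h : AOK B a b U W Z y0 cS) (Q : Finset ℕ) (σ : ℝ) (hσ : ∑ q ∈ Q, 1 / (q : ℝ) ≤ σ)
    (j1 j2 : ℕ) (hj1 : 1 ≤ j1) (hj2 : 1 ≤ j2) (hprod : ∏ p ∈ j2.primeFactors, p = j2)
    (hcard : (Fintype.card F : ℝ) ^ j2.primeFactors.card ≤ (j2 : ℝ) ^ ((1 : ℝ) / 4))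
    (s f0 : F) (hsf : f0 ≠ s) (hBs : ∀ p ∈ B s, Z < p)
    (hcore : ∀ (g : F → ℕ → ℝ) (v : F → ℝ) (u : ℕ → ℝ) (S : Finset ℕ) (G : Finset F), s ∉ G →
      (∀ f, ∀ p ∈ B f, 0 ≤ g f p) → (∀ f, ∑ p ∈ B f, g f p ≤ v f) → (∀ f ∈ G, v f ≤ 1) → (∀ p ∈ S, 0 ≤ u p) →
      (∀ f ∈ G, ∀ p ∈ S, p ∈ B f → g f p ≤ u p) →
      ∑ x ∈ (Fintype.piFinset B).filter (fun x => PF a b U W x ∧ (j1 : ℤ) ∣ SF a b U W x ∧ ∀ p ∈ S, ∃ f ∈ G, x f = p),
        (1 / (x s : ℝ)) * ∏ f ∈ univ.erase s, g f (x f) ≤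
        (1 / j1 + 1 / Z) * ((G.card : ℝ) ^ S.card * (∏ p ∈ S, u p) * ∏ f ∈ (univ \ G).erase s, v f)) :
    ∑ x ∈ (Fintype.piFinset B).filter (fun x => PF a b U W x ∧ (j1 : ℤ) ∣ SF a b U W x ∧ x f0 ∈ Q ∧
        XA5O f0 j2.primeFactors x), wF x ≤
      σ * (((j1 * j2 : ℕ) : ℝ) ^ (-(3 / 4) : ℝ) + 2 * (Z : ℝ) ^ (-(3 / 4) : ℝ)) := by
  have hZ := h.Z1
  have hσ0 : 0 ≤ σ := le_trans (sum_nonneg fun _ _ => by positivity) hσ
  have hprod' : ∏ p ∈ j2.primeFactors, (1 / (p : ℝ)) = 1 / (j2 : ℝ) := by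
    rw [prod_div_distrib, prod_const_one]
    congr 1
    conv_rhs => rw [← hprod]
    push_cast
    rfl
  have hZr : 0 ≤ (Z : ℝ) ^ (-(3 / 4) : ℝ) := by positivity
  set G : Finset F := (univ.erase s).erase f0 with hG
  -- first part
  set g : F → ℕ → ℝ := fun f p => if f = f0 then (if p ∈ Q then 1 / (p : ℝ) else 0) else 1 / (p : ℝ) with hg
  set v : F → ℝ := fun f => if f = f0 then σ else 1 with hv
  have h1 := hcore g v (fun p => 1 / (p : ℝ)) j2.primeFactors G (by simp [hG]) ?_ ?_ ?_ ?_ ?_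
  rotate_left
  · intro f p _
    simp only [hg]
    split_ifs <;> positivity
  · intro f
    simp only [hg, hv]
    split_ifs with hf
    · subst hf
      rw [← sum_filter]
      refine le_trans (sum_le_sum_of_subset_of_nonneg ?_ fun _ _ _ => by positivity) hσ
      intro p hp
      exact (mem_filter.1 hp).2
    · exact h.sum f
  · intro f hf
    simp only [hv]
    rw [hG, mem_erase] at hf
    rw [if_neg hf.1]
  · intro p _
    positivity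
  · intro f hf p _ _
    simp only [hg]
    rw [hG, mem_erase] at hf
    rw [if_neg hf.1]
  have hset : (univ \ G).erase s = {f0} := by
    ext f
    simp only [hG, mem_erase, mem_sdiff, mem_univ, true_and, mem_singleton, not_and]
    constructor
    · rintro ⟨h1, h2⟩
      by_contra hne
      exact h2 hne h1 trivial
    · intro hf
      subst hf
      exact ⟨hsf, fun hne => absurd rfl hne⟩
  rw [hset, prod_singleton, hprod'] at h1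
  have hvf : v f0 = σ := by simp [hv]
  rw [hvf] at h1
  have hGc : (G.card : ℝ) ^ j2.primeFactors.card ≤ (j2 : ℝ) ^ ((1 : ℝ) / 4) := by
    refine le_trans (pow_le_pow_left₀ (Nat.cast_nonneg _) ?_ _) hcard
    exact_mod_cast card_le_univ G
  have h2 := h1.trans (XA5_num j1 j2 Z hj1 hj2 hZ σ _ hσ0 (by positivity) hGc)
  -- splitting
  set A := (Fintype.piFinset B).filter (fun x => PF a b U W x ∧ (j1 : ℤ) ∣ SF a b U W x ∧ x f0 ∈ Q ∧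
        XA5O f0 j2.primeFactors x) with hA
  have hsplit := sum_filter_add_sum_filter_not A (fun x => ∀ p ∈ j2.primeFactors, ∃ f ∈ G, x f = p) (fun x => wF x)
  rw [← hsplit]
  have hp1 : ∑ x ∈ A.filter (fun x => ∀ p ∈ j2.primeFactors, ∃ f ∈ G, x f = p), wF x ≤
      σ * (((j1 * j2 : ℕ) : ℝ) ^ (-(3 / 4) : ℝ) + (Z : ℝ) ^ (-(3 / 4) : ℝ)) := by
    refine le_trans ?_ h2
    have h3 : ∀ x ∈ A.filter (fun x => ∀ p ∈ j2.primeFactors, ∃ f ∈ G, x f = p), wF x =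
        (1 / (x s : ℝ)) * ∏ f ∈ univ.erase s, g f (x f) := by
      intro x hx
      rw [mem_filter, hA, mem_filter] at hx
      unfold wF
      rw [← mul_prod_erase univ (fun f => 1 / (x f : ℝ)) (mem_univ s)]
      congr 1
      apply prod_congr rfl
      intro f _
      simp only [hg]
      split_ifs with hf hq
      · rfl
      · subst hf
        exact absurd hx.1.2.2.2.1 hq
      · rfl
    rw [sum_congr rfl h3]
    apply sum_le_sum_of_subset_of_nonneg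
    · intro x hx
      rw [mem_filter, hA, mem_filter] at hx
      rw [mem_filter]
      exact ⟨hx.1.1, hx.1.2.1, hx.1.2.2.1, hx.2⟩
    · intro x _ _
      refine mul_nonneg (by positivity) (prod_nonneg fun f _ => ?_)
      simp only [hg]
      split_ifs <;> positivity
  have hp2 : ∑ x ∈ A.filter (fun x => ¬ ∀ p ∈ j2.primeFactors, ∃ f ∈ G, x f = p), wF x ≤
      σ * (Z : ℝ) ^ (-(3 / 4) : ℝ) := by
    by_cases hne : (A.filter (fun x => ¬ ∀ p ∈ j2.primeFactors, ∃ f ∈ G, x f = p)).Nonempty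
    · obtain ⟨x, hx⟩ := hne
      rw [mem_filter, hA, mem_filter] at hx
      obtain ⟨⟨hxB, _, _, _, hx4⟩, hx5⟩ := hx
      push Not at hx5
      obtain ⟨p, hp, hp2⟩ := hx5
      obtain ⟨f, hf, hfp⟩ := hx4 p hp
      have hfs : f = s := by
        by_contra hne
        refine hp2 f ?_ hfp
        rw [hG, mem_erase, mem_erase]
        exact ⟨(mem_erase.1 hf).1, hne, mem_univ _⟩
      subst hfs
      have hZp : Z < p := by
        rw [← hfp]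
        exact hBs _ (Fintype.mem_piFinset.1 hxB f)
      have hZj : Z < j2 := lt_of_lt_of_le hZp (Nat.le_of_dvd hj2 (Nat.dvd_of_mem_primeFactors hp))
      have h4 := (core_0 h f0 Q σ hσ j2.primeFactors (fun p hp => (Nat.prime_of_mem_primeFactors hp).pos)).2
      rw [hprod'] at h4
      refine le_trans ?_ (h4.trans (mul_le_mul_of_nonneg_left (XA5_num2 j2 Z hZj hZ _ hcard) hσ0))
      apply sum_le_sum_of_subset_of_nonneg
      · intro x hx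
        rw [mem_filter, hA, mem_filter] at hx
        exact (@Finset.mem_filter _ _ _ _ _).2 ⟨hx.1.1, hx.1.2.2.2.1, hx.1.2.2.2.2⟩
      · intro x _ _
        exact XA5_wnn x
    · rw [not_nonempty_iff_eq_empty] at hne
      rw [hne, sum_empty]
      positivity
  linarith

open Classical in
private theorem XA5_pair (h : AOK B a b U W Z y0 cS) (Q : Finset ℕ) (hQ : ∀ q ∈ Q, q.Prime) (σ : ℝ) (hσ : ∑ q ∈ Q, 1 / (q : ℝ) ≤ σ)
    (j1 j2 : ℕ) (hj1 : 1 ≤ j1) (hj2 : 1 ≤ j2) (f0 : F) :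
    ∑ x ∈ (Fintype.piFinset B).filter (fun x => PF a b U W x ∧ (j1 : ℤ) ∣ SF a b U W x ∧ x f0 ∈ Q ∧
        x f0 * j2 ∣ ∏ f, x f), wF x ≤
      σ * (((j1 * j2 : ℕ) : ℝ) ^ (-(3 / 4) : ℝ) + 2 * (Z : ℝ) ^ (-(3 / 4) : ℝ)) := by
  have hσ0 : 0 ≤ σ := le_trans (sum_nonneg fun _ _ => by positivity) hσ
  by_cases hne : ((Fintype.piFinset B).filter (fun x => PF a b U W x ∧ (j1 : ℤ) ∣ SF a b U W x ∧ x f0 ∈ Q ∧
        x f0 * j2 ∣ ∏ f, x f)).Nonempty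
  · obtain ⟨x0, hx0⟩ := hne
    rw [mem_filter] at hx0
    obtain ⟨hxB, hPF, _, _, hd⟩ := hx0
    obtain ⟨_, n2, _, n4⟩ := num_j2 h hxB hPF.1 (dvd_trans (dvd_mul_left j2 (x0 f0)) hd)
    have hsub : (Fintype.piFinset B).filter (fun x => PF a b U W x ∧ (j1 : ℤ) ∣ SF a b U W x ∧ x f0 ∈ Q ∧
        x f0 * j2 ∣ ∏ f, x f) ⊆ (Fintype.piFinset B).filter (fun x => PF a b U W x ∧ (j1 : ℤ) ∣ SF a b U W x ∧ x f0 ∈ Q ∧
        XA5O f0 j2.primeFactors x) := by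
      intro x hx
      rw [mem_filter] at hx ⊢
      obtain ⟨h1, h2, h3, h4, h5⟩ := hx
      refine ⟨h1, h2, h3, h4, fun p hp => ?_⟩
      obtain ⟨m1, _, m3, _⟩ := num_j2 h h1 h2.1 h5
      have hx0' : x f0 ≠ 0 := (hQ _ h4).ne_zero
      have hp' : p ∈ (x f0 * j2).primeFactors := by
        rw [Nat.mem_primeFactors]
        exact ⟨Nat.prime_of_mem_primeFactors hp, dvd_mul_of_dvd_right (Nat.dvd_of_mem_primeFactors hp) _,
          mul_ne_zero hx0' (by omega)⟩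
      obtain ⟨f, hf⟩ := m3 p hp'
      refine ⟨f, ?_, hf⟩
      rw [mem_erase]
      refine ⟨?_, mem_univ _⟩
      rintro rfl
      rw [Nat.squarefree_mul_iff] at m1
      have h6 : p ∣ x f := by rw [hf]
      have h7 : p ∣ 1 := by
        have := Nat.dvd_gcd h6 (Nat.dvd_of_mem_primeFactors hp)
        rwa [Nat.Coprime.gcd_eq_one m1.1] at this
      exact (Nat.prime_of_mem_primeFactors hp).one_lt.ne' (Nat.dvd_one.1 h7)
    refine le_trans (sum_le_sum_of_subset_of_nonneg hsub fun x _ _ => XA5_wnn x) ?_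
    by_cases hf : f0 = a
    · refine XA5_step h Q σ hσ j1 j2 hj1 hj2 n2 n4 b f0 ?_ (fun p hp => (h.Bb p hp).1) ?_
      · rw [hf]
        exact h.ab
      · intro g v u S G c1 c2 c3 c4 c5 c6
        exact core_b h j1 hj1 g v u S G c1 c2 c3 c4 c5 c6
    · refine XA5_step h Q σ hσ j1 j2 hj1 hj2 n2 n4 a f0 hf (fun p hp => ?_) ?_
      · have := (h.Ba p hp).1
        omega
      · intro g v u S G c1 c2 c3 c4 c5 c6
        exact core_a h j1 hj1 g v u S G c1 c2 c3 c4 c5 c6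
  · rw [not_nonempty_iff_eq_empty] at hne
    rw [hne, sum_empty]
    positivity

open Classical in
theorem w2a_abs (h : AOK B a b U W Z y0 cS) (Q : Finset ℕ) (hQ : ∀ q ∈ Q, q.Prime) (σ : ℝ) (hσ : ∑ q ∈ Q, 1 / (q : ℝ) ≤ σ) (j : ℕ) (hj : 1 ≤ j) :
    ∑ x ∈ (Fintype.piFinset B).filter (fun x => PF a b U W x ∧ ∃ q ∈ Q, ∃ j1 j2 : ℕ, j1 * j2 = j ∧ (j1 : ℤ) ∣ SF a b U W x ∧ q * j2 ∣ ∏ f, x f), wF x ≤
      (j.divisors.card : ℝ) * (Fintype.card F * σ * ((j : ℝ) ^ (-(3 / 4) : ℝ) + 2 * (Z : ℝ) ^ (-(3 / 4) : ℝ))) := by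
  have hσ0 : 0 ≤ σ := le_trans (sum_nonneg fun _ _ => by positivity) hσ
  have hjj : ∀ d ∈ j.divisorsAntidiagonal, 1 ≤ d.1 ∧ 1 ≤ d.2 ∧ d.1 * d.2 = j := by
    intro d hd
    rw [Nat.mem_divisorsAntidiagonal] at hd
    refine ⟨?_, ?_, hd.1⟩
    · by_contra hc
      have h1 : d.1 = 0 := by omega
      rw [h1, zero_mul] at hd
      omega
    · by_contra hc
      have h1 : d.2 = 0 := by omega
      rw [h1, mul_zero] at hd
      omega
  have key : ∀ x ∈ (Fintype.piFinset B).filter (fun x => PF a b U W x ∧ ∃ q ∈ Q, ∃ j1 j2 : ℕ, j1 * j2 = j ∧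
      (j1 : ℤ) ∣ SF a b U W x ∧ q * j2 ∣ ∏ f, x f), wF x ≤
      ∑ d ∈ j.divisorsAntidiagonal, ∑ f0 : F, if PF a b U W x ∧ (d.1 : ℤ) ∣ SF a b U W x ∧ x f0 ∈ Q ∧
        x f0 * d.2 ∣ ∏ f, x f then wF x else 0 := by
    intro x hx
    rw [mem_filter] at hx
    obtain ⟨h1, h2, q, hq, j1, j2, hj12, h3, h4⟩ := hx
    have hd : (j1, j2) ∈ j.divisorsAntidiagonal := by
      rw [Nat.mem_divisorsAntidiagonal]
      exact ⟨hj12, by omega⟩
    obtain ⟨_, m2, _⟩ := hjj _ hd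
    obtain ⟨_, _, n3, _⟩ := num_j2 h h1 h2.1 h4
    have hqp : q ∈ (q * j2).primeFactors := by
      rw [Nat.mem_primeFactors]
      exact ⟨hQ q hq, dvd_mul_right _ _, mul_ne_zero (hQ q hq).ne_zero (by simp only at m2; omega)⟩
    obtain ⟨f0, hf0⟩ := n3 q hqp
    have h5 : wF x = if PF a b U W x ∧ ((j1, j2).1 : ℤ) ∣ SF a b U W x ∧ x f0 ∈ Q ∧
        x f0 * (j1, j2).2 ∣ ∏ f, x f then wF x else 0 := by
      rw [if_pos]
      refine ⟨h2, h3, ?_, ?_⟩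
      · rw [hf0]
        exact hq
      · rw [hf0]
        exact h4
    have hnn : ∀ (d : ℕ × ℕ) (f0 : F), 0 ≤ if PF a b U W x ∧ (d.1 : ℤ) ∣ SF a b U W x ∧ x f0 ∈ Q ∧
        x f0 * d.2 ∣ ∏ f, x f then wF x else 0 := by
      intro d f0
      split_ifs
      · exact XA5_wnn x
      · exact le_refl _
    calc wF x = if PF a b U W x ∧ ((j1, j2).1 : ℤ) ∣ SF a b U W x ∧ x f0 ∈ Q ∧
        x f0 * (j1, j2).2 ∣ ∏ f, x f then wF x else 0 := h5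
      _ ≤ ∑ f0 : F, if PF a b U W x ∧ ((j1, j2).1 : ℤ) ∣ SF a b U W x ∧ x f0 ∈ Q ∧
        x f0 * (j1, j2).2 ∣ ∏ f, x f then wF x else 0 :=
          single_le_sum (f := fun f0 => if PF a b U W x ∧ ((j1, j2).1 : ℤ) ∣ SF a b U W x ∧ x f0 ∈ Q ∧
            x f0 * (j1, j2).2 ∣ ∏ f, x f then wF x else 0) (fun f0 _ => hnn (j1, j2) f0) (mem_univ f0)
      _ ≤ _ := single_le_sum (f := fun d : ℕ × ℕ => ∑ f0 : F, if PF a b U W x ∧ (d.1 : ℤ) ∣ SF a b U W x ∧ x f0 ∈ Q ∧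
            x f0 * d.2 ∣ ∏ f, x f then wF x else 0) (fun d _ => sum_nonneg fun f0 _ => hnn d f0) hd
  refine le_trans (sum_le_sum key) ?_
  have h1 : ∑ x ∈ (Fintype.piFinset B).filter (fun x => PF a b U W x ∧ ∃ q ∈ Q, ∃ j1 j2 : ℕ, j1 * j2 = j ∧
      (j1 : ℤ) ∣ SF a b U W x ∧ q * j2 ∣ ∏ f, x f), ∑ d ∈ j.divisorsAntidiagonal, ∑ f0 : F,
        (if PF a b U W x ∧ (d.1 : ℤ) ∣ SF a b U W x ∧ x f0 ∈ Q ∧
        x f0 * d.2 ∣ ∏ f, x f then wF x else 0) ≤ ∑ x ∈ Fintype.piFinset B, ∑ d ∈ j.divisorsAntidiagonal, ∑ f0 : F,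
        (if PF a b U W x ∧ (d.1 : ℤ) ∣ SF a b U W x ∧ x f0 ∈ Q ∧ x f0 * d.2 ∣ ∏ f, x f then wF x else 0) := by
    apply sum_le_sum_of_subset_of_nonneg (filter_subset _ _)
    intro x _ _
    refine sum_nonneg fun d _ => sum_nonneg fun f0 _ => ?_
    split_ifs
    · exact XA5_wnn x
    · exact le_refl _
  refine le_trans h1 ?_
  rw [sum_comm]
  have h2 : ∀ d ∈ j.divisorsAntidiagonal, ∑ x ∈ Fintype.piFinset B, ∑ f0 : F,
        (if PF a b U W x ∧ (d.1 : ℤ) ∣ SF a b U W x ∧ x f0 ∈ Q ∧ x f0 * d.2 ∣ ∏ f, x f then wF x else 0) ≤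
      Fintype.card F * σ * ((j : ℝ) ^ (-(3 / 4) : ℝ) + 2 * (Z : ℝ) ^ (-(3 / 4) : ℝ)) := by
    intro d hd
    obtain ⟨m1, m2, m3⟩ := hjj d hd
    rw [sum_comm]
    have h3 : ∀ f0 ∈ (univ : Finset F), ∑ x ∈ Fintype.piFinset B,
        (if PF a b U W x ∧ (d.1 : ℤ) ∣ SF a b U W x ∧ x f0 ∈ Q ∧ x f0 * d.2 ∣ ∏ f, x f then wF x else 0) ≤
        σ * ((j : ℝ) ^ (-(3 / 4) : ℝ) + 2 * (Z : ℝ) ^ (-(3 / 4) : ℝ)) := by
      intro f0 _
      rw [← sum_filter]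
      have := XA5_pair h Q hQ σ hσ d.1 d.2 m1 m2 f0
      rw [m3] at this
      exact this
    refine le_trans (sum_le_sum h3) ?_
    rw [sum_const, card_univ, nsmul_eq_mul]
    exact le_of_eq (by ring)
  refine le_trans (sum_le_sum h2) ?_
  rw [sum_const, nsmul_eq_mul]
  have h4 : j.divisorsAntidiagonal.card = j.divisors.card := by
    rw [← Nat.map_div_right_divisors, card_map]
  rw [h4]

end Pool.Agent.Lib.TE
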