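import Pool.Agent.Lib.MP_7b7e48_nt.TE.XA4

/-!
# Module XA6 (60 minutes): the condition (W2), abstract form, a prime factor of `e` with `c = 1`

PROOF. Fix `(j1, j2)` (`≤ τ(j)` pairs) with a non-empty sum, `S = j2.primeFactors` (`num_j2`). The tuples with the primes of `S` at coordinates `≠ a, b`: `core_ab`: `≤ (cS σ/j1) (card F)^#S/j2 ≤ cS σ j1^(-1) j2^(-3/4) ≤ cS σ j^(-3/4)`. The others: `x a ∈ S` or `x b ∈ S`, so `Z < j2`, `core_0`: `≤ j2^(-3/4) ≤ Z^(-3/4)`.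
-/

set_option autoImplicit false

open Finset

namespace Pool.Agent.Lib.TE

variable {F : Type} [Fintype F] [DecidableEq F] {B : F → Finset ℕ} {a b : F} {U W : (F → ℕ) → ℤ} {Z y0 cS : ℕ}

private theorem XA6_num (j1 j2 : ℕ) (hj1 : 1 ≤ j1) (hj2 : 1 ≤ j2) (c K : ℝ) (hc : 0 ≤ c) (hK0 : 0 ≤ K) (hK : K ≤ (j2 : ℝ) ^ ((1 : ℝ) / 4)) :
    c / (j1 : ℝ) * (K * (1 / (j2 : ℝ))) ≤ c * ((j1 * j2 : ℕ) : ℝ) ^ (-(3 / 4) : ℝ) := by
  have h1 : (1 : ℝ) ≤ j1 := by exact_mod_cast hj1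
  have h2 : (1 : ℝ) ≤ j2 := by exact_mod_cast hj2
  have e1 : 1 / (j1 : ℝ) ≤ (j1 : ℝ) ^ (-(3 / 4) : ℝ) := by
    have : 1 / (j1 : ℝ) = (j1 : ℝ) ^ (-1 : ℝ) := by rw [Real.rpow_neg_one, one_div]
    rw [this]
    exact Real.rpow_le_rpow_of_exponent_le h1 (by norm_num)
  have e2 : K * (1 / (j2 : ℝ)) ≤ (j2 : ℝ) ^ (-(3 / 4) : ℝ) := by
    have h4 : (j2 : ℝ) ^ ((1 : ℝ) / 4) * (1 / (j2 : ℝ)) = (j2 : ℝ) ^ (-(3 / 4) : ℝ) := by
      have : 1 / (j2 : ℝ) = (j2 : ℝ) ^ (-1 : ℝ) := by rw [Real.rpow_neg_one, one_div]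
      rw [this, ← Real.rpow_add (by linarith)]
      norm_num
    rw [← h4]
    exact mul_le_mul_of_nonneg_right hK (by positivity)
  have e4 : ((j1 * j2 : ℕ) : ℝ) ^ (-(3 / 4) : ℝ) = (j1 : ℝ) ^ (-(3 / 4) : ℝ) * (j2 : ℝ) ^ (-(3 / 4) : ℝ) := by
    push_cast
    exact Real.mul_rpow (by linarith) (by linarith)
  have e6 : (1 / (j1 : ℝ)) * (K * (1 / (j2 : ℝ))) ≤ (j1 : ℝ) ^ (-(3 / 4) : ℝ) * (j2 : ℝ) ^ (-(3 / 4) : ℝ) :=
    mul_le_mul e1 e2 (by positivity) (by positivity)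
  rw [e4]
  have e8 : c / (j1 : ℝ) * (K * (1 / (j2 : ℝ))) = c * ((1 / (j1 : ℝ)) * (K * (1 / (j2 : ℝ)))) := by ring
  rw [e8]
  exact mul_le_mul_of_nonneg_left e6 hc

private theorem XA6_num2 (j2 Z : ℕ) (hj2 : Z < j2) (hZ : 1 ≤ Z) (K : ℝ) (hK : K ≤ (j2 : ℝ) ^ ((1 : ℝ) / 4)) :
    K * (1 / (j2 : ℝ)) ≤ (Z : ℝ) ^ (-(3 / 4) : ℝ) := by
  have h3 : (1 : ℝ) ≤ Z := by exact_mod_cast hZ
  have h2' : (Z : ℝ) < j2 := by exact_mod_cast hj2
  have h2 : (1 : ℝ) ≤ j2 := by linarith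
  have h4 : (j2 : ℝ) ^ ((1 : ℝ) / 4) * (1 / (j2 : ℝ)) = (j2 : ℝ) ^ (-(3 / 4) : ℝ) := by
    have : 1 / (j2 : ℝ) = (j2 : ℝ) ^ (-1 : ℝ) := by rw [Real.rpow_neg_one, one_div]
    rw [this, ← Real.rpow_add (by linarith)]
    norm_num
  calc K * (1 / (j2 : ℝ)) ≤ (j2 : ℝ) ^ ((1 : ℝ) / 4) * (1 / (j2 : ℝ)) := mul_le_mul_of_nonneg_right hK (by positivity)
    _ = (j2 : ℝ) ^ (-(3 / 4) : ℝ) := h4
    _ ≤ _ := Real.rpow_le_rpow_of_nonpos (by linarith) h2'.le (by norm_num)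

private theorem XA6_wnn (x : F → ℕ) : 0 ≤ wF x := prod_nonneg fun _ _ => by positivity

open Classical in
private theorem XA6_pair (h : AOK B a b U W Z y0 cS) (Q : Finset ℕ) (hQ : ∀ q ∈ Q, q.Prime) (σ : ℝ) (hσ : ∑ q ∈ Q, 1 / (q : ℝ) ≤ σ)
    (D j1 j2 : ℕ) (hD : 1 ≤ D) (hj1 : 1 ≤ j1) (hj2 : 1 ≤ j2) :
    ∑ x ∈ (Fintype.piFinset B).filter (fun x => PF a b U W x ∧ (∃ q ∈ Q, ((D * (q * j1) : ℕ) : ℤ) ∣ SF a b U W x) ∧
        j2 ∣ ∏ f, x f), wF x ≤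
      cS * σ * ((j1 * j2 : ℕ) : ℝ) ^ (-(3 / 4) : ℝ) + (Z : ℝ) ^ (-(3 / 4) : ℝ) := by
  have hZ := h.Z1
  have hσ0 : 0 ≤ σ := le_trans (sum_nonneg fun _ _ => by positivity) hσ
  set A := (Fintype.piFinset B).filter (fun x => PF a b U W x ∧ (∃ q ∈ Q, ((D * (q * j1) : ℕ) : ℤ) ∣ SF a b U W x) ∧
        j2 ∣ ∏ f, x f) with hA
  by_cases hne : A.Nonempty
  · obtain ⟨x0, hx0⟩ := hne
    rw [hA, mem_filter] at hx0
    obtain ⟨hxB, hPF, _, hd⟩ := hx0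
    obtain ⟨_, n2, _, n4⟩ := num_j2 h hxB hPF.1 hd
    have hprod' : ∏ p ∈ j2.primeFactors, (1 / (p : ℝ)) = 1 / (j2 : ℝ) := by
      rw [prod_div_distrib, prod_const_one]
      congr 1
      conv_rhs => rw [← n2]
      push_cast
      rfl
    set G : Finset F := (univ.erase a).erase b with hG
    have hGc : (G.card : ℝ) ^ j2.primeFactors.card ≤ (j2 : ℝ) ^ ((1 : ℝ) / 4) := by
      refine le_trans (pow_le_pow_left₀ (Nat.cast_nonneg _) ?_ _) n4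
      exact_mod_cast card_le_univ G
    have hsplit := sum_filter_add_sum_filter_not A (fun x => ∀ p ∈ j2.primeFactors, ∃ f ∈ G, x f = p) (fun x => wF x)
    rw [← hsplit]
    refine add_le_add ?_ ?_
    · have h1 := core_ab h D j1 hD hj1 Q (fun q hq => (hQ q hq).pos) σ hσ j2.primeFactors G
        (by simp [hG]) (by simp [hG]) (fun p hp => (Nat.prime_of_mem_primeFactors hp).pos)
      rw [hprod'] at h1
      refine le_trans ?_ (h1.trans (XA6_num j1 j2 hj1 hj2 (cS * σ) _ (by positivity) (by positivity) hGc))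
      apply sum_le_sum_of_subset_of_nonneg
      · intro x hx
        rw [mem_filter, hA, mem_filter] at hx
        rw [mem_filter]
        exact ⟨hx.1.1, hx.1.2.1, hx.1.2.2.1, hx.2⟩
      · intro x _ _
        exact XA6_wnn x
    · by_cases hne2 : (A.filter (fun x => ¬ ∀ p ∈ j2.primeFactors, ∃ f ∈ G, x f = p)).Nonempty
      · obtain ⟨x, hx⟩ := hne2
        rw [mem_filter, hA, mem_filter] at hx
        obtain ⟨⟨hxB', hP', _, hd'⟩, hx5⟩ := hx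
        push Not at hx5
        obtain ⟨p, hp, hp2⟩ := hx5
        obtain ⟨_, _, n3, _⟩ := num_j2 h hxB' hP'.1 hd'
        obtain ⟨f, hfp⟩ := n3 p hp
        have hZp : Z < p := by
          rw [← hfp]
          by_cases hfa : f = a
          · subst hfa
            have := (h.Ba _ (Fintype.mem_piFinset.1 hxB' f)).1
            omega
          · by_cases hfb : f = b
            · subst hfb
              exact (h.Bb _ (Fintype.mem_piFinset.1 hxB' f)).1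
            · exfalso
              refine hp2 f ?_ hfp
              rw [hG, mem_erase, mem_erase]
              exact ⟨hfb, hfa, mem_univ _⟩
        have hZj : Z < j2 := lt_of_lt_of_le hZp (Nat.le_of_dvd hj2 (Nat.dvd_of_mem_primeFactors hp))
        have h4 := (core_0 h a Q σ hσ j2.primeFactors (fun p hp => (Nat.prime_of_mem_primeFactors hp).pos)).1
        rw [hprod'] at h4
        refine le_trans ?_ (h4.trans (XA6_num2 j2 Z hZj hZ _ n4))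
        apply sum_le_sum_of_subset_of_nonneg
        · intro x' hx'
          rw [mem_filter, hA, mem_filter] at hx'
          obtain ⟨_, _, m3, _⟩ := num_j2 h hx'.1.1 hx'.1.2.1.1 hx'.1.2.2.2
          exact (@Finset.mem_filter _ _ _ _ _).2 ⟨hx'.1.1, m3⟩
        · intro x' _ _
          exact XA6_wnn x'
      · rw [not_nonempty_iff_eq_empty] at hne2
        rw [hne2, sum_empty]
        positivity
  · rw [not_nonempty_iff_eq_empty] at hne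
    rw [hne, sum_empty]
    positivity

open Classical in
theorem w2b_abs (h : AOK B a b U W Z y0 cS) (Q : Finset ℕ) (hQ : ∀ q ∈ Q, q.Prime) (σ : ℝ) (hσ : ∑ q ∈ Q, 1 / (q : ℝ) ≤ σ) (D j : ℕ) (hD : 1 ≤ D)
    (hj : 1 ≤ j) :
    ∑ x ∈ (Fintype.piFinset B).filter (fun x => PF a b U W x ∧ ∃ q ∈ Q, ∃ j1 j2 : ℕ, j1 * j2 = j ∧
        ((D * (q * j1) : ℕ) : ℤ) ∣ SF a b U W x ∧ j2 ∣ ∏ f, x f), wF x ≤
      (j.divisors.card : ℝ) * (cS * σ * (j : ℝ) ^ (-(3 / 4) : ℝ) + (Z : ℝ) ^ (-(3 / 4) : ℝ)) := by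
  have hjj : ∀ d ∈ j.divisorsAntidiagonal, 1 ≤ d.1 ∧ 1 ≤ d.2 ∧ d.1 * d.2 = j := by
    intro d hd
    rw [Nat.mem_divisorsAntidiagonal] at hd
    refine ⟨?_, ?_, hd.1⟩
    · by_contra hc
      have h1 : d.1 = 0 := by omega
      rw [h1, zero_mul] at hd
      omega
    · by_contra hc
      have h1 : d.2 = 0 := by omega
      rw [h1, mul_zero] at hd
      omega
  have hnn : ∀ (x : F → ℕ) (d : ℕ × ℕ), 0 ≤ if PF a b U W x ∧ (∃ q ∈ Q, ((D * (q * d.1) : ℕ) : ℤ) ∣ SF a b U W x) ∧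
      d.2 ∣ ∏ f, x f then wF x else 0 := by
    intro x d
    split_ifs
    · exact XA6_wnn x
    · exact le_refl _
  have key : ∀ x ∈ (Fintype.piFinset B).filter (fun x => PF a b U W x ∧ ∃ q ∈ Q, ∃ j1 j2 : ℕ, j1 * j2 = j ∧
      ((D * (q * j1) : ℕ) : ℤ) ∣ SF a b U W x ∧ j2 ∣ ∏ f, x f), wF x ≤
      ∑ d ∈ j.divisorsAntidiagonal, if PF a b U W x ∧ (∃ q ∈ Q, ((D * (q * d.1) : ℕ) : ℤ) ∣ SF a b U W x) ∧
        d.2 ∣ ∏ f, x f then wF x else 0 := by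
    intro x hx
    rw [mem_filter] at hx
    obtain ⟨h1, h2, q, hq, j1, j2, hj12, h3, h4⟩ := hx
    have hd : (j1, j2) ∈ j.divisorsAntidiagonal := by
      rw [Nat.mem_divisorsAntidiagonal]
      exact ⟨hj12, by omega⟩
    refine le_trans (le_of_eq ?_) (single_le_sum (fun d _ => hnn x d) hd)
    rw [if_pos]
    exact ⟨h2, ⟨q, hq, h3⟩, h4⟩
  refine le_trans (sum_le_sum key) ?_
  refine le_trans (sum_le_sum_of_subset_of_nonneg (filter_subset _ _) fun x _ _ => sum_nonneg fun d _ => hnn x d) ?_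
  rw [sum_comm]
  have h2 : ∀ d ∈ j.divisorsAntidiagonal, ∑ x ∈ Fintype.piFinset B,
      (if PF a b U W x ∧ (∃ q ∈ Q, ((D * (q * d.1) : ℕ) : ℤ) ∣ SF a b U W x) ∧ d.2 ∣ ∏ f, x f then wF x else 0) ≤
      cS * σ * (j : ℝ) ^ (-(3 / 4) : ℝ) + (Z : ℝ) ^ (-(3 / 4) : ℝ) := by
    intro d hd
    obtain ⟨m1, m2, m3⟩ := hjj d hd
    rw [← sum_filter]
    have := XA6_pair h Q hQ σ hσ D d.1 d.2 hD m1 m2
    rw [m3] at this
    exact this
  refine le_trans (sum_le_sum h2) ?_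
  rw [sum_const, nsmul_eq_mul]
  have h4 : j.divisorsAntidiagonal.card = j.divisors.card := by
    rw [← Nat.map_div_right_divisors, card_map]
  rw [h4]

end Pool.Agent.Lib.TE
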