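import Pool.Agent.Lib.MP_7b7e48_nt.TE.XM1
import Pool.Agent.Lib.MP_7b7e48_nt.TC.CycLam

/-!
# Module XB1 (45 minutes): a good cycle without exceptional numbers gives the relation

PROOF. Suppose that no position is in `Pat s t ∪ Pat (-s) (-t)`. All numbers `n = e i * AA i`, `e i * BB i` satisfy `SSet` (`g.setA`, `g.setB`), i.e. `n ∈ Sst T.N T.y T.z` (`GT.Rough w n`: every prime factor is `> w`), and `(lam n, lam (N - n))` is neither `(s, t)` nor `(-s, -t)`, so `lam (N - n) = - s t lam n` (all four values are `±1`).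
`TC.lam_eq` with `κ = - s t` (`m = k + 1`; positivity of `AA i`, `BB i`: `e i * AA i > 0`; of the windows: primes, `marks_pos`): `lam X = lam (X - D N)` (`g.prodA`, `g.prodB`).
-/

set_option autoImplicit false

open Finset
open Pool.Agent.Lib.MP_45349e_nt.LS (lam)
open Pool.Agent.Lib.TC (MS Dat ext1 Sm Cyc)

namespace Pool.Agent.Lib.TE

private theorem XB1_lam {N w z n : ℕ} (hn : n ∈ Sst N w z) {s t : ℝ} (hs : s = 1 ∨ s = -1) (ht : t = 1 ∨ t = -1)
    (h1 : n ∉ Pat N w z s t ∪ Pat N w z (-s) (-t)) : lam (N - n) = (-(s * t)) * lam n := by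
  classical
  rw [Finset.mem_union, not_or, Pat, Pat, Finset.mem_filter, Finset.mem_filter] at h1
  have h2 : ¬ (lam n = s ∧ lam (N - n) = t) := fun k => h1.1 ⟨hn, k⟩
  have h3 : ¬ (lam n = -s ∧ lam (N - n) = -t) := fun k => h1.2 ⟨hn, k⟩
  rcases hs with rfl | rfl <;> rcases ht with rfl | rfl <;> rcases TC.lam_pm n with q | q <;> rcases TC.lam_pm (N - n) with r | r <;>
    rw [q, r] at h2 h3 <;> rw [q, r] <;>
    first | (norm_num; done) | (exfalso; norm_num at h2; done) | (exfalso; norm_num at h3; done)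

theorem exc_of_ne {S : MS} {T : Dat} {Wf Z Cc : ℕ} {e1 e2 : ℝ} (h : XOK S T Wf Z Cc e1 e2) {c : S.Col} {μ : S.TX} {ν : S.TY} (hμ : μ ∈ S.MX)
    (hν : ν ∈ S.MY) {X : ℕ} {e t : ℕ → ℕ} (g : S.Good T c μ ν X e t) (s t0 : ℝ) (hs : s = 1 ∨ s = -1) (ht : t0 = 1 ∨ t0 = -1)
    (hl : lam X ≠ lam (X - T.D * T.N)) :
    ∃ i ≤ S.k, e i * S.AA T.N c μ ν X i ∈ Pat T.N T.y T.z s t0 ∪ Pat T.N T.y T.z (-s) (-t0) ∨
      e i * S.BB T.N c μ ν (X - T.D * T.N) i ∈ Pat T.N T.y T.z s t0 ∪ Pat T.N T.y T.z (-s) (-t0) := by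
  classical
  by_contra hne
  push Not at hne
  obtain ⟨m1, m2, -⟩ := marks_pos h hμ hν c
  have hS : ∀ n : ℕ, T.SSet n → n ∈ Sst T.N T.y T.z := by
    rintro n ⟨h0, h1, h2, h3, h4⟩
    unfold Sst
    refine Finset.mem_filter.mpr ⟨Finset.mem_Ioo.mpr ⟨h0, h1⟩, h2, ?_, ?_⟩
    · intro p hp hd
      by_contra hc
      exact h3 p hp (not_lt.mp hc) hd
    · intro p hp hd
      by_contra hc
      exact h4 p hp (not_lt.mp hc) hd
  have hst : (-(s * t0)) ^ 2 = (1 : ℝ) := by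
    rcases hs with rfl | rfl <;> rcases ht with rfl | rfl <;> norm_num
  have key := g.cyc.lam_eq (Nat.succ_pos _) (fun i hi => Nat.pos_of_mul_pos_left (g.setA i hi).1) (fun i hi => Nat.pos_of_mul_pos_left (g.setB i hi).1)
    (fun i _ => m1 i) (fun i _ => m2 i) hst
    (fun i hi => XB1_lam (hS _ (g.setA i hi)) hs ht (hne i (Nat.lt_succ_iff.mp hi)).1)
    (fun i hi => XB1_lam (hS _ (g.setB i hi)) hs ht (hne i (Nat.lt_succ_iff.mp hi)).2)
  rw [g.prodA, g.prodB] at key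
  exact hl key

end Pool.Agent.Lib.TE
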