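import Pool.Agent.Lib.MP_7b7e48_nt.TE.XB1
import Pool.Agent.Lib.MP_7b7e48_nt.BR.D0

/-!
# Module XB2 (90 minutes): the linked pairs with the wrong sign are affected

`R = W0 ^ 2 * T.N`. PROOF. The left side is `∑` over `(x, j, t, i, t')` (`x` a unit, `J2 ≤ j < J1`, `t ∈ TUP (famX S)`, `i < J0`, `t' ∈ TUP (famY S)`) of the indicator of: `X = (l x).val + j R` and `Y = x.val + i R` satisfy `Rgh1`, `t ∣ X`, `t' ∣ Y`, `¬ BdS`,
`LkS S T X t (l Y) t'`, `lam X ≠ lam (l Y)` (`AP`, `AFt`; drop what is not needed). Map such a quintuple to `(D', (X, (μ, ν)))`, where `μ ∈ S.MX`, `ν ∈ S.MY` come from `LkS` (`prX id μ = t`, `prY id ν = t'`) and `D' = (X - l Y) / R`: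
`X ≡ l Y` modulo `R`, and `l Y ≤ 4 MM^2 J0 R < J2 R ≤ X` by `hok.j02` (`l = 1` or `l ∈ PZ`: `l ≤ 4 MM^2`; `Y < J0 R`), `X < J1 R`; so `X - l Y = D' R`, `1 ≤ D' ≤ J1`, `(X - l Y) / T.N = W0^2 D'`, `X - (W0^2 D') T.N = l Y`.
The image is in `Aff`: `S.prX id μ = t ∣ X`, `S.prY id ν = t' ∣ Y ∣ l Y`; `Linked` gives a good cycle (for `wD T (W0^2 D')`), and `exc_of_ne` (for the data `wD T (W0^2 D')`, hypothesis `hx D'`) gives a position in the union of the two patterns.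
The map is injective: `μ, ν` give `t, t'`; `X, D'` give `l Y = X - D' R`, hence `Y`, hence `i = Y / R` and `x = Y` modulo `R`; `j = X / R`.
-/

set_option autoImplicit false

open Finset
open Pool.Agent.Lib.MP_45349e_nt.LS (lam)
open Pool.Agent.Lib.TC (MS Dat ext1 Sm Cyc)
open Pool.Agent.Lib.TCB (datS LkS BdS wD)
open Pool.Agent.Lib.TCF (AP Mul)
open Pool.Agent.Lib.RH (Prm MM JJ)

namespace Pool.Agent.Lib.TE


private def XB2C (S : MS) (T : Dat) (R l : ℕ) (q : ZMod R × ℕ × ℕ × ℕ × ℕ) : Prop :=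
  q.2.2.1 ∣ ((l : ZMod R) * q.1).val + q.2.1 * R ∧ q.2.2.2.2 ∣ q.1.val + q.2.2.2.1 * R ∧
    LkS S T (((l : ZMod R) * q.1).val + q.2.1 * R) q.2.2.1 (l * (q.1.val + q.2.2.2.1 * R)) q.2.2.2.2 ∧
    lam (((l : ZMod R) * q.1).val + q.2.1 * R) ≠ lam (l * (q.1.val + q.2.2.2.1 * R))

open Classical in
private theorem XB2_le (P : Prm) (S : MS) (T : Dat) (R y1 J0 J1 J2 l : ℕ) (x : ZMod R) :
    AP P R (datS S J0 J1 J2 T.y0) (LkS S T) (BdS S T y1) l x ≤
      ∑ j ∈ Ico J2 J1, ∑ t ∈ TCF.TUP (TCB.famX S), ∑ i ∈ range J0, ∑ t' ∈ TCF.TUP (TCB.famY S),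
        if XB2C S T R l (x, j, t, i, t') then (1 : ℝ) else 0 := by
  have h01 : ∀ q : ZMod R × ℕ × ℕ × ℕ × ℕ, (0 : ℝ) ≤ if XB2C S T R l q then (1 : ℝ) else 0 := by
    intro q
    split_ifs
    · exact zero_le_one
    · exact le_rfl
  unfold AP
  show ∑ j ∈ Ico J2 J1, _ ≤ _
  refine sum_le_sum fun j _ => ?_
  split_ifs with h1
  · rw [sum_filter]
    show ∑ t ∈ TCF.TUP (TCB.famX S), _ ≤ _
    refine sum_le_sum fun t _ => ?_
    split_ifs with h2
    · show ∑ i ∈ range J0, _ ≤ _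
      refine sum_le_sum fun i _ => ?_
      unfold TCF.AFt
      split_ifs with h3
      · rw [card_filter]
        push_cast
        show ∑ t' ∈ TCF.TUP (TCB.famY S), _ ≤ _
        refine sum_le_sum fun t' _ => ?_
        split_ifs with h4 h5
        · exact le_rfl
        · exact absurd ⟨h2, h4.1, h4.2.2.1, h4.2.2.2⟩ h5
        · exact zero_le_one
        · exact le_rfl
      · exact sum_nonneg fun t' _ => h01 _
    · exact sum_nonneg fun i _ => sum_nonneg fun t' _ => h01 _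
  · exact sum_nonneg fun t _ => sum_nonneg fun i _ => sum_nonneg fun t' _ => h01 _

private theorem XB2_mod (R l : ℕ) [NeZero R] (x : ZMod R) (i j : ℕ) :
    ((l : ZMod R) * x).val + j * R ≡ l * (x.val + i * R) [MOD R] := by
  rw [← ZMod.natCast_eq_natCast_iff]
  push_cast
  rw [ZMod.natCast_zmod_val, ZMod.natCast_zmod_val, ZMod.natCast_self]
  ring

private theorem XB2_div (R : ℕ) [NeZero R] (x : ZMod R) (i : ℕ) : (x.val + i * R) / R = i ∧ ((x.val + i * R : ℕ) : ZMod R) = x := by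
  constructor
  · rw [Nat.add_mul_div_right _ _ (Nat.pos_of_ne_zero (NeZero.ne R)), Nat.div_eq_of_lt (ZMod.val_lt x), zero_add]
  · push_cast
    rw [ZMod.natCast_zmod_val, ZMod.natCast_self]
    ring

open Classical in
private theorem XB2_main (P : Prm) (S : MS) (T : Dat) (W0 y1 J0 J1 J2 R : ℕ) {Wf Z Cc : ℕ} {e1 e2 : ℝ} (hR : R = W0 ^ 2 * T.N) (hW0 : 0 < W0) [NeZero R]
    (hok : (datS S J0 J1 J2 T.y0).Ok P R) (hx : ∀ D' : ℕ, 0 < D' → D' ≤ J1 → XOK S (wD T (W0 ^ 2 * D')) Wf Z Cc e1 e2)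
    (s t0 : ℝ) (hs : s = 1 ∨ s = -1) (ht0 : t0 = 1 ∨ t0 = -1) (l : ℕ) (hl : Mul P R l) :
    ∑ x : ZMod R, (if IsUnit x then AP P R (datS S J0 J1 J2 T.y0) (LkS S T) (BdS S T y1) l x else 0) ≤
      ∑ D' ∈ Icc 1 J1, ((Aff S (wD T (W0 ^ 2 * D')) (Pat T.N T.y T.z s t0 ∪ Pat T.N T.y T.z (-s) (-t0))
        (range (J1 * R))).card : ℝ) := by
  set Q : Finset (ZMod R × ℕ × ℕ × ℕ × ℕ) := ((univ : Finset (ZMod R)) ×ˢ (Ico J2 J1 ×ˢ (TCF.TUP (TCB.famX S) ×ˢ (range J0 ×ˢ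
    TCF.TUP (TCB.famY S))))).filter (fun q => XB2C S T R l q) with hQ
  have hQc : ((Q.card : ℕ) : ℝ) = ∑ x : ZMod R, ∑ j ∈ Ico J2 J1, ∑ t ∈ TCF.TUP (TCB.famX S), ∑ i ∈ range J0,
      ∑ t' ∈ TCF.TUP (TCB.famY S), if XB2C S T R l (x, j, t, i, t') then (1 : ℝ) else 0 := by
    rw [hQ, card_filter]
    push_cast
    rw [sum_product]
    refine sum_congr rfl fun x _ => ?_
    rw [sum_product]
    refine sum_congr rfl fun j _ => ?_
    rw [sum_product]
    refine sum_congr rfl fun t _ => ?_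
    rw [sum_product]
  have hL : ∑ x : ZMod R, (if IsUnit x then AP P R (datS S J0 J1 J2 T.y0) (LkS S T) (BdS S T y1) l x else 0) ≤ ((Q.card : ℕ) : ℝ) := by
    rw [hQc]
    refine sum_le_sum fun x _ => ?_
    split_ifs with hu
    · exact XB2_le P S T R y1 J0 J1 J2 l x
    · refine sum_nonneg fun j _ => sum_nonneg fun t _ => sum_nonneg fun i _ => sum_nonneg fun t' _ => ?_
      split_ifs
      · exact zero_le_one
      · exact le_rfl
  have hl1 : 0 < l ∧ l ≤ 4 * MM P R ^ 2 := by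
    have hM : 0 < MM P R := by
      unfold MM
      positivity
    rcases hl with h | h
    · rw [h]
      have : 0 < MM P R ^ 2 := by positivity
      exact ⟨one_pos, by omega⟩
    · unfold RG.PZ at h
      have h1 := mem_Ioc.1 (mem_filter.1 h).1
      exact ⟨by omega, h1.2⟩
  refine hL.trans ?_
  rw [← Nat.cast_sum, Nat.cast_le, ← Finset.card_sigma]
  refine Finset.card_le_card_of_forall_subsingleton (fun q z => z.2.1 = ((l : ZMod R) * q.1).val + q.2.1 * R ∧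
    l * (q.1.val + q.2.2.2.1 * R) + z.1 * R = ((l : ZMod R) * q.1).val + q.2.1 * R ∧ S.prX id z.2.2.1 = q.2.2.1 ∧
    S.prY id z.2.2.2 = q.2.2.2.2) ?_ ?_
  · rintro ⟨x, j, t, i, t'⟩ hq
    rw [hQ, mem_filter, mem_product, mem_product, mem_product, mem_product] at hq
    obtain ⟨⟨_, hj, _, hi, _⟩, hC⟩ := hq
    simp only [mem_Ico, mem_range] at hj hi
    unfold XB2C at hC
    simp only at hC
    obtain ⟨c1, c2, c3, c4⟩ := hC
    obtain ⟨X, hX⟩ : ∃ X : ℕ, X = ((l : ZMod R) * x).val + j * R := ⟨_, rfl⟩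
    obtain ⟨Y, hY⟩ : ∃ Y : ℕ, Y = x.val + i * R := ⟨_, rfl⟩
    have hmod : X ≡ l * Y [MOD R] := by
      rw [hX, hY]
      exact XB2_mod R l x i j
    simp only [← hX, ← hY] at c1 c2 c3 c4 ⊢
    obtain ⟨μ, hμ, ν, hν, e1, e2, hlk⟩ := c3
    have hx1 := hx 1 one_pos (by omega)
    have hN2 : 2 ≤ T.N := hx1.N2
    have hRpos : 0 < R := Nat.pos_of_ne_zero (NeZero.ne R)
    have hR2 : 2 ≤ R := by
      rw [hR]
      have : 0 < W0 ^ 2 := by positivity
      nlinarith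
    have hJJ : 1 ≤ JJ R := by
      unfold JJ
      rw [Nat.one_le_ceil_iff]
      have : 0 < Real.log R := Real.log_pos (by exact_mod_cast (by omega : 1 < R))
      positivity
    have hlY : l * Y < X := by
      have h1 : Y < J0 * R := by
        have h2 : x.val < R := ZMod.val_lt x
        have h3 : (i + 1) * R ≤ J0 * R := Nat.mul_le_mul_right _ hi
        rw [hY]
        have h4 : (i + 1) * R = i * R + R := by ring
        omega
      have h5 : 4 * MM P R ^ 2 * J0 ≤ J2 := by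
        have h6 := hok.j02
        have h7 : 4 * MM P R ^ 2 * J0 * 1 ≤ 4 * MM P R ^ 2 * J0 * (2 * JJ R) := Nat.mul_le_mul_left _ (by omega)
        have h8 : 4 * MM P R ^ 2 * J0 * (2 * JJ R) = 8 * JJ R * MM P R ^ 2 * J0 := by ring
        have h9 : 8 * JJ R * MM P R ^ 2 * J0 ≤ J2 := h6
        omega
      calc l * Y < l * (J0 * R) := Nat.mul_lt_mul_of_pos_left h1 hl1.1
        _ ≤ 4 * MM P R ^ 2 * (J0 * R) := Nat.mul_le_mul_right _ hl1.2
        _ = 4 * MM P R ^ 2 * J0 * R := by ring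
        _ ≤ J2 * R := Nat.mul_le_mul_right _ h5
        _ ≤ j * R := Nat.mul_le_mul_right _ hj.1
        _ ≤ X := by rw [hX]; exact Nat.le_add_left _ _
    have hXJ : X < J1 * R := by
      have h2 : ((l : ZMod R) * x).val < R := ZMod.val_lt _
      have h3 : (j + 1) * R ≤ J1 * R := Nat.mul_le_mul_right _ hj.2
      have h4 : (j + 1) * R = j * R + R := by ring
      omega
    obtain ⟨D', hD'⟩ : ∃ D' : ℕ, X - l * Y = R * D' := (Nat.modEq_iff_dvd' hlY.le).1 hmod.symm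
    have hXe : l * Y + D' * R = X := by
      have : D' * R = R * D' := Nat.mul_comm _ _
      omega
    have hD1 : 0 < D' := by
      rcases Nat.eq_zero_or_pos D' with h | h
      · rw [h, mul_zero] at hD'
        omega
      · exact h
    have hD2 : D' ≤ J1 := by
      have h1 : D' * R < J1 * R := by omega
      exact (Nat.lt_of_mul_lt_mul_right h1).le
    have hdiv : (X - l * Y) / T.N = W0 ^ 2 * D' := by
      rw [hD', hR]
      have : W0 ^ 2 * T.N * D' = (W0 ^ 2 * D') * T.N := by ring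
      rw [this, Nat.mul_div_cancel _ (by omega)]
    have hsub : X - W0 ^ 2 * D' * T.N = l * Y := by
      have : W0 ^ 2 * D' * T.N = D' * R := by rw [hR]; ring
      rw [this]
      omega
    rw [hdiv] at hlk
    obtain ⟨c, e, tt, g⟩ := hlk
    have hxx := hx D' hD1 hD2
    have hne : lam X ≠ lam (X - (wD T (W0 ^ 2 * D')).D * (wD T (W0 ^ 2 * D')).N) := by
      show lam X ≠ lam (X - W0 ^ 2 * D' * T.N)
      rw [hsub]
      exact c4
    have hexc := exc_of_ne hxx hμ hν g s t0 hs ht0 hne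
    refine ⟨⟨D', (X, (μ, ν))⟩, ?_, rfl, hXe, e1, e2⟩
    rw [mem_sigma]
    refine ⟨mem_Icc.2 ⟨hD1, hD2⟩, ?_⟩
    unfold Aff
    rw [mem_filter, mem_product, mem_product]
    refine ⟨⟨mem_range.2 hXJ, hμ, hν⟩, ?_, ?_, c, e, tt, g, hexc⟩
    · show S.prX id μ ∣ X
      rw [e1]
      exact c1
    · show S.prY id ν ∣ X - W0 ^ 2 * D' * T.N
      rw [hsub, e2]
      exact Dvd.dvd.mul_left c2 l
  · rintro z - ⟨x, j, t, i, t'⟩ ⟨-, a1, a2, a3, a4⟩ ⟨x', j', u, i', u'⟩ ⟨-, b1, b2, b3, b4⟩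
    simp only at a1 a2 a3 a4 b1 b2 b3 b4
    have hXX : ((l : ZMod R) * x).val + j * R = ((l : ZMod R) * x').val + j' * R := a1.symm.trans b1
    have hYY : x.val + i * R = x'.val + i' * R := by
      have h1 : l * (x.val + i * R) = l * (x'.val + i' * R) := by omega
      exact Nat.eq_of_mul_eq_mul_left hl1.1 h1
    have hj : j = j' := by
      have h1 := (XB2_div R ((l : ZMod R) * x) j).1
      have h2 := (XB2_div R ((l : ZMod R) * x') j').1
      rw [hXX] at h1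
      exact h1.symm.trans h2
    have hi : i = i' := by
      have h1 := (XB2_div R x i).1
      have h2 := (XB2_div R x' i').1
      rw [hYY] at h1
      exact h1.symm.trans h2
    have hxx : x = x' := by
      have h1 := (XB2_div R x i).2
      have h2 := (XB2_div R x' i').2
      rw [hYY] at h1
      exact h1.symm.trans h2
    have ht : t = u := a3.symm.trans b3
    have ht' : t' = u' := a4.symm.trans b4
    rw [hxx, hj, hi, ht, ht']

open Classical in
theorem ap_le_aff (P : Prm) (S : MS) (T : Dat) (W0 y1 J0 J1 J2 : ℕ) {Wf Z Cc : ℕ} {e1 e2 : ℝ} (hW0 : 0 < W0) [NeZero (W0 ^ 2 * T.N)]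
    (hok : (datS S J0 J1 J2 T.y0).Ok P (W0 ^ 2 * T.N)) (hx : ∀ D' : ℕ, 0 < D' → D' ≤ J1 → XOK S (wD T (W0 ^ 2 * D')) Wf Z Cc e1 e2)
    (s t : ℝ) (hs : s = 1 ∨ s = -1) (ht : t = 1 ∨ t = -1) (l : ℕ) (hl : Mul P (W0 ^ 2 * T.N) l) :
    ∑ x : ZMod (W0 ^ 2 * T.N), (if IsUnit x then AP P (W0 ^ 2 * T.N) (datS S J0 J1 J2 T.y0) (LkS S T) (BdS S T y1) l x else 0) ≤
      ∑ D' ∈ Icc 1 J1, ((Aff S (wD T (W0 ^ 2 * D')) (Pat T.N T.y T.z s t ∪ Pat T.N T.y T.z (-s) (-t))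
        (range (J1 * (W0 ^ 2 * T.N)))).card : ℝ) := by
  exact XB2_main P S T W0 y1 J0 J1 J2 (W0 ^ 2 * T.N) rfl hW0 hok hx s t hs ht l hl

end Pool.Agent.Lib.TE
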