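import Pool.Agent.Lib.MP_7b7e48_nt.TE.HD
import Pool.Agent.Lib.MP_7b7e48_nt.TCF.Sgl
import Pool.Agent.Lib.MP_7b7e48_nt.GT.PNTAP

/-!
# Module XB3 (75 minutes): the character is not trivial on the class `1` modulo `W0 ^ 2`, and its data

`R = W0 ^ 2 * N`, `M = MM P R`. `xb_ne`. PROOF. There is a prime `l ≡ 1` modulo `q = W0^2`, `M < l ≤ 4 M^2`, `l ∤ R`: `GT.pnt_ap q 1` (`(1/x) ∑_{n ≤ x, n ≡ 1 (q)} lam n → 1/φ(q)`, `lam` is the weight `log n` on primes; see `GT/PNTAP.lean` for its definition; or `Nat.setOf_prime_and_eq_mod_infinite` is not enough)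
gives for large `M` that the primes `l ≤ 4 M^2`, `l ≡ 1 (q)` have `∑ log l ≥ 2 M^2 / φ(q)`, so their number is `≥ 2 M^2 / (φ(q) log (4 M^2)) ≥ M^(3/2)` for large `M`, while at most `M` are `≤ M` and at most `2 log R ≤ 2 M` divide `R`
(`RG.omega_le_log`; `MM ≥ (log R)^C1 ≥ log R`: `RH.num`, `Num.M1`); `MM P R → ∞` as `N → ∞`. For this `l`: `l ∈ PZ`, so `χ l = -1 ≠ 1`, `l` is prime and `∤ R`.
`xb_sig`. PROOF. `TCF.sgl P hP (min δ 1 / 4)` for the modulus `R` (`R ≥ N`): `L`, and `R^(1-e) ≤ sgm R / JJ^2`, so `sgm ≥ R^(-e) ≥ N^(-δ)` (`R ≤ N^2`, `e ≤ δ/2`); `R^(-1/50) ≤ R^(-1/200) ≤ L`; `(log R)^3 ≤ (2 log N)^3 ≤ (log N)^4`.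
The last sum: a prime `q ≤ N^(4/5)`, `q > MM P R`, `(χ q).re = 1` is in `TCF.QM P χ`: `χ q = 1` (values `0, ±1`), `N^(4/5) ≤ R^(4/5) ≤ R^(1 - kap)`, `q ≤ R`. (`OW.QP f n` = the primes `≤ n` with `f = 1`.)
-/

set_option autoImplicit false

open Finset
open Pool.Agent.Lib.RG (LV)
open Pool.Agent.Lib.OW (QP)
open Pool.Agent.Lib.TCF (sgm)
open Pool.Agent.Lib.RH (Prm MM JJ)

namespace Pool.Agent.Lib.TE

private theorem XB3_log (c0 : ℝ) (hc0 : 0 < c0) : ∃ M0 : ℕ, ∀ M : ℕ, M0 ≤ M →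
    3 * (M : ℝ) * Real.log (4 * (M : ℝ) ^ 2) < 2 * c0 * (M : ℝ) ^ 2 := by
  have h1 := Real.isLittleO_log_id_atTop.bound (show (0 : ℝ) < c0 / 12 by positivity)
  have h2 : Filter.Tendsto (fun M : ℕ => 2 * (M : ℝ)) Filter.atTop Filter.atTop :=
    (tendsto_natCast_atTop_atTop (R := ℝ)).const_mul_atTop (by norm_num)
  obtain ⟨M0, hM0⟩ := Filter.eventually_atTop.1 (h2.eventually h1)
  refine ⟨max M0 1, fun M hM => ?_⟩
  have h3 := hM0 M ((le_max_left _ _).trans hM)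
  have hM1 : (1 : ℝ) ≤ M := by exact_mod_cast (le_max_right M0 1).trans hM
  have h4 : 0 ≤ Real.log (2 * (M : ℝ)) := Real.log_nonneg (by linarith)
  rw [Real.norm_of_nonneg h4, id, Real.norm_of_nonneg (by positivity)] at h3
  have h5 : Real.log (4 * (M : ℝ) ^ 2) = 2 * Real.log (2 * (M : ℝ)) := by
    rw [show 4 * (M : ℝ) ^ 2 = (2 * (M : ℝ)) ^ 2 by ring, Real.log_pow]
    norm_num
  rw [h5]
  have hMM : 0 < (M : ℝ) * M := by positivity
  have h6 : (M : ℝ) * Real.log (2 * (M : ℝ)) ≤ M * (c0 / 12 * (2 * M)) :=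
    mul_le_mul_of_nonneg_left h3 (by linarith)
  have h7 : 0 < c0 * ((M : ℝ) * M) := by positivity
  nlinarith

private theorem XB3_prime (q : ℕ) (hq : 1 ≤ q) : ∃ M0 : ℕ, ∀ M : ℕ, M0 ≤ M → ∀ R : ℕ, 1 ≤ R → Real.log R ≤ M →
    ∃ l : ℕ, l ∈ Pool.Agent.Lib.RG.PZ R M ∧ l ≡ 1 [MOD q] := by
  have hφ : (0 : ℝ) < 1 / (q.totient : ℝ) := by
    have := Nat.totient_pos.2 hq
    positivity
  set c0 : ℝ := 1 / (q.totient : ℝ) with hc0
  have h1 := Pool.Agent.Lib.GT.pnt_ap q 1 hq (Nat.coprime_one_left q)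
  obtain ⟨X0, hX0⟩ := Filter.eventually_atTop.1 (h1.eventually (lt_mem_nhds (half_lt_self hφ)))
  obtain ⟨M1, hM1⟩ := XB3_log c0 hφ
  refine ⟨max (max X0 M1) 1, fun M hM R hR hlog => ?_⟩
  have hMa : X0 ≤ M := le_trans (le_trans (le_max_left _ _) (le_max_left _ _)) hM
  have hMb : M1 ≤ M := le_trans (le_trans (le_max_right _ _) (le_max_left _ _)) hM
  have hMc : 1 ≤ M := le_trans (le_max_right _ _) hM
  have hMr : (1 : ℝ) ≤ M := by exact_mod_cast hMc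
  by_contra hcon
  push Not at hcon
  set x : ℕ := 4 * M ^ 2 with hx
  have hxM : M ≤ x := by nlinarith
  have h2 := hX0 x (hMa.trans hxM)
  have hx0 : (0 : ℝ) < x := by
    have : 0 < x := lt_of_lt_of_le hMc hxM
    exact_mod_cast this
  rw [lt_div_iff₀ hx0] at h2
  have hxr : (x : ℝ) = 4 * (M : ℝ) ^ 2 := by rw [hx]; push_cast; ring
  set P : Finset ℕ := (Finset.Icc 1 x).filter fun n => n % q = 1 % q ∧ n.Prime with hP
  have h3 : ∑ n ∈ (Finset.Icc 1 x).filter (fun n => n % q = 1 % q), Pool.Agent.Lib.GT.lam n =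
      ∑ n ∈ P, Real.log n := by
    rw [hP, ← Finset.filter_filter, Finset.sum_filter (fun n : ℕ => n.Prime)]
    rfl
  have h4 : ∑ n ∈ P, Real.log (n : ℝ) ≤ (P.card : ℝ) * Real.log (4 * (M : ℝ) ^ 2) := by
    rw [← nsmul_eq_mul]
    apply Finset.sum_le_card_nsmul
    intro n hn
    rw [hP, mem_filter, mem_Icc] at hn
    rw [← hxr]
    apply Real.log_le_log
    · have := hn.1.1
      exact_mod_cast this
    · exact_mod_cast hn.1.2
  have h5 : P ⊆ Finset.Icc 1 M ∪ R.primeFactors := by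
    intro n hn
    rw [hP, mem_filter, mem_Icc] at hn
    rw [mem_union, mem_Icc, Nat.mem_primeFactors]
    by_cases hnM : n ≤ M
    · exact Or.inl ⟨hn.1.1, hnM⟩
    · right
      refine ⟨hn.2.2, ?_, by omega⟩
      by_contra hnR
      refine hcon n ?_ hn.2.1
      rw [Pool.Agent.Lib.RG.mem_PZ]
      exact ⟨by omega, hn.1.2, hn.2.2, hnR⟩
  have h6 : (P.card : ℝ) ≤ 3 * M := by
    have k1 := (card_le_card h5).trans (card_union_le _ _)
    rw [Nat.card_Icc, Nat.add_sub_cancel] at k1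
    have k2 : (P.card : ℝ) ≤ M + R.primeFactors.card := by exact_mod_cast k1
    have k3 := Pool.Agent.Lib.RG.omega_le_log R hR
    linarith
  have h7 := hM1 M hMb
  have h8 : 0 ≤ Real.log (4 * (M : ℝ) ^ 2) := by
    apply Real.log_nonneg
    nlinarith
  have h9 : (P.card : ℝ) * Real.log (4 * (M : ℝ) ^ 2) ≤ 3 * M * Real.log (4 * (M : ℝ) ^ 2) :=
    mul_le_mul_of_nonneg_right h6 h8
  rw [h3, hxr] at h2
  linarith

private theorem XB3_re {N : ℕ} (χ : DirichletCharacter ℂ N) (h2 : χ ^ 2 = 1) (q : ℕ) :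
    (χ (q : ZMod N)).re = 1 ↔ χ (q : ZMod N) = 1 := by
  constructor
  · intro h
    by_cases hu : IsUnit (q : ZMod N)
    · have h3 : (χ (q : ZMod N)) ^ 2 = 1 := by
        rw [← MulChar.pow_apply' χ two_ne_zero, h2, MulChar.one_apply hu]
      rcases mul_eq_zero.1 (show (χ (q : ZMod N) - 1) * (χ (q : ZMod N) + 1) = 0 by
        linear_combination h3) with h4 | h4
      · linear_combination h4
      · exfalso
        have h5 : χ (q : ZMod N) = -1 := by linear_combination h4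
        rw [h5] at h
        norm_num at h
    · exfalso
      rw [MulChar.map_nonunit χ hu] at h
      norm_num at h
  · intro h
    rw [h]
    simp

open Classical in
private theorem XB3_sig (P : Prm) (hP : P.Ok) (δ : ℝ) (hδ : 0 < δ) : ∃ N0 : ℕ, ∀ (N R : ℕ) [NeZero R], N0 ≤ N → N ≤ R → R ≤ N ^ 2 →
    ∀ χ : DirichletCharacter ℂ R, χ ^ 2 = 1 → χ ≠ 1 →
    (∃ L : ℝ, 0 ≤ L ∧ LV R (fun n => (χ (n : ZMod R)).re) L ∧ (R : ℝ) ^ (-(1 / 50) : ℝ) ≤ L ∧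
      L ≤ (Real.log N) ^ 4 * sgm P χ) ∧ (N : ℝ) ^ (-δ) ≤ sgm P χ ∧
    ∑ q ∈ (QP (fun n => (χ (n : ZMod R)).re) ⌊(N : ℝ) ^ ((4 : ℝ) / 5)⌋₊).filter (fun q => MM P R < q), 1 / (q : ℝ) ≤
      sgm P χ := by
  have he : 0 < min δ 1 / 4 := by
    have := lt_min hδ one_pos
    linarith
  obtain ⟨N1, hN1⟩ := Pool.Agent.Lib.TCF.sgl P hP (min δ 1 / 4) he
  obtain ⟨N2, hN2⟩ := Filter.eventually_atTop.1 (Pool.Agent.Lib.RH.ev_log_ge (8 : ℝ))
  obtain ⟨N3, hN3⟩ := Pool.Agent.Lib.RH.num P hP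
  refine ⟨max (max N1 (max N3 N2)) 1, fun N R _ hN hNR hRN' χ h2 hne => ?_⟩
  have hNa : N1 ≤ N := (le_max_left _ _).trans ((le_max_left _ _).trans hN)
  have hNn : N3 ≤ N := (le_max_left _ _).trans ((le_max_right _ _).trans ((le_max_left _ _).trans hN))
  have hNb : N2 ≤ N := (le_max_right _ _).trans ((le_max_right _ _).trans ((le_max_left _ _).trans hN))
  have hNd : 1 ≤ N := (le_max_right _ _).trans hN
  obtain ⟨⟨L, hL1, hL2, hL3⟩, hs⟩ := hN1 R (hNa.trans hNR) χ h2 hne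
  have hnum := hN3 R (hNn.trans hNR)
  have hN1r : (1 : ℝ) ≤ N := by exact_mod_cast hNd
  have hRr : (N : ℝ) ≤ (R : ℝ) := by exact_mod_cast hNR
  have hR1 : (1 : ℝ) ≤ (R : ℝ) := hN1r.trans hRr
  have hRN : (R : ℝ) ≤ (N : ℝ) ^ 2 := by exact_mod_cast hRN'
  have hlog : Real.log (R : ℝ) ≤ 2 * Real.log N := by
    have k := Real.log_le_log (by linarith) hRN
    rw [Real.log_pow] at k
    exact_mod_cast k
  have hK := hN2 N hNb
  have hl0 : 0 ≤ Real.log (R : ℝ) := Real.log_nonneg hR1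
  have hsg : 0 ≤ sgm P χ := by
    unfold Pool.Agent.Lib.TCF.sgm
    exact sum_nonneg fun q _ => by positivity
  refine ⟨⟨L, ?_, hL1, ?_, ?_⟩, ?_, ?_⟩
  · exact le_trans (Real.rpow_nonneg (by linarith) _) hL2
  · exact le_trans (Real.rpow_le_rpow_of_exponent_le hR1 (by norm_num)) hL2
  · refine hL3.trans (mul_le_mul_of_nonneg_right ?_ hsg)
    calc Real.log (R : ℝ) ^ 3 ≤ (2 * Real.log N) ^ 3 := pow_le_pow_left₀ hl0 hlog 3
      _ = 8 * Real.log N ^ 3 := by ring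
      _ ≤ Real.log N * Real.log N ^ 3 := mul_le_mul_of_nonneg_right hK (by positivity)
      _ = Real.log N ^ 4 := by ring
  · have hJ : (1 : ℝ) ≤ (JJ R : ℝ) := by
      refine le_trans ?_ hnum.J1
      have := hnum.K
      exact one_le_pow₀ (by linarith)
    have hR0 : (0 : ℝ) < R := by linarith
    have k1 : (R : ℝ) ^ (1 - min δ 1 / 4) ≤ sgm P χ * R := by
      refine hs.trans ?_
      apply div_le_self (by positivity)
      exact one_le_pow₀ hJ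
    rw [Real.rpow_sub hR0, Real.rpow_one, div_le_iff₀ (by positivity)] at k1
    have k2 : 1 ≤ sgm P χ * (R : ℝ) ^ (min δ 1 / 4) := by
      have k3 : (R : ℝ) * 1 ≤ R * (sgm P χ * (R : ℝ) ^ (min δ 1 / 4)) := by linarith
      exact le_of_mul_le_mul_left k3 hR0
    have k4 : (R : ℝ) ^ (min δ 1 / 4) ≤ (N : ℝ) ^ δ := by
      calc (R : ℝ) ^ (min δ 1 / 4) ≤ ((N : ℝ) ^ 2) ^ (min δ 1 / 4) :=
            Real.rpow_le_rpow hR0.le hRN he.le
        _ = (N : ℝ) ^ (2 * (min δ 1 / 4)) := by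
            rw [← Real.rpow_natCast, ← Real.rpow_mul (by linarith)]
            norm_num
        _ ≤ (N : ℝ) ^ δ := by
            apply Real.rpow_le_rpow_of_exponent_le hN1r
            have := min_le_left δ 1
            linarith
    rw [Real.rpow_neg (by linarith)]
    have hNδ : 0 < (N : ℝ) ^ δ := Real.rpow_pos_of_pos (by linarith) _
    rw [inv_le_iff_one_le_mul₀ hNδ]
    exact k2.trans (mul_le_mul_of_nonneg_left k4 hsg)
  · unfold Pool.Agent.Lib.TCF.sgm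
    apply sum_le_sum_of_subset_of_nonneg
    · intro q hq'
      unfold Pool.Agent.Lib.OW.QP at hq'
      unfold Pool.Agent.Lib.TCF.QM Pool.Agent.Lib.TCF.QS
      simp only [mem_filter, mem_range] at hq' ⊢
      obtain ⟨⟨hq1, hq2, hq3⟩, hq4⟩ := hq'
      have hqN : (q : ℝ) ≤ (N : ℝ) ^ ((4 : ℝ) / 5) :=
        (Nat.le_floor_iff (by positivity)).1 (by omega)
      have hqR : (q : ℝ) ≤ (R : ℝ) ^ (1 - P.kap) := by
        refine hqN.trans ?_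
        calc (N : ℝ) ^ ((4 : ℝ) / 5) ≤ (R : ℝ) ^ ((4 : ℝ) / 5) :=
              Real.rpow_le_rpow (by linarith) hRr (by norm_num)
          _ ≤ (R : ℝ) ^ (1 - P.kap) := by
              apply Real.rpow_le_rpow_of_exponent_le hR1
              have := hP.kap1
              linarith
      have hqR1 : (q : ℝ) ≤ R := by
        refine hqR.trans ?_
        calc (R : ℝ) ^ (1 - P.kap) ≤ (R : ℝ) ^ (1 : ℝ) :=
              Real.rpow_le_rpow_of_exponent_le hR1 (by linarith [hP.kap0])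
          _ = R := Real.rpow_one _
      have hqR2 : q ≤ R := by exact_mod_cast hqR1
      exact ⟨⟨by omega, hq2, hq4, (XB3_re χ h2 q).1 hq3⟩, hqR⟩
    · intro q _ _
      positivity


theorem xb_ne (P : Prm) (hP : P.Ok) (W0 : ℕ) (hW0 : 1 ≤ W0) : ∃ N0 : ℕ, ∀ (N : ℕ) [NeZero (W0 ^ 2 * N)], N0 ≤ N →
    ∀ χ : DirichletCharacter ℂ (W0 ^ 2 * N), (∀ l ∈ Pool.Agent.Lib.RG.PZ (W0 ^ 2 * N) (MM P (W0 ^ 2 * N)), χ (l : ZMod (W0 ^ 2 * N)) = -1) →
    ∃ m : ℕ, m ≡ 1 [MOD W0 ^ 2] ∧ m.Coprime (W0 ^ 2 * N) ∧ χ (m : ZMod (W0 ^ 2 * N)) ≠ 1 := by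
  have hq : 1 ≤ W0 ^ 2 := Nat.one_le_pow _ _ hW0
  obtain ⟨M0, hM0⟩ := XB3_prime (W0 ^ 2) hq
  obtain ⟨N1, hN1⟩ := Pool.Agent.Lib.RH.num P hP
  obtain ⟨N2, hN2⟩ := Filter.eventually_atTop.1 (Pool.Agent.Lib.RH.ev_log_ge (M0 : ℝ))
  refine ⟨max N1 (max N2 1), fun N _ hN χ hχ => ?_⟩
  have hNa : N1 ≤ N := (le_max_left _ _).trans hN
  have hNb : N2 ≤ N := (le_max_left _ _).trans ((le_max_right _ _).trans hN)
  have hNc : 1 ≤ N := (le_max_right _ _).trans ((le_max_right _ _).trans hN)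
  have hNR : N ≤ W0 ^ 2 * N := Nat.le_mul_of_pos_left N hq
  have hnum := hN1 (W0 ^ 2 * N) (hNa.trans hNR)
  have hR1 : 1 ≤ W0 ^ 2 * N := hNc.trans hNR
  have hlR : Real.log N ≤ Real.log ((W0 ^ 2 * N : ℕ) : ℝ) :=
    Real.log_le_log (by exact_mod_cast hNc) (by exact_mod_cast hNR)
  have hK := hnum.K
  have hlM : Real.log ((W0 ^ 2 * N : ℕ) : ℝ) ≤ MM P (W0 ^ 2 * N) := by
    refine le_trans ?_ hnum.M1
    have hC := hP.C1
    exact le_self_pow₀ (by linarith) (by omega)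
  have hMM : M0 ≤ MM P (W0 ^ 2 * N) := by
    have h1 : (M0 : ℝ) ≤ MM P (W0 ^ 2 * N) := (hN2 N hNb).trans (hlR.trans hlM)
    exact_mod_cast h1
  obtain ⟨l, hl, hl1⟩ := hM0 (MM P (W0 ^ 2 * N)) hMM (W0 ^ 2 * N) hR1 hlM
  refine ⟨l, hl1, ?_, ?_⟩
  · rw [Pool.Agent.Lib.RG.mem_PZ] at hl
    exact (Nat.Prime.coprime_iff_not_dvd hl.2.2.1).2 hl.2.2.2
  · rw [hχ l hl]
    norm_num

open Classical in
theorem xb_sig (P : Prm) (hP : P.Ok) (W0 : ℕ) (hW0 : 1 ≤ W0) (δ : ℝ) (hδ : 0 < δ) : ∃ N0 : ℕ, ∀ (N : ℕ) [NeZero (W0 ^ 2 * N)], N0 ≤ N →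
    ∀ χ : DirichletCharacter ℂ (W0 ^ 2 * N), χ ^ 2 = 1 → χ ≠ 1 →
    (∃ L : ℝ, 0 ≤ L ∧ LV (W0 ^ 2 * N) (fun n => (χ (n : ZMod (W0 ^ 2 * N))).re) L ∧ ((W0 ^ 2 * N : ℕ) : ℝ) ^ (-(1 / 50) : ℝ) ≤ L ∧
      L ≤ (Real.log N) ^ 4 * sgm P χ) ∧ (N : ℝ) ^ (-δ) ≤ sgm P χ ∧
    ∑ q ∈ (QP (fun n => (χ (n : ZMod (W0 ^ 2 * N))).re) ⌊(N : ℝ) ^ ((4 : ℝ) / 5)⌋₊).filter (fun q => MM P (W0 ^ 2 * N) < q), 1 / (q : ℝ) ≤
      sgm P χ := by
  have hq : 1 ≤ W0 ^ 2 := Nat.one_le_pow _ _ hW0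
  obtain ⟨N1, hN1⟩ := XB3_sig P hP δ hδ
  refine ⟨max N1 (W0 ^ 2), fun N _ hN χ h2 hne => ?_⟩
  have hNa : N1 ≤ N := (le_max_left _ _).trans hN
  have hNc : W0 ^ 2 ≤ N := (le_max_right _ _).trans hN
  refine hN1 N (W0 ^ 2 * N) hNa (Nat.le_mul_of_pos_left N hq) ?_ χ h2 hne
  rw [pow_two N]
  exact Nat.mul_le_mul_right N hNc

end Pool.Agent.Lib.TE
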