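import Pool.Agent.Lib.MP_7b7e48_nt.TE.Main

/-!
# Module XB4 (30 minutes): a rare pattern implies that the opposite pattern is rare

PROOF. `ee_lam` with `A + 1`, `Cw = 1`, `e = 1`, and `ee_count`, for the family with one member, `M = 1`, `c = 0` (`ι = Unit`): the hypothesis for `j = 1` is `1 ≤ log N (1 + N^(-1))`, for `j ≥ 2` the sum is empty. `#Pat (-s) (-t) ≤ N^(1-ε) + N/(log N)^(A+1) ≤ N/(log N)^A` for large `N`.
-/

set_option autoImplicit false

open Finset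
open Pool.Agent.Lib.GT (Rough)

namespace Pool.Agent.Lib.TE

/-- a power of the logarithm against a power of `N` -/
private theorem XB4_log (A : ℕ) (ε : ℝ) (hε : 0 < ε) : ∃ N0 : ℕ, ∀ N : ℕ, N0 ≤ N →
    (4 : ℝ) ≤ Real.log N ∧ 2 * (Real.log N) ^ A ≤ (N : ℝ) ^ ε := by
  have h1 : Filter.Tendsto (fun N : ℕ => (N : ℝ)) Filter.atTop Filter.atTop :=
    tendsto_natCast_atTop_atTop
  have h2 := Real.tendsto_log_atTop.comp h1
  have h3 : (fun x : ℝ => Real.log x ^ (A : ℝ)) =o[Filter.atTop] fun x : ℝ => x ^ ε :=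
    isLittleO_log_rpow_rpow_atTop (A : ℝ) hε
  have h4 := (h3.comp_tendsto h1).bound (show (0 : ℝ) < 1 / 2 by norm_num)
  have h5 := (h2.eventually_ge_atTop 4).and h4
  obtain ⟨N0, hN0⟩ := Filter.eventually_atTop.mp h5
  refine ⟨max N0 1, fun N hN => ?_⟩
  obtain ⟨h6, h7⟩ := hN0 N ((le_max_left _ _).trans hN)
  have h6' : (4 : ℝ) ≤ Real.log N := h6
  refine ⟨h6', ?_⟩
  have h8 : (0 : ℝ) < N := by exact_mod_cast (le_max_right N0 1).trans hN
  simp only [Function.comp_apply] at h7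
  rw [Real.rpow_natCast, Real.norm_of_nonneg (by positivity),
    Real.norm_of_nonneg (Real.rpow_nonneg h8.le _)] at h7
  linarith

open Classical in
theorem xb_pat (Wf w0 : ℕ) (hW : 1 ≤ Wf) (A : ℕ) (A1 ε : ℝ) (hA1 : 0 < A1) (hε : 0 < ε) : ∃ C0 : ℝ, 5000 ≤ C0 ∧ ∀ C1 : ℝ, C0 ≤ C1 →
    ∃ N0 : ℕ, ∀ N : ℕ, N0 ≤ N → (∀ n : ℕ, Rough w0 n → n.Coprime Wf) → ∀ w1 : ℕ, w0 ≤ w1 → (w1 : ℝ) ≤ (Real.log N) ^ A1 →
    ∀ s t : ℝ, (s = 1 ∨ s = -1) → (t = 1 ∨ t = -1) → ((Pat N w1 (zC C1 N) s t).card : ℝ) ≤ (N : ℝ) ^ (1 - ε) →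
    ((Pat N w1 (zC C1 N) (-s) (-t)).card : ℝ) ≤ N / (Real.log N) ^ A := by
  obtain ⟨C0, hC0, h⟩ := ee_lam Wf w0 hW (A + 1) 1 A1 hA1
  refine ⟨C0, hC0, fun C1 hC1 => ?_⟩
  obtain ⟨N0, hN0⟩ := h C1 hC1 1 one_pos
  obtain ⟨N1, hN1⟩ := XB4_log A ε hε
  refine ⟨max N0 (max N1 1), fun N hN hRo w1 hw0 hw1 s t hs ht hP => ?_⟩
  have hNa : N0 ≤ N := (le_max_left _ _).trans hN
  have hNb : N1 ≤ N := (le_max_left _ _).trans ((le_max_right _ _).trans hN)
  have hNc : 1 ≤ N := (le_max_right _ _).trans ((le_max_right _ _).trans hN)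
  obtain ⟨hK, hpw⟩ := hN1 N hNb
  have hN1' : (1 : ℝ) ≤ N := by exact_mod_cast hNc
  have hNpos : (0 : ℝ) < N := by linarith
  have hs1 : |s| ≤ 1 := by rcases hs with rfl | rfl <;> norm_num
  have ht1 : |t| ≤ 1 := by rcases ht with rfl | rfl <;> norm_num
  have h1 := hN0 N hNa hRo w1 hw0 hw1 s t hs1 ht1 Unit {()} (fun _ => 1) (fun _ => 0)
    (fun x _ => ⟨le_refl 1, by
      push_cast
      exact Real.one_le_rpow hN1' (by norm_num), Nat.coprime_one_left _⟩)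
    (fun j hj => by
      by_cases hj1 : j = 1
      · subst hj1
        rw [filter_true_of_mem (fun x _ => one_dvd _), sum_singleton]
        push_cast
        rw [Real.one_rpow, pow_one, div_one]
        have h2 : (0 : ℝ) ≤ (N : ℝ) ^ (-1 : ℝ) := Real.rpow_nonneg hNpos.le _
        nlinarith
      · rw [filter_false_of_mem (fun x _ hd => hj1 (Nat.dvd_one.mp hd)), sum_empty]
        have h2 : (0 : ℝ) ≤ (N : ℝ) ^ (-1 : ℝ) := Real.rpow_nonneg hNpos.le _
        have h3 : (0 : ℝ) ≤ (j : ℝ) ^ (-(1 / 2) : ℝ) := Real.rpow_nonneg (Nat.cast_nonneg _) _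
        have h4 : (0 : ℝ) ≤ (Real.log N) ^ 1 := by positivity
        exact mul_nonneg h4 (by linarith))
  have h2 := ee_count N w1 (zC C1 N) s t hs ht Unit {()} (fun _ => 1) (fun _ => 0)
  rw [sum_singleton, card_singleton, Nat.cast_one, one_mul] at h2
  have h3 : (Pat N w1 (zC C1 N) (-s) (-t)).filter (fun n => n ≡ (fun _ : Unit => 0) () [MOD (fun _ : Unit => 1) ()]) =
      Pat N w1 (zC C1 N) (-s) (-t) := by
    apply filter_true_of_mem
    intro n _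
    exact Nat.modEq_one
  rw [h3] at h2
  refine h2.trans ((add_le_add hP h1).trans ?_)
  have hA0 : 0 < (Real.log N) ^ A := by positivity
  have h4 : (N : ℝ) ^ (1 - ε) ≤ N / (2 * (Real.log N) ^ A) := by
    rw [Real.rpow_sub hNpos, Real.rpow_one]
    exact div_le_div_of_nonneg_left hNpos.le (by positivity) hpw
  have h5 : (N : ℝ) / (Real.log N) ^ (A + 1) ≤ N / (2 * (Real.log N) ^ A) := by
    apply div_le_div_of_nonneg_left hNpos.le (by positivity)
    rw [pow_succ, mul_comm]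
    exact mul_le_mul_of_nonneg_left (by linarith) hA0.le
  have h6 : (N : ℝ) / (2 * (Real.log N) ^ A) + N / (2 * (Real.log N) ^ A) = N / (Real.log N) ^ A := by
    field_simp
    ring
  linarith

end Pool.Agent.Lib.TE
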