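import Pool.Agent.Lib.MP_7b7e48_nt.TE.XM2

/-!
# Module XM3 (90 minutes): the number of the affected pairs of marks

`K = log N`, `N = T.N`, `e2 = min (1/8001) (ε/8)`, `EX = Pat s t ∪ Pat (-s) (-t)`. PROOF. `aff_le`; `#(EX ∩ class) ≤ #Pat s t + #(Pat (-s) (-t) ∩ class)`; the first terms: `#Fam N^(1-ε) ≤ N^(2 e2) K^(Cc+2) N^(1-ε) ≤ N^(1 - ε/2)`; the second: `ee_count` and `ee_lam` (exponent `A + 1`, `Cw = 2 Cc + 4`, `e = e1/2`, `w1 = T.y`) resp. `ee_c` (`Cw = 2 Cc + 5`; the hypothesis `fam_w1` is also needed there with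
`K^(2Cc+4) ≤ K^(2Cc+5)`), for the family `Fam`, `Mx`, `cx` (`fam_facts`, `fam_w1`, `fam_w2`). `aff1`: total `≤ N^(1-ε/2) · 2 + N/K^(A+1) ≤ N/K^A`. `aff2`: `≤ 2 N^(1-ε/2) + σ N/K^(A+1) ≤ σ N/K^A` since `σ ≥ N^(-ε/8)`.
-/

set_option autoImplicit false

open Finset
open Pool.Agent.Lib.GT (Rough)
open Pool.Agent.Lib.RG (LV)
open Pool.Agent.Lib.OW (QP)
open Pool.Agent.Lib.TC (MS Dat ext1 Sm Cyc)

namespace Pool.Agent.Lib.TE

private theorem XM3_ev (c : ℝ) (A : ℕ) (δ : ℝ) (hδ : 0 < δ) :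
    ∃ N0 : ℕ, ∀ N : ℕ, N0 ≤ N → c * (Real.log N) ^ A ≤ (N : ℝ) ^ δ := by
  have hc : (0 : ℝ) < |c| + 1 := by positivity
  have h := (isLittleO_log_rpow_rpow_atTop (A : ℝ) hδ).bound (c := 1 / (|c| + 1)) (by positivity)
  have h2 := tendsto_natCast_atTop_atTop (R := ℝ) |>.eventually h
  obtain ⟨N0, hN0⟩ := Filter.eventually_atTop.1 h2
  refine ⟨N0, fun N hN => ?_⟩
  have h3 := hN0 N hN
  have hl : 0 ≤ Real.log (N : ℝ) := Real.log_natCast_nonneg N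
  rw [Real.norm_of_nonneg (Real.rpow_nonneg hl _),
    Real.norm_of_nonneg (Real.rpow_nonneg (Nat.cast_nonneg N) _), Real.rpow_natCast] at h3
  have h4 : c * (Real.log N) ^ A ≤ (|c| + 1) * (Real.log N) ^ A := by
    apply mul_le_mul_of_nonneg_right _ (pow_nonneg hl _)
    linarith [le_abs_self c]
  calc c * (Real.log N) ^ A ≤ (|c| + 1) * (Real.log N) ^ A := h4
    _ ≤ (|c| + 1) * (1 / (|c| + 1) * (N : ℝ) ^ δ) := mul_le_mul_of_nonneg_left h3 hc.le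
    _ = (N : ℝ) ^ δ := by field_simp

/-- the first terms -/
private theorem XM3_first (A Cc : ℕ) (ε : ℝ) (hε : 0 < ε) :
    ∃ N0 : ℕ, ∀ N : ℕ, N0 ≤ N → 2 ≤ Real.log N ∧ ∀ F P : ℝ, 0 ≤ F → 0 ≤ P →
      F ≤ (N : ℝ) ^ (2 * min (1 / 8001) (ε / 8)) * (Real.log N) ^ (Cc + 2) → P ≤ (N : ℝ) ^ (1 - ε) →
      2 * (F * P) ≤ (N : ℝ) ^ (-(ε / 8)) * N / (Real.log N) ^ A / 2 := by
  obtain ⟨N1, h1⟩ := XM3_ev 4 A (ε / 8) (by positivity)
  obtain ⟨N2, h2⟩ := XM3_ev 1 (Cc + 2) (ε / 8) (by positivity)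
  obtain ⟨N3, h3⟩ := Filter.eventually_atTop.1
    ((Real.tendsto_log_atTop.comp (tendsto_natCast_atTop_atTop (R := ℝ))).eventually
      (Filter.eventually_ge_atTop (2 : ℝ)))
  refine ⟨max (max N1 N2) (max N3 1), fun N hN => ?_⟩
  have hNa : N1 ≤ N := le_trans (le_trans (le_max_left _ _) (le_max_left _ _)) hN
  have hNb : N2 ≤ N := le_trans (le_trans (le_max_right _ _) (le_max_left _ _)) hN
  have hNc : N3 ≤ N := le_trans (le_trans (le_max_left _ _) (le_max_right _ _)) hN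
  have hNd : 1 ≤ N := le_trans (le_trans (le_max_right _ _) (le_max_right _ _)) hN
  have hK : 2 ≤ Real.log (N : ℝ) := h3 N hNc
  refine ⟨hK, fun F P hF hP hF2 hP2 => ?_⟩
  have hN1 : (1 : ℝ) ≤ N := by exact_mod_cast hNd
  have hN0 : (0 : ℝ) < N := by linarith
  have e1 := h1 N hNa
  have e2 := h2 N hNb
  rw [one_mul] at e2
  set u : ℝ := (N : ℝ) ^ (ε / 8) with hu
  have hu1 : 1 ≤ u := Real.one_le_rpow hN1 (by positivity)
  have hu0 : 0 < u := by linarith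
  set KA : ℝ := (Real.log (N : ℝ)) ^ A with hKA
  have hKA0 : 0 < KA := pow_pos (by linarith) _
  have g1 : (N : ℝ) ^ (1 - ε) = N / u ^ 8 := by
    rw [hu, ← Real.rpow_natCast, ← Real.rpow_mul hN0.le, Real.rpow_sub hN0, Real.rpow_one]
    congr 2
    push_cast
    ring
  have g2 : (N : ℝ) ^ (2 * min (1 / 8001) (ε / 8)) ≤ u ^ 2 := by
    rw [hu, ← Real.rpow_natCast, ← Real.rpow_mul hN0.le]
    apply Real.rpow_le_rpow_of_exponent_le hN1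
    have := min_le_right (1 / 8001 : ℝ) (ε / 8)
    push_cast
    linarith
  have g3 : (N : ℝ) ^ (-(ε / 8)) = u⁻¹ := by rw [Real.rpow_neg hN0.le]
  rw [g1] at hP2
  rw [g3]
  have g4 : F ≤ u ^ 3 := by
    calc F ≤ (N : ℝ) ^ (2 * min (1 / 8001) (ε / 8)) * (Real.log N) ^ (Cc + 2) := hF2
      _ ≤ u ^ 2 * u := mul_le_mul g2 e2 (pow_nonneg (by linarith) _) (by positivity)
      _ = u ^ 3 := by ring
  have g5 : F * P ≤ u ^ 3 * (N / u ^ 8) := mul_le_mul g4 hP2 hP (by positivity)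
  have g6 : u ^ 3 * (N / u ^ 8) = N / u ^ 5 := by field_simp
  rw [g6] at g5
  have g7 : 2 * (N / u ^ 5) ≤ u⁻¹ * N / KA / 2 := by
    have k1 : 4 * KA ≤ u ^ 4 := by
      calc 4 * KA ≤ u := e1
        _ = u ^ 1 := (pow_one u).symm
        _ ≤ u ^ 4 := pow_le_pow_right₀ hu1 (by norm_num)
    have k2 : u⁻¹ * N / KA / 2 - 2 * (N / u ^ 5) = N * (u ^ 4 - 4 * KA) / (2 * KA * u ^ 5) := by
      field_simp
      ring
    have k3 : 0 ≤ N * (u ^ 4 - 4 * KA) / (2 * KA * u ^ 5) := by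
      apply div_nonneg (mul_nonneg hN0.le (by linarith)) (by positivity)
    linarith
  linarith

open Classical in
/-- the counting -/
private theorem XM3_main {S : MS} {T : Dat} {Wf Z Cc : ℕ} {e1 e2 : ℝ} (h : XOK S T Wf Z Cc e1 e2) (s t : ℝ)
    (hs : s = 1 ∨ s = -1) (ht : t = 1 ∨ t = -1) (XS : Finset ℕ) :
    ((Aff S T (Pat T.N T.y T.z s t ∪ Pat T.N T.y T.z (-s) (-t)) XS).card : ℝ) ≤
      2 * (((Fam S T).card : ℝ) * (Pat T.N T.y T.z s t).card) +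
      ∑ x ∈ Fam S T, |∑ n ∈ (Sst T.N T.y T.z).filter (fun n => n ≡ cx S T x [MOD Mx S T x]), (s * Pool.Agent.Lib.MP_45349e_nt.LS.lam n + t * Pool.Agent.Lib.MP_45349e_nt.LS.lam (T.N - n))| := by
  have h1 := aff_le h (Pat T.N T.y T.z s t ∪ Pat T.N T.y T.z (-s) (-t)) XS
  have h2 := ee_count T.N T.y T.z s t hs ht (IX S) (Fam S T) (Mx S T) (cx S T)
  have h3 : ∑ x ∈ Fam S T, (((Pat T.N T.y T.z s t ∪ Pat T.N T.y T.z (-s) (-t)).filter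
      fun n => n ≡ cx S T x [MOD Mx S T x]).card : ℝ) ≤
      ∑ x ∈ Fam S T, (((Pat T.N T.y T.z s t).card : ℝ) +
        (((Pat T.N T.y T.z (-s) (-t)).filter fun n => n ≡ cx S T x [MOD Mx S T x]).card : ℝ)) := by
    apply sum_le_sum
    intro x _
    rw [filter_union]
    have k1 := card_union_le ((Pat T.N T.y T.z s t).filter fun n => n ≡ cx S T x [MOD Mx S T x])
      ((Pat T.N T.y T.z (-s) (-t)).filter fun n => n ≡ cx S T x [MOD Mx S T x])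
    have k2 := card_filter_le (Pat T.N T.y T.z s t) (fun n => n ≡ cx S T x [MOD Mx S T x])
    have k3 := k1.trans (Nat.add_le_add_right k2 _)
    exact_mod_cast k3
  rw [sum_add_distrib, sum_const, nsmul_eq_mul] at h3
  linarith

private theorem XM3_half {K : ℝ} (hK : 2 ≤ K) (A : ℕ) (x : ℝ) (hx : 0 ≤ x) : x / K ^ (A + 1) ≤ x / K ^ A / 2 := by
  rw [pow_succ, div_div]
  apply div_le_div_of_nonneg_left hx
  · positivity
  · exact mul_le_mul_of_nonneg_left hK (by positivity)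

open Classical in
theorem aff1 (Wf w0 : ℕ) (hW : 1 ≤ Wf) (A Cc : ℕ) (A1 e1 ε : ℝ) (hA1 : 0 < A1) (he1 : 0 < e1) (hε : 0 < ε) :
    ∃ C0 : ℝ, 5000 ≤ C0 ∧ ∀ C1 : ℝ, C0 ≤ C1 → ∃ N0 : ℕ, (∀ n : ℕ, Rough w0 n → n.Coprime Wf) →
    ∀ (S : MS) (T : Dat) (Z : ℕ), N0 ≤ T.N → w0 ≤ T.y → (T.y : ℝ) ≤ (Real.log T.N) ^ A1 → T.z = zC C1 T.N →
    XOK S T Wf Z Cc e1 (min (1 / 8001) (ε / 8)) → ∀ s t : ℝ, (s = 1 ∨ s = -1) → (t = 1 ∨ t = -1) →
    ((Pat T.N T.y T.z s t).card : ℝ) ≤ (T.N : ℝ) ^ (1 - ε) → ∀ XS : Finset ℕ,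
    ((Aff S T (Pat T.N T.y T.z s t ∪ Pat T.N T.y T.z (-s) (-t)) XS).card : ℝ) ≤ T.N / (Real.log T.N) ^ A := by
  obtain ⟨C0, hC0, h⟩ := ee_lam Wf w0 hW (A + 1) (2 * Cc + 4) A1 hA1
  refine ⟨C0, hC0, fun C1 hC1 => ?_⟩
  obtain ⟨N1, h1⟩ := h C1 hC1 (e1 / 2) (by positivity)
  obtain ⟨N2, h2⟩ := XM3_first A Cc ε hε
  obtain ⟨N3, h3⟩ := fam_facts Wf Cc e1 (min (1 / 8001) (ε / 8)) (min_le_left _ _)
  obtain ⟨N4, h4⟩ := fam_w1 Wf Cc e1 (min (1 / 8001) (ε / 8)) he1 (min_le_left _ _)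
  refine ⟨max (max N1 N2) (max N3 (max N4 1)), fun hRo S T Z hN hw0 hyA hz hX s t hs ht hP XS => ?_⟩
  have hNa : N1 ≤ T.N := le_trans (le_trans (le_max_left _ _) (le_max_left _ _)) hN
  have hNb : N2 ≤ T.N := le_trans (le_trans (le_max_right _ _) (le_max_left _ _)) hN
  have hNc : N3 ≤ T.N := le_trans (le_trans (le_max_left _ _) (le_max_right _ _)) hN
  have hNd : N4 ≤ T.N := le_trans (le_trans (le_max_left _ _) (le_max_right _ _)) (le_trans (le_max_right _ _) hN)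
  have hNe : 1 ≤ T.N := le_trans (le_trans (le_max_right _ _) (le_max_right _ _)) (le_trans (le_max_right _ _) hN)
  have hm := XM3_main hX s t hs ht XS
  obtain ⟨hF1, hF2⟩ := h3 S T Z hNc hX
  obtain ⟨hK, hfirst⟩ := h2 T.N hNb
  have hf := hfirst ((Fam S T).card : ℝ) ((Pat T.N T.y T.z s t).card : ℝ) (Nat.cast_nonneg _) (Nat.cast_nonneg _) hF2 hP
  have hsec := h1 T.N hNa hRo T.y hw0 hyA s t (by rcases hs with rfl | rfl <;> simp) (by rcases ht with rfl | rfl <;> simp)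
    (IX S) (Fam S T) (Mx S T) (cx S T) hF1 (h4 S T Z hNd hX)
  rw [← hz] at hsec
  have hN1 : (1 : ℝ) ≤ T.N := by exact_mod_cast hNe
  have hu : (T.N : ℝ) ^ (-(ε / 8)) ≤ 1 := Real.rpow_le_one_of_one_le_of_nonpos hN1 (by linarith)
  have hKA : 0 < (Real.log (T.N : ℝ)) ^ A := pow_pos (by linarith) _
  have q1 : (T.N : ℝ) ^ (-(ε / 8)) * T.N / (Real.log T.N) ^ A / 2 ≤ T.N / (Real.log T.N) ^ A / 2 := by
    apply div_le_div_of_nonneg_right _ (by norm_num)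
    apply div_le_div_of_nonneg_right _ hKA.le
    exact mul_le_of_le_one_left (by linarith) hu
  have q2 := XM3_half hK A (T.N : ℝ) (by linarith)
  linarith

open Classical in
theorem aff2 (Wf w0 : ℕ) (hW : 1 ≤ Wf) (h0 : 2 ≤ w0) (A Cc CL : ℕ) (A1 e1 ε : ℝ) (hA1 : 0 < A1) (he1 : 0 < e1) (hε : 0 < ε) :
    ∃ C0 : ℝ, 5000 ≤ C0 ∧ ∀ C1 : ℝ, C0 ≤ C1 → ∃ N0 : ℕ, (∀ n : ℕ, Rough w0 n → n.Coprime Wf) →
    ∀ (S : MS) (T : Dat) (Z : ℕ), N0 ≤ T.N → w0 ≤ T.y → (T.y : ℝ) ≤ (Real.log T.N) ^ A1 → T.z = zC C1 T.N →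
    XOK S T Wf Z Cc e1 (min (1 / 8001) (ε / 8)) → ∀ [NeZero (Wf * T.N)], ∀ χ : DirichletCharacter ℂ (Wf * T.N), χ ^ 2 = 1 →
    (∃ m : ℕ, m ≡ 1 [MOD Wf] ∧ m.Coprime (Wf * T.N) ∧ χ (m : ZMod (Wf * T.N)) ≠ 1) →
    ∀ L : ℝ, 0 ≤ L → LV (Wf * T.N) (fun n => (χ (n : ZMod (Wf * T.N))).re) L →
    ∀ σ : ℝ, (T.N : ℝ) ^ (-(min (1 / 40) (min (e1 / 8) (ε / 8)))) ≤ σ → L ≤ (Real.log T.N) ^ CL * σ →
    ∑ q ∈ (QP (fun n => (χ (n : ZMod (Wf * T.N))).re) ⌊(T.N : ℝ) ^ ((4 : ℝ) / 5)⌋₊).filter (fun q => T.y < q), 1 / (q : ℝ) ≤ σ →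
    ∀ s t : ℝ, (s = 1 ∨ s = -1) → (t = 1 ∨ t = -1) →
    (∀ n ∈ Sst T.N T.y T.z, s * (χ (n : ZMod (Wf * T.N))).re + t * (χ ((T.N - n : ℕ) : ZMod (Wf * T.N))).re = 0) →
    ((Pat T.N T.y T.z s t).card : ℝ) ≤ (T.N : ℝ) ^ (1 - ε) → ∀ XS : Finset ℕ,
    ((Aff S T (Pat T.N T.y T.z s t ∪ Pat T.N T.y T.z (-s) (-t)) XS).card : ℝ) ≤ σ * T.N / (Real.log T.N) ^ A := by
  obtain ⟨C0, hC0, h⟩ := ee_c Wf w0 hW h0 (A + 1) (2 * Cc + 5) CL A1 hA1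
  refine ⟨C0, hC0, fun C1 hC1 => ?_⟩
  obtain ⟨N1, h1⟩ := h C1 hC1 (e1 / 2) (by positivity)
  obtain ⟨N2, h2⟩ := XM3_first A Cc ε hε
  obtain ⟨N3, h3⟩ := fam_facts Wf Cc e1 (min (1 / 8001) (ε / 8)) (min_le_left _ _)
  obtain ⟨N4, h4⟩ := fam_w1 Wf Cc e1 (min (1 / 8001) (ε / 8)) he1 (min_le_left _ _)
  obtain ⟨N5, h5⟩ := fam_w2 Wf Cc e1 (min (1 / 8001) (ε / 8)) he1 (min_le_left _ _)
  refine ⟨max (max N1 N2) (max N3 (max N4 (max N5 1))), fun hRo S T Z hN hw0 hyA hz hX hnz χ hχ hne L hL0 hL σ hσ1 hσ2 hσ3 s t hs ht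
    hH1 hP XS => ?_⟩
  have hNa : N1 ≤ T.N := le_trans (le_trans (le_max_left _ _) (le_max_left _ _)) hN
  have hNb : N2 ≤ T.N := le_trans (le_trans (le_max_right _ _) (le_max_left _ _)) hN
  have hNr : max N3 (max N4 (max N5 1)) ≤ T.N := le_trans (le_max_right _ _) hN
  have hNc : N3 ≤ T.N := le_trans (le_max_left _ _) hNr
  have hNs : max N4 (max N5 1) ≤ T.N := le_trans (le_max_right _ _) hNr
  have hNd : N4 ≤ T.N := le_trans (le_max_left _ _) hNs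
  have hNt : max N5 1 ≤ T.N := le_trans (le_max_right _ _) hNs
  have hNf : N5 ≤ T.N := le_trans (le_max_left _ _) hNt
  have hNe : 1 ≤ T.N := le_trans (le_max_right _ _) hNt
  have hm := XM3_main hX s t hs ht XS
  obtain ⟨hF1, hF2⟩ := h3 S T Z hNc hX
  obtain ⟨hK, hfirst⟩ := h2 T.N hNb
  have hN1 : (1 : ℝ) ≤ T.N := by exact_mod_cast hNe
  have hmin1 : (T.N : ℝ) ^ (-(1 / 40) : ℝ) ≤ σ := by
    refine le_trans (Real.rpow_le_rpow_of_exponent_le hN1 ?_) hσ1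
    have := min_le_left (1 / 40 : ℝ) (min (e1 / 8) (ε / 8))
    linarith
  have hmin2 : (T.N : ℝ) ^ (-(e1 / 8)) ≤ σ := by
    refine le_trans (Real.rpow_le_rpow_of_exponent_le hN1 ?_) hσ1
    have := (min_le_right (1 / 40 : ℝ) (min (e1 / 8) (ε / 8))).trans (min_le_left _ _)
    linarith
  have hmin3 : (T.N : ℝ) ^ (-(ε / 8)) ≤ σ := by
    refine le_trans (Real.rpow_le_rpow_of_exponent_le hN1 ?_) hσ1
    have := (min_le_right (1 / 40 : ℝ) (min (e1 / 8) (ε / 8))).trans (min_le_right _ _)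
    linarith
  have hσ0 : 0 ≤ σ := le_trans (Real.rpow_nonneg (by linarith) _) hmin1
  have hf := hfirst ((Fam S T).card : ℝ) ((Pat T.N T.y T.z s t).card : ℝ) (Nat.cast_nonneg _) (Nat.cast_nonneg _) hF2 hP
  have hw1 : ∀ j : ℕ, 1 ≤ j → ∑ x ∈ (Fam S T).filter (fun x => j ∣ Mx S T x), 1 / (Mx S T x : ℝ) ≤
      (Real.log T.N) ^ (2 * Cc + 5) * ((j : ℝ) ^ (-(1 / 2) : ℝ) + (T.N : ℝ) ^ (-(e1 / 2))) := by
    intro j hj
    refine (h4 S T Z hNd hX j hj).trans ?_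
    apply mul_le_mul_of_nonneg_right
    · exact pow_le_pow_right₀ (by linarith) (by omega)
    · positivity
  have hw2 := h5 S T Z hNf hX (fun n => (χ (n : ZMod (Wf * T.N))).re) σ hmin2 hσ3
  have hsec := h1 T.N hNa hRo T.y hw0 hyA χ hχ hne L hL0 hL σ hmin1 hσ2 hσ3 s t hs ht (by rw [← hz]; exact hH1)
    (IX S) (Fam S T) (Mx S T) (cx S T) hF1 hw1 hw2
  rw [← hz] at hsec
  have hKA : 0 < (Real.log (T.N : ℝ)) ^ A := pow_pos (by linarith) _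
  have q1 : (T.N : ℝ) ^ (-(ε / 8)) * T.N / (Real.log T.N) ^ A / 2 ≤ σ * T.N / (Real.log T.N) ^ A / 2 := by
    apply div_le_div_of_nonneg_right _ (by norm_num)
    apply div_le_div_of_nonneg_right _ hKA.le
    exact mul_le_mul_of_nonneg_right hmin3 (by linarith)
  have q2 := XM3_half hK A (σ * T.N : ℝ) (by positivity)
  linarith

end Pool.Agent.Lib.TE
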