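import Pool.Agent.Lib.MP_7b7e48_nt.TE.XB2
import Pool.Agent.Lib.MP_7b7e48_nt.TE.XB3
import Pool.Agent.Lib.MP_7b7e48_nt.TE.XB4
import Pool.Agent.Lib.MP_7b7e48_nt.TE.XM3

/-!
# Module XB5 (90 minutes): the input `ApIn` of the frame

`K = log N`, `N = T.N`, `R = W0^2 N`, `M = MM P R = T.y`, `Wf = W0^2`, `w0 = max 2 W0` (`Rough w0 n` implies `n.Coprime (W0^2)`; `w0 ≤ M` for large `N`), `A1 = P.C1 + 1` (`M ≤ 2 (log R)^C1 ≤ K^(C1+1)`), `A = Cp + 4 P.C1 + 4`, `CL = 4`, `e2 = min (1/8001) (ε/8)`.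
`C0` = maximum of the constants of `aff1` with the exponents `A` and `A + 13`, of `aff2` with `A`, `CL = 4`, and of `xb_pat` with `A = 6`. PROOF.
(num) `B := R ((J1 ρX)(J0 ρY)) / (JJ^4 M^4)` satisfies `J1 N / K^A ≤ B`: `Dat.Ok.jx`, `jy`: `(J1 ρX)(J0 ρY) ≥ JJ^6 ≥ JJ^4` (`JJ ≥ 1`), `R ≥ N`, `J1 ≤ y0 ≤ K^Cp` (`Dat.Ok.y1`), `M^4 ≤ 16 (log R)^(4 C1) ≤ K^(4 C1 + 1)` (`RH.num`, `Num.M2`, `log R ≤ 2 K`).
(a0) `ap_le_aff`, then `aff1` (exponent `A`) for the data `wD T (W0^2 D')` (`(wD T D).N = T.N` etc. by `rfl`), `D' = 1 … J1`: the sum is `≤ J1 N/K^A ≤ B`.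
(a1) Let `σ = sgm P χ`. If `σ ≥ 1/K^13`: `aff1` with the exponent `A + 13`: `≤ J1 N/K^(A+13) ≤ σ J1 N/K^A ≤ σ B`. Otherwise: `xb_ne`, `xb_sig` (`δ = min (1/40) (min (e1/8) (ε/8))`) give `m`, `L` and the bounds for `σ`;
`HD.h1` (`CL = 4`, `w1 = M`) gives the relation `H1` (both patterns `≤ N/K^6`: the hypothesis, `N^(1-ε) ≤ N/K^6`, and `xb_pat`); `aff2` (exponent `A`): `≤ J1 σ N/K^A ≤ σ B`.
-/

set_option autoImplicit false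

open Finset
open Pool.Agent.Lib.MP_45349e_nt.LS (lam)
open Pool.Agent.Lib.TC (MS Dat ext1 Sm Cyc)
open Pool.Agent.Lib.TCB (datS LkS BdS wD)
open Pool.Agent.Lib.TCF (AP Mul ApIn)
open Pool.Agent.Lib.RH (Prm MM JJ)

namespace Pool.Agent.Lib.TE

private theorem XB5_num (P : Prm) (hP : P.Ok) (W0 : ℕ) (hW0 : 1 ≤ W0) (ε : ℝ) (hε : 0 < ε) : ∃ N0 : ℕ, ∀ N : ℕ, N0 ≤ N →
    1 ≤ Real.log N ∧ (MM P (W0 ^ 2 * N) : ℝ) ≤ (Real.log N) ^ (P.C1 + 1) ∧ max 2 W0 ≤ MM P (W0 ^ 2 * N) ∧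
    (N : ℝ) ^ (1 - ε) ≤ N / (Real.log N) ^ 6 ∧ (1 : ℝ) ≤ JJ (W0 ^ 2 * N) ∧ 1 ≤ N := by
  obtain ⟨N1, h1⟩ := Pool.Agent.Lib.RH.num P hP
  obtain ⟨N2, h2⟩ := Filter.eventually_atTop.1 (Pool.Agent.Lib.RH.ev_log_ge (2 ^ (P.C1 + 1) + 2 * Real.log W0 + W0 + 2))
  obtain ⟨N3, h3⟩ := Filter.eventually_atTop.1 (Pool.Agent.Lib.RH.ev_log_pow 6 ε hε 1 one_pos)
  refine ⟨N1 + N2 + N3 + 1, fun N hN => ?_⟩
  have hR : N ≤ W0 ^ 2 * N := Nat.le_mul_of_pos_left N (by positivity)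
  have hnm := h1 (W0 ^ 2 * N) (by omega)
  have hK := h2 N (by omega)
  have hE := h3 N (by omega)
  have hN0 : (0 : ℝ) < N := by exact_mod_cast (show 0 < N by omega)
  have hW0r : (1 : ℝ) ≤ W0 := by exact_mod_cast hW0
  have hlW : 0 ≤ Real.log W0 := Real.log_nonneg hW0r
  have hlR : Real.log ((W0 ^ 2 * N : ℕ) : ℝ) = 2 * Real.log W0 + Real.log N := by
    rw [Nat.cast_mul, Nat.cast_pow, Real.log_mul (by positivity) hN0.ne', Real.log_pow]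
    norm_num
  obtain ⟨K, hKe⟩ : ∃ K : ℝ, K = Real.log N := ⟨_, rfl⟩
  rw [← hKe] at hK hE hlR ⊢
  have h2C : (1 : ℝ) ≤ 2 ^ (P.C1 + 1) := one_le_pow₀ (by norm_num)
  have hK1 : 1 ≤ K := by linarith
  have hR1 : Real.log ((W0 ^ 2 * N : ℕ) : ℝ) ≤ 2 * K := by
    rw [hlR]
    linarith
  have hR2 : K ≤ Real.log ((W0 ^ 2 * N : ℕ) : ℝ) := by
    rw [hlR]
    linarith
  have hR0 : 0 ≤ Real.log ((W0 ^ 2 * N : ℕ) : ℝ) := by linarith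
  refine ⟨hK1, ?_, ?_, ?_, ?_, by omega⟩
  · calc (MM P (W0 ^ 2 * N) : ℝ) ≤ 2 * (Real.log ((W0 ^ 2 * N : ℕ) : ℝ)) ^ P.C1 := hnm.M2
      _ ≤ 2 * (2 * K) ^ P.C1 := by
          have := pow_le_pow_left₀ hR0 hR1 P.C1
          linarith
      _ = 2 ^ (P.C1 + 1) * K ^ P.C1 := by
          rw [mul_pow]
          ring
      _ ≤ K * K ^ P.C1 := mul_le_mul_of_nonneg_right (by linarith) (by positivity)
      _ = K ^ (P.C1 + 1) := by ring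
  · have h4 : (max 2 W0 : ℕ) ≤ (MM P (W0 ^ 2 * N) : ℝ) := by
      have h5 : ((max 2 W0 : ℕ) : ℝ) ≤ K := by
        have h6 : max 2 W0 ≤ 2 + W0 := by omega
        have h7 : ((max 2 W0 : ℕ) : ℝ) ≤ 2 + W0 := by exact_mod_cast h6
        linarith
      have h8 : K ≤ (Real.log ((W0 ^ 2 * N : ℕ) : ℝ)) ^ P.C1 := by
        refine hR2.trans (le_self_pow₀ (by linarith) ?_)
        have := hP.C1
        omega
      exact h5.trans (h8.trans hnm.M1)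
    exact_mod_cast h4
  · rw [one_mul] at hE
    rw [Real.rpow_sub hN0, Real.rpow_one]
    exact div_le_div_of_nonneg_left hN0.le (by positivity) hE
  · have h4 := hnm.J1
    have h5 : (1 : ℝ) ≤ (Real.log ((W0 ^ 2 * N : ℕ) : ℝ)) ^ 1000 := one_le_pow₀ (by linarith)
    linarith

/-- the bound of the frame is larger than `J1 N / K ^ A` -/
private theorem XB5_B {N R J1 y0 : ℕ} {Cp C : ℕ} {a b J M K : ℝ} (hNR : N ≤ R) (hJ : 1 ≤ J) (hM : 0 < M) (hK : 1 ≤ K)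
    (hMK : M ≤ K ^ (C + 1)) (hy : (y0 : ℝ) ≤ K ^ Cp) (hJy : J1 ≤ y0) (ha : J ^ 3 ≤ a) (hb : J ^ 3 ≤ b) :
    J1 * (N / K ^ (Cp + 4 * C + 4)) ≤ R * (a * b) / (J ^ 4 * M ^ 4) := by
  have hJ0 : 0 < J := by linarith
  have hK0 : 0 < K := by linarith
  have hab : J ^ 4 ≤ a * b := by
    calc J ^ 4 ≤ J ^ 6 := pow_le_pow_right₀ hJ (by norm_num)
      _ = J ^ 3 * J ^ 3 := by ring
      _ ≤ a * b := mul_le_mul ha hb (by positivity) ((by positivity : (0 : ℝ) ≤ J ^ 3).trans ha)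
  have h1 : (J1 : ℝ) * M ^ 4 ≤ K ^ (Cp + 4 * C + 4) := by
    have h2 : (J1 : ℝ) ≤ K ^ Cp := by
      refine le_trans ?_ hy
      exact_mod_cast hJy
    calc (J1 : ℝ) * M ^ 4 ≤ K ^ Cp * (K ^ (C + 1)) ^ 4 :=
          mul_le_mul h2 (pow_le_pow_left₀ hM.le hMK 4) (by positivity) (by positivity)
      _ = K ^ (Cp + 4 * C + 4) := by
          rw [← pow_mul, ← pow_add]
          congr 1
          ring
  have hNR' : (N : ℝ) ≤ R := by exact_mod_cast hNR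
  rw [← mul_div_assoc, div_le_div_iff₀ (by positivity) (by positivity)]
  calc (J1 : ℝ) * N * (J ^ 4 * M ^ 4) = (J1 * M ^ 4) * (N * J ^ 4) := by ring
    _ ≤ K ^ (Cp + 4 * C + 4) * (R * (a * b)) :=
        mul_le_mul h1 (mul_le_mul hNR' hab (by positivity) (Nat.cast_nonneg _)) (by positivity) (by positivity)
    _ = R * (a * b) * K ^ (Cp + 4 * C + 4) := by ring

private theorem XB5_rough (W0 : ℕ) (hW0 : 1 ≤ W0) (n : ℕ) (h : Pool.Agent.Lib.GT.Rough (max 2 W0) n) : n.Coprime (W0 ^ 2) := by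
  refine Nat.Coprime.pow_right 2 (Nat.coprime_of_dvd fun p hp h1 h2 => ?_)
  have h3 := h p hp h1
  have h4 := Nat.le_of_dvd (by omega) h2
  omega

theorem apin (P : Prm) (hP : P.Ok) (W0 Cp Cc : ℕ) (hW0 : 1 ≤ W0) (e1 ε : ℝ) (he1 : 0 < e1) (hε : 0 < ε) :
    ∃ C0 : ℝ, 5000 ≤ C0 ∧ ∀ C1 : ℝ, C0 ≤ C1 → ∃ N0 : ℕ, ∀ (S : MS) (T : Dat) (Z y1 J0 J1 J2 : ℕ) [NeZero (W0 ^ 2 * T.N)],
    N0 ≤ T.N → Even T.N → T.y = MM P (W0 ^ 2 * T.N) → T.z = zC C1 T.N → (T.y0 : ℝ) ≤ (Real.log T.N) ^ Cp →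
    (datS S J0 J1 J2 T.y0).Ok P (W0 ^ 2 * T.N) →
    (∀ D' : ℕ, 0 < D' → D' ≤ J1 → XOK S (wD T (W0 ^ 2 * D')) (W0 ^ 2) Z Cc e1 (min (1 / 8001) (ε / 8))) →
    ∀ s t : ℝ, (s = 1 ∨ s = -1) → (t = 1 ∨ t = -1) → ((Pat T.N T.y T.z s t).card : ℝ) ≤ (T.N : ℝ) ^ (1 - ε) →
    ApIn P (W0 ^ 2 * T.N) (datS S J0 J1 J2 T.y0) (LkS S T) (BdS S T y1) := by
  have hWf : 1 ≤ W0 ^ 2 := Nat.one_le_pow _ _ hW0
  have hA1 : (0 : ℝ) < ((P.C1 + 1 : ℕ) : ℝ) := by positivity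
  obtain ⟨Ca, hCa, ha⟩ := aff1 (W0 ^ 2) (max 2 W0) hWf (Cp + 4 * P.C1 + 4) Cc ((P.C1 + 1 : ℕ) : ℝ) e1 ε hA1 he1 hε
  obtain ⟨Cb, hCb, hb⟩ := aff1 (W0 ^ 2) (max 2 W0) hWf (Cp + 4 * P.C1 + 4 + 13) Cc ((P.C1 + 1 : ℕ) : ℝ) e1 ε hA1 he1 hε
  obtain ⟨Cd, hCd, hd⟩ := aff2 (W0 ^ 2) (max 2 W0) hWf (le_max_left _ _) (Cp + 4 * P.C1 + 4) Cc 4 ((P.C1 + 1 : ℕ) : ℝ) e1 ε hA1 he1 hε
  obtain ⟨Ce, hCe, he⟩ := xb_pat (W0 ^ 2) (max 2 W0) hWf 6 ((P.C1 + 1 : ℕ) : ℝ) ε hA1 hε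
  refine ⟨max (max Ca Cb) (max Cd Ce), hCa.trans ((le_max_left _ _).trans (le_max_left _ _)), fun C1 hC1 => ?_⟩
  have i1 : Ca ≤ C1 := ((le_max_left _ _).trans (le_max_left _ _)).trans hC1
  have i2 : Cb ≤ C1 := ((le_max_right _ _).trans (le_max_left _ _)).trans hC1
  have i3 : Cd ≤ C1 := ((le_max_left _ _).trans (le_max_right _ _)).trans hC1
  have i4 : Ce ≤ C1 := ((le_max_right _ _).trans (le_max_right _ _)).trans hC1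
  obtain ⟨N1, k1⟩ := ha C1 i1
  obtain ⟨N2, k2⟩ := hb C1 i2
  obtain ⟨N3, k3⟩ := hd C1 i3
  obtain ⟨N4, k4⟩ := he C1 i4
  obtain ⟨N5, k5⟩ := h1 (W0 ^ 2) (max 2 W0) hWf 4 C1 ((P.C1 + 1 : ℕ) : ℝ) (hCa.trans i1) hA1
  obtain ⟨N6, k6⟩ := xb_ne P hP W0 hW0
  have hδ : 0 < min (1 / 40) (min (e1 / 8) (ε / 8)) := by
    refine lt_min (by norm_num) (lt_min (by linarith) (by linarith))
  obtain ⟨N7, k7⟩ := xb_sig P hP W0 hW0 (min (1 / 40) (min (e1 / 8) (ε / 8))) hδ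
  obtain ⟨N8, k8⟩ := XB5_num P hP W0 hW0 ε hε
  refine ⟨N1 + N2 + N3 + N4 + N5 + N6 + N7 + N8, fun S T Z y1 J0 J1 J2 hnz hN hev hTy hTz hy0 hok hX s t hs ht hpat => ?_⟩
  obtain ⟨hK1, hMK, hw0, hpow, hJ1, hN1⟩ := k8 T.N (by omega)
  have hNR : T.N ≤ W0 ^ 2 * T.N := Nat.le_mul_of_pos_left T.N (by positivity)
  have hRo := XB5_rough W0 hW0
  have hyw : max 2 W0 ≤ T.y := by
    rw [hTy]
    exact hw0
  have hyA : (T.y : ℝ) ≤ (Real.log T.N) ^ (((P.C1 + 1 : ℕ) : ℝ)) := by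
    rw [hTy, Real.rpow_natCast]
    exact hMK
  have hM1 : (1 : ℝ) ≤ MM P (W0 ^ 2 * T.N) := by
    have : 1 ≤ MM P (W0 ^ 2 * T.N) := by omega
    exact_mod_cast this
  have hM0 : (0 : ℝ) < MM P (W0 ^ 2 * T.N) := by linarith
  have hJy : J1 ≤ T.y0 := by
    have h2 : JJ (W0 ^ 2 * T.N) ^ 4 * MM P (W0 ^ 2 * T.N) ^ 4 * J1 ≤ T.y0 := hok.y1
    refine le_trans (Nat.le_mul_of_pos_left J1 ?_) h2
    have h3 : 0 < JJ (W0 ^ 2 * T.N) := by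
      have : (0 : ℝ) < JJ (W0 ^ 2 * T.N) := by linarith
      exact_mod_cast this
    have h4 : 0 < MM P (W0 ^ 2 * T.N) := by exact_mod_cast hM0
    positivity
  obtain ⟨ρX, hρX⟩ : ∃ r : ℝ, r = Pool.Agent.Lib.TCF.rho (datS S J0 J1 J2 T.y0).BX := ⟨_, rfl⟩
  obtain ⟨ρY, hρY⟩ : ∃ r : ℝ, r = Pool.Agent.Lib.TCF.rho (datS S J0 J1 J2 T.y0).BY := ⟨_, rfl⟩
  have jx : (JJ (W0 ^ 2 * T.N) : ℝ) ^ 3 ≤ (J1 : ℝ) * ρX := by
    rw [hρX]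
    exact hok.jx
  have jy : (JJ (W0 ^ 2 * T.N) : ℝ) ^ 3 ≤ (J0 : ℝ) * ρY := by
    rw [hρY]
    exact hok.jy
  have hB : (J1 : ℝ) * (T.N / (Real.log T.N) ^ (Cp + 4 * P.C1 + 4)) ≤
      ((W0 ^ 2 * T.N : ℕ) : ℝ) * ((J1 * ρX) * (J0 * ρY)) / ((JJ (W0 ^ 2 * T.N) : ℝ) ^ 4 * (MM P (W0 ^ 2 * T.N) : ℝ) ^ 4) :=
    XB5_B hNR hJ1 hM0 hK1 hMK hy0 hJy jx jy
  have hA0 : 0 < (Real.log T.N) ^ (Cp + 4 * P.C1 + 4) := by positivity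
  have hNr : (0 : ℝ) < T.N := by exact_mod_cast hN1
  -- first bound
  have hb1 : ∀ l : ℕ, Mul P (W0 ^ 2 * T.N) l → ∑ x : ZMod (W0 ^ 2 * T.N), (if IsUnit x then
      AP P (W0 ^ 2 * T.N) (datS S J0 J1 J2 T.y0) (LkS S T) (BdS S T y1) l x else 0) ≤
      (J1 : ℝ) * (T.N / (Real.log T.N) ^ (Cp + 4 * P.C1 + 4)) := by
    intro l hl
    refine (ap_le_aff P S T W0 y1 J0 J1 J2 (by omega) hok hX s t hs ht l hl).trans ?_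
    have h2 : ∀ D' ∈ Icc 1 J1, ((Aff S (wD T (W0 ^ 2 * D')) (Pat T.N T.y T.z s t ∪ Pat T.N T.y T.z (-s) (-t))
        (range (J1 * (W0 ^ 2 * T.N)))).card : ℝ) ≤ T.N / (Real.log T.N) ^ (Cp + 4 * P.C1 + 4) := by
      intro D' hD
      rw [mem_Icc] at hD
      exact k1 hRo S (wD T (W0 ^ 2 * D')) Z (show N1 ≤ T.N by omega) hyw hyA hTz (hX D' (by omega) hD.2) s t hs ht hpat _
    refine (sum_le_card_nsmul _ _ _ h2).trans (le_of_eq ?_)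
    rw [Nat.card_Icc, nsmul_eq_mul, Nat.add_sub_cancel]
  have hb2 : ∀ l : ℕ, Mul P (W0 ^ 2 * T.N) l → ∑ x : ZMod (W0 ^ 2 * T.N), (if IsUnit x then
      AP P (W0 ^ 2 * T.N) (datS S J0 J1 J2 T.y0) (LkS S T) (BdS S T y1) l x else 0) ≤
      (J1 : ℝ) * (T.N / (Real.log T.N) ^ (Cp + 4 * P.C1 + 4 + 13)) := by
    intro l hl
    refine (ap_le_aff P S T W0 y1 J0 J1 J2 (by omega) hok hX s t hs ht l hl).trans ?_
    have h2 : ∀ D' ∈ Icc 1 J1, ((Aff S (wD T (W0 ^ 2 * D')) (Pat T.N T.y T.z s t ∪ Pat T.N T.y T.z (-s) (-t))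
        (range (J1 * (W0 ^ 2 * T.N)))).card : ℝ) ≤ T.N / (Real.log T.N) ^ (Cp + 4 * P.C1 + 4 + 13) := by
      intro D' hD
      rw [mem_Icc] at hD
      exact k2 hRo S (wD T (W0 ^ 2 * D')) Z (show N2 ≤ T.N by omega) hyw hyA hTz (hX D' (by omega) hD.2) s t hs ht hpat _
    refine (sum_le_card_nsmul _ _ _ h2).trans (le_of_eq ?_)
    rw [Nat.card_Icc, nsmul_eq_mul, Nat.add_sub_cancel]
  refine ⟨fun l hl => ?_, fun χ hχ hχ1 hχl _ l hl => ?_⟩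
  · rw [← hρX, ← hρY]
    exact (hb1 l hl).trans hB
  · rw [← hρX, ← hρY]
    obtain ⟨⟨L, hL0, hLV, hL1, hL2⟩, hσ1, hσ2⟩ := k7 T.N (by omega) χ hχ hχ1
    obtain ⟨σ, hσ⟩ : ∃ σ : ℝ, σ = Pool.Agent.Lib.TCF.sgm P χ := ⟨_, rfl⟩
    rw [← hσ] at hL2 hσ1 hσ2 ⊢
    have hσ0 : 0 ≤ σ := (Real.rpow_nonneg hNr.le _).trans hσ1
    refine le_trans ?_ (mul_le_mul_of_nonneg_left hB hσ0)
    by_cases hc : 1 / (Real.log T.N) ^ 13 ≤ σ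
    · refine (hb2 l hl).trans ?_
      calc (J1 : ℝ) * (T.N / (Real.log T.N) ^ (Cp + 4 * P.C1 + 4 + 13)) =
            1 / (Real.log T.N) ^ 13 * (J1 * (T.N / (Real.log T.N) ^ (Cp + 4 * P.C1 + 4))) := by
            rw [pow_add _ (Cp + 4 * P.C1 + 4) 13]
            field_simp
        _ ≤ σ * (J1 * (T.N / (Real.log T.N) ^ (Cp + 4 * P.C1 + 4))) :=
            mul_le_mul_of_nonneg_right hc (by positivity)
    · have hc' : σ ≤ 1 / (Real.log T.N) ^ (4 + 9) := (not_le.1 hc).le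
      have hm := k6 T.N (by omega) χ hχl
      have hpt : ((Pat T.N T.y (zC C1 T.N) s t).card : ℝ) ≤ T.N / (Real.log T.N) ^ 6 := by
        rw [← hTz]
        exact hpat.trans hpow
      have hpt' : ((Pat T.N T.y (zC C1 T.N) (-s) (-t)).card : ℝ) ≤ T.N / (Real.log T.N) ^ 6 := by
        refine k4 T.N (by omega) hRo T.y hyw hyA s t hs ht ?_
        rw [← hTz]
        exact hpat
      rw [← hTy] at hσ2
      have hH1 := k5 T.N (by omega) hev hRo T.y hyw hyA χ hχ hχ1 L hLV hL1 σ hL2 hc' hσ2 s t hs ht hpt hpt'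
      rw [← hTz] at hH1
      refine (ap_le_aff P S T W0 y1 J0 J1 J2 (by omega) hok hX s t hs ht l hl).trans ?_
      have h2 : ∀ D' ∈ Icc 1 J1, ((Aff S (wD T (W0 ^ 2 * D')) (Pat T.N T.y T.z s t ∪ Pat T.N T.y T.z (-s) (-t))
          (range (J1 * (W0 ^ 2 * T.N)))).card : ℝ) ≤ σ * T.N / (Real.log T.N) ^ (Cp + 4 * P.C1 + 4) := by
        intro D' hD
        rw [mem_Icc] at hD
        haveI : NeZero (W0 ^ 2 * (wD T (W0 ^ 2 * D')).N) := hnz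
        exact k3 hRo S (wD T (W0 ^ 2 * D')) Z (show N3 ≤ T.N by omega) hyw hyA hTz (hX D' (by omega) hD.2) χ hχ hm L hL0 hLV σ hσ1 hL2
          hσ2 s t hs ht hH1 hpat _
      refine (sum_le_card_nsmul _ _ _ h2).trans (le_of_eq ?_)
      rw [Nat.card_Icc, nsmul_eq_mul, Nat.add_sub_cancel]
      ring

end Pool.Agent.Lib.TE
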