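import Pool.Agent.Lib.MP_7b7e48_nt.TE.XDefs
import Pool.Agent.Lib.MP_7b7e48_nt.BR3.K
import Pool.Agent.Lib.MP_7b7e48_nt.BR3.R
import Pool.Agent.Lib.MP_7b7e48_nt.BR3.T

/-!
# Module XC1 (60 minutes): two facts on the concrete mark system

`Q.sys N` is the mark system of `BR3/D.lean`, `κ = kp N`, `K = log N = κ^100`, `Z i = Q.Z N i`. `cc_up`. PROOF. `CC` is a subset of the functions `FE n0 → Fin (k+1)`: `#CC ≤ (k+1)^(2 n0)`; `n0 ≤ la (log K)/4` (`R_base`), so `2 n0 ≤ (la/2) log K` and `R_pow`: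
`(k+1)^(2 n0) ≤ K^⌈(la/2) log (k+1)⌉ ≤ K^CcX`.
`zu`. PROOF. `sA (Q.sys N) N c μ ν l = (Q.sys N).AA N c μ ν 0 l` for `l < k` (`MS.AA`, `if_pos`), so `sA ≤ exp (κ^80)` (`AA_le`); `μ.1 l ≤ 4 Z l = 4 · 16^l ⌊N^e1⌋ ≤ 4 · 16^k N^e1` for `l < k` (`WXs`, `Z`). `win2`: `16^(k+2) exp (κ^90) ≤ N^e1`, so `μ.1 l * sA l ≤ 4 · 16^k exp (κ^80) N^e1 ≤ N^(2 e1)` and
the product is `≤ N^(2 k e1)`. `Z k = 16^k ⌊N^(2 (k+1) e1)⌋ ≥ 16^k (N^(2 (k+1) e1) - 1) ≥ N^(2 (k + 1) e1) ≥ N^(2 k e1)` (`N^(..) ≥ 2`).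
-/

set_option autoImplicit false

open Finset
open Pool.Agent.Lib.TC (MS Dat ext1 Sm Cyc MPar)

namespace Pool.Agent.Lib.TE

/-- the exponent for the colourings and for `D` -/
noncomputable def CcX (Q : MPar) : ℕ := Q.Cp + ⌈(Q.la : ℝ) * Real.log ((Q.k : ℝ) + 1)⌉₊

theorem cc_up {Q : MPar} {N : ℕ} (hQ : Q.Ok) (h : Q.Lg N) : ((Q.sys N).CC.card : ℝ) ≤ (Real.log N) ^ (CcX Q) := by
  obtain ⟨_, hK, _, hn, _⟩ := MPar.R_base hQ h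
  have hK1 : (1 : ℝ) ≤ Real.log N := le_trans (by norm_num) hK
  have h1 : (Q.sys N).CC.card ≤ (Q.k + 1) ^ (2 * Q.n0 N) := by
    refine (card_le_univ _).trans (le_of_eq ?_)
    rw [Fintype.card_fun, Fintype.card_sum, Fintype.card_fin, Fintype.card_fin]
    show (Q.k + 1) ^ (Q.n0 N + Q.n0 N) = _
    congr 1
    ring
  have h2 : (((Q.sys N).CC.card : ℕ) : ℝ) ≤ ((Q.k : ℝ) + 1) ^ (2 * Q.n0 N) := by
    have : (((Q.sys N).CC.card : ℕ) : ℝ) ≤ (((Q.k + 1) ^ (2 * Q.n0 N) : ℕ) : ℝ) := by exact_mod_cast h1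
    push_cast at this
    exact this
  have hk : (0 : ℝ) ≤ Q.k := Nat.cast_nonneg _
  have hla : (0 : ℝ) ≤ Q.la := Nat.cast_nonneg _
  have hlog : 0 ≤ Real.log (Real.log N) := Real.log_nonneg hK1
  have h3 : (((2 * Q.n0 N : ℕ)) : ℝ) ≤ (Q.la : ℝ) * Real.log (Real.log N) := by
    push_cast
    have := mul_nonneg hla hlog
    linarith
  have h4 := MPar.R_pow (a := (Q.k : ℝ) + 1) (by linarith) hK1 h3
  refine h2.trans (h4.trans ?_)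
  apply pow_le_pow_right₀ hK1
  unfold CcX
  omega

theorem zu {Q : MPar} {N : ℕ} (hQ : Q.Ok) (h : Q.Lg N) (c : (Q.sys N).Col) {μ : (Q.sys N).TX} (hμ : μ ∈ (Q.sys N).MX) {ν : (Q.sys N).TY}
    (hν : ν ∈ (Q.sys N).MY) : ∏ l ∈ range (Q.sys N).k, ext1 μ.1 l * sA (Q.sys N) N c μ ν l ≤ Q.Z N Q.k := by
  have hkp : (1 : ℝ) ≤ MPar.kp N := by
    refine le_trans ?_ h.k0
    have : (1 : ℝ) ≤ ((Q.k : ℝ) + 1) ^ 4 := one_le_pow₀ (by linarith [(Nat.cast_nonneg Q.k : (0 : ℝ) ≤ Q.k)])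
    nlinarith
  have hN1 : (1 : ℝ) ≤ N := by
    have := MPar.Lg.N1 h
    exact_mod_cast this.le
  have hNpos : (0 : ℝ) < N := by linarith
  have he : 0 < Q.e1 := hQ.e0
  have hfac : ∀ l ∈ range (Q.sys N).k, ((ext1 μ.1 l * sA (Q.sys N) N c μ ν l : ℕ) : ℝ) ≤ (N : ℝ) ^ (2 * Q.e1) := by
    intro l hl
    have hl' : l < Q.k := mem_range.1 hl
    have h1 : ext1 μ.1 l ≤ 4 * Q.Z N l := by
      have hm : μ.1 ⟨l, by show l < Q.k + 1; omega⟩ ∈ (Q.sys N).WX ⟨l, by show l < Q.k + 1; omega⟩ := by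
        have := (mem_product.1 hμ).1
        exact Fintype.mem_piFinset.1 this _
      have hm2 := (mem_Ioc.1 (mem_filter.1 hm).1).2
      unfold ext1
      rw [dif_pos (show l < (Q.sys N).k + 1 by show l < Q.k + 1; omega)]
      exact hm2
    have h2 : sA (Q.sys N) N c μ ν l = (Q.sys N).AA N c μ ν 0 l := by
      unfold sA MS.AA
      rw [if_pos (show l < (Q.sys N).k from hl')]
    have h3 := MPar.AA_le hQ h c hμ hν 0 hl'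
    have h4 : (Q.Z N l : ℝ) ≤ 16 ^ Q.k * (N : ℝ) ^ Q.e1 := by
      unfold MPar.Z
      rw [if_pos hl']
      push_cast
      have h5 : (⌊(N : ℝ) ^ Q.e1⌋₊ : ℝ) ≤ (N : ℝ) ^ Q.e1 := Nat.floor_le (by positivity)
      have h6 : (16 : ℝ) ^ l ≤ 16 ^ Q.k := pow_le_pow_right₀ (by norm_num) hl'.le
      exact mul_le_mul h6 h5 (Nat.cast_nonneg _) (by positivity)
    rw [h2]
    push_cast
    have h7 : ((ext1 μ.1 l : ℕ) : ℝ) ≤ 4 * (16 ^ Q.k * (N : ℝ) ^ Q.e1) := by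
      have : ((ext1 μ.1 l : ℕ) : ℝ) ≤ ((4 * Q.Z N l : ℕ) : ℝ) := by exact_mod_cast h1
      push_cast at this
      linarith
    have h8 : Real.exp (MPar.kp N ^ 80) ≤ Real.exp (MPar.kp N ^ 90) :=
      Real.exp_le_exp.2 (pow_le_pow_right₀ hkp (by norm_num))
    have h9 : 4 * 16 ^ Q.k * Real.exp (MPar.kp N ^ 90) ≤ (N : ℝ) ^ Q.e1 := by
      refine le_trans ?_ h.win2
      apply mul_le_mul_of_nonneg_right _ (Real.exp_pos _).le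
      have : (16 : ℝ) ^ (Q.k + 2) = 256 * 16 ^ Q.k := by ring
      rw [this]
      have : (0 : ℝ) ≤ 16 ^ Q.k := by positivity
      linarith
    calc ((ext1 μ.1 l : ℕ) : ℝ) * (((Q.sys N).AA N c μ ν 0 l : ℕ) : ℝ)
        ≤ (4 * (16 ^ Q.k * (N : ℝ) ^ Q.e1)) * Real.exp (MPar.kp N ^ 90) :=
          mul_le_mul h7 (h3.trans h8) (Nat.cast_nonneg _) (by positivity)
      _ = (4 * 16 ^ Q.k * Real.exp (MPar.kp N ^ 90)) * (N : ℝ) ^ Q.e1 := by ring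
      _ ≤ (N : ℝ) ^ Q.e1 * (N : ℝ) ^ Q.e1 := mul_le_mul_of_nonneg_right h9 (by positivity)
      _ = (N : ℝ) ^ (2 * Q.e1) := by
          rw [← Real.rpow_add hNpos]
          congr 1
          ring
  have hprod : ((∏ l ∈ range (Q.sys N).k, ext1 μ.1 l * sA (Q.sys N) N c μ ν l : ℕ) : ℝ) ≤ ((N : ℝ) ^ (2 * Q.e1)) ^ Q.k := by
    rw [Nat.cast_prod]
    refine (prod_le_prod (fun l _ => Nat.cast_nonneg _) hfac).trans (le_of_eq ?_)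
    rw [prod_const, card_range]
    rfl
  have hP2 : (2 : ℝ) ≤ (N : ℝ) ^ (2 * Q.e1) := by
    have h1 : (2 : ℝ) ≤ (N : ℝ) ^ Q.e1 := by
      refine le_trans ?_ h.win2
      have h2 : (1 : ℝ) ≤ Real.exp (MPar.kp N ^ 90) := Real.one_le_exp (by positivity)
      have h3 : (16 : ℝ) ≤ 16 ^ (Q.k + 2) := le_self_pow₀ (by norm_num) (by omega)
      nlinarith
    refine h1.trans (Real.rpow_le_rpow_of_exponent_le hN1 (by linarith))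
  have hZ : ((N : ℝ) ^ (2 * Q.e1)) ^ Q.k ≤ (Q.Z N Q.k : ℝ) := by
    unfold MPar.Z
    rw [if_neg (lt_irrefl _)]
    push_cast
    have h1 : (N : ℝ) ^ (2 * ((Q.k : ℝ) + 1) * Q.e1) = ((N : ℝ) ^ (2 * Q.e1)) ^ (Q.k + 1) := by
      rw [← Real.rpow_natCast, ← Real.rpow_mul hNpos.le]
      congr 1
      push_cast
      ring
    have h2 : (N : ℝ) ^ (2 * ((Q.k : ℝ) + 1) * Q.e1) - 1 < (⌊(N : ℝ) ^ (2 * ((Q.k : ℝ) + 1) * Q.e1)⌋₊ : ℝ) := Nat.sub_one_lt_floor _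
    have h3 : (1 : ℝ) ≤ ((N : ℝ) ^ (2 * Q.e1)) ^ Q.k := one_le_pow₀ (by linarith)
    have h4 : ((N : ℝ) ^ (2 * Q.e1)) ^ (Q.k + 1) = ((N : ℝ) ^ (2 * Q.e1)) ^ Q.k * (N : ℝ) ^ (2 * Q.e1) := pow_succ _ _
    have h5 : 2 * ((N : ℝ) ^ (2 * Q.e1)) ^ Q.k ≤ ((N : ℝ) ^ (2 * Q.e1)) ^ (Q.k + 1) := by
      rw [h4]
      nlinarith
    have h6 : (1 : ℝ) ≤ 16 ^ Q.k := one_le_pow₀ (by norm_num)
    have h7 : (0 : ℝ) ≤ (⌊(N : ℝ) ^ (2 * ((Q.k : ℝ) + 1) * Q.e1)⌋₊ : ℝ) := Nat.cast_nonneg _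
    have h8 : (⌊(N : ℝ) ^ (2 * ((Q.k : ℝ) + 1) * Q.e1)⌋₊ : ℝ) ≤ 16 ^ Q.k * (⌊(N : ℝ) ^ (2 * ((Q.k : ℝ) + 1) * Q.e1)⌋₊ : ℝ) :=
      le_mul_of_one_le_left h7 h6
    rw [h1] at h2 h8 ⊢
    linarith
  have := hprod.trans hZ
  exact_mod_cast this

end Pool.Agent.Lib.TE
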