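import Pool.Agent.Lib.MP_7b7e48_nt.TE.XC1

/-!
# Module XC2 (60 minutes): `XOK` for the concrete mark system

`Q.sys N` is the mark system of `BR3/D.lean`, `κ = kp N`, `K = log N = κ^100`. PROOF (fields). `k1`: `hQ.k1`. `N2`: `h.N1`. `D_le`: `T.D ≤ y0 ≤ K^Cp ≤ K^CcX`. `WX_mem`, `WY_mem`: `w_ok` and `y0_lt` (`κ^90 ≥ κ ≥ l0`: `h.lk`; `(Q.sys N).WX i = Q.WXs N i` by `rfl`); `FX_mem` … `OY_mem`: `nw_ok`, `y0_lt`.
`WXk`, `WYk`: definitions `WXs`, `WYs` with `i = k`. `WX_s` …: `fam_upX`, `fam_upY` at the index of the set (`TCB.famX = Fin.append (Fin.append WX FX) OX`; `Fin.append_left`, `Fin.append_right`).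
`disX`, `disY`: for `a ≠ b` the elements at `a`, `b` belong to disjoint sets (`sets_x`, `sets_y`). `ab`: `ν.1 i ≤ 2 Z i ≤ 3 Z i < μ.1 i`. `AB`: `comp` (`sA = AA` for `i < k`: `if_pos`). `ZU`: `zu`.
`Zlo`: `Z k = 16^k ⌊N^(2 (k+1) e1)⌋ ≥ 16 (N^e1 - 1) ≥ N^e1`. `small`: `small_x`, `small_y`, `N^(8 (k+1) e1) ≤ N^e2`. `card`, `num`: `cnt` (the number is `≤ κ`; `κ^4 ≤ κ^100 - 1 = K - 1`, `Cp ≥ 1`). `cc`: `cc_up`.
`Wf_y`: a prime factor of `W^2` divides `W`.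
-/

set_option autoImplicit false

open Finset
open Pool.Agent.Lib.TC (MS Dat ext1 Sm Cyc MPar)

namespace Pool.Agent.Lib.TE

private theorem XC2_kp {Q : MPar} {N : ℕ} (h : Q.Lg N) : (1 : ℝ) ≤ MPar.kp N := by
  have h1 := h.k0
  have h2 : (1 : ℝ) ≤ ((Q.k : ℝ) + 1) ^ 4 := one_le_pow₀ (by
    have : (0 : ℝ) ≤ Q.k := Nat.cast_nonneg _
    linarith)
  nlinarith

private theorem XC2_kK {Q : MPar} {N : ℕ} (h : Q.Lg N) (m : ℕ) (hm : m ≤ 100) : MPar.kp N ^ m ≤ Real.log N := by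
  rw [← h.Kk]
  exact pow_le_pow_right₀ (XC2_kp h) hm

private theorem XC2_N {Q : MPar} {N : ℕ} (h : Q.Lg N) : 2 ≤ N := by
  have h1 := XC2_kK h 0 (by norm_num)
  rw [pow_zero] at h1
  by_contra hN
  push Not at hN
  have h2 : N = 0 ∨ N = 1 := by omega
  rcases h2 with h2 | h2
  · rw [h2, Nat.cast_zero, Real.log_zero] at h1
    linarith
  · rw [h2, Nat.cast_one, Real.log_one] at h1
    linarith

private theorem XC2_w {Q : MPar} {N : ℕ} (hQ : Q.Ok) (h : Q.Lg N) {p : ℕ} {i : ℕ} (hi : i ≤ Q.k)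
    (hp : p ∈ Q.WXs N i ∨ p ∈ Q.WYs N i) : p.Prime ∧ ¬ p ∣ N ∧ Q.y0 N < p := by
  obtain ⟨h1, h2, h3, h4⟩ := MPar.w_ok hQ h hi hp
  refine ⟨h1, h2, MPar.y0_lt hQ h ?_⟩
  refine lt_of_le_of_lt (h.lk.trans ?_) h3
  exact le_self_pow₀ (XC2_kp h) (by norm_num)

private theorem XC2_nw {Q : MPar} {N : ℕ} (hQ : Q.Ok) (h : Q.Lg N) {p : ℕ}
    (hp : (∃ f, p ∈ (Q.sys N).FX f) ∨ (∃ f, p ∈ (Q.sys N).FY f) ∨ (∃ e, p ∈ (Q.sys N).OX e) ∨
      ∃ e, p ∈ (Q.sys N).OY e) : p.Prime ∧ ¬ p ∣ N ∧ Q.y0 N < p := by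
  obtain ⟨h1, h2, h3, h4, h5⟩ := MPar.nw_ok hQ h hp
  exact ⟨h1, h2, MPar.y0_lt hQ h h3⟩

private theorem XC2_Z {Q : MPar} {N : ℕ} (hQ : Q.Ok) (i : ℕ) : ∀ d : ℕ, i + d + 1 ≤ Q.k →
    16 * Q.Z N i ≤ Q.Z N (i + d + 1) := by
  intro d
  induction d with
  | zero => intro h; exact MPar.Z_step hQ (by omega)
  | succ d ih =>
    intro h
    have h1 := ih (by omega)
    have h2 := MPar.Z_step (N := N) hQ (i := i + d + 1) (by omega)
    have h3 : i + (d + 1) + 1 = i + d + 1 + 1 := by ring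
    rw [h3]
    omega

private theorem XC2_Zlo {Q : MPar} {N : ℕ} (hQ : Q.Ok) (h : Q.Lg N) : (N : ℝ) ^ Q.e1 ≤ Q.Z N Q.k := by
  have hk := hQ.k3
  have h1 := XC2_Z (N := N) hQ 0 (Q.k - 1) (by omega)
  have h2 : 0 + (Q.k - 1) + 1 = Q.k := by omega
  rw [h2] at h1
  have h3 : Q.Z N 0 = ⌊(N : ℝ) ^ Q.e1⌋₊ := by
    unfold MPar.Z
    rw [if_pos (by omega), pow_zero, one_mul]
  have h4 : (1 : ℝ) ≤ ⌊(N : ℝ) ^ Q.e1⌋₊ := (Real.one_le_exp (by
    have := XC2_kp h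
    positivity)).trans h.win
  have h5 : (N : ℝ) ^ Q.e1 < ⌊(N : ℝ) ^ Q.e1⌋₊ + 1 := Nat.lt_floor_add_one _
  have h6 : (16 : ℝ) * ⌊(N : ℝ) ^ Q.e1⌋₊ ≤ Q.Z N Q.k := by
    rw [← h3]
    exact_mod_cast h1
  linarith

private theorem XC2_inj {ι : Type} {A : ι → Finset ℕ} {f : ι → ℕ} (hA : ∀ a b, a ≠ b → Disjoint (A a) (A b)) (hf : ∀ a, f a ∈ A a) :
    Function.Injective f := by
  intro a b hab
  by_contra hne
  have h1 := hA a b hne
  rw [Finset.disjoint_left] at h1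
  exact h1 (hf a) (hab ▸ hf b)

private theorem XC2_num {Q : MPar} {N : ℕ} (h : Q.Lg N) :
    ((2 * ((Q.sys N).k + 1) + 2 * (Q.sys N).n0 + (Q.sys N).nX + (Q.sys N).nY : ℕ) : ℝ) ≤ MPar.kp N := by
  have h1 := h.cnt
  have h0 : ((2 * ((Q.sys N).k + 1) + 2 * (Q.sys N).n0 + (Q.sys N).nX + (Q.sys N).nY : ℕ) : ℝ) =
      2 * ((Q.k : ℝ) + 1) + 2 * Q.n0 N + Q.k * (Q.nit N : ℝ) + Q.k * ((Q.np N : ℝ) + 1) := by
    show ((2 * (Q.k + 1) + 2 * Q.n0 N + Q.k * Q.nit N + Q.k * (Q.np N + 1) : ℕ) : ℝ) =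
      2 * ((Q.k : ℝ) + 1) + 2 * Q.n0 N + Q.k * (Q.nit N : ℝ) + Q.k * ((Q.np N : ℝ) + 1)
    push_cast
    ring
  rw [h0]
  have h2 : (0 : ℝ) ≤ Q.k * (Q.nit N : ℝ) := by positivity
  have h3 : (0 : ℝ) ≤ Q.k * ((Q.np N : ℝ) + 1) := by positivity
  linarith

theorem xok {Q : MPar} {N : ℕ} (hQ : Q.Ok) (h : Q.Lg N) (T : Dat) (hT : T.N = N) (hy : T.y0 = Q.y0 N) (hD0 : 0 < T.D) (hD : T.D ≤ T.y0)
    (hyy : T.y ≤ T.y0) (hW : ∀ p : ℕ, p.Prime → p ∣ Q.W → p ≤ T.y) (e2 : ℝ) (he2 : 8 * ((Q.k : ℝ) + 1) * Q.e1 ≤ e2) :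
    XOK (Q.sys N) T (Q.W ^ 2) (Q.Z N Q.k) (CcX Q) Q.e1 e2 := by
  subst hT
  have hN2 := XC2_N h
  have hN0 : (0 : ℝ) < T.N := by
    have : (2 : ℝ) ≤ T.N := by exact_mod_cast hN2
    linarith
  have hN1 : (1 : ℝ) ≤ T.N := by
    have : (2 : ℝ) ≤ T.N := by exact_mod_cast hN2
    linarith
  have hκ := XC2_kp h
  have hK1 : (1 : ℝ) ≤ Real.log T.N := by
    have := XC2_kK h 0 (by norm_num)
    rwa [pow_zero] at this
  have hw : ∀ i : Fin (Q.k + 1), ∀ l : ℕ, (l ∈ Q.WXs T.N i ∨ l ∈ Q.WYs T.N i) → l.Prime ∧ ¬ l ∣ T.N ∧ T.y0 < l := by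
    intro i l hl
    rw [hy]
    exact XC2_w hQ h (Nat.lt_succ_iff.mp i.isLt) hl
  have hnw : ∀ l : ℕ, ((∃ f, l ∈ (Q.sys T.N).FX f) ∨ (∃ f, l ∈ (Q.sys T.N).FY f) ∨
      (∃ e, l ∈ (Q.sys T.N).OX e) ∨ ∃ e, l ∈ (Q.sys T.N).OY e) → l.Prime ∧ ¬ l ∣ T.N ∧ T.y0 < l := by
    intro l hl
    rw [hy]
    exact XC2_nw hQ h hl
  have hWX : ∀ i : ℕ, ∀ l ∈ Q.WXs T.N i, 3 * Q.Z T.N i < l ∧ l ≤ 4 * Q.Z T.N i := by
    intro i l hl
    unfold MPar.WXs at hl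
    rw [mem_filter, mem_Ioc] at hl
    exact hl.1
  have hWY : ∀ i : ℕ, ∀ l ∈ Q.WYs T.N i, Q.Z T.N i < l ∧ l ≤ 2 * Q.Z T.N i := by
    intro i l hl
    unfold MPar.WYs at hl
    rw [mem_filter, mem_Ioc] at hl
    exact hl.1
  refine
    { k1 := hQ.k1
      N2 := hN2
      D0 := hD0
      D_le := ?_
      D_y0 := hD
      WX_mem := fun i l hl => hw i l (Or.inl hl)
      WY_mem := fun i l hl => hw i l (Or.inr hl)
      FX_mem := fun f l hl => hnw l (Or.inl ⟨f, hl⟩)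
      FY_mem := fun f l hl => hnw l (Or.inr (Or.inl ⟨f, hl⟩))
      OX_mem := fun e l hl => hnw l (Or.inr (Or.inr (Or.inl ⟨e, hl⟩)))
      OY_mem := fun e l hl => hnw l (Or.inr (Or.inr (Or.inr ⟨e, hl⟩)))
      WXk := fun l hl => hWX Q.k l hl
      WYk := fun l hl => hWY Q.k l hl
      WX_s := ?_
      WY_s := ?_
      FX_s := ?_
      FY_s := ?_
      OX_s := ?_
      OY_s := ?_
      disX := ?_
      disY := ?_
      ab := ?_
      AB := ?_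
      ZU := fun c _ μ hμ ν hν => zu hQ h c hμ hν
      Zlo := XC2_Zlo hQ h
      small := ?_
      card := ?_
      num := ?_
      cc := cc_up hQ h
      Wf_y := fun p hp hpW => hW p hp (hp.dvd_of_dvd_pow hpW)
      y_y0 := hyy }
  · -- D_le
    have h1 : (T.D : ℝ) ≤ T.y0 := by exact_mod_cast hD
    have h2 : (T.y0 : ℝ) ≤ (Real.log T.N) ^ Q.Cp := by
      rw [hy]
      unfold MPar.y0
      exact Nat.floor_le (by positivity)
    refine (h1.trans h2).trans (pow_le_pow_right₀ hK1 ?_)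
    unfold CcX
    exact Nat.le_add_right _ _
  · intro i
    have h1 := MPar.fam_upX hQ h (Fin.castAdd _ (Fin.castAdd _ i))
    unfold Pool.Agent.Lib.TCB.famX at h1
    rw [Fin.append_left, Fin.append_left] at h1
    exact h1
  · intro i
    have h1 := MPar.fam_upY hQ h (Fin.castAdd _ (Fin.castAdd _ i))
    unfold Pool.Agent.Lib.TCB.famY at h1
    rw [Fin.append_left, Fin.append_left] at h1
    exact h1
  · intro i
    have h1 := MPar.fam_upX hQ h (Fin.castAdd _ (Fin.natAdd _ i))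
    unfold Pool.Agent.Lib.TCB.famX at h1
    rw [Fin.append_left, Fin.append_right] at h1
    exact h1
  · intro i
    have h1 := MPar.fam_upY hQ h (Fin.castAdd _ (Fin.natAdd _ i))
    unfold Pool.Agent.Lib.TCB.famY at h1
    rw [Fin.append_left, Fin.append_right] at h1
    exact h1
  · intro i
    have h1 := MPar.fam_upX hQ h (Fin.natAdd _ i)
    unfold Pool.Agent.Lib.TCB.famX at h1
    rw [Fin.append_right] at h1
    exact h1
  · intro i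
    have h1 := MPar.fam_upY hQ h (Fin.natAdd _ i)
    unfold Pool.Agent.Lib.TCB.famY at h1
    rw [Fin.append_right] at h1
    exact h1
  · intro μ hμ
    unfold MS.MX at hμ
    rw [mem_product, mem_product, Fintype.mem_piFinset, Fintype.mem_piFinset, Fintype.mem_piFinset] at hμ
    refine XC2_inj (A := Sum.elim (Q.sys T.N).WX (Sum.elim (Q.sys T.N).FX (Q.sys T.N).OX)) (MPar.sets_x hQ h) ?_
    rintro (i | f | e)
    · exact hμ.1 i
    · exact hμ.2.1 f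
    · exact hμ.2.2 e
  · intro ν hν
    unfold MS.MY at hν
    rw [mem_product, mem_product, Fintype.mem_piFinset, Fintype.mem_piFinset, Fintype.mem_piFinset] at hν
    refine XC2_inj (A := Sum.elim (Q.sys T.N).WY (Sum.elim (Q.sys T.N).FY (Q.sys T.N).OY)) (MPar.sets_y hQ h) ?_
    rintro (i | f | e)
    · exact hν.1 i
    · exact hν.2.1 f
    · exact hν.2.2 e
  · intro μ hμ ν hν i
    unfold MS.MX at hμ
    rw [mem_product, Fintype.mem_piFinset] at hμ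
    unfold MS.MY at hν
    rw [mem_product, Fintype.mem_piFinset] at hν
    have h1 := (hWX i _ (hμ.1 i)).1
    have h2 := (hWY i _ (hν.1 i)).2
    omega
  · intro c hc μ hμ ν hν i hi
    have h1 := (MPar.comp hQ h c hμ hν 0 0 hi).1
    unfold MS.AA MS.BB at h1
    have hi' : i < (Q.sys T.N).k := hi
    rw [if_pos hi', if_pos hi'] at h1
    exact h1
  · intro μ hμ ν hν
    have h1 := MPar.small_x hQ h hμ
    have h2 := MPar.small_y hQ h hν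
    push_cast
    calc (((Q.sys T.N).prX id μ : ℕ) : ℝ) * (((Q.sys T.N).prY id ν : ℕ) : ℝ) ≤
          (T.N : ℝ) ^ (4 * ((Q.k : ℝ) + 1) * Q.e1) * (T.N : ℝ) ^ (4 * ((Q.k : ℝ) + 1) * Q.e1) :=
          mul_le_mul h1 h2 (Nat.cast_nonneg _) (by positivity)
      _ = (T.N : ℝ) ^ (4 * ((Q.k : ℝ) + 1) * Q.e1 + 4 * ((Q.k : ℝ) + 1) * Q.e1) :=
          (Real.rpow_add hN0 _ _).symm
      _ ≤ (T.N : ℝ) ^ e2 := by
          apply Real.rpow_le_rpow_of_exponent_le hN1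
          linarith
  · -- card
    have hn := XC2_num h
    rw [hy]
    unfold MPar.y0
    rw [Nat.le_floor_iff (by positivity)]
    push_cast at hn ⊢
    refine (pow_le_pow_left₀ (by positivity) hn 4).trans ?_
    refine (XC2_kK h 4 (by norm_num)).trans ?_
    exact le_self_pow₀ hK1 (by have := hQ.Cp; omega)
  · refine (XC2_num h).trans ?_
    have := XC2_kK h 1 (by norm_num)
    rwa [pow_one] at this

end Pool.Agent.Lib.TE
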