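import Pool.Agent.Lib.MP_7b7e48_nt.TC.Cyc

/-!
# Module XD1 (75 minutes): the difference of two cycles with the same short data

Two cycles with the same `N`, `al`, `be`, `A i`, `B i` (`i < k`) and the same `e k`. `d i = t i - t' i`, `δ i = e i - e' i` (integers). PROOF. `h.E`, `h'.E` for `i < k`: `A i δ i = - be i d i`; `h.F`, `h'.F`: `B i δ i = - al (i+1) d (i+1)`. So `B i be i d i = A i al (i+1) d (i+1)` (`i < k`), and by induction
(1) `(∏_{l<i} B l be l) d 0 = (∏_{l<i} A l al (l+1)) d i`, (2) `(∏_{i≤l<k} B l be l) d i = (∏_{i≤l<k} A l al (l+1)) d k`. The ground slot: (3) `e k (A k - A' k) = - be k d k`, (4) `e k (B k - B' k) = - al 0 d 0`.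
`XD1_dvd`: by (1) and coprimality `∏_{l<i} B l be l ∣ d i`; by (2) `∏_{i≤l<k} A l al (l+1) ∣ d i`; `RX ∣ be k d k` by (3), so `RX ∣ d k`, so by (2) `RX ∣ d i`; `RY ∣ al 0 d 0` by (4), `RY ∣ d 0`, by (1) `RY ∣ d i`; `e k ∣ al 0 d 0` by (4), `e k ∣ d 0`, by (1) `e k ∣ d i`. The five factors are pairwise coprime
(`PX = (∏_{i≤k} al i)(∏_{i<k} A i)`, `PY = (∏_{i≤k} be i)(∏_{i<k} B i)`, `RX`, `RY`, `e k` are pairwise coprime by hypothesis), so the product divides `d i`.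
`XD1_inj`: `d i = 0` for one `i ≤ k` gives `d 0 = 0` (1) and `d k = 0` (2) (all factors are positive), so `A k = A' k`, `B k = B' k`.
-/

set_option autoImplicit false

open Finset
open Pool.Agent.Lib.TC (Cyc)

namespace Pool.Agent.Lib.TE

section
variable {N k : ℕ} {A B A' B' al be e t e' t' : ℕ → ℕ}

private theorem XD1_step (h : Cyc N (k + 1) A B al be e t) (h' : Cyc N (k + 1) A' B' al be e' t')
    (hA : ∀ i < k, A i = A' i) (hB : ∀ i < k, B i = B' i) {i : ℕ} (hi : i < k) :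
    ((B i : ℤ) * be i) * ((t i : ℤ) - t' i) = ((A i : ℤ) * al (i + 1)) * ((t (i + 1) : ℤ) - t' (i + 1)) := by
  have h1 := h.E i (by omega)
  have h2 := h'.E i (by omega)
  have h3 := h.F i (by omega)
  have h4 := h'.F i (by omega)
  rw [Nat.mod_eq_of_lt (by omega : i + 1 < k + 1)] at h3 h4
  rw [← hA i hi] at h2
  rw [← hB i hi] at h4
  zify at h1 h2 h3 h4
  linear_combination (B i : ℤ) * h1 - (B i : ℤ) * h2 - (A i : ℤ) * h3 + (A i : ℤ) * h4

private theorem XD1_one (h : Cyc N (k + 1) A B al be e t) (h' : Cyc N (k + 1) A' B' al be e' t')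
    (hA : ∀ i < k, A i = A' i) (hB : ∀ i < k, B i = B' i) {i : ℕ} (hi : i ≤ k) :
    ((∏ l ∈ range i, B l * be l : ℕ) : ℤ) * ((t 0 : ℤ) - t' 0) = ((∏ l ∈ range i, A l * al (l + 1) : ℕ) : ℤ) * ((t i : ℤ) - t' i) := by
  induction i with
  | zero => rw [range_zero, prod_empty, prod_empty]
  | succ i ih =>
    have h1 := ih (by omega)
    have h2 := XD1_step h h' hA hB (i := i) (by omega)
    rw [prod_range_succ, prod_range_succ]
    push_cast at h1 ⊢
    linear_combination ((B i : ℤ) * be i) * h1 + (∏ l ∈ range i, ((A l : ℤ) * al (l + 1))) * h2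

private theorem XD1_two (h : Cyc N (k + 1) A B al be e t) (h' : Cyc N (k + 1) A' B' al be e' t')
    (hA : ∀ i < k, A i = A' i) (hB : ∀ i < k, B i = B' i) (j i : ℕ) (hi : i + j = k) :
    ((∏ l ∈ Ico i k, B l * be l : ℕ) : ℤ) * ((t i : ℤ) - t' i) = ((∏ l ∈ Ico i k, A l * al (l + 1) : ℕ) : ℤ) * ((t k : ℤ) - t' k) := by
  induction j generalizing i with
  | zero =>
    obtain rfl : i = k := by omega
    rw [Ico_self, prod_empty, prod_empty]
  | succ j ih =>
    have h1 := ih (i + 1) (by omega)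
    have h2 := XD1_step h h' hA hB (i := i) (by omega)
    rw [prod_eq_prod_Ico_succ_bot (by omega : i < k), prod_eq_prod_Ico_succ_bot (by omega : i < k)]
    push_cast at h1 ⊢
    linear_combination (∏ l ∈ Ico (i + 1) k, ((B l : ℤ) * be l)) * h2 + ((A i : ℤ) * al (i + 1)) * h1

private theorem XD1_three (h : Cyc N (k + 1) A B al be e t) (h' : Cyc N (k + 1) A' B' al be e' t') (he : e k = e' k) :
    (be k : ℤ) * ((t k : ℤ) - t' k) = -((e k : ℤ) * ((A k : ℤ) - A' k)) := by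
  have h1 := h.E k (by omega)
  have h2 := h'.E k (by omega)
  rw [← he] at h2
  zify at h1 h2
  linear_combination h1 - h2

private theorem XD1_four (h : Cyc N (k + 1) A B al be e t) (h' : Cyc N (k + 1) A' B' al be e' t') (he : e k = e' k) :
    (al 0 : ℤ) * ((t 0 : ℤ) - t' 0) = -((e k : ℤ) * ((B k : ℤ) - B' k)) := by
  have h1 := h.F k (by omega)
  have h2 := h'.F k (by omega)
  rw [Nat.mod_self] at h1 h2
  rw [← he] at h2
  zify at h1 h2
  linear_combination h1 - h2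

private theorem XD1_cd {m n : ℕ} {x : ℤ} (h : m.Coprime n) (h1 : (m : ℤ) ∣ (n : ℤ) * x) : (m : ℤ) ∣ x :=
  (Nat.isCoprime_iff_coprime.2 h).dvd_of_dvd_mul_left h1

private theorem XD1_mul {m n : ℕ} {x : ℤ} (h : m.Coprime n) (h1 : (m : ℤ) ∣ x) (h2 : (n : ℤ) ∣ x) : ((m * n : ℕ) : ℤ) ∣ x := by
  rw [Nat.cast_mul]
  exact (Nat.isCoprime_iff_coprime.2 h).mul_dvd h1 h2

/-- the products of a part of the marks -/
private theorem XD1_PY {s : Finset ℕ} (hs : s ⊆ range k) : (∏ l ∈ s, B l * be l) ∣ (∏ i ∈ range (k + 1), be i) * ∏ i ∈ range k, B i := by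
  rw [prod_mul_distrib, mul_comm]
  exact mul_dvd_mul (prod_dvd_prod_of_subset _ _ _ (hs.trans (range_mono (Nat.le_succ k)))) (prod_dvd_prod_of_subset _ _ _ hs)

private theorem XD1_PX {s : Finset ℕ} (hs : s ⊆ range k) : (∏ l ∈ s, A l * al (l + 1)) ∣ (∏ i ∈ range (k + 1), al i) * ∏ i ∈ range k, A i := by
  rw [prod_mul_distrib, mul_comm]
  refine mul_dvd_mul ?_ (prod_dvd_prod_of_subset _ _ _ hs)
  rw [prod_range_succ']
  exact (prod_dvd_prod_of_subset _ _ (fun l => al (l + 1)) hs).mul_right _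

end

theorem XD1_dvd {N k : ℕ} {A B A' B' al be e t e' t' : ℕ → ℕ} (h : Cyc N (k + 1) A B al be e t) (h' : Cyc N (k + 1) A' B' al be e' t')
    (hA : ∀ i < k, A i = A' i) (hB : ∀ i < k, B i = B' i) (he : e k = e' k)
    (RX RY : ℕ) (hRX : (RX : ℤ) ∣ (A k : ℤ) - A' k) (hRY : (RY : ℤ) ∣ (B k : ℤ) - B' k)
    (c1 : ((∏ i ∈ range (k + 1), al i) * ∏ i ∈ range k, A i).Coprime ((∏ i ∈ range (k + 1), be i) * ∏ i ∈ range k, B i))
    (c2 : ((∏ i ∈ range (k + 1), al i) * ∏ i ∈ range k, A i).Coprime (RX * RY))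
    (c3 : ((∏ i ∈ range (k + 1), be i) * ∏ i ∈ range k, B i).Coprime (RX * RY)) (c4 : RX.Coprime RY)
    (c5 : (e k).Coprime (((∏ i ∈ range (k + 1), al i) * ∏ i ∈ range k, A i) * ((∏ i ∈ range (k + 1), be i) * ∏ i ∈ range k, B i) * (RX * RY)))
    (i : ℕ) (hi : i ≤ k) :
    ((e k * ((∏ l ∈ range i, B l * be l) * (∏ l ∈ Ico i k, A l * al (l + 1)) * (RX * RY)) : ℕ) : ℤ) ∣ (t i : ℤ) - t' i := by
  set PX := (∏ i ∈ range (k + 1), al i) * ∏ i ∈ range k, A i with hPX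
  set PY := (∏ i ∈ range (k + 1), be i) * ∏ i ∈ range k, B i with hPY
  have s1 : range i ⊆ range k := range_mono hi
  have s2 : Ico i k ⊆ range k := fun x hx => mem_range.2 (mem_Ico.1 hx).2
  have y1 : (∏ l ∈ range i, B l * be l) ∣ PY := XD1_PY s1
  have y2 : (∏ l ∈ Ico i k, B l * be l) ∣ PY := XD1_PY s2
  have x1 : (∏ l ∈ range i, A l * al (l + 1)) ∣ PX := XD1_PX s1
  have x2 : (∏ l ∈ Ico i k, A l * al (l + 1)) ∣ PX := XD1_PX s2
  have x0 : al 0 ∣ PX := (dvd_prod_of_mem al (mem_range.2 (by omega))).mul_right _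
  have y0 : be k ∣ PY := (dvd_prod_of_mem be (mem_range.2 (by omega))).mul_right _
  have e1 := XD1_one h h' hA hB hi
  have e2 := XD1_two h h' hA hB (k - i) i (by omega)
  have e3 := XD1_three h h' he
  have e4 := XD1_four h h' he
  have rx : RX ∣ RX * RY := dvd_mul_right _ _
  have ry : RY ∣ RX * RY := dvd_mul_left _ _
  -- the five divisors
  have f1 : ((∏ l ∈ range i, B l * be l : ℕ) : ℤ) ∣ (t i : ℤ) - t' i := by
    refine XD1_cd (n := ∏ l ∈ range i, A l * al (l + 1)) ?_ ?_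
    · exact (Nat.Coprime.coprime_dvd_left x1 (Nat.Coprime.coprime_dvd_right y1 c1)).symm
    · rw [← e1]
      exact dvd_mul_right _ _
  have f2 : ((∏ l ∈ Ico i k, A l * al (l + 1) : ℕ) : ℤ) ∣ (t i : ℤ) - t' i := by
    refine XD1_cd (n := ∏ l ∈ Ico i k, B l * be l) ?_ ?_
    · exact Nat.Coprime.coprime_dvd_left x2 (Nat.Coprime.coprime_dvd_right y2 c1)
    · rw [e2]
      exact dvd_mul_right _ _
  have f3 : (RX : ℤ) ∣ (t i : ℤ) - t' i := by
    have g1 : (RX : ℤ) ∣ (t k : ℤ) - t' k := by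
      refine XD1_cd (n := be k) (Nat.Coprime.coprime_dvd_left y0 (Nat.Coprime.coprime_dvd_right rx c3)).symm ?_
      rw [e3, dvd_neg]
      exact hRX.mul_left _
    refine XD1_cd (n := ∏ l ∈ Ico i k, B l * be l) (Nat.Coprime.coprime_dvd_left y2 (Nat.Coprime.coprime_dvd_right rx c3)).symm ?_
    rw [e2]
    exact g1.mul_left _
  have g0 : ∀ m : ℕ, m.Coprime PX → (m : ℤ) ∣ (e k : ℤ) * ((B k : ℤ) - B' k) → (m : ℤ) ∣ (t i : ℤ) - t' i := by
    intro m hm hd
    have g1 : (m : ℤ) ∣ (t 0 : ℤ) - t' 0 := by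
      refine XD1_cd (n := al 0) (Nat.Coprime.coprime_dvd_right x0 hm) ?_
      rw [e4, dvd_neg]
      exact hd
    refine XD1_cd (n := ∏ l ∈ range i, A l * al (l + 1)) (Nat.Coprime.coprime_dvd_right x1 hm) ?_
    rw [← e1]
    exact g1.mul_left _
  have f4 : (RY : ℤ) ∣ (t i : ℤ) - t' i := g0 RY (Nat.Coprime.coprime_dvd_right ry c2).symm (hRY.mul_left _)
  have f5 : (e k : ℤ) ∣ (t i : ℤ) - t' i :=
    g0 (e k) (Nat.Coprime.coprime_dvd_right ((dvd_mul_right PX PY).mul_right (RX * RY)) c5) (dvd_mul_right _ _)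
  have p1 := XD1_mul (Nat.Coprime.coprime_dvd_left x2 (Nat.Coprime.coprime_dvd_right y1 c1)).symm f1 f2
  have p2 := XD1_mul c4 f3 f4
  have p3 := XD1_mul (Nat.Coprime.mul_left (Nat.Coprime.coprime_dvd_left y1 c3) (Nat.Coprime.coprime_dvd_left x2 c2)) p1 p2
  refine XD1_mul ?_ f5 p3
  refine Nat.Coprime.coprime_dvd_right ?_ c5
  rw [mul_comm PX PY]
  exact mul_dvd_mul (mul_dvd_mul y1 x2) dvd_rfl

theorem XD1_inj {N k : ℕ} {A B A' B' al be e t e' t' : ℕ → ℕ} (h : Cyc N (k + 1) A B al be e t) (h' : Cyc N (k + 1) A' B' al be e' t')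
    (hA : ∀ i < k, A i = A' i) (hB : ∀ i < k, B i = B' i) (he : e k = e' k) (hA0 : ∀ i < k, 0 < A i) (hB0 : ∀ i < k, 0 < B i)
    (hal : ∀ i ≤ k, 0 < al i) (hbe : ∀ i ≤ k, 0 < be i) (i : ℕ) (hi : i ≤ k) (ht : t i = t' i) : A k = A' k ∧ B k = B' k := by
  have hd : (t i : ℤ) - t' i = 0 := by rw [ht, sub_self]
  have e1 := XD1_one h h' hA hB hi
  have e2 := XD1_two h h' hA hB (k - i) i (by omega)
  have e3 := XD1_three h h' he
  have e4 := XD1_four h h' he
  rw [hd, mul_zero] at e1 e2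
  have hek : (e k : ℤ) ≠ 0 := by
    have := h.e0 k (by omega)
    exact_mod_cast this.ne'
  have n1 : ((∏ l ∈ range i, B l * be l : ℕ) : ℤ) ≠ 0 := by
    have : 0 < ∏ l ∈ range i, B l * be l := prod_pos fun l hl => by
      rw [mem_range] at hl
      exact Nat.mul_pos (hB0 l (by omega)) (hbe l (by omega))
    exact_mod_cast this.ne'
  have n2 : ((∏ l ∈ Ico i k, A l * al (l + 1) : ℕ) : ℤ) ≠ 0 := by
    have : 0 < ∏ l ∈ Ico i k, A l * al (l + 1) := prod_pos fun l hl => by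
      rw [mem_Ico] at hl
      exact Nat.mul_pos (hA0 l (by omega)) (hal (l + 1) (by omega))
    exact_mod_cast this.ne'
  have z0 : (t 0 : ℤ) - t' 0 = 0 := (mul_eq_zero.1 e1).resolve_left n1
  have zk : (t k : ℤ) - t' k = 0 := (mul_eq_zero.1 e2.symm).resolve_left n2
  rw [zk, mul_zero] at e3
  rw [z0, mul_zero] at e4
  have a1 := (mul_eq_zero.1 (neg_eq_zero.1 e3.symm)).resolve_left hek
  have a2 := (mul_eq_zero.1 (neg_eq_zero.1 e4.symm)).resolve_left hek
  constructor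
  · have : (A k : ℤ) = A' k := by linarith
    exact_mod_cast this
  · have : (B k : ℤ) = B' k := by linarith
    exact_mod_cast this

end Pool.Agent.Lib.TE
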