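import Pool.Agent.Lib.MP_7b7e48_nt.TC.POK
import Pool.Agent.Lib.MP_7b7e48_nt.TE.Main

/-!
# XDefs: the affected pairs of marks (section 5 of TC_EE), definitions

For a mark system `S`, data `T` (`N = T.N`, `D = T.D`), a colouring `c`, tuples `μ`, `ν`: `sA i`, `sB i` (`i < k`) are the short cofactors, `sA k`, `sB k` the products of the
marks which are not selected; `ek = SI / D`. `MP b i` is the modulus of the position `(b, i)`: the number `N - t i * β i` (`b = true`) resp. `N - t i * α i` (`b = false`) of a good cycle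
lies in a class modulo `MP b i` which depends only on `c, μ, ν` (and `D`).
-/

set_option autoImplicit false

open Finset

namespace Pool.Agent.Lib.TE

open Pool.Agent.Lib.TC (MS Dat ext1 Sm Cyc)

noncomputable def sA (S : MS) (N : ℕ) (c : S.Col) (μ : S.TX) (ν : S.TY) (i : ℕ) : ℕ := S.fX id c μ i * S.oX N id c μ ν i

noncomputable def sB (S : MS) (N : ℕ) (c : S.Col) (μ : S.TX) (ν : S.TY) (i : ℕ) : ℕ := S.fY id c ν i * S.oY N id c μ ν i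

noncomputable def ek (S : MS) (T : Dat) (c : S.Col) (μ : S.TX) (ν : S.TY) : ℕ := S.SI T.N c μ ν / T.D

/-- the part of the modulus which is a product of marks -/
noncomputable def GP (S : MS) (N : ℕ) (b : Bool) (i : ℕ) (c : S.Col) (μ : S.TX) (ν : S.TY) : ℕ :=
  (if b then ext1 ν.1 i else ext1 μ.1 i) * (∏ l ∈ range i, sB S N c μ ν l * ext1 ν.1 l) *
    (∏ l ∈ Ico i S.k, sA S N c μ ν l * ext1 μ.1 (l + 1)) * (sA S N c μ ν S.k * sB S N c μ ν S.k)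

/-- the modulus of a position -/
noncomputable def MP (S : MS) (T : Dat) (b : Bool) (i : ℕ) (c : S.Col) (μ : S.TX) (ν : S.TY) : ℕ := ek S T c μ ν * GP S T.N b i c μ ν

/-- the number at a position -/
def posn (S : MS) (T : Dat) (b : Bool) (i : ℕ) (μ : S.TX) (ν : S.TY) (t : ℕ → ℕ) : ℕ :=
  if b then T.N - t i * ext1 ν.1 i else T.N - t i * ext1 μ.1 i

/-- the properties needed (`Z` is the size of the last windows) -/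
structure XOK (S : MS) (T : Dat) (Wf Z Cc : ℕ) (e1 e2 : ℝ) : Prop where
  k1 : 1 ≤ S.k
  N2 : 2 ≤ T.N
  D0 : 0 < T.D
  D_le : (T.D : ℝ) ≤ (Real.log T.N) ^ Cc
  D_y0 : T.D ≤ T.y0
  WX_mem : ∀ i, ∀ l ∈ S.WX i, l.Prime ∧ ¬ l ∣ T.N ∧ T.y0 < l
  WY_mem : ∀ i, ∀ l ∈ S.WY i, l.Prime ∧ ¬ l ∣ T.N ∧ T.y0 < l
  FX_mem : ∀ i, ∀ l ∈ S.FX i, l.Prime ∧ ¬ l ∣ T.N ∧ T.y0 < l
  FY_mem : ∀ i, ∀ l ∈ S.FY i, l.Prime ∧ ¬ l ∣ T.N ∧ T.y0 < l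
  OX_mem : ∀ i, ∀ l ∈ S.OX i, l.Prime ∧ ¬ l ∣ T.N ∧ T.y0 < l
  OY_mem : ∀ i, ∀ l ∈ S.OY i, l.Prime ∧ ¬ l ∣ T.N ∧ T.y0 < l
  WXk : ∀ l ∈ S.WX (Fin.last S.k), 3 * Z < l ∧ l ≤ 4 * Z
  WYk : ∀ l ∈ S.WY (Fin.last S.k), Z < l ∧ l ≤ 2 * Z
  WX_s : ∀ i, ∑ l ∈ S.WX i, 1 / (l : ℝ) ≤ 1
  WY_s : ∀ i, ∑ l ∈ S.WY i, 1 / (l : ℝ) ≤ 1
  FX_s : ∀ i, ∑ l ∈ S.FX i, 1 / (l : ℝ) ≤ 1
  FY_s : ∀ i, ∑ l ∈ S.FY i, 1 / (l : ℝ) ≤ 1
  OX_s : ∀ i, ∑ l ∈ S.OX i, 1 / (l : ℝ) ≤ 1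
  OY_s : ∀ i, ∑ l ∈ S.OY i, 1 / (l : ℝ) ≤ 1
  disX : ∀ μ ∈ S.MX, Function.Injective (Sum.elim μ.1 (Sum.elim μ.2.1 μ.2.2))
  disY : ∀ ν ∈ S.MY, Function.Injective (Sum.elim ν.1 (Sum.elim ν.2.1 ν.2.2))
  ab : ∀ μ ∈ S.MX, ∀ ν ∈ S.MY, ∀ i, ν.1 i < μ.1 i
  AB : ∀ c ∈ S.CC, ∀ μ ∈ S.MX, ∀ ν ∈ S.MY, ∀ i < S.k, sB S T.N c μ ν i < sA S T.N c μ ν i
  ZU : ∀ c ∈ S.CC, ∀ μ ∈ S.MX, ∀ ν ∈ S.MY, ∏ l ∈ range S.k, ext1 μ.1 l * sA S T.N c μ ν l ≤ Z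
  Zlo : (T.N : ℝ) ^ e1 ≤ Z
  small : ∀ μ ∈ S.MX, ∀ ν ∈ S.MY, ((S.prX id μ * S.prY id ν : ℕ) : ℝ) ≤ (T.N : ℝ) ^ e2
  card : (2 * (S.k + 1) + 2 * S.n0 + S.nX + S.nY) ^ 4 ≤ T.y0
  num : ((2 * (S.k + 1) + 2 * S.n0 + S.nX + S.nY : ℕ) : ℝ) ≤ Real.log T.N
  cc : (S.CC.card : ℝ) ≤ (Real.log T.N) ^ Cc
  Wf_y : ∀ p : ℕ, p.Prime → p ∣ Wf → p ≤ T.y
  y_y0 : T.y ≤ T.y0

/-- the pair of tuples occurs in a good cycle with the colouring `c` -/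
def Adm (S : MS) (T : Dat) (c : S.Col) (μ : S.TX) (ν : S.TY) : Prop :=
  ∃ X e t, S.Good T c μ ν X e t ∧ S.prX id μ ∣ X ∧ S.prY id ν ∣ X - T.D * T.N

/-! ### the abstract sums over tuples of primes -/

/-- the weight of a tuple -/
noncomputable def wF {F : Type} [Fintype F] (x : F → ℕ) : ℝ := ∏ f, 1 / (x f : ℝ)

/-- the linear form of the two last windows -/
def SF {F : Type} (a b : F) (U W : (F → ℕ) → ℤ) (x : F → ℕ) : ℤ := x a * U x + x b * W x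

/-- the hypotheses of the abstract lemmas -/
structure AOK {F : Type} [Fintype F] [DecidableEq F] (B : F → Finset ℕ) (a b : F) (U W : (F → ℕ) → ℤ) (Z y0 cS : ℕ) : Prop where
  ab : a ≠ b
  Z1 : 1 ≤ Z
  pr : ∀ f, ∀ p ∈ B f, p.Prime ∧ y0 < p
  sum : ∀ f, ∑ p ∈ B f, 1 / (p : ℝ) ≤ 1
  card : Fintype.card F ^ 4 ≤ y0
  Ba : ∀ p ∈ B a, 3 * Z < p ∧ p ≤ 4 * Z
  Bb : ∀ p ∈ B b, Z < p ∧ p ≤ 2 * Z
  Ua : ∀ x v, U (Function.update x a v) = U x ∧ W (Function.update x a v) = W x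
  Ub : ∀ x v, U (Function.update x b v) = U x ∧ W (Function.update x b v) = W x
  Upos : ∀ x ∈ Fintype.piFinset B, 0 < U x ∧ U x ≤ Z
  Udvd : ∀ x, U x ∣ ∏ f ∈ univ.erase a, (x f : ℤ)
  Spos : ∀ x ∈ Fintype.piFinset B, 0 < SF a b U W x ∧ SF a b U W x ≤ cS * Z * U x

/-- the good tuples: distinct primes, coprime to the linear form -/
def PF {F : Type} [Fintype F] (a b : F) (U W : (F → ℕ) → ℤ) (x : F → ℕ) : Prop :=
  Function.Injective x ∧ IsCoprime (SF a b U W x) (∏ f, (x f : ℤ))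

/-! ### tuples as functions on one index set -/

/-- all coordinates -/
abbrev FF (S : MS) : Type := (Fin (S.k + 1) ⊕ (Fin S.n0 ⊕ Fin S.nX)) ⊕ (Fin (S.k + 1) ⊕ (Fin S.n0 ⊕ Fin S.nY))

/-- a pair of tuples as a function -/
def toF (S : MS) (μ : S.TX) (ν : S.TY) : FF S → ℕ :=
  Sum.elim (Sum.elim μ.1 (Sum.elim μ.2.1 μ.2.2)) (Sum.elim ν.1 (Sum.elim ν.2.1 ν.2.2))

def ofX (S : MS) (x : FF S → ℕ) : S.TX :=
  (fun i => x (Sum.inl (Sum.inl i)), fun f => x (Sum.inl (Sum.inr (Sum.inl f))), fun e => x (Sum.inl (Sum.inr (Sum.inr e))))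

def ofY (S : MS) (x : FF S → ℕ) : S.TY :=
  (fun i => x (Sum.inr (Sum.inl i)), fun f => x (Sum.inr (Sum.inr (Sum.inl f))), fun e => x (Sum.inr (Sum.inr (Sum.inr e))))

/-- the sets of primes -/
def BF (S : MS) : FF S → Finset ℕ :=
  Sum.elim (Sum.elim S.WX (Sum.elim S.FX S.OX)) (Sum.elim S.WY (Sum.elim S.FY S.OY))

/-- the coordinates of the last windows -/
def aF (S : MS) : FF S := Sum.inl (Sum.inl (Fin.last S.k))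
def bF (S : MS) : FF S := Sum.inr (Sum.inl (Fin.last S.k))

/-- the coefficient of the last `α` -/
noncomputable def UF (S : MS) (N : ℕ) (c : S.Col) (x : FF S → ℕ) : ℤ :=
  ∏ l ∈ range S.k, ((ext1 (ofX S x).1 l * sA S N c (ofX S x) (ofY S x) l : ℕ) : ℤ)

/-- the coefficient of the last `β` -/
noncomputable def WF (S : MS) (N : ℕ) (c : S.Col) (x : FF S → ℕ) : ℤ :=
  (sB S N c (ofX S x) (ofY S x) (S.k - 1) : ℤ) *
    (Sm (sA S N c (ofX S x) (ofY S x)) (sB S N c (ofX S x) (ofY S x)) (ext1 (ofX S x).1) (ext1 (ofY S x).1) S.k : ℕ) - UF S N c x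

end Pool.Agent.Lib.TE
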