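import Pool.Agent.Lib.MP_7b7e48_nt.TE.Defs
import Pool.Agent.Lib.MP_7b7e48_nt.RG.NUM

/-!
# Module XN (45 minutes): numerical facts for large `N`

`K = log N`, `R = W^2 N ≥ N`. PROOF. `MM P R ≥ (log R)^C1 ≥ K^A` and `→ ∞` (`RH.num`, `Num.M1`; `A ≤ C1`, `1 ≤ K`). `zC C1 N = ⌊N^(1/(C1 log K))⌋`, `N^(1/(C1 log K)) = exp (K/(C1 log K))` (`Real.rpow_def_of_pos`). For large `N`: `C1 ≤ (log K)/2`, so `K/(C1 log K) ≥ 2 K/(log K)^2 ≥ K/(log K)^2 + 1` and
`⌊x⌋ ≥ x - 1 ≥ exp (K/(log K)^2)` for `x ≥ e exp (K/(log K)^2)`. `1/(C1 log K) ≤ δz` for large `N`, so `zC ≤ N^(1/(C1 log K)) ≤ N^δz`.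
-/

set_option autoImplicit false

open Finset
open Pool.Agent.Lib.RH (Prm MM JJ)

namespace Pool.Agent.Lib.TE

theorem tc2_num (P : Prm) (hP : P.Ok) (W p0 A : ℕ) (hW : 0 < W) (hA : A ≤ P.C1) (C1 δz : ℝ) (hC : 5000 ≤ C1) (hδ : 0 < δz) : ∃ N0 : ℕ, ∀ N : ℕ, N0 ≤ N →
    p0 ≤ MM P (W ^ 2 * N) ∧ (Real.log N) ^ A ≤ (MM P (W ^ 2 * N) : ℝ) ∧
    Real.exp (Real.log N / (Real.log (Real.log N)) ^ 2) ≤ zC C1 N ∧ (zC C1 N : ℝ) ≤ (N : ℝ) ^ δz := by
  obtain ⟨N1, hN1⟩ := Pool.Agent.Lib.RH.num P hP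
  have hlog : Filter.Tendsto (fun N : ℕ => Real.log N) Filter.atTop Filter.atTop :=
    Real.tendsto_log_atTop.comp tendsto_natCast_atTop_atTop
  have hlog2 : Filter.Tendsto (fun N : ℕ => Real.log (Real.log N)) Filter.atTop Filter.atTop := Real.tendsto_log_atTop.comp hlog
  have hsq : ∀ᶠ x : ℝ in Filter.atTop, Real.log x ^ 2 ≤ x := by
    have h1 := (Real.isLittleO_pow_log_id_atTop (n := 2)).bound one_pos
    filter_upwards [h1, Filter.eventually_ge_atTop 1] with x h2 h3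
    rw [Real.norm_eq_abs, Real.norm_eq_abs, abs_of_nonneg (pow_nonneg (Real.log_nonneg h3) _), one_mul, id, abs_of_nonneg (by linarith)] at h2
    exact h2
  have hev := (hlog.eventually_ge_atTop (1 + p0)).and ((hlog2.eventually_ge_atTop (2 * C1)).and ((hlog2.eventually_ge_atTop (1 / (C1 * δz))).and
    ((hlog.eventually hsq).and (Filter.eventually_ge_atTop (max 1 N1)))))
  obtain ⟨N0, hN0⟩ := Filter.eventually_atTop.1 hev
  refine ⟨N0, fun N hN => ?_⟩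
  obtain ⟨h1, h2, h3, h4, h5⟩ := hN0 N hN
  have hN1' : 1 ≤ N := (le_max_left _ _).trans h5
  have hNN1 : N1 ≤ N := (le_max_right _ _).trans h5
  have hNr : (1 : ℝ) ≤ N := by exact_mod_cast hN1'
  have hR : N ≤ W ^ 2 * N := Nat.le_mul_of_pos_left _ (pow_pos hW 2)
  have hnum := hN1 (W ^ 2 * N) (hNN1.trans hR)
  have hlR : Real.log N ≤ Real.log ((W ^ 2 * N : ℕ) : ℝ) := Real.log_le_log (by linarith) (by exact_mod_cast hR)
  have hp00 : (0 : ℝ) ≤ p0 := Nat.cast_nonneg _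
  have hK1 : 1 ≤ Real.log N := by linarith
  have hR1 : 1 ≤ Real.log ((W ^ 2 * N : ℕ) : ℝ) := hK1.trans hlR
  have hM := hnum.M1
  have hC10 := hP.C1
  set K := Real.log N with hKd
  set L := Real.log K with hLd
  have hL1 : (1 : ℝ) ≤ L := by linarith
  have hC0 : 0 < C1 := by linarith
  have hx : (N : ℝ) ^ (1 / (C1 * L)) = Real.exp (K / (C1 * L)) := by
    rw [Real.rpow_def_of_pos (by linarith), mul_one_div]
  refine ⟨?_, ?_, ?_, ?_⟩
  · have h6 : (p0 : ℝ) ≤ MM P (W ^ 2 * N) := by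
      have h7 : Real.log ((W ^ 2 * N : ℕ) : ℝ) ≤ Real.log ((W ^ 2 * N : ℕ) : ℝ) ^ P.C1 := le_self_pow₀ hR1 (by omega)
      linarith
    exact_mod_cast h6
  · exact (pow_le_pow_left₀ (by linarith) hlR A).trans ((pow_le_pow_right₀ hR1 hA).trans hM)
  · unfold zC
    rw [← hKd, ← hLd, hx]
    have h6 : K / L ^ 2 + 1 ≤ K / (C1 * L) := by
      have h7 : 1 ≤ K / L ^ 2 := by
        rw [le_div_iff₀ (by positivity), one_mul]
        exact h4
      have h8 : 2 * (K / L ^ 2) ≤ K / (C1 * L) := by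
        rw [← mul_div_assoc, div_le_div_iff₀ (by positivity) (by positivity)]
        have h9 : 2 * (C1 * L) ≤ L ^ 2 := by nlinarith
        calc 2 * K * (C1 * L) = K * (2 * (C1 * L)) := by ring
          _ ≤ K * L ^ 2 := mul_le_mul_of_nonneg_left h9 (by linarith)
      linarith
    have h7 : Real.exp (K / L ^ 2) + 1 ≤ Real.exp (K / (C1 * L)) := by
      have h8 : Real.exp (K / L ^ 2 + 1) ≤ Real.exp (K / (C1 * L)) := Real.exp_le_exp.2 h6
      rw [Real.exp_add] at h8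
      have h9 : (2 : ℝ) ≤ Real.exp 1 := by
        have := Real.add_one_le_exp (1 : ℝ)
        linarith
      have h10 : 1 ≤ Real.exp (K / L ^ 2) := Real.one_le_exp (by positivity)
      nlinarith
    have h8 := Nat.lt_floor_add_one (Real.exp (K / (C1 * L)))
    linarith
  · unfold zC
    rw [← hKd, ← hLd]
    refine (Nat.floor_le (by positivity)).trans (Real.rpow_le_rpow_of_exponent_le hNr ?_)
    rw [div_le_iff₀ (by positivity)] at h3 ⊢
    nlinarith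

end Pool.Agent.Lib.TE
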