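import Pool.Agent.Lib.MP_7b7e48_nt.TC.Core
import Pool.Agent.Lib.MP_7b7e48_nt.TCF.Frame
import Pool.Agent.Lib.MP_7b7e48_nt.TCF.CBT
import Pool.Agent.Lib.MP_7b7e48_nt.TE.XB5
import Pool.Agent.Lib.MP_7b7e48_nt.TE.XC2
import Pool.Agent.Lib.MP_7b7e48_nt.TE.XN

/-!
# XF: theorem TC2, every large even `N` has `N ^ (1 - ε)` representations with every pattern of signs
-/

set_option autoImplicit false

open Finset
open Pool.Agent.Lib.MP_45349e_nt.LS (lam)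
open Pool.Agent.Lib.GT (Rough)
open Pool.Agent.Lib.TC (MS Dat ext1 Sm Cyc MPar)
open Pool.Agent.Lib.TC.MPar (fdat J1)
open Pool.Agent.Lib.TCB (datS LkS BdS wD)
open Pool.Agent.Lib.TCF (Base PairIn)
open Pool.Agent.Lib.RH (Prm MM JJ)

namespace Pool.Agent.Lib.TE

theorem tc2_pat (A : ℕ) (ε : ℝ) (hε : 0 < ε) : ∃ (P : Prm) (W : ℕ) (C1 : ℝ) (N0 : ℕ), P.Ok ∧ A ≤ P.C1 ∧ 0 < W ∧ 5000 ≤ C1 ∧ ∀ N : ℕ, N0 ≤ N → Even N →
    (Real.log N) ^ A ≤ (MM P (W ^ 2 * N) : ℝ) ∧ ∀ s t : ℝ, (s = 1 ∨ s = -1) → (t = 1 ∨ t = -1) →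
    (N : ℝ) ^ (1 - ε) < ((Pat N (MM P (W ^ 2 * N)) (zC C1 N) s t).card : ℝ) := by
  obtain ⟨κ0, hκ0, hκ1, F⟩ := Pool.Agent.Lib.TCF.frame
  obtain ⟨c0, hc0, A0, F2⟩ := F κ0 hκ0 le_rfl
  set P : Prm := ⟨κ0, min c0 (κ0 / 10000), max 10 (max A A0)⟩ with hPdef
  have hP : P.Ok := by
    refine ⟨hκ0, hκ1, lt_min hc0 (by positivity), min_le_right _ _, le_max_left _ _⟩
  obtain ⟨N1, F3⟩ := F2 P hP rfl (min_le_left _ _) ((le_max_right _ _).trans (le_max_right _ _))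
  have he0 : (0 : ℝ) < min (1 / 8001) (ε / 8) := lt_min (by norm_num) (by positivity)
  obtain ⟨Q, p0, δz, hQ, he, -, hδz, hpW, N2, hcore⟩ := MPar.core P hP _ he0
  obtain ⟨C0, hC0, hap⟩ := apin P hP Q.W Q.Cp (CcX Q) hQ.W0 Q.e1 ε hQ.e0 hε
  obtain ⟨N3, hap2⟩ := hap C0 le_rfl
  obtain ⟨N4, hnum⟩ := tc2_num P hP Q.W p0 A hQ.W0 ((le_max_left _ _).trans (le_max_right _ _)) C0 δz hC0 hδz
  obtain ⟨N5, hcnt⟩ := Pool.Agent.Lib.TCF.cnt P hP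
  refine ⟨P, Q.W, C0, max (max N1 N2) (max (max N3 N4) (max N5 1)), hP, (le_max_left _ _).trans (le_max_right _ _), hQ.W0, hC0,
    fun N hN hev => ?_⟩
  have hNa : N1 ≤ N := (le_max_left _ _).trans ((le_max_left _ _).trans hN)
  have hNb : N2 ≤ N := (le_max_right _ _).trans ((le_max_left _ _).trans hN)
  have hNc : N3 ≤ N := (le_max_left _ _).trans ((le_max_left _ _).trans ((le_max_right _ _).trans hN))
  have hNd : N4 ≤ N := (le_max_right _ _).trans ((le_max_left _ _).trans ((le_max_right _ _).trans hN))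
  have hNe : N5 ≤ N := (le_max_left _ _).trans ((le_max_right _ _).trans ((le_max_right _ _).trans hN))
  have hNf : 1 ≤ N := (le_max_right _ _).trans ((le_max_right _ _).trans ((le_max_right _ _).trans hN))
  obtain ⟨hn1, hn2, hn3, hn4⟩ := hnum N hNd
  refine ⟨hn2, fun s t hs ht => ?_⟩
  by_contra hcon
  rw [not_lt] at hcon
  obtain ⟨hLg, hJ1, hMy, hcz⟩ := hcore N hNb hev
  obtain ⟨T, y1, hTN, hTy, hTy0, hTz, hB, hPI⟩ := hcz (zC C0 N) hn3 hn4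
  subst hTN
  have hRpos : 0 < Q.W ^ 2 * T.N := by
    have := hQ.W0
    positivity
  haveI : NeZero (Q.W ^ 2 * T.N) := ⟨hRpos.ne'⟩
  have hRN : T.N ≤ Q.W ^ 2 * T.N := Nat.le_mul_of_pos_left _ (by have := hQ.W0; positivity)
  have hok : (datS (Q.sys T.N) (MPar.J0 P Q T.N) (MPar.J1 P Q T.N) (MPar.J2 P Q T.N) T.y0).Ok P (Q.W ^ 2 * T.N) := by
    rw [hTy0]
    exact hB.ok
  have hA : Pool.Agent.Lib.TCF.ApIn P (Q.W ^ 2 * T.N) (fdat P Q T.N) (LkS (Q.sys T.N) T) (BdS (Q.sys T.N) T y1) := by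
    have h := hap2 (Q.sys T.N) T (Q.Z T.N Q.k) y1 (MPar.J0 P Q T.N) (MPar.J1 P Q T.N) (MPar.J2 P Q T.N) hNc hev hTy hTz ?_ hok ?_ s t hs ht
      (by rw [hTy, hTz]; exact hcon)
    · rw [hTy0] at h
      exact h
    · rw [hTy0]
      have : (0 : ℝ) ≤ (Real.log T.N) ^ Q.Cp := pow_nonneg (Real.log_nonneg (by exact_mod_cast hNf)) _
      exact Nat.floor_le this
    · intro D' hD' hD'1
      refine xok hQ hLg (wD T (Q.W ^ 2 * D')) rfl hTy0 ?_ ?_ ?_ ?_ _ he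
      · show 0 < Q.W ^ 2 * D'
        have := hQ.W0
        positivity
      · show Q.W ^ 2 * D' ≤ T.y0
        rw [hTy0]
        exact (Nat.mul_le_mul_left _ hD'1).trans hJ1
      · show T.y ≤ T.y0
        rw [hTy, hTy0]
        exact hMy
      · intro p hp hpd
        show p ≤ T.y
        rw [hTy]
        exact (hpW p hp hpd).le.trans hn1
  exact F3 (Q.W ^ 2 * T.N) (hNa.trans hRN) (fun D' hD' => hcnt (Q.W ^ 2 * T.N) (hNe.trans hRN) D' hD') (fdat P Q T.N) hB _ _ hPI hA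

end Pool.Agent.Lib.TE
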