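import Pool.Agent.Lib.MP_7b7e48_nt.TE.XDefs

/-!
# Module XG1 (75 minutes): products of marks

PROOF. `prX_eq`, `prY_eq`: partition of the free and of the other marks by their colours (`Finset.prod_fiberwise`, colours `< k + 1`); `ext1 μ.1 i = μ.1 i` for `i < k + 1` (`Finset.prod_range`). `GP_dvd`: for `i ≤ k` every factor of `GP b i` is one of the factors of `prX` resp. `prY`, each used once
(`b = true`: `ext1 ν.1 i ∏_{l<i} ext1 ν.1 l ∣ ∏_{l≤k} ext1 ν.1 l`, `∏_{l<i} sB l`, `∏_{i≤l<k} sA l`, `∏_{i≤l<k} ext1 μ.1 (l+1) ∣ ∏_{l ≤ k} ext1 μ.1 l`, `sA k`, `sB k`; `b = false`: `ext1 μ.1 i ∏_{i≤l<k} ext1 μ.1 (l+1)`).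
`SI_eq`: the last step of the recursion `Sm`, where `AA .. 0 i = sA i`, `BB .. 0 i = sB i` for `i < k` (only these occur), and `β_k ≤ α_k` (natural subtraction). `SI_le`: induction: `Sm j ≤ j ∏_{l<j} al l ∏_{l<j-1} A l` (uses `be ≤ al`, `B ≤ A`); `SI_lo`: `SI ≥ (α_k - β_k) ∏_{l<k} α_l A_l`, `4 (α_k - β_k) ≥ α_k` (`3 Z < α_k ≤ 4 Z`, `β_k ≤ 2 Z`).
-/

set_option autoImplicit false

open Finset
open Pool.Agent.Lib.TC (MS Dat ext1 Sm Cyc)

namespace Pool.Agent.Lib.TE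

variable {S : MS} {T : Dat} {Wf Z Cc : ℕ} {e1 e2 : ℝ}

private theorem XG1_ext {n : ℕ} (a : Fin n → ℕ) : ∏ i ∈ range n, ext1 a i = ∏ i, a i := by
  rw [Finset.prod_range]
  refine Finset.prod_congr rfl fun i _ => ?_
  rw [ext1, dif_pos i.2]

theorem prX_eq (S : MS) (N : ℕ) (c : S.Col) (μ : S.TX) (ν : S.TY) :
    S.prX id μ = (∏ i ∈ range (S.k + 1), ext1 μ.1 i) * ∏ i ∈ range (S.k + 1), sA S N c μ ν i := by
  rw [XG1_ext]
  have h1 : ∏ i ∈ range (S.k + 1), S.fX id c μ i = ∏ f, id (μ.2.1 f) :=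
    Finset.prod_fiberwise_of_maps_to (fun f _ => Finset.mem_range.mpr (c (Sum.inl f)).2) _
  have h2 : ∏ i ∈ range (S.k + 1), S.oX N id c μ ν i = ∏ e, id (μ.2.2 e) :=
    Finset.prod_fiberwise_of_maps_to (fun e _ => Finset.mem_range.mpr (S.kX N c μ ν e).2) _
  have h3 : ∏ i ∈ range (S.k + 1), sA S N c μ ν i = (∏ f, id (μ.2.1 f)) * ∏ e, id (μ.2.2 e) := by
    rw [← h1, ← h2, ← Finset.prod_mul_distrib]
    rfl
  rw [h3, ← mul_assoc]
  rfl

theorem prY_eq (S : MS) (N : ℕ) (c : S.Col) (μ : S.TX) (ν : S.TY) :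
    S.prY id ν = (∏ i ∈ range (S.k + 1), ext1 ν.1 i) * ∏ i ∈ range (S.k + 1), sB S N c μ ν i := by
  rw [XG1_ext]
  have h1 : ∏ i ∈ range (S.k + 1), S.fY id c ν i = ∏ f, id (ν.2.1 f) :=
    Finset.prod_fiberwise_of_maps_to (fun f _ => Finset.mem_range.mpr (c (Sum.inr f)).2) _
  have h2 : ∏ i ∈ range (S.k + 1), S.oY N id c μ ν i = ∏ e, id (ν.2.2 e) :=
    Finset.prod_fiberwise_of_maps_to (fun e _ => Finset.mem_range.mpr (S.kY N c μ ν e).2) _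
  have h3 : ∏ i ∈ range (S.k + 1), sB S N c μ ν i = (∏ f, id (ν.2.1 f)) * ∏ e, id (ν.2.2 e) := by
    rw [← h1, ← h2, ← Finset.prod_mul_distrib]
    rfl
  rw [h3, ← mul_assoc]
  rfl

theorem GP_dvd (S : MS) (N : ℕ) (b : Bool) (i : ℕ) (hi : i ≤ S.k) (c : S.Col) (μ : S.TX) (ν : S.TY) :
    GP S N b i c μ ν ∣ S.prX id μ * S.prY id ν := by
  rw [prX_eq S N c μ ν, prY_eq S N c μ ν, GP]
  rw [Finset.prod_mul_distrib, Finset.prod_mul_distrib]
  have e1 : ∏ l ∈ Ico i S.k, ext1 μ.1 (l + 1) = ∏ l ∈ Ico (i + 1) (S.k + 1), ext1 μ.1 l :=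
    Finset.prod_Ico_add' (fun l => ext1 μ.1 l) i S.k 1
  rw [e1]
  have d1 : (∏ l ∈ range i, sB S N c μ ν l) * sB S N c μ ν S.k ∣ ∏ l ∈ range (S.k + 1), sB S N c μ ν l := by
    rw [Finset.prod_range_succ]
    exact mul_dvd_mul (Finset.prod_dvd_prod_of_subset _ _ _ (Finset.range_subset_range.mpr hi)) (dvd_refl _)
  have d2 : (∏ l ∈ Ico i S.k, sA S N c μ ν l) * sA S N c μ ν S.k ∣ ∏ l ∈ range (S.k + 1), sA S N c μ ν l := by
    rw [Finset.prod_range_succ]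
    refine mul_dvd_mul (Finset.prod_dvd_prod_of_subset _ _ _ ?_) (dvd_refl _)
    intro l hl
    exact Finset.mem_range.mpr (Finset.mem_Ico.mp hl).2
  have d3 : (if b then ext1 ν.1 i else ext1 μ.1 i) * (∏ l ∈ range i, ext1 ν.1 l) * (∏ l ∈ Ico (i + 1) (S.k + 1), ext1 μ.1 l) ∣
      (∏ l ∈ range (S.k + 1), ext1 ν.1 l) * (∏ l ∈ range (S.k + 1), ext1 μ.1 l) := by
    cases b
    · have k1 : (if false = true then ext1 ν.1 i else ext1 μ.1 i) * (∏ l ∈ range i, ext1 ν.1 l) * (∏ l ∈ Ico (i + 1) (S.k + 1), ext1 μ.1 l) =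
          (∏ l ∈ range i, ext1 ν.1 l) * ∏ l ∈ Ico i (S.k + 1), ext1 μ.1 l := by
        rw [Finset.prod_eq_prod_Ico_succ_bot (by omega : i < S.k + 1), if_neg (by decide)]
        ring
      rw [k1]
      refine mul_dvd_mul (Finset.prod_dvd_prod_of_subset _ _ _ (Finset.range_subset_range.mpr (by omega)))
        (Finset.prod_dvd_prod_of_subset _ _ _ ?_)
      intro l hl
      exact Finset.mem_range.mpr (Finset.mem_Ico.mp hl).2
    · have k1 : (if true = true then ext1 ν.1 i else ext1 μ.1 i) * (∏ l ∈ range i, ext1 ν.1 l) * (∏ l ∈ Ico (i + 1) (S.k + 1), ext1 μ.1 l) =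
          (∏ l ∈ range (i + 1), ext1 ν.1 l) * ∏ l ∈ Ico (i + 1) (S.k + 1), ext1 μ.1 l := by
        rw [Finset.prod_range_succ, if_pos rfl]
        ring
      rw [k1]
      refine mul_dvd_mul (Finset.prod_dvd_prod_of_subset _ _ _ (Finset.range_subset_range.mpr (by omega)))
        (Finset.prod_dvd_prod_of_subset _ _ _ ?_)
      intro l hl
      exact Finset.mem_range.mpr (Finset.mem_Ico.mp hl).2
  have d4 := mul_dvd_mul d3 (mul_dvd_mul d1 d2)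
  have l1 : (if b then ext1 ν.1 i else ext1 μ.1 i) * ((∏ l ∈ range i, sB S N c μ ν l) * ∏ l ∈ range i, ext1 ν.1 l) *
      ((∏ l ∈ Ico i S.k, sA S N c μ ν l) * ∏ l ∈ Ico (i + 1) (S.k + 1), ext1 μ.1 l) * (sA S N c μ ν S.k * sB S N c μ ν S.k) =
      (if b then ext1 ν.1 i else ext1 μ.1 i) * (∏ l ∈ range i, ext1 ν.1 l) * (∏ l ∈ Ico (i + 1) (S.k + 1), ext1 μ.1 l) *
        ((∏ l ∈ range i, sB S N c μ ν l) * sB S N c μ ν S.k * ((∏ l ∈ Ico i S.k, sA S N c μ ν l) * sA S N c μ ν S.k)) := by ring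
  have l2 : (∏ l ∈ range (S.k + 1), ext1 μ.1 l) * (∏ l ∈ range (S.k + 1), sA S N c μ ν l) *
      ((∏ l ∈ range (S.k + 1), ext1 ν.1 l) * ∏ l ∈ range (S.k + 1), sB S N c μ ν l) =
      (∏ l ∈ range (S.k + 1), ext1 ν.1 l) * (∏ l ∈ range (S.k + 1), ext1 μ.1 l) *
        ((∏ l ∈ range (S.k + 1), sB S N c μ ν l) * ∏ l ∈ range (S.k + 1), sA S N c μ ν l) := by ring
  rw [l1, l2]
  exact d4

private theorem XG1_memX {μ : S.TX} (hμ : μ ∈ S.MX) : (∀ i, μ.1 i ∈ S.WX i) ∧ (∀ i, μ.2.1 i ∈ S.FX i) ∧ ∀ i, μ.2.2 i ∈ S.OX i := by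
  rw [MS.MX, Finset.mem_product, Finset.mem_product, Fintype.mem_piFinset, Fintype.mem_piFinset, Fintype.mem_piFinset] at hμ
  exact hμ

private theorem XG1_memY {ν : S.TY} (hν : ν ∈ S.MY) : (∀ i, ν.1 i ∈ S.WY i) ∧ (∀ i, ν.2.1 i ∈ S.FY i) ∧ ∀ i, ν.2.2 i ∈ S.OY i := by
  rw [MS.MY, Finset.mem_product, Finset.mem_product, Fintype.mem_piFinset, Fintype.mem_piFinset, Fintype.mem_piFinset] at hν
  exact hν

theorem marks_pos (h : XOK S T Wf Z Cc e1 e2) {μ : S.TX} {ν : S.TY} (hμ : μ ∈ S.MX) (hν : ν ∈ S.MY) (c : S.Col) :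
    (∀ i, 0 < ext1 μ.1 i) ∧ (∀ i, 0 < ext1 ν.1 i) ∧ (∀ i, 0 < sA S T.N c μ ν i) ∧ (∀ i, 0 < sB S T.N c μ ν i) ∧
      (∀ p : ℕ, p.Prime → p ∣ S.prX id μ * S.prY id ν → T.y0 < p ∧ ¬ p ∣ T.N) := by
  obtain ⟨m1, m2, m3⟩ := XG1_memX hμ
  obtain ⟨n1, n2, n3⟩ := XG1_memY hν
  refine ⟨?_, ?_, ?_, ?_, ?_⟩
  · intro i
    rw [ext1]
    split_ifs with hi
    · exact (h.WX_mem _ _ (m1 _)).1.pos
    · exact one_pos
  · intro i
    rw [ext1]
    split_ifs with hi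
    · exact (h.WY_mem _ _ (n1 _)).1.pos
    · exact one_pos
  · intro i
    exact Nat.mul_pos (Finset.prod_pos fun f _ => (h.FX_mem _ _ (m2 f)).1.pos) (Finset.prod_pos fun f _ => (h.OX_mem _ _ (m3 f)).1.pos)
  · intro i
    exact Nat.mul_pos (Finset.prod_pos fun f _ => (h.FY_mem _ _ (n2 f)).1.pos) (Finset.prod_pos fun f _ => (h.OY_mem _ _ (n3 f)).1.pos)
  · intro p hp hd
    have key : ∀ l : ℕ, (l.Prime ∧ ¬ l ∣ T.N ∧ T.y0 < l) → p ∣ l → T.y0 < p ∧ ¬ p ∣ T.N := by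
      rintro l ⟨h1, h2, h3⟩ h4
      have h5 : p = l := (Nat.prime_dvd_prime_iff_eq hp h1).mp h4
      rw [h5]
      exact ⟨h3, h2⟩
    rcases (Nat.Prime.dvd_mul hp).mp hd with h1 | h1
    · rcases (Nat.Prime.dvd_mul hp).mp h1 with h2 | h2
      · rcases (Nat.Prime.dvd_mul hp).mp h2 with h3 | h3
        · obtain ⟨i, _, h4⟩ := (Prime.dvd_finset_prod_iff hp.prime _).mp h3
          exact key _ (h.WX_mem _ _ (m1 i)) h4
        · obtain ⟨i, _, h4⟩ := (Prime.dvd_finset_prod_iff hp.prime _).mp h3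
          exact key _ (h.FX_mem _ _ (m2 i)) h4
      · obtain ⟨i, _, h4⟩ := (Prime.dvd_finset_prod_iff hp.prime _).mp h2
        exact key _ (h.OX_mem _ _ (m3 i)) h4
    · rcases (Nat.Prime.dvd_mul hp).mp h1 with h2 | h2
      · rcases (Nat.Prime.dvd_mul hp).mp h2 with h3 | h3
        · obtain ⟨i, _, h4⟩ := (Prime.dvd_finset_prod_iff hp.prime _).mp h3
          exact key _ (h.WY_mem _ _ (n1 i)) h4
        · obtain ⟨i, _, h4⟩ := (Prime.dvd_finset_prod_iff hp.prime _).mp h3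
          exact key _ (h.FY_mem _ _ (n2 i)) h4
      · obtain ⟨i, _, h4⟩ := (Prime.dvd_finset_prod_iff hp.prime _).mp h2
        exact key _ (h.OY_mem _ _ (n3 i)) h4

private theorem XG1_Sm {A A' B B' al be : ℕ → ℕ} : ∀ n, (∀ l < n, A l = A' l) → (∀ l < n, B l = B' l) → Sm A B al be n = Sm A' B' al be n := by
  intro n
  induction n with
  | zero => intro _ _; rfl
  | succ n ih =>
    intro hA hB
    rw [Sm, Sm, ih (fun l hl => hA l (by omega)) (fun l hl => hB l (by omega)), hB (n - 1) (by omega)]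
    congr 2
    exact Finset.prod_congr rfl fun l hl => by rw [hA l (by have := Finset.mem_range.mp hl; omega)]

private theorem XG1_SI (S : MS) (N : ℕ) (c : S.Col) (μ : S.TX) (ν : S.TY) (hk : 1 ≤ S.k) :
    S.SI N c μ ν = Sm (sA S N c μ ν) (sB S N c μ ν) (ext1 μ.1) (ext1 ν.1) S.k * (ext1 ν.1 S.k * sB S N c μ ν (S.k - 1)) +
      (ext1 μ.1 S.k - ext1 ν.1 S.k) * ∏ l ∈ range S.k, ext1 μ.1 l * sA S N c μ ν l := by
  have hA : ∀ l < S.k, S.AA N c μ ν 0 l = sA S N c μ ν l := fun l hl => by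
    rw [MS.AA, if_pos hl]
    rfl
  have hB : ∀ l < S.k, S.BB N c μ ν 0 l = sB S N c μ ν l := fun l hl => by
    rw [MS.BB, if_pos hl]
    rfl
  rw [MS.SI, Sm, XG1_Sm S.k hA hB, hB (S.k - 1) (by omega)]
  congr 2
  exact Finset.prod_congr rfl fun l hl => by rw [hA l (Finset.mem_range.mp hl)]

theorem SI_eq (h : XOK S T Wf Z Cc e1 e2) {μ : S.TX} {ν : S.TY} (hμ : μ ∈ S.MX) (hν : ν ∈ S.MY) (c : S.Col) :
    (S.SI T.N c μ ν : ℤ) = ext1 μ.1 S.k * UF S T.N c (toF S μ ν) + ext1 ν.1 S.k * WF S T.N c (toF S μ ν) := by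
  have h1 : ext1 ν.1 S.k ≤ ext1 μ.1 S.k := by
    rw [ext1, ext1, dif_pos (Nat.lt_succ_self _), dif_pos (Nat.lt_succ_self _)]
    exact (h.ab μ hμ ν hν _).le
  have hU : UF S T.N c (toF S μ ν) = ((∏ l ∈ range S.k, ext1 μ.1 l * sA S T.N c μ ν l : ℕ) : ℤ) := by
    rw [Nat.cast_prod]
    rfl
  have hW : WF S T.N c (toF S μ ν) = (sB S T.N c μ ν (S.k - 1) : ℤ) *
      (Sm (sA S T.N c μ ν) (sB S T.N c μ ν) (ext1 μ.1) (ext1 ν.1) S.k : ℕ) - UF S T.N c (toF S μ ν) := rfl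
  rw [hW, hU, XG1_SI S T.N c μ ν h.k1]
  push_cast [Nat.cast_sub h1]
  ring

private theorem XG1_Smle {A B al be : ℕ → ℕ} {k : ℕ} (hba : ∀ i, be i ≤ al i) (hBA : ∀ i < k, B i ≤ A i) :
    ∀ j ≤ k, Sm A B al be (j + 1) ≤ (j + 1) * (al j * ∏ l ∈ range j, al l * A l) := by
  intro j
  induction j with
  | zero =>
    intro _
    simp [Sm]
  | succ j ih =>
    intro hj
    have ih := ih (by omega)
    rw [Sm]
    have h1 : Sm A B al be (j + 1) * (be (j + 1) * B (j + 1 - 1)) ≤ (j + 1) * (al (j + 1) * ∏ l ∈ range (j + 1), al l * A l) := by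
      have h2 : be (j + 1) * B (j + 1 - 1) ≤ al (j + 1) * A j := by
        rw [Nat.add_sub_cancel]
        exact Nat.mul_le_mul (hba _) (hBA j (by omega))
      calc Sm A B al be (j + 1) * (be (j + 1) * B (j + 1 - 1)) ≤ ((j + 1) * (al j * ∏ l ∈ range j, al l * A l)) * (al (j + 1) * A j) :=
            Nat.mul_le_mul ih h2
        _ = _ := by rw [Finset.prod_range_succ]; ring
    have h3 : (al (j + 1) - be (j + 1)) * ∏ l ∈ range (j + 1), al l * A l ≤ al (j + 1) * ∏ l ∈ range (j + 1), al l * A l :=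
      Nat.mul_le_mul_right _ (Nat.sub_le _ _)
    calc _ ≤ (j + 1) * (al (j + 1) * ∏ l ∈ range (j + 1), al l * A l) + al (j + 1) * ∏ l ∈ range (j + 1), al l * A l := Nat.add_le_add h1 h3
      _ = _ := by ring

theorem SI_bd (h : XOK S T Wf Z Cc e1 e2) {μ : S.TX} {ν : S.TY} (hμ : μ ∈ S.MX) (hν : ν ∈ S.MY) {c : S.Col} (hc : c ∈ S.CC) :
    S.SI T.N c μ ν ≤ (S.k + 1) * (ext1 μ.1 S.k * ∏ l ∈ range S.k, ext1 μ.1 l * sA S T.N c μ ν l) ∧
    ext1 μ.1 S.k * (∏ l ∈ range S.k, ext1 μ.1 l * sA S T.N c μ ν l) ≤ 4 * S.SI T.N c μ ν := by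
  have hba : ∀ i, ext1 ν.1 i ≤ ext1 μ.1 i := by
    intro i
    rw [ext1, ext1]
    split_ifs with hi
    · exact (h.ab μ hμ ν hν _).le
    · exact le_refl _
  have hBA : ∀ i < S.k, sB S T.N c μ ν i ≤ sA S T.N c μ ν i := fun i hi => (h.AB c hc μ hμ ν hν i hi).le
  have e1 := XG1_SI S T.N c μ ν h.k1
  constructor
  · have h1 := XG1_Smle (A := sA S T.N c μ ν) (B := sB S T.N c μ ν) (al := ext1 μ.1) (be := ext1 ν.1) hba hBA S.k (le_refl _)
    rw [Sm] at h1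
    rw [e1]
    exact h1
  · obtain ⟨m1, _, _⟩ := XG1_memX hμ
    obtain ⟨n1, _, _⟩ := XG1_memY hν
    have ha : 3 * Z < ext1 μ.1 S.k := by
      rw [ext1, dif_pos (Nat.lt_succ_self _)]
      exact (h.WXk _ (m1 (Fin.last S.k))).1
    have hb : ext1 ν.1 S.k ≤ 2 * Z := by
      rw [ext1, dif_pos (Nat.lt_succ_self _)]
      exact (h.WYk _ (n1 (Fin.last S.k))).2
    have h2 : ext1 μ.1 S.k ≤ 4 * (ext1 μ.1 S.k - ext1 ν.1 S.k) := by omega
    have h3 := Nat.mul_le_mul_right (∏ l ∈ range S.k, ext1 μ.1 l * sA S T.N c μ ν l) h2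
    rw [e1]
    rw [mul_add]
    refine h3.trans ?_
    rw [mul_assoc]
    exact Nat.le_add_left _ _

end Pool.Agent.Lib.TE
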