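import Pool.Agent.Lib.MP_7b7e48_nt.TE.XG1
import Pool.Agent.Lib.MP_7b7e48_nt.TE.XD1

/-!
# Module XG2 (90 minutes): the positions of two good cycles with the same data

PROOF. `good_cop`: `X > D N` (`prodB`: the product is positive because `e i * B i` is an admissible number, hence positive, and the `β` are positive); a common prime `p` of `prX` and `prY` divides `X` and `X - D N`, so it divides `D N`; but `p > y0 ≥ D > 0` and `p ∤ N` (`marks_pos`).
`pos_modEq`: `XD1_dvd` with `A = AA .. X`, `A' = AA .. X'` (for `i < k` both are `sA i`), `RX = sA k`, `RY = sB k`: `prodA` and `prX_eq`: `(∏_{i≤k} α)(∏_{i<k} sA) AA k = X`, and `prX = (∏ α)(∏_{i<k} sA) sA k ∣ X`, so `sA k ∣ AA .. X k`, the same for `X'`; so `sA k` divides the difference; same for `Y`. The coprimality conditions: `good_cop` for the `X` and `Y` marks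
(`prX = (∏ α ∏_{i<k} sA) sA k` and all marks of `X` are distinct primes (`disX`), so `prX` is squarefree: its factors are pairwise coprime), `g.cop` and `D e_k = SI`. `e k = e' k` (`g.last`). Then `posn - posn' = - β_i (t_i - t'_i)` resp. `- α_i (..)` (`E` and `F` equations: `t_i β_i ≤ N`, `t_i α_i ≤ N`).
`pos_inj`: `t_i = t'_i` as `β_i, α_i > 0`; `XD1_inj`: `AA .. X k = AA .. X' k`, so `X = X'` by `prodA`.
`pos_AB`: `e i * AA i = posn true i` (`E`), `e i * BB i = posn false ((i + 1) % (k + 1))` (`F`).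
-/

set_option autoImplicit false

open Finset
open Pool.Agent.Lib.TC (MS Dat ext1 Sm Cyc)

namespace Pool.Agent.Lib.TE

variable {S : MS} {T : Dat} {Wf Z Cc : ℕ} {e1 e2 : ℝ} {c : S.Col} {μ : S.TX} {ν : S.TY}

private theorem XG2_AA (S : MS) (N : ℕ) (c : S.Col) (μ : S.TX) (ν : S.TY) (X : ℕ) {i : ℕ} (hi : i < S.k) :
    S.AA N c μ ν X i = sA S N c μ ν i := by
  unfold MS.AA sA
  rw [if_pos hi]

private theorem XG2_BB (S : MS) (N : ℕ) (c : S.Col) (μ : S.TX) (ν : S.TY) (Y : ℕ) {i : ℕ} (hi : i < S.k) :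
    S.BB N c μ ν Y i = sB S N c μ ν i := by
  unfold MS.BB sB
  rw [if_pos hi]

private theorem XG2_sqf {F : Type} [Fintype F] (x : F → ℕ) (hx : Function.Injective x) (hp : ∀ f, (x f).Prime) :
    Squarefree (∏ f, x f) := by
  refine Finset.squarefree_prod_of_pairwise_isCoprime (fun f _ f' _ hff => ?_) fun f _ => (hp f).squarefree
  exact Nat.coprime_iff_isRelPrime.1 ((Nat.coprime_primes (hp f) (hp f')).2 fun h => hff (hx h))

private theorem XG2_sqX (h : XOK S T Wf Z Cc e1 e2) (hμ : μ ∈ S.MX) : Squarefree (S.prX id μ) := by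
  have hm := hμ
  unfold MS.MX at hm
  rw [mem_product, mem_product, Fintype.mem_piFinset, Fintype.mem_piFinset, Fintype.mem_piFinset] at hm
  obtain ⟨m1, m2, m3⟩ := hm
  have h1 := XG2_sqf _ (h.disX μ hμ) (by
    rintro (i | f | f)
    · exact (h.WX_mem i _ (m1 i)).1
    · exact (h.FX_mem f _ (m2 f)).1
    · exact (h.OX_mem f _ (m3 f)).1)
  have h2 : ∏ f, Sum.elim μ.1 (Sum.elim μ.2.1 μ.2.2) f = S.prX id μ := by
    rw [Fintype.prod_sum_type, Fintype.prod_sum_type]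
    unfold MS.prX
    simp only [Sum.elim_inl, Sum.elim_inr, id, mul_assoc]
  rwa [h2] at h1

private theorem XG2_sqY (h : XOK S T Wf Z Cc e1 e2) (hν : ν ∈ S.MY) : Squarefree (S.prY id ν) := by
  have hm := hν
  unfold MS.MY at hm
  rw [mem_product, mem_product, Fintype.mem_piFinset, Fintype.mem_piFinset, Fintype.mem_piFinset] at hm
  obtain ⟨m1, m2, m3⟩ := hm
  have h1 := XG2_sqf _ (h.disY ν hν) (by
    rintro (i | f | f)
    · exact (h.WY_mem i _ (m1 i)).1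
    · exact (h.FY_mem f _ (m2 f)).1
    · exact (h.OY_mem f _ (m3 f)).1)
  have h2 : ∏ f, Sum.elim ν.1 (Sum.elim ν.2.1 ν.2.2) f = S.prY id ν := by
    rw [Fintype.prod_sum_type, Fintype.prod_sum_type]
    unfold MS.prY
    simp only [Sum.elim_inl, Sum.elim_inr, id, mul_assoc]
  rwa [h2] at h1

private theorem XG2_pA {X : ℕ} : ∏ i ∈ range S.k, S.AA T.N c μ ν X i = ∏ i ∈ range S.k, sA S T.N c μ ν i :=
  prod_congr rfl fun _ hi => XG2_AA _ _ _ _ _ _ (mem_range.1 hi)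

private theorem XG2_pB {X : ℕ} : ∏ i ∈ range S.k, S.BB T.N c μ ν X i = ∏ i ∈ range S.k, sB S T.N c μ ν i :=
  prod_congr rfl fun _ hi => XG2_BB _ _ _ _ _ _ (mem_range.1 hi)

private theorem XG2_X {X : ℕ} {e t : ℕ → ℕ} (g : S.Good T c μ ν X e t) :
    ((∏ i ∈ range (S.k + 1), ext1 μ.1 i) * ∏ i ∈ range S.k, sA S T.N c μ ν i) * S.AA T.N c μ ν X S.k = X := by
  have h1 := g.prodA
  rw [prod_mul_distrib, prod_range_succ (fun i => S.AA T.N c μ ν X i), ← mul_assoc, XG2_pA] at h1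
  exact h1

private theorem XG2_Y {X : ℕ} {e t : ℕ → ℕ} (g : S.Good T c μ ν X e t) :
    ((∏ i ∈ range (S.k + 1), ext1 ν.1 i) * ∏ i ∈ range S.k, sB S T.N c μ ν i) * S.BB T.N c μ ν (X - T.D * T.N) S.k =
      X - T.D * T.N := by
  have h1 := g.prodB
  rw [prod_mul_distrib, prod_range_succ (fun i => S.BB T.N c μ ν (X - T.D * T.N) i), ← mul_assoc, XG2_pB] at h1
  exact h1

private theorem XG2_prX (S : MS) (N : ℕ) (c : S.Col) (μ : S.TX) (ν : S.TY) :
    S.prX id μ = ((∏ i ∈ range (S.k + 1), ext1 μ.1 i) * ∏ i ∈ range S.k, sA S N c μ ν i) * sA S N c μ ν S.k := by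
  rw [prX_eq S N c μ ν, prod_range_succ (fun i => sA S N c μ ν i), mul_assoc]

private theorem XG2_prY (S : MS) (N : ℕ) (c : S.Col) (μ : S.TX) (ν : S.TY) :
    S.prY id ν = ((∏ i ∈ range (S.k + 1), ext1 ν.1 i) * ∏ i ∈ range S.k, sB S N c μ ν i) * sB S N c μ ν S.k := by
  rw [prY_eq S N c μ ν, prod_range_succ (fun i => sB S N c μ ν i), mul_assoc]

theorem good_cop (h : XOK S T Wf Z Cc e1 e2) (hμ : μ ∈ S.MX) (hν : ν ∈ S.MY) {X : ℕ} {e t : ℕ → ℕ} (g : S.Good T c μ ν X e t)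
    (hX : S.prX id μ ∣ X) (hY : S.prY id ν ∣ X - T.D * T.N) : (S.prX id μ).Coprime (S.prY id ν) ∧ T.D * T.N < X := by
  obtain ⟨-, hbe, -, -, hp⟩ := marks_pos h hμ hν c
  have hY0 : 0 < X - T.D * T.N := by
    rw [← g.prodB]
    refine prod_pos fun i hi => Nat.mul_pos (hbe i) ?_
    exact Nat.pos_of_mul_pos_left (g.setB i (mem_range.1 hi)).1
  have hlt : T.D * T.N < X := by omega
  refine ⟨Nat.coprime_of_dvd fun p hpp h1 h2 => ?_, hlt⟩
  obtain ⟨hy, hN⟩ := hp p hpp (h1.mul_right _)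
  have h3 : p ∣ X := h1.trans hX
  have h4 : p ∣ X - T.D * T.N := h2.trans hY
  have h5 : p ∣ T.D * T.N := by
    have h6 := Nat.dvd_sub h3 h4
    rwa [Nat.sub_sub_self hlt.le] at h6
  rcases (Nat.Prime.dvd_mul hpp).1 h5 with h6 | h6
  · have h7 := Nat.le_of_dvd h.D0 h6
    have h8 := h.D_y0
    omega
  · exact hN h6

private theorem XG2_le {X : ℕ} {e t : ℕ → ℕ} (g : S.Good T c μ ν X e t) (b : Bool) (i : ℕ) (hi : i ≤ S.k) :
    t i * (if b then ext1 ν.1 i else ext1 μ.1 i) ≤ T.N := by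
  cases b with
  | true =>
    have h1 := g.cyc.E i (by omega)
    rw [if_pos rfl]
    omega
  | false =>
    rw [if_neg (by decide)]
    rcases i with _ | j
    · have h1 := g.cyc.F S.k (by omega)
      rw [Nat.mod_self] at h1
      omega
    · have h1 := g.cyc.F j (by omega)
      rw [Nat.mod_eq_of_lt (show j + 1 < S.k + 1 by omega)] at h1
      omega

private theorem XG2_posn (S : MS) (T : Dat) (b : Bool) (i : ℕ) (μ : S.TX) (ν : S.TY) (t : ℕ → ℕ) :
    posn S T b i μ ν t = T.N - t i * (if b then ext1 ν.1 i else ext1 μ.1 i) := by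
  unfold posn
  cases b with
  | true => rw [if_pos rfl, if_pos rfl]
  | false => rw [if_neg (by decide), if_neg (by decide)]

private theorem XG2_he {X X' : ℕ} {e t e' t' : ℕ → ℕ} (hD : 0 < T.D) (g : S.Good T c μ ν X e t) (g' : S.Good T c μ ν X' e' t') :
    e S.k = e' S.k :=
  Nat.eq_of_mul_eq_mul_left hD (g.last.trans g'.last.symm)

theorem pos_modEq (h : XOK S T Wf Z Cc e1 e2) (hμ : μ ∈ S.MX) (hν : ν ∈ S.MY) {X X' : ℕ} {e t e' t' : ℕ → ℕ}
    (g : S.Good T c μ ν X e t) (hX : S.prX id μ ∣ X) (hY : S.prY id ν ∣ X - T.D * T.N)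
    (g' : S.Good T c μ ν X' e' t') (hX' : S.prX id μ ∣ X') (hY' : S.prY id ν ∣ X' - T.D * T.N) (b : Bool) (i : ℕ) (hi : i ≤ S.k) :
    posn S T b i μ ν t ≡ posn S T b i μ ν t' [MOD MP S T b i c μ ν] := by
  obtain ⟨hal, hbe, hsA, hsB, -⟩ := marks_pos h hμ hν c
  obtain ⟨hcop, -⟩ := good_cop h hμ hν g hX hY
  have hP0 : 0 < (∏ i ∈ range (S.k + 1), ext1 μ.1 i) * ∏ i ∈ range S.k, sA S T.N c μ ν i :=
    Nat.mul_pos (prod_pos fun i _ => hal i) (prod_pos fun i _ => hsA i)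
  have hQ0 : 0 < (∏ i ∈ range (S.k + 1), ext1 ν.1 i) * ∏ i ∈ range S.k, sB S T.N c μ ν i :=
    Nat.mul_pos (prod_pos fun i _ => hbe i) (prod_pos fun i _ => hsB i)
  have ePX := XG2_prX S T.N c μ ν
  have ePY := XG2_prY S T.N c μ ν
  have hPX : (∏ i ∈ range (S.k + 1), ext1 μ.1 i) * ∏ i ∈ range S.k, sA S T.N c μ ν i ∣ S.prX id μ := by
    rw [ePX]
    exact dvd_mul_right _ _
  have hRX : sA S T.N c μ ν S.k ∣ S.prX id μ := by
    rw [ePX]
    exact dvd_mul_left _ _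
  have hPY : (∏ i ∈ range (S.k + 1), ext1 ν.1 i) * ∏ i ∈ range S.k, sB S T.N c μ ν i ∣ S.prY id ν := by
    rw [ePY]
    exact dvd_mul_right _ _
  have hRY : sB S T.N c μ ν S.k ∣ S.prY id ν := by
    rw [ePY]
    exact dvd_mul_left _ _
  have dA : sA S T.N c μ ν S.k ∣ S.AA T.N c μ ν X S.k := by
    refine Nat.dvd_of_mul_dvd_mul_left hP0 ?_
    rw [XG2_X g, ← ePX]
    exact hX
  have dA' : sA S T.N c μ ν S.k ∣ S.AA T.N c μ ν X' S.k := by
    refine Nat.dvd_of_mul_dvd_mul_left hP0 ?_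
    rw [XG2_X g', ← ePX]
    exact hX'
  have dB : sB S T.N c μ ν S.k ∣ S.BB T.N c μ ν (X - T.D * T.N) S.k := by
    refine Nat.dvd_of_mul_dvd_mul_left hQ0 ?_
    rw [XG2_Y g, ← ePY]
    exact hY
  have dB' : sB S T.N c μ ν S.k ∣ S.BB T.N c μ ν (X' - T.D * T.N) S.k := by
    refine Nat.dvd_of_mul_dvd_mul_left hQ0 ?_
    rw [XG2_Y g', ← ePY]
    exact hY'
  have sqX := XG2_sqX h hμ
  have sqY := XG2_sqY h hν
  rw [ePX] at sqX
  rw [ePY] at sqY
  have cPX := Nat.coprime_of_squarefree_mul sqX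
  have cPY := Nat.coprime_of_squarefree_mul sqY
  have hek : e S.k ∣ S.SI T.N c μ ν := ⟨T.D, by rw [← g.last, mul_comm]⟩
  have key := XD1_dvd g.cyc g'.cyc
    (fun i hi => (XG2_AA S T.N c μ ν X hi).trans (XG2_AA S T.N c μ ν X' hi).symm)
    (fun i hi => (XG2_BB S T.N c μ ν (X - T.D * T.N) hi).trans (XG2_BB S T.N c μ ν (X' - T.D * T.N) hi).symm)
    (XG2_he h.D0 g g') (sA S T.N c μ ν S.k) (sB S T.N c μ ν S.k)
    (dvd_sub (Int.natCast_dvd_natCast.2 dA) (Int.natCast_dvd_natCast.2 dA'))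
    (dvd_sub (Int.natCast_dvd_natCast.2 dB) (Int.natCast_dvd_natCast.2 dB'))
    (by
      rw [XG2_pA, XG2_pB]
      exact (hcop.coprime_dvd_left hPX).coprime_dvd_right hPY)
    (by
      rw [XG2_pA]
      exact Nat.Coprime.mul_right cPX ((hcop.coprime_dvd_left hPX).coprime_dvd_right hRY))
    (by
      rw [XG2_pB]
      exact Nat.Coprime.mul_right ((hcop.symm.coprime_dvd_left hPY).coprime_dvd_right hRX) cPY)
    ((hcop.coprime_dvd_left hRX).coprime_dvd_right hRY)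
    (by
      rw [XG2_pA, XG2_pB]
      refine (g.cop.coprime_dvd_left hek).coprime_dvd_right ?_
      rw [ePX, ePY]
      refine dvd_of_eq ?_
      ring) i hi
  have r1 : ∏ l ∈ range i, S.BB T.N c μ ν (X - T.D * T.N) l * ext1 ν.1 l = ∏ l ∈ range i, sB S T.N c μ ν l * ext1 ν.1 l :=
    prod_congr rfl fun l hl => by rw [XG2_BB S T.N c μ ν (X - T.D * T.N) (lt_of_lt_of_le (mem_range.1 hl) hi)]
  have r2 : ∏ l ∈ Ico i S.k, S.AA T.N c μ ν X l * ext1 μ.1 (l + 1) = ∏ l ∈ Ico i S.k, sA S T.N c μ ν l * ext1 μ.1 (l + 1) :=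
    prod_congr rfl fun l hl => by rw [XG2_AA S T.N c μ ν X (mem_Ico.1 hl).2]
  rw [r1, r2] at key
  have hek2 : ek S T c μ ν = e S.k := by
    unfold ek
    rw [← g.last]
    exact Nat.mul_div_cancel_left _ h.D0
  have hMP : MP S T b i c μ ν = (if b then ext1 ν.1 i else ext1 μ.1 i) * (e S.k * ((∏ l ∈ range i, sB S T.N c μ ν l * ext1 ν.1 l) *
      (∏ l ∈ Ico i S.k, sA S T.N c μ ν l * ext1 μ.1 (l + 1)) * (sA S T.N c μ ν S.k * sB S T.N c μ ν S.k))) := by
    unfold MP GP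
    rw [hek2]
    ring
  rw [Nat.modEq_iff_dvd, XG2_posn, XG2_posn, Nat.cast_sub (XG2_le g b i hi), Nat.cast_sub (XG2_le g' b i hi), hMP, Nat.cast_mul]
  obtain ⟨z, hz⟩ := key
  refine ⟨z, ?_⟩
  rw [Nat.cast_mul, Nat.cast_mul]
  linear_combination ((if b then ext1 ν.1 i else ext1 μ.1 i : ℕ) : ℤ) * hz

theorem pos_inj (h : XOK S T Wf Z Cc e1 e2) (hμ : μ ∈ S.MX) (hν : ν ∈ S.MY) {X X' : ℕ} {e t e' t' : ℕ → ℕ}
    (g : S.Good T c μ ν X e t) (g' : S.Good T c μ ν X' e' t') (b : Bool) (i : ℕ) (hi : i ≤ S.k)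
    (hp : posn S T b i μ ν t = posn S T b i μ ν t') : X = X' := by
  obtain ⟨hal, hbe, hsA, hsB, -⟩ := marks_pos h hμ hν c
  have ht : t i = t' i := by
    rw [XG2_posn, XG2_posn] at hp
    have h1 := XG2_le g b i hi
    have h2 := XG2_le g' b i hi
    have h3 : t i * (if b then ext1 ν.1 i else ext1 μ.1 i) = t' i * (if b then ext1 ν.1 i else ext1 μ.1 i) := by omega
    have h4 : 0 < (if b then ext1 ν.1 i else ext1 μ.1 i) := by
      split_ifs
      · exact hbe i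
      · exact hal i
    exact Nat.eq_of_mul_eq_mul_right h4 h3
  obtain ⟨h5, -⟩ := XD1_inj g.cyc g'.cyc
    (fun i hi => (XG2_AA S T.N c μ ν X hi).trans (XG2_AA S T.N c μ ν X' hi).symm)
    (fun i hi => (XG2_BB S T.N c μ ν (X - T.D * T.N) hi).trans (XG2_BB S T.N c μ ν (X' - T.D * T.N) hi).symm)
    (XG2_he h.D0 g g') (fun i hi => by rw [XG2_AA S T.N c μ ν X hi]; exact hsA i)
    (fun i hi => by rw [XG2_BB S T.N c μ ν (X - T.D * T.N) hi]; exact hsB i) (fun i _ => hal i) (fun i _ => hbe i) i hi ht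
  rw [← XG2_X g, ← XG2_X g', h5]

theorem pos_AB {X : ℕ} {e t : ℕ → ℕ} (g : S.Good T c μ ν X e t) (i : ℕ) (hi : i ≤ S.k) :
    e i * S.AA T.N c μ ν X i = posn S T true i μ ν t ∧
    e i * S.BB T.N c μ ν (X - T.D * T.N) i = posn S T false ((i + 1) % (S.k + 1)) μ ν t := by
  have h1 := g.cyc.E i (by omega)
  have h2 := g.cyc.F i (by omega)
  constructor
  · rw [XG2_posn, if_pos rfl]
    omega
  · rw [XG2_posn, if_neg (by decide)]
    omega

end Pool.Agent.Lib.TE
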