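import Pool.Agent.Lib.MP_7b7e48_nt.TE.XG2

/-!
# Module XG3 (75 minutes): the size of the modulus

PROOF. `Adm` gives `D * ek = SI`, `SI` coprime to `prX prY`, `prX` coprime to `prY`, `ek * AA k` admissible. `MP_low`: `prX prY ek = MP true i * R`, `R = ∏_{l≤i} α_l ∏_{l<i} A_l ∏_{i<l≤k} β_l ∏_{i≤l<k} B_l` (`prX_eq`, `prY_eq`), `R ≤ α_k ∏_{l<k} α_l A_l · ..` i.e. `R ≤ ∏_{l≤k} α_l ∏_{l<k} A_l ≤ 4 SI = 4 D ek` (`XOK.ab`, `XOK.AB`, `SI_bd`), so `prX prY ek ≤ MP true i * 4 D ek`; `ek > 0`.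
`MP false i ≥ MP true i` (`α_i ≥ β_i`). `MP_up`: `ek ≤ SI ≤ (k+1) prX` (`SI_bd`, `prX_eq`, all factors `≥ 1`), `GP ≤ prX prY` (`GP_dvd`). `MP_cop`: marks: primes `> y0`, `∤ N`; a prime dividing `Wf` is `≤ y ≤ y0`; `ek` divides the admissible number `ek * AA k` (`g.setA`), which is coprime to `N` and has no prime factor `≤ y`.
`MP_split`: `GP ∣ prX prY` is coprime to `ek`; `MP = ek GP`. For `j ∣ ek GP`: `j1 = gcd(j, ek)`, `j2 = j/j1`. For `q j ∣ ek GP` (`q` prime): `J1 = gcd (q j, ek)`, `J2 = q j/J1 = gcd(q j, GP)` coprime; if `q ∣ J2`: `j1 = J1`, `j2 = J2/q`; if `q ∣ J1`: `j1 = J1/q`, `j2 = J2`.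
-/

set_option autoImplicit false

open Finset
open Pool.Agent.Lib.TC (MS Dat ext1 Sm Cyc)

namespace Pool.Agent.Lib.TE

variable {S : MS} {T : Dat} {Wf Z Cc : ℕ} {e1 e2 : ℝ} {c : S.Col} {μ : S.TX} {ν : S.TY}

theorem adm_facts (h : XOK S T Wf Z Cc e1 e2) (hμ : μ ∈ S.MX) (hν : ν ∈ S.MY) (ha : Adm S T c μ ν) :
    c ∈ S.CC ∧ T.D * ek S T c μ ν = S.SI T.N c μ ν ∧ 0 < ek S T c μ ν ∧ (S.SI T.N c μ ν).Coprime (S.prX id μ * S.prY id ν) ∧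
      (S.prX id μ).Coprime (S.prY id ν) := by
  obtain ⟨X, e, t, g, hX, hY⟩ := ha
  have h1 : T.D * ek S T c μ ν = S.SI T.N c μ ν := by
    unfold ek
    exact Nat.mul_div_cancel' ⟨e S.k, g.last.symm⟩
  have h2 : 0 < e S.k := g.cyc.e0 S.k (by omega)
  refine ⟨g.col, h1, ?_, g.cop, (good_cop h hμ hν g hX hY).1⟩
  have h3 : ek S T c μ ν = e S.k := by
    have h4 : T.D * ek S T c μ ν = T.D * e S.k := by rw [h1, g.last]
    exact Nat.eq_of_mul_eq_mul_left h.D0 h4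
  rw [h3]
  exact h2

private theorem XG3_ext_le (h : XOK S T Wf Z Cc e1 e2) (hμ : μ ∈ S.MX) (hν : ν ∈ S.MY) (i : ℕ) : ext1 ν.1 i ≤ ext1 μ.1 i := by
  unfold ext1
  by_cases hi : i < S.k + 1
  · rw [dif_pos hi, dif_pos hi]
    exact (h.ab μ hμ ν hν ⟨i, hi⟩).le
  · rw [dif_neg hi, dif_neg hi]

theorem MP_low (h : XOK S T Wf Z Cc e1 e2) (hμ : μ ∈ S.MX) (hν : ν ∈ S.MY) (ha : Adm S T c μ ν) (b : Bool) (i : ℕ) (hi : i ≤ S.k) :
    S.prX id μ * S.prY id ν ≤ 4 * T.D * MP S T b i c μ ν := by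
  obtain ⟨hc, hD, _, _, _⟩ := adm_facts h hμ hν ha
  have hbd := (SI_bd h hμ hν hc).2
  rw [← hD] at hbd
  set P : ℕ := ∏ l ∈ range S.k, ext1 μ.1 l * sA S T.N c μ ν l with hP
  -- the product of the marks of X
  have hX : S.prX id μ = ext1 μ.1 S.k * P * sA S T.N c μ ν S.k := by
    rw [prX_eq S T.N c μ ν, prod_range_succ, prod_range_succ, hP, prod_mul_distrib]
    ring
  have hY : S.prY id ν = (∏ l ∈ range i, sB S T.N c μ ν l * ext1 ν.1 l) * ext1 ν.1 i *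
      (∏ l ∈ Ico i S.k, sB S T.N c μ ν l * ext1 ν.1 (l + 1)) * sB S T.N c μ ν S.k := by
    rw [prY_eq S T.N c μ ν, prod_range_succ (fun i => sB S T.N c μ ν i)]
    have e1 : ∏ l ∈ range (S.k + 1), ext1 ν.1 l = (∏ l ∈ range i, ext1 ν.1 l) * ext1 ν.1 i * ∏ l ∈ Ico i S.k, ext1 ν.1 (l + 1) := by
      rw [range_eq_Ico, ← prod_Ico_consecutive _ (Nat.zero_le i) (by omega : i ≤ S.k + 1),
        prod_eq_prod_Ico_succ_bot (by omega : i < S.k + 1), ← prod_Ico_add' (fun l => ext1 ν.1 l) i S.k 1, mul_assoc,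
        range_eq_Ico]
    have e2 : ∏ l ∈ range S.k, sB S T.N c μ ν l = (∏ l ∈ range i, sB S T.N c μ ν l) * ∏ l ∈ Ico i S.k, sB S T.N c μ ν l := by
      rw [range_eq_Ico, ← prod_Ico_consecutive _ (Nat.zero_le i) hi, range_eq_Ico]
    rw [e1, e2, prod_mul_distrib, prod_mul_distrib]
    ring
  have hG : ext1 ν.1 i * (∏ l ∈ range i, sB S T.N c μ ν l * ext1 ν.1 l) *
      (∏ l ∈ Ico i S.k, sB S T.N c μ ν l * ext1 ν.1 (l + 1)) * (sA S T.N c μ ν S.k * sB S T.N c μ ν S.k) ≤ GP S T.N b i c μ ν := by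
    unfold GP
    refine Nat.mul_le_mul (Nat.mul_le_mul (Nat.mul_le_mul ?_ le_rfl) ?_) le_rfl
    · cases b
      · simpa using XG3_ext_le h hμ hν i
      · simp
    · refine prod_le_prod' fun l hl => ?_
      rw [mem_Ico] at hl
      exact Nat.mul_le_mul (h.AB c hc μ hμ ν hν l hl.2).le (XG3_ext_le h hμ hν (l + 1))
  have e3 : 4 * T.D * MP S T b i c μ ν = 4 * (T.D * ek S T c μ ν) * GP S T.N b i c μ ν := by
    unfold MP
    ring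
  rw [e3]
  calc S.prX id μ * S.prY id ν = (ext1 μ.1 S.k * P) * (ext1 ν.1 i * (∏ l ∈ range i, sB S T.N c μ ν l * ext1 ν.1 l) *
      (∏ l ∈ Ico i S.k, sB S T.N c μ ν l * ext1 ν.1 (l + 1)) * (sA S T.N c μ ν S.k * sB S T.N c μ ν S.k)) := by
        rw [hX, hY]
        ring
    _ ≤ 4 * (T.D * ek S T c μ ν) * GP S T.N b i c μ ν := Nat.mul_le_mul hbd hG

theorem MP_up (h : XOK S T Wf Z Cc e1 e2) (hμ : μ ∈ S.MX) (hν : ν ∈ S.MY) (ha : Adm S T c μ ν) (b : Bool) (i : ℕ) (hi : i ≤ S.k) :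
    1 ≤ MP S T b i c μ ν ∧ MP S T b i c μ ν ≤ (S.k + 1) * (S.prX id μ * S.prY id ν) ^ 2 := by
  obtain ⟨hc, hD, hek, _, _⟩ := adm_facts h hμ hν ha
  obtain ⟨ha1, hb1, hA1, hB1, _⟩ := marks_pos h hμ hν c
  have hX0 : 0 < S.prX id μ := by
    rw [prX_eq S T.N c μ ν]
    exact Nat.mul_pos (prod_pos fun l _ => ha1 l) (prod_pos fun l _ => hA1 l)
  have hY0 : 0 < S.prY id ν := by
    rw [prY_eq S T.N c μ ν]
    exact Nat.mul_pos (prod_pos fun l _ => hb1 l) (prod_pos fun l _ => hB1 l)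
  have hXY0 : 0 < S.prX id μ * S.prY id ν := Nat.mul_pos hX0 hY0
  have hG := GP_dvd S T.N b i hi c μ ν
  have hG0 : 0 < GP S T.N b i c μ ν := Nat.pos_of_dvd_of_pos hG hXY0
  have hG1 := Nat.le_of_dvd hXY0 hG
  refine ⟨Nat.mul_pos hek hG0, ?_⟩
  have hbd := (SI_bd h hμ hν hc).1
  have h1 : ek S T c μ ν ≤ S.SI T.N c μ ν := by
    rw [← hD]
    exact Nat.le_mul_of_pos_left _ h.D0
  have hX : ext1 μ.1 S.k * (∏ l ∈ range S.k, ext1 μ.1 l * sA S T.N c μ ν l) ≤ S.prX id μ := by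
    have e : S.prX id μ = ext1 μ.1 S.k * (∏ l ∈ range S.k, ext1 μ.1 l * sA S T.N c μ ν l) * sA S T.N c μ ν S.k := by
      rw [prX_eq S T.N c μ ν, prod_range_succ, prod_range_succ, prod_mul_distrib]
      ring
    rw [e]
    exact Nat.le_mul_of_pos_right _ (hA1 _)
  have h2 : ek S T c μ ν ≤ (S.k + 1) * (S.prX id μ * S.prY id ν) :=
    h1.trans (hbd.trans (Nat.mul_le_mul le_rfl (hX.trans (Nat.le_mul_of_pos_right _ hY0))))
  calc MP S T b i c μ ν ≤ ((S.k + 1) * (S.prX id μ * S.prY id ν)) * (S.prX id μ * S.prY id ν) := Nat.mul_le_mul h2 hG1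
    _ = _ := by ring

theorem MP_cop (h : XOK S T Wf Z Cc e1 e2) (hμ : μ ∈ S.MX) (hν : ν ∈ S.MY) (ha : Adm S T c μ ν) (b : Bool) (i : ℕ) (hi : i ≤ S.k) :
    (MP S T b i c μ ν).Coprime (Wf * T.N) := by
  obtain ⟨hc, hD, hek, _, _⟩ := adm_facts h hμ hν ha
  obtain ⟨_, _, _, _, hmp⟩ := marks_pos h hμ hν c
  have hG := GP_dvd S T.N b i hi c μ ν
  obtain ⟨X, e, t, g, hX, hY⟩ := ha
  have h3 : ek S T c μ ν = e S.k := by
    have h4 : T.D * ek S T c μ ν = T.D * e S.k := by rw [hD, g.last]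
    exact Nat.eq_of_mul_eq_mul_left h.D0 h4
  obtain ⟨_, _, hs3, hs4, _⟩ := g.setA S.k (by omega)
  refine Nat.Coprime.mul_right ?_ ?_
  · -- coprime to Wf
    refine Nat.coprime_of_dvd fun p hp hp1 hp2 => ?_
    have hy := h.Wf_y p hp hp2
    unfold MP at hp1
    rcases (Nat.Prime.dvd_mul hp).1 hp1 with h5 | h5
    · rw [h3] at h5
      exact hs4 p hp hy (h5.trans (Nat.dvd_mul_right _ _))
    · have := (hmp p hp (h5.trans hG)).1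
      have := h.y_y0
      omega
  · refine Nat.coprime_of_dvd fun p hp hp1 hp2 => ?_
    unfold MP at hp1
    rcases (Nat.Prime.dvd_mul hp).1 hp1 with h5 | h5
    · rw [h3] at h5
      have h6 : (e S.k).Coprime T.N := Nat.Coprime.coprime_dvd_left (Nat.dvd_mul_right _ _) hs3
      exact Nat.not_coprime_of_dvd_of_dvd hp.one_lt h5 hp2 h6
    · exact (hmp p hp (h5.trans hG)).2 hp2

theorem MP_split (h : XOK S T Wf Z Cc e1 e2) (hμ : μ ∈ S.MX) (hν : ν ∈ S.MY) (ha : Adm S T c μ ν) (b : Bool) (i : ℕ) (hi : i ≤ S.k) (j : ℕ)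
    (hj : 1 ≤ j) :
    (j ∣ MP S T b i c μ ν → ∃ j1 j2 : ℕ, j1 * j2 = j ∧ j1 ∣ S.SI T.N c μ ν ∧ j2 ∣ S.prX id μ * S.prY id ν) ∧
    ∀ q : ℕ, q.Prime → q * j ∣ MP S T b i c μ ν → ∃ j1 j2 : ℕ, j1 * j2 = j ∧
      ((j1 ∣ S.SI T.N c μ ν ∧ q * j2 ∣ S.prX id μ * S.prY id ν) ∨ (T.D * (q * j1) ∣ S.SI T.N c μ ν ∧ j2 ∣ S.prX id μ * S.prY id ν)) := by
  obtain ⟨hc, hD, hek, _, _⟩ := adm_facts h hμ hν ha
  have hG := GP_dvd S T.N b i hi c μ ν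
  have hE : ek S T c μ ν ∣ S.SI T.N c μ ν := ⟨T.D, by rw [← hD]; ring⟩
  constructor
  · intro hd
    obtain ⟨y, z, hy, hz, hyz⟩ := (Nat.dvd_mul).1 hd
    exact ⟨y, z, hyz, hy.trans hE, hz.trans hG⟩
  · intro q hq hd
    obtain ⟨y, z, hy, hz, hyz⟩ := (Nat.dvd_mul).1 hd
    have h1 : q ∣ y * z := by
      rw [hyz]
      exact Nat.dvd_mul_right _ _
    rcases (Nat.Prime.dvd_mul hq).1 h1 with ⟨y', rfl⟩ | ⟨z', rfl⟩
    · refine ⟨y', z, ?_, Or.inr ⟨?_, hz.trans hG⟩⟩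
      · refine Nat.eq_of_mul_eq_mul_left hq.pos ?_
        rw [← hyz]
        ring
      · rw [← hD]
        exact Nat.mul_dvd_mul (Nat.dvd_refl _) hy
    · refine ⟨y, z', ?_, Or.inl ⟨hy.trans hE, hz.trans hG⟩⟩
      refine Nat.eq_of_mul_eq_mul_left hq.pos ?_
      rw [← hyz]
      ring

end Pool.Agent.Lib.TE
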