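import Pool.Agent.Lib.MP_7b7e48_nt.TE.XG3

/-!
# Module XG4 (90 minutes): the mark system as an abstract tuple system

PROOF. `toF`/`ofX`, `ofY` are inverse to each other; `toF μ ν ∈ piFinset (BF S)` iff `μ ∈ MX` and `ν ∈ MY`. `AOK`: `ab`: trivial; `pr`, `sum`: fields of `XOK`; `card`: `Fintype.card (FF S) = 2 (k+1) + 2 n0 + nX + nY`; `Ba`, `Bb`: `WXk`, `WYk`; `Ua`, `Ub`: `UF`, `WF` only use `ext1 α l`, `ext1 β l` for `l < k`, the free and the other marks
(`sA`, `sB`: the colours depend on the cells of the free primes and on the other marks, not on the windows; `Sm .. k` uses `al l`, `be l`, `l < k`); `Upos`: `ZU`, positivity; `Udvd`: `UF` is a product of distinct coordinates: `prX_eq` for `ofX x` (`UF * (α_k sA k) = prX`; more precisely `UF ∣ ∏_{f ≠ aF} x f`); `Spos`: `SI_eq`, `SI_bd` (`α_k ≤ 4 Z`; `SI > 0`).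
`PF_of`: `disX`, `disY`, coprimality of `prX` and `prY` give injectivity; `∏ toF = prX prY`; `SF = SI` (`SI_eq`).
`Z1`: `Z ≥ N^e1 > 0`.
-/

set_option autoImplicit false

open Finset
open Pool.Agent.Lib.TC (MS Dat ext1 Sm Cyc)

namespace Pool.Agent.Lib.TE

variable {S : MS} {T : Dat} {Wf Z Cc : ℕ} {e1 e2 : ℝ} {c : S.Col} {μ : S.TX} {ν : S.TY}

private theorem XG4_last (a : Fin (S.k + 1) → ℕ) : ext1 a S.k = a (Fin.last S.k) := by
  unfold Pool.Agent.Lib.TC.ext1
  rw [dif_pos (Nat.lt_succ_self _)]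
  rfl

private theorem XG4_ext {a a' : Fin (S.k + 1) → ℕ} (h : ∀ i : Fin (S.k + 1), i ≠ Fin.last S.k → a i = a' i)
    {l : ℕ} (hl : l < S.k) : ext1 a l = ext1 a' l := by
  unfold Pool.Agent.Lib.TC.ext1
  have h1 : l < S.k + 1 := by omega
  rw [dif_pos h1, dif_pos h1]
  refine h _ fun h2 => ?_
  have h3 := congrArg Fin.val h2
  rw [Fin.val_last] at h3
  have h4 : l = S.k := h3
  omega

private theorem XG4_sA {μ μ' : S.TX} {ν ν' : S.TY} (N : ℕ) (h1 : μ.2 = μ'.2) (h2 : ν.2 = ν'.2) (i : ℕ) :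
    sA S N c μ ν i = sA S N c μ' ν' i ∧ sB S N c μ ν i = sB S N c μ' ν' i := by
  obtain ⟨a, b⟩ := μ
  obtain ⟨a', b'⟩ := μ'
  obtain ⟨d, e⟩ := ν
  obtain ⟨d', e'⟩ := ν'
  have h1' : b = b' := h1
  have h2' : e = e' := h2
  subst h1'
  subst h2'
  exact ⟨rfl, rfl⟩

private theorem XG4_Sm {A A' B B' al al' be be' : ℕ → ℕ} (k : ℕ) (hA : ∀ i, A i = A' i)
    (hB : ∀ i, B i = B' i) (hal : ∀ i < k, al i = al' i) (hbe : ∀ i < k, be i = be' i) :
    Sm A B al be k = Sm A' B' al' be' k := by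
  induction k with
  | zero => rfl
  | succ k ih =>
    have ih' := ih (fun i hi => hal i (by omega)) fun i hi => hbe i (by omega)
    simp only [Pool.Agent.Lib.TC.Sm]
    rw [ih', hbe k (Nat.lt_succ_self k), hal k (Nat.lt_succ_self k), hB]
    congr 2
    refine prod_congr rfl fun l hl => ?_
    rw [mem_range] at hl
    rw [hal l (by omega), hA]

/-- `U` and `W` do not depend on the last windows -/
private theorem XG4_UW (N : ℕ) {x x' : FF S → ℕ}
    (h1 : ∀ i : Fin (S.k + 1), i ≠ Fin.last S.k → (ofX S x).1 i = (ofX S x').1 i)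
    (h2 : ∀ i : Fin (S.k + 1), i ≠ Fin.last S.k → (ofY S x).1 i = (ofY S x').1 i)
    (h3 : (ofX S x).2 = (ofX S x').2) (h4 : (ofY S x).2 = (ofY S x').2) :
    UF S N c x = UF S N c x' ∧ WF S N c x = WF S N c x' := by
  have hs := XG4_sA (c := c) N h3 h4
  have hU : UF S N c x = UF S N c x' := by
    unfold UF
    refine prod_congr rfl fun l hl => ?_
    rw [mem_range] at hl
    rw [XG4_ext h1 hl, (hs l).1]
  refine ⟨hU, ?_⟩
  unfold WF
  rw [hU, (hs (S.k - 1)).2,
    XG4_Sm S.k (fun i => (hs i).1) (fun i => (hs i).2) (fun i hi => XG4_ext h1 hi)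
      fun i hi => XG4_ext h2 hi]

private theorem XG4_a (N : ℕ) (x : FF S → ℕ) (v : ℕ) :
    UF S N c (Function.update x (aF S) v) = UF S N c x ∧
      WF S N c (Function.update x (aF S) v) = WF S N c x := by
  classical
  have hne : ∀ f : FF S, f ≠ aF S → Function.update x (aF S) v f = x f :=
    fun f hf => Function.update_of_ne hf _ _
  have h1 : ∀ i : Fin (S.k + 1), i ≠ Fin.last S.k → Sum.inl (Sum.inl i) ≠ aF S := by
    intro i hi h
    unfold aF at h
    exact hi (Sum.inl_injective (Sum.inl_injective h))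
  have h2 : ∀ y, (Sum.inl (Sum.inr y) : FF S) ≠ aF S := by
    intro y h
    unfold aF at h
    exact Sum.inr_ne_inl (Sum.inl_injective h)
  have h3 : ∀ y, (Sum.inr y : FF S) ≠ aF S := by
    intro y h
    unfold aF at h
    exact Sum.inr_ne_inl h
  refine XG4_UW N ?_ ?_ ?_ ?_
  · intro i hi
    exact hne (Sum.inl (Sum.inl i)) (h1 i hi)
  · intro i _
    exact hne (Sum.inr (Sum.inl i)) (h3 _)
  · exact Prod.ext (funext fun f => hne (Sum.inl (Sum.inr (Sum.inl f))) (h2 _))
      (funext fun f => hne (Sum.inl (Sum.inr (Sum.inr f))) (h2 _))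
  · exact Prod.ext (funext fun f => hne (Sum.inr (Sum.inr (Sum.inl f))) (h3 _))
      (funext fun f => hne (Sum.inr (Sum.inr (Sum.inr f))) (h3 _))

private theorem XG4_b (N : ℕ) (x : FF S → ℕ) (v : ℕ) :
    UF S N c (Function.update x (bF S) v) = UF S N c x ∧
      WF S N c (Function.update x (bF S) v) = WF S N c x := by
  classical
  have hne : ∀ f : FF S, f ≠ bF S → Function.update x (bF S) v f = x f :=
    fun f hf => Function.update_of_ne hf _ _
  have h1 : ∀ i : Fin (S.k + 1), i ≠ Fin.last S.k → Sum.inr (Sum.inl i) ≠ bF S := by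
    intro i hi h
    unfold bF at h
    exact hi (Sum.inl_injective (Sum.inr_injective h))
  have h2 : ∀ y, (Sum.inr (Sum.inr y) : FF S) ≠ bF S := by
    intro y h
    unfold bF at h
    exact Sum.inr_ne_inl (Sum.inr_injective h)
  have h3 : ∀ y, (Sum.inl y : FF S) ≠ bF S := by
    intro y h
    unfold bF at h
    exact Sum.inl_ne_inr h
  refine XG4_UW N ?_ ?_ ?_ ?_
  · intro i _
    exact hne (Sum.inl (Sum.inl i)) (h3 _)
  · intro i hi
    exact hne (Sum.inr (Sum.inl i)) (h1 i hi)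
  · exact Prod.ext (funext fun f => hne (Sum.inl (Sum.inr (Sum.inl f))) (h3 _))
      (funext fun f => hne (Sum.inl (Sum.inr (Sum.inr f))) (h3 _))
  · exact Prod.ext (funext fun f => hne (Sum.inr (Sum.inr (Sum.inl f))) (h2 _))
      (funext fun f => hne (Sum.inr (Sum.inr (Sum.inr f))) (h2 _))

private theorem XG4_to (x : FF S → ℕ) : toF S (ofX S x) (ofY S x) = x := by
  funext f
  rcases f with (i | f | e) | (i | f | e) <;> rfl

theorem prod_toF : ∏ f, toF S μ ν f = S.prX id μ * S.prY id ν := by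
  rw [Fintype.prod_sum_type, Fintype.prod_sum_type, Fintype.prod_sum_type, Fintype.prod_sum_type,
    Fintype.prod_sum_type]
  unfold Pool.Agent.Lib.TC.MS.prX Pool.Agent.Lib.TC.MS.prY toF
  simp only [Sum.elim_inl, Sum.elim_inr, id]
  ring

theorem toF_mem (hμ : μ ∈ S.MX) (hν : ν ∈ S.MY) : toF S μ ν ∈ Fintype.piFinset (BF S) := by
  unfold Pool.Agent.Lib.TC.MS.MX at hμ
  unfold Pool.Agent.Lib.TC.MS.MY at hν
  rw [mem_product, mem_product, Fintype.mem_piFinset, Fintype.mem_piFinset, Fintype.mem_piFinset] at hμ hν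
  rw [Fintype.mem_piFinset]
  rintro ((i | f | e) | (i | f | e))
  · exact hμ.1 i
  · exact hμ.2.1 f
  · exact hμ.2.2 e
  · exact hν.1 i
  · exact hν.2.1 f
  · exact hν.2.2 e

private theorem XG4_of {x : FF S → ℕ} (hx : x ∈ Fintype.piFinset (BF S)) :
    ofX S x ∈ S.MX ∧ ofY S x ∈ S.MY := by
  rw [Fintype.mem_piFinset] at hx
  unfold Pool.Agent.Lib.TC.MS.MX Pool.Agent.Lib.TC.MS.MY
  rw [mem_product, mem_product, Fintype.mem_piFinset, Fintype.mem_piFinset, Fintype.mem_piFinset,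
    mem_product, mem_product, Fintype.mem_piFinset, Fintype.mem_piFinset, Fintype.mem_piFinset]
  exact ⟨⟨fun i => hx (Sum.inl (Sum.inl i)), fun f => hx (Sum.inl (Sum.inr (Sum.inl f))),
    fun e => hx (Sum.inl (Sum.inr (Sum.inr e)))⟩, ⟨fun i => hx (Sum.inr (Sum.inl i)),
    fun f => hx (Sum.inr (Sum.inr (Sum.inl f))), fun e => hx (Sum.inr (Sum.inr (Sum.inr e)))⟩⟩

theorem toF_inj {μ' : S.TX} {ν' : S.TY} (h : toF S μ ν = toF S μ' ν') : μ = μ' ∧ ν = ν' := by
  constructor
  · have h1 : ofX S (toF S μ ν) = ofX S (toF S μ' ν') := congrArg (ofX S) h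
    exact h1
  · have h1 : ofY S (toF S μ ν) = ofY S (toF S μ' ν') := congrArg (ofY S) h
    exact h1

theorem aok (h : XOK S T Wf Z Cc e1 e2) (hc : c ∈ S.CC) :
    AOK (BF S) (aF S) (bF S) (UF S T.N c) (WF S T.N c) Z T.y0 (4 * (S.k + 1)) := by
  classical
  have hU : ∀ x ∈ Fintype.piFinset (BF S), 0 < UF S T.N c x ∧ UF S T.N c x ≤ Z := by
    intro x hx
    obtain ⟨hμ, hν⟩ := XG4_of hx
    obtain ⟨p1, p2, p3, p4, -⟩ := marks_pos h hμ hν c
    constructor
    · unfold UF
      refine prod_pos fun l _ => ?_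
      exact_mod_cast Nat.mul_pos (p1 l) (p3 l)
    · have h1 := h.ZU c hc _ hμ _ hν
      unfold UF
      exact_mod_cast h1
  refine
    { ab := ?_
      Z1 := ?_
      pr := ?_
      sum := ?_
      card := ?_
      Ba := ?_
      Bb := ?_
      Ua := fun x v => XG4_a T.N x v
      Ub := fun x v => XG4_b T.N x v
      Upos := hU
      Udvd := ?_
      Spos := ?_ }
  · unfold aF bF
    exact Sum.inl_ne_inr
  · have hN : (0 : ℝ) < T.N := by
      have := h.N2
      have h1 : 0 < T.N := by omega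
      exact_mod_cast h1
    have h1 : (0 : ℝ) < Z := (Real.rpow_pos_of_pos hN e1).trans_le h.Zlo
    exact_mod_cast h1
  · rintro ((i | f | e) | (i | f | e)) p hp
    · have := h.WX_mem i p hp
      exact ⟨this.1, this.2.2⟩
    · have := h.FX_mem f p hp
      exact ⟨this.1, this.2.2⟩
    · have := h.OX_mem e p hp
      exact ⟨this.1, this.2.2⟩
    · have := h.WY_mem i p hp
      exact ⟨this.1, this.2.2⟩
    · have := h.FY_mem f p hp
      exact ⟨this.1, this.2.2⟩
    · have := h.OY_mem e p hp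
      exact ⟨this.1, this.2.2⟩
  · rintro ((i | f | e) | (i | f | e))
    · exact h.WX_s i
    · exact h.FX_s f
    · exact h.OX_s e
    · exact h.WY_s i
    · exact h.FY_s f
    · exact h.OY_s e
  · have h1 : Fintype.card (FF S) = 2 * (S.k + 1) + 2 * S.n0 + S.nX + S.nY := by
      simp only [Fintype.card_sum, Fintype.card_fin]
      ring
    rw [h1]
    exact h.card
  · exact fun p hp => h.WXk p hp
  · exact fun p hp => h.WYk p hp
  · intro x
    set x' := Function.update x (aF S) 1 with hx'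
    have e1 : UF S T.N c x = UF S T.N c x' := (XG4_a T.N x 1).1.symm
    have e2 : ∏ f ∈ univ.erase (aF S), (x f : ℤ) = ∏ f, (x' f : ℤ) := by
      rw [← mul_prod_erase univ (fun f => (x' f : ℤ)) (mem_univ (aF S))]
      have h1 : x' (aF S) = 1 := Function.update_self _ _ _
      rw [h1, Nat.cast_one, one_mul]
      refine prod_congr rfl fun f hf => ?_
      rw [hx', Function.update_of_ne (ne_of_mem_erase hf)]
    have e3 : ∏ f, (x' f : ℤ) = ((S.prX id (ofX S x') * S.prY id (ofY S x') : ℕ) : ℤ) := by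
      rw [← prod_toF, XG4_to]
      push_cast
      rfl
    rw [e1, e2, e3]
    have e4 : UF S T.N c x' = ((∏ l ∈ range S.k,
        (ext1 (ofX S x').1 l * sA S T.N c (ofX S x') (ofY S x') l) : ℕ) : ℤ) := by
      unfold UF
      push_cast
      rfl
    rw [e4, Int.natCast_dvd_natCast]
    refine Dvd.dvd.mul_right ?_ _
    rw [prX_eq S T.N c (ofX S x') (ofY S x'), prod_mul_distrib, prod_range_succ, prod_range_succ]
    exact Nat.mul_dvd_mul (Nat.dvd_mul_right _ _) (Nat.dvd_mul_right _ _)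
  · intro x hx
    obtain ⟨hμ, hν⟩ := XG4_of hx
    obtain ⟨p1, p2, p3, p4, -⟩ := marks_pos h hμ hν c
    have hSI := SI_eq h hμ hν c
    obtain ⟨b1, b2⟩ := SI_bd h hμ hν hc
    rw [XG4_to] at hSI
    have ea : ext1 (ofX S x).1 S.k = x (aF S) := XG4_last _
    have eb : ext1 (ofY S x).1 S.k = x (bF S) := XG4_last _
    rw [ea, eb] at hSI
    rw [ea] at b1 b2
    have hSF : SF (aF S) (bF S) (UF S T.N c) (WF S T.N c) x = (S.SI T.N c (ofX S x) (ofY S x) : ℤ) := by
      rw [hSI]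
      rfl
    have hUN : UF S T.N c x = ((∏ l ∈ range S.k,
        (ext1 (ofX S x).1 l * sA S T.N c (ofX S x) (ofY S x) l) : ℕ) : ℤ) := by
      unfold UF
      push_cast
      rfl
    set UN : ℕ := ∏ l ∈ range S.k, (ext1 (ofX S x).1 l * sA S T.N c (ofX S x) (ofY S x) l) with hUNd
    have hUN0 : 0 < UN := prod_pos fun l _ => Nat.mul_pos (p1 l) (p3 l)
    have hxa : x (aF S) ≤ 4 * Z ∧ 0 < x (aF S) := by
      have h1 := h.WXk _ (Fintype.mem_piFinset.1 hx (aF S))
      exact ⟨h1.2, by omega⟩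
    rw [hSF, hUN]
    constructor
    · have h1 : 0 < x (aF S) * UN := Nat.mul_pos hxa.2 hUN0
      have h2 : 0 < S.SI T.N c (ofX S x) (ofY S x) := by omega
      exact_mod_cast h2
    · have h1 : S.SI T.N c (ofX S x) (ofY S x) ≤ 4 * (S.k + 1) * Z * UN := by
        refine b1.trans ?_
        calc (S.k + 1) * (x (aF S) * UN) ≤ (S.k + 1) * ((4 * Z) * UN) :=
              Nat.mul_le_mul_left _ (Nat.mul_le_mul_right _ hxa.1)
          _ = 4 * (S.k + 1) * Z * UN := by ring
      exact_mod_cast h1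

theorem PF_of (h : XOK S T Wf Z Cc e1 e2) (hμ : μ ∈ S.MX) (hν : ν ∈ S.MY) (ha : Adm S T c μ ν) :
    PF (aF S) (bF S) (UF S T.N c) (WF S T.N c) (toF S μ ν) ∧
      SF (aF S) (bF S) (UF S T.N c) (WF S T.N c) (toF S μ ν) = (S.SI T.N c μ ν : ℤ) := by
  classical
  obtain ⟨-, -, -, hcop, hXY⟩ := adm_facts h hμ hν ha
  have hSF : SF (aF S) (bF S) (UF S T.N c) (WF S T.N c) (toF S μ ν) = (S.SI T.N c μ ν : ℤ) := by
    rw [SI_eq h hμ hν c, XG4_last, XG4_last]
    rfl
  refine ⟨⟨?_, ?_⟩, hSF⟩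
  · have hdX := h.disX μ hμ
    have hdY := h.disY ν hν
    have hprod := prod_toF (μ := μ) (ν := ν)
    -- every entry of the `X` part divides `prX`
    have hX : ∀ f : Fin (S.k + 1) ⊕ (Fin S.n0 ⊕ Fin S.nX),
        Sum.elim μ.1 (Sum.elim μ.2.1 μ.2.2) f ∣ S.prX id μ := by
      unfold Pool.Agent.Lib.TC.MS.prX
      rintro (i | f | e)
      · exact Dvd.dvd.mul_right (Dvd.dvd.mul_right (dvd_prod_of_mem (fun i => id (μ.1 i)) (mem_univ i)) _) _
      · exact Dvd.dvd.mul_right (Dvd.dvd.mul_left (dvd_prod_of_mem (fun i => id (μ.2.1 i)) (mem_univ f)) _) _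
      · exact Dvd.dvd.mul_left (dvd_prod_of_mem (fun i => id (μ.2.2 i)) (mem_univ e)) _
    have hY : ∀ f : Fin (S.k + 1) ⊕ (Fin S.n0 ⊕ Fin S.nY),
        Sum.elim ν.1 (Sum.elim ν.2.1 ν.2.2) f ∣ S.prY id ν := by
      unfold Pool.Agent.Lib.TC.MS.prY
      rintro (i | f | e)
      · exact Dvd.dvd.mul_right (Dvd.dvd.mul_right (dvd_prod_of_mem (fun i => id (ν.1 i)) (mem_univ i)) _) _
      · exact Dvd.dvd.mul_right (Dvd.dvd.mul_left (dvd_prod_of_mem (fun i => id (ν.2.1 i)) (mem_univ f)) _) _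
      · exact Dvd.dvd.mul_left (dvd_prod_of_mem (fun i => id (ν.2.2 i)) (mem_univ e)) _
    have hmem := Fintype.mem_piFinset.1 (toF_mem hμ hν)
    have hpr : ∀ f : FF S, (toF S μ ν f).Prime := by
      rintro ((i | f | e) | (i | f | e))
      · exact (h.WX_mem i _ (hmem (Sum.inl (Sum.inl i)))).1
      · exact (h.FX_mem f _ (hmem (Sum.inl (Sum.inr (Sum.inl f))))).1
      · exact (h.OX_mem e _ (hmem (Sum.inl (Sum.inr (Sum.inr e))))).1
      · exact (h.WY_mem i _ (hmem (Sum.inr (Sum.inl i)))).1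
      · exact (h.FY_mem f _ (hmem (Sum.inr (Sum.inr (Sum.inl f))))).1
      · exact (h.OY_mem e _ (hmem (Sum.inr (Sum.inr (Sum.inr e))))).1
    have hcross : ∀ f g, toF S μ ν (Sum.inl f) ≠ toF S μ ν (Sum.inr g) := by
      intro f g heq
      have h1 : toF S μ ν (Sum.inl f) ∣ S.prX id μ := hX f
      have h2 : toF S μ ν (Sum.inr g) ∣ S.prY id ν := hY g
      rw [← heq] at h2
      have h3 := Nat.dvd_gcd h1 h2
      rw [hXY] at h3
      exact (hpr (Sum.inl f)).one_lt.ne' (Nat.dvd_one.1 h3)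
    rintro (f | f) (g | g) heq
    · exact congrArg Sum.inl (hdX heq)
    · exact absurd heq (hcross f g)
    · exact absurd heq.symm (hcross g f)
    · exact congrArg Sum.inr (hdY heq)
  · rw [hSF]
    have h1 : ∏ f, (toF S μ ν f : ℤ) = ((S.prX id μ * S.prY id ν : ℕ) : ℤ) := by
      rw [← prod_toF]
      push_cast
      rfl
    rw [h1]
    exact Nat.isCoprime_iff_coprime.2 hcop

end Pool.Agent.Lib.TE
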