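import Pool.Agent.Lib.MP_7b7e48_nt.TE.XG4
import Pool.Agent.Lib.MP_7b7e48_nt.TE.XA5
import Pool.Agent.Lib.MP_7b7e48_nt.TE.XA6

/-!
# Module XG5 (75 minutes): (W1) and (W2) for the marks

PROOF. `1/MP ≤ 4 D/(prX prY) = 4 D wF (toF μ ν)` (`MP_low`, `prod_toF`). The sum over the pairs `(μ, ν)` is at most the sum over `x = toF μ ν ∈ piFinset (BF S)` (injective: `toF_inj`, `toF_mem`) with `PF` (`PF_of`) and the conditions of `MP_split` (for `j1 ∣ SI`: `SF = SI`; casts to `ℤ`): `w1_abs` resp. `w2a_abs + w2b_abs` (`aok`).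
`wsum`: `core_0` with `S = ∅` (or `Finset.prod_univ_sum`): `∑ 1/(prX prY) ≤ 1`, so `#(MX × MY) ≤ N^e2` (`small`).
-/

set_option autoImplicit false

open Finset
open Pool.Agent.Lib.TC (MS Dat ext1 Sm Cyc)

namespace Pool.Agent.Lib.TE

variable {S : MS} {T : Dat} {Wf Z Cc : ℕ} {e1 e2 : ℝ} {c : S.Col}

private theorem XG5_pr (h : XOK S T Wf Z Cc e1 e2) : ∀ f : FF S, ∀ p ∈ BF S f, p.Prime := by
  intro f p hp
  rcases f with (i | i | i) | (i | i | i)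
  · exact (h.WX_mem i p hp).1
  · exact (h.FX_mem i p hp).1
  · exact (h.OX_mem i p hp).1
  · exact (h.WY_mem i p hp).1
  · exact (h.FY_mem i p hp).1
  · exact (h.OY_mem i p hp).1

private theorem XG5_s (h : XOK S T Wf Z Cc e1 e2) : ∀ f : FF S, ∑ p ∈ BF S f, 1 / (p : ℝ) ≤ 1 := by
  intro f
  rcases f with (i | i | i) | (i | i | i)
  · exact h.WX_s i
  · exact h.FX_s i
  · exact h.OX_s i
  · exact h.WY_s i
  · exact h.FY_s i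
  · exact h.OY_s i

private theorem XG5_pos (h : XOK S T Wf Z Cc e1 e2) {μ : S.TX} {ν : S.TY} (hμ : μ ∈ S.MX) (hν : ν ∈ S.MY) :
    0 < S.prX id μ * S.prY id ν := by
  rw [← prod_toF]
  exact prod_pos fun f _ => (XG5_pr h f _ (Fintype.mem_piFinset.1 (toF_mem hμ hν) f)).pos

private theorem XG5_wF (μ : S.TX) (ν : S.TY) :
    wF (toF S μ ν) = 1 / ((S.prX id μ * S.prY id ν : ℕ) : ℝ) := by
  unfold wF
  rw [prod_div_distrib, prod_const_one, ← prod_toF, Nat.cast_prod]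

private theorem XG5_wF0 (x : FF S → ℕ) : 0 ≤ wF x := by
  unfold wF
  exact prod_nonneg fun f _ => by positivity

private theorem XG5_sum (Q : S.TX × S.TY → Prop) (P : (FF S → ℕ) → Prop) {dQ : DecidablePred Q} {dP : DecidablePred P}
    (hPQ : ∀ μ ∈ S.MX, ∀ ν ∈ S.MY, Q (μ, ν) → P (toF S μ ν)) :
    ∑ w ∈ (S.MX ×ˢ S.MY).filter Q, wF (toF S w.1 w.2) ≤
      ∑ x ∈ (Fintype.piFinset (BF S)).filter P, wF x := by
  classical
  have hinj : Set.InjOn (fun w : S.TX × S.TY => toF S w.1 w.2) ((S.MX ×ˢ S.MY).filter Q) := by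
    intro w _ w' _ hw
    have h1 := toF_inj hw
    exact Prod.ext h1.1 h1.2
  rw [← sum_image (f := fun x : FF S → ℕ => wF x) hinj]
  refine sum_le_sum_of_subset_of_nonneg ?_ fun x _ _ => XG5_wF0 x
  intro x hx
  obtain ⟨w, hw, rfl⟩ := mem_image.1 hx
  obtain ⟨h1, h2⟩ := mem_filter.1 hw
  obtain ⟨h3, h4⟩ := mem_product.1 h1
  exact mem_filter.2 ⟨toF_mem h3 h4, hPQ w.1 h3 w.2 h4 h2⟩

private theorem XG5_tr (h : XOK S T Wf Z Cc e1 e2) (b : Bool) (i : ℕ) (hi : i ≤ S.k)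
    (Q : S.TX × S.TY → Prop) (P : (FF S → ℕ) → Prop)
    {dQ : DecidablePred fun w : S.TX × S.TY => Adm S T c w.1 w.2 ∧ Q w} {dP : DecidablePred P}
    (hPQ : ∀ μ ∈ S.MX, ∀ ν ∈ S.MY, Adm S T c μ ν → Q (μ, ν) → P (toF S μ ν)) :
    ∑ w ∈ (S.MX ×ˢ S.MY).filter (fun w => Adm S T c w.1 w.2 ∧ Q w), 1 / (MP S T b i c w.1 w.2 : ℝ) ≤
      4 * T.D * ∑ x ∈ (Fintype.piFinset (BF S)).filter P, wF x := by
  have h1 : ∀ w ∈ (S.MX ×ˢ S.MY).filter (fun w => Adm S T c w.1 w.2 ∧ Q w),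
      1 / (MP S T b i c w.1 w.2 : ℝ) ≤ 4 * T.D * wF (toF S w.1 w.2) := by
    intro w hw
    obtain ⟨h2, h3, -⟩ := mem_filter.1 hw
    obtain ⟨h4, h5⟩ := mem_product.1 h2
    have h6 := MP_low h h4 h5 h3 b i hi
    have h7 := (MP_up h h4 h5 h3 b i hi).1
    have h8 := XG5_pos h h4 h5
    rw [XG5_wF]
    have h9 : (0 : ℝ) < (MP S T b i c w.1 w.2 : ℝ) := by exact_mod_cast h7
    have h10 : (0 : ℝ) < ((S.prX id w.1 * S.prY id w.2 : ℕ) : ℝ) := by exact_mod_cast h8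
    have h11 : ((S.prX id w.1 * S.prY id w.2 : ℕ) : ℝ) ≤ 4 * T.D * (MP S T b i c w.1 w.2 : ℝ) := by
      exact_mod_cast h6
    rw [mul_one_div, div_le_div_iff₀ h9 h10, one_mul]
    exact h11
  refine (sum_le_sum h1).trans ?_
  rw [← mul_sum]
  refine mul_le_mul_of_nonneg_left ?_ (by positivity)
  exact XG5_sum (S := S) (fun w => Adm S T c w.1 w.2 ∧ Q w) P fun μ hμ ν hν hq => hPQ μ hμ ν hν hq.1 hq.2

open Classical in
theorem w1_marks (h : XOK S T Wf Z Cc e1 e2) (hc : c ∈ S.CC) (b : Bool) (i : ℕ) (hi : i ≤ S.k) (j : ℕ) (hj : 1 ≤ j) :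
    ∑ w ∈ (S.MX ×ˢ S.MY).filter (fun w => Adm S T c w.1 w.2 ∧ j ∣ MP S T b i c w.1 w.2), 1 / (MP S T b i c w.1 w.2 : ℝ) ≤
      4 * T.D * ((j.divisors.card : ℝ) * ((j : ℝ) ^ (-(3 / 4) : ℝ) + 2 * (Z : ℝ) ^ (-(3 / 4) : ℝ))) := by
  have h1 := w1_abs (aok h hc) j hj
  refine le_trans (XG5_tr h b i hi (fun w => j ∣ MP S T b i c w.1 w.2)
    (fun x => PF (aF S) (bF S) (UF S T.N c) (WF S T.N c) x ∧ ∃ j1 j2 : ℕ, j1 * j2 = j ∧
      (j1 : ℤ) ∣ SF (aF S) (bF S) (UF S T.N c) (WF S T.N c) x ∧ j2 ∣ ∏ f, x f) ?_)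
    (mul_le_mul_of_nonneg_left h1 (by positivity))
  intro μ hμ ν hν ha hq
  obtain ⟨h2, h3⟩ := PF_of h hμ hν ha
  obtain ⟨j1, j2, h4, h5, h6⟩ := (MP_split h hμ hν ha b i hi j hj).1 hq
  refine ⟨h2, j1, j2, h4, ?_, ?_⟩
  · rw [h3]
    exact_mod_cast h5
  · rw [prod_toF]
    exact h6

open Classical in
theorem w2_marks (h : XOK S T Wf Z Cc e1 e2) (hc : c ∈ S.CC) (b : Bool) (i : ℕ) (hi : i ≤ S.k) (Q : Finset ℕ) (hQ : ∀ q ∈ Q, q.Prime) (σ : ℝ)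
    (hσ : ∑ q ∈ Q, 1 / (q : ℝ) ≤ σ) (j : ℕ) (hj : 1 ≤ j) :
    ∑ w ∈ (S.MX ×ˢ S.MY).filter (fun w => Adm S T c w.1 w.2 ∧ ∃ q ∈ Q, q * j ∣ MP S T b i c w.1 w.2), 1 / (MP S T b i c w.1 w.2 : ℝ) ≤
      4 * T.D * ((j.divisors.card : ℝ) * ((Fintype.card (FF S) + 4 * (S.k + 1)) * σ * ((j : ℝ) ^ (-(3 / 4) : ℝ) + 2 * (Z : ℝ) ^ (-(3 / 4) : ℝ)) +
        (Z : ℝ) ^ (-(3 / 4) : ℝ))) := by
  have hD := h.D0
  have hσ0 : 0 ≤ σ := le_trans (sum_nonneg fun q _ => by positivity) hσ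
  have ha1 := w2a_abs (aok h hc) Q hQ σ hσ j hj
  have hb1 := w2b_abs (aok h hc) Q hQ σ hσ T.D j hD hj
  set Pa : (FF S → ℕ) → Prop := fun x => PF (aF S) (bF S) (UF S T.N c) (WF S T.N c) x ∧
    ∃ q ∈ Q, ∃ j1 j2 : ℕ, j1 * j2 = j ∧ (j1 : ℤ) ∣ SF (aF S) (bF S) (UF S T.N c) (WF S T.N c) x ∧
      q * j2 ∣ ∏ f, x f with hPa
  set Pb : (FF S → ℕ) → Prop := fun x => PF (aF S) (bF S) (UF S T.N c) (WF S T.N c) x ∧
    ∃ q ∈ Q, ∃ j1 j2 : ℕ, j1 * j2 = j ∧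
      ((T.D * (q * j1) : ℕ) : ℤ) ∣ SF (aF S) (bF S) (UF S T.N c) (WF S T.N c) x ∧ j2 ∣ ∏ f, x f with hPb
  have h1 : ∑ x ∈ (Fintype.piFinset (BF S)).filter (fun x => Pa x ∨ Pb x), wF x ≤
      ∑ x ∈ (Fintype.piFinset (BF S)).filter Pa, wF x + ∑ x ∈ (Fintype.piFinset (BF S)).filter Pb, wF x := by
    rw [filter_or]
    have h2 := sum_union_inter (s₁ := (Fintype.piFinset (BF S)).filter Pa)
      (s₂ := (Fintype.piFinset (BF S)).filter Pb) (f := fun x => wF x)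
    have h3 : 0 ≤ ∑ x ∈ (Fintype.piFinset (BF S)).filter Pa ∩ (Fintype.piFinset (BF S)).filter Pb, wF x :=
      sum_nonneg fun x _ => XG5_wF0 x
    linarith
  have hz : (0 : ℝ) ≤ (Z : ℝ) ^ (-(3 / 4) : ℝ) := by positivity
  have hk : (0 : ℝ) ≤ (j.divisors.card : ℝ) * ((4 * ((S.k : ℝ) + 1)) * σ * (2 * (Z : ℝ) ^ (-(3 / 4) : ℝ))) := by
    positivity
  have h9 : ∑ x ∈ (Fintype.piFinset (BF S)).filter (fun x => Pa x ∨ Pb x), wF x ≤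
      (j.divisors.card : ℝ) * ((Fintype.card (FF S) + 4 * (S.k + 1)) * σ *
        ((j : ℝ) ^ (-(3 / 4) : ℝ) + 2 * (Z : ℝ) ^ (-(3 / 4) : ℝ)) + (Z : ℝ) ^ (-(3 / 4) : ℝ)) := by
    refine (h1.trans (add_le_add ha1 hb1)).trans ?_
    push_cast
    linarith
  refine le_trans (XG5_tr h b i hi (fun w => ∃ q ∈ Q, q * j ∣ MP S T b i c w.1 w.2)
    (fun x => Pa x ∨ Pb x) ?_) (mul_le_mul_of_nonneg_left h9 (by positivity))
  intro μ hμ ν hν ha hq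
  obtain ⟨h2, h3⟩ := PF_of h hμ hν ha
  obtain ⟨q, hq1, hq2⟩ := hq
  obtain ⟨j1, j2, h4, h5⟩ := (MP_split h hμ hν ha b i hi j hj).2 q (hQ q hq1) hq2
  rcases h5 with ⟨h5, h6⟩ | ⟨h5, h6⟩
  · left
    refine ⟨h2, q, hq1, j1, j2, h4, ?_, ?_⟩
    · rw [h3]
      exact_mod_cast h5
    · rw [prod_toF]
      exact h6
  · right
    refine ⟨h2, q, hq1, j1, j2, h4, ?_, ?_⟩
    · rw [h3]
      exact_mod_cast h5
    · rw [prod_toF]
      exact h6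

theorem marks_card (h : XOK S T Wf Z Cc e1 e2) : ((S.MX ×ˢ S.MY).card : ℝ) ≤ (T.N : ℝ) ^ e2 := by
  classical
  have hN : (0 : ℝ) < T.N := by
    have := h.N2
    exact_mod_cast (by omega : 0 < T.N)
  have hp : (0 : ℝ) < (T.N : ℝ) ^ e2 := Real.rpow_pos_of_pos hN _
  have h1 : ∑ w ∈ (S.MX ×ˢ S.MY).filter (fun _ => True), wF (toF S w.1 w.2) ≤
      ∑ x ∈ (Fintype.piFinset (BF S)).filter (fun _ => True), wF x :=
    XG5_sum (S := S) (fun _ => True) (fun _ => True) fun μ _ ν _ _ => trivial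
  rw [filter_true, filter_true] at h1
  have h2 : ∑ x ∈ Fintype.piFinset (BF S), wF x ≤ 1 := by
    have h3 : ∑ x ∈ Fintype.piFinset (BF S), wF x = ∏ f, ∑ p ∈ BF S f, 1 / (p : ℝ) := by
      rw [prod_univ_sum]
      rfl
    rw [h3]
    exact prod_le_one (fun f _ => sum_nonneg fun p _ => by positivity) fun f _ => XG5_s h f
  have h3 : ((S.MX ×ˢ S.MY).card : ℝ) * (1 / (T.N : ℝ) ^ e2) ≤
      ∑ w ∈ S.MX ×ˢ S.MY, wF (toF S w.1 w.2) := by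
    rw [← nsmul_eq_mul, ← sum_const]
    refine sum_le_sum fun w hw => ?_
    obtain ⟨h4, h5⟩ := mem_product.1 hw
    rw [XG5_wF]
    have h6 := XG5_pos h h4 h5
    exact one_div_le_one_div_of_le (by exact_mod_cast h6) (h.small w.1 h4 w.2 h5)
  have h4 : ((S.MX ×ˢ S.MY).card : ℝ) * (1 / (T.N : ℝ) ^ e2) ≤ 1 := h3.trans (h1.trans h2)
  rw [mul_one_div, div_le_one hp] at h4
  exact h4

end Pool.Agent.Lib.TE
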