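import Pool.Agent.Lib.MP_7b7e48_nt.TE.XG3

/-!
# Module XM1 (60 minutes): affected pairs of marks and exceptional numbers in progressions

`Aff S T EX XS`: the triples `(X, μ, ν)`, `X ∈ XS`, with a good cycle which has a number of `EX` at some position. `Fam`: the family of all data (position, colouring, pair of tuples which occurs in a good cycle), with modulus `Mx` and class `cx`.
PROOF of `aff_le`. For `(X, μ, ν) ∈ Aff` choose `c, e, t, i` and by `pos_AB` a position `(b, i)`, `i ≤ k`, with `posn b i ∈ EX`; map it to `(x, n)`, `x = (i, b, c, (μ, ν)) ∈ Fam`, `n = posn b i`. `n ≡ cx x` modulo `Mx x` by `pos_modEq` (`cx x` is the number at the position `(b, i)` of one good cycle with the same data). The map is injective: `x` determines `μ, ν, c, b, i`,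
and `n` determines `X` (`pos_inj`). So the number of triples is at most the number of the pairs `(x, n)`.
-/

set_option autoImplicit false

open Finset
open Pool.Agent.Lib.TC (MS Dat ext1 Sm Cyc)

namespace Pool.Agent.Lib.TE

open Classical in
noncomputable def Aff (S : MS) (T : Dat) (EX XS : Finset ℕ) : Finset (ℕ × (S.TX × S.TY)) :=
  (XS ×ˢ (S.MX ×ˢ S.MY)).filter fun y => S.prX id y.2.1 ∣ y.1 ∧ S.prY id y.2.2 ∣ y.1 - T.D * T.N ∧
    ∃ c e t, S.Good T c y.2.1 y.2.2 y.1 e t ∧ ∃ i ≤ S.k, e i * S.AA T.N c y.2.1 y.2.2 y.1 i ∈ EX ∨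
      e i * S.BB T.N c y.2.1 y.2.2 (y.1 - T.D * T.N) i ∈ EX

/-- the data -/
abbrev IX (S : MS) : Type := Fin (S.k + 1) × Bool × S.Col × (S.TX × S.TY)

open Classical in
noncomputable def Fam (S : MS) (T : Dat) : Finset (IX S) :=
  ((univ : Finset (Fin (S.k + 1))) ×ˢ (univ : Finset Bool) ×ˢ S.CC ×ˢ (S.MX ×ˢ S.MY)).filter fun x => Adm S T x.2.2.1 x.2.2.2.1 x.2.2.2.2

noncomputable def Mx (S : MS) (T : Dat) (x : IX S) : ℕ := MP S T x.2.1 x.1 x.2.2.1 x.2.2.2.1 x.2.2.2.2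

open Classical in
noncomputable def cx (S : MS) (T : Dat) (x : IX S) : ℕ :=
  if h : Adm S T x.2.2.1 x.2.2.2.1 x.2.2.2.2 then posn S T x.2.1 x.1 x.2.2.2.1 x.2.2.2.2 h.choose_spec.choose_spec.choose else 0

open Classical in
theorem aff_le {S : MS} {T : Dat} {Wf Z Cc : ℕ} {e1 e2 : ℝ} (h : XOK S T Wf Z Cc e1 e2) (EX XS : Finset ℕ) :
    ((Aff S T EX XS).card : ℝ) ≤ ∑ x ∈ Fam S T, ((EX.filter fun n => n ≡ cx S T x [MOD Mx S T x]).card : ℝ) := by
  have hA : ∀ y ∈ Aff S T EX XS, y.2.1 ∈ S.MX ∧ y.2.2 ∈ S.MY ∧ S.prX id y.2.1 ∣ y.1 ∧ S.prY id y.2.2 ∣ y.1 - T.D * T.N ∧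
      ∃ c e t, S.Good T c y.2.1 y.2.2 y.1 e t ∧ ∃ b : Bool, ∃ j ≤ S.k, posn S T b j y.2.1 y.2.2 t ∈ EX := by
    intro y hy
    unfold Aff at hy
    rw [mem_filter, mem_product, mem_product] at hy
    obtain ⟨⟨-, hμ, hν⟩, hX, hY, c, e, t, g, i, hi, hor⟩ := hy
    refine ⟨hμ, hν, hX, hY, c, e, t, g, ?_⟩
    obtain ⟨pA, pB⟩ := pos_AB g i hi
    rcases hor with h1 | h1
    · exact ⟨true, i, hi, by rw [← pA]; exact h1⟩
    · refine ⟨false, (i + 1) % (S.k + 1), Nat.lt_succ_iff.1 (Nat.mod_lt (i + 1) (Nat.succ_pos S.k)), by rw [← pB]; exact h1⟩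
  rw [← Nat.cast_sum, Nat.cast_le, ← Finset.card_sigma]
  refine Finset.card_le_card_of_forall_subsingleton (fun y z => z.1.2.2.2 = y.2 ∧
    ∃ e t, S.Good T z.1.2.2.1 y.2.1 y.2.2 y.1 e t ∧ z.2 = posn S T z.1.2.1 z.1.1 y.2.1 y.2.2 t) ?_ ?_
  · intro y hy
    obtain ⟨hμ, hν, hX, hY, c, e, t, g, b, j, hj, hE⟩ := hA y hy
    have hadm : Adm S T c y.2.1 y.2.2 := ⟨y.1, e, t, g, hX, hY⟩
    refine ⟨⟨(⟨j, by omega⟩, b, c, y.2), posn S T b j y.2.1 y.2.2 t⟩, ?_, rfl, e, t, g, rfl⟩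
    rw [mem_sigma, mem_filter]
    refine ⟨?_, hE, ?_⟩
    · unfold Fam
      rw [mem_filter, mem_product, mem_product, mem_product]
      exact ⟨⟨mem_univ _, mem_univ _, g.col, mem_product.2 ⟨hμ, hν⟩⟩, hadm⟩
    · unfold cx
      rw [dif_pos hadm]
      obtain ⟨g0, hX0, hY0⟩ := hadm.choose_spec.choose_spec.choose_spec
      exact pos_modEq h hμ hν g hX hY g0 hX0 hY0 b j hj
  · rintro z - y ⟨hy, hy2, e, t, g, hn⟩ y' ⟨hy', hy2', e', t', g', hn'⟩
    obtain ⟨hμ, hν, -⟩ := hA y hy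
    have h2 : y.2 = y'.2 := hy2.symm.trans hy2'
    rw [← h2] at g' hn'
    refine Prod.ext ?_ h2
    exact pos_inj h hμ hν g g' z.1.2.1 z.1.1 (Nat.lt_succ_iff.1 z.1.1.isLt) (hn.symm.trans hn')

end Pool.Agent.Lib.TE
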