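import Pool.Agent.Lib.MP_7b7e48_nt.TE.XM1
import Pool.Agent.Lib.MP_7b7e48_nt.TE.XG5

/-!
# Module XM2 (75 minutes): the hypotheses of `ee_lam`, `ee_c` for the family `Fam`

`K = log N`, `N = T.N`. PROOF. Sum of `w1_marks` over the `2 (k+1) #CC ≤ 2 K K^Cc` triples `(i, b, c)`: `≤ 8 K^(2 Cc + 1) τ(j) (j^(-3/4) + 2 Z^(-3/4))` (`D ≤ K^Cc`). `τ(j) ≤ C j^(1/4)` and `τ(j) ≤ C' N^(e1/4)` for `j ≤ N` (`RG.divisor_bound`), `Z^(-3/4) ≤ N^(-3 e1/4)`; for `j > N` the sum is empty (`MP_up`, `small`, `e2 ≤ 1/8001`: `MP ≤ K N^(2/8001) ≤ N^(1/2000)`).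
`fam_w2`: a prime `q ∣ Mx` divides `ek` or a mark, so `q > y` and `q ≤ N^(1/2000) ≤ ⌊N^(4/5)⌋` (`MP_cop` with the argument for `ek`: it divides an admissible number; marks are `> y0 ≥ y`), so `q ∈ Q := (QP f ⌊N^(4/5)⌋).filter (y < ·)`; `w2_marks` with this `Q`; `card F + 4 (k+1) ≤ 5 K` (`num`), `τ(j) Z^(-3/4) ≤ N^(-5 e1/8) ≤ σ N^(-e1/2)` as `σ ≥ N^(-e1/8)`.
`fam_facts`: `MP_up`, `MP_cop`, `marks_card`.
-/

set_option autoImplicit false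

open Finset
open Pool.Agent.Lib.TC (MS Dat ext1 Sm Cyc)
open Pool.Agent.Lib.OW (QP)

namespace Pool.Agent.Lib.TE

open Classical in
/-- the sum over the family as an iterated sum -/
private theorem XM2_sum (S : MS) (T : Dat) (P : ℕ → Prop) {B : ℝ}
    (h : ∀ c ∈ S.CC, ∀ b : Bool, ∀ i ≤ S.k,
      ∑ w ∈ (S.MX ×ˢ S.MY).filter (fun w => Adm S T c w.1 w.2 ∧ P (MP S T b i c w.1 w.2)), 1 / (MP S T b i c w.1 w.2 : ℝ) ≤ B) :
    ∑ x ∈ (Fam S T).filter (fun x => P (Mx S T x)), 1 / (Mx S T x : ℝ) ≤ ((S.k + 1 : ℕ) : ℝ) * (2 * (S.CC.card * B)) := by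
  rw [Fam, filter_filter, sum_filter, sum_product]
  calc ∑ i : Fin (S.k + 1), ∑ y ∈ (univ : Finset Bool) ×ˢ S.CC ×ˢ (S.MX ×ˢ S.MY),
        (if Adm S T (i, y).2.2.1 (i, y).2.2.2.1 (i, y).2.2.2.2 ∧ P (Mx S T (i, y)) then 1 / (Mx S T (i, y) : ℝ) else 0)
      ≤ ∑ _i : Fin (S.k + 1), (2 * (S.CC.card * B)) := by
        refine sum_le_sum fun i _ => ?_
        rw [sum_product]
        calc ∑ b : Bool, ∑ y ∈ S.CC ×ˢ (S.MX ×ˢ S.MY),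
              (if Adm S T (i, b, y).2.2.1 (i, b, y).2.2.2.1 (i, b, y).2.2.2.2 ∧ P (Mx S T (i, b, y)) then 1 / (Mx S T (i, b, y) : ℝ) else 0)
            ≤ ∑ _b : Bool, (S.CC.card * B) := by
              refine sum_le_sum fun b _ => ?_
              rw [sum_product]
              calc ∑ c ∈ S.CC, ∑ w ∈ S.MX ×ˢ S.MY,
                    (if Adm S T (i, b, c, w).2.2.1 (i, b, c, w).2.2.2.1 (i, b, c, w).2.2.2.2 ∧ P (Mx S T (i, b, c, w)) then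
                      1 / (Mx S T (i, b, c, w) : ℝ) else 0)
                  ≤ ∑ _c ∈ S.CC, B := by
                    refine sum_le_sum fun c hc => ?_
                    have h1 := h c hc b i (by omega)
                    rw [sum_filter] at h1
                    exact h1
                _ = S.CC.card * B := by rw [sum_const, nsmul_eq_mul]
          _ = 2 * (S.CC.card * B) := by
              rw [sum_const, card_univ, Fintype.card_bool, nsmul_eq_mul]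
              norm_num
    _ = ((S.k + 1 : ℕ) : ℝ) * (2 * (S.CC.card * B)) := by
        rw [sum_const, card_univ, Fintype.card_fin, nsmul_eq_mul]

open Classical in
private theorem XM2_mem {S : MS} {T : Dat} {x : IX S} (hx : x ∈ Fam S T) :
    x.2.2.1 ∈ S.CC ∧ x.2.2.2.1 ∈ S.MX ∧ x.2.2.2.2 ∈ S.MY ∧ (x.1 : ℕ) ≤ S.k ∧ Adm S T x.2.2.1 x.2.2.2.1 x.2.2.2.2 := by
  rw [Fam, mem_filter, mem_product, mem_product, mem_product, mem_product] at hx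
  exact ⟨hx.1.2.2.1, hx.1.2.2.2.1, hx.1.2.2.2.2, Nat.lt_succ_iff.1 x.1.2, hx.2⟩

private theorem XM2_k {S : MS} {T : Dat} {Wf Z Cc : ℕ} {e1 e2 : ℝ} (h : XOK S T Wf Z Cc e1 e2) :
    2 * (((S.k + 1 : ℕ) : ℝ)) ≤ Real.log T.N := by
  have h1 := h.num
  push_cast at h1 ⊢
  have h2 : (0 : ℝ) ≤ S.n0 := Nat.cast_nonneg _
  have h3 : (0 : ℝ) ≤ S.nX := Nat.cast_nonneg _
  have h4 : (0 : ℝ) ≤ S.nY := Nat.cast_nonneg _
  linarith

/-- the logarithm exceeds a constant -/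
private theorem XM2_log (C : ℝ) : ∃ N0 : ℕ, ∀ N : ℕ, N0 ≤ N → C ≤ Real.log N := by
  have h := (Real.tendsto_log_atTop.comp tendsto_natCast_atTop_atTop).eventually_ge_atTop C
  obtain ⟨N0, hN0⟩ := Filter.eventually_atTop.1 h
  exact ⟨N0, fun N hN => hN0 N hN⟩

/-- the logarithm is smaller than a power -/
private theorem XM2_pow {e : ℝ} (he : 0 < e) : ∃ N0 : ℕ, ∀ N : ℕ, N0 ≤ N → Real.log N ≤ (N : ℝ) ^ e := by
  have h := (isLittleO_log_rpow_atTop he).bound (zero_lt_one' ℝ)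
  have h2 := tendsto_natCast_atTop_atTop.eventually h
  obtain ⟨N0, hN0⟩ := Filter.eventually_atTop.1 h2
  refine ⟨max N0 1, fun N hN => ?_⟩
  have h3 := hN0 N (le_trans (le_max_left _ _) hN)
  rw [one_mul, Real.norm_eq_abs, Real.norm_eq_abs] at h3
  have h4 : 0 ≤ (N : ℝ) ^ e := Real.rpow_nonneg (Nat.cast_nonneg _) _
  rw [abs_of_nonneg h4] at h3
  exact (le_abs_self _).trans h3

/-- the divisor function against the savings -/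
private theorem XM2_tau {e1 : ℝ} (he1 : 0 < e1) : ∃ C : ℝ, 1 ≤ C ∧ ∀ N Z j : ℕ, 1 ≤ N → 1 ≤ j → j ≤ N → (N : ℝ) ^ e1 ≤ Z →
    (j.divisors.card : ℝ) * (j : ℝ) ^ (-(3 / 4) : ℝ) ≤ C * (j : ℝ) ^ (-(1 / 2) : ℝ) ∧
    (j.divisors.card : ℝ) * (Z : ℝ) ^ (-(3 / 4) : ℝ) ≤ C * ((N : ℝ) ^ (-(e1 / 8)) * (N : ℝ) ^ (-(e1 / 2))) := by
  obtain ⟨C1, hC1, h1⟩ := Pool.Agent.Lib.RG.divisor_bound (1 / 4) (by norm_num)
  obtain ⟨C2, hC2, h2⟩ := Pool.Agent.Lib.RG.divisor_bound (e1 / 8) (by positivity)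
  refine ⟨max C1 C2, le_trans hC1 (le_max_left _ _), fun N Z j hN hj hjN hZ => ⟨?_, ?_⟩⟩
  · have hj0 : (0 : ℝ) < j := by exact_mod_cast hj
    calc (j.divisors.card : ℝ) * (j : ℝ) ^ (-(3 / 4) : ℝ) ≤ (C1 * (j : ℝ) ^ (1 / 4 : ℝ)) * (j : ℝ) ^ (-(3 / 4) : ℝ) :=
          mul_le_mul_of_nonneg_right (h1 j hj) (Real.rpow_nonneg hj0.le _)
      _ = C1 * (j : ℝ) ^ (-(1 / 2) : ℝ) := by
          rw [mul_assoc, ← Real.rpow_add hj0]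
          norm_num
      _ ≤ max C1 C2 * (j : ℝ) ^ (-(1 / 2) : ℝ) :=
          mul_le_mul_of_nonneg_right (le_max_left _ _) (Real.rpow_nonneg hj0.le _)
  · have hN0 : (0 : ℝ) < N := by exact_mod_cast hN
    have hj0 : (0 : ℝ) ≤ j := Nat.cast_nonneg _
    have hNe : (0 : ℝ) < (N : ℝ) ^ e1 := Real.rpow_pos_of_pos hN0 _
    have hZ0 : (0 : ℝ) ≤ (Z : ℝ) ^ (-(3 / 4) : ℝ) := Real.rpow_nonneg (Nat.cast_nonneg _) _
    have h3 : (Z : ℝ) ^ (-(3 / 4) : ℝ) ≤ (N : ℝ) ^ (-(3 * e1 / 4)) := by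
      calc (Z : ℝ) ^ (-(3 / 4) : ℝ) ≤ ((N : ℝ) ^ e1) ^ (-(3 / 4) : ℝ) :=
            Real.rpow_le_rpow_of_nonpos hNe hZ (by norm_num)
        _ = (N : ℝ) ^ (-(3 * e1 / 4)) := by
            rw [← Real.rpow_mul hN0.le]
            congr 1
            ring
    have h4 : (j.divisors.card : ℝ) ≤ C2 * (N : ℝ) ^ (e1 / 8) := by
      refine (h2 j hj).trans (mul_le_mul_of_nonneg_left ?_ (by linarith))
      exact Real.rpow_le_rpow hj0 (by exact_mod_cast hjN) (by positivity)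
    calc (j.divisors.card : ℝ) * (Z : ℝ) ^ (-(3 / 4) : ℝ) ≤ (C2 * (N : ℝ) ^ (e1 / 8)) * (N : ℝ) ^ (-(3 * e1 / 4)) :=
          mul_le_mul h4 h3 hZ0 (mul_nonneg (by linarith) (Real.rpow_nonneg hN0.le _))
      _ = C2 * ((N : ℝ) ^ (-(e1 / 8)) * (N : ℝ) ^ (-(e1 / 2))) := by
          rw [mul_assoc, ← Real.rpow_add hN0, ← Real.rpow_add hN0]
          congr 2
          ring
      _ ≤ max C1 C2 * ((N : ℝ) ^ (-(e1 / 8)) * (N : ℝ) ^ (-(e1 / 2))) :=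
          mul_le_mul_of_nonneg_right (le_max_right _ _) (mul_nonneg (Real.rpow_nonneg hN0.le _) (Real.rpow_nonneg hN0.le _))

/-- a prime factor of a modulus is `> y` -/
private theorem XM2_prime {S : MS} {T : Dat} {Wf Z Cc : ℕ} {e1 e2 : ℝ} (h : XOK S T Wf Z Cc e1 e2) {c : S.Col} {μ : S.TX} {ν : S.TY}
    (hμ : μ ∈ S.MX) (hν : ν ∈ S.MY) (ha : Adm S T c μ ν) (b : Bool) {i : ℕ} (hi : i ≤ S.k) {q : ℕ} (hq : q.Prime)
    (hd : q ∣ MP S T b i c μ ν) : T.y < q := by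
  rw [MP, hq.dvd_mul] at hd
  rcases hd with hd | hd
  · obtain ⟨X, e, t, g, -, -⟩ := ha
    have h1 : ek S T c μ ν = e S.k := by
      rw [ek, ← g.last, Nat.mul_div_cancel_left _ h.D0]
    rw [h1] at hd
    have h2 := (g.setA S.k (by omega)).2.2.2.1
    by_contra h3
    exact h2 q hq (by omega) (hd.mul_right _)
  · have h1 := (marks_pos h hμ hν c).2.2.2.2 q hq (hd.trans (GP_dvd S T.N b i hi c μ ν))
    have h2 := h.y_y0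
    omega

theorem fam_facts (Wf Cc : ℕ) (e1 e2 : ℝ) (he2 : e2 ≤ 1 / 8001) : ∃ N0 : ℕ, ∀ (S : MS) (T : Dat) (Z : ℕ), N0 ≤ T.N → XOK S T Wf Z Cc e1 e2 →
    (∀ x ∈ Fam S T, 1 ≤ Mx S T x ∧ (Mx S T x : ℝ) ≤ (T.N : ℝ) ^ ((1 : ℝ) / 2000) ∧ (Mx S T x).Coprime (Wf * T.N)) ∧
    ((Fam S T).card : ℝ) ≤ (T.N : ℝ) ^ (2 * e2) * (Real.log T.N) ^ (Cc + 2) := by
  obtain ⟨N1, hN1⟩ := XM2_pow (e := 1 / 2000 - 2 / 8001) (by norm_num)
  refine ⟨max N1 3, fun S T Z hN h => ⟨fun x hx => ?_, ?_⟩⟩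
  · obtain ⟨m1, m2, m3, m4, m5⟩ := XM2_mem hx
    have hN0 : (0 : ℝ) < T.N := by
      have := h.N2
      exact_mod_cast (by omega : 0 < T.N)
    have hN1' : (1 : ℝ) ≤ T.N := by
      have := h.N2
      exact_mod_cast (by omega : 1 ≤ T.N)
    have h1 := MP_up h m2 m3 m5 x.2.1 x.1 m4
    refine ⟨h1.1, ?_, MP_cop h m2 m3 m5 x.2.1 x.1 m4⟩
    have h2 := h.small _ m2 _ m3
    have h3 := XM2_k h
    have h4 : (Mx S T x : ℝ) ≤ ((S.k + 1 : ℕ) : ℝ) * ((S.prX id x.2.2.2.1 * S.prY id x.2.2.2.2 : ℕ) : ℝ) ^ 2 := by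
      exact_mod_cast h1.2
    have h5 := hN1 T.N (le_trans (le_max_left _ _) hN)
    have h6 : (0 : ℝ) ≤ ((S.k + 1 : ℕ) : ℝ) := Nat.cast_nonneg _
    have h7 : (0 : ℝ) ≤ ((S.prX id x.2.2.2.1 * S.prY id x.2.2.2.2 : ℕ) : ℝ) := Nat.cast_nonneg _
    calc (Mx S T x : ℝ) ≤ ((S.k + 1 : ℕ) : ℝ) * ((S.prX id x.2.2.2.1 * S.prY id x.2.2.2.2 : ℕ) : ℝ) ^ 2 := h4
      _ ≤ Real.log T.N * ((T.N : ℝ) ^ e2) ^ 2 := by
          refine mul_le_mul (by linarith) (pow_le_pow_left₀ h7 h2 2) (by positivity) (by linarith)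
      _ ≤ (T.N : ℝ) ^ ((1 : ℝ) / 2000 - 2 / 8001) * (T.N : ℝ) ^ ((2 : ℝ) / 8001) := by
          refine mul_le_mul h5 ?_ (by positivity) (by positivity)
          rw [← Real.rpow_natCast, ← Real.rpow_mul hN0.le]
          refine Real.rpow_le_rpow_of_exponent_le hN1' ?_
          push_cast
          linarith
      _ = (T.N : ℝ) ^ ((1 : ℝ) / 2000) := by
          rw [← Real.rpow_add hN0]
          congr 1
          ring
  · have hN0 : (0 : ℝ) < T.N := by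
      have := h.N2
      exact_mod_cast (by omega : 0 < T.N)
    have h1 : (Fam S T).card ≤ (S.k + 1) * (2 * (S.CC.card * (S.MX ×ˢ S.MY).card)) := by
      classical
      rw [Fam]
      refine (card_filter_le _ _).trans (le_of_eq ?_)
      rw [card_product, card_product, card_product, card_univ, card_univ, Fintype.card_fin, Fintype.card_bool]
    have h2 := marks_card h
    have h3 := XM2_k h
    have h4 := h.cc
    have h5 : (1 : ℝ) ≤ Real.log T.N := by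
      rw [Real.le_log_iff_exp_le hN0]
      have h6 := Real.exp_one_lt_d9
      have h7 : (3 : ℝ) ≤ T.N := by exact_mod_cast le_trans (le_max_right _ _) hN
      linarith
    have h6 : ((S.MX ×ˢ S.MY).card : ℝ) ≤ (T.N : ℝ) ^ (2 * e2) := by
      rcases Nat.eq_zero_or_pos (S.MX ×ˢ S.MY).card with h0 | h0
      · rw [h0]
        push_cast
        positivity
      · have h7 : (1 : ℝ) ≤ ((S.MX ×ˢ S.MY).card : ℝ) := by exact_mod_cast h0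
        have h8 : (1 : ℝ) ≤ (T.N : ℝ) ^ e2 := h7.trans h2
        calc ((S.MX ×ˢ S.MY).card : ℝ) ≤ (T.N : ℝ) ^ e2 := h2
          _ = 1 * (T.N : ℝ) ^ e2 := (one_mul _).symm
          _ ≤ (T.N : ℝ) ^ e2 * (T.N : ℝ) ^ e2 := mul_le_mul_of_nonneg_right h8 (by positivity)
          _ = (T.N : ℝ) ^ (2 * e2) := by
              rw [← Real.rpow_add hN0]
              congr 1
              ring
    have h7 : (0 : ℝ) ≤ (S.CC.card : ℝ) := Nat.cast_nonneg _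
    have h8 : (0 : ℝ) ≤ ((S.MX ×ˢ S.MY).card : ℝ) := Nat.cast_nonneg _
    have h9 : (0 : ℝ) < Real.log T.N := by linarith
    calc ((Fam S T).card : ℝ) ≤ (2 * ((S.k + 1 : ℕ) : ℝ)) * ((S.CC.card : ℝ) * ((S.MX ×ˢ S.MY).card : ℝ)) := by
          have : ((Fam S T).card : ℝ) ≤ (((S.k + 1) * (2 * (S.CC.card * (S.MX ×ˢ S.MY).card)) : ℕ) : ℝ) := by exact_mod_cast h1
          refine this.trans (le_of_eq ?_)
          push_cast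
          ring
      _ ≤ Real.log T.N * ((Real.log T.N) ^ Cc * (T.N : ℝ) ^ (2 * e2)) := by
          refine mul_le_mul h3 (mul_le_mul h4 h6 h8 (by positivity)) (mul_nonneg h7 h8) h9.le
      _ = (T.N : ℝ) ^ (2 * e2) * (Real.log T.N) ^ (Cc + 1) := by
          rw [pow_succ]
          ring
      _ ≤ (T.N : ℝ) ^ (2 * e2) * (Real.log T.N) ^ (Cc + 2) := by
          refine mul_le_mul_of_nonneg_left (pow_le_pow_right₀ h5 (by omega)) (by positivity)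

open Classical in
theorem fam_w1 (Wf Cc : ℕ) (e1 e2 : ℝ) (he1 : 0 < e1) (he2 : e2 ≤ 1 / 8001) : ∃ N0 : ℕ, ∀ (S : MS) (T : Dat) (Z : ℕ), N0 ≤ T.N →
    XOK S T Wf Z Cc e1 e2 → ∀ j : ℕ, 1 ≤ j → ∑ x ∈ (Fam S T).filter (fun x => j ∣ Mx S T x), 1 / (Mx S T x : ℝ) ≤
      (Real.log T.N) ^ (2 * Cc + 4) * ((j : ℝ) ^ (-(1 / 2) : ℝ) + (T.N : ℝ) ^ (-(e1 / 2))) := by
  obtain ⟨N1, hN1⟩ := fam_facts Wf Cc e1 e2 he2
  obtain ⟨C, hC, hτ⟩ := XM2_tau he1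
  obtain ⟨N2, hN2⟩ := XM2_log (12 * C)
  refine ⟨max N1 N2, fun S T Z hN h j hj => ?_⟩
  obtain ⟨F1, -⟩ := hN1 S T Z (le_trans (le_max_left _ _) hN) h
  have hK : 12 * C ≤ Real.log T.N := hN2 T.N (le_trans (le_max_right _ _) hN)
  have hK1 : 1 ≤ Real.log T.N := by linarith
  have hNn : 1 ≤ T.N := by
    have := h.N2
    omega
  have hN0 : (0 : ℝ) < T.N := by exact_mod_cast hNn
  have hN1' : (1 : ℝ) ≤ T.N := by exact_mod_cast hNn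
  have hj0 : (0 : ℝ) < j := by exact_mod_cast hj
  have hr1 : (0 : ℝ) ≤ (j : ℝ) ^ (-(1 / 2) : ℝ) := Real.rpow_nonneg hj0.le _
  have hr2 : (0 : ℝ) ≤ (T.N : ℝ) ^ (-(e1 / 2)) := Real.rpow_nonneg hN0.le _
  by_cases hjN : j ≤ T.N
  · obtain ⟨t1, t2⟩ := hτ T.N Z j hNn hj hjN h.Zlo
    have t3 : (T.N : ℝ) ^ (-(e1 / 8)) ≤ 1 := Real.rpow_le_one_of_one_le_of_nonpos hN1' (by linarith)
    have h1 : ∑ x ∈ (Fam S T).filter (fun x => j ∣ Mx S T x), 1 / (Mx S T x : ℝ) ≤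
        ((S.k + 1 : ℕ) : ℝ) * (2 * ((S.CC.card : ℝ) * (4 * T.D * ((j.divisors.card : ℝ) * ((j : ℝ) ^ (-(3 / 4) : ℝ) + 2 * (Z : ℝ) ^ (-(3 / 4) : ℝ)))))) := by
      convert XM2_sum S T (fun m => j ∣ m)
        (B := 4 * T.D * ((j.divisors.card : ℝ) * ((j : ℝ) ^ (-(3 / 4) : ℝ) + 2 * (Z : ℝ) ^ (-(3 / 4) : ℝ))))
        (fun c hc b i hi => by convert w1_marks h hc b i hi j hj)
    refine h1.trans ?_
    have hk := XM2_k h
    have hcc := h.cc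
    have hD := h.D_le
    have b1 : (j.divisors.card : ℝ) * ((j : ℝ) ^ (-(3 / 4) : ℝ) + 2 * (Z : ℝ) ^ (-(3 / 4) : ℝ)) ≤
        3 * C * ((j : ℝ) ^ (-(1 / 2) : ℝ) + (T.N : ℝ) ^ (-(e1 / 2))) := by
      have t4 : C * ((T.N : ℝ) ^ (-(e1 / 8)) * (T.N : ℝ) ^ (-(e1 / 2))) ≤ C * (T.N : ℝ) ^ (-(e1 / 2)) := by
        refine mul_le_mul_of_nonneg_left ?_ (by linarith)
        calc (T.N : ℝ) ^ (-(e1 / 8)) * (T.N : ℝ) ^ (-(e1 / 2)) ≤ 1 * (T.N : ℝ) ^ (-(e1 / 2)) :=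
              mul_le_mul_of_nonneg_right t3 hr2
          _ = (T.N : ℝ) ^ (-(e1 / 2)) := one_mul _
      have t5 : 0 ≤ C * (j : ℝ) ^ (-(1 / 2) : ℝ) := mul_nonneg (by linarith) hr1
      have t6 : 0 ≤ C * (T.N : ℝ) ^ (-(e1 / 2)) := mul_nonneg (by linarith) hr2
      calc (j.divisors.card : ℝ) * ((j : ℝ) ^ (-(3 / 4) : ℝ) + 2 * (Z : ℝ) ^ (-(3 / 4) : ℝ))
          = (j.divisors.card : ℝ) * (j : ℝ) ^ (-(3 / 4) : ℝ) + 2 * ((j.divisors.card : ℝ) * (Z : ℝ) ^ (-(3 / 4) : ℝ)) := by ring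
        _ ≤ C * (j : ℝ) ^ (-(1 / 2) : ℝ) + 2 * (C * (T.N : ℝ) ^ (-(e1 / 2))) := by linarith [t2.trans t4]
        _ ≤ 3 * C * ((j : ℝ) ^ (-(1 / 2) : ℝ) + (T.N : ℝ) ^ (-(e1 / 2))) := by linarith
    have hR : 0 ≤ (j : ℝ) ^ (-(1 / 2) : ℝ) + (T.N : ℝ) ^ (-(e1 / 2)) := add_nonneg hr1 hr2
    have hcc0 : (0 : ℝ) ≤ (S.CC.card : ℝ) := Nat.cast_nonneg _
    have hD0 : (0 : ℝ) ≤ (T.D : ℝ) := Nat.cast_nonneg _
    have hb0 : 0 ≤ (j.divisors.card : ℝ) * ((j : ℝ) ^ (-(3 / 4) : ℝ) + 2 * (Z : ℝ) ^ (-(3 / 4) : ℝ)) := by positivity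
    calc ((S.k + 1 : ℕ) : ℝ) * (2 * ((S.CC.card : ℝ) * (4 * T.D * ((j.divisors.card : ℝ) * ((j : ℝ) ^ (-(3 / 4) : ℝ) + 2 * (Z : ℝ) ^ (-(3 / 4) : ℝ))))))
        = (2 * ((S.k + 1 : ℕ) : ℝ)) * ((S.CC.card : ℝ) * (4 * (T.D * ((j.divisors.card : ℝ) * ((j : ℝ) ^ (-(3 / 4) : ℝ) + 2 * (Z : ℝ) ^ (-(3 / 4) : ℝ)))))) := by ring
      _ ≤ Real.log T.N * ((Real.log T.N) ^ Cc * (4 * ((Real.log T.N) ^ Cc * (3 * C * ((j : ℝ) ^ (-(1 / 2) : ℝ) + (T.N : ℝ) ^ (-(e1 / 2))))))) := by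
          refine mul_le_mul hk (mul_le_mul hcc (mul_le_mul_of_nonneg_left (mul_le_mul hD b1 hb0 (by positivity)) (by norm_num)) (by positivity) (by positivity))
            (by positivity) (by positivity)
      _ = (12 * C) * ((Real.log T.N) ^ (2 * Cc + 1) * ((j : ℝ) ^ (-(1 / 2) : ℝ) + (T.N : ℝ) ^ (-(e1 / 2)))) := by
          rw [pow_succ, two_mul, pow_add]
          ring
      _ ≤ Real.log T.N * ((Real.log T.N) ^ (2 * Cc + 1) * ((j : ℝ) ^ (-(1 / 2) : ℝ) + (T.N : ℝ) ^ (-(e1 / 2)))) :=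
          mul_le_mul_of_nonneg_right hK (by positivity)
      _ = (Real.log T.N) ^ (2 * Cc + 2) * ((j : ℝ) ^ (-(1 / 2) : ℝ) + (T.N : ℝ) ^ (-(e1 / 2))) := by
          rw [pow_succ _ (2 * Cc + 1)]
          ring
      _ ≤ (Real.log T.N) ^ (2 * Cc + 4) * ((j : ℝ) ^ (-(1 / 2) : ℝ) + (T.N : ℝ) ^ (-(e1 / 2))) :=
          mul_le_mul_of_nonneg_right (pow_le_pow_right₀ hK1 (by omega)) hR
  · have h0 : (Fam S T).filter (fun x => j ∣ Mx S T x) = ∅ := by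
      rw [filter_eq_empty_iff]
      intro x hx hd
      obtain ⟨a1, a2, -⟩ := F1 x hx
      have a3 := Nat.le_of_dvd a1 hd
      have a4 : (Mx S T x : ℝ) ≤ T.N := by
        refine a2.trans ?_
        calc (T.N : ℝ) ^ ((1 : ℝ) / 2000) ≤ (T.N : ℝ) ^ (1 : ℝ) := Real.rpow_le_rpow_of_exponent_le hN1' (by norm_num)
          _ = T.N := Real.rpow_one _
      have a5 : Mx S T x ≤ T.N := by exact_mod_cast a4
      omega
    rw [h0, sum_empty]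
    positivity

open Classical in
theorem fam_w2 (Wf Cc : ℕ) (e1 e2 : ℝ) (he1 : 0 < e1) (he2 : e2 ≤ 1 / 8001) : ∃ N0 : ℕ, ∀ (S : MS) (T : Dat) (Z : ℕ), N0 ≤ T.N →
    XOK S T Wf Z Cc e1 e2 → ∀ (f : ℕ → ℝ) (σ : ℝ), (T.N : ℝ) ^ (-(e1 / 8)) ≤ σ →
    ∑ q ∈ (QP f ⌊(T.N : ℝ) ^ ((4 : ℝ) / 5)⌋₊).filter (fun q => T.y < q), 1 / (q : ℝ) ≤ σ →
    ∀ j : ℕ, 1 ≤ j → ∑ x ∈ (Fam S T).filter (fun x => ∃ q : ℕ, q.Prime ∧ f q = 1 ∧ q * j ∣ Mx S T x), 1 / (Mx S T x : ℝ) ≤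
      σ * (Real.log T.N) ^ (2 * Cc + 5) * ((j : ℝ) ^ (-(1 / 2) : ℝ) + (T.N : ℝ) ^ (-(e1 / 2))) := by
  obtain ⟨N1, hN1⟩ := fam_facts Wf Cc e1 e2 he2
  obtain ⟨C, hC, hτ⟩ := XM2_tau he1
  obtain ⟨N2, hN2⟩ := XM2_log (40 * C)
  refine ⟨max N1 N2, fun S T Z hN h f σ hσ hQ j hj => ?_⟩
  obtain ⟨F1, -⟩ := hN1 S T Z (le_trans (le_max_left _ _) hN) h
  have hK : 40 * C ≤ Real.log T.N := hN2 T.N (le_trans (le_max_right _ _) hN)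
  have hK1 : 1 ≤ Real.log T.N := by linarith
  have hNn : 1 ≤ T.N := by
    have := h.N2
    omega
  have hN0 : (0 : ℝ) < T.N := by exact_mod_cast hNn
  have hN1' : (1 : ℝ) ≤ T.N := by exact_mod_cast hNn
  have hj0 : (0 : ℝ) < j := by exact_mod_cast hj
  have hr1 : (0 : ℝ) ≤ (j : ℝ) ^ (-(1 / 2) : ℝ) := Real.rpow_nonneg hj0.le _
  have hr2 : (0 : ℝ) ≤ (T.N : ℝ) ^ (-(e1 / 2)) := Real.rpow_nonneg hN0.le _
  have hσ0 : 0 ≤ σ := (Real.rpow_nonneg hN0.le _).trans hσ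
  have hMN : ∀ x ∈ Fam S T, Mx S T x ≤ T.N ∧ Mx S T x ≤ ⌊(T.N : ℝ) ^ ((4 : ℝ) / 5)⌋₊ := by
    intro x hx
    obtain ⟨-, a2, -⟩ := F1 x hx
    constructor
    · have a4 : (Mx S T x : ℝ) ≤ T.N := by
        refine a2.trans ?_
        calc (T.N : ℝ) ^ ((1 : ℝ) / 2000) ≤ (T.N : ℝ) ^ (1 : ℝ) := Real.rpow_le_rpow_of_exponent_le hN1' (by norm_num)
          _ = T.N := Real.rpow_one _
      exact_mod_cast a4
    · rw [Nat.le_floor_iff (Real.rpow_nonneg hN0.le _)]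
      exact a2.trans (Real.rpow_le_rpow_of_exponent_le hN1' (by norm_num))
  set Q := (QP f ⌊(T.N : ℝ) ^ ((4 : ℝ) / 5)⌋₊).filter (fun q => T.y < q) with hQd
  have hsub : (Fam S T).filter (fun x => ∃ q : ℕ, q.Prime ∧ f q = 1 ∧ q * j ∣ Mx S T x) ⊆
      (Fam S T).filter (fun x => ∃ q ∈ Q, q * j ∣ Mx S T x) := by
    intro x hx
    rw [mem_filter] at hx ⊢
    obtain ⟨hx, q, q1, q2, q3⟩ := hx
    refine ⟨hx, q, ?_, q3⟩
    obtain ⟨m1, m2, m3, m4, m5⟩ := XM2_mem hx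
    have q4 : q ∣ Mx S T x := (dvd_mul_right q j).trans q3
    have q5 := Nat.le_of_dvd (F1 x hx).1 q4
    rw [hQd, mem_filter, QP, mem_filter, mem_range]
    refine ⟨⟨?_, q1, q2⟩, XM2_prime h m2 m3 m5 x.2.1 m4 q1 q4⟩
    have := (hMN x hx).2
    omega
  refine (sum_le_sum_of_subset_of_nonneg hsub fun x _ _ => by positivity).trans ?_
  by_cases hjN : j ≤ T.N
  · obtain ⟨t1, t2⟩ := hτ T.N Z j hNn hj hjN h.Zlo
    have t3 : (T.N : ℝ) ^ (-(e1 / 8)) ≤ 1 := Real.rpow_le_one_of_one_le_of_nonpos hN1' (by linarith)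
    have hQp : ∀ q ∈ Q, q.Prime := by
      intro q hq
      rw [hQd, mem_filter, QP, mem_filter] at hq
      exact hq.1.2.1
    have h1 : ∑ x ∈ (Fam S T).filter (fun x => ∃ q ∈ Q, q * j ∣ Mx S T x), 1 / (Mx S T x : ℝ) ≤
        ((S.k + 1 : ℕ) : ℝ) * (2 * ((S.CC.card : ℝ) * (4 * T.D * ((j.divisors.card : ℝ) * ((Fintype.card (FF S) + 4 * (S.k + 1)) * σ *
          ((j : ℝ) ^ (-(3 / 4) : ℝ) + 2 * (Z : ℝ) ^ (-(3 / 4) : ℝ)) + (Z : ℝ) ^ (-(3 / 4) : ℝ)))))) := by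
      convert XM2_sum S T (fun m => ∃ q ∈ Q, q * j ∣ m)
        (B := 4 * T.D * ((j.divisors.card : ℝ) * ((Fintype.card (FF S) + 4 * (S.k + 1)) * σ *
          ((j : ℝ) ^ (-(3 / 4) : ℝ) + 2 * (Z : ℝ) ^ (-(3 / 4) : ℝ)) + (Z : ℝ) ^ (-(3 / 4) : ℝ))))
        (fun c hc b i hi => by convert w2_marks h hc b i hi Q hQp σ hQ j hj)
    refine h1.trans ?_
    have hk := XM2_k h
    have hcc := h.cc
    have hD := h.D_le
    have hnum : (Fintype.card (FF S) : ℝ) + 4 * (S.k + 1) ≤ 3 * Real.log T.N := by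
      have n1 := h.num
      have n2 : Fintype.card (FF S) = 2 * (S.k + 1) + 2 * S.n0 + S.nX + S.nY := by
        rw [Fintype.card_sum, Fintype.card_sum, Fintype.card_sum, Fintype.card_sum, Fintype.card_sum, Fintype.card_fin, Fintype.card_fin,
          Fintype.card_fin, Fintype.card_fin]
        ring
      rw [n2]
      push_cast at hk n1 ⊢
      linarith
    have hR : 0 ≤ (j : ℝ) ^ (-(1 / 2) : ℝ) + (T.N : ℝ) ^ (-(e1 / 2)) := add_nonneg hr1 hr2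
    have t4 : C * ((T.N : ℝ) ^ (-(e1 / 8)) * (T.N : ℝ) ^ (-(e1 / 2))) ≤ C * (T.N : ℝ) ^ (-(e1 / 2)) := by
      refine mul_le_mul_of_nonneg_left ?_ (by linarith)
      calc (T.N : ℝ) ^ (-(e1 / 8)) * (T.N : ℝ) ^ (-(e1 / 2)) ≤ 1 * (T.N : ℝ) ^ (-(e1 / 2)) :=
            mul_le_mul_of_nonneg_right t3 hr2
        _ = (T.N : ℝ) ^ (-(e1 / 2)) := one_mul _
    have t4' : C * ((T.N : ℝ) ^ (-(e1 / 8)) * (T.N : ℝ) ^ (-(e1 / 2))) ≤ C * (σ * (T.N : ℝ) ^ (-(e1 / 2))) :=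
      mul_le_mul_of_nonneg_left (mul_le_mul_of_nonneg_right hσ hr2) (by linarith)
    have t5 : 0 ≤ C * (j : ℝ) ^ (-(1 / 2) : ℝ) := mul_nonneg (by linarith) hr1
    have t6 : 0 ≤ C * (T.N : ℝ) ^ (-(e1 / 2)) := mul_nonneg (by linarith) hr2
    have b1 : (j.divisors.card : ℝ) * ((j : ℝ) ^ (-(3 / 4) : ℝ) + 2 * (Z : ℝ) ^ (-(3 / 4) : ℝ)) ≤
        3 * C * ((j : ℝ) ^ (-(1 / 2) : ℝ) + (T.N : ℝ) ^ (-(e1 / 2))) := by
      calc (j.divisors.card : ℝ) * ((j : ℝ) ^ (-(3 / 4) : ℝ) + 2 * (Z : ℝ) ^ (-(3 / 4) : ℝ))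
          = (j.divisors.card : ℝ) * (j : ℝ) ^ (-(3 / 4) : ℝ) + 2 * ((j.divisors.card : ℝ) * (Z : ℝ) ^ (-(3 / 4) : ℝ)) := by ring
        _ ≤ C * (j : ℝ) ^ (-(1 / 2) : ℝ) + 2 * (C * (T.N : ℝ) ^ (-(e1 / 2))) := by linarith [t2.trans t4]
        _ ≤ 3 * C * ((j : ℝ) ^ (-(1 / 2) : ℝ) + (T.N : ℝ) ^ (-(e1 / 2))) := by linarith
    have hb0 : 0 ≤ (j.divisors.card : ℝ) * ((j : ℝ) ^ (-(3 / 4) : ℝ) + 2 * (Z : ℝ) ^ (-(3 / 4) : ℝ)) := by positivity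
    have b2 : (j.divisors.card : ℝ) * ((Fintype.card (FF S) + 4 * (S.k + 1)) * σ * ((j : ℝ) ^ (-(3 / 4) : ℝ) + 2 * (Z : ℝ) ^ (-(3 / 4) : ℝ)) +
        (Z : ℝ) ^ (-(3 / 4) : ℝ)) ≤ 10 * C * Real.log T.N * (σ * ((j : ℝ) ^ (-(1 / 2) : ℝ) + (T.N : ℝ) ^ (-(e1 / 2)))) := by
      have c1 : (Fintype.card (FF S) + 4 * (S.k + 1)) * σ * ((j.divisors.card : ℝ) * ((j : ℝ) ^ (-(3 / 4) : ℝ) + 2 * (Z : ℝ) ^ (-(3 / 4) : ℝ))) ≤
          (3 * Real.log T.N) * σ * (3 * C * ((j : ℝ) ^ (-(1 / 2) : ℝ) + (T.N : ℝ) ^ (-(e1 / 2)))) :=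
        mul_le_mul (mul_le_mul_of_nonneg_right hnum hσ0) b1 hb0 (by positivity)
      have c2 : (j.divisors.card : ℝ) * (Z : ℝ) ^ (-(3 / 4) : ℝ) ≤ C * (σ * (T.N : ℝ) ^ (-(e1 / 2))) := t2.trans t4'
      have c3 : C * (σ * (T.N : ℝ) ^ (-(e1 / 2))) ≤ C * Real.log T.N * (σ * ((j : ℝ) ^ (-(1 / 2) : ℝ) + (T.N : ℝ) ^ (-(e1 / 2)))) := by
        calc C * (σ * (T.N : ℝ) ^ (-(e1 / 2))) ≤ C * (σ * ((j : ℝ) ^ (-(1 / 2) : ℝ) + (T.N : ℝ) ^ (-(e1 / 2)))) := by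
              refine mul_le_mul_of_nonneg_left (mul_le_mul_of_nonneg_left (by linarith) hσ0) (by linarith)
          _ = C * 1 * (σ * ((j : ℝ) ^ (-(1 / 2) : ℝ) + (T.N : ℝ) ^ (-(e1 / 2)))) := by ring
          _ ≤ C * Real.log T.N * (σ * ((j : ℝ) ^ (-(1 / 2) : ℝ) + (T.N : ℝ) ^ (-(e1 / 2)))) := by
              refine mul_le_mul_of_nonneg_right (mul_le_mul_of_nonneg_left hK1 (by linarith)) (mul_nonneg hσ0 hR)
      calc (j.divisors.card : ℝ) * ((Fintype.card (FF S) + 4 * (S.k + 1)) * σ * ((j : ℝ) ^ (-(3 / 4) : ℝ) + 2 * (Z : ℝ) ^ (-(3 / 4) : ℝ)) +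
            (Z : ℝ) ^ (-(3 / 4) : ℝ))
          = (Fintype.card (FF S) + 4 * (S.k + 1)) * σ * ((j.divisors.card : ℝ) * ((j : ℝ) ^ (-(3 / 4) : ℝ) + 2 * (Z : ℝ) ^ (-(3 / 4) : ℝ))) +
            (j.divisors.card : ℝ) * (Z : ℝ) ^ (-(3 / 4) : ℝ) := by ring
        _ ≤ (3 * Real.log T.N) * σ * (3 * C * ((j : ℝ) ^ (-(1 / 2) : ℝ) + (T.N : ℝ) ^ (-(e1 / 2)))) +
            C * Real.log T.N * (σ * ((j : ℝ) ^ (-(1 / 2) : ℝ) + (T.N : ℝ) ^ (-(e1 / 2)))) := add_le_add c1 (c2.trans c3)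
        _ = 10 * C * Real.log T.N * (σ * ((j : ℝ) ^ (-(1 / 2) : ℝ) + (T.N : ℝ) ^ (-(e1 / 2)))) := by ring
    have hcc0 : (0 : ℝ) ≤ (S.CC.card : ℝ) := Nat.cast_nonneg _
    have hD0 : (0 : ℝ) ≤ (T.D : ℝ) := Nat.cast_nonneg _
    have hb2 : 0 ≤ (j.divisors.card : ℝ) * ((Fintype.card (FF S) + 4 * (S.k + 1)) * σ * ((j : ℝ) ^ (-(3 / 4) : ℝ) + 2 * (Z : ℝ) ^ (-(3 / 4) : ℝ)) +
        (Z : ℝ) ^ (-(3 / 4) : ℝ)) := by positivity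
    calc ((S.k + 1 : ℕ) : ℝ) * (2 * ((S.CC.card : ℝ) * (4 * T.D * ((j.divisors.card : ℝ) * ((Fintype.card (FF S) + 4 * (S.k + 1)) * σ *
            ((j : ℝ) ^ (-(3 / 4) : ℝ) + 2 * (Z : ℝ) ^ (-(3 / 4) : ℝ)) + (Z : ℝ) ^ (-(3 / 4) : ℝ))))))
        = (2 * ((S.k + 1 : ℕ) : ℝ)) * ((S.CC.card : ℝ) * (4 * (T.D * ((j.divisors.card : ℝ) * ((Fintype.card (FF S) + 4 * (S.k + 1)) * σ *
            ((j : ℝ) ^ (-(3 / 4) : ℝ) + 2 * (Z : ℝ) ^ (-(3 / 4) : ℝ)) + (Z : ℝ) ^ (-(3 / 4) : ℝ)))))) := by ring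
      _ ≤ Real.log T.N * ((Real.log T.N) ^ Cc * (4 * ((Real.log T.N) ^ Cc * (10 * C * Real.log T.N *
            (σ * ((j : ℝ) ^ (-(1 / 2) : ℝ) + (T.N : ℝ) ^ (-(e1 / 2)))))))) := by
          refine mul_le_mul hk (mul_le_mul hcc (mul_le_mul_of_nonneg_left (mul_le_mul hD b2 hb2 (by positivity)) (by norm_num)) (by positivity) (by positivity))
            (by positivity) (by positivity)
      _ = (40 * C) * ((Real.log T.N) ^ (2 * Cc + 2) * (σ * ((j : ℝ) ^ (-(1 / 2) : ℝ) + (T.N : ℝ) ^ (-(e1 / 2))))) := by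
          rw [show 2 * Cc + 2 = Cc + Cc + 1 + 1 by ring, pow_succ, pow_succ, pow_add]
          ring
      _ ≤ Real.log T.N * ((Real.log T.N) ^ (2 * Cc + 2) * (σ * ((j : ℝ) ^ (-(1 / 2) : ℝ) + (T.N : ℝ) ^ (-(e1 / 2))))) :=
          mul_le_mul_of_nonneg_right hK (by positivity)
      _ = (Real.log T.N) ^ (2 * Cc + 3) * (σ * ((j : ℝ) ^ (-(1 / 2) : ℝ) + (T.N : ℝ) ^ (-(e1 / 2)))) := by
          rw [pow_succ _ (2 * Cc + 2)]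
          ring
      _ ≤ (Real.log T.N) ^ (2 * Cc + 5) * (σ * ((j : ℝ) ^ (-(1 / 2) : ℝ) + (T.N : ℝ) ^ (-(e1 / 2)))) :=
          mul_le_mul_of_nonneg_right (pow_le_pow_right₀ hK1 (by omega)) (mul_nonneg hσ0 hR)
      _ = σ * (Real.log T.N) ^ (2 * Cc + 5) * ((j : ℝ) ^ (-(1 / 2) : ℝ) + (T.N : ℝ) ^ (-(e1 / 2))) := by ring
  · have h0 : (Fam S T).filter (fun x => ∃ q ∈ Q, q * j ∣ Mx S T x) = ∅ := by
      rw [filter_eq_empty_iff]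
      rintro x hx ⟨q, -, hd⟩
      have a3 := Nat.le_of_dvd (F1 x hx).1 ((dvd_mul_left j q).trans hd)
      have a5 := (hMN x hx).1
      omega
    rw [h0, sum_empty]
    positivity

end Pool.Agent.Lib.TE
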